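import Pool.Agent.Lib.MP_78c35a_an.TrajA

/-!
# The energy identity and the pairing with a smooth functional
-/

set_option autoImplicit false

namespace Pool.Agent.Kdv

open MeasureTheory Filter Topology Set
open scoped ENNReal InnerProductSpace

variable {H V : Type} [NormedAddCommGroup H] [InnerProductSpace ℝ H] [CompleteSpace H]
  [NormedAddCommGroup V] [NormedSpace ℝ V]

/-- Continuous times integrable. -/
theorem inner_int {h w : ℝ → H} {t : ℝ} (ht : 0 ≤ t) (hh : IntegrableOn h (Ioc 0 t))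
    (hw : ContinuousOn w (Icc 0 t)) :
    IntegrableOn (fun s => (inner ℝ (h s) (w s) : ℝ)) (Ioc 0 t) := by
  obtain ⟨C, hC⟩ := isCompact_Icc.exists_bound_of_continuousOn hw
  have hwm : AEStronglyMeasurable w (volume.restrict (Ioc 0 t)) :=
    (hw.mono Ioc_subset_Icc_self).aestronglyMeasurable measurableSet_Ioc
  refine Integrable.mono (hh.norm.mul_const C) (hh.aestronglyMeasurable.inner hwm) ?_
  rw [ae_restrict_iff' measurableSet_Ioc]
  refine Eventually.of_forall fun s hs => ?_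
  refine (norm_inner_le_norm _ _).trans ?_
  have h1 := hC s (Ioc_subset_Icc_self hs)
  have hC0 : 0 ≤ C := (norm_nonneg _).trans h1
  rw [norm_mul, norm_norm, Real.norm_of_nonneg hC0]
  gcongr

theorem prim_cont {h : ℝ → H} {t : ℝ} (ht : 0 ≤ t) (hh : IntegrableOn h (Ioc 0 t)) :
    ContinuousOn (fun s => ∫ r in (0 : ℝ)..s, h r) (Icc 0 t) := by
  have h1 := intervalIntegral.continuousOn_primitive_interval
    (μ := volume) (a := (0 : ℝ)) (b := t) (f := h) (by
      rwa [uIcc_of_le ht, integrableOn_Icc_iff_integrableOn_Ioc])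
  rwa [uIcc_of_le ht] at h1

/-- Fubini on the triangle. -/
theorem triangle {h1 h2 : ℝ → H} {t : ℝ} (ht : 0 ≤ t) (hh1 : IntegrableOn h1 (Ioc 0 t))
    (hh2 : IntegrableOn h2 (Ioc 0 t)) :
    ∫ s in (0 : ℝ)..t, (inner ℝ (h1 s) (∫ r in (0 : ℝ)..s, h2 r) : ℝ) =
      ∫ r in (0 : ℝ)..t, (inner ℝ (∫ s in r..t, h1 s) (h2 r) : ℝ) := by
  set μ : Measure ℝ := volume.restrict (Ioc 0 t) with hμ
  set F : ℝ → ℝ → ℝ := fun s r => indicator {p : ℝ × ℝ | p.2 ≤ p.1}
    (fun p => inner ℝ (h1 p.1) (h2 p.2)) (s, r) with hF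
  have hm : MeasurableSet {p : ℝ × ℝ | p.2 ≤ p.1} := measurableSet_le measurable_snd measurable_fst
  have hFi : Integrable (Function.uncurry F) (μ.prod μ) := by
    have h0 : Integrable (fun p : ℝ × ℝ => (inner ℝ (h1 p.1) (h2 p.2) : ℝ)) (μ.prod μ) := by
      have ha : AEStronglyMeasurable (fun p : ℝ × ℝ => (inner ℝ (h1 p.1) (h2 p.2) : ℝ))
          (μ.prod μ) := by
        have a1 : AEStronglyMeasurable (fun p : ℝ × ℝ => h1 p.1) (μ.prod μ) :=
          hh1.aestronglyMeasurable.comp_fst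
        have a2 : AEStronglyMeasurable (fun p : ℝ × ℝ => h2 p.2) (μ.prod μ) :=
          hh2.aestronglyMeasurable.comp_snd
        exact a1.inner a2
      refine Integrable.mono (Integrable.mul_prod hh1.norm hh2.norm) ha ?_
      refine Eventually.of_forall fun p => ?_
      refine (norm_inner_le_norm _ _).trans (le_of_eq ?_)
      simp
    have h2 := h0.indicator hm
    exact h2
  have key := integral_integral_swap hFi
  rw [intervalIntegral.integral_of_le ht, intervalIntegral.integral_of_le ht]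
  have e1 : ∀ s ∈ Ioc 0 t, (∫ r, F s r ∂μ) = inner ℝ (h1 s) (∫ r in (0 : ℝ)..s, h2 r) := by
    intro s hs
    have c1 : (∫ r, F s r ∂μ) = ∫ r in Ioc 0 t, indicator (Iic s) (fun r => inner ℝ (h1 s) (h2 r)) r := by
      refine integral_congr_ae (Eventually.of_forall fun r => ?_)
      simp only [hF, indicator, mem_ofPred_eq, mem_Iic]
    rw [c1, setIntegral_indicator measurableSet_Iic, Ioc_inter_Iic, min_eq_right hs.2,
      intervalIntegral.integral_of_le hs.1.le]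
    exact integral_inner (hh2.mono_set (Ioc_subset_Ioc_right hs.2)) _
  have e2 : ∀ r ∈ Ioc 0 t, (∫ s, F s r ∂μ) = inner ℝ (∫ s in r..t, h1 s) (h2 r) := by
    intro r hr
    have c1 : (∫ s, F s r ∂μ) = ∫ s in Ioc 0 t, indicator (Ici r) (fun s => inner ℝ (h1 s) (h2 r)) s := by
      refine integral_congr_ae (Eventually.of_forall fun s => ?_)
      simp only [hF, indicator, mem_ofPred_eq, mem_Ici]
    have c2 : Ioc 0 t ∩ Ici r = Icc r t := by
      ext x
      simp only [mem_inter_iff, mem_Ioc, mem_Ici, mem_Icc]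
      exact ⟨fun h => ⟨h.2, h.1.2⟩, fun h => ⟨⟨hr.1.trans_le h.1, h.2⟩, h.1⟩⟩
    rw [c1, setIntegral_indicator measurableSet_Ici, c2, integral_Icc_eq_integral_Ioc,
      intervalIntegral.integral_of_le hr.2]
    have h5 : IntegrableOn h1 (Ioc r t) := hh1.mono_set (Ioc_subset_Ioc_left hr.1.le)
    have h4 : ∫ s in Ioc r t, (inner ℝ (h1 s) (h2 r) : ℝ) =
        ∫ s in Ioc r t, (inner ℝ (h2 r) (h1 s) : ℝ) :=
      integral_congr_ae (Eventually.of_forall fun s => real_inner_comm _ _)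
    rw [h4, integral_inner h5, real_inner_comm]
  calc ∫ s in Ioc 0 t, (inner ℝ (h1 s) (∫ r in (0 : ℝ)..s, h2 r) : ℝ)
      = ∫ s, (∫ r, F s r ∂μ) ∂μ := setIntegral_congr_fun measurableSet_Ioc fun s hs => (e1 s hs).symm
    _ = ∫ r, (∫ s, F s r ∂μ) ∂μ := key
    _ = _ := setIntegral_congr_fun measurableSet_Ioc fun r hr => e2 r hr

/-- The product rule. -/
theorem prod_rule (a b : H) {h1 h2 : ℝ → H} {t : ℝ} (ht : 0 ≤ t) (hh1 : IntegrableOn h1 (Ioc 0 t))
    (hh2 : IntegrableOn h2 (Ioc 0 t)) :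
    (inner ℝ (a + ∫ s in (0 : ℝ)..t, h1 s) (b + ∫ s in (0 : ℝ)..t, h2 s) : ℝ) =
      inner ℝ a b + ∫ s in (0 : ℝ)..t,
        ((inner ℝ (h1 s) (b + ∫ r in (0 : ℝ)..s, h2 r) : ℝ) +
          inner ℝ (a + ∫ r in (0 : ℝ)..s, h1 r) (h2 s)) := by
  have c1 := prim_cont ht hh1
  have c2 := prim_cont ht hh2
  have i1 : IntervalIntegrable h1 volume 0 t :=
    (intervalIntegrable_iff_integrableOn_Ioc_of_le ht).2 hh1
  have i2 : IntervalIntegrable h2 volume 0 t :=
    (intervalIntegrable_iff_integrableOn_Ioc_of_le ht).2 hh2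
  have ii : ∀ {g : ℝ → ℝ}, IntegrableOn g (Ioc 0 t) → IntervalIntegrable g volume 0 t :=
    fun h => (intervalIntegrable_iff_integrableOn_Ioc_of_le ht).2 h
  have j1 : IntervalIntegrable (fun s => (inner ℝ (h1 s) b : ℝ)) volume 0 t :=
    ii (inner_int ht hh1 continuousOn_const)
  have j2 : IntervalIntegrable (fun s => (inner ℝ (h1 s) (∫ r in (0 : ℝ)..s, h2 r) : ℝ)) volume 0 t :=
    ii (inner_int ht hh1 c2)
  have j3 : IntervalIntegrable (fun s => (inner ℝ a (h2 s) : ℝ)) volume 0 t := by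
    refine ii ((inner_int ht hh2 (continuousOn_const (c := a))).congr ?_)
    exact Eventually.of_forall fun s => real_inner_comm _ _
  have j4 : IntervalIntegrable (fun s => (inner ℝ (∫ r in (0 : ℝ)..s, h1 r) (h2 s) : ℝ)) volume 0 t := by
    refine ii ((inner_int ht hh2 c1).congr ?_)
    exact Eventually.of_forall fun s => real_inner_comm _ _
  have e : ∫ s in (0 : ℝ)..t,
        ((inner ℝ (h1 s) (b + ∫ r in (0 : ℝ)..s, h2 r) : ℝ) +
          inner ℝ (a + ∫ r in (0 : ℝ)..s, h1 r) (h2 s)) =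
      ((∫ s in (0 : ℝ)..t, (inner ℝ (h1 s) b : ℝ)) +
        ∫ s in (0 : ℝ)..t, (inner ℝ (h1 s) (∫ r in (0 : ℝ)..s, h2 r) : ℝ)) +
      ((∫ s in (0 : ℝ)..t, (inner ℝ a (h2 s) : ℝ)) +
        ∫ s in (0 : ℝ)..t, (inner ℝ (∫ r in (0 : ℝ)..s, h1 r) (h2 s) : ℝ)) := by
    rw [← intervalIntegral.integral_add j1 j2, ← intervalIntegral.integral_add j3 j4,
      ← intervalIntegral.integral_add (j1.add j2) (j3.add j4)]
    refine intervalIntegral.integral_congr fun s _ => ?_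
    simp only [inner_add_right, inner_add_left]
  have k1 : ∫ s in (0 : ℝ)..t, (inner ℝ (h1 s) b : ℝ) = inner ℝ (∫ s in (0 : ℝ)..t, h1 s) b := by
    have e0 : ∫ s in (0 : ℝ)..t, (inner ℝ (h1 s) b : ℝ) = ∫ s in (0 : ℝ)..t, (inner ℝ b (h1 s) : ℝ) :=
      intervalIntegral.integral_congr fun s _ => real_inner_comm _ _
    rw [e0, intervalIntegral.integral_of_le ht, intervalIntegral.integral_of_le ht,
      integral_inner hh1, real_inner_comm]
  have k3 : ∫ s in (0 : ℝ)..t, (inner ℝ a (h2 s) : ℝ) = inner ℝ a (∫ s in (0 : ℝ)..t, h2 s) := by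
    rw [intervalIntegral.integral_of_le ht, intervalIntegral.integral_of_le ht, integral_inner hh2]
  have k2 : ∫ s in (0 : ℝ)..t, (inner ℝ (h1 s) (∫ r in (0 : ℝ)..s, h2 r) : ℝ) =
      inner ℝ (∫ s in (0 : ℝ)..t, h1 s) (∫ s in (0 : ℝ)..t, h2 s) -
        ∫ s in (0 : ℝ)..t, (inner ℝ (∫ r in (0 : ℝ)..s, h1 r) (h2 s) : ℝ) := by
    rw [triangle ht hh1 hh2]
    have e0 : ∫ r in (0 : ℝ)..t, (inner ℝ (∫ s in r..t, h1 s) (h2 r) : ℝ) =
        ∫ r in (0 : ℝ)..t, ((inner ℝ (∫ s in (0 : ℝ)..t, h1 s) (h2 r) : ℝ) -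
          inner ℝ (∫ s in (0 : ℝ)..r, h1 s) (h2 r)) := by
      refine intervalIntegral.integral_congr fun r hr => ?_
      rw [uIcc_of_le ht] at hr
      have e3 := intervalIntegral.integral_add_adjacent_intervals
        (ii_of hh1 le_rfl hr.1 hr.2) (ii_of hh1 hr.1 hr.2 le_rfl)
      change (inner ℝ (∫ s in r..t, h1 s) (h2 r) : ℝ) =
        (inner ℝ (∫ s in (0 : ℝ)..t, h1 s) (h2 r) : ℝ) - inner ℝ (∫ s in (0 : ℝ)..r, h1 s) (h2 r)
      rw [← e3, inner_add_left]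
      ring
    have j5 : IntervalIntegrable (fun r => (inner ℝ (∫ s in (0 : ℝ)..t, h1 s) (h2 r) : ℝ))
        volume 0 t := by
      refine ii ((inner_int ht hh2 (continuousOn_const (c := ∫ s in (0 : ℝ)..t, h1 s))).congr ?_)
      exact Eventually.of_forall fun s => real_inner_comm _ _
    rw [e0, intervalIntegral.integral_sub j5 j4]
    congr 1
    rw [intervalIntegral.integral_of_le ht, integral_inner hh2,
      ← intervalIntegral.integral_of_le ht]
  rw [e, k1, k2, k3]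
  simp only [inner_add_right, inner_add_left]
  ring

theorem Sm.energy (S : Sm H V) (y : H) {f : ℝ → H} {T : ℝ} (hf : IntegrableOn f (Ioc 0 T))
    {t : ℝ} (ht : t ∈ Icc 0 T) :
    ‖S.traj y f t‖ ^ 2 = ‖y‖ ^ 2 + 2 * ∫ s in (0 : ℝ)..t, inner ℝ (f s) (S.traj y f s) := by
  have hh : IntegrableOn (fun s => S.U (-s) (f s)) (Ioc 0 t) :=
    S.U_int (by fun_prop) (hf.mono_set (Ioc_subset_Ioc_right ht.2))
  rw [S.traj_eq y hf ht, S.U_norm, ← real_inner_self_eq_norm_sq, prod_rule y y ht.1 hh hh,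
    real_inner_self_eq_norm_sq, ← intervalIntegral.integral_const_mul]
  congr 1
  refine intervalIntegral.integral_congr fun s hs => ?_
  rw [uIcc_of_le ht.1] at hs
  have h1 := S.traj_eq y hf (t := s) ⟨hs.1, hs.2.trans ht.2⟩
  change (inner ℝ (S.U (-s) (f s)) (y + ∫ r in (0 : ℝ)..s, S.U (-r) (f r)) : ℝ) +
    inner ℝ (y + ∫ r in (0 : ℝ)..s, S.U (-r) (f r)) (S.U (-s) (f s)) =
      2 * (inner ℝ (f s) (S.traj y f s) : ℝ)
  rw [h1, real_inner_comm (S.U (-s) (f s)) (y + ∫ r in (0 : ℝ)..s, S.U (-r) (f r)), S.U_adj,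
    neg_neg]
  ring

theorem Sm.pair (S : Sm H V) {psi psi' : H}
    (gen : ∀ t, S.U (-t) psi = psi + ∫ s in (0 : ℝ)..t, S.U (-s) psi')
    (y : H) {f : ℝ → H} {T : ℝ} (hf : IntegrableOn f (Ioc 0 T)) {t : ℝ} (ht : t ∈ Icc 0 T) :
    inner ℝ psi (S.traj y f t) = inner ℝ psi y +
      ∫ s in (0 : ℝ)..t, (inner ℝ psi' (S.traj y f s) + inner ℝ psi (f s)) := by
  have hh : IntegrableOn (fun s => S.U (-s) (f s)) (Ioc 0 t) :=
    S.U_int (by fun_prop) (hf.mono_set (Ioc_subset_Ioc_right ht.2))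
  have hp : IntegrableOn (fun s => S.U (-s) psi') (Ioc 0 t) :=
    ((S.U_cont psi').comp continuous_neg).integrableOn_Ioc
  rw [S.traj_eq y hf ht, ← real_inner_comm, S.U_adj, gen, ← real_inner_comm,
    prod_rule psi y ht.1 hp hh]
  congr 1
  refine intervalIntegral.integral_congr fun s hs => ?_
  rw [uIcc_of_le ht.1] at hs
  have h1 := S.traj_eq y hf (t := s) ⟨hs.1, hs.2.trans ht.2⟩
  change (inner ℝ (S.U (-s) psi') (y + ∫ r in (0 : ℝ)..s, S.U (-r) (f r)) : ℝ) +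
    inner ℝ (psi + ∫ r in (0 : ℝ)..s, S.U (-r) psi') (S.U (-s) (f s)) =
      (inner ℝ psi' (S.traj y f s) : ℝ) + inner ℝ psi (f s)
  rw [h1, ← gen, S.U_adj, neg_neg, S.U_inner]

end Pool.Agent.Kdv
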