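import Pool.Agent.Lib.MP_78c35a_an.Par

/-!
# Reflection
-/

set_option autoImplicit false

namespace Pool.Agent.Kdv

open MeasureTheory Filter Topology Set
open scoped ENNReal

variable {n : ℕ}

/-- A property which holds almost everywhere holds almost everywhere after reflection. -/
lemma Refl_pull (L : ℝ) {P : ℝ → Prop} (h : ∀ᵐ x ∂volume, P x) : ∀ᵐ x ∂volume, P (L - x) :=
  (Measure.measurePreserving_sub_left volume L).quasiMeasurePreserving.ae h

lemma refl_refl (L : ℝ) (y : L2) : refl L (refl L y) = y := by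
  apply Lp.ext
  filter_upwards [refl_ae L (refl L y), Refl_pull L (refl_ae L y)] with x h1 h2
  rw [h1, h2]
  congr 1
  ring

lemma Refl_J {L x : ℝ} : L - x ∈ J L ↔ x ∈ J L := by
  unfold J
  simp only [mem_Ioo]
  constructor <;> rintro ⟨h1, h2⟩ <;> constructor <;> linarith

lemma Refl_mem (L : ℝ) (p : V1 L) : ((refl L p.1.1, -refl L p.1.2) : L2 × L2) ∈ V1sub L := by
  obtain ⟨hp1, c, hp2⟩ := p.2
  have hn : ∀ᵐ x ∂volume, (-refl L p.1.2) x = -p.1.2 (L - x) := by
    filter_upwards [Lp.coeFn_neg (refl L p.1.2), refl_ae L p.1.2] with x h1 h2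
    rw [h1, Pi.neg_apply, h2]
  refine ⟨?_, c + ∫ s in (-1)..(L + 1), p.1.2 s, ?_⟩
  · filter_upwards [hn, Refl_pull L hp1] with x h1 h2 hx
    change (-refl L p.1.2) x = 0
    rw [h1, h2 (fun h => hx (Refl_J.1 h)), neg_zero]
  · filter_upwards [refl_ae L p.1.1, Refl_pull L hp2] with x h1 h2 hx
    change refl L p.1.1 x = _ + ∫ s in (-1)..x, (-refl L p.1.2) s
    rw [h1, h2 (Refl_J.2 hx)]
    have h3 : (∫ s in (-1)..x, (-refl L p.1.2) s) = ∫ s in (-1)..x, -p.1.2 (L - s) :=
      intervalIntegral.integral_congr_ae (by filter_upwards [hn] with s hs _ using hs)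
    rw [h3, intervalIntegral.integral_neg, intervalIntegral.integral_comp_sub_left]
    have h4 : (∫ s in (-1)..(L - x), p.1.2 s) + ∫ s in (L - x)..(L - -1), p.1.2 s =
        ∫ s in (-1)..(L - -1), p.1.2 s :=
      intervalIntegral.integral_add_adjacent_intervals (L2.intervalIntegrable _ _ _)
        (L2.intervalIntegrable _ _ _)
    rw [sub_neg_eq_add] at h4 ⊢
    linarith

theorem exists_reflV (L : ℝ) : ∃ R : V1 L →L[ℝ] V1 L, ∀ p, V1.u L (R p) = refl L (V1.u L p) ∧
    V1.d L (R p) = -refl L (V1.d L p) := by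
  let R₀ : V1 L →L[ℝ] L2 × L2 :=
    ((refl L).toContinuousLinearMap.comp (V1.u L)).prod
      (-((refl L).toContinuousLinearMap.comp (V1.d L)))
  refine ⟨R₀.codRestrict (V1sub L) fun p => Refl_mem L p, fun p => ⟨rfl, rfl⟩⟩

/-- Reflection on `VV n L`. -/
noncomputable def rhoV (n : ℕ) (L : ℝ) : VV n L →L[ℝ] VV n L :=
  ContinuousLinearMap.pi fun j => (Classical.choose (exists_reflV L)).comp
    (ContinuousLinearMap.proj j)

lemma uu_rhoV (L : ℝ) (j : Fin n) (p : VV n L) : uu j (rhoV n L p) = refl L (uu j p) :=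
  (Classical.choose_spec (exists_reflV L) (p j)).1

lemma dd_rhoV (L : ℝ) (j : Fin n) (p : VV n L) : dd j (rhoV n L p) = -refl L (dd j p) :=
  (Classical.choose_spec (exists_reflV L) (p j)).2

@[simp] lemma rho_apply (L : ℝ) (y : HH n) (j : Fin n) : rho n L y j = refl L (y j) := rfl

@[simp] lemma PP_apply (L : ℝ) (y : HH n) (j : Fin n) : PP n L y j = mulOp (one L) (y j) := rfl

lemma Refl_one_meas (L : ℝ) : Measurable (one L) :=
  measurable_one.indicator measurableSet_Ioo

lemma Refl_one_bdd (L : ℝ) : ∃ C, ∀ x, |one L x| ≤ C := by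
  refine ⟨1, fun x => ?_⟩
  unfold one indicator
  split_ifs <;> simp

lemma Refl_chi_meas (L : ℝ) : Measurable (chi L) := by
  unfold chi
  exact measurable_const.max (measurable_const.min
    ((measurable_const.add measurable_id).min (measurable_const.sub measurable_id)))

lemma Refl_chi_bdd (L : ℝ) : ∃ C, ∀ x, |chi L x| ≤ C := by
  refine ⟨1, fun x => ?_⟩
  unfold chi
  rw [abs_of_nonneg (le_max_left _ _)]
  exact max_le zero_le_one (min_le_left _ _)

lemma Refl_dchi_meas (L : ℝ) : Measurable (dchi L) := by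
  unfold dchi
  exact (measurable_one.indicator measurableSet_Ioo).sub
    (measurable_one.indicator measurableSet_Ioo)

lemma Refl_dchi_bdd (L : ℝ) : ∃ C, ∀ x, |dchi L x| ≤ C := by
  refine ⟨2, fun x => ?_⟩
  unfold dchi indicator
  split_ifs <;> norm_num

lemma Refl_one (L x : ℝ) : one L (L - x) = one L x := by
  unfold one indicator
  have h : L - x ∈ Ioo 0 L ↔ x ∈ Ioo 0 L := by
    simp only [mem_Ioo]
    constructor <;> rintro ⟨h1, h2⟩ <;> constructor <;> linarith
  simp only [h, Pi.one_apply]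

lemma Refl_chi (L x : ℝ) : chi L (L - x) = chi L x := by
  unfold chi
  have h1 : 1 + (L - x) = L + 1 - x := by ring
  have h2 : L + 1 - (L - x) = 1 + x := by ring
  rw [h1, h2, min_comm (L + 1 - x)]

lemma Refl_dchi (L x : ℝ) : dchi L (L - x) = -dchi L x := by
  unfold dchi indicator
  have h1 : L - x ∈ Ioo (-1) 0 ↔ x ∈ Ioo L (L + 1) := by
    simp only [mem_Ioo]
    constructor <;> rintro ⟨h1, h2⟩ <;> constructor <;> linarith
  have h2 : L - x ∈ Ioo L (L + 1) ↔ x ∈ Ioo (-1) 0 := by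
    simp only [mem_Ioo]
    constructor <;> rintro ⟨h1, h2⟩ <;> constructor <;> linarith
  simp only [h1, h2, Pi.one_apply, neg_sub]

/-- Multiplication by an even function commutes with the reflection. -/
lemma Refl_even {L : ℝ} {m : ℝ → ℝ} (hm : Measurable m) (hb : ∃ C, ∀ x, |m x| ≤ C)
    (he : ∀ x, m (L - x) = m x) (y : L2) : mulOp m (refl L y) = refl L (mulOp m y) := by
  apply Lp.ext
  filter_upwards [mulOp_ae hm hb (refl L y), refl_ae L y, refl_ae L (mulOp m y),
    Refl_pull L (mulOp_ae hm hb y)] with x h1 h2 h3 h4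
  rw [h1, h2, h3, h4, he]

/-- Multiplication by an odd function anticommutes with the reflection. -/
lemma Refl_odd {L : ℝ} {m : ℝ → ℝ} (hm : Measurable m) (hb : ∃ C, ∀ x, |m x| ≤ C)
    (he : ∀ x, m (L - x) = -m x) (y : L2) : mulOp m (refl L y) = -refl L (mulOp m y) := by
  apply Lp.ext
  filter_upwards [mulOp_ae hm hb (refl L y), refl_ae L y, refl_ae L (mulOp m y),
    Refl_pull L (mulOp_ae hm hb y), Lp.coeFn_neg (refl L (mulOp m y))] with x h1 h2 h3 h4 h5
  rw [h1, h2, h5, Pi.neg_apply, h3, h4, he]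
  ring

lemma PP_ae (L : ℝ) (y : HH n) (j : Fin n) :
    ∀ᵐ x ∂volume, PP n L y j x = one L x * y j x :=
  mulOp_ae (Refl_one_meas L) (Refl_one_bdd L) (y j)

theorem rho_rho (L : ℝ) (y : HH n) : rho n L (rho n L y) = y := by
  ext1 j
  rw [rho_apply, rho_apply, refl_refl]

theorem rho_norm (L : ℝ) (y : HH n) : ‖rho n L y‖ = ‖y‖ := by
  rw [PiLp.norm_eq_of_L2, PiLp.norm_eq_of_L2]
  simp only [rho_apply, LinearIsometry.norm_map]

theorem rho_UU (p : Par n) (t : ℝ) (y : HH n) :
    rho n p.L (UU p t y) = UU p (-t) (rho n p.L y) := by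
  ext1 j
  rw [rho_apply, UU_apply, UU_apply, rho_apply, airy_refl, mul_neg]

theorem inc_rhoV (L : ℝ) (p : VV n L) : inc n L (rhoV n L p) = rho n L (inc n L p) := by
  ext1 j
  rw [inc_apply, rho_apply, inc_apply, uu_rhoV]

theorem PP_PP (L : ℝ) (y : HH n) : PP n L (PP n L y) = PP n L y := by
  ext1 j
  apply Lp.ext
  filter_upwards [PP_ae L (PP n L y) j, PP_ae L y j] with x h1 h2
  rw [h1, h2, ← mul_assoc]
  congr 1
  unfold one indicator
  split_ifs <;> simp

theorem PP_symm (L : ℝ) (x y : HH n) : inner ℝ (PP n L x) y = inner ℝ x (PP n L y) := by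
  rw [PiLp.inner_apply, PiLp.inner_apply]
  refine Finset.sum_congr rfl fun j _ => ?_
  rw [MeasureTheory.L2.inner_def, MeasureTheory.L2.inner_def]
  refine integral_congr_ae ?_
  filter_upwards [PP_ae L x j, PP_ae L y j] with t h1 h2
  rw [h1, h2]
  simp only [RCLike.inner_apply, conj_trivial]
  ring

theorem PP_rho (L : ℝ) (y : HH n) : PP n L (rho n L y) = rho n L (PP n L y) := by
  ext1 j
  rw [PP_apply, rho_apply, rho_apply, PP_apply]
  exact Refl_even (Refl_one_meas L) (Refl_one_bdd L) (Refl_one L) (y j)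

theorem l_rho (L : ℝ) (S : Fin n → Fin n → ℝ) (p : VV n L) :
    lmap n L S (rhoV n L p) = -rho n L (lmap n L S p) := by
  ext1 j
  have h1 : ∀ q : VV n L, lmap n L S q j = -∑ k, S j k • (mulOp (chi L) (dd k q) +
      (1 / 2 : ℝ) • mulOp (dchi L) (uu k q)) := by
    intro q
    unfold lmap
    rw [mkH_apply]
    simp only [ContinuousLinearMap.neg_apply, ContinuousLinearMap.sum_apply,
      ContinuousLinearMap.smul_apply, ContinuousLinearMap.add_apply,
      ContinuousLinearMap.comp_apply]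
  change lmap n L S (rhoV n L p) j = -(rho n L (lmap n L S p) j)
  rw [rho_apply, h1, h1, map_neg, map_sum, neg_neg, ← Finset.sum_neg_distrib]
  refine Finset.sum_congr rfl fun k _ => ?_
  rw [map_smul, map_add, map_smul, uu_rhoV, dd_rhoV, map_neg,
    Refl_even (Refl_chi_meas L) (Refl_chi_bdd L) (Refl_chi L),
    Refl_odd (Refl_dchi_meas L) (Refl_dchi_bdd L) (Refl_dchi L), smul_neg, ← neg_add, smul_neg,
    neg_neg]

lemma Refl_toL2_ae {F : ℝ → ℝ} (h : MemLp F 2 volume) : ∀ᵐ x ∂volume, toL2 F x = F x := by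
  unfold toL2
  rw [dif_pos h]
  exact h.coeFn_toLp

lemma Refl_toL2_congr {F G : ℝ → ℝ} (h : ∀ᵐ x ∂volume, F x = G x) : toL2 F = toL2 G := by
  by_cases hF : MemLp F 2 volume
  · have hG : MemLp G 2 volume := hF.ae_eq h
    apply Lp.ext
    filter_upwards [Refl_toL2_ae hF, Refl_toL2_ae hG, h] with x h1 h2 h3
    rw [h1, h2, h3]
  · have hG : ¬ MemLp G 2 volume := fun h' => hF (h'.ae_eq (EventuallyEq.symm h))
    unfold toL2
    rw [dif_neg hF, dif_neg hG]

lemma Refl_toL2_neg (F : ℝ → ℝ) : toL2 (fun x => -F x) = -toL2 F := by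
  by_cases hF : MemLp F 2 volume
  · apply Lp.ext
    have hG : MemLp (fun x => -F x) 2 volume := hF.neg
    filter_upwards [Refl_toL2_ae hF, Refl_toL2_ae hG, Lp.coeFn_neg (toL2 F)] with x h1 h2 h3
    rw [h2, h3, Pi.neg_apply, h1]
  · have hG : ¬ MemLp (fun x => -F x) 2 volume := by
      intro h
      have h1 := h.neg
      have h2 : (-fun x => -F x) = F := by
        funext x
        simp
      rw [h2] at h1
      exact hF h1
    unfold toL2
    rw [dif_neg hF, dif_neg hG, neg_zero]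

lemma Refl_toL2 (L : ℝ) (F : ℝ → ℝ) : toL2 (fun x => F (L - x)) = refl L (toL2 F) := by
  have hmp := Measure.measurePreserving_sub_left volume L
  by_cases hF : MemLp F 2 volume
  · have hG : MemLp (fun x => F (L - x)) 2 volume := hF.comp_measurePreserving hmp
    apply Lp.ext
    filter_upwards [Refl_toL2_ae hG, refl_ae L (toL2 F), Refl_pull L (Refl_toL2_ae hF)] with
      x h1 h2 h3
    rw [h1, h2, h3]
  · have hG : ¬ MemLp (fun x => F (L - x)) 2 volume := by
      intro h
      have h1 := h.comp_measurePreserving hmp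
      have h2 : (fun x => F (L - x)) ∘ (fun x => L - x) = F := by
        funext x
        simp
      rw [h2] at h1
      exact hF h1
    unfold toL2
    rw [dif_neg hF, dif_neg hG, map_zero]

theorem q_rho (L : ℝ) (g : Fin n → Fin n → Fin n → ℝ) (p : VV n L) :
    qmap n L g (rhoV n L p) = -rho n L (qmap n L g p) := by
  ext1 j
  change qmap n L g (rhoV n L p) j = -(rho n L (qmap n L g p) j)
  rw [rho_apply]
  change toL2 _ = -refl L (toL2 _)
  rw [← Refl_toL2, ← Refl_toL2_neg]
  refine Refl_toL2_congr ?_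
  have h1 : ∀ᵐ x ∂volume, ∀ k, uu k (rhoV n L p) x = uu k p (L - x) := by
    rw [ae_all_iff]
    intro k
    rw [uu_rhoV]
    exact refl_ae L _
  have h2 : ∀ᵐ x ∂volume, ∀ k, dd k (rhoV n L p) x = -dd k p (L - x) := by
    rw [ae_all_iff]
    intro k
    rw [dd_rhoV]
    filter_upwards [Lp.coeFn_neg (refl L (dd k p)), refl_ae L (dd k p)] with x h3 h4
    rw [h3, Pi.neg_apply, h4]
  filter_upwards [h1, h2] with x h3 h4
  rw [neg_neg, ← Finset.sum_neg_distrib]
  refine Finset.sum_congr rfl fun k _ => ?_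
  rw [← Finset.sum_neg_distrib]
  refine Finset.sum_congr rfl fun l _ => ?_
  rw [h3, h3, h4, Refl_chi, Refl_dchi]
  ring

end Pool.Agent.Kdv
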