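import Pool.Agent.Lib.MP_78c35a_an.Quadr

/-!
# The nonlinear terms do no work
-/

set_option autoImplicit false

namespace Pool.Agent.Kdv

open MeasureTheory Filter Topology Set
open scoped ENNReal

variable {n : ℕ} {L : ℝ}

namespace Skw

theorem ae_ne (b : ℝ) : ∀ᵐ s ∂(volume : Measure ℝ), s ≠ b := by
  have := (countable_singleton b).ae_notMem (volume : Measure ℝ)
  simpa using this

theorem dchi_left (hL : 0 < L) : ∀ᵐ s ∂(volume : Measure ℝ), s ∈ Ioc (-1 : ℝ) 0 →
    dchi L s = 1 := by
  filter_upwards [ae_ne 0] with s h1 h2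
  have h3 : s < 0 := lt_of_le_of_ne h2.2 h1
  unfold dchi
  rw [indicator_of_mem (show s ∈ Ioo (-1 : ℝ) 0 from ⟨h2.1, h3⟩),
    indicator_of_notMem (fun h => by linarith [h.1] : s ∉ Ioo L (L + 1))]
  simp

theorem dchi_mid : ∀ᵐ s ∂(volume : Measure ℝ), s ∈ Ioc (0 : ℝ) L → dchi L s = 0 := by
  refine Eventually.of_forall fun s h2 => ?_
  unfold dchi
  rw [indicator_of_notMem (fun h => by linarith [h.2, h2.1] : s ∉ Ioo (-1 : ℝ) 0),
    indicator_of_notMem (fun h => by linarith [h.1, h2.2] : s ∉ Ioo L (L + 1))]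
  simp

theorem dchi_right (hL : 0 < L) : ∀ᵐ s ∂(volume : Measure ℝ), s ∈ Ioc L (L + 1) →
    dchi L s = -1 := by
  filter_upwards [ae_ne (L + 1)] with s h1 h2
  have h3 : s < L + 1 := lt_of_le_of_ne h2.2 h1
  unfold dchi
  rw [indicator_of_notMem (fun h => by linarith [h.2, h2.1] : s ∉ Ioo (-1 : ℝ) 0),
    indicator_of_mem (show s ∈ Ioo L (L + 1) from ⟨h2.1, h3⟩)]
  simp

theorem dchi_meas (L : ℝ) : Measurable (dchi L) :=
  (measurable_one.indicator measurableSet_Ioo).sub (measurable_one.indicator measurableSet_Ioo)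

theorem dchi_bdd (L x : ℝ) : |dchi L x| ≤ 2 := by
  unfold dchi
  have h1 : |(Ioo (-1 : ℝ) 0).indicator (1 : ℝ → ℝ) x| ≤ 1 := by
    by_cases h : x ∈ Ioo (-1 : ℝ) 0
    · rw [indicator_of_mem h]; simp
    · rw [indicator_of_notMem h]; simp
  have h2 : |(Ioo L (L + 1)).indicator (1 : ℝ → ℝ) x| ≤ 1 := by
    by_cases h : x ∈ Ioo L (L + 1)
    · rw [indicator_of_mem h]; simp
    · rw [indicator_of_notMem h]; simp
  calc |(Ioo (-1 : ℝ) 0).indicator (1 : ℝ → ℝ) x - (Ioo L (L + 1)).indicator 1 x| ≤ _ :=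
        abs_sub _ _
    _ ≤ 2 := by linarith

theorem chi_cont (L : ℝ) : Continuous (chi L) := by
  unfold chi
  fun_prop

theorem chi_bdd (L x : ℝ) : |chi L x| ≤ 1 := by
  unfold chi
  rw [abs_le]
  constructor
  · linarith [le_max_left 0 (min 1 (min (1 + x) (L + 1 - x)))]
  · exact max_le zero_le_one (min_le_left _ _)

theorem dchi_ii (L a b : ℝ) : IntervalIntegrable (dchi L) volume a b := by
  rw [intervalIntegrable_iff]
  refine Measure.integrableOn_of_bounded (M := 2) (by simp) (dchi_meas L).aestronglyMeasurable ?_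
  exact Eventually.of_forall fun x => by rw [Real.norm_eq_abs]; exact dchi_bdd L x

end Skw

open Skw

/-- `chi` is the integral of `dchi`. -/
theorem chi_eq (hL : 0 < L) (x : ℝ) (hx : x ∈ Icc (-1) (L + 1)) :
    chi L x = ∫ s in (-1)..x, dchi L s := by
  have hleft : ∀ y : ℝ, -1 ≤ y → y ≤ 0 → ∫ s in (-1)..y, dchi L s = y + 1 := by
    intro y h1 h2
    have : ∫ s in (-1)..y, dchi L s = ∫ s in (-1)..y, (1 : ℝ) := by
      refine intervalIntegral.integral_congr_ae ?_
      filter_upwards [dchi_left hL] with s h3 h4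
      rw [uIoc_of_le h1] at h4
      exact h3 ⟨h4.1, h4.2.trans h2⟩
    rw [this, intervalIntegral.integral_const, smul_eq_mul]
    ring
  have hmid : ∀ y : ℝ, 0 ≤ y → y ≤ L → ∫ s in (0 : ℝ)..y, dchi L s = 0 := by
    intro y h1 h2
    have : ∫ s in (0 : ℝ)..y, dchi L s = ∫ s in (0 : ℝ)..y, (0 : ℝ) := by
      refine intervalIntegral.integral_congr_ae ?_
      filter_upwards [dchi_mid (L := L)] with s h3 h4
      rw [uIoc_of_le h1] at h4
      exact h3 ⟨h4.1, h4.2.trans h2⟩
    rw [this]
    simp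
  have hright : ∀ y : ℝ, L ≤ y → y ≤ L + 1 → ∫ s in L..y, dchi L s = L - y := by
    intro y h1 h2
    have : ∫ s in L..y, dchi L s = ∫ s in L..y, (-1 : ℝ) := by
      refine intervalIntegral.integral_congr_ae ?_
      filter_upwards [dchi_right hL] with s h3 h4
      rw [uIoc_of_le h1] at h4
      exact h3 ⟨h4.1, h4.2.trans h2⟩
    rw [this, intervalIntegral.integral_const, smul_eq_mul]
    ring
  rcases le_total x 0 with h0 | h0
  · rw [hleft x hx.1 h0]
    unfold chi
    have e1 : min (1 + x) (L + 1 - x) = 1 + x := min_eq_left (by linarith)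
    rw [e1, min_eq_right (by linarith), max_eq_right (by linarith [hx.1])]
    ring
  · have hs0 := intervalIntegral.integral_add_adjacent_intervals (dchi_ii L (-1) 0) (dchi_ii L 0 x)
    rw [← hs0, hleft 0 (by norm_num) le_rfl]
    rcases le_total x L with h1 | h1
    · rw [hmid x h0 h1]
      unfold chi
      have e1 : (1 : ℝ) ≤ min (1 + x) (L + 1 - x) := le_min (by linarith) (by linarith)
      rw [min_eq_left e1, max_eq_right zero_le_one]
      ring
    · have hs1 := intervalIntegral.integral_add_adjacent_intervals (dchi_ii L 0 L) (dchi_ii L L x)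
      rw [← hs1, hmid L hL.le le_rfl, hright x h1 hx.2]
      unfold chi
      have e1 : min (1 + x) (L + 1 - x) = L + 1 - x := min_eq_right (by linarith)
      rw [e1, min_eq_right (by linarith), max_eq_right (by linarith [hx.2])]
      ring

namespace Skw

theorem inner_eq (f g : L2) : inner ℝ f g = ∫ x, f x * g x := by
  rw [L2.inner_def]
  refine integral_congr_ae (Eventually.of_forall fun x => ?_)
  simp [mul_comm]

theorem chi_out {x : ℝ} (hx : x ∉ J L) : chi L x = 0 := by
  unfold chi
  refine max_eq_left ?_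
  refine (min_le_right _ _).trans ?_
  by_cases h : -1 < x
  · have : L + 1 ≤ x := by
      by_contra h2
      exact hx ⟨h, not_le.mp h2⟩
    exact (min_le_right _ _).trans (by linarith)
  · exact (min_le_left _ _).trans (by linarith)

theorem dchi_out (hL : 0 < L) {x : ℝ} (hx : x ∉ J L) : dchi L x = 0 := by
  unfold dchi
  rw [indicator_of_notMem, indicator_of_notMem]
  · simp
  · intro h
    exact hx ⟨by linarith [h.1], h.2⟩
  · intro h
    exact hx ⟨h.1, by linarith [h.2]⟩

theorem chi_left (L : ℝ) (_hL : 0 < L) : chi L (-1) = 0 :=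
  chi_out fun h => by have := h.1; linarith

theorem chi_right (L : ℝ) (_hL : 0 < L) : chi L (L + 1) = 0 :=
  chi_out fun h => by have := h.2; linarith

theorem cut (hL : 0 < L) {F F' : ℝ → ℝ} (h1 : ∀ᵐ x ∂volume, x ∈ J L → F x = F' x)
    (h2 : ∀ᵐ x ∂volume, x ∉ J L → F x = 0) (hi : IntervalIntegrable F' volume (-1) (L + 1)) :
    Integrable F volume ∧ ∫ x, F x = ∫ x in (-1)..(L + 1), F' x := by
  have hle : (-1 : ℝ) ≤ L + 1 := by linarith
  have e : F =ᵐ[volume] (J L).indicator F' := by
    filter_upwards [h1, h2] with x a1 a2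
    by_cases hx : x ∈ J L
    · rw [indicator_of_mem hx, a1 hx]
    · rw [indicator_of_notMem hx, a2 hx]
  have hi' : IntegrableOn F' (J L) volume :=
    (intervalIntegrable_iff_integrableOn_Ioo_of_le hle).mp hi
  constructor
  · exact (Integrable.congr ((integrable_indicator_iff measurableSet_Ioo).mpr hi') e.symm)
  · rw [integral_congr_ae e, integral_indicator (show MeasurableSet (J L) from measurableSet_Ioo),
      intervalIntegral.integral_of_le hle, integral_Ioc_eq_integral_Ioo]
    rfl

/-- the element which is `1` on `J` -/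
noncomputable def oneJ (L : ℝ) : V1 L :=
  ⟨(indicatorConstLp 2 (show MeasurableSet (J L) from measurableSet_Ioo)
      (by unfold J; simp) (1 : ℝ), 0), by
    constructor
    · filter_upwards [Lp.coeFn_zero ℝ 2 (volume : Measure ℝ)] with x hx _ using hx
    · refine ⟨1, ?_⟩
      have h0 : ∀ x : ℝ, (∫ s in (-1)..x, (0 : L2) s) = 0 := by
        intro x
        have : (∫ s in (-1)..x, (0 : L2) s) = ∫ s in (-1)..x, (0 : ℝ) :=
          intervalIntegral.integral_congr_ae
            (by filter_upwards [Lp.coeFn_zero ℝ 2 (volume : Measure ℝ)] with s hs _ using hs)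
        rw [this]
        simp
      filter_upwards [indicatorConstLp_coeFn (p := 2)
        (hs := (show MeasurableSet (J L) from measurableSet_Ioo))
        (hμs := (by unfold J; simp)) (c := (1 : ℝ)) (μ := volume)] with x hx hxJ
      rw [h0 x, add_zero]
      refine hx.trans ?_
      rw [indicator_of_mem hxJ]⟩

theorem oneJ_val (hL : 0 < L) {x : ℝ} (hx : x ∈ Icc (-1) (L + 1)) : (oneJ L).val x = 1 := by
  refine V1.val_unique hL (oneJ L) (F := fun _ => (1 : ℝ)) continuous_const ?_ x hx
  filter_upwards [indicatorConstLp_coeFn (p := 2)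
    (hs := (show MeasurableSet (J L) from measurableSet_Ioo))
    (hμs := (by unfold J; simp)) (c := (1 : ℝ)) (μ := volume)] with x hx hxJ
  refine hx.trans ?_
  rw [indicator_of_mem hxJ]

theorem oneJ_d : ∀ᵐ x ∂volume, V1.d L (oneJ L) x = 0 := Lp.coeFn_zero ℝ 2 (volume : Measure ℝ)

theorem chi_int (hL : 0 < L) (x : ℝ) (hx : x ∈ Icc (-1) (L + 1)) :
    chi L x = chi L (-1) + ∫ s in (-1)..x, dchi L s := by
  rw [chi_left L hL, zero_add, chi_eq hL x hx]

/-- the product of `chi` and an element of `V1` -/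
theorem chi_val_int (hL : 0 < L) (R : V1 L) (x : ℝ) (hx : x ∈ Icc (-1) (L + 1)) :
    chi L x * R.val x = chi L (-1) * R.val (-1) +
      ∫ s in (-1)..x, (dchi L s * R.val s + chi L s * V1.d L R s) := by
  have h := V1.parts hL R (oneJ L) (a := -1) (b := x) le_rfl hx.1 hx.2 (chi_cont L)
    (w' := dchi L) (fun y hy => chi_int hL y ⟨hy.1, hy.2.trans hx.2⟩) (dchi_ii L _ _)
  have h1 : ∫ s in (-1)..x, (dchi L s * R.val s + chi L s * V1.d L R s)
      = ∫ s in (-1)..x, (dchi L s * R.val s * (oneJ L).val s +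
        chi L s * (V1.d L R s * (oneJ L).val s + R.val s * V1.d L (oneJ L) s)) := by
    refine intervalIntegral.integral_congr_ae ?_
    filter_upwards [oneJ_d (L := L)] with s h3 h4
    rw [uIoc_of_le hx.1] at h4
    rw [h3, oneJ_val hL ⟨h4.1.le, h4.2.trans hx.2⟩]
    ring
  rw [h1, h, oneJ_val hL hx, oneJ_val hL ⟨le_rfl, by linarith⟩]
  ring

theorem chi_val_ii (R : V1 L) (a b : ℝ) :
    IntervalIntegrable (fun s => dchi L s * R.val s + chi L s * V1.d L R s) volume a b :=
  ((dchi_ii L a b).mul_continuousOn (V1.val_cont R).continuousOn).add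
    ((L2.intervalIntegrable _ a b).continuousOn_mul (chi_cont L).continuousOn)

theorem pair2 (hL : 0 < L) (P Q : V1 L) :
    Integrable (fun x => dchi L x * V1.u L P x * V1.u L Q x +
      chi L x * (V1.d L P x * V1.u L Q x + V1.u L P x * V1.d L Q x)) volume ∧
    ∫ x, (dchi L x * V1.u L P x * V1.u L Q x +
      chi L x * (V1.d L P x * V1.u L Q x + V1.u L P x * V1.d L Q x)) = 0 := by
  have hle : (-1 : ℝ) ≤ L + 1 := by linarith
  have hP := (V1.val_cont P).continuousOn (s := uIcc (-1) (L + 1))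
  have hQ := (V1.val_cont Q).continuousOn (s := uIcc (-1) (L + 1))
  have hc := (chi_cont L).continuousOn (s := uIcc (-1) (L + 1))
  have hi : IntervalIntegrable (fun x => dchi L x * P.val x * Q.val x +
      chi L x * (V1.d L P x * Q.val x + P.val x * V1.d L Q x)) volume (-1) (L + 1) := by
    refine IntervalIntegrable.add (((dchi_ii L _ _).mul_continuousOn hP).mul_continuousOn hQ) ?_
    refine IntervalIntegrable.continuousOn_mul ?_ hc
    exact ((L2.intervalIntegrable _ _ _).mul_continuousOn hQ).add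
      ((L2.intervalIntegrable _ _ _).continuousOn_mul hP)
  have h := cut hL (F := fun x => dchi L x * V1.u L P x * V1.u L Q x +
      chi L x * (V1.d L P x * V1.u L Q x + V1.u L P x * V1.d L Q x))
    (by
      filter_upwards [V1.val_ae P, V1.val_ae Q] with x a1 a2 hx
      simp only [a1 hx, a2 hx])
    (by
      refine Eventually.of_forall fun x hx => ?_
      simp only [chi_out hx, dchi_out hL hx, zero_mul, add_zero]) hi
  refine ⟨h.1, ?_⟩
  rw [h.2, V1.parts hL P Q le_rfl hle le_rfl (chi_cont L) (chi_int hL) (dchi_ii L _ _),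
    chi_left L hL, chi_right L hL]
  ring

theorem pair3 (hL : 0 < L) (P Q R : V1 L) :
    Integrable (fun x => dchi L x * V1.u L P x * V1.u L Q x * V1.u L R x +
      chi L x * (V1.d L P x * V1.u L Q x * V1.u L R x + V1.u L P x * V1.d L Q x * V1.u L R x +
        V1.u L P x * V1.u L Q x * V1.d L R x)) volume ∧
    ∫ x, (dchi L x * V1.u L P x * V1.u L Q x * V1.u L R x +
      chi L x * (V1.d L P x * V1.u L Q x * V1.u L R x + V1.u L P x * V1.d L Q x * V1.u L R x +
        V1.u L P x * V1.u L Q x * V1.d L R x)) = 0 := by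
  have hle : (-1 : ℝ) ≤ L + 1 := by linarith
  have hP := (V1.val_cont P).continuousOn (s := uIcc (-1) (L + 1))
  have hQ := (V1.val_cont Q).continuousOn (s := uIcc (-1) (L + 1))
  have hR := (V1.val_cont R).continuousOn (s := uIcc (-1) (L + 1))
  have hc := (chi_cont L).continuousOn (s := uIcc (-1) (L + 1))
  have hi : IntervalIntegrable (fun x => (dchi L x * R.val x + chi L x * V1.d L R x) *
      P.val x * Q.val x +
      chi L x * R.val x * (V1.d L P x * Q.val x + P.val x * V1.d L Q x)) volume (-1) (L + 1) := by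
    refine IntervalIntegrable.add
      (((chi_val_ii R _ _).mul_continuousOn hP).mul_continuousOn hQ) ?_
    refine IntervalIntegrable.continuousOn_mul ?_ (hc.mul hR)
    exact ((L2.intervalIntegrable _ _ _).mul_continuousOn hQ).add
      ((L2.intervalIntegrable _ _ _).continuousOn_mul hP)
  have h := cut hL (F := fun x => dchi L x * V1.u L P x * V1.u L Q x * V1.u L R x +
      chi L x * (V1.d L P x * V1.u L Q x * V1.u L R x + V1.u L P x * V1.d L Q x * V1.u L R x +
        V1.u L P x * V1.u L Q x * V1.d L R x))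
    (by
      filter_upwards [V1.val_ae P, V1.val_ae Q, V1.val_ae R] with x a1 a2 a3 hx
      simp only [a1 hx, a2 hx, a3 hx]
      ring)
    (by
      refine Eventually.of_forall fun x hx => ?_
      simp only [chi_out hx, dchi_out hL hx, zero_mul, add_zero]) hi
  refine ⟨h.1, ?_⟩
  rw [h.2, V1.parts hL P Q le_rfl hle le_rfl (w := fun x => chi L x * R.val x)
    ((chi_cont L).mul (V1.val_cont R)) (chi_val_int hL R) (chi_val_ii R _ _), chi_left L hL,
    chi_right L hL]
  ring

theorem alg2 {S : Fin n → Fin n → ℝ} (hS : ∀ j k, S j k = S k j) (c b : ℝ) (u d : Fin n → ℝ) :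
    ∑ j, (-∑ k, S j k * (c * d k + (1 / 2) * (b * u k))) * u j =
      ∑ j, ∑ k, (-(1 / 2) * S j k) * (b * u j * u k + c * (d j * u k + u j * d k)) := by
  have h1 : ∑ j, ∑ k, S j k * (c * (d j * u k)) = ∑ j, ∑ k, S j k * (c * (u j * d k)) := by
    rw [Finset.sum_comm]
    refine Finset.sum_congr rfl fun j _ => Finset.sum_congr rfl fun k _ => ?_
    rw [hS k j]
    ring
  have h2 : ∑ j, (-∑ k, S j k * (c * d k + (1 / 2) * (b * u k))) * u j =
      -(∑ j, ∑ k, S j k * (c * (u j * d k))) -
        (1 / 2) * ∑ j, ∑ k, S j k * (b * u j * u k) := by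
    rw [Finset.mul_sum, ← Finset.sum_neg_distrib, ← Finset.sum_sub_distrib]
    refine Finset.sum_congr rfl fun j _ => ?_
    rw [Finset.mul_sum, neg_mul, Finset.sum_mul, ← Finset.sum_neg_distrib,
      ← Finset.sum_neg_distrib, ← Finset.sum_sub_distrib]
    refine Finset.sum_congr rfl fun k _ => ?_
    ring
  have h3 : ∑ j, ∑ k, (-(1 / 2) * S j k) * (b * u j * u k + c * (d j * u k + u j * d k)) =
      -(1 / 2) * (∑ j, ∑ k, S j k * (b * u j * u k)) -
        (1 / 2) * (∑ j, ∑ k, S j k * (c * (d j * u k))) -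
        (1 / 2) * (∑ j, ∑ k, S j k * (c * (u j * d k))) := by
    simp only [Finset.mul_sum, ← Finset.sum_sub_distrib]
    refine Finset.sum_congr rfl fun j _ => Finset.sum_congr rfl fun k _ => ?_
    ring
  rw [h2, h3, h1]
  ring

theorem alg3 {g : Fin n → Fin n → Fin n → ℝ} (g12 : ∀ j k l, g j k l = g k j l)
    (g23 : ∀ j k l, g j k l = g j l k) (c b : ℝ) (u d : Fin n → ℝ) :
    ∑ j, (-∑ k, ∑ l, g j k l * (c * u k * d l + (1 / 3) * b * u k * u l)) * u j =
      ∑ j, ∑ k, ∑ l, (-(1 / 3) * g j k l) *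
        (b * u j * u k * u l + c * (d j * u k * u l + u j * d k * u l + u j * u k * d l)) := by
  have h1 : ∑ j, ∑ k, ∑ l, g j k l * (c * (d j * u k * u l)) =
      ∑ j, ∑ k, ∑ l, g j k l * (c * (u j * u k * d l)) := by
    have e1 : ∀ F : Fin n → Fin n → Fin n → ℝ, ∑ j, ∑ k, ∑ l, F j k l = ∑ j, ∑ k, ∑ l, F l k j := by
      intro F
      calc ∑ j, ∑ k, ∑ l, F j k l = ∑ j, ∑ l, ∑ k, F j k l :=
            Finset.sum_congr rfl fun j _ => Finset.sum_comm
        _ = ∑ l, ∑ j, ∑ k, F j k l := Finset.sum_comm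
        _ = ∑ l, ∑ k, ∑ j, F j k l := Finset.sum_congr rfl fun j _ => Finset.sum_comm
    rw [e1]
    refine Finset.sum_congr rfl fun j _ => Finset.sum_congr rfl fun k _ =>
      Finset.sum_congr rfl fun l _ => ?_
    rw [g12 l k j, g23 k l j, g12 k j l]
    ring
  have h1' : ∑ j, ∑ k, ∑ l, g j k l * (c * (u j * d k * u l)) =
      ∑ j, ∑ k, ∑ l, g j k l * (c * (u j * u k * d l)) := by
    refine Finset.sum_congr rfl fun j _ => ?_
    rw [Finset.sum_comm]
    refine Finset.sum_congr rfl fun k _ => Finset.sum_congr rfl fun l _ => ?_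
    rw [g23 j l k]
    ring
  have h2 : ∑ j, (-∑ k, ∑ l, g j k l * (c * u k * d l + (1 / 3) * b * u k * u l)) * u j =
      -(∑ j, ∑ k, ∑ l, g j k l * (c * (u j * u k * d l))) -
        (1 / 3) * ∑ j, ∑ k, ∑ l, g j k l * (b * u j * u k * u l) := by
    rw [Finset.mul_sum, ← Finset.sum_neg_distrib, ← Finset.sum_sub_distrib]
    refine Finset.sum_congr rfl fun j _ => ?_
    rw [Finset.mul_sum, neg_mul, Finset.sum_mul, ← Finset.sum_neg_distrib,
      ← Finset.sum_neg_distrib, ← Finset.sum_sub_distrib]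
    refine Finset.sum_congr rfl fun k _ => ?_
    rw [Finset.mul_sum, Finset.sum_mul, ← Finset.sum_neg_distrib,
      ← Finset.sum_neg_distrib, ← Finset.sum_sub_distrib]
    refine Finset.sum_congr rfl fun l _ => ?_
    ring
  have h3 : ∑ j, ∑ k, ∑ l, (-(1 / 3) * g j k l) *
        (b * u j * u k * u l + c * (d j * u k * u l + u j * d k * u l + u j * u k * d l)) =
      -(1 / 3) * (∑ j, ∑ k, ∑ l, g j k l * (b * u j * u k * u l)) -
        (1 / 3) * (∑ j, ∑ k, ∑ l, g j k l * (c * (d j * u k * u l))) -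
        (1 / 3) * (∑ j, ∑ k, ∑ l, g j k l * (c * (u j * d k * u l))) -
        (1 / 3) * (∑ j, ∑ k, ∑ l, g j k l * (c * (u j * u k * d l))) := by
    simp only [Finset.mul_sum, ← Finset.sum_sub_distrib]
    refine Finset.sum_congr rfl fun j _ => Finset.sum_congr rfl fun k _ =>
      Finset.sum_congr rfl fun l _ => ?_
    ring
  rw [h2, h3, h1, h1']
  ring

theorem inner_HH (y z : HH n) : inner ℝ y z = ∫ x, ∑ j, y j x * z j x := by
  rw [PiLp.inner_apply, integral_finsetSum]
  · exact Finset.sum_congr rfl fun j _ => inner_eq _ _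
  · intro j _
    exact (Lp.memLp (y j)).integrable_mul (Lp.memLp (z j))

end Skw

theorem l_skew (hL : 0 < L) {S : Fin n → Fin n → ℝ} (hS : ∀ j k, S j k = S k j) (p : VV n L) :
    inner ℝ (lmap n L S p) (inc n L p) = 0 := by
  rw [inner_HH]
  have h1 : ∫ x, ∑ j, lmap n L S p j x * inc n L p j x = ∫ x, ∑ j, ∑ k, (-(1 / 2) * S j k) *
      (dchi L x * V1.u L (p j) x * V1.u L (p k) x +
      chi L x * (V1.d L (p j) x * V1.u L (p k) x + V1.u L (p j) x * V1.d L (p k) x)) := by
    refine integral_congr_ae ?_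
    filter_upwards [ae_all_iff.mpr (lmap_ae L S p)] with x hx
    rw [← alg2 hS (chi L x) (dchi L x) (fun j => V1.u L (p j) x) (fun j => V1.d L (p j) x)]
    refine Finset.sum_congr rfl fun j _ => ?_
    rw [hx j]
    rfl
  rw [h1, integral_finsetSum]
  · refine Finset.sum_eq_zero fun j _ => ?_
    rw [integral_finsetSum]
    · refine Finset.sum_eq_zero fun k _ => ?_
      rw [integral_const_mul, (pair2 hL (p j) (p k)).2, mul_zero]
    · intro k _
      exact (pair2 hL (p j) (p k)).1.const_mul _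
  · intro j _
    exact integrable_finsetSum _ fun k _ => (pair2 hL (p j) (p k)).1.const_mul _

theorem q_skew (hL : 0 < L) {g : Fin n → Fin n → Fin n → ℝ} (g12 : ∀ j k l, g j k l = g k j l)
    (g23 : ∀ j k l, g j k l = g j l k) (p : VV n L) :
    inner ℝ (qmap n L g p) (inc n L p) = 0 := by
  rw [inner_HH]
  have h1 : ∫ x, ∑ j, qmap n L g p j x * inc n L p j x =
      ∫ x, ∑ j, ∑ k, ∑ l, (-(1 / 3) * g j k l) *
      (dchi L x * V1.u L (p j) x * V1.u L (p k) x * V1.u L (p l) x +
      chi L x * (V1.d L (p j) x * V1.u L (p k) x * V1.u L (p l) x +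
        V1.u L (p j) x * V1.d L (p k) x * V1.u L (p l) x +
        V1.u L (p j) x * V1.u L (p k) x * V1.d L (p l) x)) := by
    refine integral_congr_ae ?_
    filter_upwards [ae_all_iff.mpr (qmap_ae hL g p)] with x hx
    rw [← alg3 g12 g23 (chi L x) (dchi L x) (fun j => V1.u L (p j) x) (fun j => V1.d L (p j) x)]
    refine Finset.sum_congr rfl fun j _ => ?_
    rw [hx j]
    rfl
  rw [h1, integral_finsetSum]
  · refine Finset.sum_eq_zero fun j _ => ?_
    rw [integral_finsetSum]
    · refine Finset.sum_eq_zero fun k _ => ?_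
      rw [integral_finsetSum]
      · refine Finset.sum_eq_zero fun l _ => ?_
        rw [integral_const_mul, (pair3 hL (p j) (p k) (p l)).2, mul_zero]
      · intro l _
        exact (pair3 hL (p j) (p k) (p l)).1.const_mul _
    · intro k _
      exact integrable_finsetSum _ fun l _ => (pair3 hL (p j) (p k) (p l)).1.const_mul _
  · intro j _
    exact integrable_finsetSum _ fun k _ =>
      integrable_finsetSum _ fun l _ => (pair3 hL (p j) (p k) (p l)).1.const_mul _

end Pool.Agent.Kdv
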