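import Pool.Agent.Lib.MP_78c35a_an.Agm

/-!
# The quadratic term
-/

set_option autoImplicit false

namespace Pool.Agent.Kdv

open MeasureTheory Filter Topology Set
open scoped ENNReal

variable {n : ℕ} {L : ℝ}

namespace QuadrAux

theorem sum_ae {ι : Type} (s : Finset ι) (F : ι → L2) (G : ι → ℝ → ℝ)
    (h : ∀ i, ∀ᵐ x ∂volume, F i x = G i x) :
    ∀ᵐ x ∂volume, (∑ i ∈ s, F i : L2) x = ∑ i ∈ s, G i x := by
  classical
  induction s using Finset.induction_on with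
  | empty =>
    filter_upwards [Lp.coeFn_zero ℝ 2 (volume : Measure ℝ)] with x hx
    simp
  | insert i s hi ih =>
    rw [Finset.sum_insert hi]
    filter_upwards [Lp.coeFn_add (F i) (∑ i ∈ s, F i), h i, ih] with x h1 h2 h3
    rw [h1, Pi.add_apply, h2, h3, Finset.sum_insert hi]

theorem chi_cont (L : ℝ) : Continuous (chi L) := by
  unfold chi
  fun_prop

theorem chi_abs (L x : ℝ) : |chi L x| ≤ 1 := by
  unfold chi
  rw [abs_of_nonneg (le_max_left _ _)]
  exact max_le zero_le_one (min_le_left _ _)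

theorem chi_out (L : ℝ) {x : ℝ} (hx : x ∉ J L) : chi L x = 0 := by
  unfold chi
  refine max_eq_left ?_
  by_contra hlt
  push Not at hlt
  have h1 := lt_min_iff.1 (lt_min_iff.1 hlt).2
  exact hx ⟨by linarith [h1.1], by linarith [h1.2]⟩

theorem dchi_meas (L : ℝ) : Measurable (dchi L) := by
  unfold dchi
  exact (measurable_const.indicator measurableSet_Ioo).sub
    (measurable_const.indicator measurableSet_Ioo)

theorem dchi_abs (L x : ℝ) : |dchi L x| ≤ 1 := by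
  unfold dchi
  by_cases h1 : x ∈ Ioo (-1 : ℝ) 0 <;> by_cases h2 : x ∈ Ioo L (L + 1) <;> simp [h1, h2]

theorem dchi_out (hL : 0 < L) {x : ℝ} (hx : x ∉ J L) : dchi L x = 0 := by
  unfold dchi
  rw [indicator_of_notMem, indicator_of_notMem, sub_zero]
  · exact fun h => hx ⟨by linarith [h.1], h.2⟩
  · exact fun h => hx ⟨h.1, by linarith [h.2]⟩

/-- The weight functions which occur. -/
structure Good (L : ℝ) (w : ℝ → ℝ) : Prop where
  meas : Measurable w
  abs : ∀ x, |w x| ≤ 1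
  out : ∀ x, x ∉ J L → w x = 0

theorem good_chi (L : ℝ) : Good L (chi L) :=
  ⟨(chi_cont L).measurable, chi_abs L, fun _ hx => chi_out L hx⟩

theorem good_dchi (hL : 0 < L) : Good L (fun x => (1 / 3) * dchi L x) :=
  ⟨(dchi_meas L).const_mul _, fun x => by
    have := dchi_abs L x
    rw [abs_mul]
    norm_num
    linarith [abs_nonneg (dchi L x)], fun _ hx => by rw [dchi_out hL hx, mul_zero]⟩

/-- The size of the supremum. -/
noncomputable def sz (p : V1 L) : ℝ := √(‖V1.u L p‖ * ‖p‖)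

theorem sz_nonneg (p : V1 L) : 0 ≤ sz p := Real.sqrt_nonneg _

theorem sz_le (p : V1 L) : sz p ≤ ‖p‖ := by
  unfold sz
  refine Real.sqrt_le_iff.2 ⟨norm_nonneg _, ?_⟩
  rw [sq]
  exact mul_le_mul_of_nonneg_right p.norm_u_le (norm_nonneg _)

theorem prod_le (hL : 0 < L) : ∃ C : ℝ, 0 ≤ C ∧ ∀ w : ℝ → ℝ, Good L w → ∀ (p : V1 L) (r : L2),
    ∀ᵐ x ∂volume, ‖w x * V1.u L p x * r x‖ ≤ C * sz p * ‖r x‖ := by
  obtain ⟨C, hC, h⟩ := agmon hL
  refine ⟨√C, Real.sqrt_nonneg _, fun w hw p r => ?_⟩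
  filter_upwards [p.val_ae] with x hx
  by_cases hxJ : x ∈ J L
  · rw [norm_mul, norm_mul]
    refine mul_le_mul_of_nonneg_right ?_ (norm_nonneg _)
    have h1 : ‖V1.u L p x‖ ≤ √C * sz p := by
      unfold sz
      rw [← Real.sqrt_mul hC, hx hxJ, Real.norm_eq_abs]
      exact Real.abs_le_sqrt (h p x ⟨hxJ.1.le, hxJ.2.le⟩)
    calc ‖w x‖ * ‖V1.u L p x‖ ≤ 1 * ‖V1.u L p x‖ :=
          mul_le_mul_of_nonneg_right (hw.abs x) (norm_nonneg _)
      _ = ‖V1.u L p x‖ := one_mul _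
      _ ≤ _ := h1
  · rw [hw.out x hxJ, zero_mul, zero_mul, norm_zero]
    exact mul_nonneg (mul_nonneg (Real.sqrt_nonneg _) (sz_nonneg p)) (norm_nonneg _)

theorem prod_memLp (hL : 0 < L) {w : ℝ → ℝ} (hw : Good L w) (p : V1 L) (r : L2) :
    MemLp (fun x => w x * V1.u L p x * r x) 2 volume := by
  obtain ⟨C, hC, h⟩ := prod_le hL
  refine MemLp.of_le_mul (c := C * sz p) (Lp.memLp r) ?_ (h w hw p r)
  exact (hw.meas.aestronglyMeasurable.mul (Lp.memLp _).1).mul (Lp.memLp r).1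

/-- The products. -/
noncomputable def T (w : ℝ → ℝ) (p : V1 L) (r : L2) : L2 :=
  toL2 fun x => w x * V1.u L p x * r x

theorem T_ae (hL : 0 < L) {w : ℝ → ℝ} (hw : Good L w) (p : V1 L) (r : L2) :
    ∀ᵐ x ∂volume, T w p r x = w x * V1.u L p x * r x :=
  toL2_ae (prod_memLp hL hw p r)

theorem T_norm (hL : 0 < L) : ∃ C : ℝ, 0 ≤ C ∧ ∀ w : ℝ → ℝ, Good L w → ∀ (p : V1 L) (r : L2),
    ‖T w p r‖ ≤ C * sz p * ‖r‖ := by
  obtain ⟨C, hC, h⟩ := prod_le hL
  refine ⟨C, hC, fun w hw p r => ?_⟩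
  refine Lp.norm_le_mul_norm_of_ae_le_mul ?_
  filter_upwards [h w hw p r, T_ae hL hw p r] with x h1 h2
  rw [h2]
  exact h1

theorem T_sub_left (hL : 0 < L) {w : ℝ → ℝ} (hw : Good L w) (p q : V1 L) (r : L2) :
    T w (p - q) r = T w p r - T w q r := by
  refine Lp.ext ?_
  filter_upwards [T_ae hL hw (p - q) r, T_ae hL hw p r, T_ae hL hw q r,
    Lp.coeFn_sub (T w p r) (T w q r), Lp.coeFn_sub (V1.u L p) (V1.u L q)] with x h1 h2 h3 h4 h5
  rw [h1, h4, Pi.sub_apply, h2, h3, map_sub, h5, Pi.sub_apply]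
  ring

theorem T_sub_right (hL : 0 < L) {w : ℝ → ℝ} (hw : Good L w) (p : V1 L) (r s : L2) :
    T w p (r - s) = T w p r - T w p s := by
  refine Lp.ext ?_
  filter_upwards [T_ae hL hw p (r - s), T_ae hL hw p r, T_ae hL hw p s,
    Lp.coeFn_sub (T w p r) (T w p s), Lp.coeFn_sub r s] with x h1 h2 h3 h4 h5
  rw [h1, h4, Pi.sub_apply, h2, h3, h5, Pi.sub_apply]
  ring

/-- The bilinear form. -/
noncomputable def B (p q : V1 L) : L2 :=
  T (chi L) p (V1.d L q) + T (fun x => (1 / 3) * dchi L x) p (V1.u L q)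

theorem B_ae (hL : 0 < L) (p q : V1 L) : ∀ᵐ x ∂volume, B p q x =
    chi L x * V1.u L p x * V1.d L q x + (1 / 3) * dchi L x * V1.u L p x * V1.u L q x := by
  unfold B
  filter_upwards [T_ae hL (good_chi L) p (V1.d L q), T_ae hL (good_dchi hL) p (V1.u L q),
    Lp.coeFn_add (T (chi L) p (V1.d L q)) (T (fun x => (1 / 3) * dchi L x) p (V1.u L q))]
    with x h1 h2 h3
  rw [h3, Pi.add_apply, h1, h2]

theorem B_norm (hL : 0 < L) : ∃ C : ℝ, 0 ≤ C ∧ ∀ p q : V1 L, ‖B p q‖ ≤ C * (sz p * ‖q‖) := by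
  obtain ⟨C, hC, h⟩ := T_norm hL
  refine ⟨2 * C, by positivity, fun p q => ?_⟩
  have h1 := h _ (good_chi L) p (V1.d L q)
  have h2 := h _ (good_dchi hL) p (V1.u L q)
  have h3 : C * sz p * ‖V1.d L q‖ ≤ C * sz p * ‖q‖ :=
    mul_le_mul_of_nonneg_left q.norm_d_le (mul_nonneg hC (sz_nonneg p))
  have h4 : C * sz p * ‖V1.u L q‖ ≤ C * sz p * ‖q‖ :=
    mul_le_mul_of_nonneg_left q.norm_u_le (mul_nonneg hC (sz_nonneg p))
  refine (norm_add_le _ _).trans ?_
  linarith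

theorem B_diff (hL : 0 < L) (p q p' q' : V1 L) :
    B p q - B p' q' = B (p - p') q + B p' (q - q') := by
  unfold B
  rw [T_sub_left hL (good_chi L), T_sub_left hL (good_dchi hL), map_sub, map_sub,
    T_sub_right hL (good_chi L), T_sub_right hL (good_dchi hL)]
  abel

theorem norm_le_sum (y : HH n) : ‖y‖ ≤ ∑ j, ‖y j‖ := by
  rw [PiLp.norm_eq_of_L2]
  refine Real.sqrt_le_iff.2 ⟨Finset.sum_nonneg fun j _ => norm_nonneg _, ?_⟩
  exact Finset.sum_sq_le_sq_sum_of_nonneg fun j _ => norm_nonneg _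

theorem norm_comp_le (y : HH n) (j : Fin n) : ‖y j‖ ≤ ‖y‖ := PiLp.norm_apply_le y j

theorem qmap_comp (hL : 0 < L) (g : Fin n → Fin n → Fin n → ℝ) (p : VV n L) (j : Fin n) :
    qmap n L g p j = -∑ k, ∑ l, g j k l • B (p k) (p l) := by
  change toL2 _ = _
  refine toL2_eq ?_
  have h1 : ∀ k, ∀ᵐ x ∂volume, (∑ l, g j k l • B (p k) (p l) : L2) x =
      ∑ l, g j k l * (chi L x * uu k p x * dd l p x +
        (1 / 3) * dchi L x * uu k p x * uu l p x) := by
    intro k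
    refine sum_ae Finset.univ (fun l => g j k l • B (p k) (p l)) (fun l x => g j k l *
      (chi L x * uu k p x * dd l p x + (1 / 3) * dchi L x * uu k p x * uu l p x)) fun l => ?_
    filter_upwards [B_ae hL (p k) (p l), Lp.coeFn_smul (g j k l) (B (p k) (p l))] with x h1 h2
    rw [h2, Pi.smul_apply, h1, smul_eq_mul]
    rfl
  have h2 := sum_ae Finset.univ (fun k => (∑ l, g j k l • B (p k) (p l) : L2)) _ h1
  filter_upwards [h2, Lp.coeFn_neg (∑ k, ∑ l, g j k l • B (p k) (p l) : L2)] with x h3 h4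
  rw [h4, Pi.neg_apply, h3]

end QuadrAux

open QuadrAux

/-- The linear term, pointwise. -/
theorem lmap_ae (L : ℝ) (S : Fin n → Fin n → ℝ) (p : VV n L) (j : Fin n) :
    ∀ᵐ x ∂volume, lmap n L S p j x =
      -∑ k, S j k * (chi L x * dd k p x + (1 / 2) * (dchi L x * uu k p x)) := by
  have h : lmap n L S p j = -∑ k, S j k • (mulOp (chi L) (dd k p) +
      (1 / 2 : ℝ) • mulOp (dchi L) (uu k p)) := by
    unfold lmap
    rw [mkH_apply]
    simp
  rw [h]
  have h2 := sum_ae Finset.univ (fun k => S j k • (mulOp (chi L) (dd k p) +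
      (1 / 2 : ℝ) • mulOp (dchi L) (uu k p)))
      (fun k x => S j k * (chi L x * dd k p x + (1 / 2) * (dchi L x * uu k p x))) (by
    intro k
    filter_upwards [Lp.coeFn_smul (S j k) (mulOp (chi L) (dd k p) +
        (1 / 2 : ℝ) • mulOp (dchi L) (uu k p)),
      Lp.coeFn_add (mulOp (chi L) (dd k p)) ((1 / 2 : ℝ) • mulOp (dchi L) (uu k p)),
      Lp.coeFn_smul (1 / 2 : ℝ) (mulOp (dchi L) (uu k p)),
      mulOp_ae (chi_cont L).measurable ⟨1, chi_abs L⟩ (dd k p),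
      mulOp_ae (dchi_meas L) ⟨1, dchi_abs L⟩ (uu k p)] with x h1 h2 h3 h4 h5
    rw [h1, Pi.smul_apply, h2, Pi.add_apply, h3, Pi.smul_apply, h4, h5, smul_eq_mul, smul_eq_mul])
  filter_upwards [Lp.coeFn_neg (∑ k, S j k • (mulOp (chi L) (dd k p) +
      (1 / 2 : ℝ) • mulOp (dchi L) (uu k p)) : L2), h2] with x h3 h4
  rw [h3, Pi.neg_apply, h4]

/-- The quadratic term is square integrable. -/
theorem qmap_memLp (hL : 0 < L) (g : Fin n → Fin n → Fin n → ℝ) (p : VV n L) (j : Fin n) :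
    MemLp (fun x => -∑ k, ∑ l, g j k l *
      (chi L x * uu k p x * dd l p x + (1 / 3) * dchi L x * uu k p x * uu l p x)) 2 volume := by
  refine MemLp.neg (f := fun x => ∑ k, ∑ l, g j k l *
      (chi L x * uu k p x * dd l p x + (1 / 3) * dchi L x * uu k p x * uu l p x)) ?_
  refine memLp_finsetSum _ fun k _ => memLp_finsetSum _ fun l _ => ?_
  refine MemLp.const_mul (f := fun x => chi L x * uu k p x * dd l p x +
    (1 / 3) * dchi L x * uu k p x * uu l p x) ?_ _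
  exact (prod_memLp hL (good_chi L) (p k) (V1.d L (p l))).add
    (prod_memLp hL (good_dchi hL) (p k) (V1.u L (p l)))

/-- The quadratic term, pointwise. -/
theorem qmap_ae (hL : 0 < L) (g : Fin n → Fin n → Fin n → ℝ) (p : VV n L) (j : Fin n) :
    ∀ᵐ x ∂volume, qmap n L g p j x = -∑ k, ∑ l, g j k l *
      (chi L x * uu k p x * dd l p x + (1 / 3) * dchi L x * uu k p x * uu l p x) :=
  toL2_ae (qmap_memLp hL g p j)

theorem q_zero (L : ℝ) (g : Fin n → Fin n → Fin n → ℝ) : qmap n L g 0 = 0 := by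
  refine PiLp.ext fun j => ?_
  change toL2 _ = (0 : L2)
  refine toL2_eq ?_
  have h1 : ∀ᵐ x ∂volume, ∀ k, uu k (0 : VV n L) x = 0 := by
    refine ae_all_iff.2 fun k => ?_
    rw [map_zero]
    exact Lp.coeFn_zero ℝ 2 (volume : Measure ℝ)
  filter_upwards [h1, Lp.coeFn_zero ℝ 2 (volume : Measure ℝ)] with x h2 h3
  rw [h3]
  simp only [h2, mul_zero, zero_mul, add_zero, Finset.sum_const_zero, neg_zero]
  rfl

theorem q_bounds (hL : 0 < L) (g : Fin n → Fin n → Fin n → ℝ) : ∃ K : ℝ, 0 ≤ K ∧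
    (∀ a b : VV n L, ‖qmap n L g a - qmap n L g b‖ ≤ K *
      (‖a - b‖ * (1 + √(‖inc n L a‖ * ‖a‖) + √(‖inc n L b‖ * ‖b‖)) +
        √(‖inc n L (a - b)‖ * ‖a - b‖) * (‖a‖ + ‖b‖))) ∧
    (∀ a b : VV n L, ‖qmap n L g a - qmap n L g b‖ ≤ K * (‖a - b‖ * (‖a‖ + ‖b‖))) := by
  obtain ⟨C, hC, hB⟩ := B_norm hL
  have main : ∀ (a b : VV n L) (M : ℝ), (∀ k l, sz ((a - b) k) * ‖a l‖ +
      sz (b k) * ‖(a - b) l‖ ≤ M) →
      ‖qmap n L g a - qmap n L g b‖ ≤ (∑ j, ∑ k, ∑ l, |g j k l|) * C * M := by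
    intro a b M hM
    refine (norm_le_sum _).trans ?_
    rw [Finset.sum_mul, Finset.sum_mul]
    refine Finset.sum_le_sum fun j _ => ?_
    have e : (qmap n L g a - qmap n L g b) j =
        -∑ k, ∑ l, g j k l • (B (a k) (a l) - B (b k) (b l)) := by
      rw [PiLp.sub_apply, qmap_comp hL, qmap_comp hL]
      simp only [smul_sub, Finset.sum_sub_distrib]
      abel
    rw [e, norm_neg, Finset.sum_mul, Finset.sum_mul]
    refine (norm_sum_le _ _).trans (Finset.sum_le_sum fun k _ => ?_)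
    rw [Finset.sum_mul, Finset.sum_mul]
    refine (norm_sum_le _ _).trans (Finset.sum_le_sum fun l _ => ?_)
    rw [norm_smul, Real.norm_eq_abs, mul_assoc]
    refine mul_le_mul_of_nonneg_left ?_ (abs_nonneg _)
    rw [B_diff hL]
    have h1 := hB (a k - b k) (a l)
    have h2 := hB (b k) (a l - b l)
    have h3 := hM k l
    have h4 : C * (sz ((a - b) k) * ‖a l‖ + sz (b k) * ‖(a - b) l‖) ≤ C * M :=
      mul_le_mul_of_nonneg_left h3 hC
    rw [Pi.sub_apply, Pi.sub_apply] at h4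
    refine (norm_add_le _ _).trans ?_
    linarith
  have hsz : ∀ (p : VV n L) (k : Fin n), sz (p k) ≤ √(‖inc n L p‖ * ‖p‖) := by
    intro p k
    unfold sz
    refine Real.sqrt_le_sqrt ?_
    have h1 : ‖V1.u L (p k)‖ ≤ ‖inc n L p‖ := norm_comp_le (inc n L p) k
    exact mul_le_mul h1 (norm_le_pi_norm p k) (norm_nonneg _) (norm_nonneg _)
  refine ⟨(∑ j, ∑ k, ∑ l, |g j k l|) * C, by positivity, fun a b => ?_, fun a b => ?_⟩
  · refine main a b _ fun k l => ?_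
    have h1 := hsz (a - b) k
    have h2 := hsz b k
    have h3 := norm_le_pi_norm a l
    have h4 := norm_le_pi_norm (a - b) l
    have h5 : sz ((a - b) k) * ‖a l‖ ≤ √(‖inc n L (a - b)‖ * ‖a - b‖) * ‖a‖ :=
      mul_le_mul h1 h3 (norm_nonneg _) (Real.sqrt_nonneg _)
    have h6 : sz (b k) * ‖(a - b) l‖ ≤ √(‖inc n L b‖ * ‖b‖) * ‖a - b‖ :=
      mul_le_mul h2 h4 (norm_nonneg _) (Real.sqrt_nonneg _)
    have h7 : 0 ≤ √(‖inc n L (a - b)‖ * ‖a - b‖) * ‖b‖ := by positivity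
    have h8 : 0 ≤ ‖a - b‖ * (1 + √(‖inc n L a‖ * ‖a‖)) := by positivity
    linarith
  · refine main a b _ fun k l => ?_
    have h1 := (sz_le ((a - b) k)).trans (norm_le_pi_norm (a - b) k)
    have h2 := (sz_le (b k)).trans (norm_le_pi_norm b k)
    have h3 := norm_le_pi_norm a l
    have h4 := norm_le_pi_norm (a - b) l
    have h5 : sz ((a - b) k) * ‖a l‖ ≤ ‖a - b‖ * ‖a‖ :=
      mul_le_mul h1 h3 (norm_nonneg _) (norm_nonneg _)
    have h6 : sz (b k) * ‖(a - b) l‖ ≤ ‖b‖ * ‖a - b‖ :=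
      mul_le_mul h2 h4 (norm_nonneg _) (norm_nonneg _)
    linarith

end Pool.Agent.Kdv
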