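import Pool.Agent.Lib.MP_78c35a_an.Defs

/-!
# The solution with a nice initial value
-/

set_option autoImplicit false

namespace Pool.Agent.Kdv

open MeasureTheory Filter Topology Set
open scoped SchwartzMap FourierTransform ENNReal

/-- The integrand of `aw`. -/
noncomputable def awI (G : 𝓢(ℝ, ℂ)) (k : ℕ) (c x ξ : ℝ) : ℂ :=
  (2 * Real.pi * Complex.I * ξ) ^ k *
    Complex.exp (2 * Real.pi * Complex.I * x * ξ + 8 * Real.pi ^ 3 * Complex.I * c * ξ ^ 3) *
      𝓕 (fun y => G y) ξ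

/-- The bound of the integrand. -/
noncomputable def awB (G : 𝓢(ℝ, ℂ)) (k : ℕ) (ξ : ℝ) : ℝ :=
  (2 * Real.pi) ^ k * (‖ξ‖ ^ k * ‖(𝓕 G) ξ‖)

theorem aw_eq (G : 𝓢(ℝ, ℂ)) (k : ℕ) (c x : ℝ) : aw G k c x = ∫ ξ : ℝ, awI G k c x ξ := rfl

theorem fou_eq (G : 𝓢(ℝ, ℂ)) (ξ : ℝ) : 𝓕 (fun y => G y) ξ = (𝓕 G) ξ := rfl

theorem awI_norm (G : 𝓢(ℝ, ℂ)) (k : ℕ) (c x ξ : ℝ) : ‖awI G k c x ξ‖ = awB G k ξ := by
  unfold awI awB
  have h1 : (2 * Real.pi * Complex.I * x * ξ + 8 * Real.pi ^ 3 * Complex.I * c * ξ ^ 3 : ℂ) =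
      ((2 * Real.pi * x * ξ + 8 * Real.pi ^ 3 * c * ξ ^ 3 : ℝ) : ℂ) * Complex.I := by
    push_cast
    ring
  rw [norm_mul, norm_mul, h1, Complex.norm_exp_ofReal_mul_I, norm_pow, fou_eq]
  have h2 : ‖(2 * Real.pi * Complex.I * ξ : ℂ)‖ = 2 * Real.pi * ‖ξ‖ := by
    simp [abs_of_pos Real.pi_pos]
  rw [h2, mul_pow]
  ring

theorem awB_int (G : 𝓢(ℝ, ℂ)) (k : ℕ) : Integrable (awB G k) :=
  ((𝓕 G).integrable_pow_mul volume k).const_mul _

theorem awI_cont (G : 𝓢(ℝ, ℂ)) (k : ℕ) :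
    Continuous fun p : (ℝ × ℝ) × ℝ => awI G k p.1.1 p.1.2 p.2 := by
  unfold awI
  have h1 : Continuous fun p : (ℝ × ℝ) × ℝ => 𝓕 (fun y => G y) p.2 :=
    (𝓕 G).continuous.comp continuous_snd
  have h2 : Continuous fun p : (ℝ × ℝ) × ℝ => (2 * Real.pi * Complex.I * p.2) ^ k *
    Complex.exp (2 * Real.pi * Complex.I * p.1.2 * p.2 +
      8 * Real.pi ^ 3 * Complex.I * p.1.1 * p.2 ^ 3) := by
    fun_prop
  exact h2.mul h1

theorem awI_meas (G : 𝓢(ℝ, ℂ)) (k : ℕ) (c x : ℝ) : AEStronglyMeasurable (awI G k c x) volume := by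
  have h : Continuous fun ξ : ℝ => ((c, x), ξ) := by fun_prop
  exact ((awI_cont G k).comp h).aestronglyMeasurable

/-- The integrand of `aw` is integrable. -/
theorem aw_integrable (G : 𝓢(ℝ, ℂ)) (k : ℕ) (c x : ℝ) :
    Integrable fun ξ : ℝ => (2 * Real.pi * Complex.I * ξ) ^ k *
      Complex.exp (2 * Real.pi * Complex.I * x * ξ + 8 * Real.pi ^ 3 * Complex.I * c * ξ ^ 3) *
        𝓕 (fun y => G y) ξ := by
  change Integrable (awI G k c x)
  exact Integrable.mono' (awB_int G k) (awI_meas G k c x)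
    (Eventually.of_forall fun ξ => (awI_norm G k c x ξ).le)

theorem aw_bound (G : 𝓢(ℝ, ℂ)) (k : ℕ) : ∃ C : ℝ, ∀ c x, ‖aw G k c x‖ ≤ C := by
  refine ⟨∫ ξ, awB G k ξ, fun c x => ?_⟩
  rw [aw_eq]
  exact norm_integral_le_of_norm_le (awB_int G k)
    (Eventually.of_forall fun ξ => (awI_norm G k c x ξ).le)

theorem aw_cont (G : 𝓢(ℝ, ℂ)) (k : ℕ) : Continuous fun p : ℝ × ℝ => aw G k p.1 p.2 := by
  simp only [aw_eq]
  refine continuous_of_dominated (fun p => awI_meas G k p.1 p.2)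
    (fun p => Eventually.of_forall fun ξ => (awI_norm G k p.1 p.2 ξ).le) (awB_int G k)
    (Eventually.of_forall fun ξ => ?_)
  have h : Continuous fun p : ℝ × ℝ => (p, ξ) := by fun_prop
  exact (awI_cont G k).comp h

theorem aw_deriv_x (G : 𝓢(ℝ, ℂ)) (k : ℕ) (c x : ℝ) :
    HasDerivAt (fun x => aw G k c x) (aw G (k + 1) c x) x := by
  have h := hasDerivAt_integral_of_dominated_loc_of_deriv_le (μ := volume)
    (F := fun y ξ => awI G k c y ξ) (F' := fun y ξ => awI G (k + 1) c y ξ) (x₀ := x)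
    (s := univ) (bound := awB G (k + 1)) univ_mem
    (Eventually.of_forall fun y => awI_meas G k c y) (aw_integrable G k c x)
    (awI_meas G (k + 1) c x)
    (Eventually.of_forall fun ξ y _ => (awI_norm G (k + 1) c y ξ).le) (awB_int G (k + 1))
    (Eventually.of_forall fun ξ y _ => ?_)
  · exact h.2
  · unfold awI
    have h1 : HasDerivAt (fun y : ℝ => (2 * Real.pi * Complex.I * y * ξ +
        8 * Real.pi ^ 3 * Complex.I * c * ξ ^ 3 : ℂ)) (2 * Real.pi * Complex.I * ξ) y := by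
      have h2 : HasDerivAt (fun y : ℝ => (y : ℂ)) 1 y := Complex.ofRealCLM.hasDerivAt
      have h3 := (((h2.const_mul (2 * Real.pi * Complex.I)).mul_const (ξ : ℂ)).add_const
        (8 * Real.pi ^ 3 * Complex.I * c * ξ ^ 3))
      simpa using h3
    have h4 := ((h1.cexp.const_mul ((2 * Real.pi * Complex.I * ξ) ^ k)).mul_const
      (𝓕 (fun y => G y) ξ))
    refine h4.congr_deriv ?_
    ring

theorem aw_deriv_c (G : 𝓢(ℝ, ℂ)) (k : ℕ) (c x : ℝ) :
    HasDerivAt (fun c => aw G k c x) (-aw G (k + 3) c x) c := by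
  have h := hasDerivAt_integral_of_dominated_loc_of_deriv_le (μ := volume)
    (F := fun y ξ => awI G k y x ξ) (F' := fun y ξ => -awI G (k + 3) y x ξ) (x₀ := c)
    (s := univ) (bound := awB G (k + 3)) univ_mem
    (Eventually.of_forall fun y => awI_meas G k y x) (aw_integrable G k c x)
    (awI_meas G (k + 3) c x).neg
    (Eventually.of_forall fun ξ y _ => by rw [norm_neg]; exact (awI_norm G (k + 3) y x ξ).le)
    (awB_int G (k + 3))
    (Eventually.of_forall fun ξ y _ => ?_)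
  · have h5 := h.2
    rw [integral_neg] at h5
    exact h5
  · unfold awI
    have h1 : HasDerivAt (fun y : ℝ => (2 * Real.pi * Complex.I * x * ξ +
        8 * Real.pi ^ 3 * Complex.I * y * ξ ^ 3 : ℂ)) (8 * Real.pi ^ 3 * Complex.I * ξ ^ 3) y := by
      have h2 : HasDerivAt (fun y : ℝ => (y : ℂ)) 1 y := Complex.ofRealCLM.hasDerivAt
      have h3 := (((h2.const_mul (8 * Real.pi ^ 3 * Complex.I)).mul_const ((ξ : ℂ) ^ 3)).const_add
        (2 * Real.pi * Complex.I * x * ξ : ℂ))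
      simpa using h3
    have h4 := ((h1.cexp.const_mul ((2 * Real.pi * Complex.I * ξ) ^ k)).mul_const
      (𝓕 (fun y => G y) ξ))
    refine h4.congr_deriv ?_
    have h6 : (2 * Real.pi * Complex.I * ξ : ℂ) ^ (k + 3) =
        -((2 * Real.pi * Complex.I * ξ) ^ k * (8 * Real.pi ^ 3 * Complex.I * ξ ^ 3)) := by
      rw [pow_add]
      have : (2 * Real.pi * Complex.I * ξ : ℂ) ^ 3 = -(8 * Real.pi ^ 3 * Complex.I * ξ ^ 3) := by
        have h7 : Complex.I ^ 3 = -Complex.I := Complex.I_pow_three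
        calc (2 * Real.pi * Complex.I * ξ : ℂ) ^ 3 = 8 * Real.pi ^ 3 * Complex.I ^ 3 * ξ ^ 3 := by ring
          _ = _ := by rw [h7]; ring
      rw [this]
      ring
    rw [h6]
    ring

theorem aw_zero (G : 𝓢(ℝ, ℂ)) (x : ℝ) : aw G 0 0 x = G x := by
  have h1 : G x = 𝓕⁻ (𝓕 G) x := by
    rw [FourierTransform.fourierInv_fourier_eq]
  rw [h1, SchwartzMap.fourierInv_coe, Real.fourierInv_eq', aw_eq]
  refine integral_congr_ae (Eventually.of_forall fun ξ => ?_)
  simp only [awI, pow_zero, one_mul, smul_eq_mul, fou_eq]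
  congr 2
  simp
  ring

theorem fou_real {G : 𝓢(ℝ, ℂ)} {g : ℝ → ℝ} (h : IsNice G g) (ξ : ℝ) :
    (starRingEnd ℂ) (𝓕 (fun y => G y) ξ) = 𝓕 (fun y => G y) (-ξ) := by
  rw [Real.fourier_eq', Real.fourier_eq', ← integral_conj]
  refine integral_congr_ae (Eventually.of_forall fun y => ?_)
  simp only [smul_eq_mul, map_mul, h y, Complex.conj_ofReal, ← Complex.exp_conj]
  congr 2
  simp

theorem aw_real {G : 𝓢(ℝ, ℂ)} {g : ℝ → ℝ} (h : IsNice G g) (k : ℕ) (c x : ℝ) :
    (aw G k c x).im = 0 := by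
  rw [← Complex.conj_eq_iff_im, aw_eq, ← integral_conj,
    ← integral_neg_eq_self (fun ξ => awI G k c x ξ)]
  refine integral_congr_ae (Eventually.of_forall fun ξ => ?_)
  simp only [awI, map_mul, fou_real h, map_pow, ← Complex.exp_conj, map_add, Complex.conj_ofReal,
    Complex.conj_I, map_ofNat]
  push_cast
  congr 2
  · congr 1
    ring
  · congr 1
    ring

theorem iter_ofReal {g : ℝ → ℝ} {n : ℕ} (hg : ContDiff ℝ n g) (y : ℝ) :
    iteratedDeriv n (fun x => (g x : ℂ)) y = ((iteratedDeriv n g y : ℝ) : ℂ) := by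
  have h1 := Complex.ofRealCLM.iteratedFDeriv_comp_left (x := y) hg.contDiffAt (i := n) le_rfl
  have h2 := congrArg (fun M => M (fun _ => (1 : ℝ))) h1
  exact h2

theorem iter_int (G : 𝓢(ℝ, ℂ)) (n : ℕ) : Integrable (iteratedDeriv n (fun y => G y)) := by
  have h1 := G.integrable_pow_mul_iteratedFDeriv volume 0 n
  have h2 : Continuous (iteratedDeriv n (fun y => G y)) :=
    (G.smooth n).continuous_iteratedDeriv n le_rfl
  refine Integrable.mono' h1 h2.aestronglyMeasurable (Eventually.of_forall fun y => ?_)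
  rw [pow_zero, one_mul, norm_iteratedFDeriv_eq_norm_iteratedDeriv]

/-- The third derivative. -/
theorem aw_third {G G3 : 𝓢(ℝ, ℂ)} {g : ℝ → ℝ} (h : IsNice G g)
    (h3 : IsNice G3 (iteratedDeriv 3 g)) (k : ℕ) (c x : ℝ) :
    aw G3 k c x = aw G (k + 3) c x := by
  have hg : ContDiff ℝ 3 g := by
    have h1 : g = fun y => Complex.reCLM (G y) := by
      funext y
      rw [h y]
      simp
    rw [h1]
    exact Complex.reCLM.contDiff.comp (G.smooth 3)
  have h0 : (fun y => G y) = fun y => (g y : ℂ) := funext h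
  have h1 : (fun y => G3 y) = iteratedDeriv 3 (fun y => G y) := by
    rw [h0]
    funext y
    rw [h3 y, iter_ofReal (n := 3) (by exact_mod_cast hg)]
  have h2 := Real.fourier_iteratedDeriv (N := 3) (n := 3) (G.smooth 3)
    (fun n _ => iter_int G n) le_rfl
  rw [aw_eq, aw_eq]
  refine integral_congr_ae (Eventually.of_forall fun ξ => ?_)
  simp only [awI]
  rw [h1]
  have h4 : 𝓕 (iteratedDeriv 3 (fun y => G y)) ξ =
      (2 * Real.pi * Complex.I * ξ) ^ 3 * 𝓕 (fun y => G y) ξ := congrFun h2 ξ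
  rw [h4, pow_add]
  ring

end Pool.Agent.Kdv
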