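import Pool.Agent.Lib.MP_78c35a_an.Airy
import Pool.Agent.Lib.MP_78c35a_an.Aw

/-!
# The generator of the Airy group on test functions
-/

set_option autoImplicit false

namespace Pool.Agent.Kdv

open MeasureTheory Filter Topology Set
open scoped SchwartzMap FourierTransform ENNReal ContDiff

attribute [local irreducible] aw

lemma contDiff_iter {φ : ℝ → ℝ} (hφ : ContDiff ℝ ∞ φ) (k : ℕ) :
    ContDiff ℝ ∞ (iteratedDeriv k φ) := by
  induction k with
  | zero => rwa [iteratedDeriv_zero]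
  | succ k ih =>
    rw [iteratedDeriv_succ]
    exact (contDiff_infty_iff_deriv.1 ih).2

lemma hasCompactSupport_iter {φ : ℝ → ℝ} (hc : HasCompactSupport φ) (k : ℕ) :
    HasCompactSupport (iteratedDeriv k φ) := by
  induction k with
  | zero => rwa [iteratedDeriv_zero]
  | succ k ih =>
    rw [iteratedDeriv_succ]
    exact ih.deriv

/-- The equation for the explicit solution. -/
lemma aw_ftc {G G3 : 𝓢(ℝ, ℂ)} {g : ℝ → ℝ} (h : IsNice G g)
    (h3 : IsNice G3 (iteratedDeriv 3 g)) (c x : ℝ) :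
    ∫ s in (0 : ℝ)..c, (aw G3 0 (-s) x).re = (aw G 0 (-c) x).re - g x := by
  have hd : ∀ s : ℝ, HasDerivAt (fun s => (aw G 0 (-s) x).re) (aw G3 0 (-s) x).re s := by
    intro s
    have h1 := (aw_deriv_c G 0 (-s) x).scomp s (hasDerivAt_neg s)
    have h2 : ((-1 : ℝ) • (-aw G (0 + 3) (-s) x)) = aw G3 0 (-s) x := by
      rw [aw_third h h3 0]
      simp
    rw [h2] at h1
    exact (Complex.reCLM.hasFDerivAt.comp_hasDerivAt s h1)
  have hcont : Continuous fun s : ℝ => (aw G3 0 (-s) x).re := by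
    have h1 := aw_cont G3 0
    have h2 : Continuous fun s : ℝ => ((-s, x) : ℝ × ℝ) := by fun_prop
    have h4 : Continuous fun s : ℝ => aw G3 0 (-s) x := h1.comp h2
    exact Complex.continuous_re.comp h4
  have key := intervalIntegral.integral_eq_sub_of_hasDerivAt
    (f := fun s => (aw G 0 (-s) x).re) (f' := fun s => (aw G3 0 (-s) x).re) (a := 0) (b := c)
    (fun s _ => hd s) (hcont.intervalIntegrable 0 c)
  have e0 : (aw G 0 (-0) x).re = g x := by
    rw [neg_zero, aw_zero, h x, Complex.ofReal_re]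
  rw [key]
  change (aw G 0 (-c) x).re - (aw G 0 (-0) x).re = _
  rw [e0]

/-- Fubini on a set of finite measure. -/
lemma aw_swap (G : 𝓢(ℝ, ℂ)) {B : Set ℝ} (hB : MeasurableSet B) (hμ : volume B < ⊤) (c : ℝ) :
    ∫ s in (0 : ℝ)..c, ∫ x in B, (aw G 0 (-s) x).re =
      ∫ x in B, ∫ s in (0 : ℝ)..c, (aw G 0 (-s) x).re := by
  have hcont : Continuous fun p : ℝ × ℝ => (aw G 0 (-p.1) p.2).re := by
    have h1 := aw_cont G 0
    have h2 : Continuous fun p : ℝ × ℝ => ((-p.1, p.2) : ℝ × ℝ) := by fun_prop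
    exact Complex.continuous_re.comp (h1.comp h2)
  obtain ⟨C, hC⟩ := aw_bound G 0
  have hfin1 : IsFiniteMeasure ((volume : Measure ℝ).restrict (uIoc 0 c)) := by
    refine ⟨?_⟩
    rw [Measure.restrict_apply_univ]
    exact measure_Ioc_lt_top
  have hfin2 : IsFiniteMeasure ((volume : Measure ℝ).restrict B) := by
    refine ⟨?_⟩
    rw [Measure.restrict_apply_univ]
    exact hμ
  have hint : Integrable (Function.uncurry fun s x => (aw G 0 (-s) x).re)
      (((volume : Measure ℝ).restrict (uIoc 0 c)).prod ((volume : Measure ℝ).restrict B)) := by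
    refine Integrable.of_bound hcont.aestronglyMeasurable C (Eventually.of_forall fun p => ?_)
    exact (Complex.abs_re_le_norm _).trans (hC _ _)
  have e : ∀ x, ∫ s in (0 : ℝ)..c, (aw G 0 (-s) x).re =
      (if 0 ≤ c then (1 : ℝ) else -1) • ∫ s in uIoc 0 c, (aw G 0 (-s) x).re := fun x =>
    intervalIntegral.intervalIntegral_eq_integral_uIoc _ _ _ _
  rw [intervalIntegral.intervalIntegral_eq_integral_uIoc]
  simp_rw [e]
  rw [integral_smul, integral_integral_swap hint]

theorem airy_gen {φ : ℝ → ℝ} (hφ : ContDiff ℝ ∞ φ) (hc : HasCompactSupport φ) (c : ℝ) :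
    airy (-c) (toL2 φ) = toL2 φ + ∫ s in (0 : ℝ)..c, airy (-s) (toL2 (iteratedDeriv 3 φ)) := by
  obtain ⟨G, hG⟩ := exists_nice hφ hc
  obtain ⟨G3, hG3⟩ := exists_nice (contDiff_iter hφ 3) (hasCompactSupport_iter hc 3)
  have hint : ∀ (f : L2) (B : Set ℝ), MeasurableSet B → volume B < ⊤ → IntegrableOn f B :=
    fun f B _ hμ => integrableOn_Lp_of_measure_ne_top f (by norm_num) hμ.ne
  apply Lp.ext
  refine Lp.ae_eq_of_forall_setIntegral_eq _ _ (by norm_num) (by norm_num)
    (hint _) (hint _) fun B hB hμ => ?_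
  have hpair : ∀ f : L2, innerSL ℝ (indicatorConstLp 2 hB hμ.ne (1 : ℝ)) f = ∫ x in B, f x :=
    fun f => L2.inner_indicatorConstLp_one hB hμ.ne f
  have hcont : Continuous fun s : ℝ => airy (-s) (toL2 (iteratedDeriv 3 φ)) :=
    (airy_cont _).comp continuous_neg
  rw [← hpair, ← hpair, map_add,
    ← ContinuousLinearMap.intervalIntegral_comp_comm _ (hcont.intervalIntegrable _ _)]
  have e1 : innerSL ℝ (indicatorConstLp 2 hB hμ.ne (1 : ℝ)) (airy (-c) (toL2 φ)) =
      ∫ x in B, (aw G 0 (-c) x).re := by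
    rw [hpair]
    exact setIntegral_congr_ae hB (by filter_upwards [airy_nice hG (-c)] with x hx _ using hx)
  have e2 : innerSL ℝ (indicatorConstLp 2 hB hμ.ne (1 : ℝ)) (toL2 φ) = ∫ x in B, φ x := by
    rw [hpair]
    exact setIntegral_congr_ae hB (by filter_upwards [toL2_ae hG.memLp] with x hx _ using hx)
  have e3 : ∀ s : ℝ, innerSL ℝ (indicatorConstLp 2 hB hμ.ne (1 : ℝ))
      (airy (-s) (toL2 (iteratedDeriv 3 φ))) = ∫ x in B, (aw G3 0 (-s) x).re := by
    intro s
    rw [hpair]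
    exact setIntegral_congr_ae hB (by filter_upwards [airy_nice hG3 (-s)] with x hx _ using hx)
  rw [e1, e2]
  simp_rw [e3]
  rw [aw_swap G3 hB hμ c]
  simp_rw [aw_ftc hG hG3]
  have i1 : IntegrableOn (fun x => (aw G 0 (-c) x).re) B := by
    have := hint (airy (-c) (toL2 φ)) B hB hμ
    exact this.congr_fun_ae (ae_restrict_of_ae (airy_nice hG (-c)))
  have i2 : IntegrableOn φ B := by
    have := hint (toL2 φ) B hB hμ
    exact this.congr_fun_ae (ae_restrict_of_ae (toL2_ae hG.memLp))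
  rw [integral_sub i1 i2]
  ring

end Pool.Agent.Kdv
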