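import Pool.Agent.Lib.MP_78c35a_an.Nice

/-!
# The space `V1`: continuous representatives, Agmon's inequality, completeness
-/

set_option autoImplicit false

namespace Pool.Agent.Kdv

open MeasureTheory Filter Topology Set
open scoped SchwartzMap FourierTransform ENNReal

variable {L : ℝ}

namespace AgmAux

/-- The square of the norm in `L²`. -/
theorem norm_sq (f : L2) : ‖f‖ ^ 2 = ∫ x, f x ^ 2 := by
  rw [← real_inner_self_eq_norm_sq, L2.inner_def]
  refine integral_congr_ae (Eventually.of_forall fun x => ?_)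
  change inner ℝ (f x) (f x) = f x ^ 2
  rw [real_inner_self_eq_norm_sq, Real.norm_eq_abs, sq_abs]

/-- Products of square integrable functions are integrable. -/
theorem mul_int (f g : L2) : Integrable (fun x => f x * g x) volume :=
  (Lp.memLp f).integrable_mul (Lp.memLp g)

theorem intervalInt (r : L2) (a b : ℝ) : IntervalIntegrable r volume a b :=
  r.intervalIntegrable a b

theorem locInt (r : L2) : LocallyIntegrable r volume :=
  (Lp.memLp r).locallyIntegrable one_le_two

theorem mJ (L : ℝ) : MeasurableSet (J L) := measurableSet_Ioo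

/-- Cauchy-Schwarz on a set. -/
theorem cs {S : Set ℝ} (hS : MeasurableSet S) (f g : L2) :
    |∫ x in S, f x * g x| ≤ ‖f‖ * ‖g‖ := by
  have hm : MemLp (S.indicator f) 2 volume := (Lp.memLp f).indicator hS
  have h1 : ∫ x in S, f x * g x = inner ℝ g (hm.toLp _) := by
    rw [L2.inner_def, ← integral_indicator hS]
    refine integral_congr_ae ?_
    filter_upwards [hm.coeFn_toLp] with x hx
    change S.indicator (fun x => f x * g x) x = inner ℝ (g x) (hm.toLp _ x)
    rw [hx]
    by_cases h : x ∈ S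
    · simp only [indicator_of_mem h]
      simp
    · simp [indicator_of_notMem h]
  rw [h1, mul_comm]
  refine (abs_real_inner_le_norm _ _).trans ?_
  refine mul_le_mul_of_nonneg_left ?_ (norm_nonneg _)
  refine Lp.norm_le_norm_of_ae_le ?_
  filter_upwards [hm.coeFn_toLp] with x hx
  rw [hx]
  exact norm_indicator_le_norm_self _ _

end AgmAux

open AgmAux

instance V1.complete : CompleteSpace (V1 L) := by
  have hcl : IsClosed (V1sub L : Set (L2 × L2)) := by
    refine IsSeqClosed.isClosed fun s p hs hlim => ?_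
    have h1 : Tendsto (fun n => (s n).1) atTop (𝓝 p.1) := (continuous_fst.tendsto p).comp hlim
    have h2 : Tendsto (fun n => (s n).2) atTop (𝓝 p.2) := (continuous_snd.tendsto p).comp hlim
    obtain ⟨φ, hφ, a2⟩ := (tendstoInMeasure_of_tendsto_Lp h2).exists_seq_tendsto_ae
    obtain ⟨ψ, hψ, a1⟩ := (tendstoInMeasure_of_tendsto_Lp
      (h1.comp hφ.tendsto_atTop)).exists_seq_tendsto_ae
    have a2' : ∀ᵐ x ∂volume, Tendsto (fun i => (s (φ (ψ i))).2 x) atTop (𝓝 (p.2 x)) := by
      filter_upwards [a2] with x hx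
      exact hx.comp hψ.tendsto_atTop
    have b1 : ∀ᵐ x ∂volume, ∀ n, x ∉ J L → (s n).2 x = 0 :=
      ae_all_iff.2 fun n => (hs n).1
    refine ⟨?_, ?_⟩
    · filter_upwards [a2', b1] with x hx hb hxJ
      have : Tendsto (fun i => (s (φ (ψ i))).2 x) atTop (𝓝 0) := by
        simp only [fun i => hb (φ (ψ i)) hxJ]
        exact tendsto_const_nhds
      exact tendsto_nhds_unique hx this
    · have hint : ∀ x, -1 ≤ x → Tendsto (fun i => ∫ t in (-1)..x, (s (φ (ψ i))).2 t) atTop
          (𝓝 (∫ t in (-1)..x, p.2 t)) := by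
        intro x hx
        have e : ∀ f : L2, ∫ t in (-1)..x, f t = inner ℝ (indicatorConstLp 2
            (measurableSet_Ioc (a := (-1 : ℝ)) (b := x)) measure_Ioc_lt_top.ne (1 : ℝ)) f := by
          intro f
          rw [L2.inner_indicatorConstLp_one, intervalIntegral.integral_of_le hx]
        simp only [e]
        exact ((continuous_const.inner continuous_id).tendsto p.2).comp
          ((h2.comp hφ.tendsto_atTop).comp hψ.tendsto_atTop)
      choose c hc using fun n => (hs n).2
      have b2 : ∀ᵐ x ∂volume, ∀ n, x ∈ J L → (s n).1 x = c n + ∫ t in (-1)..x, (s n).2 t :=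
        ae_all_iff.2 hc
      by_cases hJ : (J L).Nonempty
      · have hpos : volume (J L) ≠ 0 := (isOpen_Ioo.measure_pos volume hJ).ne'
        have h3 : ∃ x ∈ J L, (∀ n, x ∈ J L → (s n).1 x = c n + ∫ t in (-1)..x, (s n).2 t) ∧
            Tendsto (fun i => ((fun n => (s n).1) ∘ φ) (ψ i) x) atTop (𝓝 (p.1 x)) := by
          by_contra hno
          push Not at hno
          refine hpos (measure_mono_null ?_ (b2.and a1 : _))
          intro x hx hx'
          exact hno x hx hx'.1 hx'.2
        obtain ⟨x0, hx0, k1, k2⟩ := h3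
        have k3 : Tendsto (fun i => c (φ (ψ i))) atTop
            (𝓝 (p.1 x0 - ∫ t in (-1)..x0, p.2 t)) := by
          have : (fun i => c (φ (ψ i))) = fun i => (s (φ (ψ i))).1 x0 -
              ∫ t in (-1)..x0, (s (φ (ψ i))).2 t := by
            funext i
            rw [k1 _ hx0]
            ring
          rw [this]
          exact k2.sub (hint x0 hx0.1.le)
        refine ⟨p.1 x0 - ∫ t in (-1)..x0, p.2 t, ?_⟩
        filter_upwards [b2, a1] with x hx1 hx2 hxJ
        have k4 : Tendsto (fun i => (s (φ (ψ i))).1 x) atTop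
            (𝓝 (p.1 x0 - (∫ t in (-1)..x0, p.2 t) + ∫ t in (-1)..x, p.2 t)) := by
          simp only [fun i => hx1 (φ (ψ i)) hxJ]
          exact k3.add (hint x hxJ.1.le)
        exact tendsto_nhds_unique hx2 k4
      · refine ⟨0, Eventually.of_forall fun x hx => ?_⟩
        exact absurd ⟨x, hx⟩ hJ
  exact hcl.completeSpace_coe

theorem V1.val_ae (p : V1 L) : ∀ᵐ x ∂volume, x ∈ J L → V1.u L p x = p.val x :=
  Classical.choose_spec p.2.2

theorem V1.d_outside (p : V1 L) : ∀ᵐ x ∂volume, x ∉ J L → V1.d L p x = 0 :=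
  p.2.1

theorem V1.val_sub (p : V1 L) (x y : ℝ) : p.val y - p.val x = ∫ s in x..y, V1.d L p s := by
  unfold V1.val
  rw [add_sub_add_left_eq_sub]
  exact intervalIntegral.integral_interval_sub_left (intervalInt _ _ _) (intervalInt _ _ _)

theorem V1.val_cont (p : V1 L) : Continuous p.val := by
  unfold V1.val
  exact continuous_const.add
    (intervalIntegral.continuous_primitive (fun a b => intervalInt _ a b) (-1))

theorem V1.val_unique (hL : 0 < L) (p : V1 L) {F : ℝ → ℝ} (hF : Continuous F)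
    (h : ∀ᵐ x ∂volume, x ∈ J L → V1.u L p x = F x) : ∀ x ∈ Icc (-1) (L + 1), p.val x = F x := by
  have h1 : EqOn p.val F (J L) := by
    refine Measure.eqOn_open_of_ae_eq (μ := volume) ?_ isOpen_Ioo p.val_cont.continuousOn
      hF.continuousOn
    rw [Filter.EventuallyEq, ae_restrict_iff' (AgmAux.mJ L)]
    filter_upwards [h, p.val_ae] with x h1 h2 hx
    rw [← h1 hx, h2 hx]
  have h2 := h1.closure p.val_cont hF
  unfold J at h2
  rw [closure_Ioo (by linarith)] at h2
  exact h2

theorem V1.val_add (hL : 0 < L) (p q : V1 L) {x : ℝ} (hx : x ∈ Icc (-1) (L + 1)) :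
    (p + q).val x = p.val x + q.val x := by
  refine V1.val_unique hL (p + q) (p.val_cont.add q.val_cont) ?_ x hx
  filter_upwards [p.val_ae, q.val_ae, Lp.coeFn_add (V1.u L p) (V1.u L q)] with x h1 h2 h3 hxJ
  rw [map_add, h3, Pi.add_apply, Pi.add_apply, h1 hxJ, h2 hxJ]

theorem V1.val_smul (hL : 0 < L) (r : ℝ) (p : V1 L) {x : ℝ} (hx : x ∈ Icc (-1) (L + 1)) :
    (r • p).val x = r * p.val x := by
  refine V1.val_unique hL (r • p) (F := fun x => r * p.val x)
    (continuous_const.mul p.val_cont) ?_ x hx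
  filter_upwards [p.val_ae, Lp.coeFn_smul r (V1.u L p)] with x h1 h3 hxJ
  rw [map_smul, h3, Pi.smul_apply, smul_eq_mul, h1 hxJ]

/-- The derivative of the continuous representative. -/
theorem AgmAux.hasDerivAt (p : V1 L) :
    ∀ᵐ x ∂volume, HasDerivAt p.val (V1.d L p x) x := by
  filter_upwards [LocallyIntegrable.ae_hasDerivAt_integral (locInt (V1.d L p))] with x hx
  exact (hx (-1)).const_add _

theorem V1.u_injective (hL : 0 < L) : Function.Injective (V1.u L) := by
  intro p q h
  have h1 : ∀ x ∈ Icc (-1) (L + 1), p.val x = q.val x := by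
    refine V1.val_unique hL p q.val_cont ?_
    rw [h]
    exact q.val_ae
  have h2 : V1.d L p = V1.d L q := by
    refine Lp.ext ?_
    filter_upwards [p.d_outside, q.d_outside, AgmAux.hasDerivAt p, AgmAux.hasDerivAt q]
      with x a1 a2 a3 a4
    by_cases hx : x ∈ J L
    · refine a3.unique (a4.congr_of_eventuallyEq ?_)
      filter_upwards [isOpen_Ioo.mem_nhds hx] with y hy
      exact h1 y ⟨hy.1.le, hy.2.le⟩
    · rw [a1 hx, a2 hx]
  exact Subtype.ext (Prod.ext h h2)

theorem V1.norm_u_le (p : V1 L) : ‖V1.u L p‖ ≤ ‖p‖ :=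
  norm_fst_le p.1

theorem V1.norm_d_le (p : V1 L) : ‖V1.d L p‖ ≤ ‖p‖ :=
  norm_snd_le p.1

theorem V1.norm_le (p : V1 L) : ‖p‖ ^ 2 ≤ ‖V1.u L p‖ ^ 2 + ‖V1.d L p‖ ^ 2 := by
  have h : ‖p‖ = max ‖V1.u L p‖ ‖V1.d L p‖ := rfl
  rw [h]
  rcases max_cases ‖V1.u L p‖ ‖V1.d L p‖ with ⟨h1, -⟩ | ⟨h1, -⟩ <;> rw [h1] <;>
    nlinarith [sq_nonneg ‖V1.u L p‖, sq_nonneg ‖V1.d L p‖]

/-- Absolute continuity of the continuous representative. -/
theorem AgmAux.ac (p : V1 L) (a b : ℝ) : AbsolutelyContinuousOnInterval p.val a b := by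
  have h1 : AbsolutelyContinuousOnInterval (fun _ : ℝ => p.val a) a b :=
    (contDiffOn_const (c := p.val a)).absolutelyContinuousOnInterval
  have h2 := (intervalInt (V1.d L p) a b).absolutelyContinuousOnInterval_intervalIntegral
    (c := a) left_mem_uIcc
  have h3 : p.val = (fun _ : ℝ => p.val a) + fun x => ∫ s in a..x, V1.d L p s := by
    funext x
    rw [Pi.add_apply, ← p.val_sub a x]
    ring
  rw [h3]
  exact h1.add h2

/-- Integration by parts for products of two elements of `V1` and a function which is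
absolutely continuous. -/
theorem V1.parts (hL : 0 < L) (p q : V1 L) {a b : ℝ} (ha : -1 ≤ a) (hab : a ≤ b)
    (hb : b ≤ L + 1) {w w' : ℝ → ℝ} (hw : Continuous w)
    (hw' : ∀ x ∈ Icc a b, w x = w a + ∫ s in a..x, w' s) (hi : IntervalIntegrable w' volume a b) :
    ∫ x in a..b, (w' x * p.val x * q.val x + w x * (V1.d L p x * q.val x + p.val x * V1.d L q x)) =
      w b * p.val b * q.val b - w a * p.val a * q.val a := by
  set W : ℝ → ℝ := fun x => w a + ∫ s in a..x, w' s with hW
  have hWac : AbsolutelyContinuousOnInterval W a b := by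
    have h1 : AbsolutelyContinuousOnInterval (fun _ : ℝ => w a) a b :=
      (contDiffOn_const (c := w a)).absolutelyContinuousOnInterval
    exact h1.add (hi.absolutelyContinuousOnInterval_intervalIntegral (c := a) left_mem_uIcc)
  have hac := (hWac.mul (AgmAux.ac p a b)).mul (AgmAux.ac q a b)
  have h1 := hac.integral_deriv_eq_sub
  have e1 : ∀ x ∈ Icc a b, w x = W x := hw'
  simp only [Pi.mul_apply] at h1
  rw [e1 b (right_mem_Icc.2 hab), e1 a (left_mem_Icc.2 hab), ← h1]
  refine intervalIntegral.integral_congr_ae ?_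
  filter_upwards [AgmAux.hasDerivAt p, AgmAux.hasDerivAt q, hi.ae_hasDerivAt_integral]
    with x a1 a2 a3 hx
  have hx' : x ∈ Icc a b := by
    rw [uIoc_of_le hab] at hx
    exact ⟨hx.1.le, hx.2⟩
  have a4 : HasDerivAt W (w' x) x := by
    refine (a3 ?_ a left_mem_uIcc).const_add _
    rw [uIcc_of_le hab]
    exact hx'
  have a5 := ((a4.mul a1).mul a2).deriv
  rw [a5, e1 x hx']
  simp only [Pi.mul_apply]
  ring

/-- The difference of squares. -/
theorem AgmAux.sq_sub (hL : 0 < L) (p : V1 L) {x y : ℝ} (hx : x ∈ Icc (-1) (L + 1))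
    (hy : y ∈ Icc (-1) (L + 1)) :
    (p.val x) ^ 2 ≤ (p.val y) ^ 2 + 2 * (‖V1.u L p‖ * ‖V1.d L p‖) := by
  have key : ∀ a b : ℝ, -1 ≤ a → a ≤ b → b ≤ L + 1 →
      |(p.val b) ^ 2 - (p.val a) ^ 2| ≤ 2 * (‖V1.u L p‖ * ‖V1.d L p‖) := by
    intro a b ha hab hb
    have h1 := V1.parts hL p p ha hab hb (w := fun _ => 1) (w' := fun _ => 0) continuous_const
      (fun x _ => by simp) (by simp)
    have h2 : (p.val b) ^ 2 - (p.val a) ^ 2 = 2 * ∫ x in Ioc a b, V1.u L p x * V1.d L p x := by
      have h3 : (p.val b) ^ 2 - (p.val a) ^ 2 =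
          1 * p.val b * p.val b - 1 * p.val a * p.val a := by ring
      rw [h3, ← h1, intervalIntegral.integral_of_le hab, ← integral_const_mul]
      refine integral_congr_ae ?_
      rw [Filter.EventuallyEq, ae_restrict_iff' measurableSet_Ioc]
      have h4 : ∀ᵐ x : ℝ ∂volume, x ≠ L + 1 := by simp [ae_iff, measure_singleton]
      filter_upwards [p.val_ae, h4] with x k1 k2 hx
      have hxJ : x ∈ J L := ⟨lt_of_le_of_lt ha hx.1, lt_of_le_of_ne (hx.2.trans hb) k2⟩
      rw [k1 hxJ]
      ring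
    rw [h2, abs_mul, abs_two]
    exact mul_le_mul_of_nonneg_left (cs measurableSet_Ioc _ _) (by norm_num)
  rcases le_total x y with h | h
  · have := abs_le.1 (key x y hx.1 h hy.2)
    linarith [this.1]
  · have := abs_le.1 (key y x hy.1 h hx.2)
    linarith [this.2]

/-- Agmon's inequality. -/
theorem agmon (hL : 0 < L) : ∃ C : ℝ, 0 ≤ C ∧ ∀ p : V1 L, ∀ x ∈ Icc (-1) (L + 1),
    (p.val x) ^ 2 ≤ C * (‖V1.u L p‖ * ‖p‖) := by
  refine ⟨1 / (L + 2) + 2, by positivity, fun p x hx => ?_⟩
  have hvol : volume.real (J L) = L + 2 := by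
    unfold J
    rw [Real.volume_real_Ioo_of_le (by linarith)]
    ring
  have hi : IntegrableOn (fun y => (p.val y) ^ 2) (J L) volume :=
    ((p.val_cont.pow 2).continuousOn.integrableOn_Icc (a := -1) (b := L + 1)).mono_set
      Ioo_subset_Icc_self
  have h1 : (L + 2) * (p.val x) ^ 2 ≤
      (∫ y in J L, (p.val y) ^ 2) + (L + 2) * (2 * (‖V1.u L p‖ * ‖V1.d L p‖)) := by
    have e1 : (L + 2) * (p.val x) ^ 2 = ∫ _y in J L, (p.val x) ^ 2 := by
      rw [setIntegral_const, hvol, smul_eq_mul]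
    have e2 : (L + 2) * (2 * (‖V1.u L p‖ * ‖V1.d L p‖)) =
        ∫ _y in J L, 2 * (‖V1.u L p‖ * ‖V1.d L p‖) := by
      rw [setIntegral_const, hvol, smul_eq_mul]
    have hc : ∀ c : ℝ, IntegrableOn (fun _ : ℝ => c) (J L) volume := fun c =>
      integrableOn_const (by unfold J; exact measure_Ioo_lt_top.ne)
    rw [e1, e2, ← integral_add hi (hc _)]
    refine setIntegral_mono_on (hc _) (hi.add (hc _)) measurableSet_Ioo fun y hy => ?_
    exact AgmAux.sq_sub hL p hx ⟨hy.1.le, hy.2.le⟩
  have h2 : ∫ y in J L, (p.val y) ^ 2 ≤ ‖V1.u L p‖ * ‖V1.u L p‖ := by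
    refine le_trans (le_of_eq ?_) ((le_abs_self _).trans
      (cs (S := J L) measurableSet_Ioo (V1.u L p) (V1.u L p)))
    refine integral_congr_ae ?_
    rw [Filter.EventuallyEq, ae_restrict_iff' (AgmAux.mJ L)]
    filter_upwards [p.val_ae] with y k1 hy
    rw [k1 hy]
    ring
  have h3 := p.norm_u_le
  have h4 := p.norm_d_le
  have h5 : 0 ≤ ‖V1.u L p‖ := norm_nonneg _
  have h6 : (L + 2) * (p.val x) ^ 2 ≤ (1 + (L + 2) * 2) * (‖V1.u L p‖ * ‖p‖) := by
    have k1 : ‖V1.u L p‖ * ‖V1.u L p‖ ≤ ‖V1.u L p‖ * ‖p‖ := by gcongr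
    have k2 : (L + 2) * (2 * (‖V1.u L p‖ * ‖V1.d L p‖)) ≤
        (L + 2) * (2 * (‖V1.u L p‖ * ‖p‖)) := by gcongr
    linarith
  have h7 : (1 / (L + 2) + 2) * (‖V1.u L p‖ * ‖p‖) =
      (1 + (L + 2) * 2) * (‖V1.u L p‖ * ‖p‖) / (L + 2) := by
    field_simp
  rw [h7, le_div_iff₀ (by linarith)]
  linarith

/-- A square integrable function with a continuous derivative gives an element of `V1`. -/
theorem V1.exists_of {F F' : ℝ → ℝ} (hF : MemLp F 2 volume) (hd : ∀ x, HasDerivAt F (F' x) x)
    (hc : Continuous F') : ∃ p : V1 L, V1.u L p = toL2 F ∧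
      (∀ᵐ x ∂volume, x ∈ J L → V1.d L p x = F' x) ∧
      ‖V1.d L p‖ ^ 2 = ∫ x in J L, (F' x) ^ 2 := by
  have hm : MemLp ((J L).indicator F') 2 volume := by
    rw [memLp_indicator_iff_restrict (AgmAux.mJ L)]
    obtain ⟨C, hC⟩ := (isCompact_Icc (a := (-1 : ℝ)) (b := L + 1)).exists_bound_of_continuousOn
      hc.continuousOn
    haveI : IsFiniteMeasure (volume.restrict (J L)) :=
      ⟨by rw [Measure.restrict_apply_univ]; exact measure_Ioo_lt_top⟩
    refine MemLp.of_bound hc.aestronglyMeasurable C ?_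
    rw [ae_restrict_iff' (AgmAux.mJ L)]
    exact Eventually.of_forall fun x hx => hC x ⟨hx.1.le, hx.2.le⟩
  have hdl := toL2_ae hm
  have hul := toL2_ae hF
  have hmem : (toL2 F, toL2 ((J L).indicator F')) ∈ V1sub L := by
    refine ⟨?_, F (-1), ?_⟩
    · filter_upwards [hdl] with x hx hxJ
      change toL2 ((J L).indicator F') x = 0
      rw [hx, indicator_of_notMem hxJ]
    · filter_upwards [hul] with x hx hxJ
      change toL2 F x = F (-1) + ∫ s in (-1)..x, toL2 ((J L).indicator F') s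
      have h1 : ∫ s in (-1)..x, toL2 ((J L).indicator F') s = ∫ s in (-1)..x, F' s := by
        refine intervalIntegral.integral_congr_ae ?_
        filter_upwards [hdl] with s hs hsx
        rw [uIoc_of_le hxJ.1.le] at hsx
        rw [hs, indicator_of_mem]
        exact ⟨hsx.1, lt_of_le_of_lt hsx.2 hxJ.2⟩
      rw [h1, hx, intervalIntegral.integral_eq_sub_of_hasDerivAt (fun s _ => hd s)
        (hc.intervalIntegrable _ _)]
      ring
  refine ⟨⟨_, hmem⟩, rfl, ?_, ?_⟩
  · filter_upwards [hdl] with x hx hxJ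
    change toL2 ((J L).indicator F') x = F' x
    rw [hx, indicator_of_mem hxJ]
  · change ‖toL2 ((J L).indicator F')‖ ^ 2 = _
    rw [norm_sq, ← integral_indicator (AgmAux.mJ L)]
    refine integral_congr_ae ?_
    filter_upwards [hdl] with x hx
    rw [hx]
    by_cases h : x ∈ J L
    · rw [indicator_of_mem h, indicator_of_mem h]
    · rw [indicator_of_notMem h, indicator_of_notMem h]
      simp

end Pool.Agent.Kdv
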