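import Pool.Agent.Lib.MP_78c35a_an.Abs

/-!
# Elementary properties of trajectories
-/

set_option autoImplicit false

namespace Pool.Agent.Kdv

open MeasureTheory Filter Topology Set
open scoped ENNReal InnerProductSpace

variable {H V : Type} [NormedAddCommGroup H] [InnerProductSpace ℝ H]
  [NormedAddCommGroup V] [NormedSpace ℝ V]

theorem Sm.U_neg (S : Sm H V) (t : ℝ) (y : H) : S.U t (S.U (-t) y) = y := by
  rw [← S.U_add, add_neg_cancel, S.U_zero]

theorem Sm.U_neg' (S : Sm H V) (t : ℝ) (y : H) : S.U (-t) (S.U t y) = y := by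
  rw [← S.U_add, neg_add_cancel, S.U_zero]

theorem Sm.U_inner (S : Sm H V) (t : ℝ) (x y : H) :
    inner ℝ (S.U t x) (S.U t y) = inner ℝ x y := by
  let L : H →ₗᵢ[ℝ] H := { toLinearMap := (S.U t).toLinearMap, norm_map' := S.U_norm t }
  exact L.inner_map_map x y

/-- The group is unitary. -/
theorem Sm.U_adj (S : Sm H V) (t : ℝ) (x y : H) : inner ℝ (S.U t x) y = inner ℝ x (S.U (-t) y) := by
  conv_lhs => rw [← S.U_neg t y]
  exact S.U_inner t _ _

/-- Joint continuity. -/
theorem Sm.U_cont2 (S : Sm H V) : Continuous fun p : ℝ × H => S.U p.1 p.2 := by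
  rw [continuous_iff_continuousAt]
  rintro ⟨t, z⟩
  rw [ContinuousAt, tendsto_iff_norm_sub_tendsto_zero]
  have h1 : Tendsto (fun p : ℝ × H => ‖p.2 - z‖ + ‖S.U p.1 z - S.U t z‖) (𝓝 (t, z)) (𝓝 0) := by
    have h0 : Continuous fun p : ℝ × H => S.U p.1 z := (S.U_cont z).comp continuous_fst
    have h2 : Continuous fun p : ℝ × H => ‖p.2 - z‖ + ‖S.U p.1 z - S.U t z‖ := by fun_prop
    have h := h2.tendsto (t, z)
    simpa using h
  refine squeeze_zero (fun _ => norm_nonneg _) (fun p => ?_) h1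
  calc ‖S.U p.1 p.2 - S.U t z‖ = ‖S.U p.1 (p.2 - z) + (S.U p.1 z - S.U t z)‖ := by
        rw [map_sub]; congr 1; abel
  _ ≤ _ := by
        refine (norm_add_le _ _).trans ?_
        rw [S.U_norm]

theorem Sm.traj_zero (S : Sm H V) (y : H) (f : ℝ → H) : S.traj y f 0 = y := by
  simp [Sm.traj, S.U_zero]

/-- Measurability of the integrand. -/
theorem Sm.U_meas (S : Sm H V) {f : ℝ → H} {g : ℝ → ℝ} (hg : Continuous g) {s : Set ℝ}
    (hf : AEStronglyMeasurable f (volume.restrict s)) :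
    AEStronglyMeasurable (fun r => S.U (g r) (f r)) (volume.restrict s) := by
  have h1 : AEStronglyMeasurable (fun r => (g r, f r)) (volume.restrict s) :=
    hg.aestronglyMeasurable.prodMk hf
  exact S.U_cont2.comp_aestronglyMeasurable h1

theorem Sm.U_int (S : Sm H V) {f : ℝ → H} {g : ℝ → ℝ} (hg : Continuous g) {s : Set ℝ}
    (hf : IntegrableOn f s) : IntegrableOn (fun r => S.U (g r) (f r)) s :=
  Integrable.mono hf (S.U_meas hg hf.aestronglyMeasurable)
    (Eventually.of_forall fun r => by rw [S.U_norm])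

/-- The integrand of Duhamel's formula is integrable. -/
theorem Sm.traj_int (S : Sm H V) {f : ℝ → H} {T : ℝ} (hf : IntegrableOn f (Ioc 0 T)) (t : ℝ) :
    IntegrableOn (fun s => S.U (t - s) (f s)) (Ioc 0 T) :=
  S.U_int (by fun_prop) hf

theorem ii_of {E : Type} [NormedAddCommGroup E] {f : ℝ → E} {a b T : ℝ}
    (hf : IntegrableOn f (Ioc 0 T)) (ha : 0 ≤ a) (hab : a ≤ b) (hb : b ≤ T) :
    IntervalIntegrable f volume a b := by
  rw [intervalIntegrable_iff_integrableOn_Ioc_of_le hab]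
  exact hf.mono_set (Ioc_subset_Ioc ha hb)

/-- The trajectory in the interaction picture. -/
theorem Sm.traj_eq (S : Sm H V) [CompleteSpace H] (y : H) {f : ℝ → H} {T : ℝ}
    (hf : IntegrableOn f (Ioc 0 T)) {t : ℝ} (ht : t ∈ Icc 0 T) :
    S.traj y f t = S.U t (y + ∫ s in (0 : ℝ)..t, S.U (-s) (f s)) := by
  rw [Sm.traj, map_add]
  congr 1
  rw [← ContinuousLinearMap.intervalIntegral_comp_comm]
  · refine intervalIntegral.integral_congr fun s _ => ?_
    change S.U (t - s) (f s) = S.U t (S.U (-s) (f s))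
    rw [← S.U_add, sub_eq_add_neg]
  · exact ii_of (S.U_int (by fun_prop) hf) le_rfl ht.1 ht.2

theorem Sm.traj_cont (S : Sm H V) [CompleteSpace H] (y : H) {f : ℝ → H} {T : ℝ} (hT : 0 ≤ T)
    (hf : IntegrableOn f (Ioc 0 T)) : ContinuousOn (S.traj y f) (Icc 0 T) := by
  have h1 : ContinuousOn (fun t => ∫ s in (0 : ℝ)..t, S.U (-s) (f s)) (Icc 0 T) := by
    have h := intervalIntegral.continuousOn_primitive_interval
      (μ := volume) (a := (0 : ℝ)) (b := T) (f := fun s => S.U (-s) (f s)) (by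
        rw [uIcc_of_le hT, integrableOn_Icc_iff_integrableOn_Ioc]
        exact S.U_int (by fun_prop) hf)
    rwa [uIcc_of_le hT] at h
  have h2 : ContinuousOn (fun t => S.U t (y + ∫ s in (0 : ℝ)..t, S.U (-s) (f s))) (Icc 0 T) := by
    have h3 : ContinuousOn (fun t => (t, y + ∫ s in (0 : ℝ)..t, S.U (-s) (f s))) (Icc 0 T) :=
      continuousOn_id.prodMk (continuousOn_const.add h1)
    exact S.U_cont2.comp_continuousOn h3
  exact h2.congr fun t ht => S.traj_eq y hf ht

theorem Sm.traj_norm (S : Sm H V) [CompleteSpace H] (y : H) {f : ℝ → H} {T : ℝ}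
    (hf : IntegrableOn f (Ioc 0 T)) {t : ℝ} (ht : t ∈ Icc 0 T) :
    ‖S.traj y f t‖ ≤ ‖y‖ + ∫ s in (0 : ℝ)..t, ‖f s‖ := by
  rw [Sm.traj]
  refine (norm_add_le _ _).trans ?_
  rw [S.U_norm]
  gcongr
  refine (intervalIntegral.norm_integral_le_integral_norm ht.1).trans (le_of_eq ?_)
  exact intervalIntegral.integral_congr fun s _ => S.U_norm _ _

theorem Sm.traj_congr (S : Sm H V) (y : H) {f g : ℝ → H} {t : ℝ} (ht : 0 ≤ t)
    (h : ∀ᵐ s ∂volume.restrict (Ioc 0 t), f s = g s) : S.traj y f t = S.traj y g t := by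
  rw [Sm.traj, Sm.traj, intervalIntegral.integral_of_le ht, intervalIntegral.integral_of_le ht]
  congr 1
  refine integral_congr_ae ?_
  filter_upwards [h] with s hs
  rw [hs]

theorem Sm.traj_add (S : Sm H V) [CompleteSpace H] (y z : H) {f g : ℝ → H} {T : ℝ}
    (hf : IntegrableOn f (Ioc 0 T)) (hg : IntegrableOn g (Ioc 0 T)) {t : ℝ} (ht : t ∈ Icc 0 T) :
    S.traj (y + z) (fun s => f s + g s) t = S.traj y f t + S.traj z g t := by
  simp only [Sm.traj, map_add]
  rw [intervalIntegral.integral_add (ii_of (S.traj_int hf t) le_rfl ht.1 ht.2)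
    (ii_of (S.traj_int hg t) le_rfl ht.1 ht.2)]
  abel

theorem Sm.traj_smul (S : Sm H V) [CompleteSpace H] (r : ℝ) (y : H) (f : ℝ → H) (t : ℝ) :
    S.traj (r • y) (fun s => r • f s) t = r • S.traj y f t := by
  simp only [Sm.traj, map_smul]
  rw [intervalIntegral.integral_smul, smul_add]

theorem Sm.traj_shift (S : Sm H V) [CompleteSpace H] (y : H) {f : ℝ → H} {a t : ℝ} (ha : 0 ≤ a)
    (ht : 0 ≤ t) (hf : IntegrableOn f (Ioc 0 (a + t))) :
    S.traj y f (a + t) = S.traj (S.traj y f a) (fun s => f (a + s)) t := by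
  have h1 : IntervalIntegrable (fun s => S.U (a - s) (f s)) volume 0 a :=
    ii_of (S.traj_int hf a) le_rfl ha (by linarith)
  have h2 : S.U t (∫ s in (0 : ℝ)..a, S.U (a - s) (f s)) =
      ∫ s in (0 : ℝ)..a, S.U (a + t - s) (f s) := by
    rw [← ContinuousLinearMap.intervalIntegral_comp_comm _ h1]
    refine intervalIntegral.integral_congr fun s _ => ?_
    change S.U t (S.U (a - s) (f s)) = S.U (a + t - s) (f s)
    rw [← S.U_add]
    congr 2
    ring_nf
  have h3 : ∫ s in (0 : ℝ)..t, S.U (t - s) (f (a + s)) =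
      ∫ s in a..(a + t), S.U (a + t - s) (f s) := by
    have h := intervalIntegral.integral_comp_add_left (a := 0) (b := t)
      (fun s => S.U (a + t - s) (f s)) a
    rw [add_zero] at h
    rw [← h]
    refine intervalIntegral.integral_congr fun s _ => ?_
    congr 2
    ring
  simp only [Sm.traj]
  rw [map_add, h2, h3, ← S.U_add, add_comm t a,
    ← intervalIntegral.integral_add_adjacent_intervals
      (ii_of (S.traj_int hf (a + t)) le_rfl ha (by linarith))
      (ii_of (S.traj_int hf (a + t)) ha (by linarith) le_rfl), add_assoc]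

/-- A path on `(0, T)` is a path on `(0, t)` for `t ≤ T`. -/
theorem Sm.Path.mono {S : Sm H V} {y : H} {T : ℝ} {f : ℝ → H} {v : ℝ → V} (h : S.Path y T f v)
    {t : ℝ} (ht : t ≤ T) : S.Path y t f v := by
  have hs : Ioc (0 : ℝ) t ⊆ Ioc 0 T := Ioc_subset_Ioc_right ht
  have hm : (volume : Measure ℝ).restrict (Ioc 0 t) ≤ volume.restrict (Ioc 0 T) :=
    Measure.restrict_mono hs le_rfl
  exact ⟨h.int.mono_set hs, h.meas.mono_measure hm,
    (lintegral_mono' hm le_rfl).trans_lt h.fin, ae_mono hm h.lift⟩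

end Pool.Agent.Kdv
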