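import Pool.Agent.Lib.MP_78c35a_an.KatoSm
import Pool.Agent.Lib.MP_78c35a_an.TrajA

/-!
# The parameters of the diagonalised system, and its group
-/

set_option autoImplicit false

namespace Pool.Agent.Kdv

open MeasureTheory Filter Topology Set
open scoped ENNReal

/-- The parameters of the system `y_t + Λ y_xxx + (S y + ∇G(y))_x = 0`, where
`∇G(y)_j = ∑ g_jkl y_k y_l / 2`. -/
structure Par (n : ℕ) where
  /-- length of the interval -/
  L : ℝ
  hL : 0 < L
  /-- dispersion coefficients -/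
  mu : Fin n → ℝ
  hmu : ∀ j, 0 < mu j
  /-- quadratic coefficients -/
  g : Fin n → Fin n → Fin n → ℝ
  g12 : ∀ j k l, g j k l = g k j l
  g23 : ∀ j k l, g j k l = g j l k
  /-- linear coefficients -/
  S : Fin n → Fin n → ℝ
  hS : ∀ j k, S j k = S k j
  /-- the direction in which the quadratic terms are definite -/
  e : Fin n → ℝ
  Se : ∀ j, ∑ k, S j k * e k = 0
  /-- the constant of definiteness -/
  kap : ℝ
  hkap : 0 < kap
  coer : ∀ x : Fin n → ℝ, kap * ∑ j, x j ^ 2 ≤ ∑ j, ∑ k, ∑ l, g j k l * e j * x k * x l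

variable {n : ℕ}

/-- The group of the system. -/
noncomputable def UU (p : Par n) (t : ℝ) : HH n →L[ℝ] HH n :=
  mkH fun j => (airy (p.mu j * t)).comp (prH j)

@[simp] lemma UU_apply (p : Par n) (t : ℝ) (y : HH n) (j : Fin n) :
    UU p t y j = airy (p.mu j * t) (y j) := rfl

theorem UU_zero (p : Par n) (y : HH n) : UU p 0 y = y := by
  ext1 j
  rw [UU_apply, mul_zero, airy_zero]

theorem UU_add (p : Par n) (s t : ℝ) (y : HH n) : UU p (s + t) y = UU p s (UU p t y) := by
  ext1 j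
  rw [UU_apply, UU_apply, UU_apply, mul_add, airy_add]

theorem UU_norm (p : Par n) (t : ℝ) (y : HH n) : ‖UU p t y‖ = ‖y‖ := by
  rw [PiLp.norm_eq_of_L2, PiLp.norm_eq_of_L2]
  simp only [UU_apply, airy_norm]

theorem UU_cont (p : Par n) (y : HH n) : Continuous fun t => UU p t y := by
  have h : Continuous fun t => (fun j => airy (p.mu j * t) (y j) : Fin n → L2) :=
    continuous_pi fun j => (airy_cont (y j)).comp (continuous_const.mul continuous_id)
  exact (PiLp.continuousLinearEquiv 2 ℝ (fun _ : Fin n => L2)).symm.continuous.comp h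

theorem inc_injective (n : ℕ) {L : ℝ} (hL : 0 < L) : Function.Injective (inc n L) := by
  intro a b hab
  funext j
  have h : inc n L a j = inc n L b j := by rw [hab]
  exact V1.u_injective hL h

/-- A function with strongly measurable components is strongly measurable. -/
theorem ae_pi {E : Type} [NormedAddCommGroup E] {v : Fin n → ℝ → E} {m : Measure ℝ}
    (h : ∀ j, AEStronglyMeasurable (v j) m) : AEStronglyMeasurable (fun t j => v j t) m := by
  have h1 : (fun t j => v j t : ℝ → Fin n → E) = fun t => ∑ j, Pi.single j (v j t) := by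
    funext t
    exact (Finset.univ_sum_single (fun j => v j t)).symm
  rw [h1]
  refine Finset.aestronglyMeasurable_fun_sum _ fun j _ => ?_
  exact (continuous_single j).comp_aestronglyMeasurable (h j)

/-- The supremum norm of a vector is at most its Euclidean norm. -/
theorem enorm_pi_sq_le {E : Type} [NormedAddCommGroup E] (x : Fin n → E) :
    ‖x‖ₑ ^ 2 ≤ ∑ j, ‖x j‖ₑ ^ 2 := by
  have h0 : 0 ≤ ∑ j, ‖x j‖ ^ 2 := Finset.sum_nonneg fun j _ => sq_nonneg _
  have h1 : ‖x‖ ^ 2 ≤ ∑ j, ‖x j‖ ^ 2 := by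
    have h2 : ‖x‖ ≤ √(∑ j, ‖x j‖ ^ 2) := by
      refine (pi_norm_le_iff_of_nonneg (Real.sqrt_nonneg _)).mpr fun j => ?_
      refine Real.le_sqrt_of_sq_le ?_
      exact Finset.single_le_sum (f := fun j => ‖x j‖ ^ 2) (fun j _ => sq_nonneg _)
        (Finset.mem_univ j)
    calc ‖x‖ ^ 2 ≤ √(∑ j, ‖x j‖ ^ 2) ^ 2 := by gcongr
      _ = _ := Real.sq_sqrt h0
  rw [← ofReal_norm, ← ENNReal.ofReal_pow (norm_nonneg _)]
  refine (ENNReal.ofReal_le_ofReal h1).trans ?_
  rw [ENNReal.ofReal_sum_of_nonneg fun j _ => sq_nonneg _]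
  refine (Finset.sum_congr rfl fun j _ => ?_).le
  rw [ENNReal.ofReal_pow (norm_nonneg _), ofReal_norm]

theorem smn_smooth (p : Par n) : ∃ C : ℝ, 0 ≤ C ∧ ∀ y : HH n, ∃ v : ℝ → VV n p.L,
    AEStronglyMeasurable v (volume.restrict (Ioc 0 1)) ∧
      (∀ᵐ t ∂volume.restrict (Ioc (0 : ℝ) 1), inc n p.L (v t) = UU p t y) ∧
      ∫⁻ t in Ioc (0 : ℝ) 1, ‖v t‖ₑ ^ 2 ≤ ENNReal.ofReal (C * ‖y‖ ^ 2) := by
  choose C hC0 hC using fun j => kato_smooth p.hL (p.hmu j)
  refine ⟨∑ j, C j, Finset.sum_nonneg fun j _ => hC0 j, fun y => ?_⟩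
  choose v hv1 hv2 hv3 using fun j => hC j (y j)
  refine ⟨fun t j => v j t, ?_, ?_, ?_⟩
  · exact ae_pi hv1
  · filter_upwards [ae_all_iff.mpr hv2] with t ht
    ext1 j
    exact ht j
  · have h1 : ∀ t, ‖(fun j => v j t : VV n p.L)‖ₑ ^ 2 ≤ ∑ j, ‖v j t‖ₑ ^ 2 := fun t =>
      enorm_pi_sq_le _
    refine (lintegral_mono fun t => h1 t).trans ?_
    rw [lintegral_finsetSum' _ fun j _ => (hv1 j).enorm.pow_const 2]
    calc ∑ j, ∫⁻ t in Ioc (0 : ℝ) 1, ‖v j t‖ₑ ^ 2
        ≤ ∑ j, ENNReal.ofReal (C j * ‖y j‖ ^ 2) := Finset.sum_le_sum fun j _ => hv3 j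
      _ ≤ ∑ j, ENNReal.ofReal (C j * ‖y‖ ^ 2) := by
          refine Finset.sum_le_sum fun j _ => ENNReal.ofReal_le_ofReal ?_
          have : ‖y j‖ ≤ ‖y‖ := PiLp.norm_apply_le y j
          have := hC0 j
          gcongr
      _ = ENNReal.ofReal ((∑ j, C j) * ‖y‖ ^ 2) := by
          rw [← ENNReal.ofReal_sum_of_nonneg fun j _ => mul_nonneg (hC0 j) (sq_nonneg _),
            Finset.sum_mul]

/-- The group of the system, with its smoothing effect. -/
noncomputable def smn (p : Par n) : Sm (HH n) (VV n p.L) where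
  U := UU p
  inc := inc n p.L
  U_zero := UU_zero p
  U_add := UU_add p
  U_norm := UU_norm p
  U_cont := UU_cont p
  inj := inc_injective n p.hL
  C := (smn_smooth p).choose
  C_nonneg := (smn_smooth p).choose_spec.1
  smooth := (smn_smooth p).choose_spec.2

/-- The scalar group. -/
noncomputable def sm1 {L μ : ℝ} (hL : 0 < L) (hμ : 0 < μ) : Sm L2 (V1 L) where
  U t := airy (μ * t)
  inc := V1.u L
  U_zero y := by rw [mul_zero, airy_zero]
  U_add s t y := by rw [mul_add, airy_add]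
  U_norm t y := airy_norm _ y
  U_cont y := (airy_cont y).comp (continuous_const.mul continuous_id)
  inj := V1.u_injective hL
  C := (kato_smooth hL hμ).choose
  C_nonneg := (kato_smooth hL hμ).choose_spec.1
  smooth := (kato_smooth hL hμ).choose_spec.2

/-- The components of a trajectory. -/
theorem traj_comp (p : Par n) (y : HH n) {f : ℝ → HH n} {T : ℝ} (hf : IntegrableOn f (Ioc 0 T))
    {t : ℝ} (ht : t ∈ Icc 0 T) (j : Fin n) :
    (smn p).traj y f t j = (sm1 p.hL (p.hmu j)).traj (y j) (fun s => f s j) t := by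
  have h1 : IntervalIntegrable (fun s => (smn p).U (t - s) (f s)) volume 0 t :=
    ii_of ((smn p).traj_int hf t) le_rfl ht.1 ht.2
  have h2 := (prH j).intervalIntegral_comp_comm h1
  change prH j ((smn p).traj y f t) = _
  rw [Sm.traj, map_add, ← h2]
  rfl

/-- The components of a path. -/
theorem path_comp (p : Par n) {y : HH n} {f : ℝ → HH n} {v : ℝ → VV n p.L} {T : ℝ}
    (h : (smn p).Path y T f v) (j : Fin n) :
    (sm1 p.hL (p.hmu j)).Path (y j) T (fun s => f s j) (fun s => v s j) := by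
  refine ⟨(prH j).integrable_comp h.int, ?_, ?_, ?_⟩
  · exact (continuous_apply j).comp_aestronglyMeasurable h.meas
  · refine lt_of_le_of_lt (lintegral_mono fun t => ?_) h.fin
    gcongr
    exact enorm_le_iff_norm_le.mpr (norm_le_pi_norm (v t) j)
  · have h3 := h.lift
    filter_upwards [h3, ae_restrict_mem measurableSet_Ioc] with t ht hmem
    rw [← traj_comp p y h.int ⟨hmem.1.le, hmem.2⟩ j, ← ht]
    rfl

end Pool.Agent.Kdv
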