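import Pool.Agent.Lib.MP_78c35a_an.TrajA

/-!
# Concatenation of paths
-/

set_option autoImplicit false

namespace Pool.Agent.Kdv

open MeasureTheory Filter Topology Set
open scoped ENNReal InnerProductSpace

variable {H V : Type} [NormedAddCommGroup H] [InnerProductSpace ℝ H] [CompleteSpace H]
  [NormedAddCommGroup V] [NormedSpace ℝ V]

/-- `f` up to time `a`, then `g`. -/
noncomputable def glue {E : Type} (a : ℝ) (f g : ℝ → E) (t : ℝ) : E :=
  if t ≤ a then f t else g (t - a)

theorem glue_of_le {E : Type} {a t : ℝ} (f g : ℝ → E) (h : t ≤ a) : glue a f g t = f t :=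
  if_pos h

theorem glue_of_lt {E : Type} {a t : ℝ} (f g : ℝ → E) (h : a < t) : glue a f g t = g (t - a) :=
  if_neg (not_le.2 h)

/-- Translation of a property which holds almost everywhere on an interval. -/
theorem ae_shift {a b : ℝ} {P : ℝ → Prop} (h : ∀ᵐ t ∂volume.restrict (Ioc 0 b), P t) :
    ∀ᵐ t ∂(volume : Measure ℝ), t ∈ Ioc a (a + b) → P (t - a) := by
  rw [ae_restrict_iff' measurableSet_Ioc] at h
  have h1 := (measurePreserving_sub_right (volume : Measure ℝ) a).quasiMeasurePreserving.ae h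
  filter_upwards [h1] with t ht h2
  exact ht ⟨by linarith [h2.1], by linarith [h2.2]⟩

theorem Ioc_split {a b : ℝ} (ha : 0 ≤ a) (hb : 0 ≤ b) : Ioc 0 (a + b) = Ioc 0 a ∪ Ioc a (a + b) :=
  (Ioc_union_Ioc_eq_Ioc ha (by linarith)).symm

/-- A relation which holds on both pieces holds for the concatenation. -/
theorem ae_glue {E F : Type} {a b : ℝ} (ha : 0 ≤ a) (hb : 0 ≤ b) {f g : ℝ → E} {v w : ℝ → F}
    {p : E → F → Prop} (h1 : ∀ᵐ t ∂volume.restrict (Ioc 0 a), p (f t) (v t))
    (h2 : ∀ᵐ t ∂volume.restrict (Ioc 0 b), p (g t) (w t)) :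
    ∀ᵐ t ∂volume.restrict (Ioc 0 (a + b)), p (glue a f g t) (glue a v w t) := by
  rw [ae_restrict_iff' measurableSet_Ioc] at h1 ⊢
  filter_upwards [h1, ae_shift (a := a) h2] with t h3 h4 h5
  rcases le_or_gt t a with h | h
  · rw [glue_of_le _ _ h, glue_of_le _ _ h]
    exact h3 ⟨h5.1, h⟩
  · rw [glue_of_lt _ _ h, glue_of_lt _ _ h]
    exact h4 ⟨h, h5.2⟩

/-- On the first piece. -/
theorem glue_ae_left {E : Type} {a : ℝ} (f g : ℝ → E) :
    ∀ᵐ t ∂(volume : Measure ℝ).restrict (Ioc 0 a), glue a f g t = f t := by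
  rw [ae_restrict_iff' measurableSet_Ioc]
  exact Eventually.of_forall fun t ht => glue_of_le _ _ ht.2

theorem glue_ae_right {E : Type} {a b : ℝ} (f g : ℝ → E) :
    ∀ᵐ t ∂(volume : Measure ℝ).restrict (Ioc a (a + b)), glue a f g t = g (t - a) := by
  rw [ae_restrict_iff' measurableSet_Ioc]
  exact Eventually.of_forall fun t ht => glue_of_lt _ _ ht.1

/-- Translation maps the restricted measure to the restricted measure. -/
theorem mp_shift (a b : ℝ) : MeasurePreserving (fun t : ℝ => t - a)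
    ((volume : Measure ℝ).restrict (Ioc a (a + b))) ((volume : Measure ℝ).restrict (Ioc 0 b)) := by
  have h := (measurePreserving_sub_right (volume : Measure ℝ) a).restrict_preimage
    (measurableSet_Ioc (a := (0 : ℝ)) (b := b))
  have e : (fun t : ℝ => t - a) ⁻¹' Ioc 0 b = Ioc a (a + b) := by
    ext t
    constructor
    · rintro ⟨h1, h2⟩
      exact ⟨by linarith, by linarith⟩
    · rintro ⟨h1, h2⟩
      exact ⟨by linarith, by linarith⟩
  rwa [e] at h

omit [InnerProductSpace ℝ H] [CompleteSpace H] in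
theorem integrableOn_glue {a b : ℝ} (ha : 0 ≤ a) (hb : 0 ≤ b) {f g : ℝ → H}
    (hf : IntegrableOn f (Ioc 0 a)) (hg : IntegrableOn g (Ioc 0 b)) :
    IntegrableOn (glue a f g) (Ioc 0 (a + b)) := by
  rw [Ioc_split ha hb, integrableOn_union]
  refine ⟨hf.congr ?_, ?_⟩
  · filter_upwards [glue_ae_left f g] with t ht
    exact ht.symm
  · have h1 : IntegrableOn (fun t => g (t - a)) (Ioc a (a + b)) :=
      (mp_shift a b).integrable_comp_of_integrable hg
    refine h1.congr ?_
    filter_upwards [glue_ae_right (b := b) f g] with t ht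
    exact ht.symm

theorem Sm.traj_glue (S : Sm H V) (y : H) {f g : ℝ → H} {a b : ℝ} (ha : 0 ≤ a) (hb : 0 ≤ b)
    (hf : IntegrableOn f (Ioc 0 a)) (hg : IntegrableOn g (Ioc 0 b)) :
    S.traj y (glue a f g) (a + b) = S.traj (S.traj y f a) g b := by
  rw [S.traj_shift y ha hb (integrableOn_glue ha hb hf hg),
    S.traj_congr y ha (glue_ae_left f g)]
  refine S.traj_congr _ hb ?_
  rw [ae_restrict_iff' measurableSet_Ioc]
  refine Eventually.of_forall fun s hs => ?_
  rw [glue_of_lt _ _ (by linarith [hs.1]), add_sub_cancel_left]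

theorem Sm.Path.glue {S : Sm H V} {y : H} {a b : ℝ} (ha : 0 ≤ a) (hb : 0 ≤ b) {f g : ℝ → H}
    {v w : ℝ → V} (h1 : S.Path y a f v) (h2 : S.Path (S.traj y f a) b g w) :
    S.Path y (a + b) (Kdv.glue a f g) (Kdv.glue a v w) := by
  refine ⟨integrableOn_glue ha hb h1.int h2.int, ?_, ?_, ?_⟩
  · rw [Ioc_split ha hb, aestronglyMeasurable_union_iff]
    refine ⟨h1.meas.congr ?_, ?_⟩
    · filter_upwards [glue_ae_left v w] with t ht
      exact ht.symm
    · have h3 : AEStronglyMeasurable (fun t => w (t - a))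
          ((volume : Measure ℝ).restrict (Ioc a (a + b))) :=
        h2.meas.comp_measurePreserving (mp_shift a b)
      refine h3.congr ?_
      filter_upwards [glue_ae_right (b := b) v w] with t ht
      exact ht.symm
  · rw [Ioc_split ha hb]
    refine lt_of_le_of_lt (lintegral_union_le _ _ _) (ENNReal.add_lt_top.2 ⟨?_, ?_⟩)
    · have e : ∫⁻ t in Ioc (0 : ℝ) a, ‖Kdv.glue a v w t‖ₑ ^ 2 = ∫⁻ t in Ioc (0 : ℝ) a, ‖v t‖ₑ ^ 2 :=
        lintegral_congr_ae (by
          filter_upwards [glue_ae_left v w] with t ht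
          rw [ht])
      rw [e]
      exact h1.fin
    · have e : ∫⁻ t in Ioc a (a + b), ‖Kdv.glue a v w t‖ₑ ^ 2 =
          ∫⁻ t in Ioc a (a + b), ‖w (t - a)‖ₑ ^ 2 :=
        lintegral_congr_ae (by
          filter_upwards [glue_ae_right (b := b) v w] with t ht
          rw [ht])
      rw [e]
      have e2 : ∫⁻ t in Ioc a (a + b), ‖w (t - a)‖ₑ ^ 2 = ∫⁻ t in Ioc (0 : ℝ) b, ‖w t‖ₑ ^ 2 := by
        have hm := mp_shift a b
        have hae : AEMeasurable (fun t => ‖w t‖ₑ ^ 2)
            ((volume : Measure ℝ).restrict (Ioc 0 b)) := h2.meas.enorm.pow_const 2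
        rw [← hm.map_eq] at hae ⊢
        rw [lintegral_map' hae hm.aemeasurable]
      rw [e2]
      exact h2.fin
  · have h3 := h1.lift
    have h4 := ae_shift (a := a) h2.lift
    rw [ae_restrict_iff' measurableSet_Ioc] at h3 ⊢
    filter_upwards [h3, h4] with t h5 h6 h7
    rcases le_or_gt t a with h | h
    · rw [glue_of_le _ _ h, h5 ⟨h7.1, h⟩]
      refine S.traj_congr y h7.1.le ?_
      rw [ae_restrict_iff' measurableSet_Ioc]
      exact Eventually.of_forall fun s hs => (glue_of_le _ _ (hs.2.trans h)).symm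
    · have h8 := h6 ⟨h, h7.2⟩
      rw [glue_of_lt _ _ h, h8]
      have h9 := S.traj_glue y ha (b := t - a) (by linarith) h1.int
        (h2.int.mono_set (Ioc_subset_Ioc_right (by linarith [h7.2])))
      rw [add_sub_cancel] at h9
      exact h9.symm

theorem Sys.Adm.refl (S : Sys H V) (y : H) : S.Adm y y 0 := by
  have e : (volume : Measure ℝ).restrict (Ioc 0 0) = 0 := by
    rw [Ioc_self, Measure.restrict_empty]
  refine ⟨fun _ => 0, fun _ => 0, ⟨?_, ?_, ?_, ?_⟩, ?_, S.toSm.traj_zero y _⟩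
  · rw [Ioc_self]
    exact integrableOn_empty
  · rw [e]
    exact aestronglyMeasurable_zero_measure _
  · rw [e, lintegral_zero_measure]
    exact ENNReal.zero_lt_top
  · rw [e, ae_zero]
    exact eventually_bot
  · rw [e, ae_zero]
    exact eventually_bot

theorem Sys.Adm.trans {S : Sys H V} {y0 y1 y2 : H} {a b : ℝ} (ha : 0 ≤ a) (hb : 0 ≤ b)
    (h1 : S.Adm y0 y1 a) (h2 : S.Adm y1 y2 b) : S.Adm y0 y2 (a + b) := by
  obtain ⟨f, v, hp, hf, rfl⟩ := h1
  obtain ⟨g, w, hq, hg, rfl⟩ := h2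
  exact ⟨glue a f g, glue a v w, hp.glue ha hb hq,
    ae_glue (p := fun x z => S.P x = S.P (S.l z + S.q z)) ha hb hf hg,
    S.toSm.traj_glue y0 ha hb hp.int hq.int⟩

end Pool.Agent.Kdv
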