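import Pool.Agent.Lib.MP_78c35a_an.TrajA

/-!
# Reversal of time
-/

set_option autoImplicit false

namespace Pool.Agent.Kdv

open MeasureTheory Filter Topology Set
open scoped ENNReal InnerProductSpace

variable {H V : Type} [NormedAddCommGroup H] [InnerProductSpace ℝ H] [CompleteSpace H]
  [NormedAddCommGroup V] [NormedSpace ℝ V]

namespace Rev

/-- Reflection of `(0, T)`. -/
theorem mp_sub (T : ℝ) : MeasurePreserving (fun s : ℝ => T - s) (volume.restrict (Ioc 0 T))
    (volume.restrict (Ioc 0 T)) := by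
  have h := (Measure.measurePreserving_sub_left (volume : Measure ℝ) T).restrict_preimage
    (measurableSet_Ico (a := (0 : ℝ)) (b := T))
  have e1 : (fun s : ℝ => T - s) ⁻¹' Ico 0 T = Ioc 0 T := by
    ext s
    simp only [mem_preimage, mem_Ico, mem_Ioc]
    constructor <;> rintro ⟨h1, h2⟩ <;> constructor <;> linarith
  have e2 : (volume : Measure ℝ).restrict (Ico 0 T) = volume.restrict (Ioc 0 T) :=
    Measure.restrict_congr_set Ico_ae_eq_Ioc
  rwa [e1, e2] at h

theorem int_rev {E : Type} [NormedAddCommGroup E] {f : ℝ → E} {T : ℝ}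
    (hf : IntegrableOn f (Ioc 0 T)) : IntegrableOn (fun s => f (T - s)) (Ioc 0 T) :=
  (mp_sub T).integrable_comp_of_integrable hf

end Rev

open Rev

theorem Sys.traj_rev (S : Sys H V) (y : H) {f : ℝ → H} {T : ℝ} (hf : IntegrableOn f (Ioc 0 T))
    {t : ℝ} (ht : t ∈ Icc 0 T) :
    S.toSm.traj (S.rho (S.toSm.traj y f T)) (fun s => -S.rho (f (T - s))) t =
      S.rho (S.toSm.traj y f (T - t)) := by
  have h0T : 0 ≤ T := ht.1.trans ht.2
  -- the integrand
  set g : ℝ → H := fun r => S.U (t - T + r) (S.rho (f r)) with hg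
  have hU : ∀ a b z, S.U a (S.rho (S.U b z)) = S.U (a - b) (S.rho z) := by
    intro a b z
    rw [S.rho_U, ← S.U_add, sub_eq_add_neg]
  have hU' : ∀ b z, S.rho (S.U b z) = S.U (-b) (S.rho z) := fun b z => S.rho_U b z
  have hgi : IntegrableOn g (Ioc 0 T) := by
    have h1 := S.toSm.traj_int hf T
    have h2 := (S.U t).integrable_comp (S.rho.integrable_comp h1)
    refine h2.congr (Eventually.of_forall fun r => ?_)
    simp only [hg]
    rw [hU]
    congr 2
    ring
  have hgI : ∀ a b, a ∈ Icc 0 T → b ∈ Icc 0 T → IntervalIntegrable g volume a b := by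
    intro a b ha hb
    rw [intervalIntegrable_iff]
    refine hgi.mono_set fun x hx => ?_
    rw [uIoc, mem_Ioc] at hx
    exact ⟨lt_of_le_of_lt (le_min ha.1 hb.1) hx.1, hx.2.trans (max_le ha.2 hb.2)⟩
  -- the first integral
  have hi : ∀ τ, τ ∈ Icc 0 T → IntervalIntegrable (fun s => S.U (τ - s) (f s)) volume 0 τ := by
    intro τ hτ
    rw [intervalIntegrable_iff, uIoc_of_le hτ.1]
    exact (S.toSm.traj_int hf τ).mono_set (Ioc_subset_Ioc_right hτ.2)
  have e1 : S.U t (S.rho (∫ s in (0 : ℝ)..T, S.U (T - s) (f s))) = ∫ r in (0 : ℝ)..T, g r := by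
    have h1 := (S.rho.intervalIntegral_comp_comm (hi T ⟨h0T, le_rfl⟩)).symm
    have h2 : IntervalIntegrable (fun s => S.rho (S.U (T - s) (f s))) volume 0 T := by
      rw [intervalIntegrable_iff, uIoc_of_le h0T]
      exact S.rho.integrable_comp (S.toSm.traj_int hf T)
    rw [h1, ← (S.U t).intervalIntegral_comp_comm h2]
    refine intervalIntegral.integral_congr fun r _ => ?_
    simp only [hg]
    rw [hU]
    congr 2
    ring
  have e2 : ∫ s in (0 : ℝ)..t, S.U (t - s) (-S.rho (f (T - s))) = -∫ r in (T - t)..T, g r := by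
    have h1 : ∀ s, S.U (t - s) (-S.rho (f (T - s))) = -g (T - s) := by
      intro s
      simp only [hg]
      rw [map_neg]
      congr 3
      ring
    simp only [h1]
    rw [intervalIntegral.integral_neg, intervalIntegral.integral_comp_sub_left, sub_zero]
  have e3 : S.rho (∫ s in (0 : ℝ)..(T - t), S.U (T - t - s) (f s)) =
      ∫ r in (0 : ℝ)..(T - t), g r := by
    have hT' : T - t ∈ Icc 0 T := ⟨by linarith [ht.2], by linarith [ht.1]⟩
    rw [← S.rho.intervalIntegral_comp_comm (hi _ hT')]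
    refine intervalIntegral.integral_congr fun r _ => ?_
    simp only [hg]
    rw [hU']
    congr 2
    ring
  have e4 : (∫ r in (0 : ℝ)..T, g r) = (∫ r in (0 : ℝ)..(T - t), g r) + ∫ r in (T - t)..T, g r :=
    (intervalIntegral.integral_add_adjacent_intervals
      (hgI _ _ ⟨le_rfl, h0T⟩ ⟨by linarith [ht.2], by linarith [ht.1]⟩)
      (hgI _ _ ⟨by linarith [ht.2], by linarith [ht.1]⟩ ⟨h0T, le_rfl⟩)).symm
  unfold Sm.traj
  rw [map_add, map_add, map_add, e1, e2, e3, e4, hU, hU']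
  have e5 : -(T - t) = t - T := by ring
  rw [e5]
  abel

theorem Sys.path_rev (S : Sys H V) {y : H} {f : ℝ → H} {v : ℝ → V} {T : ℝ} (hT : 0 ≤ T)
    (h : S.toSm.Path y T f v) :
    S.toSm.Path (S.rho (S.toSm.traj y f T)) T (fun s => -S.rho (f (T - s)))
      (fun s => S.rhoV (v (T - s))) := by
  refine ⟨?_, ?_, ?_, ?_⟩
  · exact (S.rho.integrable_comp (int_rev h.int)).neg
  · exact S.rhoV.continuous.comp_aestronglyMeasurable
      (h.meas.comp_measurePreserving (mp_sub T))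
  · have h1 : ∫⁻ t in Ioc (0 : ℝ) T, ‖v (T - t)‖ₑ ^ 2 = ∫⁻ t in Ioc (0 : ℝ) T, ‖v t‖ₑ ^ 2 := by
      have hm : AEMeasurable (fun t => ‖v t‖ₑ ^ 2) (volume.restrict (Ioc (0 : ℝ) T)) :=
        h.meas.enorm.pow_const 2
      rw [← (mp_sub T).map_eq] at hm
      have h2 := lintegral_map' hm (mp_sub T).aemeasurable
      rw [(mp_sub T).map_eq] at h2
      exact h2.symm
    have h2 : ∫⁻ t in Ioc (0 : ℝ) T, ‖S.rhoV (v (T - t))‖ₑ ^ 2 ≤
        ∫⁻ t in Ioc (0 : ℝ) T, ‖S.rhoV‖ₑ ^ 2 * ‖v (T - t)‖ₑ ^ 2 := by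
      refine lintegral_mono fun t => ?_
      rw [← mul_pow]
      exact pow_le_pow_left' (S.rhoV.le_opENorm _) 2
    refine h2.trans_lt ?_
    rw [lintegral_const_mul' _ _ (by finiteness), h1]
    exact ENNReal.mul_lt_top (by finiteness) h.fin
  · have h1 := (mp_sub T).quasiMeasurePreserving.ae h.lift
    filter_upwards [h1, ae_restrict_mem measurableSet_Ioc] with t h2 h3
    rw [S.traj_rev y h.int ⟨h3.1.le, h3.2⟩, S.inc_rhoV, h2]

theorem Sys.Adm.rev {S : Sys H V} {y0 y1 : H} {T : ℝ} (hT : 0 ≤ T) (h : S.Adm y0 y1 T) :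
    S.Adm (S.rho y1) (S.rho y0) T := by
  obtain ⟨f, v, h1, h2, h3⟩ := h
  refine ⟨fun s => -S.rho (f (T - s)), fun s => S.rhoV (v (T - s)), ?_, ?_, ?_⟩
  · rw [← h3]
    exact S.path_rev hT h1
  · filter_upwards [(mp_sub T).quasiMeasurePreserving.ae h2] with t ht
    rw [map_neg, S.P_rho, ht, S.l_rho, S.q_rho, ← S.P_rho, ← map_neg, map_add, neg_add]
  · rw [← h3, S.traj_rev y0 h1.int ⟨hT, le_rfl⟩, sub_self, S.toSm.traj_zero]

end Pool.Agent.Kdv
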