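import Pool.Agent.Lib.MP_78c35a_an.TrajA

/-!
# The smoothing effect for the inhomogeneous problem
-/

set_option autoImplicit false
set_option linter.unusedSectionVars false

namespace Pool.Agent.Kdv

open MeasureTheory Filter Topology Set
open scoped ENNReal InnerProductSpace

variable {H V : Type} [NormedAddCommGroup H] [InnerProductSpace ℝ H] [CompleteSpace H]
  [NormedAddCommGroup V] [NormedSpace ℝ V] [CompleteSpace V]

omit [NormedSpace ℝ V] [CompleteSpace V] in
lemma eLpNorm_two_eq {α : Type} [MeasurableSpace α] {μ : Measure α} (v : α → V) :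
    eLpNorm v 2 μ = (∫⁻ t, ‖v t‖ₑ ^ 2 ∂μ) ^ (1 / 2 : ℝ) := by
  rw [eLpNorm_eq_lintegral_rpow_enorm_toReal two_ne_zero ENNReal.ofNat_ne_top]
  simp

lemma Sm.lp_inj (S : Sm H V) {μ : Measure ℝ} {v w : Lp V 2 μ}
    (h : ∀ᵐ t ∂μ, S.inc (v t) = S.inc (w t)) : v = w :=
  Lp.ext (h.mono fun _ ht => S.inj ht)

/-- The lift of the free evolution, extended by zero. -/
theorem Sm.exists_free (S : Sm H V) : ∃ D : H →L[ℝ] Lp V 2 (volume : Measure ℝ),
    (∀ y, ∀ᵐ t, S.inc (D y t) = (Ioc (0 : ℝ) 1).indicator (fun t => S.U t y) t) ∧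
    ∀ y, ‖D y‖ ≤ √S.C * ‖y‖ := by
  choose v hm hi hn using S.smooth
  have hfin : ∀ y, eLpNorm (v y) 2 (volume.restrict (Ioc 0 1)) ≤
      ENNReal.ofReal (√S.C * ‖y‖) := by
    intro y
    rw [eLpNorm_two_eq]
    calc (∫⁻ t in Ioc (0 : ℝ) 1, ‖v y t‖ₑ ^ 2) ^ (1 / 2 : ℝ)
        ≤ (ENNReal.ofReal (S.C * ‖y‖ ^ 2)) ^ (1 / 2 : ℝ) :=
          ENNReal.rpow_le_rpow (hn y) (by norm_num)
      _ = ENNReal.ofReal (√S.C * ‖y‖) := by
          rw [ENNReal.ofReal_rpow_of_nonneg (mul_nonneg S.C_nonneg (sq_nonneg _)) (by norm_num),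
            ← Real.sqrt_eq_rpow, Real.sqrt_mul S.C_nonneg, Real.sqrt_sq (norm_nonneg y)]
  have hmem : ∀ y, MemLp ((Ioc (0 : ℝ) 1).indicator (v y)) 2 volume := fun y =>
    (memLp_indicator_iff_restrict measurableSet_Ioc).2
      ⟨hm y, (hfin y).trans_lt ENNReal.ofReal_lt_top⟩
  have hae : ∀ y, ∀ᵐ t, S.inc ((hmem y).toLp _ t) =
      (Ioc (0 : ℝ) 1).indicator (fun t => S.U t y) t := by
    intro y
    filter_upwards [(hmem y).coeFn_toLp, (ae_restrict_iff' measurableSet_Ioc).1 (hi y)]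
      with t h1 h2
    rw [h1]
    by_cases ht : t ∈ Ioc (0 : ℝ) 1
    · rw [indicator_of_mem ht, indicator_of_mem ht, h2 ht]
    · rw [indicator_of_notMem ht, indicator_of_notMem ht, map_zero]
  refine ⟨LinearMap.mkContinuous
    { toFun := fun y => (hmem y).toLp _
      map_add' := ?_
      map_smul' := ?_ } (√S.C) ?_, ?_, ?_⟩
  · intro y z
    apply S.lp_inj
    filter_upwards [hae (y + z), hae y, hae z, Lp.coeFn_add ((hmem y).toLp _) ((hmem z).toLp _)]
      with t h1 h2 h3 h4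
    rw [h1, h4, Pi.add_apply, map_add, h2, h3]
    by_cases ht : t ∈ Ioc (0 : ℝ) 1
    · simp [indicator_of_mem ht]
    · simp [indicator_of_notMem ht]
  · intro r y
    apply S.lp_inj
    filter_upwards [hae (r • y), hae y, Lp.coeFn_smul r ((hmem y).toLp _)]
      with t h1 h2 h4
    rw [h1, RingHom.id_apply, h4, Pi.smul_apply, map_smul, h2]
    by_cases ht : t ∈ Ioc (0 : ℝ) 1
    · simp [indicator_of_mem ht]
    · simp [indicator_of_notMem ht]
  · intro y
    show ‖(hmem y).toLp _‖ ≤ √S.C * ‖y‖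
    rw [Lp.norm_toLp, eLpNorm_indicator_eq_eLpNorm_restrict measurableSet_Ioc]
    exact ENNReal.toReal_le_of_le_ofReal (by positivity) (hfin y)
  · exact hae
  · intro y
    show ‖(hmem y).toLp _‖ ≤ √S.C * ‖y‖
    rw [Lp.norm_toLp, eLpNorm_indicator_eq_eLpNorm_restrict measurableSet_Ioc]
    exact ENNReal.toReal_le_of_le_ofReal (by positivity) (hfin y)

/-- Translation of functions of time. -/
noncomputable def tau (E : Type) [NormedAddCommGroup E] (s : ℝ) :
    Lp E 2 (volume : Measure ℝ) →+ Lp E 2 (volume : Measure ℝ) :=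
  Lp.compMeasurePreserving (fun t => t - s) (measurePreserving_sub_right volume s)

lemma tau_norm {E : Type} [NormedAddCommGroup E] (s : ℝ) (w : Lp E 2 (volume : Measure ℝ)) :
    ‖tau E s w‖ = ‖w‖ := Lp.norm_compMeasurePreserving _ _

lemma tau_cont {E : Type} [NormedAddCommGroup E] :
    Continuous fun p : ℝ × Lp E 2 (volume : Measure ℝ) => tau E p.1 p.2 := by
  have hg : Continuous fun p : ℝ × Lp E 2 (volume : Measure ℝ) =>
      (ContinuousMap.curry ⟨fun q : ℝ × ℝ => q.2 - q.1, by fun_prop⟩ : C(ℝ, C(ℝ, ℝ))) p.1 :=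
    (ContinuousMap.continuous _).comp continuous_fst
  exact Continuous.compMeasurePreservingLp (μ := (volume : Measure ℝ))
    (ν := (volume : Measure ℝ)) (f := fun p : ℝ × Lp E 2 (volume : Measure ℝ) => p.2)
    continuous_snd hg (fun p => measurePreserving_sub_right volume p.1) ENNReal.ofNat_ne_top

/-- The cut off free evolution of the force, as a function of two variables. -/
noncomputable def Sm.ker (S : Sm H V) (f : ℝ → H) (s t : ℝ) : H :=
  (Ioc (0 : ℝ) 1).indicator (fun r => S.U r (f s)) (t - s)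

lemma Sm.ker_norm (S : Sm H V) (f : ℝ → H) (s t : ℝ) : ‖S.ker f s t‖ ≤ ‖f s‖ := by
  unfold Sm.ker
  by_cases h : t - s ∈ Ioc (0 : ℝ) 1
  · rw [indicator_of_mem h, S.U_norm]
  · rw [indicator_of_notMem h, norm_zero]
    exact norm_nonneg _

lemma Sm.ker_int (S : Sm H V) {f : ℝ → H} {T : ℝ} (hf : IntegrableOn f (Ioc 0 T)) :
    Integrable (Function.uncurry (S.ker f))
      ((volume.restrict (Ioc 0 T)).prod (volume.restrict (Ioc 0 T))) := by
  have h1 : AEStronglyMeasurable (fun p : ℝ × ℝ => S.U (p.2 - p.1) (f p.1))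
      ((volume.restrict (Ioc 0 T)).prod (volume.restrict (Ioc 0 T))) := by
    have h2 : AEStronglyMeasurable (fun p : ℝ × ℝ => (p.2 - p.1, f p.1))
        ((volume.restrict (Ioc 0 T)).prod (volume.restrict (Ioc 0 T))) :=
      (continuous_snd.sub continuous_fst).aestronglyMeasurable.prodMk
        hf.aestronglyMeasurable.comp_fst
    exact S.U_cont2.comp_aestronglyMeasurable h2
  have h3 : MeasurableSet {p : ℝ × ℝ | p.2 - p.1 ∈ Ioc (0 : ℝ) 1} :=
    (measurable_snd.sub measurable_fst) measurableSet_Ioc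
  have h4 : Function.uncurry (S.ker f) = {p : ℝ × ℝ | p.2 - p.1 ∈ Ioc (0 : ℝ) 1}.indicator
      (fun p : ℝ × ℝ => S.U (p.2 - p.1) (f p.1)) := by
    funext p
    obtain ⟨s, t⟩ := p
    simp only [Function.uncurry, Sm.ker, indicator]
    rfl
  have h5 : AEStronglyMeasurable (Function.uncurry (S.ker f))
      ((volume.restrict (Ioc 0 T)).prod (volume.restrict (Ioc 0 T))) := by
    rw [h4]
    exact h1.indicator h3
  refine Integrable.mono (hf.comp_fst (volume.restrict (Ioc 0 T))) h5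
    (Eventually.of_forall fun p => ?_)
  exact S.ker_norm f p.1 p.2

lemma Sm.ker_integral (S : Sm H V) (f : ℝ → H) {T t : ℝ} (hT1 : T ≤ 1) (ht : t ∈ Ioc 0 T) :
    ∫ s in Ioc 0 T, S.ker f s t = ∫ s in (0 : ℝ)..t, S.U (t - s) (f s) := by
  rw [intervalIntegral.integral_of_le ht.1.le, integral_Ioc_eq_integral_Ioo (x := 0) (y := t),
    ← integral_indicator measurableSet_Ioc, ← integral_indicator measurableSet_Ioo]
  congr 1
  funext s
  unfold Sm.ker
  by_cases h : s ∈ Ioo 0 t
  · have h1 : s ∈ Ioc 0 T := ⟨h.1, h.2.le.trans ht.2⟩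
    have h2 : t - s ∈ Ioc (0 : ℝ) 1 := ⟨by linarith [h.2], by linarith [h.1, ht.2]⟩
    rw [indicator_of_mem h1, indicator_of_mem h, indicator_of_mem h2]
  · rw [indicator_of_notMem h]
    by_cases h1 : s ∈ Ioc 0 T
    · have h2 : t - s ∉ Ioc (0 : ℝ) 1 := fun h3 => h ⟨h1.1, by linarith [h3.1]⟩
      rw [indicator_of_mem h1, indicator_of_notMem h2]
    · rw [indicator_of_notMem h1]

lemma Sm.tau_ker (S : Sm H V) {D : H →L[ℝ] Lp V 2 (volume : Measure ℝ)}
    (hD : ∀ y, ∀ᵐ t, S.inc (D y t) = (Ioc (0 : ℝ) 1).indicator (fun t => S.U t y) t)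
    (f : ℝ → H) (s : ℝ) : ∀ᵐ t, S.inc (tau V s (D (f s)) t) = S.ker f s t := by
  have h1 : ∀ᵐ t, tau V s (D (f s)) t = D (f s) (t - s) :=
    Lp.coeFn_compMeasurePreserving (D (f s)) (measurePreserving_sub_right volume s)
  have h2 := (measurePreserving_sub_right (volume : Measure ℝ) s).quasiMeasurePreserving.ae (hD (f s))
  filter_upwards [h1, h2] with t h3 h4
  rw [h3, h4]
  rfl

/-- The lift of the inhomogeneous part. -/
lemma Sm.duh (S : Sm H V) {D : H →L[ℝ] Lp V 2 (volume : Measure ℝ)}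
    (hD : ∀ y, ∀ᵐ t, S.inc (D y t) = (Ioc (0 : ℝ) 1).indicator (fun t => S.U t y) t)
    {f : ℝ → H} {T : ℝ} (hT1 : T ≤ 1) (hf : IntegrableOn f (Ioc 0 T)) :
    IntegrableOn (fun s => tau V s (D (f s))) (Ioc 0 T) ∧
    ∀ᵐ t ∂volume.restrict (Ioc (0 : ℝ) T),
      S.inc ((∫ s in Ioc 0 T, tau V s (D (f s))) t) = ∫ s in (0 : ℝ)..t, S.U (t - s) (f s) := by
  have hDf : IntegrableOn (fun s => D (f s)) (Ioc 0 T) := D.integrable_comp hf
  have hI : IntegrableOn (fun s => tau V s (D (f s))) (Ioc 0 T) := by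
    refine Integrable.mono hDf ?_ (Eventually.of_forall fun s => ?_)
    · have h2 : AEStronglyMeasurable (fun s : ℝ => (s, D (f s))) (volume.restrict (Ioc 0 T)) :=
        continuous_id.aestronglyMeasurable.prodMk hDf.aestronglyMeasurable
      exact tau_cont.comp_aestronglyMeasurable h2
    · rw [tau_norm]
  refine ⟨hI, ?_⟩
  let K : Lp V 2 (volume : Measure ℝ) →L[ℝ] Lp H 2 (volume : Measure ℝ) :=
    S.inc.compLpL 2 volume
  have hK : ∀ w : Lp V 2 (volume : Measure ℝ), ∀ᵐ t, K w t = S.inc (w t) := fun w =>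
    S.inc.coeFn_compLpL w
  let w : Lp H 2 (volume : Measure ℝ) := ∫ s in Ioc 0 T, K (tau V s (D (f s)))
  have hKI : IntegrableOn (fun s => K (tau V s (D (f s)))) (Ioc 0 T) := K.integrable_comp hI
  have hw : K (∫ s in Ioc 0 T, tau V s (D (f s))) = w :=
    (K.integral_comp_comm hI).symm
  have h1 : ∀ᵐ t ∂volume.restrict (Ioc (0 : ℝ) T),
      S.inc ((∫ s in Ioc 0 T, tau V s (D (f s))) t) = w t := by
    have := ae_restrict_of_ae (s := Ioc (0 : ℝ) T) (hK (∫ s in Ioc 0 T, tau V s (D (f s))))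
    filter_upwards [this] with t ht
    rw [← ht, hw]
  have hker := S.ker_int hf
  have h2 : ∀ᵐ t ∂volume.restrict (Ioc (0 : ℝ) T),
      w t = ∫ s in Ioc 0 T, S.ker f s t := by
    refine Integrable.ae_eq_of_forall_setIntegral_eq _ _ ?_ ?_ ?_
    · exact ((Lp.memLp w).restrict (Ioc 0 T)).integrable (by norm_num)
    · exact hker.integral_prod_right
    · intro A hA _
      refine ext_inner_left ℝ fun c => ?_
      have hA2 : MeasurableSet (A ∩ Ioc 0 T) := hA.inter measurableSet_Ioc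
      have hfin : (volume : Measure ℝ) (A ∩ Ioc 0 T) ≠ ⊤ :=
        (lt_of_le_of_lt (measure_mono inter_subset_right) measure_Ioc_lt_top).ne
      rw [Measure.restrict_restrict hA,
        ← L2.inner_indicatorConstLp_eq_inner_setIntegral ℝ hA2 hfin c w]
      have h3 : (inner ℝ (indicatorConstLp 2 hA2 hfin c) w : ℝ) =
          ∫ s in Ioc 0 T, inner ℝ (indicatorConstLp 2 hA2 hfin c) (K (tau V s (D (f s)))) :=
        (integral_inner hKI _).symm
      rw [h3]
      have h4 : ∀ s, (inner ℝ (indicatorConstLp 2 hA2 hfin c) (K (tau V s (D (f s)))) : ℝ) =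
          inner ℝ c (∫ t in A ∩ Ioc 0 T, S.ker f s t) := by
        intro s
        rw [L2.inner_indicatorConstLp_eq_inner_setIntegral ℝ hA2 hfin c]
        congr 1
        refine integral_congr_ae (ae_restrict_of_ae ?_)
        filter_upwards [hK (tau V s (D (f s))), S.tau_ker hD f s] with t h5 h6
        rw [h5, h6]
      simp only [h4]
      have h6 : Integrable (Function.uncurry (S.ker f))
          ((volume.restrict (Ioc 0 T)).prod (volume.restrict (A ∩ Ioc 0 T))) :=
        hker.mono_measure (Measure.prod_mono le_rfl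
          (Measure.restrict_mono inter_subset_right le_rfl))
      have h7 := integral_inner (𝕜 := ℝ) h6.integral_prod_left c
      refine h7.trans ?_
      rw [← integral_integral_swap h6]
      rfl
  filter_upwards [h1, h2, ae_restrict_mem measurableSet_Ioc] with t h3 h4 h5
  rw [h3, h4, S.ker_integral f hT1 h5]

lemma tau_smul (s r : ℝ) (w : Lp V 2 (volume : Measure ℝ)) : tau V s (r • w) = r • tau V s w :=
  (Lp.compMeasurePreservingₗ ℝ (fun t : ℝ => t - s)
    (measurePreserving_sub_right volume s)).map_smul r w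

/-- The solution operator into `L²(0, T; V)`, for `T ≤ 1`. -/
theorem Sm.exists_lift (S : Sm H V) {T : ℝ} (hT : 0 < T) (hT1 : T ≤ 1) :
    ∃ Lf : H × XL H T →L[ℝ] YL V T, S.IsLift T Lf := by
  obtain ⟨D, hD, hDn⟩ := S.exists_free
  let R : Lp V 2 (volume : Measure ℝ) →L[ℝ] YL V T := LpToLpRestrictCLM ℝ V ℝ volume 2 (Ioc 0 T)
  have hRn : ∀ w, ‖R w‖ ≤ ‖w‖ := fun w => norm_Lp_toLp_restrict_le _ w
  have hR : ∀ w, ∀ᵐ t ∂volume.restrict (Ioc (0 : ℝ) T), R w t = w t := fun w =>
    LpToLpRestrictCLM_coeFn ℝ _ w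
  have hint : ∀ f : XL H T, IntegrableOn f (Ioc 0 T) := fun f => L1.integrable_coeFn f
  have hI : ∀ f : XL H T, IntegrableOn (fun s => tau V s (D (f s))) (Ioc 0 T) := fun f =>
    (S.duh hD hT1 (hint f)).1
  have hEn : ∀ f : XL H T, ‖∫ s in Ioc 0 T, tau V s (D (f s))‖ ≤ √S.C * ‖f‖ := by
    intro f
    calc ‖∫ s in Ioc 0 T, tau V s (D (f s))‖ ≤ ∫ s in Ioc 0 T, ‖tau V s (D (f s))‖ :=
          norm_integral_le_integral_norm _
      _ ≤ ∫ s in Ioc 0 T, √S.C * ‖f s‖ := by
          refine integral_mono (hI f).norm ((hint f).norm.const_mul _) fun s => ?_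
          show ‖tau V s (D (f s))‖ ≤ √S.C * ‖f s‖
          rw [tau_norm]
          exact hDn _
      _ = √S.C * ‖f‖ := by
          rw [integral_const_mul, L1.norm_eq_integral_norm]
  let E : XL H T →L[ℝ] Lp V 2 (volume : Measure ℝ) := LinearMap.mkContinuous
    { toFun := fun f => ∫ s in Ioc 0 T, tau V s (D (f s))
      map_add' := by
        intro f g
        rw [← integral_add (hI f) (hI g)]
        refine integral_congr_ae ?_
        filter_upwards [Lp.coeFn_add f g] with s hs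
        rw [hs, Pi.add_apply, map_add, map_add]
      map_smul' := by
        intro r f
        rw [RingHom.id_apply, ← integral_smul]
        refine integral_congr_ae ?_
        filter_upwards [Lp.coeFn_smul r f] with s hs
        rw [hs, Pi.smul_apply, map_smul, tau_smul] } (√S.C) hEn
  have hE : ∀ f, E f = ∫ s in Ioc 0 T, tau V s (D (f s)) := fun f => rfl
  refine ⟨R.comp (D.comp (ContinuousLinearMap.fst ℝ H (XL H T)) +
    E.comp (ContinuousLinearMap.snd ℝ H (XL H T))), ?_, ?_⟩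
  · intro y f
    have h1 := (S.duh hD hT1 (hint f)).2
    rw [← hE f] at h1
    filter_upwards [hR (D y + E f), h1, ae_restrict_of_ae (hD y),
      ae_restrict_of_ae (Lp.coeFn_add (D y) (E f)), ae_restrict_mem measurableSet_Ioc]
      with t h2 h3 h4 h5 h6
    show S.inc (R (D y + E f) t) = _
    have h7 : t ∈ Ioc (0 : ℝ) 1 := ⟨h6.1, h6.2.trans hT1⟩
    rw [h2, h5, Pi.add_apply, map_add, h3, h4, indicator_of_mem h7]
    rfl
  · intro y f
    show ‖R (D y + E f)‖ ≤ _
    calc ‖R (D y + E f)‖ ≤ ‖D y + E f‖ := hRn _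
      _ ≤ ‖D y‖ + ‖E f‖ := norm_add_le _ _
      _ ≤ √S.C * ‖y‖ + √S.C * ‖f‖ := add_le_add (hDn y) (hEn f)
      _ = _ := by ring

lemma Sm.exists_path_one (S : Sm H V) (y : H) {T : ℝ} (hT1 : T ≤ 1) {f : ℝ → H}
    (hf : IntegrableOn f (Ioc 0 T)) : ∃ v : ℝ → V, S.Path y T f v := by
  rcases le_or_gt T 0 with hT | hT
  · have h0 : Ioc (0 : ℝ) T = ∅ := Ioc_eq_empty (not_lt.2 hT)
    refine ⟨0, hf, ?_, ?_, ?_⟩
    · exact aestronglyMeasurable_const
    · rw [h0]; simp
    · rw [h0]; simp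
  · obtain ⟨Lf, hL⟩ := S.exists_lift hT hT1
    have hm : MemLp f 1 (volume.restrict (Ioc 0 T)) := memLp_one_iff_integrable.2 hf
    have hY := Lp.memLp (Lf (y, hm.toLp f))
    refine ⟨Lf (y, hm.toLp f), hf, hY.1, ?_, ?_⟩
    · have h1 := hY.2
      rw [eLpNorm_two_eq] at h1
      by_contra h2
      rw [not_lt, top_le_iff] at h2
      rw [h2, ENNReal.top_rpow_of_pos (by norm_num)] at h1
      exact lt_irrefl _ h1
    · filter_upwards [hL.eq y (hm.toLp f), ae_restrict_mem measurableSet_Ioc] with t h1 h2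
      rw [h1]
      refine S.traj_congr y h2.1.le ?_
      exact ae_mono (Measure.restrict_mono (Ioc_subset_Ioc_right h2.2) le_rfl) hm.coeFn_toLp

lemma Sm.path_join (S : Sm H V) {y : H} {T : ℝ} (hT : 1 ≤ T) {f : ℝ → H}
    (hf : IntegrableOn f (Ioc 0 T)) {v w : ℝ → V} (h1 : S.Path y 1 f v)
    (h2 : S.Path (S.traj y f 1) (T - 1) (fun s => f (1 + s)) w) :
    S.Path y T f (fun t => if t ≤ 1 then v t else w (t - 1)) := by
  have hu : Ioc (0 : ℝ) T = Ioc 0 1 ∪ Ioc 1 T := (Ioc_union_Ioc_eq_Ioc zero_le_one hT).symm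
  have hmp := measurePreserving_sub_right (volume : Measure ℝ) 1
  have hpre : (fun t : ℝ => t - 1) ⁻¹' Ioc 0 (T - 1) = Ioc 1 T := by
    ext t
    simp only [mem_preimage, mem_Ioc]
    constructor
    · rintro ⟨h3, h4⟩
      exact ⟨by linarith, by linarith⟩
    · rintro ⟨h3, h4⟩
      exact ⟨by linarith, by linarith⟩
  have hmr : MeasurePreserving (fun t : ℝ => t - 1) (volume.restrict (Ioc 1 T))
      (volume.restrict (Ioc 0 (T - 1))) := by
    have := hmp.restrict_preimage (s := Ioc 0 (T - 1)) measurableSet_Ioc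
    rwa [hpre] at this
  have e1 : ∀ᵐ t ∂volume.restrict (Ioc (0 : ℝ) 1),
      (if t ≤ 1 then v t else w (t - 1)) = v t := by
    filter_upwards [ae_restrict_mem measurableSet_Ioc] with t ht
    rw [if_pos ht.2]
  have e2 : ∀ᵐ t ∂volume.restrict (Ioc (1 : ℝ) T),
      (if t ≤ 1 then v t else w (t - 1)) = w (t - 1) := by
    filter_upwards [ae_restrict_mem measurableSet_Ioc] with t ht
    rw [if_neg (not_le.2 ht.1)]
  refine ⟨hf, ?_, ?_, ?_⟩
  · rw [hu, aestronglyMeasurable_union_iff]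
    refine ⟨h1.meas.congr ?_, (h2.meas.comp_measurePreserving hmr).congr ?_⟩
    · filter_upwards [e1] with t ht using ht.symm
    · filter_upwards [e2] with t ht using ht.symm
  · rw [hu]
    refine (lintegral_union_le _ _ _).trans_lt (ENNReal.add_lt_top.2 ⟨?_, ?_⟩)
    · refine lt_of_eq_of_lt (lintegral_congr_ae ?_) h1.fin
      filter_upwards [e1] with t ht
      rw [ht]
    · have h3 : ∫⁻ t in Ioc (1 : ℝ) T, ‖w (t - 1)‖ₑ ^ 2 =
          ∫⁻ t in Ioc (0 : ℝ) (T - 1), ‖w t‖ₑ ^ 2 := by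
        rw [← hpre]
        exact hmp.setLIntegral_comp_preimage_emb (measurableEmbedding_subRight 1)
          (fun t => ‖w t‖ₑ ^ 2) (Ioc 0 (T - 1))
      refine lt_of_eq_of_lt (lintegral_congr_ae ?_) (h3.trans_lt h2.fin)
      filter_upwards [e2] with t ht
      rw [ht]
  · rw [hu, ae_restrict_union_iff]
    refine ⟨?_, ?_⟩
    · filter_upwards [e1, h1.lift] with t h3 h4
      rw [h3, h4]
    · have h5 := hmr.quasiMeasurePreserving.ae h2.lift
      filter_upwards [e2, h5, ae_restrict_mem measurableSet_Ioc] with t h3 h4 h6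
      rw [h3, h4]
      have h7 := S.traj_shift y (f := f) (a := 1) (t := t - 1) zero_le_one (by linarith [h6.1])
        (hf.mono_set (Ioc_subset_Ioc_right (by linarith [h6.2])))
      rw [add_sub_cancel] at h7
      exact h7.symm

/-- For every `T`, every trajectory with an integrable force is a path. -/
theorem Sm.exists_path (S : Sm H V) (y : H) {T : ℝ} {f : ℝ → H} (hf : IntegrableOn f (Ioc 0 T)) :
    ∃ v : ℝ → V, S.Path y T f v := by
  suffices h : ∀ n : ℕ, ∀ (y : H) (T : ℝ) (f : ℝ → H), T ≤ n → IntegrableOn f (Ioc 0 T) →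
      ∃ v : ℝ → V, S.Path y T f v by
    obtain ⟨n, hn⟩ := exists_nat_ge T
    exact h n y T f hn hf
  intro n
  induction n with
  | zero =>
    intro y T f hT hf
    exact S.exists_path_one y (hT.trans (by norm_num)) hf
  | succ n ih =>
    intro y T f hT hf
    rcases le_or_gt T 1 with h1 | h1
    · exact S.exists_path_one y h1 hf
    · obtain ⟨v, hv⟩ := S.exists_path_one y le_rfl (hf.mono_set (Ioc_subset_Ioc_right h1.le))
      have hf2 : IntegrableOn (fun s => f (1 + s)) (Ioc 0 (T - 1)) := by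
        have hpre : (fun s : ℝ => 1 + s) ⁻¹' Ioc 1 T = Ioc 0 (T - 1) := by
          ext t
          simp only [mem_preimage, mem_Ioc]
          constructor
          · rintro ⟨h3, h4⟩
            exact ⟨by linarith, by linarith⟩
          · rintro ⟨h3, h4⟩
            exact ⟨by linarith, by linarith⟩
        rw [← hpre]
        exact ((measurePreserving_add_left (volume : Measure ℝ) 1).integrableOn_comp_preimage
          (measurableEmbedding_addLeft 1)).2 (hf.mono_set (Ioc_subset_Ioc_left zero_le_one))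
      obtain ⟨w, hw⟩ := ih (S.traj y f 1) (T - 1) (fun s => f (1 + s))
        (by push_cast at hT; linarith) hf2
      exact ⟨_, S.path_join h1.le hf hv hw⟩

end Pool.Agent.Kdv
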