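import Pool.Agent.Lib.MP_78c35a_an.Abs

/-!
# Solution operators for linear perturbations
-/

set_option autoImplicit false

namespace Pool.Agent.Kdv

open MeasureTheory Filter Topology Set
open scoped ENNReal InnerProductSpace

variable {H V : Type} [NormedAddCommGroup H] [InnerProductSpace ℝ H] [CompleteSpace H]
  [NormedAddCommGroup V] [NormedSpace ℝ V] [CompleteSpace V]

namespace LinOpAux

omit [CompleteSpace H] in
/-- Square integrable functions are integrable: the norm. -/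
theorem eLpNorm_one_le (T : ℝ) (f : ℝ → H)
    (hf : AEStronglyMeasurable f (volume.restrict (Ioc 0 T))) :
    eLpNorm f 1 (volume.restrict (Ioc 0 T)) ≤
      eLpNorm f 2 (volume.restrict (Ioc 0 T)) * ENNReal.ofReal T ^ (1 / 2 : ℝ) := by
  have h := eLpNorm_le_eLpNorm_mul_rpow_measure_univ (μ := volume.restrict (Ioc 0 T))
    (p := 1) (q := 2) (by norm_num) hf
  have e : (1 / (1 : ℝ≥0∞).toReal - 1 / (2 : ℝ≥0∞).toReal) = (1 / 2 : ℝ) := by norm_num
  rw [e] at h
  simpa using h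

omit [CompleteSpace H] in
theorem mem_one (T : ℝ) (v : Lp H 2 ((volume : Measure ℝ).restrict (Ioc 0 T))) :
    MemLp v 1 ((volume : Measure ℝ).restrict (Ioc 0 T)) :=
  (Lp.memLp v).mono_exponent (by norm_num)

/-- The inclusion of square integrable functions into the integrable ones. -/
noncomputable def incl (H : Type) [NormedAddCommGroup H] [InnerProductSpace ℝ H] (T : ℝ) :
    Lp H 2 ((volume : Measure ℝ).restrict (Ioc 0 T)) →L[ℝ] XL H T :=
  LinearMap.mkContinuous
    { toFun := fun v => (mem_one T v).toLp v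
      map_add' := fun v w => by
        rw [← MemLp.toLp_add]
        exact MemLp.toLp_congr _ _ (Lp.coeFn_add v w)
      map_smul' := fun c v => by
        rw [RingHom.id_apply, ← MemLp.toLp_const_smul]
        exact MemLp.toLp_congr _ _ (Lp.coeFn_smul c v) } (√T) (fun v => by
      change ‖(mem_one T v).toLp v‖ ≤ √T * ‖v‖
      rw [Lp.norm_toLp, Lp.norm_def]
      have h := eLpNorm_one_le T v (Lp.aestronglyMeasurable v)
      have h2 : eLpNorm v 2 (volume.restrict (Ioc 0 T)) ≠ ⊤ := (Lp.memLp v).2.ne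
      have h3 : ENNReal.ofReal T ^ (1 / 2 : ℝ) ≠ ⊤ :=
        ENNReal.rpow_ne_top_of_nonneg (by norm_num) ENNReal.ofReal_ne_top
      have h4 := ENNReal.toReal_mono (ENNReal.mul_ne_top h2 h3) h
      rw [ENNReal.toReal_mul] at h4
      refine h4.trans_eq ?_
      rw [mul_comm]
      congr 1
      rw [← ENNReal.toReal_rpow, Real.sqrt_eq_rpow]
      rcases le_total 0 T with hT | hT
      · rw [ENNReal.toReal_ofReal hT]
      · rw [ENNReal.ofReal_of_nonpos hT, ENNReal.toReal_zero, ← Real.sqrt_eq_rpow,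
          ← Real.sqrt_eq_rpow, Real.sqrt_eq_zero_of_nonpos hT, Real.sqrt_zero])

omit [CompleteSpace H] in
theorem incl_coe (T : ℝ) (v : Lp H 2 ((volume : Measure ℝ).restrict (Ioc 0 T))) :
    incl H T v =ᵐ[volume.restrict (Ioc 0 T)] v :=
  (mem_one T v).coeFn_toLp

omit [CompleteSpace H] in
theorem norm_incl (T : ℝ) : ‖incl H T‖ ≤ √T :=
  LinearMap.mkContinuous_norm_le _ (Real.sqrt_nonneg T) _

end LinOpAux

open LinOpAux in
set_option linter.unusedSectionVars false in
theorem Sm.exists_flow (S : Sm H V) (l : V →L[ℝ] H) : ∃ T0 : ℝ, 0 < T0 ∧ T0 ≤ 1 ∧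
    ∀ T : ℝ, 0 < T → T ≤ T0 → ∀ Lf : H × XL H T →L[ℝ] YL V T, S.IsLift T Lf →
      ∃ Fl : H × XL H T →L[ℝ] XL H T, IsFlow l T Lf Fl := by
  set M : ℝ := ‖l‖ * √S.C with hM
  have hM0 : 0 ≤ M := by positivity
  refine ⟨min 1 (1 / (2 * M + 1)) ^ 2, by positivity, ?_, ?_⟩
  · have h1 : min 1 (1 / (2 * M + 1)) ≤ 1 := min_le_left _ _
    have h2 : 0 ≤ min 1 (1 / (2 * M + 1)) := by positivity
    exact pow_le_one₀ h2 h1
  intro T hT hT0 Lf hLf
  have hs : √T ≤ 1 / (2 * M + 1) := by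
    refine (Real.sqrt_le_sqrt hT0).trans ?_
    rw [Real.sqrt_sq (by positivity)]
    exact min_le_right _ _
  have hsM : M * √T < 1 := by
    have h1 : M * √T ≤ M * (1 / (2 * M + 1)) := mul_le_mul_of_nonneg_left hs hM0
    refine h1.trans_lt ?_
    rw [mul_one_div, div_lt_one (by positivity)]
    linarith
  -- the composition with `l`
  let A : YL V T →L[ℝ] XL H T :=
    (incl H T).comp (ContinuousLinearMap.compLpL 2 (volume.restrict (Ioc 0 T)) l)
  have hA : ∀ v : YL V T, A v =ᵐ[volume.restrict (Ioc 0 T)] fun t => l (v t) := fun v =>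
    (incl_coe T _).trans (ContinuousLinearMap.coeFn_compLpL l v)
  have hAn : ‖A‖ ≤ √T * ‖l‖ := by
    refine (ContinuousLinearMap.opNorm_comp_le _ _).trans ?_
    exact mul_le_mul (norm_incl T) (ContinuousLinearMap.norm_compLpL_le l) (norm_nonneg _)
      (Real.sqrt_nonneg T)
  let B : XL H T →L[ℝ] XL H T :=
    A.comp (Lf.comp (ContinuousLinearMap.inr ℝ H (XL H T)))
  have hB : ‖B‖ < 1 := by
    have h1 : ‖B‖ ≤ √T * ‖l‖ * √S.C := by
      refine ContinuousLinearMap.opNorm_le_bound _ (by positivity) fun f => ?_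
      have h2 : ‖B f‖ ≤ ‖A‖ * ‖Lf (0, f)‖ := A.le_opNorm _
      have h3 := hLf.norm 0 f
      rw [norm_zero, zero_add] at h3
      calc ‖B f‖ ≤ ‖A‖ * ‖Lf (0, f)‖ := h2
        _ ≤ (√T * ‖l‖) * (√S.C * ‖f‖) := mul_le_mul hAn h3 (norm_nonneg _) (by positivity)
        _ = √T * ‖l‖ * √S.C * ‖f‖ := by ring
    refine h1.trans_lt ?_
    calc √T * ‖l‖ * √S.C = M * √T := by rw [hM]; ring
      _ < 1 := hsM
  let G : XL H T →L[ℝ] XL H T := ((Units.oneSub B hB)⁻¹ : (XL H T →L[ℝ] XL H T)ˣ)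
  have hG : ∀ f, G f = B (G f) + f := by
    intro f
    have h1 : (1 - B) * G = 1 := by
      have := (Units.oneSub B hB).mul_inv
      rwa [Units.val_oneSub] at this
    have h2 := DFunLike.congr_fun h1 f
    have h3 : G f - B (G f) = f := h2
    exact sub_eq_iff_eq_add'.1 h3
  refine ⟨G.comp ((A.comp (Lf.comp ((ContinuousLinearMap.fst ℝ H (XL H T)).prod 0))) +
    ContinuousLinearMap.snd ℝ H (XL H T)), ?_⟩
  intro y g
  set f := G (A (Lf (y, 0)) + g) with hf
  have hfe : (G.comp ((A.comp (Lf.comp ((ContinuousLinearMap.fst ℝ H (XL H T)).prod 0))) +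
    ContinuousLinearMap.snd ℝ H (XL H T))) (y, g) = f := rfl
  rw [hfe]
  have h1 : f = A (Lf (y, f)) + g := by
    have h2 : f = B f + (A (Lf (y, 0)) + g) := hG _
    have h3 : B f = A (Lf (0, f)) := rfl
    have h4 : Lf (y, f) = Lf (0, f) + Lf (y, 0) := by
      rw [← map_add]
      simp
    rw [h4, map_add, add_assoc]
    exact h2
  have h5 : f =ᵐ[volume.restrict (Ioc 0 T)] fun t => l (Lf (y, f) t) + g t := by
    have h6 : (f : ℝ → H) =ᵐ[volume.restrict (Ioc 0 T)] ((A (Lf (y, f)) + g : XL H T) : ℝ → H) := by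
      rw [← h1]
    refine h6.trans ((Lp.coeFn_add _ _).trans ?_)
    filter_upwards [hA (Lf (y, f))] with t ht
    rw [Pi.add_apply, ht]
  exact h5

end Pool.Agent.Kdv
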