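import Pool.Agent.Lib.MP_78c35a_an.Local
import Pool.Agent.Lib.MP_78c35a_an.Glue
import Pool.Agent.Lib.MP_78c35a_an.Energy

/-!
# Global existence for dissipative nonlinear terms
-/

set_option autoImplicit false

namespace Pool.Agent.Kdv

open MeasureTheory Filter Topology Set
open scoped ENNReal InnerProductSpace

variable {H V : Type} [NormedAddCommGroup H] [InnerProductSpace ℝ H] [CompleteSpace H]
  [NormedAddCommGroup V] [NormedSpace ℝ V] [CompleteSpace V]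

omit [CompleteSpace V] in
/-- The norm does not increase along a path of a dissipative equation. -/
theorem Sm.norm_traj_le (S : Sm H V) {n : V → H} (hd : ∀ p, inner ℝ (n p) (S.inc p) ≤ 0) {y : H}
    {T : ℝ} (hT : 0 ≤ T) {f : ℝ → H} {v : ℝ → V} (h : S.Path y T f v)
    (hf : ∀ᵐ t ∂volume.restrict (Ioc 0 T), f t = n (v t)) : ‖S.traj y f T‖ ≤ ‖y‖ := by
  have h1 := S.energy y h.int (t := T) ⟨hT, le_rfl⟩
  have h2 : ∫ s in (0 : ℝ)..T, inner ℝ (f s) (S.traj y f s) ≤ 0 := by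
    rw [intervalIntegral.integral_of_le hT]
    refine integral_nonpos_of_ae ?_
    filter_upwards [hf, h.lift] with s h3 h4
    rw [← h4, h3]
    exact hd _
  refine le_of_sq_le_sq ?_ (norm_nonneg y)
  rw [h1]
  linarith

theorem Sm.glob_sol (S : Sm H V) {n : V → H} {K : ℝ} (hK : 0 ≤ K) (hn : S.Quad n K)
    (hn0 : n 0 = 0) (hd : ∀ p, inner ℝ (n p) (S.inc p) ≤ 0) (y : H) (T : ℝ) (hT : 0 < T) :
    ∃ (f : ℝ → H) (v : ℝ → V), S.Path y T f v ∧
      ∀ᵐ t ∂volume.restrict (Ioc 0 T), f t = n (v t) := by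
  obtain ⟨τ, hτ, hloc⟩ := S.local_sol hK hn hn0 ‖y‖
  have key : ∀ N : ℕ, ∃ (f : ℝ → H) (v : ℝ → V), S.Path y (N * τ) f v ∧
      ∀ᵐ t ∂volume.restrict (Ioc 0 (N * τ)), f t = n (v t) := by
    intro N
    induction N with
    | zero =>
      refine ⟨fun _ => 0, fun _ => 0, ⟨?_, ?_, ?_, ?_⟩, ?_⟩ <;> simp
    | succ N ih =>
      obtain ⟨f, v, h1, h2⟩ := ih
      have hN : (0 : ℝ) ≤ N * τ := by positivity
      have h3 := S.norm_traj_le hd hN h1 h2
      obtain ⟨g, w, h4, h5⟩ := hloc _ h3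
      have h6 : ((N + 1 : ℕ) : ℝ) * τ = N * τ + τ := by
        push_cast
        ring
      rw [h6]
      exact ⟨_, _, h1.glue hN hτ.le h4, ae_glue (p := fun a b => a = n b) hN hτ.le h2 h5⟩
  obtain ⟨N, hN⟩ := exists_nat_gt (T / τ)
  have hN' : T ≤ N * τ := by
    rw [div_lt_iff₀ hτ] at hN
    exact hN.le
  obtain ⟨f, v, h1, h2⟩ := key N
  exact ⟨f, v, h1.mono hN', ae_restrict_of_ae_restrict_of_subset (Ioc_subset_Ioc_right hN') h2⟩

end Pool.Agent.Kdv
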