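import Pool.Agent.Lib.MP_78c35a_an.Agm

/-!
# Poincaré's inequality on small intervals
-/

set_option autoImplicit false

namespace Pool.Agent.Kdv

open MeasureTheory Filter Topology Set
open scoped ENNReal

variable {n : ℕ} {L : ℝ}

namespace Poi

theorem sq_int (d : L2) (a b : ℝ) : IntervalIntegrable (fun x => (d x) ^ 2) volume a b :=
  ((Lp.memLp d).integrable_sq).intervalIntegrable

theorem norm_sq_eq (f : L2) : ‖f‖ ^ 2 = ∫ x, (f x) ^ 2 := by
  rw [← real_inner_self_eq_norm_sq, L2.inner_def]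
  refine integral_congr_ae (Eventually.of_forall fun x => ?_)
  simp only [real_inner_self_eq_norm_sq, Real.norm_eq_abs, sq_abs]

/-- Cauchy–Schwarz on an interval. -/
theorem cs (d : L2) {a b : ℝ} (hab : a ≤ b) :
    (∫ s in a..b, d s) ^ 2 ≤ (b - a) * ∫ s in a..b, (d s) ^ 2 := by
  rcases hab.eq_or_lt with rfl | hlt
  · simp
  set A := ∫ s in a..b, d s
  set B := ∫ s in a..b, (d s) ^ 2
  have hpos : 0 < b - a := sub_pos.mpr hlt
  have h1 : ∀ c : ℝ, 0 ≤ B - 2 * c * A + c ^ 2 * (b - a) := by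
    intro c
    have h2 : ∫ s in a..b, (d s - c) ^ 2 = B - 2 * c * A + c ^ 2 * (b - a) := by
      have h3 : ∀ s, (d s - c) ^ 2 = ((d s) ^ 2 - 2 * c * d s) + c ^ 2 := fun s => by ring
      simp_rw [h3]
      rw [intervalIntegral.integral_add ((sq_int d a b).sub
          ((L2.intervalIntegrable d a b).const_mul _)) intervalIntegrable_const,
        intervalIntegral.integral_sub (sq_int d a b)
          ((L2.intervalIntegrable d a b).const_mul _),
        intervalIntegral.integral_const_mul, intervalIntegral.integral_const, smul_eq_mul]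
      ring
    rw [← h2]
    exact intervalIntegral.integral_nonneg hab fun s _ => sq_nonneg _
  have h4 := h1 (A / (b - a))
  have h5 : B - 2 * (A / (b - a)) * A + (A / (b - a)) ^ 2 * (b - a) = B - A ^ 2 / (b - a) := by
    field_simp
    ring
  rw [h5, sub_nonneg, div_le_iff₀ hpos] at h4
  linarith [mul_comm B (b - a)]

/-- Poincaré's inequality on an interval. -/
theorem poinc (p : V1 L) {a b : ℝ} (hab : a < b) :
    ∫ x in a..b, (p.val x) ^ 2 ≤ (b - a)⁻¹ * (∫ x in a..b, p.val x) ^ 2 +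
      (b - a) ^ 2 * ∫ x in a..b, (V1.d L p x) ^ 2 := by
  obtain ⟨h, hh⟩ : ∃ h : ℝ, h = b - a := ⟨_, rfl⟩
  rw [← hh]
  have hpos : 0 < h := hh ▸ sub_pos.mpr hab
  set D := ∫ x in a..b, (V1.d L p x) ^ 2 with hD
  have hD0 : 0 ≤ D := intervalIntegral.integral_nonneg hab.le fun s _ => sq_nonneg _
  set m := h⁻¹ * ∫ x in a..b, p.val x with hm
  have hc := V1.val_cont p
  have key : ∀ x ∈ Icc a b, ∀ y ∈ Icc a b, (p.val x - p.val y) ^ 2 ≤ h * D := by
    have key0 : ∀ x ∈ Icc a b, ∀ y ∈ Icc a b, x ≤ y → (p.val x - p.val y) ^ 2 ≤ h * D := by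
      intro x hx y hy hxy
      have e1 : (p.val x - p.val y) ^ 2 = (∫ s in x..y, V1.d L p s) ^ 2 := by
        rw [← V1.val_sub p x y]; ring
      rw [e1]
      refine (cs _ hxy).trans ?_
      have e2 : ∫ s in x..y, (V1.d L p s) ^ 2 ≤ D := by
        refine intervalIntegral.integral_mono_interval hx.1 hxy hy.2 ?_ (sq_int _ _ _)
        exact Eventually.of_forall fun s => sq_nonneg _
      have e3 : y - x ≤ h := by linarith [hx.1, hy.2]
      have e4 : 0 ≤ ∫ s in x..y, (V1.d L p s) ^ 2 :=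
        intervalIntegral.integral_nonneg hxy fun s _ => sq_nonneg _
      exact mul_le_mul e3 e2 e4 hpos.le
    intro x hx y hy
    rcases le_total x y with hxy | hxy
    · exact key0 x hx y hy hxy
    · have := key0 y hy x hx hxy
      calc (p.val x - p.val y) ^ 2 = (p.val y - p.val x) ^ 2 := by ring
        _ ≤ h * D := this
  have hmean : ∀ x ∈ Icc a b, (p.val x - m) ^ 2 ≤ h * D := by
    intro x hx
    have e1 : h * (p.val x - m) = ∫ y in a..b, (p.val x - p.val y) := by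
      rw [intervalIntegral.integral_sub intervalIntegrable_const (hc.intervalIntegrable _ _),
        intervalIntegral.integral_const, smul_eq_mul, hm, ← hh]
      field_simp
    have e2 : ‖∫ y in a..b, (p.val x - p.val y)‖ ≤ √(h * D) * |b - a| := by
      refine intervalIntegral.norm_integral_le_of_norm_le_const fun y hy => ?_
      rw [uIoc_of_le hab.le] at hy
      rw [Real.norm_eq_abs]
      exact Real.abs_le_sqrt (key x hx y ⟨hy.1.le, hy.2⟩)
    rw [← e1, Real.norm_eq_abs, abs_mul, ← hh, abs_of_pos hpos, mul_comm (√(h * D)) h] at e2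
    have e3 : |p.val x - m| ≤ √(h * D) := le_of_mul_le_mul_left e2 hpos
    calc (p.val x - m) ^ 2 = |p.val x - m| ^ 2 := (sq_abs _).symm
      _ ≤ √(h * D) ^ 2 := by gcongr
      _ = h * D := Real.sq_sqrt (by positivity)
  have e5 : ∫ x in a..b, (p.val x - m) ^ 2 ≤ ∫ x in a..b, h * D := by
    refine intervalIntegral.integral_mono_on hab.le ?_ intervalIntegrable_const hmean
    exact ((hc.sub continuous_const).pow 2).intervalIntegrable _ _
  rw [intervalIntegral.integral_const, smul_eq_mul, ← hh] at e5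
  have e6 : ∫ x in a..b, (p.val x - m) ^ 2 = (∫ x in a..b, (p.val x) ^ 2) - h * m ^ 2 := by
    have h3 : ∀ s, (p.val s - m) ^ 2 = ((p.val s) ^ 2 - 2 * m * p.val s) + m ^ 2 :=
      fun s => by ring
    simp_rw [h3]
    have i1 : IntervalIntegrable (fun s => (p.val s) ^ 2) volume a b :=
      (hc.pow 2).intervalIntegrable _ _
    have i2 : IntervalIntegrable (fun s => 2 * m * p.val s) volume a b :=
      (continuous_const.mul hc).intervalIntegrable _ _
    rw [intervalIntegral.integral_add (i1.sub i2) intervalIntegrable_const,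
      intervalIntegral.integral_sub i1 i2,
      intervalIntegral.integral_const_mul, intervalIntegral.integral_const, smul_eq_mul]
    have : ∫ x in a..b, p.val x = h * m := by rw [hm]; field_simp
    rw [this, ← hh]
    ring
  have e7 : h * m ^ 2 = h⁻¹ * (∫ x in a..b, p.val x) ^ 2 := by
    rw [hm]; field_simp
  rw [e6] at e5
  rw [← e7]
  calc ∫ x in a..b, (p.val x) ^ 2 ≤ h * m ^ 2 + h * (h * D) := by linarith
    _ = h * m ^ 2 + h ^ 2 * D := by ring

theorem one_meas (L : ℝ) : Measurable (one L) :=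
  measurable_one.indicator measurableSet_Ioo

theorem one_bdd (L : ℝ) : ∃ C, ∀ x, |one L x| ≤ C := by
  refine ⟨1, fun x => ?_⟩
  unfold one
  by_cases h : x ∈ Ioo (0 : ℝ) L
  · rw [indicator_of_mem h]; simp
  · rw [indicator_of_notMem h]; simp

/-- the norm of the restriction to the controlled region -/
theorem norm_P (hL : 0 < L) (p : V1 L) :
    ‖mulOp (one L) (V1.u L p)‖ ^ 2 = ∫ x in (0 : ℝ)..L, (p.val x) ^ 2 := by
  rw [norm_sq_eq, intervalIntegral.integral_of_le hL.le, integral_Ioc_eq_integral_Ioo,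
    ← integral_indicator measurableSet_Ioo]
  refine integral_congr_ae ?_
  filter_upwards [mulOp_ae (one_meas L) (one_bdd L) (V1.u L p), V1.val_ae p] with x h1 h2
  rw [h1]
  unfold one
  by_cases h : x ∈ Ioo (0 : ℝ) L
  · rw [indicator_of_mem h, indicator_of_mem h, h2 ⟨by linarith [h.1], by linarith [h.2]⟩]
    simp
  · rw [indicator_of_notMem h, indicator_of_notMem h]
    simp


/-- the test function of an interval -/
noncomputable def tst (h a b : ℝ) : L2 :=
  (√h)⁻¹ • indicatorConstLp 2 (measurableSet_Ioc (a := a) (b := b)) (by simp) (1 : ℝ)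

theorem inner_tst (p : V1 L) {h a b : ℝ} (hh : 0 < h) (ha : 0 ≤ a) (hab : a ≤ b) (hb : b ≤ L) :
    (inner ℝ (tst h a b) (V1.u L p)) ^ 2 = h⁻¹ * (∫ x in a..b, p.val x) ^ 2 := by
  unfold tst
  rw [real_inner_smul_left, L2.inner_indicatorConstLp_one, mul_pow, inv_pow,
    Real.sq_sqrt hh.le, intervalIntegral.integral_of_le hab]
  congr 2
  refine setIntegral_congr_ae measurableSet_Ioc ?_
  filter_upwards [V1.val_ae p] with x h1 h2
  exact h1 ⟨by linarith [h2.1], by linarith [h2.2]⟩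

theorem comp (hL : 0 < L) (M : ℕ) (hM : 0 < M) (p : V1 L) :
    ‖mulOp (one L) (V1.u L p)‖ ^ 2 ≤ (L / M) ^ 2 * ‖V1.d L p‖ ^ 2 +
      ∑ i : Fin M, (inner ℝ (tst (L / M) (i * (L / M)) ((i + 1 : ℕ) * (L / M)))
        (V1.u L p)) ^ 2 := by
  have hM' : (0 : ℝ) < M := Nat.cast_pos.mpr hM
  obtain ⟨h, hh⟩ : ∃ h : ℝ, h = L / M := ⟨_, rfl⟩
  rw [← hh]
  have hpos : 0 < h := hh ▸ div_pos hL hM'
  have hMh : (M : ℝ) * h = L := by rw [hh]; field_simp
  have hend : ∀ k : ℕ, k ≤ M → (k : ℝ) * h ≤ L := by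
    intro k hk
    rw [← hMh]
    exact mul_le_mul_of_nonneg_right (Nat.cast_le.mpr hk) hpos.le
  have hstep : ∀ k : ℕ, (((k + 1 : ℕ) : ℝ) * h) - (k : ℝ) * h = h := by
    intro k; push_cast; ring
  have s1 : ∑ k ∈ Finset.range M, ∫ x in ((k : ℕ) : ℝ) * h..((k + 1 : ℕ) : ℝ) * h, (p.val x) ^ 2
      = ∫ x in (0 : ℝ)..L, (p.val x) ^ 2 := by
    have := intervalIntegral.sum_integral_adjacent_intervals (μ := volume)
      (f := fun x => (p.val x) ^ 2) (a := fun k : ℕ => (k : ℝ) * h) (n := M) (fun k _ =>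
        (((V1.val_cont p).pow 2).intervalIntegrable _ _))
    simp only [Nat.cast_zero, zero_mul, hMh] at this
    exact this
  have s2 : ∑ k ∈ Finset.range M, ∫ x in ((k : ℕ) : ℝ) * h..((k + 1 : ℕ) : ℝ) * h,
      (V1.d L p x) ^ 2 = ∫ x in (0 : ℝ)..L, (V1.d L p x) ^ 2 := by
    have := intervalIntegral.sum_integral_adjacent_intervals (μ := volume)
      (f := fun x => (V1.d L p x) ^ 2) (a := fun k : ℕ => (k : ℝ) * h) (n := M) (fun k _ =>
        sq_int _ _ _)
    simp only [Nat.cast_zero, zero_mul, hMh] at this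
    exact this
  have s3 : ∫ x in (0 : ℝ)..L, (V1.d L p x) ^ 2 ≤ ‖V1.d L p‖ ^ 2 := by
    rw [norm_sq_eq, intervalIntegral.integral_of_le hL.le]
    exact setIntegral_le_integral ((Lp.memLp _).integrable_sq)
      (Eventually.of_forall fun x => sq_nonneg _)
  rw [norm_P hL, ← s1, Finset.sum_fin_eq_sum_range
    (fun i => (inner ℝ (tst h ((i : ℕ) * h) (((i : ℕ) + 1 : ℕ) * h)) (V1.u L p)) ^ 2)]
  have s4 : ∀ k ∈ Finset.range M, ∫ x in ((k : ℕ) : ℝ) * h..((k + 1 : ℕ) : ℝ) * h, (p.val x) ^ 2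
      ≤ (inner ℝ (tst h (k * h) ((k + 1 : ℕ) * h)) (V1.u L p)) ^ 2
        + h ^ 2 * ∫ x in ((k : ℕ) : ℝ) * h..((k + 1 : ℕ) : ℝ) * h, (V1.d L p x) ^ 2 := by
    intro k hk
    have hk' : k < M := Finset.mem_range.mp hk
    have hlt : (k : ℝ) * h < ((k + 1 : ℕ) : ℝ) * h := by linarith [hstep k]
    rw [inner_tst p hpos (by positivity) hlt.le (hend _ hk')]
    have := poinc p hlt
    rw [hstep k] at this
    exact this
  refine (Finset.sum_le_sum s4).trans ?_
  rw [Finset.sum_add_distrib, ← Finset.mul_sum, s2, add_comm]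
  refine add_le_add (mul_le_mul_of_nonneg_left s3 (sq_nonneg _)) (le_of_eq ?_)
  refine Finset.sum_congr rfl fun k hk => ?_
  rw [dif_pos (Finset.mem_range.mp hk)]

end Poi

theorem cpt (n : ℕ) (hL : 0 < L) {ε : ℝ} (hε : 0 < ε) : ∃ (N : ℕ) (w : Fin N → HH n),
    ∀ p : VV n L, ‖PP n L (inc n L p)‖ ^ 2 ≤
      ε * ‖p‖ ^ 2 + ∑ j, (inner ℝ (w j) (inc n L p)) ^ 2 := by
  obtain ⟨M, hM⟩ := exists_nat_gt (n * L ^ 2 / ε + 1)
  have hM1 : (1 : ℝ) ≤ M := by
    have : 0 ≤ n * L ^ 2 / ε := by positivity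
    linarith
  have hM0 : 0 < M := by
    have : (0 : ℝ) < M := by linarith
    exact_mod_cast this
  have hsmall : (n : ℝ) * (L / M) ^ 2 ≤ ε := by
    have h1 : n * L ^ 2 / ε ≤ (M : ℝ) ^ 2 := by nlinarith
    rw [div_le_iff₀ hε] at h1
    have h2 : (0 : ℝ) < (M : ℝ) ^ 2 := by positivity
    rw [div_pow, mul_div_assoc', div_le_iff₀ h2]
    linarith
  let W : Fin n × Fin M → HH n := fun q =>
    WithLp.toLp 2 (Pi.single q.1 (Poi.tst (L / M) (q.2 * (L / M)) ((q.2 + 1 : ℕ) * (L / M))))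
  let e := (Fintype.equivFin (Fin n × Fin M))
  refine ⟨Fintype.card (Fin n × Fin M), fun k => W (e.symm k), fun p => ?_⟩
  have h1 : ∑ k, (inner ℝ (W (e.symm k)) (inc n L p)) ^ 2
      = ∑ q : Fin n × Fin M, (inner ℝ (W q) (inc n L p)) ^ 2 :=
    Equiv.sum_comp e.symm (fun q => (inner ℝ (W q) (inc n L p)) ^ 2)
  have h2 : ∀ q : Fin n × Fin M, inner ℝ (W q) (inc n L p)
      = inner ℝ (Poi.tst (L / M) (q.2 * (L / M)) ((q.2 + 1 : ℕ) * (L / M))) (V1.u L (p q.1)) := by
    intro q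
    rw [PiLp.inner_apply, Finset.sum_eq_single q.1]
    · simp [W]
      rfl
    · intro j _ hj
      simp [W, hj]
    · simp
  rw [h1]
  simp only [h2]
  rw [Fintype.sum_prod_type, PiLp.norm_sq_eq_of_L2]
  have h3 : ∀ j : Fin n, ‖(PP n L (inc n L p)) j‖ ^ 2 ≤ (L / M) ^ 2 * ‖p‖ ^ 2 +
      ∑ i : Fin M, (inner ℝ (Poi.tst (L / M) (i * (L / M)) ((i + 1 : ℕ) * (L / M)))
        (V1.u L (p j))) ^ 2 := by
    intro j
    have h4 := Poi.comp hL M hM0 (p j)
    have h5 : ‖V1.d L (p j)‖ ^ 2 ≤ ‖p‖ ^ 2 := by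
      have := (V1.norm_d_le (p j)).trans (norm_le_pi_norm p j)
      gcongr
    have h6 : (PP n L (inc n L p)) j = mulOp (one L) (V1.u L (p j)) := rfl
    rw [h6]
    refine h4.trans ?_
    gcongr
  refine (Finset.sum_le_sum fun j _ => h3 j).trans ?_
  rw [Finset.sum_add_distrib]
  simp only [Finset.sum_const, Finset.card_univ, Fintype.card_fin, nsmul_eq_mul]
  have h7 : (n : ℝ) * ((L / M) ^ 2 * ‖p‖ ^ 2) ≤ ε * ‖p‖ ^ 2 := by
    rw [← mul_assoc]
    exact mul_le_mul_of_nonneg_right hsmall (sq_nonneg _)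
  linarith

end Pool.Agent.Kdv
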