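import Mathlib

/-!
# Abstract exact controllability: definitions
-/

set_option autoImplicit false

namespace Pool.Agent.Kdv

open MeasureTheory Filter Topology Set
open scoped ENNReal InnerProductSpace

/-- A group of isometries of `H` with a smoothing effect into `V`. -/
structure Sm (H V : Type) [NormedAddCommGroup H] [InnerProductSpace ℝ H]
    [NormedAddCommGroup V] [NormedSpace ℝ V] where
  /-- the group -/
  U : ℝ → H →L[ℝ] H
  /-- the inclusion -/
  inc : V →L[ℝ] H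
  U_zero : ∀ y, U 0 y = y
  U_add : ∀ s t y, U (s + t) y = U s (U t y)
  U_norm : ∀ t y, ‖U t y‖ = ‖y‖
  U_cont : ∀ y, Continuous fun t => U t y
  inj : Function.Injective inc
  /-- the constant of the smoothing effect -/
  C : ℝ
  C_nonneg : 0 ≤ C
  smooth : ∀ y, ∃ v : ℝ → V, AEStronglyMeasurable v (volume.restrict (Ioc 0 1)) ∧
    (∀ᵐ t ∂volume.restrict (Ioc (0 : ℝ) 1), inc (v t) = U t y) ∧
    ∫⁻ t in Ioc (0 : ℝ) 1, ‖v t‖ₑ ^ 2 ≤ ENNReal.ofReal (C * ‖y‖ ^ 2)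

section

variable {H V : Type} [NormedAddCommGroup H] [InnerProductSpace ℝ H]
  [NormedAddCommGroup V] [NormedSpace ℝ V]

/-- The solution of `y' = A y + f`, where `A` generates the group, with initial value `y`. -/
noncomputable def Sm.traj (S : Sm H V) (y : H) (f : ℝ → H) (t : ℝ) : H :=
  S.U t y + ∫ s in (0 : ℝ)..t, S.U (t - s) (f s)

/-- `f` is an integrable force on `(0, T)` and `v` is the trajectory, as a function into `V`. -/
structure Sm.Path (S : Sm H V) (y : H) (T : ℝ) (f : ℝ → H) (v : ℝ → V) : Prop where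
  int : IntegrableOn f (Ioc 0 T)
  meas : AEStronglyMeasurable v (volume.restrict (Ioc 0 T))
  fin : ∫⁻ t in Ioc (0 : ℝ) T, ‖v t‖ₑ ^ 2 < ⊤
  lift : ∀ᵐ t ∂volume.restrict (Ioc (0 : ℝ) T), S.inc (v t) = S.traj y f t

/-- The growth and continuity of the nonlinear terms. -/
def Sm.Quad (S : Sm H V) (n : V → H) (K : ℝ) : Prop :=
  ∀ a b, ‖n a - n b‖ ≤ K *
    (‖a - b‖ * (1 + √(‖S.inc a‖ * ‖a‖) + √(‖S.inc b‖ * ‖b‖)) +
      √(‖S.inc (a - b)‖ * ‖a - b‖) * (‖a‖ + ‖b‖))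

end

/-- A control system: the group, a reversible skew-symmetric nonlinear term `l + q`, the
projection `P` onto the states of the controlled region, and a monotone functional `psi`. -/
structure Sys (H V : Type) [NormedAddCommGroup H] [InnerProductSpace ℝ H]
    [NormedAddCommGroup V] [NormedSpace ℝ V] extends Sm H V where
  /-- reversal of states -/
  rho : H →L[ℝ] H
  /-- reversal -/
  rhoV : V →L[ℝ] V
  rho_rho : ∀ y, rho (rho y) = y
  rho_norm : ∀ y, ‖rho y‖ = ‖y‖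
  rho_U : ∀ t y, rho (U t y) = U (-t) (rho y)
  inc_rhoV : ∀ p, inc (rhoV p) = rho (inc p)
  /-- the projection onto the controlled region -/
  P : H →L[ℝ] H
  P_P : ∀ y, P (P y) = P y
  P_symm : ∀ x y : H, inner ℝ (P x) y = inner ℝ x (P y)
  P_rho : ∀ y, P (rho y) = rho (P y)
  /-- linear part -/
  l : V →L[ℝ] H
  /-- quadratic part -/
  q : V → H
  l_skew : ∀ p, inner ℝ (l p) (inc p) = 0
  q_skew : ∀ p, inner ℝ (q p) (inc p) = 0
  l_rho : ∀ p, l (rhoV p) = -rho (l p)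
  q_rho : ∀ p, q (rhoV p) = -rho (q p)
  q_zero : q 0 = 0
  /-- the constant of the quadratic part -/
  K : ℝ
  K_nonneg : 0 ≤ K
  q_quad : toSm.Quad q K
  q_lip : ∀ a b, ‖q a - q b‖ ≤ K * (‖a - b‖ * (‖a‖ + ‖b‖))
  cpt : ∀ ε : ℝ, 0 < ε → ∃ (N : ℕ) (w : Fin N → H), ∀ p : V,
    ‖P (inc p)‖ ^ 2 ≤ ε * ‖p‖ ^ 2 + ∑ j, (inner ℝ (w j) (inc p)) ^ 2
  uniq : ∀ (T : ℝ) (y : H) (f : ℝ → H) (v : ℝ → V), 0 < T → toSm.Path y T f v →
    (∀ᵐ t ∂volume.restrict (Ioc (0 : ℝ) T), f t = l (v t)) →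
    (∀ᵐ t ∂volume.restrict (Ioc (0 : ℝ) T), P (inc (v t)) = inc (v t)) → y = 0
  /-- the functional -/
  psi : H
  /-- its image under the generator -/
  psi' : H
  gen : ∀ t, U (-t) psi = psi + ∫ s in (0 : ℝ)..t, U (-s) psi'
  /-- the monotonicity constant -/
  kap : ℝ
  kap_pos : 0 < kap
  /-- the constant of the error -/
  C1 : ℝ
  C1_nonneg : 0 ≤ C1
  mono : ∀ p, kap * ‖P (inc p)‖ ^ 2 ≤ inner ℝ psi' (inc p) + inner ℝ psi (l p + q p) +
    C1 * (‖inc p - P (inc p)‖ + ‖inc p - P (inc p)‖ ^ 2)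

section

variable {H V : Type} [NormedAddCommGroup H] [InnerProductSpace ℝ H]
  [NormedAddCommGroup V] [NormedSpace ℝ V]

/-- The state `y0` can be steered to `y1` in time `T`. -/
def Sys.Adm (S : Sys H V) (y0 y1 : H) (T : ℝ) : Prop :=
  ∃ (f : ℝ → H) (v : ℝ → V), S.toSm.Path y0 T f v ∧
    (∀ᵐ t ∂volume.restrict (Ioc (0 : ℝ) T), S.P (f t) = S.P (S.l (v t) + S.q (v t))) ∧
    S.toSm.traj y0 f T = y1

/-- The damped linear term. -/
noncomputable def Sys.ld (S : Sys H V) : V →L[ℝ] H :=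
  S.l - (ContinuousLinearMap.id ℝ H - S.P).comp S.inc

/-- Integrable forces. -/
abbrev XL (H : Type) [NormedAddCommGroup H] (T : ℝ) : Type :=
  Lp H 1 ((volume : Measure ℝ).restrict (Ioc 0 T))

/-- Square integrable functions of time. -/
abbrev YL (V : Type) [NormedAddCommGroup V] (T : ℝ) : Type :=
  Lp V 2 ((volume : Measure ℝ).restrict (Ioc 0 T))

/-- `Lf` maps an initial state and a force to the trajectory in `V`. -/
structure Sm.IsLift (S : Sm H V) (T : ℝ) (Lf : H × XL H T →L[ℝ] YL V T) : Prop where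
  eq : ∀ y f, ∀ᵐ t ∂volume.restrict (Ioc (0 : ℝ) T), S.inc (Lf (y, f) t) = S.traj y f t
  norm : ∀ y f, ‖Lf (y, f)‖ ≤ √S.C * (‖y‖ + ‖f‖)

/-- `Fl` maps an initial state and a source `g` to the force `f = l v + g`. -/
def IsFlow (l : V →L[ℝ] H) (T : ℝ) (Lf : H × XL H T →L[ℝ] YL V T)
    (Fl : H × XL H T →L[ℝ] XL H T) : Prop :=
  ∀ y g, ∀ᵐ t ∂volume.restrict (Ioc (0 : ℝ) T), (Fl (y, g)) t = l (Lf (y, Fl (y, g)) t) + g t

end

end Pool.Agent.Kdv
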