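import Pool.Agent.Lib.MP_78c35a_an.Dissip

/-!
# Small states are reached in a uniform time
-/

set_option autoImplicit false

namespace Pool.Agent.Kdv

open MeasureTheory Filter Topology Set
open scoped ENNReal InnerProductSpace

variable {H V : Type} [NormedAddCommGroup H] [InnerProductSpace ℝ H] [CompleteSpace H]
  [NormedAddCommGroup V] [NormedSpace ℝ V] [CompleteSpace V]

/-- The elementary inequality of one step of the cascade. -/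
private theorem attract_step {C2 M s t r a b : ℝ} (hC2 : 0 < C2) (hM : 32 * C2 ≤ M) (hM0 : 0 < M)
    (hs : 0 ≤ s) (ht : 0 < t) (hr : 0 ≤ r) (ha0 : 0 ≤ a) (ha : a ≤ 4 * r)
    (h1 : 8 * C2 * (1 + s) ≤ t * r) (hb : t * b ^ 2 ≤ C2 * (a + s * a + t * a ^ 2 / M)) :
    b ≤ r := by
  have h2 : a ^ 2 ≤ 16 * r ^ 2 := by nlinarith
  have h3 : C2 * (t * a ^ 2 / M) ≤ t * r ^ 2 / 2 := by
    rw [mul_div_assoc', div_le_div_iff₀ hM0 two_pos]
    have h4 : C2 * (t * a ^ 2) ≤ C2 * (t * (16 * r ^ 2)) := by gcongr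
    have h5 : 32 * C2 * (t * r ^ 2) ≤ M * (t * r ^ 2) := by gcongr
    nlinarith
  have h4 : C2 * (a + s * a) ≤ t * r ^ 2 / 2 := by
    have h5 : C2 * (a + s * a) ≤ C2 * ((1 + s) * (4 * r)) := by
      have : a + s * a = (1 + s) * a := by ring
      rw [this]
      gcongr
    have h6 : 8 * C2 * (1 + s) * r ≤ t * r * r := by gcongr
    nlinarith
  have h5 : t * b ^ 2 ≤ t * r ^ 2 := by
    have : C2 * (a + s * a + t * a ^ 2 / M) = C2 * (a + s * a) + C2 * (t * a ^ 2 / M) := by ring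
    linarith
  have h6 : b ^ 2 ≤ r ^ 2 := le_of_mul_le_mul_left h5 ht
  exact (abs_le_of_sq_le_sq' h6 hr).2

theorem Sys.attract (S : Sys H V) (ε : ℝ) (hε : 0 < ε) : ∃ T : ℝ, 0 < T ∧ ∀ y0 : H, ∃ y1 : H,
    ‖y1‖ ≤ ε ∧ S.Adm y0 y1 T := by
  obtain ⟨C2, hC2, hstep⟩ := S.step
  set M : ℝ := 32 * C2 + 1 with hM
  have hM1 : 1 ≤ M := by rw [hM]; linarith
  have hs : 0 ≤ √M := Real.sqrt_nonneg M
  set r0 : ℝ := 8 * C2 * (1 + √M) with hr0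
  have hr0' : 0 < r0 := by rw [hr0]; positivity
  -- the cascade
  have hA : ∀ n : ℕ, ∀ y0 : H, ‖y0‖ ≤ 4 ^ n * r0 →
      ∃ y1 : H, ‖y1‖ ≤ r0 ∧ S.Adm y0 y1 (2 - 2 * (1 / 2) ^ n) := by
    intro n
    induction n with
    | zero =>
      intro y0 h
      refine ⟨y0, by simpa using h, ?_⟩
      have : (2 : ℝ) - 2 * (1 / 2) ^ 0 = 0 := by norm_num
      rw [this]
      exact Sys.Adm.refl S y0
    | succ n ih =>
      intro y0 h
      have ht : (0 : ℝ) < (1 / 2) ^ n := by positivity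
      have ht2 : ((1 : ℝ) / 2) ^ n * 2 ^ n = 1 := by
        rw [← mul_pow]
        norm_num
      have h2n : (1 : ℝ) ≤ 2 ^ n := one_le_pow₀ (by norm_num)
      obtain ⟨y', hy', -, hb⟩ := hstep (M * 2 ^ n) (by nlinarith) ((1 / 2) ^ n) ht y0
      have e1 : ((1 : ℝ) / 2) ^ n * (M * 2 ^ n) = M := by
        calc ((1 : ℝ) / 2) ^ n * (M * 2 ^ n) = M * (((1 : ℝ) / 2) ^ n * 2 ^ n) := by ring
          _ = M := by rw [ht2, mul_one]
      have e2 : ‖y0‖ ^ 2 / (M * 2 ^ n) = (1 / 2) ^ n * ‖y0‖ ^ 2 / M := by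
        rw [div_eq_div_iff (by positivity) (by positivity)]
        calc ‖y0‖ ^ 2 * M = ‖y0‖ ^ 2 * M * (((1 : ℝ) / 2) ^ n * 2 ^ n) := by rw [ht2, mul_one]
          _ = (1 / 2) ^ n * ‖y0‖ ^ 2 * (M * 2 ^ n) := by ring
      rw [e1, e2] at hb
      have h4 : (1 / 2 : ℝ) ^ n * (4 ^ n * r0) = 2 ^ n * r0 := by
        rw [← mul_assoc, ← mul_pow]
        norm_num
      have hy'r : ‖y'‖ ≤ 4 ^ n * r0 := by
        refine attract_step (C2 := C2) (M := M) (s := √M) (t := (1 / 2) ^ n) hC2 (by rw [hM]; linarith)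
          (by linarith) hs ht (by positivity) (norm_nonneg y0) ?_ ?_ hb
        · calc ‖y0‖ ≤ 4 ^ (n + 1) * r0 := h
            _ = 4 * (4 ^ n * r0) := by ring
        · rw [h4]
          have : r0 ≤ 2 ^ n * r0 := by nlinarith
          exact this
      obtain ⟨y1, hy1, hadm⟩ := ih y' hy'r
      refine ⟨y1, hy1, ?_⟩
      have ht1 : ((1 : ℝ) / 2) ^ n ≤ 1 := pow_le_one₀ (by norm_num) (by norm_num)
      have h5 := Sys.Adm.trans ht.le (by linarith) hy' hadm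
      have e3 : ((1 : ℝ) / 2) ^ n + (2 - 2 * (1 / 2) ^ n) = 2 - 2 * (1 / 2) ^ (n + 1) := by
        rw [pow_succ]
        ring
      rwa [e3] at h5
  have hB : ∀ y0 : H, ∃ y2 : H, ‖y2‖ ≤ r0 ∧ S.Adm y0 y2 2 := by
    intro y0
    obtain ⟨n, hn⟩ := pow_unbounded_of_one_lt (‖y0‖ / r0) (by norm_num : (1 : ℝ) < 4)
    have hn' : ‖y0‖ ≤ 4 ^ n * r0 := by
      rw [div_lt_iff₀ hr0'] at hn
      exact hn.le
    obtain ⟨y1, hy1, hadm⟩ := hA n y0 hn'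
    have ht : (0 : ℝ) < 2 * (1 / 2) ^ n := by positivity
    obtain ⟨y2, hy2, hle, -⟩ := hstep 1 le_rfl (2 * (1 / 2) ^ n) ht y1
    refine ⟨y2, hle.trans hy1, ?_⟩
    have ht1 : ((1 : ℝ) / 2) ^ n ≤ 1 := pow_le_one₀ (by norm_num) (by norm_num)
    have h5 := Sys.Adm.trans (by linarith) ht.le hadm hy2
    have e3 : (2 : ℝ) - 2 * (1 / 2) ^ n + 2 * (1 / 2) ^ n = 2 := by ring
    rwa [e3] at h5
  set m : ℝ := 1 + C2 * (2 * r0 + r0 ^ 2) / ε ^ 2 with hm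
  have hm1 : 1 ≤ m := by
    rw [hm]
    have : 0 ≤ C2 * (2 * r0 + r0 ^ 2) / ε ^ 2 := by positivity
    linarith
  have hm2 : C2 * (2 * r0 + r0 ^ 2) ≤ ε ^ 2 * m := by
    have e : ε ^ 2 * (C2 * (2 * r0 + r0 ^ 2) / ε ^ 2) = C2 * (2 * r0 + r0 ^ 2) := by
      field_simp
    rw [hm, mul_one_add, e]
    have : 0 < ε ^ 2 := by positivity
    linarith
  refine ⟨2 + m ^ 2, by positivity, fun y0 => ?_⟩
  obtain ⟨y2, hy2, hadm⟩ := hB y0
  have hmp : 0 < m ^ 2 := by positivity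
  obtain ⟨y3, hy3, -, hb⟩ := hstep 1 le_rfl (m ^ 2) hmp y2
  refine ⟨y3, ?_, Sys.Adm.trans (by norm_num) hmp.le hadm hy3⟩
  rw [mul_one, Real.sqrt_sq (by linarith), div_one] at hb
  have h1 : C2 * (‖y2‖ + m * ‖y2‖ + ‖y2‖ ^ 2) ≤ C2 * (r0 + m * r0 + r0 ^ 2) := by
    gcongr
  have h2 : C2 * (r0 + m * r0 + r0 ^ 2) ≤ (C2 * (2 * r0 + r0 ^ 2)) * m := by
    have h3 : r0 + m * r0 + r0 ^ 2 ≤ (2 * r0 + r0 ^ 2) * m := by nlinarith [sq_nonneg r0]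
    calc C2 * (r0 + m * r0 + r0 ^ 2) ≤ C2 * ((2 * r0 + r0 ^ 2) * m) := by gcongr
      _ = _ := by ring
  have h3 : (C2 * (2 * r0 + r0 ^ 2)) * m ≤ (ε ^ 2 * m) * m := by gcongr
  have h4 : m ^ 2 * ‖y3‖ ^ 2 ≤ m ^ 2 * ε ^ 2 := by nlinarith
  have h5 : ‖y3‖ ^ 2 ≤ ε ^ 2 := le_of_mul_le_mul_left h4 hmp
  exact (sq_le_sq₀ (norm_nonneg _) hε.le).mp h5

end Pool.Agent.Kdv
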