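import Pool.Agent.Lib.MP_78c35a_an.LocCtrl
import Pool.Agent.Lib.MP_78c35a_an.Attract

/-!
# Global exact control
-/

set_option autoImplicit false

namespace Pool.Agent.Kdv

open MeasureTheory Filter Topology Set
open scoped ENNReal InnerProductSpace

variable {H V : Type} [NormedAddCommGroup H] [InnerProductSpace ℝ H] [CompleteSpace H]
  [NormedAddCommGroup V] [NormedSpace ℝ V] [CompleteSpace V]

theorem Sys.global [SecondCountableTopology H] (S : Sys H V) :
    ∃ T0 : ℝ, 0 < T0 ∧ ∀ T : ℝ, T0 ≤ T → ∀ y0 y1 : H, S.Adm y0 y1 T := by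
  obtain ⟨ε, T1, hε, hT1, h1⟩ := S.local_control
  obtain ⟨T2, hT2, h2⟩ := S.attract ε hε
  obtain ⟨C2, -, h3⟩ := S.step
  have key : ∀ y0 y1 : H, S.Adm y0 y1 (T2 + (T1 + T2)) := by
    intro y0 y1
    obtain ⟨a, ha, hA⟩ := h2 y0
    obtain ⟨b, hb, hB⟩ := h2 (S.rho y1)
    have hB' := hB.rev hT2.le
    rw [S.rho_rho] at hB'
    exact hA.trans hT2.le (by positivity)
      ((h1 a (S.rho b) ha (by rw [S.rho_norm]; exact hb)).trans hT1.le hT2.le hB')
  refine ⟨T2 + (T1 + T2) + 1, by positivity, fun T hT y0 y1 => ?_⟩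
  obtain ⟨y', hy', -⟩ := h3 1 le_rfl (T - (T2 + (T1 + T2))) (by linarith) y0
  have := hy'.trans (by linarith) (by positivity) (key y' y1)
  simpa using this

end Pool.Agent.Kdv
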