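import Pool.Agent.Lib.MP_78c35a_an.Nice
import Pool.Agent.Lib.MP_78c35a_an.Aw

/-!
# The Airy group
-/

set_option autoImplicit false

namespace Pool.Agent.Kdv

open MeasureTheory Filter Topology Set
open scoped SchwartzMap FourierTransform ENNReal ContDiff

/-- Complex square integrable functions. -/
abbrev CL2 : Type := Lp ℂ 2 (volume : Measure ℝ)

/-- The multiplier. -/
noncomputable def ph (c ξ : ℝ) : ℂ := Complex.exp (((8 * Real.pi ^ 3 * c * ξ ^ 3 : ℝ) : ℂ) * Complex.I)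

theorem ph_norm (c ξ : ℝ) : ‖ph c ξ‖ = 1 := Complex.norm_exp_ofReal_mul_I _

theorem ph_zero (ξ : ℝ) : ph 0 ξ = 1 := by simp [ph]

theorem ph_add (s t ξ : ℝ) : ph (s + t) ξ = ph s ξ * ph t ξ := by
  unfold ph
  rw [← Complex.exp_add]
  congr 1
  push_cast
  ring

theorem ph_cont2 : Continuous fun p : ℝ × ℝ => ph p.1 p.2 := by
  unfold ph
  fun_prop

theorem ph_cont (c : ℝ) : Continuous (ph c) := by
  unfold ph
  fun_prop

theorem ph_memLp (c : ℝ) {f : ℝ → ℂ} (hf : MemLp f 2 volume) :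
    MemLp (fun ξ => ph c ξ * f ξ) 2 volume :=
  MemLp.of_le_mul (c := 1) hf ((ph_cont c).aestronglyMeasurable.mul hf.1)
    (Eventually.of_forall fun ξ => by rw [norm_mul, ph_norm])

/-- Multiplication by the multiplier. -/
noncomputable def Mc (c : ℝ) : CL2 →ₗᵢ[ℂ] CL2 where
  toFun f := (ph_memLp c (Lp.memLp f)).toLp _
  map_add' f g := by
    rw [← MemLp.toLp_add]
    apply MemLp.toLp_congr
    filter_upwards [Lp.coeFn_add f g] with x hx
    simp only [Pi.add_apply] at hx ⊢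
    rw [hx, mul_add]
  map_smul' r f := by
    rw [RingHom.id_apply, ← MemLp.toLp_const_smul]
    apply MemLp.toLp_congr
    filter_upwards [Lp.coeFn_smul r f] with x hx
    simp only [Pi.smul_apply, smul_eq_mul] at hx ⊢
    rw [hx]
    ring
  norm_map' f := by
    change ‖(ph_memLp c (Lp.memLp f)).toLp _‖ = ‖f‖
    rw [Lp.norm_toLp, Lp.norm_def]
    congr 1
    exact eLpNorm_congr_norm_ae (Eventually.of_forall fun ξ => by rw [norm_mul, ph_norm, one_mul])

theorem Mc_ae (c : ℝ) (f : CL2) : ∀ᵐ ξ ∂volume, Mc c f ξ = ph c ξ * f ξ :=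
  MemLp.coeFn_toLp (ph_memLp c (Lp.memLp f))

theorem Mc_zero (f : CL2) : Mc 0 f = f := by
  apply Lp.ext
  filter_upwards [Mc_ae 0 f] with ξ h
  rw [h, ph_zero, one_mul]

theorem Mc_add (s t : ℝ) (f : CL2) : Mc (s + t) f = Mc s (Mc t f) := by
  apply Lp.ext
  filter_upwards [Mc_ae (s + t) f, Mc_ae s (Mc t f), Mc_ae t f] with ξ h1 h2 h3
  rw [h1, h2, h3, ph_add, mul_assoc]

theorem normSq_eq (f : CL2) : ‖f‖ ^ 2 = ∫ ξ, ‖f ξ‖ ^ 2 := by
  have h1 := inner_self_eq_norm_sq_to_K (𝕜 := ℂ) f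
  rw [L2.inner_def] at h1
  have h2 : ∀ ξ : ℝ, (inner ℂ (f ξ) (f ξ) : ℂ) = ((‖f ξ‖ ^ 2 : ℝ) : ℂ) := fun ξ => by
    rw [inner_self_eq_norm_sq_to_K]
    push_cast
    rfl
  simp only [h2] at h1
  rw [integral_complex_ofReal] at h1
  have h3 : ((∫ ξ, ‖f ξ‖ ^ 2 : ℝ) : ℂ) = ((‖f‖ ^ 2 : ℝ) : ℂ) := by
    push_cast
    push_cast at h1
    exact h1
  exact_mod_cast h3.symm

theorem Mc_cont (f : CL2) : Continuous fun c => Mc c f := by
  rw [continuous_iff_continuousAt]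
  intro c₀
  rw [ContinuousAt, tendsto_iff_norm_sub_tendsto_zero]
  have h0 : Tendsto (fun c => ‖Mc c f - Mc c₀ f‖ ^ 2) (𝓝 c₀) (𝓝 0) := by
    have e : ∀ c, ‖Mc c f - Mc c₀ f‖ ^ 2 = ∫ ξ, ‖(ph c ξ - ph c₀ ξ) * f ξ‖ ^ 2 := by
      intro c
      rw [normSq_eq]
      refine integral_congr_ae ?_
      filter_upwards [Mc_ae c f, Mc_ae c₀ f, Lp.coeFn_sub (Mc c f) (Mc c₀ f)] with ξ h1 h2 h3
      rw [h3, Pi.sub_apply, h1, h2, sub_mul]
    simp only [e]
    have hz : (0 : ℝ) = ∫ ξ, ‖(ph c₀ ξ - ph c₀ ξ) * f ξ‖ ^ 2 := by simp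
    rw [hz]
    have hfi : Integrable fun ξ => ‖f ξ‖ ^ 2 := (Lp.memLp f).integrable_norm_pow (by norm_num)
    refine tendsto_integral_filter_of_dominated_convergence (fun ξ => 4 * ‖f ξ‖ ^ 2)
      (Eventually.of_forall fun c => ?_) (Eventually.of_forall fun c => Eventually.of_forall fun ξ => ?_)
      (hfi.const_mul 4) (Eventually.of_forall fun ξ => ?_)
    · exact (((ph_cont c).sub (ph_cont c₀)).aestronglyMeasurable.mul (Lp.memLp f).1).norm.pow 2
    · rw [norm_pow, norm_norm, norm_mul, mul_pow]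
      gcongr
      have h1 : ‖ph c ξ - ph c₀ ξ‖ ≤ 2 := by
        refine (norm_sub_le _ _).trans ?_
        rw [ph_norm, ph_norm]
        norm_num
      calc ‖ph c ξ - ph c₀ ξ‖ ^ 2 ≤ 2 ^ 2 := by gcongr
        _ = 4 := by norm_num
    · have h1 : Continuous fun c => ‖(ph c ξ - ph c₀ ξ) * f ξ‖ ^ 2 := by
        have h2 : Continuous fun c => ph c ξ := ph_cont2.comp (by fun_prop : Continuous fun c : ℝ => (c, ξ))
        fun_prop
      exact h1.tendsto c₀
  have h1 := h0.sqrt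
  simpa using h1

/-- The inverse Fourier transform of an integrable function. -/
theorem Fi_toLp {f : ℝ → ℂ} (h1 : Integrable f) (h2 : MemLp f 2 volume) :
    (𝓕⁻ (h2.toLp f) : CL2) =ᵐ[volume] 𝓕⁻ f := by
  have hc : Continuous (𝓕⁻ f) := by
    have h3 : Continuous (𝓕 f) :=
      VectorFourier.fourierIntegral_continuous Real.continuous_fourierChar
        (by exact continuous_inner) h1
    have h4 : 𝓕⁻ f = fun x => 𝓕 f (-x) := by
      funext x
      exact Real.fourierInv_eq_fourier_neg f x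
    rw [h4]
    exact h3.comp continuous_neg
  apply ae_eq_of_integral_contDiff_smul_eq
    ((Lp.memLp (𝓕⁻ (h2.toLp f) : CL2)).locallyIntegrable one_le_two) hc.locallyIntegrable
  intro g hg hgs
  have hg' : ContDiff ℝ ∞ (fun x => (g x : ℂ)) := Complex.ofRealCLM.contDiff.comp hg
  have hgs' : HasCompactSupport (fun x => (g x : ℂ)) := hgs.comp_left (g := Complex.ofReal) rfl
  set G : 𝓢(ℝ, ℂ) := hgs'.toSchwartzMap hg' with hG
  have e1 : ∫ x, G x * (𝓕⁻ (h2.toLp f) : CL2) x = ∫ x, (𝓕⁻ G) x * (h2.toLp f) x := by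
    have k1 := Lp.fourierInv_toTemperedDistribution_eq (h2.toLp f)
    have k2 := congrArg (fun T : 𝓢'(ℝ, ℂ) => T G) k1
    simp only [TemperedDistribution.fourierInv_apply, Lp.toTemperedDistribution_apply,
      smul_eq_mul] at k2
    exact k2.symm
  have e2 : ∫ x, (𝓕⁻ G) x * (h2.toLp f) x = ∫ x, (𝓕⁻ G) x * f x := by
    apply integral_congr_ae
    filter_upwards [h2.coeFn_toLp] with x hx
    rw [hx]
  have e3 : ∫ x, (𝓕⁻ G) x * f x = ∫ x, G x * (𝓕⁻ f) x := by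
    have k1 := VectorFourier.integral_fourierIntegral_smul_eq_flip (L := innerₗ ℝ)
      (μ := volume) (ν := volume) Real.continuous_fourierChar continuous_inner G.integrable
        (h1.comp_neg)
    rw [flip_innerₗ] at k1
    have k2 : ∫ x, (𝓕 (G : ℝ → ℂ)) x * f (-x) = ∫ x, G x * (𝓕 (fun x => f (-x))) x := k1
    have k3 : ∀ x, (𝓕 (fun x => f (-x))) x = (𝓕⁻ f) x := by
      intro x
      exact congrFun (Real.fourierInv_eq_fourier_comp_neg f).symm x
    have k4 : ∫ x, (𝓕 (G : ℝ → ℂ)) x * f (-x) = ∫ x, (𝓕⁻ G) x * f x := by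
      rw [← integral_neg_eq_self]
      refine integral_congr_ae (Eventually.of_forall fun x => ?_)
      simp only [neg_neg]
      congr 1
    rw [← k4, k2]
    simp only [k3]
  have e4 : ∫ x, G x * (𝓕⁻ f) x = ∫ x, g x • (𝓕⁻ f) x := rfl
  have e5 : ∫ x, G x * (𝓕⁻ (h2.toLp f) : CL2) x = ∫ x, g x • (𝓕⁻ (h2.toLp f) : CL2) x := rfl
  rw [← e5, e1, e2, e3, e4]

/-- Real functions as complex functions. -/
noncomputable def ofR : L2 →L[ℝ] CL2 := Complex.ofRealCLM.compLpL 2 volume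

/-- The real part. -/
noncomputable def reR : CL2 →L[ℝ] L2 := Complex.reCLM.compLpL 2 volume

theorem ofR_ae (y : L2) : ∀ᵐ x ∂volume, ofR y x = (y x : ℂ) :=
  ContinuousLinearMap.coeFn_compLpL Complex.ofRealCLM y

theorem reR_ae (y : CL2) : ∀ᵐ x ∂volume, reR y x = (y x).re :=
  ContinuousLinearMap.coeFn_compLpL Complex.reCLM y

theorem reR_ofR (y : L2) : reR (ofR y) = y := by
  apply Lp.ext
  filter_upwards [ofR_ae y, reR_ae (ofR y)] with x h1 h2
  rw [h2, h1, Complex.ofReal_re]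

theorem ofR_norm (y : L2) : ‖ofR y‖ = ‖y‖ := by
  rw [Lp.norm_def, Lp.norm_def]
  congr 1
  refine eLpNorm_congr_norm_ae ?_
  filter_upwards [ofR_ae y] with x h1
  rw [h1, Complex.norm_real]

/-- The group on complex functions. -/
noncomputable def Tc (c : ℝ) : CL2 →ₗᵢ[ℂ] CL2 :=
  (Lp.fourierTransformₗᵢ ℝ ℂ).symm.toLinearIsometry.comp
    ((Mc c).comp (Lp.fourierTransformₗᵢ ℝ ℂ).toLinearIsometry)

theorem Tc_apply (c : ℝ) (f : CL2) : Tc c f = 𝓕⁻ (Mc c (𝓕 f)) := rfl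

theorem Tc_zero (f : CL2) : Tc 0 f = f := by
  rw [Tc_apply, Mc_zero, FourierTransform.fourierInv_fourier_eq]

theorem Tc_add (s t : ℝ) (f : CL2) : Tc (s + t) f = Tc s (Tc t f) := by
  rw [Tc_apply, Tc_apply, Tc_apply, FourierTransform.fourier_fourierInv_eq, Mc_add]

theorem Tc_cont (f : CL2) : Continuous fun c => Tc c f :=
  (Lp.fourierTransformₗᵢ ℝ ℂ).symm.continuous.comp (Mc_cont _)

/-- The group on nice functions. -/
theorem Tc_nice {G : 𝓢(ℝ, ℂ)} {g : ℝ → ℝ} (h : IsNice G g) (c : ℝ) :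
    ∀ᵐ x ∂volume, Tc c (ofR (toL2 g)) x = aw G 0 c x := by
  have e1 : ofR (toL2 g) = G.toLp 2 volume := by
    apply Lp.ext
    filter_upwards [ofR_ae (toL2 g), toL2_ae h.memLp, G.coeFn_toLp 2 volume] with x h1 h2 h3
    rw [h1, h2, h3, h x]
  have hi : Integrable fun ξ => ph c ξ * (𝓕 G) ξ := by
    refine Integrable.mono' (𝓕 G).integrable.norm
      ((ph_cont c).aestronglyMeasurable.mul (𝓕 G).continuous.aestronglyMeasurable)
      (Eventually.of_forall fun ξ => ?_)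
    rw [norm_mul, ph_norm, one_mul]
  have hm : MemLp (fun ξ => ph c ξ * (𝓕 G) ξ) 2 volume := ph_memLp c ((𝓕 G).memLp 2 volume)
  have e2 : Mc c (𝓕 (ofR (toL2 g))) = hm.toLp _ := by
    rw [e1, SchwartzMap.toLp_fourier_eq]
    apply Lp.ext
    filter_upwards [Mc_ae c ((𝓕 G).toLp 2 volume), (𝓕 G).coeFn_toLp 2 volume,
      hm.coeFn_toLp] with x h1 h2 h3
    rw [h1, h2, h3]
  rw [Tc_apply, e2]
  filter_upwards [Fi_toLp hi hm] with x hx
  rw [hx, Real.fourierInv_eq', aw_eq]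
  refine integral_congr_ae (Eventually.of_forall fun ξ => ?_)
  simp only [awI, pow_zero, one_mul, smul_eq_mul, fou_eq, ph]
  rw [← mul_assoc, ← Complex.exp_add]
  congr 2
  simp
  ring

/-- The Airy group. -/
noncomputable def Ac (c : ℝ) : L2 →L[ℝ] L2 :=
  reR.comp (((Tc c).toContinuousLinearMap.restrictScalars ℝ).comp ofR)

theorem Ac_apply (c : ℝ) (y : L2) : Ac c y = reR (Tc c (ofR y)) := rfl

/-- Nice functions. -/
def NS : Set L2 := {z | ∃ (G : 𝓢(ℝ, ℂ)) (g : ℝ → ℝ), IsNice G g ∧ z = toL2 g}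

theorem NS_dense : Dense NS := by
  intro y
  rw [Metric.mem_closure_iff]
  intro ε hε
  obtain ⟨G, g, h1, h2⟩ := nice_dense y hε
  exact ⟨toL2 g, ⟨G, g, h1, rfl⟩, by rwa [dist_eq_norm]⟩

theorem Ac_cont1 (c : ℝ) : Continuous (Ac c) := (Ac c).continuous

theorem ofR_Ac (c : ℝ) (y : L2) : ofR (Ac c y) = Tc c (ofR y) := by
  have h1 : Continuous fun y => ofR (Ac c y) := ofR.continuous.comp (Ac_cont1 c)
  have h2 : Continuous fun y => Tc c (ofR y) := (Tc c).continuous.comp ofR.continuous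
  refine congrFun (h1.ext_on NS_dense h2 ?_) y
  rintro z ⟨G, g, hg, rfl⟩
  apply Lp.ext
  filter_upwards [ofR_ae (Ac c (toL2 g)), reR_ae (Tc c (ofR (toL2 g))), Tc_nice hg c] with x k1 k2 k3
  rw [k1, Ac_apply, k2, k3]
  apply Complex.ext
  · simp
  · rw [Complex.ofReal_im, aw_real hg]

theorem Ac_nice {G : 𝓢(ℝ, ℂ)} {g : ℝ → ℝ} (h : IsNice G g) (c : ℝ) :
    ∀ᵐ x ∂volume, Ac c (toL2 g) x = (aw G 0 c x).re := by
  filter_upwards [reR_ae (Tc c (ofR (toL2 g))), Tc_nice h c] with x k2 k3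
  rw [Ac_apply, k2, k3]

theorem ofR_inj {y z : L2} (h : ofR y = ofR z) : y = z := by
  rw [← reR_ofR y, h, reR_ofR]

/-- The Schwartz function `x ↦ G (L - x)`. -/
noncomputable def rfG (L : ℝ) (G : 𝓢(ℝ, ℂ)) : 𝓢(ℝ, ℂ) :=
  (SchwartzMap.compCLMOfContinuousLinearEquiv ℂ (LinearIsometryEquiv.neg ℝ (E := ℝ))
    G).compSubConstCLM ℂ L

theorem rfG_apply (L : ℝ) (G : 𝓢(ℝ, ℂ)) (x : ℝ) : rfG L G x = G (L - x) := by
  change G (-(x - L)) = G (L - x)
  congr 1
  ring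

theorem fou_rfG (L : ℝ) (G : 𝓢(ℝ, ℂ)) (ξ : ℝ) :
    𝓕 (fun y => rfG L G y) ξ = Complex.exp (-(2 * Real.pi * Complex.I * L * ξ)) *
      𝓕 (fun y => G y) (-ξ) := by
  rw [Real.fourier_eq', Real.fourier_eq', ← integral_const_mul,
    ← integral_sub_left_eq_self _ volume L]
  refine integral_congr_ae (Eventually.of_forall fun y => ?_)
  simp only [smul_eq_mul, rfG_apply, sub_sub_cancel]
  rw [← mul_assoc, ← Complex.exp_add]
  congr 2
  simp
  ring

theorem aw_rfG (L : ℝ) (G : 𝓢(ℝ, ℂ)) (c x : ℝ) : aw (rfG L G) 0 (-c) x = aw G 0 c (L - x) := by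
  rw [aw_eq, aw_eq, ← integral_neg_eq_self]
  refine integral_congr_ae (Eventually.of_forall fun ξ => ?_)
  simp only [awI, fou_rfG, neg_neg, pow_zero, one_mul]
  rw [← mul_assoc, ← Complex.exp_add]
  congr 2
  push_cast
  ring

theorem refl_ae (L : ℝ) (y : L2) : ∀ᵐ x ∂volume, refl L y x = y (L - x) :=
  Lp.coeFn_compMeasurePreserving y (Measure.measurePreserving_sub_left volume L)

theorem Ac_refl (L c : ℝ) (y : L2) : refl L (Ac c y) = Ac (-c) (refl L y) := by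
  have h1 : Continuous fun y => refl L (Ac c y) := (refl L).continuous.comp (Ac_cont1 c)
  have h2 : Continuous fun y => Ac (-c) (refl L y) := (Ac_cont1 (-c)).comp (refl L).continuous
  refine congrFun (h1.ext_on NS_dense h2 ?_) y
  rintro z ⟨G, g, hg, rfl⟩
  have hn : IsNice (rfG L G) (fun x => g (L - x)) := fun x => by rw [rfG_apply, hg]
  have q := (Measure.measurePreserving_sub_left (volume : Measure ℝ) L).quasiMeasurePreserving
  have e1 : refl L (toL2 g) = toL2 fun x => g (L - x) := by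
    apply Lp.ext
    filter_upwards [refl_ae L (toL2 g), q.ae (toL2_ae hg.memLp), toL2_ae hn.memLp] with x k1 k2 k3
    rw [k1, k2, k3]
  apply Lp.ext
  change (refl L (Ac c (toL2 g)) : ℝ → ℝ) =ᵐ[volume] (Ac (-c) (refl L (toL2 g)) : ℝ → ℝ)
  rw [e1]
  filter_upwards [refl_ae L (Ac c (toL2 g)), q.ae (Ac_nice hg c), Ac_nice hn (-c)] with x k1 k2 k3
  rw [k1, k2, k3, aw_rfG]

/-- The Airy group exists: multiplication of the Fourier transform by `exp (8 π³ i c ξ³)`. -/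
theorem exists_airy : ∃ A : ℝ → L2 →L[ℝ] L2,
    (∀ y, A 0 y = y) ∧ (∀ s t y, A (s + t) y = A s (A t y)) ∧ (∀ t y, ‖A t y‖ = ‖y‖) ∧
    (∀ y, Continuous fun t => A t y) ∧
    (∀ (G : 𝓢(ℝ, ℂ)) (g : ℝ → ℝ), IsNice G g → ∀ c, ∀ᵐ x ∂volume,
      A c (toL2 g) x = (aw G 0 c x).re) ∧
    (∀ L c y, refl L (A c y) = A (-c) (refl L y)) := by
  refine ⟨Ac, fun y => ?_, fun s t y => ?_, fun t y => ?_, fun y => ?_, fun G g h c => Ac_nice h c,
    Ac_refl⟩
  · rw [Ac_apply, Tc_zero, reR_ofR]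
  · apply ofR_inj
    rw [ofR_Ac, ofR_Ac, ofR_Ac, Tc_add]
  · rw [← ofR_norm, ofR_Ac, (Tc t).norm_map, ofR_norm]
  · exact reR.continuous.comp (Tc_cont _)

/-- The Airy group: `airy c y` is the solution at time `c` of `z_t + z_xxx = 0`, `z(0) = y`. -/
noncomputable def airy : ℝ → L2 →L[ℝ] L2 := Classical.choose exists_airy

lemma airy_zero (y : L2) : airy 0 y = y := (Classical.choose_spec exists_airy).1 y

lemma airy_add (s t : ℝ) (y : L2) : airy (s + t) y = airy s (airy t y) :=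
  (Classical.choose_spec exists_airy).2.1 s t y

lemma airy_norm (t : ℝ) (y : L2) : ‖airy t y‖ = ‖y‖ :=
  (Classical.choose_spec exists_airy).2.2.1 t y

lemma airy_cont (y : L2) : Continuous fun t => airy t y :=
  (Classical.choose_spec exists_airy).2.2.2.1 y

lemma airy_nice {G : 𝓢(ℝ, ℂ)} {g : ℝ → ℝ} (h : IsNice G g) (c : ℝ) :
    ∀ᵐ x ∂volume, airy c (toL2 g) x = (aw G 0 c x).re :=
  (Classical.choose_spec exists_airy).2.2.2.2.1 G g h c

lemma airy_refl (L c : ℝ) (y : L2) : refl L (airy c y) = airy (-c) (refl L y) :=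
  (Classical.choose_spec exists_airy).2.2.2.2.2 L c y

end Pool.Agent.Kdv
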