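import Mathlib

/-!
# Diagonalisation of the Gear–Grimshaw system
-/

set_option autoImplicit false

namespace Pool.Agent.Kdv

/-- The quadratic coefficients in the coordinates of the vectors `E j`. -/
def gg (a1 a2 b : ℝ) (E : Fin 2 → Fin 2 → ℝ) (j k l : Fin 2) : ℝ :=
  b * E j 0 * E k 0 * E l 0 +
    a2 * b * (E j 0 * E k 0 * E l 1 + E j 0 * E k 1 * E l 0 + E j 1 * E k 0 * E l 0) +
    a1 * b * (E j 0 * E k 1 * E l 1 + E j 1 * E k 0 * E l 1 + E j 1 * E k 1 * E l 0) +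
    E j 1 * E k 1 * E l 1

/-- The vectors `E j` diagonalise the system, `m` is the base state and `e` the direction of
definiteness. -/
structure Alg (a a1 a2 b c r : ℝ) (E : Fin 2 → Fin 2 → ℝ) (mu m e : Fin 2 → ℝ) (kap : ℝ) :
    Prop where
  mu_pos : ∀ j, 0 < mu j
  kap_pos : 0 < kap
  eig0 : ∀ j, E j 0 + a * E j 1 = mu j * E j 0
  eig1 : ∀ j, a * b * E j 0 + E j 1 = c * mu j * E j 1
  c00 : b * ∑ j, E j 0 ^ 2 = 1
  c01 : ∑ j, E j 0 * E j 1 = 0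
  c11 : c * ∑ j, E j 1 ^ 2 = 1
  Se : ∀ j, ∑ k, ((∑ l, gg a1 a2 b E j k l * m l) + r * E j 1 * E k 1) * e k = 0
  coer : ∀ x : Fin 2 → ℝ, kap * ∑ j, x j ^ 2 ≤
    ∑ j, ∑ k, ∑ l, gg a1 a2 b E j k l * e j * x k * x l

/-- A symmetric matrix of size two has an orthogonal frame of eigenvectors. -/
theorem exists_rot (s q : ℝ) :
    ∃ p t : ℝ, p ^ 2 + t ^ 2 = 1 ∧ s * (p ^ 2 - t ^ 2) + (q - 1) * p * t = 0 := by
  let f : ℝ → ℝ := fun x => s * (Real.cos x ^ 2 - Real.sin x ^ 2) +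
    (q - 1) * Real.cos x * Real.sin x
  have hf : Continuous f := by fun_prop
  have h0 : f 0 = s := by simp [f]
  have h1 : f (Real.pi / 2) = -s := by simp [f]
  have h : (0 : ℝ) ∈ Set.range f := by
    refine mem_range_of_exists_le_of_exists_ge hf ?_ ?_
    · rcases le_total s 0 with hs | hs
      · exact ⟨0, by rw [h0]; exact hs⟩
      · exact ⟨Real.pi / 2, by rw [h1]; linarith⟩
    · rcases le_total s 0 with hs | hs
      · exact ⟨Real.pi / 2, by rw [h1]; linarith⟩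
      · exact ⟨0, by rw [h0]; exact hs⟩
  obtain ⟨x, hx⟩ := h
  exact ⟨Real.cos x, Real.sin x, Real.cos_sq_add_sin_sq x, hx⟩

/-- A binary quadratic form of positive discriminant takes a positive value. -/
theorem exists_pos_val {P Q R : ℝ} (h : 4 * P * R < Q ^ 2) :
    ∃ x y : ℝ, 0 < P * x ^ 2 + Q * x * y + R * y ^ 2 := by
  rcases lt_trichotomy R 0 with hR | hR | hR
  · have hR' : R ≠ 0 := hR.ne
    refine ⟨1, -Q / (2 * R), ?_⟩
    have h1 : P * 1 ^ 2 + Q * 1 * (-Q / (2 * R)) + R * (-Q / (2 * R)) ^ 2 =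
        (Q ^ 2 - 4 * P * R) / (4 * -R) := by
      field_simp
      ring
    rw [h1]
    exact div_pos (by linarith) (by linarith)
  · subst hR
    have hQ : Q ≠ 0 := by
      rintro rfl
      simp at h
    refine ⟨1, (1 - P) / Q, ?_⟩
    have h1 : P * 1 ^ 2 + Q * 1 * ((1 - P) / Q) + 0 * ((1 - P) / Q) ^ 2 = 1 := by
      field_simp
      ring
    rw [h1]
    exact one_pos
  · exact ⟨0, 1, by simpa using hR⟩

/-- The direction of definiteness. -/
theorem exists_dir {a1 a2 b : ℝ} (hb : 0 < b)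
    (hd : 6 * a1 * a2 * b + 3 * a1 ^ 2 * a2 ^ 2 * b ^ 2 <
      1 + 4 * a2 ^ 3 * b + 4 * a1 ^ 3 * b ^ 2) :
    ∃ x y : ℝ, 0 < b * x + a2 * b * y ∧ 0 < a1 * b * x + y ∧
      0 < (b * x + a2 * b * y) * (a1 * b * x + y) - (a2 * b * x + a1 * b * y) ^ 2 := by
  have h : 4 * (b * (a1 - a2 ^ 2)) * (a2 - a1 ^ 2 * b) < (1 - a1 * a2 * b) ^ 2 := by
    nlinarith [hd]
  obtain ⟨x, y, hxy⟩ := exists_pos_val h
  have hdet : (b * x + a2 * b * y) * (a1 * b * x + y) - (a2 * b * x + a1 * b * y) ^ 2 =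
      b * (b * (a1 - a2 ^ 2) * x ^ 2 + (1 - a1 * a2 * b) * x * y +
        (a2 - a1 ^ 2 * b) * y ^ 2) := by
    ring
  have hpos : 0 < (b * x + a2 * b * y) * (a1 * b * x + y) -
      (a2 * b * x + a1 * b * y) ^ 2 := by
    rw [hdet]
    exact mul_pos hb hxy
  have hprod : 0 < (b * x + a2 * b * y) * (a1 * b * x + y) := by
    nlinarith [sq_nonneg (a2 * b * x + a1 * b * y)]
  rcases pos_and_pos_or_neg_and_neg_of_mul_pos hprod with ⟨h1, h2⟩ | ⟨h1, h2⟩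
  · exact ⟨x, y, h1, h2, hpos⟩
  · refine ⟨-x, -y, by linarith, by linarith, ?_⟩
    calc (0 : ℝ) < _ := hpos
      _ = _ := by ring

/-- The least eigenvalue is at least the determinant divided by the trace. -/
theorem coer_aux {b c H0 H1 H2 : ℝ} (hb : 0 < b) (hc : 0 < c) (hdet : 0 < H0 * H1 - H2 ^ 2)
    (htr : 0 < H0 + H1) (u v : ℝ) :
    (H0 * H1 - H2 ^ 2) / ((H0 + H1) * (b + c)) * (b * u ^ 2 + c * v ^ 2) ≤
      H0 * u ^ 2 + 2 * H2 * u * v + H1 * v ^ 2 := by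
  have hbc : 0 < b + c := by linarith
  rw [div_mul_eq_mul_div, div_le_iff₀ (by positivity)]
  have h3 : (H0 * H1 - H2 ^ 2) * (u ^ 2 + v ^ 2) ≤
      (H0 * u ^ 2 + 2 * H2 * u * v + H1 * v ^ 2) * (H0 + H1) := by
    have h : (H0 * u ^ 2 + 2 * H2 * u * v + H1 * v ^ 2) * (H0 + H1) -
        (H0 * H1 - H2 ^ 2) * (u ^ 2 + v ^ 2) = (H0 * u + H2 * v) ^ 2 + (H2 * u + H1 * v) ^ 2 := by
      ring
    linarith [sq_nonneg (H0 * u + H2 * v), sq_nonneg (H2 * u + H1 * v)]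
  have h4 : b * u ^ 2 + c * v ^ 2 ≤ (u ^ 2 + v ^ 2) * (b + c) := by
    linarith [mul_nonneg hb.le (sq_nonneg v), mul_nonneg hc.le (sq_nonneg u),
      (by ring : (u ^ 2 + v ^ 2) * (b + c) =
        b * u ^ 2 + c * v ^ 2 + b * v ^ 2 + c * u ^ 2)]
  calc (H0 * H1 - H2 ^ 2) * (b * u ^ 2 + c * v ^ 2)
      ≤ (H0 * H1 - H2 ^ 2) * ((u ^ 2 + v ^ 2) * (b + c)) := mul_le_mul_of_nonneg_left h4 hdet.le
    _ = (H0 * H1 - H2 ^ 2) * (u ^ 2 + v ^ 2) * (b + c) := by ring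
    _ ≤ (H0 * u ^ 2 + 2 * H2 * u * v + H1 * v ^ 2) * (H0 + H1) * (b + c) :=
        mul_le_mul_of_nonneg_right h3 hbc.le
    _ = _ := by ring

/-- Positivity of a binary quadratic form. -/
theorem form_pos {s q u v : ℝ} (hq : 0 < q - s ^ 2) (huv : u ^ 2 + v ^ 2 = 1) :
    0 < u ^ 2 + 2 * s * u * v + q * v ^ 2 := by
  have h1 : u ^ 2 + 2 * s * u * v + q * v ^ 2 = (u + s * v) ^ 2 + (q - s ^ 2) * v ^ 2 := by ring
  rw [h1]
  rcases eq_or_ne v 0 with h | h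
  · subst h
    have : u ^ 2 = 1 := by linarith
    linarith [(by ring : (u + s * 0) ^ 2 + (q - s ^ 2) * 0 ^ 2 = u ^ 2)]
  · have : 0 < v ^ 2 := by positivity
    have := mul_pos hq this
    linarith [sq_nonneg (u + s * v)]

theorem exists_alg {a a1 a2 b c : ℝ} (r : ℝ) (hb : 0 < b) (hc : 0 < c) (ha : a ^ 2 * b < 1)
    (hd : 6 * a1 * a2 * b + 3 * a1 ^ 2 * a2 ^ 2 * b ^ 2 <
      1 + 4 * a2 ^ 3 * b + 4 * a1 ^ 3 * b ^ 2) :
    ∃ (E : Fin 2 → Fin 2 → ℝ) (mu m e : Fin 2 → ℝ) (kap : ℝ),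
      Alg a a1 a2 b c r E mu m e kap := by
  obtain ⟨β, hβ⟩ : ∃ β : ℝ, b * β ^ 2 = 1 := ⟨1 / √b, by
    rw [div_pow, Real.sq_sqrt hb.le]
    field_simp⟩
  obtain ⟨γ, hγ⟩ : ∃ γ : ℝ, c * γ ^ 2 = 1 := ⟨1 / √c, by
    rw [div_pow, Real.sq_sqrt hc.le]
    field_simp⟩
  obtain ⟨p, t, hpt, hor⟩ := exists_rot (a * b * β * γ) (γ ^ 2)
  obtain ⟨x, y, h00, h11, hdet⟩ := exists_dir hb hd
  -- the Hessian
  set H0 := b * x + a2 * b * y with hH0
  set H1 := a1 * b * x + y with hH1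
  set H2 := a2 * b * x + a1 * b * y with hH2
  set Δ := H0 * H1 - H2 ^ 2 with hΔ
  have hγ2 : 0 < γ ^ 2 := by
    rcases eq_or_ne γ 0 with h | h
    · rw [h] at hγ
      simp at hγ
    · positivity
  have hs : (a * b * β * γ) ^ 2 = a ^ 2 * b * γ ^ 2 := by
    linear_combination (a ^ 2 * b * γ ^ 2) * hβ
  have hq : 0 < γ ^ 2 - (a * b * β * γ) ^ 2 := by
    rw [hs]
    have := mul_pos (sub_pos.mpr ha) hγ2
    linarith
  -- positivity of the quadratic form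
  have hform : ∀ u v : ℝ, u ^ 2 + v ^ 2 = 1 →
      0 < u ^ 2 + 2 * (a * b * β * γ) * u * v + γ ^ 2 * v ^ 2 :=
    fun u v huv => form_pos hq huv
  set mu0 := p ^ 2 + 2 * (a * b * β * γ) * p * t + γ ^ 2 * t ^ 2 with hmu0
  set mu1 := t ^ 2 - 2 * (a * b * β * γ) * t * p + γ ^ 2 * p ^ 2 with hmu1
  have hmu0p : 0 < mu0 := hform p t hpt
  have hmu1p : 0 < mu1 := by
    have := hform (-t) p (by linarith)
    calc (0 : ℝ) < _ := this
      _ = mu1 := by rw [hmu1]; ring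
  let E : Fin 2 → Fin 2 → ℝ := ![![p * β, t * γ], ![-t * β, p * γ]]
  let M0 : ℝ := H2 * r * y / Δ
  let M1 : ℝ := -(H0 * r * y) / Δ
  let e : Fin 2 → ℝ := fun j => b * E j 0 * x + c * E j 1 * y
  let m : Fin 2 → ℝ := fun j => b * E j 0 * M0 + c * E j 1 * M1
  have E00 : E 0 0 = p * β := rfl
  have E01 : E 0 1 = t * γ := rfl
  have E10 : E 1 0 = -t * β := rfl
  have E11 : E 1 1 = p * γ := rfl
  have c00 : b * ∑ j, E j 0 ^ 2 = 1 := by
    rw [Fin.sum_univ_two, E00, E10]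
    linear_combination hβ + b * β ^ 2 * hpt
  have c01 : ∑ j, E j 0 * E j 1 = 0 := by
    rw [Fin.sum_univ_two, E00, E10, E01, E11]
    ring
  have c11 : c * ∑ j, E j 1 ^ 2 = 1 := by
    rw [Fin.sum_univ_two, E01, E11]
    linear_combination hγ + c * γ ^ 2 * hpt
  rw [Fin.sum_univ_two] at c00 c01 c11
  -- dual relations
  have dual : ∀ u v : ℝ, (∑ j, (b * E j 0 * u + c * E j 1 * v) * E j 0 = u) ∧
      (∑ j, (b * E j 0 * u + c * E j 1 * v) * E j 1 = v) := by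
    intro u v
    rw [Fin.sum_univ_two, Fin.sum_univ_two]
    constructor
    · linear_combination u * c00 + c * v * c01
    · linear_combination v * c11 + b * u * c01
  have hde0 : e 0 * E 0 0 + e 1 * E 1 0 = x := by
    have := (dual x y).1
    rwa [Fin.sum_univ_two] at this
  have hde1 : e 0 * E 0 1 + e 1 * E 1 1 = y := by
    have := (dual x y).2
    rwa [Fin.sum_univ_two] at this
  have hdm0 : m 0 * E 0 0 + m 1 * E 1 0 = M0 := by
    have := (dual M0 M1).1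
    rwa [Fin.sum_univ_two] at this
  have hdm1 : m 0 * E 0 1 + m 1 * E 1 1 = M1 := by
    have := (dual M0 M1).2
    rwa [Fin.sum_univ_two] at this
  have hM0 : H0 * M0 + H2 * M1 = 0 := by
    simp only [M0, M1]
    ring
  have hM1 : H2 * M0 + H1 * M1 = -(r * y) := by
    have hΔ0 : Δ ≠ 0 := hdet.ne'
    simp only [M0, M1]
    have : H2 * (H2 * r * y / Δ) + H1 * (-(H0 * r * y) / Δ) = -(r * y) * Δ / Δ := by
      rw [hΔ]
      ring
    rw [this, mul_div_assoc, div_self hΔ0, mul_one]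
  have htr : 0 < H0 + H1 := by linarith
  have hbc : 0 < b + c := by linarith
  refine ⟨E, ![mu0, mu1], m, e, Δ / ((H0 + H1) * (b + c)), ?_, ?_, ?_, ?_, ?_, ?_, ?_, ?_, ?_⟩
  · intro j
    fin_cases j
    · exact hmu0p
    · exact hmu1p
  · positivity
  · intro j
    fin_cases j
    · change p * β + a * (t * γ) = mu0 * (p * β)
      rw [hmu0]
      linear_combination (-(a * t * γ)) * hβ - (β * t) * hor + (-(p * β) - β * (a * b * β * γ) * t) * hpt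
    · change -t * β + a * (p * γ) = mu1 * (-t * β)
      rw [hmu1]
      linear_combination (-(a * p * γ)) * hβ + (β * p) * hor + ((t * β) - β * (a * b * β * γ) * p) * hpt
  · intro j
    fin_cases j
    · change a * b * (p * β) + t * γ = c * mu0 * (t * γ)
      rw [hmu0]
      linear_combination (-(a * b * β * p + γ * t)) * hγ -
        c * γ * ((a * b * β * γ) * p + γ ^ 2 * t) * hpt + c * γ * p * hor
    · change a * b * (-t * β) + p * γ = c * mu1 * (p * γ)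
      rw [hmu1]
      linear_combination (-(-(a * b * β * t) + γ * p)) * hγ -
        c * γ * (-((a * b * β * γ) * t) + γ ^ 2 * p) * hpt + c * γ * t * hor
  · rw [Fin.sum_univ_two]
    exact c00
  · rw [Fin.sum_univ_two]
    exact c01
  · rw [Fin.sum_univ_two]
    exact c11
  · intro j
    have h1 : ∑ k, ((∑ l, gg a1 a2 b E j k l * m l) + r * E j 1 * E k 1) * e k =
        E j 0 * (b * (e 0 * E 0 0 + e 1 * E 1 0) * (m 0 * E 0 0 + m 1 * E 1 0) +
          a2 * b * ((e 0 * E 0 0 + e 1 * E 1 0) * (m 0 * E 0 1 + m 1 * E 1 1) +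
            (e 0 * E 0 1 + e 1 * E 1 1) * (m 0 * E 0 0 + m 1 * E 1 0)) +
          a1 * b * ((e 0 * E 0 1 + e 1 * E 1 1) * (m 0 * E 0 1 + m 1 * E 1 1))) +
        E j 1 * (a2 * b * ((e 0 * E 0 0 + e 1 * E 1 0) * (m 0 * E 0 0 + m 1 * E 1 0)) +
          a1 * b * ((e 0 * E 0 0 + e 1 * E 1 0) * (m 0 * E 0 1 + m 1 * E 1 1) +
            (e 0 * E 0 1 + e 1 * E 1 1) * (m 0 * E 0 0 + m 1 * E 1 0)) +
          (e 0 * E 0 1 + e 1 * E 1 1) * (m 0 * E 0 1 + m 1 * E 1 1) +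
          r * (e 0 * E 0 1 + e 1 * E 1 1)) := by
      simp only [Fin.sum_univ_two, gg]
      ring
    rw [h1, hde0, hde1, hdm0, hdm1]
    rw [hH0, hH2] at hM0
    rw [hH1, hH2] at hM1
    linear_combination E j 0 * hM0 + E j 1 * hM1
  · intro z
    have h1 : ∑ j, ∑ k, ∑ l, gg a1 a2 b E j k l * e j * z k * z l =
        (b * (e 0 * E 0 0 + e 1 * E 1 0) + a2 * b * (e 0 * E 0 1 + e 1 * E 1 1)) *
          (z 0 * E 0 0 + z 1 * E 1 0) ^ 2 +
        2 * (a2 * b * (e 0 * E 0 0 + e 1 * E 1 0) + a1 * b * (e 0 * E 0 1 + e 1 * E 1 1)) *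
          (z 0 * E 0 0 + z 1 * E 1 0) * (z 0 * E 0 1 + z 1 * E 1 1) +
        (a1 * b * (e 0 * E 0 0 + e 1 * E 1 0) + (e 0 * E 0 1 + e 1 * E 1 1)) *
          (z 0 * E 0 1 + z 1 * E 1 1) ^ 2 := by
      simp only [Fin.sum_univ_two, gg]
      ring
    rw [h1, hde0, hde1]
    have h2 : ∑ j, z j ^ 2 = b * (z 0 * E 0 0 + z 1 * E 1 0) ^ 2 +
        c * (z 0 * E 0 1 + z 1 * E 1 1) ^ 2 := by
      rw [Fin.sum_univ_two, E00, E01, E10, E11]
      linear_combination (-(z 0 * p - z 1 * t) ^ 2) * hβ - (z 0 * t + z 1 * p) ^ 2 * hγ -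
        (z 0 ^ 2 + z 1 ^ 2) * hpt
    rw [h2]
    exact coer_aux hb hc hdet htr _ _

end Pool.Agent.Kdv
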