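import Pool.Agent.Lib.MP_78c35a_an.TrDef

/-!
# Linear combinations of the scalar identities
-/

set_option autoImplicit false

namespace Pool.Agent.Kdv

open MeasureTheory Filter Topology Set
open scoped ENNReal ContDiff

namespace CombAux

/-! ### Joint smoothness of partial derivatives -/

theorem smooth_dt {φ : ℝ → ℝ → ℝ} (h : ContDiff ℝ ∞ (Function.uncurry φ)) :
    ContDiff ℝ ∞ (Function.uncurry fun t x => deriv (fun r => φ r x) t) := by
  have h1 : (Function.uncurry fun t x => deriv (fun r => φ r x) t) =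
      fun p : ℝ × ℝ => fderiv ℝ (Function.uncurry φ) p (1, 0) := by
    funext p
    obtain ⟨t, x⟩ := p
    change deriv (fun r => φ r x) t = _
    have hd : HasFDerivAt (Function.uncurry φ) (fderiv ℝ (Function.uncurry φ) (t, x)) (t, x) :=
      ((h.differentiable (by simp)) (t, x)).hasFDerivAt
    have h2 : HasDerivAt (fun r : ℝ => ((r, x) : ℝ × ℝ)) ((1 : ℝ), (0 : ℝ)) t :=
      (hasDerivAt_id t).prodMk (hasDerivAt_const t x)
    have h3 := HasFDerivAt.comp_hasDerivAt t hd h2
    exact h3.deriv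
  rw [h1]
  exact (h.fderiv_right (m := ∞) (by simp)).clm_apply contDiff_const

theorem smooth_dx {φ : ℝ → ℝ → ℝ} (h : ContDiff ℝ ∞ (Function.uncurry φ)) :
    ContDiff ℝ ∞ (Function.uncurry fun t x => deriv (φ t) x) := by
  have h1 : (Function.uncurry fun t x => deriv (φ t) x) =
      fun p : ℝ × ℝ => fderiv ℝ (Function.uncurry φ) p (0, 1) := by
    funext p
    obtain ⟨t, x⟩ := p
    change deriv (φ t) x = _
    have hd : HasFDerivAt (Function.uncurry φ) (fderiv ℝ (Function.uncurry φ) (t, x)) (t, x) :=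
      ((h.differentiable (by simp)) (t, x)).hasFDerivAt
    have h2 : HasDerivAt (fun r : ℝ => ((t, r) : ℝ × ℝ)) ((0 : ℝ), (1 : ℝ)) x :=
      (hasDerivAt_const x t).prodMk (hasDerivAt_id x)
    have h3 := HasFDerivAt.comp_hasDerivAt x hd h2
    exact h3.deriv
  rw [h1]
  exact (h.fderiv_right (m := ∞) (by simp)).clm_apply contDiff_const

theorem smooth_iter {φ : ℝ → ℝ → ℝ} (h : ContDiff ℝ ∞ (Function.uncurry φ)) (k : ℕ) :
    ContDiff ℝ ∞ (Function.uncurry fun t x => iteratedDeriv k (φ t) x) := by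
  induction k with
  | zero => simpa [iteratedDeriv_zero] using h
  | succ k ih =>
    have := smooth_dx ih
    simpa only [iteratedDeriv_succ] using this

theorem smooth_right {φ : ℝ → ℝ → ℝ} (h : ContDiff ℝ ∞ (Function.uncurry φ)) (t : ℝ) :
    ContDiff ℝ ∞ (φ t) :=
  h.comp (contDiff_const.prodMk contDiff_id)

theorem smooth_left {φ : ℝ → ℝ → ℝ} (h : ContDiff ℝ ∞ (Function.uncurry φ)) (x : ℝ) :
    ContDiff ℝ ∞ (fun t => φ t x) :=
  h.comp (contDiff_id.prodMk contDiff_const)

/-! ### The functions `ζ t` as elements of `L²` -/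

variable {L : ℝ}

theorem ind_memLp {ζ : ℝ → ℝ → ℝ} (hζ : Continuous (Function.uncurry ζ)) (t : ℝ) :
    MemLp ((Ioo 0 L).indicator (ζ t)) 2 volume := by
  have hc : Continuous (ζ t) := hζ.comp (continuous_const.prodMk continuous_id)
  rw [memLp_indicator_iff_restrict measurableSet_Ioo]
  obtain ⟨C, hC⟩ := (isCompact_Icc (a := (0 : ℝ)) (b := L)).exists_bound_of_continuousOn
    hc.continuousOn
  refine MemLp.of_bound hc.aestronglyMeasurable C ?_
  filter_upwards [ae_restrict_mem measurableSet_Ioo] with x hx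
  exact hC x (Ioo_subset_Icc_self hx)

/-- The function `ζ t` on `(0, L)` as an element of `L²`. -/
noncomputable def ZZ (L : ℝ) {ζ : ℝ → ℝ → ℝ} (hζ : Continuous (Function.uncurry ζ)) (t : ℝ) :
    L2 := (ind_memLp (L := L) hζ t).toLp _

theorem ZZ_ae {ζ : ℝ → ℝ → ℝ} (hζ : Continuous (Function.uncurry ζ)) (t : ℝ) :
    ∀ᵐ x ∂volume, ZZ L hζ t x = (Ioo 0 L).indicator (ζ t) x :=
  MemLp.coeFn_toLp _

theorem ZZ_norm {ζ : ℝ → ℝ → ℝ} (hζ : Continuous (Function.uncurry ζ)) (t s : ℝ) {δ : ℝ}
    (h : ∀ x ∈ Ioo 0 L, |ζ t x - ζ s x| ≤ δ) :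
    ‖ZZ L hζ t - ZZ L hζ s‖ₑ ≤ volume (Ioo 0 L) ^ (2 : ℝ≥0∞).toReal⁻¹ * ENNReal.ofReal δ := by
  rw [ZZ, ZZ, ← MemLp.toLp_sub, Lp.enorm_toLp]
  have h1 : (Ioo 0 L).indicator (ζ t) - (Ioo 0 L).indicator (ζ s) =
      (Ioo 0 L).indicator (fun x => ζ t x - ζ s x) := by
    funext x
    by_cases hx : x ∈ Ioo 0 L
    · simp [hx]
    · simp [hx]
  rw [h1, eLpNorm_indicator_eq_eLpNorm_restrict measurableSet_Ioo]
  have h2 := eLpNorm_le_of_ae_bound (p := 2) (μ := volume.restrict (Ioo 0 L))
    (f := fun x => ζ t x - ζ s x) (C := δ)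
    (by filter_upwards [ae_restrict_mem measurableSet_Ioo] with x hx using h x hx)
  rwa [Measure.restrict_apply_univ] at h2

theorem ZZ_continuous {ζ : ℝ → ℝ → ℝ} (hζ : Continuous (Function.uncurry ζ)) :
    Continuous (ZZ L hζ) := by
  let c : C(ℝ, C(Icc (0 : ℝ) L, ℝ)) :=
    ContinuousMap.curry ⟨fun p : ℝ × Icc (0 : ℝ) L => ζ p.1 p.2,
      hζ.comp (continuous_fst.prodMk (continuous_subtype_val.comp continuous_snd))⟩
  rw [continuous_iff_continuousAt]
  intro s
  rw [ContinuousAt, tendsto_iff_edist_tendsto_0]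
  have h1 : Tendsto (fun t => dist (c t) (c s)) (𝓝 s) (𝓝 0) := by
    have := c.continuous.tendsto s
    exact tendsto_iff_dist_tendsto_zero.1 this
  have h2 : Tendsto (fun t => volume (Ioo 0 L) ^ (2 : ℝ≥0∞).toReal⁻¹ *
      ENNReal.ofReal (dist (c t) (c s))) (𝓝 s) (𝓝 0) := by
    have h3 : Tendsto (fun t => ENNReal.ofReal (dist (c t) (c s))) (𝓝 s) (𝓝 0) := by
      have := ENNReal.tendsto_ofReal h1
      rwa [ENNReal.ofReal_zero] at this
    have h4 := ENNReal.Tendsto.const_mul (a := volume (Ioo 0 L) ^ (2 : ℝ≥0∞).toReal⁻¹) h3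
      (Or.inr (by
        refine ENNReal.rpow_ne_top_of_nonneg (by positivity) ?_
        rw [Real.volume_Ioo]
        exact ENNReal.ofReal_ne_top))
    rwa [mul_zero] at h4
  refine tendsto_of_tendsto_of_tendsto_of_le_of_le tendsto_const_nhds h2 (fun _ => zero_le)
    fun t => ?_
  rw [edist_eq_enorm_sub]
  refine ZZ_norm hζ t s fun x hx => ?_
  have := ContinuousMap.dist_apply_le_dist (f := c t) (g := c s)
    ⟨x, Ioo_subset_Icc_self hx⟩
  exact this

theorem int_x {ζ : ℝ → ℝ → ℝ} (hζ : Continuous (Function.uncurry ζ)) (u : L2) (t : ℝ) :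
    IntegrableOn (fun x => u x * ζ t x) (Ioo 0 L) ∧
      ∫ x in Ioo 0 L, u x * ζ t x = inner ℝ u (ZZ L hζ t) := by
  have h1 : (fun x => inner ℝ (u x) (ZZ L hζ t x)) =ᵐ[volume]
      (Ioo 0 L).indicator (fun x => u x * ζ t x) := by
    filter_upwards [ZZ_ae (L := L) hζ t] with x hx
    rw [hx]
    by_cases h : x ∈ Ioo 0 L
    · simp [h, mul_comm]
    · simp [h]
  constructor
  · have h2 := (L2.integrable_inner (𝕜 := ℝ) u (ZZ L hζ t)).congr h1
    rwa [integrable_indicator_iff measurableSet_Ioo] at h2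
  · rw [L2.inner_def, integral_congr_ae h1, integral_indicator measurableSet_Ioo]

theorem int_t {ζ : ℝ → ℝ → ℝ} (hζ : Continuous (Function.uncurry ζ)) {T : ℝ} {u : ℝ → L2}
    (hu : ContinuousOn u (Icc 0 T)) :
    IntegrableOn (fun t => ∫ x in Ioo 0 L, u t x * ζ t x) (Ioo 0 T) := by
  simp only [(int_x (L := L) hζ _ _).2]
  exact ((hu.inner (𝕜 := ℝ) (ZZ_continuous (L := L) hζ).continuousOn).integrableOn_Icc).mono_set
    Ioo_subset_Icc_self

theorem int_f {ζ : ℝ → ℝ → ℝ} (hζ : Continuous (Function.uncurry ζ)) {T : ℝ} {f : ℝ → L2}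
    (hf : IntegrableOn f (Ioc 0 T)) :
    IntegrableOn (fun t => ∫ x in Ioo 0 L, f t x * ζ t x) (Ioo 0 T) := by
  simp only [(int_x (L := L) hζ _ _).2]
  have hf' : IntegrableOn f (Ioo 0 T) := hf.mono_set Ioo_subset_Ioc_self
  obtain ⟨C, hC⟩ := (isCompact_Icc (a := (0 : ℝ)) (b := T)).exists_bound_of_continuousOn
    (ZZ_continuous (L := L) hζ).continuousOn
  refine Integrable.mono' (hf'.norm.mul_const C)
    (hf'.1.inner (ZZ_continuous (L := L) hζ).aestronglyMeasurable) ?_
  filter_upwards [ae_restrict_mem measurableSet_Ioo] with t ht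
  refine (norm_inner_le_norm _ _).trans ?_
  exact mul_le_mul_of_nonneg_left (hC t (Ioo_subset_Icc_self ht)) (norm_nonneg _)

theorem int_h {T : ℝ} {h g : ℝ → ℝ} (hh : InL2 T h) (hg : Continuous g) :
    IntegrableOn (fun t => h t * g t) (Ioo 0 T) := by
  have h1 : MemLp h 2 (volume.restrict (Ioo 0 T)) := by
    refine ⟨hh.1, ?_⟩
    rw [eLpNorm_lt_top_iff_lintegral_rpow_enorm_lt_top (by norm_num) (by norm_num)]
    simpa using hh.2
  have h2 : Integrable h (volume.restrict (Ioo 0 T)) := h1.integrable (by norm_num)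
  obtain ⟨C, hC⟩ := (isCompact_Icc (a := (0 : ℝ)) (b := T)).exists_bound_of_continuousOn
    hg.continuousOn
  refine Integrable.mono' (h2.norm.mul_const C) (hh.1.mul hg.aestronglyMeasurable) ?_
  filter_upwards [ae_restrict_mem measurableSet_Ioo] with t ht
  rw [norm_mul]
  exact mul_le_mul_of_nonneg_left (hC t (Ioo_subset_Icc_self ht)) (norm_nonneg _)

/-- The constant function `1` on `(0, L)`. -/
noncomputable def one1 (L : ℝ) : L2 := ZZ L (ζ := fun _ _ => 1) continuous_const 0

theorem one1_ae (L : ℝ) : ∀ᵐ x ∂volume.restrict (Ioo 0 L), one1 L x = 1 := by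
  filter_upwards [ae_restrict_of_ae (ZZ_ae (L := L) (ζ := fun _ _ => 1) continuous_const 0),
    ae_restrict_mem measurableSet_Ioo] with x hx hx'
  change ZZ L (ζ := fun _ _ => 1) continuous_const 0 x = 1
  rw [hx, indicator_of_mem hx']

theorem const_int {ζ : ℝ → ℝ → ℝ} (hζ : Continuous (Function.uncurry ζ)) (t : ℝ) :
    IntegrableOn (fun x => ζ t x) (Ioo 0 L) := by
  refine (int_x (L := L) hζ (one1 L) t).1.congr ?_
  filter_upwards [one1_ae L] with x hx
  rw [hx, one_mul]

theorem const_int_t {ζ : ℝ → ℝ → ℝ} (hζ : Continuous (Function.uncurry ζ)) {T : ℝ} :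
    IntegrableOn (fun t => ∫ x in Ioo 0 L, ζ t x) (Ioo 0 T) := by
  refine (int_t (L := L) hζ (T := T) (u := fun _ => one1 L) continuousOn_const).congr ?_
  refine Eventually.of_forall fun t => ?_
  refine integral_congr_ae ?_
  filter_upwards [one1_ae L] with x hx
  rw [hx, one_mul]

/-- Fundamental theorem of calculus on an open interval. -/
theorem ftc {g : ℝ → ℝ} (hg : ContDiff ℝ ∞ g) {a b : ℝ} (h : a ≤ b) :
    ∫ x in Ioo a b, deriv g x = g b - g a := by
  rw [← integral_Ioc_eq_integral_Ioo, ← intervalIntegral.integral_of_le h]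
  refine intervalIntegral.integral_deriv_eq_sub (fun x _ => (hg.differentiable (by simp)) x) ?_
  exact ((hg.continuous_deriv (by simp))).intervalIntegrable _ _

theorem fubini {ζ : ℝ → ℝ → ℝ} (hζ : Continuous (Function.uncurry ζ)) (L T : ℝ) :
    ∫ t in Ioo 0 T, ∫ x in Ioo 0 L, ζ t x = ∫ x in Ioo 0 L, ∫ t in Ioo 0 T, ζ t x := by
  refine integral_integral_swap ?_
  rw [Measure.prod_restrict]
  have h1 : IntegrableOn (Function.uncurry ζ) (Icc 0 T ×ˢ Icc 0 L) (volume.prod volume) :=
    hζ.continuousOn.integrableOn_compact (isCompact_Icc.prod isCompact_Icc)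
  exact h1.mono_set (prod_mono Ioo_subset_Icc_self Ioo_subset_Icc_self)

end CombAux

open CombAux

/-- The identity for constants. -/
theorem const_id {L T μ : ℝ} (hL : 0 < L) (hT : 0 < T) {φ : ℝ → ℝ → ℝ} (hφ : Test L T φ) :
    (∫ x in Ioo 0 L, φ T x) - ∫ x in Ioo 0 L, φ 0 x =
      (∫ t in Ioo 0 T, ∫ x in Ioo 0 L,
        (deriv (fun r => φ r x) t + μ * iteratedDeriv 3 (φ t) x)) +
      μ * ∫ t in Ioo 0 T, iteratedDeriv 2 (φ t) 0 := by
  have c0 := hφ.smooth.continuous
  have c1 := (smooth_dt hφ.smooth).continuous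
  have c3 := (smooth_iter hφ.smooth 3).continuous
  have h1 : ∀ t, ∫ x in Ioo 0 L, (deriv (fun r => φ r x) t + μ * iteratedDeriv 3 (φ t) x) =
      (∫ x in Ioo 0 L, deriv (fun r => φ r x) t) + μ * ∫ x in Ioo 0 L, iteratedDeriv 3 (φ t) x := by
    intro t
    rw [integral_add (const_int c1 t) ((const_int c3 t).const_mul μ), integral_const_mul]
  simp only [h1]
  rw [integral_add (const_int_t c1) ((const_int_t c3).const_mul μ), integral_const_mul,
    fubini c1]
  have h2 : ∫ x in Ioo 0 L, ∫ t in Ioo 0 T, deriv (fun r => φ r x) t =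
      (∫ x in Ioo 0 L, φ T x) - ∫ x in Ioo 0 L, φ 0 x := by
    rw [← integral_sub (const_int c0 T) (const_int c0 0)]
    refine integral_congr_ae (Eventually.of_forall fun x => ?_)
    exact ftc (smooth_left hφ.smooth x) hT.le
  have h3 : ∫ t in Ioo 0 T, ∫ x in Ioo 0 L, iteratedDeriv 3 (φ t) x =
      - ∫ t in Ioo 0 T, iteratedDeriv 2 (φ t) 0 := by
    rw [← integral_neg]
    refine setIntegral_congr_fun measurableSet_Ioo fun t ht => ?_
    have h4 : ∫ x in Ioo 0 L, iteratedDeriv 3 (φ t) x =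
        iteratedDeriv 2 (φ t) L - iteratedDeriv 2 (φ t) 0 := by
      rw [iteratedDeriv_succ]
      exact ftc (smooth_right (smooth_iter hφ.smooth 2) t) hL.le
    simp only [h4, hφ.right2 t (Ioo_subset_Icc_self ht), zero_sub]
  rw [h2, h3]
  ring

namespace CombAux

/-- The identity for a sum. -/
theorem combine0 {n : ℕ} {L T : ℝ} (α μ : Fin n → ℝ)
    {y : Fin n → L2} {u f : Fin n → ℝ → L2} {h0 h1 : Fin n → ℝ → ℝ} {h2 : Fin n → (ℝ → ℝ) → ℝ}
    (hu : ∀ j, ContinuousOn (u j) (Icc 0 T)) (hf : ∀ j, IntegrableOn (f j) (Ioc 0 T))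
    {φ : ℝ → ℝ → ℝ} (hφ : Test L T φ)
    (i0 : ∀ j, IntegrableOn (fun t => h0 j t * iteratedDeriv 2 (φ t) 0) (Ioo 0 T))
    (i1 : ∀ j, IntegrableOn (fun t => h1 j t * deriv (φ t) L) (Ioo 0 T))
    (hw : ∀ j, (∫ x in Ioo 0 L, u j T x * φ T x) - ∫ x in Ioo 0 L, y j x * φ 0 x =
      (∫ t in Ioo 0 T, ∫ x in Ioo 0 L, (u j t x *
        (deriv (fun r => φ r x) t + μ j * iteratedDeriv 3 (φ t) x) + f j t x * φ t x)) -
      μ j * h2 j (fun t => φ t L) +
      μ j * (∫ t in Ioo 0 T, h1 j t * deriv (φ t) L) +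
      μ j * ∫ t in Ioo 0 T, h0 j t * iteratedDeriv 2 (φ t) 0) :
    (∫ x in Ioo 0 L, (∑ j, α j * u j T x) * φ T x) -
        ∫ x in Ioo 0 L, (∑ j, α j * y j x) * φ 0 x =
      (∫ t in Ioo 0 T, ∫ x in Ioo 0 L,
        ((∑ j, α j * u j t x) * deriv (fun r => φ r x) t +
          (∑ j, α j * μ j * u j t x) * iteratedDeriv 3 (φ t) x +
          (∑ j, α j * f j t x) * φ t x)) -
      (∑ j, α j * μ j * h2 j (fun t => φ t L)) +
      (∫ t in Ioo 0 T, (∑ j, α j * μ j * h1 j t) * deriv (φ t) L) +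
      ∫ t in Ioo 0 T, (∑ j, α j * μ j * h0 j t) * iteratedDeriv 2 (φ t) 0 := by
  have c0 := hφ.smooth.continuous
  have c1 := (smooth_dt hφ.smooth).continuous
  have c3 := (smooth_iter hφ.smooth 3).continuous
  have c4 : ∀ j, Continuous (Function.uncurry fun t x =>
      deriv (fun r => φ r x) t + μ j * iteratedDeriv 3 (φ t) x) := by
    intro j
    exact c1.add (continuous_const.mul c3)
  -- left side
  have e1 : ∀ (w : Fin n → L2) (t : ℝ), ∫ x in Ioo 0 L, (∑ j, α j * w j x) * φ t x =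
      ∑ j, α j * ∫ x in Ioo 0 L, w j x * φ t x := by
    intro w t
    simp only [← integral_const_mul]
    rw [← integral_finsetSum _ fun j _ => ((int_x c0 (w j) t).1.const_mul (α j))]
    refine integral_congr_ae (Eventually.of_forall fun x => ?_)
    simp only [Finset.sum_mul, mul_assoc]
  -- the double integral
  have e2 : ∫ t in Ioo 0 T, ∫ x in Ioo 0 L,
        ((∑ j, α j * u j t x) * deriv (fun r => φ r x) t +
          (∑ j, α j * μ j * u j t x) * iteratedDeriv 3 (φ t) x +
          (∑ j, α j * f j t x) * φ t x) =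
      ∑ j, α j * ∫ t in Ioo 0 T, ∫ x in Ioo 0 L, (u j t x *
        (deriv (fun r => φ r x) t + μ j * iteratedDeriv 3 (φ t) x) + f j t x * φ t x) := by
    have hx : ∀ j t, IntegrableOn (fun x => u j t x *
        (deriv (fun r => φ r x) t + μ j * iteratedDeriv 3 (φ t) x) + f j t x * φ t x)
          (Ioo 0 L) := fun j t => (int_x (c4 j) (u j t) t).1.add (int_x c0 (f j t) t).1
    have ht : ∀ j, IntegrableOn (fun t => ∫ x in Ioo 0 L, (u j t x *
        (deriv (fun r => φ r x) t + μ j * iteratedDeriv 3 (φ t) x) + f j t x * φ t x))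
          (Ioo 0 T) := by
      intro j
      refine ((int_t (L := L) (c4 j) (hu j)).add (int_f (L := L) c0 (hf j))).congr ?_
      refine Eventually.of_forall fun t => ?_
      exact (integral_add (int_x (c4 j) (u j t) t).1 (int_x c0 (f j t) t).1).symm
    have e3 : ∀ t, ∫ x in Ioo 0 L,
        ((∑ j, α j * u j t x) * deriv (fun r => φ r x) t +
          (∑ j, α j * μ j * u j t x) * iteratedDeriv 3 (φ t) x +
          (∑ j, α j * f j t x) * φ t x) =
        ∑ j, α j * ∫ x in Ioo 0 L, (u j t x *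
          (deriv (fun r => φ r x) t + μ j * iteratedDeriv 3 (φ t) x) + f j t x * φ t x) := by
      intro t
      simp only [← integral_const_mul]
      rw [← integral_finsetSum _ fun j _ => ((hx j t).const_mul (α j))]
      refine integral_congr_ae (Eventually.of_forall fun x => ?_)
      simp only [Finset.sum_mul, ← Finset.sum_add_distrib]
      exact Finset.sum_congr rfl fun j _ => by ring
    simp only [e3]
    rw [integral_finsetSum _ fun j _ => ((ht j).const_mul (α j))]
    simp only [integral_const_mul]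
  have e4 : ∫ t in Ioo 0 T, (∑ j, α j * μ j * h1 j t) * deriv (φ t) L =
      ∑ j, α j * (μ j * ∫ t in Ioo 0 T, h1 j t * deriv (φ t) L) := by
    simp only [← integral_const_mul]
    rw [← integral_finsetSum _ fun j _ => (((i1 j).const_mul (μ j)).const_mul (α j))]
    refine integral_congr_ae (Eventually.of_forall fun t => ?_)
    simp only [Finset.sum_mul, mul_assoc]
  have e5 : ∫ t in Ioo 0 T, (∑ j, α j * μ j * h0 j t) * iteratedDeriv 2 (φ t) 0 =
      ∑ j, α j * (μ j * ∫ t in Ioo 0 T, h0 j t * iteratedDeriv 2 (φ t) 0) := by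
    simp only [← integral_const_mul]
    rw [← integral_finsetSum _ fun j _ => (((i0 j).const_mul (μ j)).const_mul (α j))]
    refine integral_congr_ae (Eventually.of_forall fun t => ?_)
    simp only [Finset.sum_mul, mul_assoc]
  rw [e1 (fun j => u j T) T, e1 y 0, e2, e4, e5, ← Finset.sum_sub_distrib, ← Finset.sum_sub_distrib,
    ← Finset.sum_add_distrib, ← Finset.sum_add_distrib]
  refine Finset.sum_congr rfl fun j _ => ?_
  rw [← mul_sub, hw j]
  ring

end CombAux

/-- Linear combinations. -/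
theorem combine {n : ℕ} {L T : ℝ} (hL : 0 < L) (hT : 0 < T) (α μ m : Fin n → ℝ)
    {y : Fin n → L2} {u f : Fin n → ℝ → L2} {h0 h1 : Fin n → ℝ → ℝ} {h2 : Fin n → (ℝ → ℝ) → ℝ}
    (hu : ∀ j, ContinuousOn (u j) (Icc 0 T)) (hf : ∀ j, IntegrableOn (f j) (Ioc 0 T))
    (i0 : ∀ j, InL2 T (h0 j)) (i1 : ∀ j, InL2 T (h1 j))
    (hw : ∀ j, WeakId L (μ j) T (y j) (u j) (f j) (h0 j) (h1 j) (h2 j))
    {φ : ℝ → ℝ → ℝ} (hφ : Test L T φ) :
    (∫ x in Ioo 0 L, (∑ j, α j * (m j + u j T x)) * φ T x) -
        ∫ x in Ioo 0 L, (∑ j, α j * (m j + y j x)) * φ 0 x =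
      (∫ t in Ioo 0 T, ∫ x in Ioo 0 L,
        ((∑ j, α j * (m j + u j t x)) * deriv (fun r => φ r x) t +
          (∑ j, α j * μ j * (m j + u j t x)) * iteratedDeriv 3 (φ t) x +
          (∑ j, α j * f j t x) * φ t x)) -
      (∑ j, α j * μ j * h2 j (fun t => φ t L)) +
      (∫ t in Ioo 0 T, (∑ j, α j * μ j * h1 j t) * deriv (φ t) L) +
      ∫ t in Ioo 0 T, (∑ j, α j * μ j * (m j + h0 j t)) * iteratedDeriv 2 (φ t) 0 := by
  have c0 := hφ.smooth.continuous
  have c1 := (smooth_dt hφ.smooth).continuous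
  have c3 := (smooth_iter hφ.smooth 3).continuous
  have c4 : ∀ j, Continuous (Function.uncurry fun t x =>
      deriv (fun r => φ r x) t + μ j * iteratedDeriv 3 (φ t) x) := by
    intro j
    exact c1.add (continuous_const.mul c3)
  -- shifted functions
  have hae : ∀ (w : L2) (j : Fin n), ∀ᵐ x ∂volume.restrict (Ioo 0 L),
      (w + m j • one1 L) x = m j + w x := by
    intro w j
    filter_upwards [one1_ae L, ae_restrict_of_ae (Lp.coeFn_add w (m j • one1 L)),
      ae_restrict_of_ae (Lp.coeFn_smul (m j) (one1 L))] with x a1 a2 a3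
    rw [a2, Pi.add_apply, a3, Pi.smul_apply, a1, smul_eq_mul, mul_one, add_comm]
  have hall : ∀ (w : Fin n → L2), ∀ᵐ x ∂volume.restrict (Ioo 0 L),
      ∀ j, (w j + m j • one1 L) x = m j + w j x := by
    intro w
    rw [ae_all_iff]
    exact fun j => hae (w j) j
  have j0 : ∀ j, IntegrableOn (fun t => (m j + h0 j t) * iteratedDeriv 2 (φ t) 0) (Ioo 0 T) := by
    intro j
    have g0 : Continuous fun t => iteratedDeriv 2 (φ t) 0 :=
      (smooth_left (smooth_iter hφ.smooth 2) 0).continuous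
    have g1 : IntegrableOn (fun t => m j * iteratedDeriv 2 (φ t) 0) (Ioo 0 T) :=
      (continuous_const.mul g0).integrableOn_Icc.mono_set Ioo_subset_Icc_self
    refine (g1.add (int_h (i0 j) g0)).congr (Eventually.of_forall fun t => ?_)
    simp only [Pi.add_apply]
    ring
  have j1 : ∀ j, IntegrableOn (fun t => h1 j t * deriv (φ t) L) (Ioo 0 T) := fun j =>
    int_h (i1 j) (smooth_left (smooth_dx hφ.smooth) L).continuous
  have key := combine0 (L := L) (T := T) α μ (y := fun j => y j + m j • one1 L)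
    (u := fun j t => u j t + m j • one1 L) (f := f) (h0 := fun j t => m j + h0 j t) (h1 := h1)
    (h2 := h2) (fun j => (hu j).add continuousOn_const) hf hφ j0 j1 (by
      intro j
      have k1 := hw j φ hφ
      have k2 := const_id (μ := μ j) hL hT hφ
      have s1 : ∀ (w : L2) (t : ℝ), ∫ x in Ioo 0 L, (w + m j • one1 L) x * φ t x =
          (∫ x in Ioo 0 L, w x * φ t x) + m j * ∫ x in Ioo 0 L, φ t x := by
        intro w t
        rw [← integral_const_mul, ← integral_add (int_x c0 w t).1 ((const_int c0 t).const_mul _)]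
        refine integral_congr_ae ?_
        filter_upwards [hae w j] with x hx
        rw [hx]
        ring
      have s2 : ∫ t in Ioo 0 T, ∫ x in Ioo 0 L, ((u j t + m j • one1 L) x *
          (deriv (fun r => φ r x) t + μ j * iteratedDeriv 3 (φ t) x) + f j t x * φ t x) =
          (∫ t in Ioo 0 T, ∫ x in Ioo 0 L, (u j t x *
            (deriv (fun r => φ r x) t + μ j * iteratedDeriv 3 (φ t) x) + f j t x * φ t x)) +
          m j * ∫ t in Ioo 0 T, ∫ x in Ioo 0 L,
            (deriv (fun r => φ r x) t + μ j * iteratedDeriv 3 (φ t) x) := by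
        rw [← integral_const_mul, ← integral_add ?_ ((const_int_t (L := L) (c4 j)).const_mul _)]
        · refine integral_congr_ae (Eventually.of_forall fun t => ?_)
          have q1 : Integrable (fun x => u j t x *
              (deriv (fun r => φ r x) t + μ j * iteratedDeriv 3 (φ t) x) + f j t x * φ t x)
                (volume.restrict (Ioo 0 L)) :=
            (int_x (c4 j) (u j t) t).1.add (int_x c0 (f j t) t).1
          have q2 : Integrable (fun x => m j * (deriv (fun r => φ r x) t +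
              μ j * iteratedDeriv 3 (φ t) x)) (volume.restrict (Ioo 0 L)) :=
            (const_int (c4 j) t).const_mul _
          simp only
          rw [← integral_const_mul, ← integral_add q1 q2]
          refine integral_congr_ae ?_
          filter_upwards [hae (u j t) j] with x hx
          rw [hx]
          ring
        · refine ((int_t (L := L) (c4 j) (hu j)).add (int_f (L := L) c0 (hf j))).congr ?_
          refine Eventually.of_forall fun t => ?_
          exact (integral_add (int_x (c4 j) (u j t) t).1 (int_x c0 (f j t) t).1).symm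
      have s3 : ∫ t in Ioo 0 T, (m j + h0 j t) * iteratedDeriv 2 (φ t) 0 =
          m j * (∫ t in Ioo 0 T, iteratedDeriv 2 (φ t) 0) +
            ∫ t in Ioo 0 T, h0 j t * iteratedDeriv 2 (φ t) 0 := by
        have g0 : Continuous fun t => iteratedDeriv 2 (φ t) 0 :=
          (smooth_left (smooth_iter hφ.smooth 2) 0).continuous
        have q2 : IntegrableOn (fun t => m j * iteratedDeriv 2 (φ t) 0) (Ioo 0 T) :=
          (continuous_const.mul g0).integrableOn_Icc.mono_set Ioo_subset_Icc_self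
        rw [← integral_const_mul, ← integral_add q2 (int_h (i0 j) g0)]
        refine integral_congr_ae (Eventually.of_forall fun t => ?_)
        simp only
        ring
      rw [s1, s1, s2, s3]
      linear_combination k1 + m j * k2)
  have r1 : ∫ x in Ioo 0 L, (∑ j, α j * (m j + u j T x)) * φ T x =
      ∫ x in Ioo 0 L, (∑ j, α j * (u j T + m j • one1 L) x) * φ T x := by
    refine integral_congr_ae ?_
    filter_upwards [hall (fun j => u j T)] with x hx
    simp only [hx]
  have r2 : ∫ x in Ioo 0 L, (∑ j, α j * (m j + y j x)) * φ 0 x =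
      ∫ x in Ioo 0 L, (∑ j, α j * (y j + m j • one1 L) x) * φ 0 x := by
    refine integral_congr_ae ?_
    filter_upwards [hall y] with x hx
    simp only [hx]
  have r3 : ∫ t in Ioo 0 T, ∫ x in Ioo 0 L,
        ((∑ j, α j * (m j + u j t x)) * deriv (fun r => φ r x) t +
          (∑ j, α j * μ j * (m j + u j t x)) * iteratedDeriv 3 (φ t) x +
          (∑ j, α j * f j t x) * φ t x) =
      ∫ t in Ioo 0 T, ∫ x in Ioo 0 L,
        ((∑ j, α j * (u j t + m j • one1 L) x) * deriv (fun r => φ r x) t +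
          (∑ j, α j * μ j * (u j t + m j • one1 L) x) * iteratedDeriv 3 (φ t) x +
          (∑ j, α j * f j t x) * φ t x) := by
    refine integral_congr_ae (Eventually.of_forall fun t => ?_)
    refine integral_congr_ae ?_
    filter_upwards [hall (fun j => u j t)] with x hx
    simp only [hx]
  rw [r1, r2, r3]
  exact key

end Pool.Agent.Kdv
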