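import Pool.Agent.Lib.MP_78c35a_an.Sob

/-!
# The Gear–Grimshaw system on an interval and its exact controllability
-/

set_option autoImplicit false

namespace Pool.Agent.Kdv

open MeasureTheory Filter Topology Set
open scoped ENNReal ContDiff

/-- `L²(0, L)`. -/
abbrev I2 (L : ℝ) : Type := Lp ℝ 2 ((volume : Measure ℝ).restrict (Ioo 0 L))

/-- `(u, v)`, with the space derivatives `ux, vx`, is a solution on `(0, T) × (0, L)` of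
`u_t + u_xxx + a v_xxx + u u_x + a1 v v_x + a2 (u v)_x = 0`,
`c v_t + v_xxx + a b u_xxx + r v_x + v v_x + a2 b u u_x + a1 b (u v)_x = 0`,
in `C([0, T]; L²) ∩ L²(0, T; H¹)`, with the boundary values `u = h0`, `v = g0` at `x = 0` and
`u_x = h1`, `v_x = g1`, `u_xx = h2`, `v_xx = g2` at `x = L`. -/
structure IsSol (L T a a1 a2 b c r : ℝ) (h0 g0 h1 g1 : ℝ → ℝ) (h2 g2 : (ℝ → ℝ) → ℝ)
    (u v : ℝ → I2 L) (ux vx : ℝ → ℝ → ℝ) : Prop where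
  cont_u : ContinuousOn u (Icc 0 T)
  cont_v : ContinuousOn v (Icc 0 T)
  meas_ux : Measurable (Function.uncurry ux)
  meas_vx : Measurable (Function.uncurry vx)
  int_ux : ∫⁻ t in Ioo 0 T, ∫⁻ x in Ioo 0 L, ‖ux t x‖ₑ ^ 2 < ⊤
  int_vx : ∫⁻ t in Ioo 0 T, ∫⁻ x in Ioo 0 L, ‖vx t x‖ₑ ^ 2 < ⊤
  deriv_u : ∀ᵐ t ∂volume.restrict (Ioo 0 T), ∀ᵐ x ∂volume.restrict (Ioo 0 L),
    u t x = h0 t + ∫ s in (0 : ℝ)..x, ux t s
  deriv_v : ∀ᵐ t ∂volume.restrict (Ioo 0 T), ∀ᵐ x ∂volume.restrict (Ioo 0 L),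
    v t x = g0 t + ∫ s in (0 : ℝ)..x, vx t s
  eq_u : ∀ φ : ℝ → ℝ → ℝ, Test L T φ →
    (∫ x in Ioo 0 L, u T x * φ T x) - ∫ x in Ioo 0 L, u 0 x * φ 0 x =
      (∫ t in Ioo 0 T, ∫ x in Ioo 0 L,
        (u t x * deriv (fun s => φ s x) t +
          (u t x + a * v t x) * iteratedDeriv 3 (φ t) x -
          (u t x * ux t x + a1 * (v t x * vx t x) + a2 * (ux t x * v t x + u t x * vx t x)) *
            φ t x)) -
      (h2 (fun t => φ t L) + a * g2 (fun t => φ t L)) +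
      (∫ t in Ioo 0 T, (h1 t + a * g1 t) * deriv (φ t) L) +
      ∫ t in Ioo 0 T, (h0 t + a * g0 t) * iteratedDeriv 2 (φ t) 0
  eq_v : ∀ φ : ℝ → ℝ → ℝ, Test L T φ →
    c * ((∫ x in Ioo 0 L, v T x * φ T x) - ∫ x in Ioo 0 L, v 0 x * φ 0 x) =
      (∫ t in Ioo 0 T, ∫ x in Ioo 0 L,
        (c * v t x * deriv (fun s => φ s x) t +
          (v t x + a * b * u t x) * iteratedDeriv 3 (φ t) x -
          (r * vx t x + v t x * vx t x + a2 * b * (u t x * ux t x) +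
            a1 * b * (ux t x * v t x + u t x * vx t x)) * φ t x)) -
      (g2 (fun t => φ t L) + a * b * h2 (fun t => φ t L)) +
      (∫ t in Ioo 0 T, (g1 t + a * b * h1 t) * deriv (φ t) L) +
      ∫ t in Ioo 0 T, (g0 t + a * b * h0 t) * iteratedDeriv 2 (φ t) 0

/-- Exact controllability in time `T`, for arbitrary states. -/
def ExactlyControllable (L a a1 a2 b c r T : ℝ) : Prop :=
  ∀ u0 v0 uT vT : I2 L, ∃ (h0 g0 h1 g1 : ℝ → ℝ) (h2 g2 : (ℝ → ℝ) → ℝ),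
    InH13 T h0 ∧ InH13 T g0 ∧ InL2 T h1 ∧ InL2 T g1 ∧ InHm13 T h2 ∧ InHm13 T g2 ∧
    ∃ (u v : ℝ → I2 L) (ux vx : ℝ → ℝ → ℝ),
      IsSol L T a a1 a2 b c r h0 g0 h1 g1 h2 g2 u v ux vx ∧
      u 0 = u0 ∧ v 0 = v0 ∧ u T = uT ∧ v T = vT

end Pool.Agent.Kdv
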