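import Mathlib

/-!
# Coupled KdV equations: the setting on the line
-/

set_option autoImplicit false

namespace Pool.Agent.Kdv

open MeasureTheory Filter Topology Set
open scoped SchwartzMap FourierTransform ENNReal

/-- Real `L²` functions on the line. -/
abbrev L2 : Type := Lp ℝ 2 (volume : Measure ℝ)

/-- The function `F` as an element of `L²` (zero if it is not square integrable). -/
noncomputable def toL2 (F : ℝ → ℝ) : L2 := by
  classical exact if h : MemLp F 2 volume then h.toLp F else 0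

/-- The interval on which derivatives are considered; it contains `[0, L]`. -/
def J (L : ℝ) : Set ℝ := Ioo (-1) (L + 1)

/-- `g` is the real function with the complex Schwartz function `G`. -/
def IsNice (G : 𝓢(ℝ, ℂ)) (g : ℝ → ℝ) : Prop := ∀ x, G x = (g x : ℂ)

/-- The `k`-th space derivative at `x` of the solution at time `c` of `z_t + z_xxx = 0` with
initial value `G`. -/
noncomputable def aw (G : 𝓢(ℝ, ℂ)) (k : ℕ) (c x : ℝ) : ℂ :=
  ∫ ξ : ℝ, (2 * Real.pi * Complex.I * ξ) ^ k *
    Complex.exp (2 * Real.pi * Complex.I * x * ξ + 8 * Real.pi ^ 3 * Complex.I * c * ξ ^ 3) *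
      𝓕 (fun y => G y) ξ

/-- Reflection `x ↦ L - x`. -/
noncomputable def refl (L : ℝ) : L2 →ₗᵢ[ℝ] L2 :=
  Lp.compMeasurePreservingₗᵢ ℝ (fun x => L - x) (Measure.measurePreserving_sub_left volume L)

lemma L2.intervalIntegrable (r : L2) (a b : ℝ) : IntervalIntegrable r volume a b :=
  (((Lp.memLp r).locallyIntegrable one_le_two).integrableOn_isCompact isCompact_uIcc
    ).intervalIntegrable

/-- Pairs `(u, v)` of `L²` functions with `v = u_x` on `J L` and `v = 0` outside `J L`. -/
def V1sub (L : ℝ) : Submodule ℝ (L2 × L2) where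
  carrier := {p | (∀ᵐ x ∂volume, x ∉ J L → p.2 x = 0) ∧
    ∃ c : ℝ, ∀ᵐ x ∂volume, x ∈ J L → p.1 x = c + ∫ s in (-1)..x, p.2 s}
  add_mem' := by
    rintro p q ⟨hp1, c, hp2⟩ ⟨hq1, d, hq2⟩
    have h1 := Lp.coeFn_add p.1 q.1
    have h2 := Lp.coeFn_add p.2 q.2
    refine ⟨?_, c + d, ?_⟩
    · filter_upwards [hp1, hq1, h2] with x a1 a2 a3 hx
      have : (p + q).2 x = p.2 x + q.2 x := a3
      rw [this, a1 hx, a2 hx, add_zero]
    · filter_upwards [hp2, hq2, h1] with x a1 a2 a3 hx
      have : (p + q).1 x = p.1 x + q.1 x := a3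
      rw [this, a1 hx, a2 hx]
      have : (∫ s in (-1)..x, (p + q).2 s) = ∫ s in (-1)..x, (p.2 s + q.2 s) :=
        intervalIntegral.integral_congr_ae (by filter_upwards [h2] with s hs _ using hs)
      rw [this, intervalIntegral.integral_add (p.2.intervalIntegrable _ _)
        (q.2.intervalIntegrable _ _)]
      ring
  zero_mem' := by
    refine ⟨?_, 0, ?_⟩
    · filter_upwards [Lp.coeFn_zero ℝ 2 (volume : Measure ℝ)] with x hx _ using hx
    · filter_upwards [Lp.coeFn_zero ℝ 2 (volume : Measure ℝ)] with x hx _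
      have h0 : (∫ s in (-1)..x, (0 : L2 × L2).2 s) = ∫ s in (-1)..x, (0 : ℝ) :=
        intervalIntegral.integral_congr_ae
          (by filter_upwards [Lp.coeFn_zero ℝ 2 (volume : Measure ℝ)] with s hs _ using hs)
      rw [h0]
      simp
  smul_mem' := by
    rintro r p ⟨hp1, c, hp2⟩
    have h1 := Lp.coeFn_smul r p.1
    have h2 := Lp.coeFn_smul r p.2
    refine ⟨?_, r * c, ?_⟩
    · filter_upwards [hp1, h2] with x a1 a3 hx
      have : (r • p).2 x = r * p.2 x := a3
      rw [this, a1 hx, mul_zero]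
    · filter_upwards [hp2, h1] with x a1 a3 hx
      have : (r • p).1 x = r * p.1 x := a3
      rw [this, a1 hx]
      have : (∫ s in (-1)..x, (r • p).2 s) = ∫ s in (-1)..x, r * p.2 s :=
        intervalIntegral.integral_congr_ae (by filter_upwards [h2] with s hs _ using hs)
      rw [this, intervalIntegral.integral_const_mul]
      ring

/-- `L²` functions with a square integrable derivative on `J L`. -/
abbrev V1 (L : ℝ) : Type := V1sub L

/-- The function of an element of `V1 L`. -/
noncomputable def V1.u (L : ℝ) : V1 L →L[ℝ] L2 :=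
  (ContinuousLinearMap.fst ℝ L2 L2).comp (V1sub L).subtypeL

/-- The derivative of an element of `V1 L`. -/
noncomputable def V1.d (L : ℝ) : V1 L →L[ℝ] L2 :=
  (ContinuousLinearMap.snd ℝ L2 L2).comp (V1sub L).subtypeL

/-- The continuous representative on `J L`. -/
noncomputable def V1.val {L : ℝ} (p : V1 L) (x : ℝ) : ℝ :=
  Classical.choose p.2.2 + ∫ s in (-1)..x, V1.d L p s

/-- States: `n` components in `L²`, with the Hilbert norm. -/
abbrev HH (n : ℕ) : Type := PiLp 2 (fun _ : Fin n => L2)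

/-- States with a derivative on `J L`. -/
abbrev VV (n : ℕ) (L : ℝ) : Type := Fin n → V1 L

/-- A map into `HH n` from its components. -/
noncomputable def mkH {n : ℕ} {X : Type} [NormedAddCommGroup X] [NormedSpace ℝ X]
    (B : Fin n → X →L[ℝ] L2) : X →L[ℝ] HH n :=
  ((PiLp.continuousLinearEquiv 2 ℝ (fun _ : Fin n => L2)).symm : (Fin n → L2) →L[ℝ] HH n).comp
    (ContinuousLinearMap.pi B)

@[simp] lemma mkH_apply {n : ℕ} {X : Type} [NormedAddCommGroup X] [NormedSpace ℝ X]
    (B : Fin n → X →L[ℝ] L2) (x : X) (j : Fin n) : mkH B x j = B j x := rfl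

/-- The components. -/
noncomputable def prH {n : ℕ} (j : Fin n) : HH n →L[ℝ] L2 :=
  (ContinuousLinearMap.proj j).comp
    ((PiLp.continuousLinearEquiv 2 ℝ (fun _ : Fin n => L2)) : HH n →L[ℝ] (Fin n → L2))

@[simp] lemma prH_apply {n : ℕ} (j : Fin n) (y : HH n) : prH j y = y j := rfl

/-- The components of an element of `VV n L`. -/
noncomputable def uu {n : ℕ} {L : ℝ} (j : Fin n) : VV n L →L[ℝ] L2 :=
  (V1.u L).comp (ContinuousLinearMap.proj j)

/-- The derivatives of the components of an element of `VV n L`. -/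
noncomputable def dd {n : ℕ} {L : ℝ} (j : Fin n) : VV n L →L[ℝ] L2 :=
  (V1.d L).comp (ContinuousLinearMap.proj j)

/-- The state of an element of `VV n L`. -/
noncomputable def inc (n : ℕ) (L : ℝ) : VV n L →L[ℝ] HH n := mkH uu

@[simp] lemma inc_apply {n : ℕ} {L : ℝ} (p : VV n L) (j : Fin n) : inc n L p j = uu j p := rfl

lemma memLp_mul {m : ℝ → ℝ} (h : Measurable m ∧ ∃ C, ∀ x, |m x| ≤ C) (f : L2) :
    MemLp (fun x => m x * f x) 2 volume :=
  MemLp.of_le_mul (c := h.2.choose) (Lp.memLp f)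
    (h.1.aestronglyMeasurable.mul (Lp.memLp f).1) (Eventually.of_forall fun x => by
      rw [norm_mul]
      exact mul_le_mul_of_nonneg_right (h.2.choose_spec x) (norm_nonneg _))

/-- Multiplication by a bounded measurable function. -/
noncomputable def mulLin {m : ℝ → ℝ} (h : Measurable m ∧ ∃ C, ∀ x, |m x| ≤ C) : L2 →ₗ[ℝ] L2 where
  toFun f := (memLp_mul h f).toLp _
  map_add' f g := by
    rw [← MemLp.toLp_add]
    apply MemLp.toLp_congr
    filter_upwards [Lp.coeFn_add f g] with x hx
    simp only [Pi.add_apply] at hx ⊢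
    rw [hx, mul_add]
  map_smul' r f := by
    rw [RingHom.id_apply, ← MemLp.toLp_const_smul]
    apply MemLp.toLp_congr
    filter_upwards [Lp.coeFn_smul r f] with x hx
    simp only [Pi.smul_apply, smul_eq_mul] at hx ⊢
    rw [hx]
    ring

lemma mulLin_ae {m : ℝ → ℝ} (h : Measurable m ∧ ∃ C, ∀ x, |m x| ≤ C) (f : L2) :
    ∀ᵐ x ∂volume, mulLin h f x = m x * f x :=
  MemLp.coeFn_toLp (memLp_mul h f)

open Classical in
/-- Multiplication by the function `m` (zero if `m` is not bounded and measurable). -/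
noncomputable def mulOp (m : ℝ → ℝ) : L2 →L[ℝ] L2 :=
  if h : Measurable m ∧ ∃ C, ∀ x, |m x| ≤ C then
    (mulLin h).mkContinuousOfExistsBound ⟨h.2.choose, fun f => by
        refine Lp.norm_le_mul_norm_of_ae_le_mul ?_
        filter_upwards [mulLin_ae h f] with x hx
        rw [hx, norm_mul]
        exact mul_le_mul_of_nonneg_right (h.2.choose_spec x) (norm_nonneg _)⟩
  else 0

lemma mulOp_ae {m : ℝ → ℝ} (hm : Measurable m) (hb : ∃ C, ∀ x, |m x| ≤ C) (f : L2) :
    ∀ᵐ x ∂volume, mulOp m f x = m x * f x := by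
  have h : Measurable m ∧ ∃ C, ∀ x, |m x| ≤ C := ⟨hm, hb⟩
  unfold mulOp
  rw [dif_pos h]
  exact mulLin_ae h f

/-- The cutoff function: `1` on `[0, L]`, linear on `[-1, 0]` and `[L, L + 1]`, `0` outside. -/
noncomputable def chi (L x : ℝ) : ℝ := max 0 (min 1 (min (1 + x) (L + 1 - x)))

/-- Its derivative. -/
noncomputable def dchi (L x : ℝ) : ℝ :=
  (Ioo (-1 : ℝ) 0).indicator 1 x - (Ioo L (L + 1)).indicator 1 x

/-- The indicator function of the controlled region. -/
noncomputable def one (L x : ℝ) : ℝ := (Ioo (0 : ℝ) L).indicator 1 x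

/-- The projection onto the controlled region. -/
noncomputable def PP (n : ℕ) (L : ℝ) : HH n →L[ℝ] HH n :=
  mkH fun j => (mulOp (one L)).comp (prH j)

/-- Reflection of states. -/
noncomputable def rho (n : ℕ) (L : ℝ) : HH n →L[ℝ] HH n :=
  mkH fun j => (refl L).toContinuousLinearMap.comp (prH j)

/-- The linear part of the nonlinear term: minus `chi S u_x + chi' S u / 2`. -/
noncomputable def lmap (n : ℕ) (L : ℝ) (S : Fin n → Fin n → ℝ) : VV n L →L[ℝ] HH n :=
  mkH fun j => -∑ k, S j k • ((mulOp (chi L)).comp (dd k) +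
    (1 / 2 : ℝ) • (mulOp (dchi L)).comp (uu k))

/-- The quadratic part: minus `∑ g_jkl (chi u_k (u_l)_x + chi' u_k u_l / 3)`. -/
noncomputable def qmap (n : ℕ) (L : ℝ) (g : Fin n → Fin n → Fin n → ℝ) (p : VV n L) : HH n :=
  WithLp.toLp 2 fun j => toL2 fun x =>
    -∑ k, ∑ l, g j k l * (chi L x * uu k p x * dd l p x + (1 / 3) * dchi L x * uu k p x * uu l p x)

end Pool.Agent.Kdv
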