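import Pool.Agent.Lib.MP_78c35a_an.Glob

/-!
# Decay of the damped flow
-/

set_option autoImplicit false

namespace Pool.Agent.Kdv

open MeasureTheory Filter Topology Set
open scoped ENNReal InnerProductSpace

variable {H V : Type} [NormedAddCommGroup H] [InnerProductSpace ℝ H]
  [NormedAddCommGroup V] [NormedSpace ℝ V]

/-- The damped nonlinear term. -/
private noncomputable def nd (S : Sys H V) (k : ℝ) (p : V) : H :=
  S.l p + S.q p - k • (S.inc p - S.P (S.inc p))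

private lemma inner_Q (S : Sys H V) (x : H) : inner ℝ (x - S.P x) x = ‖x - S.P x‖ ^ 2 := by
  have h : inner ℝ (x - S.P x) (S.P x) = 0 := by
    rw [← S.P_symm, map_sub, S.P_P, sub_self, inner_zero_left]
  calc inner ℝ (x - S.P x) x
      = inner ℝ (x - S.P x) (x - S.P x) + inner ℝ (x - S.P x) (S.P x) := by
        rw [← inner_add_right, sub_add_cancel]
    _ = ‖x - S.P x‖ ^ 2 := by rw [h, add_zero, real_inner_self_eq_norm_sq]

private lemma norm_split (S : Sys H V) (x : H) :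
    ‖x‖ ^ 2 = ‖S.P x‖ ^ 2 + ‖x - S.P x‖ ^ 2 := by
  have h : inner ℝ (x - S.P x) (S.P x) = 0 := by
    rw [← S.P_symm, map_sub, S.P_P, sub_self, inner_zero_left]
  have h2 : x = (x - S.P x) + S.P x := by rw [sub_add_cancel]
  have h3 := @norm_add_sq_real H _ _ (x - S.P x) (S.P x)
  rw [← h2, h] at h3
  linarith

private lemma nd_inner (S : Sys H V) (k : ℝ) (p : V) :
    inner ℝ (nd S k p) (S.inc p) = -k * ‖S.inc p - S.P (S.inc p)‖ ^ 2 := by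
  unfold nd
  rw [inner_sub_left, inner_add_left, S.l_skew, S.q_skew, inner_smul_left, inner_Q]
  simp

private lemma nd_zero (S : Sys H V) (k : ℝ) : nd S k 0 = 0 := by
  unfold nd
  rw [map_zero, S.q_zero, map_zero, map_zero, sub_zero, smul_zero, add_zero, sub_zero]

private lemma nd_quad (S : Sys H V) {k : ℝ} (hk : 0 ≤ k) :
    S.toSm.Quad (nd S k) (‖S.l‖ + k * ((1 + ‖S.P‖) * ‖S.inc‖) + S.K) := by
  intro a b
  have h1 := S.q_quad a b
  set A : ℝ := ‖a - b‖ * (1 + √(‖S.inc a‖ * ‖a‖) + √(‖S.inc b‖ * ‖b‖)) +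
      √(‖S.inc (a - b)‖ * ‖a - b‖) * (‖a‖ + ‖b‖) with hA
  have hA1 : ‖a - b‖ ≤ A := by
    have h2 : 0 ≤ ‖a - b‖ * (√(‖S.inc a‖ * ‖a‖) + √(‖S.inc b‖ * ‖b‖)) := by positivity
    have h3 : 0 ≤ √(‖S.inc (a - b)‖ * ‖a - b‖) * (‖a‖ + ‖b‖) := by positivity
    rw [hA]
    nlinarith
  have e : nd S k a - nd S k b = S.l (a - b) + (S.q a - S.q b) -
      k • (S.inc (a - b) - S.P (S.inc (a - b))) := by
    unfold nd
    rw [map_sub, map_sub, map_sub, smul_sub, smul_sub, smul_sub, smul_sub, smul_sub]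
    abel
  have h4 : ‖S.l (a - b)‖ ≤ ‖S.l‖ * ‖a - b‖ := S.l.le_opNorm _
  have h5 : ‖S.inc (a - b)‖ ≤ ‖S.inc‖ * ‖a - b‖ := S.inc.le_opNorm _
  have h6 : ‖S.P (S.inc (a - b))‖ ≤ ‖S.P‖ * ‖S.inc (a - b)‖ := S.P.le_opNorm _
  have h7 : ‖S.inc (a - b) - S.P (S.inc (a - b))‖ ≤ (1 + ‖S.P‖) * (‖S.inc‖ * ‖a - b‖) := by
    refine (norm_sub_le _ _).trans ?_
    have : (1 + ‖S.P‖) * ‖S.inc (a - b)‖ ≤ (1 + ‖S.P‖) * (‖S.inc‖ * ‖a - b‖) :=
      mul_le_mul_of_nonneg_left h5 (by positivity)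
    linarith
  have h8 : ‖k • (S.inc (a - b) - S.P (S.inc (a - b)))‖ ≤
      k * ((1 + ‖S.P‖) * ‖S.inc‖) * ‖a - b‖ := by
    rw [norm_smul, Real.norm_eq_abs, abs_of_nonneg hk]
    have := mul_le_mul_of_nonneg_left h7 hk
    linarith
  rw [e]
  refine (norm_sub_le _ _).trans ?_
  have h9 := norm_add_le (S.l (a - b)) (S.q a - S.q b)
  have h10 : ‖S.l‖ * ‖a - b‖ ≤ ‖S.l‖ * A := mul_le_mul_of_nonneg_left hA1 (norm_nonneg _)
  have h11 : k * ((1 + ‖S.P‖) * ‖S.inc‖) * ‖a - b‖ ≤ k * ((1 + ‖S.P‖) * ‖S.inc‖) * A :=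
    mul_le_mul_of_nonneg_left hA1 (by positivity)
  have h12 : ‖S.q a - S.q b‖ ≤ S.K * A := h1
  linarith

private lemma cs_int {g : ℝ → ℝ} {T : ℝ} (hT : 0 < T) (hg : ContinuousOn g (Icc 0 T)) :
    (∫ t in (0 : ℝ)..T, g t) ^ 2 ≤ T * ∫ t in (0 : ℝ)..T, g t ^ 2 := by
  have hu : uIcc (0 : ℝ) T = Icc 0 T := uIcc_of_le hT.le
  have i1 : IntervalIntegrable g volume 0 T := (hu ▸ hg).intervalIntegrable
  have i2 : IntervalIntegrable (fun t => g t ^ 2) volume 0 T :=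
    (hu ▸ (hg.pow 2)).intervalIntegrable
  set m : ℝ := ∫ t in (0 : ℝ)..T, g t with hm
  have h0 : 0 ≤ ∫ t in (0 : ℝ)..T, (g t - m / T) ^ 2 :=
    intervalIntegral.integral_nonneg hT.le fun t _ => sq_nonneg _
  have h1 : (∫ t in (0 : ℝ)..T, (g t - m / T) ^ 2) =
      (∫ t in (0 : ℝ)..T, g t ^ 2) - 2 * (m / T) * m + (m / T) ^ 2 * T := by
    have e : (fun t => (g t - m / T) ^ 2) = fun t => (g t ^ 2 - 2 * (m / T) * g t) + (m / T) ^ 2 := by
      funext t; ring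
    rw [e, intervalIntegral.integral_add (i2.sub (i1.const_mul _)) intervalIntegrable_const,
      intervalIntegral.integral_sub i2 (i1.const_mul _), intervalIntegral.integral_const_mul,
      intervalIntegral.integral_const]
    simp only [sub_zero, smul_eq_mul]
    ring
  rw [h1] at h0
  have h2 : m / T * T = m := div_mul_cancel₀ m hT.ne'
  have h3 : (∫ t in (0 : ℝ)..T, g t ^ 2) - 2 * (m / T) * m + (m / T) ^ 2 * T =
      (∫ t in (0 : ℝ)..T, g t ^ 2) - m ^ 2 / T := by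
    field_simp
    ring
  rw [h3] at h0
  have h4 : m ^ 2 / T ≤ ∫ t in (0 : ℝ)..T, g t ^ 2 := by linarith
  rw [div_le_iff₀ hT] at h4
  linarith

variable [CompleteSpace H] [CompleteSpace V]

theorem Sys.step (S : Sys H V) : ∃ C2 : ℝ, 0 < C2 ∧ ∀ k : ℝ, 1 ≤ k → ∀ T : ℝ, 0 < T → ∀ y0 : H,
    ∃ y1 : H, S.Adm y0 y1 T ∧ ‖y1‖ ≤ ‖y0‖ ∧
      T * ‖y1‖ ^ 2 ≤ C2 * (‖y0‖ + √(T * k) * ‖y0‖ + ‖y0‖ ^ 2 / k) := by
  have hkap := S.kap_pos
  have hC1 := S.C1_nonneg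
  refine ⟨(3 * ‖S.psi‖ + 2 * S.C1) / S.kap + 1, by positivity, ?_⟩
  intro k hk T hT y0
  have hk0 : 0 < k := by linarith
  obtain ⟨f, v, hp, hf⟩ := S.toSm.glob_sol (n := nd S k)
    (K := ‖S.l‖ + k * ((1 + ‖S.P‖) * ‖S.inc‖) + S.K)
    (by have := S.K_nonneg; positivity) (nd_quad S hk0.le) (nd_zero S k)
    (fun p => by rw [nd_inner]; nlinarith [sq_nonneg ‖S.inc p - S.P (S.inc p)‖]) y0 T hT
  set y : ℝ → H := S.toSm.traj y0 f with hy
  have hyc : ContinuousOn y (Icc 0 T) := S.toSm.traj_cont y0 hT.le hp.int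
  have hu : uIcc (0 : ℝ) T = Icc 0 T := uIcc_of_le hT.le
  -- the continuous functions of time
  have cQ : ContinuousOn (fun t => ‖y t - S.P (y t)‖) (Icc 0 T) :=
    (hyc.sub (S.P.continuous.comp_continuousOn hyc)).norm
  have cP : ContinuousOn (fun t => ‖S.P (y t)‖) (Icc 0 T) :=
    (S.P.continuous.comp_continuousOn hyc).norm
  have iQ : IntervalIntegrable (fun t => ‖y t - S.P (y t)‖) volume 0 T :=
    (hu ▸ cQ).intervalIntegrable
  have iQ2 : IntervalIntegrable (fun t => ‖y t - S.P (y t)‖ ^ 2) volume 0 T :=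
    (hu ▸ (cQ.pow 2)).intervalIntegrable
  have iP2 : IntervalIntegrable (fun t => ‖S.P (y t)‖ ^ 2) volume 0 T :=
    (hu ▸ (cP.pow 2)).intervalIntegrable
  have iy2 : IntervalIntegrable (fun t => ‖y t‖ ^ 2) volume 0 T :=
    (hu ▸ (hyc.norm.pow 2)).intervalIntegrable
  -- almost everywhere relations
  have hae : ∀ᵐ t ∂volume.restrict (Ioc (0 : ℝ) T), S.inc (v t) = y t ∧ f t = nd S k (v t) := by
    filter_upwards [hp.lift, hf] with t h1 h2 using ⟨h1, h2⟩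
  have hen : ∀ t ∈ Icc (0 : ℝ) T, ‖y t‖ ^ 2 =
      ‖y0‖ ^ 2 - 2 * k * ∫ s in (0 : ℝ)..t, ‖y s - S.P (y s)‖ ^ 2 := by
    intro t ht
    have h1 := S.toSm.energy y0 hp.int ht
    have h2 : (∫ s in (0 : ℝ)..t, inner ℝ (f s) (S.toSm.traj y0 f s)) =
        ∫ s in (0 : ℝ)..t, -k * ‖y s - S.P (y s)‖ ^ 2 := by
      apply intervalIntegral.integral_congr_ae
      rw [uIoc_of_le ht.1]
      have h3 := ae_restrict_iff' (measurableSet_Ioc (a := (0 : ℝ)) (b := T)) |>.1 hae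
      filter_upwards [h3] with s hs hst
      obtain ⟨h4, h5⟩ := hs ⟨hst.1, hst.2.trans ht.2⟩
      rw [h5, ← hy, ← h4, nd_inner]
    rw [h2, intervalIntegral.integral_const_mul] at h1
    change ‖y t‖ ^ 2 = _ at h1
    rw [h1]
    ring
  have hQtot : 2 * k * ∫ s in (0 : ℝ)..T, ‖y s - S.P (y s)‖ ^ 2 ≤ ‖y0‖ ^ 2 := by
    have := hen T ⟨hT.le, le_rfl⟩
    have h2 := sq_nonneg ‖y T‖
    linarith
  have hmono : ∀ t ∈ Icc (0 : ℝ) T, ‖y T‖ ^ 2 ≤ ‖y t‖ ^ 2 := by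
    intro t ht
    rw [hen T ⟨hT.le, le_rfl⟩, hen t ht]
    have h1 : (∫ s in (0 : ℝ)..t, ‖y s - S.P (y s)‖ ^ 2) ≤
        ∫ s in (0 : ℝ)..T, ‖y s - S.P (y s)‖ ^ 2 := by
      apply intervalIntegral.integral_mono_interval le_rfl ht.1 ht.2 _ iQ2
      exact Eventually.of_forall fun s => sq_nonneg _
    nlinarith
  have hyT : ‖y T‖ ≤ ‖y0‖ := by
    have h1 := hen T ⟨hT.le, le_rfl⟩
    have h2 : 0 ≤ ∫ s in (0 : ℝ)..T, ‖y s - S.P (y s)‖ ^ 2 :=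
      intervalIntegral.integral_nonneg hT.le fun s _ => sq_nonneg _
    have h3 : ‖y T‖ ^ 2 ≤ ‖y0‖ ^ 2 := by
      rw [h1]
      have : 0 ≤ 2 * k * ∫ s in (0 : ℝ)..T, ‖y s - S.P (y s)‖ ^ 2 := by positivity
      linarith
    exact le_of_sq_le_sq h3 (norm_nonneg _)
  refine ⟨y T, ⟨f, v, hp, ?_, rfl⟩, hyT, ?_⟩
  · filter_upwards [hf] with t ht
    rw [ht]
    unfold nd
    rw [map_sub, map_smul, map_sub, S.P_P, sub_self, smul_zero, sub_zero]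
  -- the main estimate
  set IQ : ℝ := ∫ s in (0 : ℝ)..T, ‖y s - S.P (y s)‖ with hIQ
  set IQ2 : ℝ := ∫ s in (0 : ℝ)..T, ‖y s - S.P (y s)‖ ^ 2 with hIQ2
  set IP2 : ℝ := ∫ s in (0 : ℝ)..T, ‖S.P (y s)‖ ^ 2 with hIP2
  have hIQ0 : 0 ≤ IQ := intervalIntegral.integral_nonneg hT.le fun s _ => norm_nonneg _
  have hIQ20 : 0 ≤ IQ2 := intervalIntegral.integral_nonneg hT.le fun s _ => sq_nonneg _
  have h1 : T * ‖y T‖ ^ 2 ≤ IP2 + IQ2 := by
    have e1 : T * ‖y T‖ ^ 2 = ∫ s in (0 : ℝ)..T, ‖y T‖ ^ 2 := by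
      rw [intervalIntegral.integral_const, sub_zero, smul_eq_mul]
    rw [e1, hIP2, hIQ2, ← intervalIntegral.integral_add iP2 iQ2]
    apply intervalIntegral.integral_mono_on hT.le intervalIntegrable_const (iP2.add iQ2)
    intro t ht
    rw [← norm_split S (y t)]
    exact hmono t ht
  have hpair := S.toSm.pair S.gen y0 hp.int (t := T) ⟨hT.le, le_rfl⟩
  have ipsi : IntervalIntegrable (fun s => inner ℝ S.psi' (y s) + inner ℝ S.psi (f s))
      volume 0 T := by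
    apply IntervalIntegrable.add
    · have : ContinuousOn (fun s => inner ℝ S.psi' (y s)) (uIcc 0 T) := by
        rw [hu]
        exact continuousOn_const.inner hyc
      exact this.intervalIntegrable
    · rw [intervalIntegrable_iff_integrableOn_Ioc_of_le hT.le]
      exact (innerSL ℝ S.psi).integrable_comp hp.int
  have h2 : S.kap * IP2 ≤ (inner ℝ S.psi (y T) - inner ℝ S.psi y0) +
      (k * ‖S.psi‖ + S.C1) * IQ + S.C1 * IQ2 := by
    have e1 : inner ℝ S.psi (y T) - inner ℝ S.psi y0 =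
        ∫ s in (0 : ℝ)..T, (inner ℝ S.psi' (y s) + inner ℝ S.psi (f s)) := by
      change inner ℝ S.psi (y T) = _ at hpair
      rw [hpair]
      ring
    rw [e1, hIP2, hIQ, hIQ2, ← intervalIntegral.integral_const_mul,
      ← intervalIntegral.integral_const_mul, ← intervalIntegral.integral_const_mul,
      ← intervalIntegral.integral_add ipsi (iQ.const_mul _),
      ← intervalIntegral.integral_add (ipsi.add (iQ.const_mul _)) (iQ2.const_mul _)]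
    rw [intervalIntegral.integral_of_le hT.le, intervalIntegral.integral_of_le hT.le]
    apply setIntegral_mono_ae_restrict (((iP2.const_mul _)).1)
      ((ipsi.add (iQ.const_mul _)).add (iQ2.const_mul _)).1
    filter_upwards [hae] with t ht
    obtain ⟨h4, h5⟩ := ht
    have h6 := S.mono (v t)
    have h7 : inner ℝ S.psi (f t) = inner ℝ S.psi (S.l (v t) + S.q (v t)) -
        k * inner ℝ S.psi (y t - S.P (y t)) := by
      rw [h5, nd, inner_sub_right, inner_smul_right, h4]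
    have h8 : inner ℝ S.psi (y t - S.P (y t)) ≤ ‖S.psi‖ * ‖y t - S.P (y t)‖ :=
      real_inner_le_norm _ _
    rw [h4] at h6
    have h9 : k * inner ℝ S.psi (y t - S.P (y t)) ≤ k * (‖S.psi‖ * ‖y t - S.P (y t)‖) :=
      mul_le_mul_of_nonneg_left h8 hk0.le
    rw [h7]
    linarith
  have h3 : inner ℝ S.psi (y T) - inner ℝ S.psi y0 ≤ 2 * ‖S.psi‖ * ‖y0‖ := by
    have a1 : inner ℝ S.psi (y T) ≤ ‖S.psi‖ * ‖y T‖ := real_inner_le_norm _ _
    have a2 : -(inner ℝ S.psi y0) ≤ ‖S.psi‖ * ‖y0‖ :=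
      (neg_le_abs _).trans (abs_real_inner_le_norm _ _)
    have a3 : ‖S.psi‖ * ‖y T‖ ≤ ‖S.psi‖ * ‖y0‖ := mul_le_mul_of_nonneg_left hyT (norm_nonneg _)
    linarith
  have h4 : IQ2 ≤ ‖y0‖ ^ 2 / k := by
    rw [le_div_iff₀ hk0]
    nlinarith
  have h5 : k * IQ ≤ √(T * k) * ‖y0‖ := by
    have a1 : IQ ^ 2 ≤ T * IQ2 := cs_int hT cQ
    have a2 : (k * IQ) ^ 2 ≤ (√(T * k) * ‖y0‖) ^ 2 := by
      rw [mul_pow, mul_pow, Real.sq_sqrt (by positivity)]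
      have a3 : k * IQ2 ≤ ‖y0‖ ^ 2 := by nlinarith
      have a4 : k ^ 2 * IQ ^ 2 ≤ k ^ 2 * (T * IQ2) := mul_le_mul_of_nonneg_left a1 (sq_nonneg _)
      have a5 : k * T * (k * IQ2) ≤ k * T * ‖y0‖ ^ 2 :=
        mul_le_mul_of_nonneg_left a3 (by positivity)
      nlinarith
    exact le_of_sq_le_sq a2 (by positivity)
  have h6 : IQ ≤ √(T * k) * ‖y0‖ := by nlinarith
  have h7 : S.kap * IP2 ≤ (3 * ‖S.psi‖ + 2 * S.C1) *
      (‖y0‖ + √(T * k) * ‖y0‖ + ‖y0‖ ^ 2 / k) := by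
    have b1 : 0 ≤ √(T * k) * ‖y0‖ := by positivity
    have b2 : 0 ≤ ‖y0‖ ^ 2 / k := by positivity
    have b3 : k * ‖S.psi‖ * IQ ≤ ‖S.psi‖ * (√(T * k) * ‖y0‖) := by
      have := mul_le_mul_of_nonneg_left h5 (norm_nonneg S.psi)
      linarith
    have b4 : S.C1 * IQ ≤ S.C1 * (√(T * k) * ‖y0‖) := mul_le_mul_of_nonneg_left h6 hC1
    have b5 : S.C1 * IQ2 ≤ S.C1 * (‖y0‖ ^ 2 / k) := mul_le_mul_of_nonneg_left h4 hC1
    have b6 : 0 ≤ ‖S.psi‖ * ‖y0‖ := by positivity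
    have b7 : 0 ≤ ‖S.psi‖ * (√(T * k) * ‖y0‖) := by positivity
    have b8 : 0 ≤ ‖S.psi‖ * (‖y0‖ ^ 2 / k) := by positivity
    have b9 : 0 ≤ S.C1 * ‖y0‖ := by positivity
    have b10 : 0 ≤ S.C1 * (√(T * k) * ‖y0‖) := by positivity
    have b11 : 0 ≤ S.C1 * (‖y0‖ ^ 2 / k) := by positivity
    nlinarith
  have h8 : IP2 ≤ (3 * ‖S.psi‖ + 2 * S.C1) / S.kap *
      (‖y0‖ + √(T * k) * ‖y0‖ + ‖y0‖ ^ 2 / k) := by
    rw [div_mul_eq_mul_div, le_div_iff₀ hkap]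
    linarith
  have h9 : IQ2 ≤ ‖y0‖ + √(T * k) * ‖y0‖ + ‖y0‖ ^ 2 / k := by
    have b1 : 0 ≤ √(T * k) * ‖y0‖ := by positivity
    have b2 := norm_nonneg y0
    linarith
  have h10 : ((3 * ‖S.psi‖ + 2 * S.C1) / S.kap + 1) *
      (‖y0‖ + √(T * k) * ‖y0‖ + ‖y0‖ ^ 2 / k) = (3 * ‖S.psi‖ + 2 * S.C1) / S.kap *
      (‖y0‖ + √(T * k) * ‖y0‖ + ‖y0‖ ^ 2 / k) + (‖y0‖ + √(T * k) * ‖y0‖ + ‖y0‖ ^ 2 / k) := by
    ring
  rw [h10]
  linarith

end Pool.Agent.Kdv
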