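import Pool.Agent.Lib.MP_78c35a_an.Nice

/-!
# Joint measurability
-/

set_option autoImplicit false

namespace Pool.Agent.Kdv

open MeasureTheory Filter Topology Set
open scoped ENNReal

namespace JointAux

/-- The primitive. -/
noncomputable def prim (y : L2) (x : ℝ) : ℝ := ∫ z in (0 : ℝ)..x, y z

theorem locInt (y : L2) : LocallyIntegrable (fun z => y z) volume :=
  (Lp.memLp y).locallyIntegrable (by norm_num)

theorem ii (y : L2) (a b : ℝ) : IntervalIntegrable (fun z => y z) volume a b :=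
  intervalIntegrable_iff.mpr <|
    ((locInt y).integrableOn_isCompact isCompact_uIcc).mono_set uIoc_subset_uIcc

theorem prim_cont (y : L2) : Continuous (prim y) :=
  intervalIntegral.continuous_primitive (ii y) 0

theorem int_cont (a b : ℝ) : Continuous fun y : L2 => ∫ z in Ioc a b, y z := by
  have h : (fun y : L2 => ∫ z in Ioc a b, y z) = fun y : L2 =>
      inner ℝ (indicatorConstLp 2 (measurableSet_Ioc (a := a) (b := b))
        measure_Ioc_lt_top.ne (1 : ℝ)) y := by
    funext y
    rw [L2.inner_indicatorConstLp_one]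
  rw [h]
  exact continuous_const.inner continuous_id

theorem prim_cont' (x : ℝ) : Continuous fun y => prim y x := by
  unfold prim
  simp only [intervalIntegral]
  exact (int_cont 0 x).sub (int_cont x 0)

theorem norm_sq (y : L2) : ∫⁻ x, ‖y x‖ₑ ^ 2 = ‖y‖ₑ ^ 2 := by
  have h := Lp.enorm_def y
  rw [eLpNorm_eq_lintegral_rpow_enorm_toReal (by norm_num) (by norm_num)] at h
  rw [h]
  simp only [ENNReal.toReal_ofNat, ENNReal.rpow_ofNat]
  rw [← ENNReal.rpow_natCast, ← ENNReal.rpow_mul]
  norm_num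

end JointAux

open JointAux in
theorem exists_joint {T : ℝ} {w : ℝ → L2}
    (hw : AEStronglyMeasurable w (volume.restrict (Ioc 0 T)))
    (hf : ∫⁻ t in Ioc (0 : ℝ) T, ‖w t‖ₑ ^ 2 < ⊤) :
    ∃ W : ℝ → ℝ → ℝ, Measurable (Function.uncurry W) ∧
      (∀ᵐ t ∂volume.restrict (Ioc (0 : ℝ) T), ∀ᵐ x ∂volume, W t x = w t x) ∧
      ∫⁻ t in Ioc (0 : ℝ) T, ∫⁻ x, ‖W t x‖ₑ ^ 2 < ⊤ := by
  let w' : ℝ → L2 := hw.mk w
  have hw' : StronglyMeasurable w' := hw.stronglyMeasurable_mk
  have hww : ∀ᵐ t ∂volume.restrict (Ioc (0 : ℝ) T), w t = w' t := hw.ae_eq_mk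
  let P : ℕ → ℝ × ℝ → ℝ := fun n p =>
    ((n : ℝ) + 1) * (prim (w' p.1) (p.2 + 1 / ((n : ℝ) + 1)) - prim (w' p.1) p.2)
  have hP0 : StronglyMeasurable (Function.uncurry fun (x t : ℝ) => prim (w' t) x) :=
    stronglyMeasurable_uncurry_of_continuous_of_stronglyMeasurable (fun t => prim_cont (w' t))
      fun x => (prim_cont' x).comp_stronglyMeasurable hw'
  have hP1 : Measurable fun p : ℝ × ℝ => prim (w' p.1) p.2 :=
    hP0.measurable.comp measurable_swap
  have hP : ∀ n, StronglyMeasurable (P n) := by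
    intro n
    refine Measurable.stronglyMeasurable ?_
    refine Measurable.const_mul (Measurable.sub ?_ hP1) _
    exact hP1.comp (measurable_fst.prodMk (measurable_snd.add_const _))
  let W : ℝ → ℝ → ℝ := fun t x => limUnder atTop fun n => P n (t, x)
  have hW : Measurable (Function.uncurry W) := by
    have := (StronglyMeasurable.limUnder (l := atTop) hP).measurable
    exact this
  have key : ∀ t, ∀ᵐ x ∂volume, W t x = w' t x := by
    intro t
    filter_upwards [LocallyIntegrable.ae_hasDerivAt_integral (locInt (w' t))] with x hx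
    have h1 := (hx 0).tendsto_slope_zero_right
    have h2 : Tendsto (fun n : ℕ => 1 / ((n : ℝ) + 1)) atTop (𝓝[>] 0) :=
      tendsto_nhdsWithin_iff.mpr ⟨tendsto_one_div_add_atTop_nhds_zero_nat,
        Eventually.of_forall fun n => mem_Ioi.mpr Nat.one_div_pos_of_nat⟩
    have h3 := h1.comp h2
    refine Tendsto.limUnder_eq (h3.congr fun n => ?_)
    simp only [Function.comp_apply, one_div, inv_inv, smul_eq_mul, P, prim]
  refine ⟨W, hW, ?_, ?_⟩
  · filter_upwards [hww] with t ht
    rw [ht]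
    exact key t
  · have h1 : ∫⁻ t in Ioc (0 : ℝ) T, ∫⁻ x, ‖W t x‖ₑ ^ 2 = ∫⁻ t in Ioc (0 : ℝ) T, ‖w t‖ₑ ^ 2 := by
      refine lintegral_congr_ae ?_
      filter_upwards [hww] with t ht
      rw [ht, ← norm_sq]
      refine lintegral_congr_ae ?_
      filter_upwards [key t] with x hx
      rw [hx]
    rw [h1]
    exact hf

end Pool.Agent.Kdv
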