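import Pool.Agent.Lib.MP_78c35a_an.TrDef

/-!
# Linear combinations in the spaces of boundary data
-/

set_option autoImplicit false

namespace Pool.Agent.Kdv

open MeasureTheory Filter Topology Set
open scoped ENNReal ContDiff

namespace SpL

theorem exists_sq {A : ℝ≥0∞} (h : A < ⊤) : ∃ a : ℝ, 0 ≤ a ∧ A ≤ ENNReal.ofReal (a ^ 2) := by
  refine ⟨√A.toReal, Real.sqrt_nonneg _, ?_⟩
  rw [Real.sq_sqrt ENNReal.toReal_nonneg, ENNReal.ofReal_toReal h.ne]

theorem enorm_mul_sq (r z : ℝ) : ‖r * z‖ₑ ^ 2 = ENNReal.ofReal (r ^ 2) * ‖z‖ₑ ^ 2 := by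
  rw [enorm_mul, mul_pow]
  congr 1
  rw [← ofReal_norm, ← ENNReal.ofReal_pow (norm_nonneg _), Real.norm_eq_abs, sq_abs]

end SpL

open SpL

theorem InH13.const {T : ℝ} (r : ℝ) : InH13 T (fun _ => r) := by
  refine ⟨aestronglyMeasurable_const, ?_⟩
  unfold sob
  have h1 : ∫⁻ t in Ioo 0 T, ∫⁻ s in Ioo 0 T,
      ‖r - r‖ₑ ^ 2 / ENNReal.ofReal (|t - s| ^ (5 / 3 : ℝ)) = 0 := by
    simp
  rw [h1, add_zero, lintegral_const, Measure.restrict_apply_univ, Real.volume_Ioo]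
  exact ENNReal.mul_lt_top (ENNReal.pow_lt_top enorm_lt_top) ENNReal.ofReal_lt_top

theorem InH13.add {T : ℝ} {h k : ℝ → ℝ} (hh : InH13 T h) (hk : InH13 T k) :
    InH13 T (fun t => h t + k t) := by
  obtain ⟨a, ha, ha'⟩ := exists_sq hh.2
  obtain ⟨b, hb, hb'⟩ := exists_sq hk.2
  exact ⟨hh.1.add hk.1, (sob_add ha hb hh.1 hk.1 ha' hb').trans_lt ENNReal.ofReal_lt_top⟩

theorem InH13.smul {T : ℝ} (r : ℝ) {h : ℝ → ℝ} (hh : InH13 T h) :
    InH13 T (fun t => r * h t) := by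
  refine ⟨hh.1.const_mul r, ?_⟩
  rw [sob_smul]
  exact ENNReal.mul_lt_top ENNReal.ofReal_lt_top hh.2

theorem InH13.sum {n : ℕ} {T : ℝ} (α : Fin n → ℝ) {h : Fin n → ℝ → ℝ} (hh : ∀ j, InH13 T (h j)) :
    InH13 T (fun t => ∑ j, α j * h j t) := by
  classical
  have key : ∀ s : Finset (Fin n), InH13 T (fun t => ∑ j ∈ s, α j * h j t) := by
    intro s
    induction s using Finset.induction_on with
    | empty => simpa using InH13.const (T := T) 0
    | insert a s ha ih =>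
      simp only [Finset.sum_insert ha]
      exact ((hh a).smul (α a)).add ih
  exact key Finset.univ

theorem InH13.inL2 {T : ℝ} {h : ℝ → ℝ} (hh : InH13 T h) : InL2 T h :=
  ⟨hh.1, lt_of_le_of_lt le_self_add hh.2⟩

theorem InL2.add {T : ℝ} {h k : ℝ → ℝ} (hh : InL2 T h) (hk : InL2 T k) :
    InL2 T (fun t => h t + k t) := by
  obtain ⟨a, ha, ha'⟩ := exists_sq hh.2
  obtain ⟨b, hb, hb'⟩ := exists_sq hk.2
  exact ⟨hh.1.add hk.1, (TrDef.lin_add ha hb hh.1 ha' hb').trans_lt ENNReal.ofReal_lt_top⟩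

theorem InL2.smul {T : ℝ} (r : ℝ) {h : ℝ → ℝ} (hh : InL2 T h) :
    InL2 T (fun t => r * h t) := by
  refine ⟨hh.1.const_mul r, ?_⟩
  simp only [enorm_mul_sq]
  rw [lintegral_const_mul' _ _ ENNReal.ofReal_ne_top]
  exact ENNReal.mul_lt_top ENNReal.ofReal_lt_top hh.2

theorem InL2.sum {n : ℕ} {T : ℝ} (α : Fin n → ℝ) {h : Fin n → ℝ → ℝ} (hh : ∀ j, InL2 T (h j)) :
    InL2 T (fun t => ∑ j, α j * h j t) := by
  classical
  have key : ∀ s : Finset (Fin n), InL2 T (fun t => ∑ j ∈ s, α j * h j t) := by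
    intro s
    induction s using Finset.induction_on with
    | empty => simpa using (InH13.const (T := T) 0).inL2
    | insert a s ha ih =>
      simp only [Finset.sum_insert ha]
      exact ((hh a).smul (α a)).add ih
  exact key Finset.univ

theorem InHm13.sum {n : ℕ} {T : ℝ} (α : Fin n → ℝ) {h : Fin n → (ℝ → ℝ) → ℝ}
    (hh : ∀ j, InHm13 T (h j)) : InHm13 T (fun φ => ∑ j, α j * h j φ) := by
  choose C hC using fun j => (hh j).bound
  refine ⟨fun φ χ hφ hχ => ?_, fun r φ hφ => ?_, ⟨∑ j, |α j| * C j, fun φ hφ => ?_⟩⟩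
  · rw [← Finset.sum_add_distrib]
    refine Finset.sum_congr rfl fun j _ => ?_
    rw [(hh j).add φ χ hφ hχ, mul_add]
  · rw [Finset.mul_sum]
    refine Finset.sum_congr rfl fun j _ => ?_
    rw [(hh j).smul r φ hφ]
    ring
  · rw [Finset.sum_mul]
    refine (Finset.abs_sum_le_sum_abs _ _).trans (Finset.sum_le_sum fun j _ => ?_)
    rw [abs_mul, mul_assoc]
    exact mul_le_mul_of_nonneg_left (hC j φ hφ) (abs_nonneg _)

theorem int_comb {n : ℕ} {L T : ℝ} (α : Fin n → ℝ) {W : Fin n → ℝ → ℝ → ℝ}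
    (hm : ∀ j, Measurable (Function.uncurry (W j)))
    (hW : ∀ j, ∫⁻ t in Ioc (0 : ℝ) T, ∫⁻ x, ‖W j t x‖ₑ ^ 2 < ⊤) :
    ∫⁻ t in Ioo 0 T, ∫⁻ x in Ioo 0 L, ‖∑ j, α j * W j t x‖ₑ ^ 2 < ⊤ := by
  classical
  have key : ∀ s : Finset (Fin n),
      ∫⁻ t in Ioo 0 T, ∫⁻ x in Ioo 0 L, ‖∑ j ∈ s, α j * W j t x‖ₑ ^ 2 < ⊤ := by
    intro s
    induction s using Finset.induction_on with
    | empty => simp
    | insert a s ha ih =>
      simp only [Finset.sum_insert ha]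
      have m1 : Measurable fun p : ℝ × ℝ => ‖α a * W a p.1 p.2‖ₑ ^ 2 :=
        (((hm a).const_mul (α a)).enorm.pow_const 2)
      have m2 : ∀ t, Measurable fun x : ℝ => ‖α a * W a t x‖ₑ ^ 2 := fun t =>
        m1.comp (by fun_prop : Measurable fun x : ℝ => (t, x))
      have b1 : ∀ t, ∫⁻ x in Ioo 0 L, ‖α a * W a t x + ∑ j ∈ s, α j * W j t x‖ₑ ^ 2 ≤
          ENNReal.ofReal (1 + 1 / 1) * (∫⁻ x in Ioo 0 L, ‖α a * W a t x‖ₑ ^ 2) +
          ENNReal.ofReal (1 + 1 / 1) * ∫⁻ x in Ioo 0 L, ‖∑ j ∈ s, α j * W j t x‖ₑ ^ 2 := by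
        intro t
        refine (lintegral_mono fun x => TrDef.enorm_add_sq_le _ _ one_pos one_pos).trans
          (le_of_eq ?_)
        rw [lintegral_add_left ((m2 t).const_mul _),
          lintegral_const_mul' _ _ ENNReal.ofReal_ne_top,
          lintegral_const_mul' _ _ ENNReal.ofReal_ne_top]
      refine (lintegral_mono b1).trans_lt ?_
      have m3 : Measurable fun t => ∫⁻ x in Ioo 0 L, ‖α a * W a t x‖ₑ ^ 2 :=
        m1.lintegral_prod_right'
      rw [lintegral_add_left (m3.const_mul _),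
        lintegral_const_mul' _ _ ENNReal.ofReal_ne_top,
        lintegral_const_mul' _ _ ENNReal.ofReal_ne_top]
      refine ENNReal.add_lt_top.mpr ⟨ENNReal.mul_lt_top ENNReal.ofReal_lt_top ?_,
        ENNReal.mul_lt_top ENNReal.ofReal_lt_top ih⟩
      simp only [enorm_mul_sq]
      have e1 : ∀ t, ∫⁻ x in Ioo 0 L, ENNReal.ofReal (α a ^ 2) * ‖W a t x‖ₑ ^ 2 =
          ENNReal.ofReal (α a ^ 2) * ∫⁻ x in Ioo 0 L, ‖W a t x‖ₑ ^ 2 := fun t =>
        lintegral_const_mul' _ _ ENNReal.ofReal_ne_top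
      simp only [e1]
      rw [lintegral_const_mul' _ _ ENNReal.ofReal_ne_top]
      refine ENNReal.mul_lt_top ENNReal.ofReal_lt_top ?_
      calc ∫⁻ t in Ioo 0 T, ∫⁻ x in Ioo 0 L, ‖W a t x‖ₑ ^ 2
          ≤ ∫⁻ t in Ioc 0 T, ∫⁻ x, ‖W a t x‖ₑ ^ 2 :=
            lintegral_mono' (Measure.restrict_mono Ioo_subset_Ioc_self le_rfl)
              fun t => setLIntegral_le_lintegral _ _
        _ < ⊤ := hW a
  exact key Finset.univ

end Pool.Agent.Kdv
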