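import Pool.Agent.Lib.MP_78c35a_an.TrDef

/-!
# Traces: convergent series
-/

set_option autoImplicit false

namespace Pool.Agent.Kdv

open MeasureTheory Filter Topology Set
open scoped ENNReal ContDiff SchwartzMap InnerProductSpace

namespace TrSumAux

/-! ### Derivatives of smooth functions of two variables -/

lemma smooth_dx {φ : ℝ → ℝ → ℝ} (h : ContDiff ℝ ∞ (Function.uncurry φ)) :
    ContDiff ℝ ∞ (Function.uncurry fun t x => deriv (φ t) x) := by
  have h1 : (Function.uncurry fun t x => deriv (φ t) x) =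
      fun p : ℝ × ℝ => fderiv ℝ (Function.uncurry φ) p (0, 1) := by
    funext p
    obtain ⟨t, x⟩ := p
    have hd : DifferentiableAt ℝ (Function.uncurry φ) (t, x) :=
      (h.differentiable (by simp)).differentiableAt
    have h2 : HasDerivAt (fun x => φ t x) (fderiv ℝ (Function.uncurry φ) (t, x) (0, 1)) x :=
      hd.hasFDerivAt.comp_hasDerivAt x ((hasDerivAt_const x t).prodMk (hasDerivAt_id x))
    exact h2.deriv
  rw [h1]
  exact (h.fderiv_right (m := ∞) (by simp)).clm_apply contDiff_const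

lemma smooth_dt {φ : ℝ → ℝ → ℝ} (h : ContDiff ℝ ∞ (Function.uncurry φ)) :
    ContDiff ℝ ∞ (Function.uncurry fun t x => deriv (fun r => φ r x) t) := by
  have h1 : (Function.uncurry fun t x => deriv (fun r => φ r x) t) =
      fun p : ℝ × ℝ => fderiv ℝ (Function.uncurry φ) p (1, 0) := by
    funext p
    obtain ⟨t, x⟩ := p
    have hd : DifferentiableAt ℝ (Function.uncurry φ) (t, x) :=
      (h.differentiable (by simp)).differentiableAt
    have h3 : HasDerivAt (fun r : ℝ => ((r, x) : ℝ × ℝ)) (1, 0) t :=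
      (hasDerivAt_id t).prodMk (hasDerivAt_const t x)
    have h2 : HasDerivAt (fun r => φ r x) (fderiv ℝ (Function.uncurry φ) (t, x) (1, 0)) t := by
      have h4 := hd.hasFDerivAt.comp_hasDerivAt (f := fun r : ℝ => ((r, x) : ℝ × ℝ)) t h3
      exact h4
    exact h2.deriv
  rw [h1]
  exact (h.fderiv_right (m := ∞) (by simp)).clm_apply contDiff_const

lemma smooth_iter {φ : ℝ → ℝ → ℝ} (h : ContDiff ℝ ∞ (Function.uncurry φ)) (n : ℕ) :
    ContDiff ℝ ∞ (Function.uncurry fun t x => iteratedDeriv n (φ t) x) := by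
  induction n with
  | zero => simpa only [iteratedDeriv_zero] using h
  | succ n ih => simpa only [iteratedDeriv_succ] using smooth_dx ih

/-! ### Pairing with a continuous function -/

lemma memLp_cut (L : ℝ) {g : ℝ → ℝ} (hg : Continuous g) :
    MemLp ((Icc 0 L).indicator g) 2 (volume : Measure ℝ) := by
  rw [memLp_indicator_iff_restrict measurableSet_Icc]
  obtain ⟨C, hC⟩ := (isCompact_Icc (a := (0 : ℝ)) (b := L)).exists_bound_of_continuousOn
    hg.continuousOn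
  refine MemLp.of_bound hg.aestronglyMeasurable C ?_
  filter_upwards [ae_restrict_mem measurableSet_Icc] with x hx using hC x hx

/-- The function `ψ t`, cut off, as an element of `L²`. -/
noncomputable def cut (L : ℝ) {ψ : ℝ → ℝ → ℝ} (hψ : Continuous (Function.uncurry ψ)) (t : ℝ) :
    L2 := (memLp_cut L (hψ.comp (Continuous.prodMk_right t))).toLp _

lemma cut_inner (L : ℝ) {ψ : ℝ → ℝ → ℝ} (hψ : Continuous (Function.uncurry ψ)) (t : ℝ)
    (w : L2) : ∫ x in Ioo 0 L, w x * ψ t x = inner ℝ (cut L hψ t) w := by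
  rw [L2.inner_def, ← integral_Icc_eq_integral_Ioo, ← integral_indicator measurableSet_Icc]
  refine integral_congr_ae ?_
  have h1 := (memLp_cut L (hψ.comp (Continuous.prodMk_right t))).coeFn_toLp
  filter_upwards [h1] with x hx
  unfold cut
  rw [hx]
  by_cases h : x ∈ Icc 0 L
  · rw [indicator_of_mem h, indicator_of_mem h]
    simp [Function.uncurry]
  · rw [indicator_of_notMem h, indicator_of_notMem h]
    simp

lemma cut_cont (L : ℝ) {ψ : ℝ → ℝ → ℝ} (hψ : Continuous (Function.uncurry ψ)) :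
    Continuous (cut L hψ) := by
  rw [continuous_iff_continuousAt]
  intro t0
  rw [ContinuousAt, tendsto_iff_norm_sub_tendsto_zero]
  have h1 : ∀ t, ‖cut L hψ t - cut L hψ t0‖ = √(∫ x in Icc 0 L, (ψ t x - ψ t0 x) ^ 2) := by
    intro t
    rw [norm_eq_sqrt_real_inner, L2.inner_def, ← integral_indicator measurableSet_Icc]
    congr 1
    refine integral_congr_ae ?_
    filter_upwards [(memLp_cut L (hψ.comp (Continuous.prodMk_right t))).coeFn_toLp,
      (memLp_cut L (hψ.comp (Continuous.prodMk_right t0))).coeFn_toLp,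
      Lp.coeFn_sub (cut L hψ t) (cut L hψ t0)] with x h1 h2 h3
    rw [h3, Pi.sub_apply]
    unfold cut
    rw [h1, h2]
    by_cases h : x ∈ Icc 0 L
    · rw [indicator_of_mem h, indicator_of_mem h, indicator_of_mem h]
      simp [Function.uncurry, sq]
    · rw [indicator_of_notMem h, indicator_of_notMem h, indicator_of_notMem h]
      simp
  simp only [h1]
  have h2 : Continuous fun t => ∫ x in Icc 0 L, (ψ t x - ψ t0 x) ^ 2 := by
    have h3 : Continuous (Function.uncurry fun t x => (ψ t x - ψ t0 x) ^ 2) := by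
      have h4 : Continuous fun p : ℝ × ℝ => ψ p.1 p.2 := hψ
      have h5 : Continuous fun p : ℝ × ℝ => ψ t0 p.2 :=
        hψ.comp (continuous_const.prodMk continuous_snd)
      exact (h4.sub h5).pow 2
    exact continuous_parametric_integral_of_continuous h3 isCompact_Icc
  have h3 := (h2.sqrt).tendsto t0
  simpa using h3

/-! ### Series of functions of time -/

lemma lint_one_le {T : ℝ} {a : ℝ → ℝ} {c : ℝ} (hc : 0 ≤ c)
    (ma : AEStronglyMeasurable a (volume.restrict (Ioo 0 T)))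
    (ba : ∫⁻ t in Ioo 0 T, ‖a t‖ₑ ^ 2 ≤ ENNReal.ofReal (c ^ 2)) :
    ∫⁻ t in Ioo 0 T, ‖a t‖ₑ ≤ ENNReal.ofReal c *
      (volume.restrict (Ioo 0 T)) univ ^ (1 / 2 : ℝ) := by
  have h1 := eLpNorm_le_eLpNorm_mul_rpow_measure_univ (p := 1) (q := 2) one_le_two ma
  rw [eLpNorm_one_eq_lintegral_enorm, eLpNorm_two_eq] at h1
  have h2 : (1 / (1 : ℝ≥0∞).toReal - 1 / (2 : ℝ≥0∞).toReal : ℝ) = 1 / 2 := by norm_num
  rw [h2] at h1
  refine h1.trans ?_
  gcongr
  calc (∫⁻ t in Ioo 0 T, ‖a t‖ₑ ^ 2) ^ (1 / 2 : ℝ) ≤ (ENNReal.ofReal (c ^ 2)) ^ (1 / 2 : ℝ) :=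
        ENNReal.rpow_le_rpow ba (by norm_num)
    _ = ENNReal.ofReal c := by
        rw [ENNReal.ofReal_rpow_of_nonneg (sq_nonneg _) (by norm_num), ← Real.sqrt_eq_rpow,
          Real.sqrt_sq hc]

lemma series {T : ℝ} {a : ℕ → ℝ → ℝ} {c : ℕ → ℝ} (hc0 : ∀ k, 0 ≤ c k) (hc : Summable c)
    (ma : ∀ k, AEStronglyMeasurable (a k) (volume.restrict (Ioo 0 T)))
    (ba : ∀ k, ∫⁻ t in Ioo 0 T, ‖a k t‖ₑ ^ 2 ≤ ENNReal.ofReal (c k ^ 2)) :
    (∀ᵐ t ∂volume.restrict (Ioo 0 T),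
      Tendsto (fun N => ∑ k ∈ Finset.range N, a k t) atTop (𝓝 (∑' k, a k t))) ∧
    AEStronglyMeasurable (fun t => ∑' k, a k t) (volume.restrict (Ioo 0 T)) ∧
    ∀ g : ℝ → ℝ, Continuous g →
      Tendsto (fun N => ∫ t in Ioo 0 T, (∑ k ∈ Finset.range N, a k t) * g t) atTop
        (𝓝 (∫ t in Ioo 0 T, (∑' k, a k t) * g t)) := by
  set K : ℝ≥0∞ := (volume.restrict (Ioo 0 T)) univ ^ (1 / 2 : ℝ) with hK
  have hKt : K ≠ ⊤ := by
    rw [hK]
    exact ENNReal.rpow_ne_top_of_nonneg (by norm_num) (measure_ne_top _ _)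
  have h1 : ∀ k, ∫⁻ t in Ioo 0 T, ‖a k t‖ₑ ≤ ENNReal.ofReal (c k) * K := fun k =>
    lint_one_le (hc0 k) (ma k) (ba k)
  have hsum : ∑' k, ENNReal.ofReal (c k) * K < ⊤ := by
    rw [ENNReal.tsum_mul_right, ← ENNReal.ofReal_tsum_of_nonneg hc0 hc]
    exact ENNReal.mul_lt_top ENNReal.ofReal_lt_top hKt.lt_top
  have h2 : ∫⁻ t in Ioo 0 T, ∑' k, ‖a k t‖ₑ < ⊤ := by
    rw [lintegral_tsum fun k => (ma k).enorm]
    exact (ENNReal.tsum_le_tsum h1).trans_lt hsum
  have h3 : ∀ᵐ t ∂volume.restrict (Ioo 0 T), ∑' k, ‖a k t‖ₑ < ⊤ :=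
    ae_lt_top' (AEMeasurable.tsum fun k => (ma k).enorm) h2.ne
  have h4 : ∀ᵐ t ∂volume.restrict (Ioo 0 T), Summable fun k => a k t := by
    filter_upwards [h3] with t ht
    have h5 : Summable fun k => ‖a k t‖₊ := ENNReal.tsum_coe_ne_top_iff_summable.1 ht.ne
    exact Summable.of_norm (NNReal.summable_coe.2 h5)
  have h5 : ∀ᵐ t ∂volume.restrict (Ioo 0 T),
      Tendsto (fun N => ∑ k ∈ Finset.range N, a k t) atTop (𝓝 (∑' k, a k t)) := by
    filter_upwards [h4] with t ht using ht.hasSum.tendsto_sum_nat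
  refine ⟨h5, ?_, ?_⟩
  · exact aestronglyMeasurable_of_tendsto_ae atTop
      (fun N => Finset.aestronglyMeasurable_fun_sum _ fun k _ => ma k) h5
  · intro g hg
    obtain ⟨C, hC⟩ := (isCompact_Icc (a := (0 : ℝ)) (b := T)).exists_bound_of_continuousOn
      hg.continuousOn
    have hai : ∀ k, Integrable (a k) (volume.restrict (Ioo 0 T)) := fun k =>
      ⟨ma k, (h1 k).trans_lt (ENNReal.mul_lt_top ENNReal.ofReal_lt_top hKt.lt_top)⟩
    have hgb : ∀ᵐ t ∂volume.restrict (Ioo 0 T), ‖g t‖ ≤ C := by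
      filter_upwards [ae_restrict_mem measurableSet_Ioo] with t ht
      exact hC t (Ioo_subset_Icc_self ht)
    have hi : ∀ k, Integrable (fun t => a k t * g t) (volume.restrict (Ioo 0 T)) := fun k =>
      (hai k).mul_bdd hg.aestronglyMeasurable hgb
    have hn : ∀ k, ∫ t in Ioo 0 T, ‖a k t‖ ≤ c k * K.toReal := by
      intro k
      rw [integral_norm_eq_lintegral_enorm (ma k)]
      have h6 := ENNReal.toReal_mono
        (ENNReal.mul_lt_top ENNReal.ofReal_lt_top hKt.lt_top).ne (h1 k)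
      rwa [ENNReal.toReal_mul, ENNReal.toReal_ofReal (hc0 k)] at h6
    have hs : Summable fun k => ∫ t in Ioo 0 T, ‖a k t * g t‖ := by
      refine Summable.of_nonneg_of_le (fun k => integral_nonneg fun t => norm_nonneg _)
        (fun k => ?_) ((hc.mul_right K.toReal).mul_right |C|)
      calc ∫ t in Ioo 0 T, ‖a k t * g t‖ ≤ ∫ t in Ioo 0 T, ‖a k t‖ * |C| := by
            refine integral_mono_ae (hi k).norm ((hai k).norm.mul_const _) ?_
            filter_upwards [hgb] with t ht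
            rw [norm_mul]
            exact mul_le_mul_of_nonneg_left (ht.trans (le_abs_self C)) (norm_nonneg _)
        _ = (∫ t in Ioo 0 T, ‖a k t‖) * |C| := integral_mul_const _ _
        _ ≤ c k * K.toReal * |C| := mul_le_mul_of_nonneg_right (hn k) (abs_nonneg _)
    have h6 := (hasSum_integral_of_summable_integral_norm hi hs).tendsto_sum_nat
    have h7 : ∀ t, ∑' k, a k t * g t = (∑' k, a k t) * g t := fun t => tsum_mul_right
    simp only [h7] at h6
    refine h6.congr fun N => ?_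
    rw [← integral_finsetSum _ fun k _ => hi k]
    simp only [Finset.sum_mul]

/-! ### Fatou's lemma for the seminorm -/

lemma sob_lim {T : ℝ} {h : ℕ → ℝ → ℝ} {h' : ℝ → ℝ} {M : ℝ≥0∞}
    (mh : ∀ N, AEStronglyMeasurable (h N) (volume.restrict (Ioo 0 T)))
    (hM : ∀ N, sob T (h N) ≤ M)
    (hl : ∀ᵐ t ∂volume.restrict (Ioo 0 T), Tendsto (fun N => h N t) atTop (𝓝 (h' t))) :
    sob T h' ≤ M := by
  have e1 : ∀ᵐ t ∂volume.restrict (Ioo 0 T),
      ‖h' t‖ₑ ^ 2 = liminf (fun N => ‖h N t‖ₑ ^ 2) atTop := by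
    filter_upwards [hl] with t ht
    have h1 : Tendsto (fun N => ‖h N t‖ₑ ^ 2) atTop (𝓝 (‖h' t‖ₑ ^ 2)) :=
      (ENNReal.continuous_pow 2).continuousAt.tendsto.comp ht.enorm
    exact h1.liminf_eq.symm
  have A : ∫⁻ t in Ioo 0 T, ‖h' t‖ₑ ^ 2 ≤
      liminf (fun N => ∫⁻ t in Ioo 0 T, ‖h N t‖ₑ ^ 2) atTop := by
    rw [lintegral_congr_ae e1]
    exact lintegral_liminf_le' fun N => (mh N).enorm.pow_const 2
  have mk : ∀ N t, AEMeasurable (fun s => ‖h N t - h N s‖ₑ ^ 2 /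
      ENNReal.ofReal (|t - s| ^ (5 / 3 : ℝ))) (volume.restrict (Ioo 0 T)) := by
    intro N t
    refine ((aestronglyMeasurable_const.sub (mh N)).enorm.pow_const 2).div ?_
    exact (by fun_prop : Measurable fun s : ℝ =>
      ENNReal.ofReal (|t - s| ^ (5 / 3 : ℝ))).aemeasurable
  have mK : ∀ N, AEMeasurable (fun t => ∫⁻ s in Ioo 0 T, ‖h N t - h N s‖ₑ ^ 2 /
      ENNReal.ofReal (|t - s| ^ (5 / 3 : ℝ))) (volume.restrict (Ioo 0 T)) := by
    intro N
    have h1 : AEMeasurable (fun p : ℝ × ℝ => ‖h N p.1 - h N p.2‖ₑ ^ 2 /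
        ENNReal.ofReal (|p.1 - p.2| ^ (5 / 3 : ℝ)))
        ((volume.restrict (Ioo 0 T)).prod (volume.restrict (Ioo 0 T))) := by
      refine (((mh N).comp_fst.sub (mh N).comp_snd).enorm.pow_const 2).div ?_
      exact (by fun_prop : Measurable fun p : ℝ × ℝ =>
        ENNReal.ofReal (|p.1 - p.2| ^ (5 / 3 : ℝ))).aemeasurable
    exact h1.lintegral_prod_right'
  have B : (∫⁻ t in Ioo 0 T, ∫⁻ s in Ioo 0 T, ‖h' t - h' s‖ₑ ^ 2 /
        ENNReal.ofReal (|t - s| ^ (5 / 3 : ℝ))) ≤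
      liminf (fun N => ∫⁻ t in Ioo 0 T, ∫⁻ s in Ioo 0 T, ‖h N t - h N s‖ₑ ^ 2 /
        ENNReal.ofReal (|t - s| ^ (5 / 3 : ℝ))) atTop := by
    refine le_trans ?_ (lintegral_liminf_le' mK)
    refine lintegral_mono_ae ?_
    filter_upwards [hl, ae_restrict_mem measurableSet_Ioo] with t ht _
    refine le_trans ?_ (lintegral_liminf_le' (mk · t))
    refine (lintegral_congr_ae ?_).le
    have hne : ∀ᵐ s ∂volume.restrict (Ioo 0 T), s ≠ t := ae_restrict_of_ae (Measure.ae_ne volume t)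
    filter_upwards [hl, hne] with s hs hst
    have h1 : Tendsto (fun N => ‖h N t - h N s‖ₑ ^ 2) atTop (𝓝 (‖h' t - h' s‖ₑ ^ 2)) :=
      (ENNReal.continuous_pow 2).continuousAt.tendsto.comp (ht.sub hs).enorm
    have h2 : ENNReal.ofReal (|t - s| ^ (5 / 3 : ℝ)) ≠ 0 := by
      rw [ne_eq, ENNReal.ofReal_eq_zero, not_le]
      exact Real.rpow_pos_of_pos (abs_pos.2 (sub_ne_zero.2 hst.symm)) _
    exact (ENNReal.Tendsto.div_const h1 (Or.inr h2)).liminf_eq.symm
  unfold sob at hM ⊢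
  refine (add_le_add A B).trans ?_
  rw [liminf_eq_iSup_iInf_of_nat, liminf_eq_iSup_iInf_of_nat,
    ENNReal.iSup_add_iSup_of_monotone]
  · refine iSup_le fun n => ?_
    refine le_trans (add_le_add (iInf₂_le n le_rfl) (iInf₂_le n le_rfl)) (hM n)
  · intro m n hmn
    exact le_iInf₂ fun i hi => iInf₂_le i (hmn.trans hi)
  · intro m n hmn
    exact le_iInf₂ fun i hi => iInf₂_le i (hmn.trans hi)
/-! ### Limits of pairings -/

section

variable {H V : Type} [NormedAddCommGroup H] [InnerProductSpace ℝ H] [CompleteSpace H]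
  [NormedAddCommGroup V] [NormedSpace ℝ V]

omit [CompleteSpace H] in
lemma pair_int {T : ℝ} {a f : ℝ → H} (ha : Continuous a) (hf : IntegrableOn f (Ioc 0 T)) :
    IntegrableOn (fun t => (inner ℝ (a t) (f t) : ℝ)) (Ioc 0 T) := by
  obtain ⟨C, hC⟩ := (isCompact_Icc (a := (0 : ℝ)) (b := T)).exists_bound_of_continuousOn
    ha.continuousOn
  refine Integrable.mono' (hf.norm.const_mul C) (ha.aestronglyMeasurable.inner hf.1) ?_
  filter_upwards [ae_restrict_mem measurableSet_Ioc] with t ht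
  exact (norm_inner_le_norm _ _).trans
    (mul_le_mul_of_nonneg_right (hC t (Ioc_subset_Icc_self ht)) (norm_nonneg _))

omit [CompleteSpace H] in
lemma pair_lim {T : ℝ} {a : ℝ → H} (ha : Continuous a) {f : ℕ → ℝ → H} {F : ℝ → H}
    (hf : ∀ N, IntegrableOn (f N) (Ioc 0 T)) (hF : IntegrableOn F (Ioc 0 T))
    (h : Tendsto (fun N => ∫ t in Ioc 0 T, ‖F t - f N t‖) atTop (𝓝 0)) :
    Tendsto (fun N => ∫ t in Ioc 0 T, (inner ℝ (a t) (f N t) : ℝ)) atTop
      (𝓝 (∫ t in Ioc 0 T, (inner ℝ (a t) (F t) : ℝ))) := by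
  obtain ⟨C, hC⟩ := (isCompact_Icc (a := (0 : ℝ)) (b := T)).exists_bound_of_continuousOn
    ha.continuousOn
  rw [tendsto_iff_norm_sub_tendsto_zero]
  refine squeeze_zero (fun _ => norm_nonneg _) (fun N => ?_) (by simpa using h.const_mul C)
  rw [← integral_sub (pair_int ha (hf N)) (pair_int ha hF), ← integral_const_mul]
  refine norm_integral_le_of_norm_le ((hF.sub (hf N)).norm.const_mul C) ?_
  filter_upwards [ae_restrict_mem measurableSet_Ioc] with t ht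
  rw [← inner_sub_right]
  refine (norm_inner_le_norm _ _).trans ?_
  rw [norm_sub_rev]
  exact mul_le_mul_of_nonneg_right (hC t (Ioc_subset_Icc_self ht)) (norm_nonneg _)

lemma traj_sub (S : Sm H V) (Y y : H) {F f : ℝ → H} {T : ℝ}
    (hF : IntegrableOn F (Ioc 0 T)) (hf : IntegrableOn f (Ioc 0 T)) {t : ℝ} (ht : t ∈ Icc 0 T) :
    S.traj (Y - y) (fun s => F s - f s) t = S.traj Y F t - S.traj y f t := by
  have h1 := S.traj_add (Y - y) y (f := fun s => F s - f s) (g := f) (hF.sub hf) hf ht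
  simp only [sub_add_cancel] at h1
  rw [eq_sub_iff_add_eq]
  exact h1.symm

lemma traj_diff (S : Sm H V) (Y y : H) {F f : ℝ → H} {T : ℝ}
    (hF : IntegrableOn F (Ioc 0 T)) (hf : IntegrableOn f (Ioc 0 T)) {t : ℝ} (ht : t ∈ Icc 0 T) :
    ‖S.traj Y F t - S.traj y f t‖ ≤ ‖Y - y‖ + ∫ s in Ioc 0 T, ‖F s - f s‖ := by
  rw [← traj_sub S Y y hF hf ht]
  refine (S.traj_norm (Y - y) (hF.sub hf) ht).trans ?_
  rw [intervalIntegral.integral_of_le ht.1]
  refine add_le_add_right (setIntegral_mono_set (hF.sub hf).norm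
    (Eventually.of_forall fun s => norm_nonneg _) ?_) _
  exact (Ioc_subset_Ioc_right ht.2).eventuallyLE

lemma traj_intOn (S : Sm H V) (y : H) {f : ℝ → H} {T : ℝ} (hT : 0 ≤ T)
    (hf : IntegrableOn f (Ioc 0 T)) : IntegrableOn (S.traj y f) (Ioc 0 T) :=
  ((S.traj_cont y hT hf).integrableOn_Icc).mono_set Ioc_subset_Icc_self

end

/-- The weak identity in terms of scalar products. -/
lemma weak_iff {L μ T : ℝ} {y : L2} {u f : ℝ → L2} {h0 h1 : ℝ → ℝ} {h2 : (ℝ → ℝ) → ℝ}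
    (hu : IntegrableOn u (Ioc 0 T)) (hf : IntegrableOn f (Ioc 0 T)) :
    WeakId L μ T y u f h0 h1 h2 ↔ ∀ (φ : ℝ → ℝ → ℝ) (hφ : Test L T φ)
      (c1 : Continuous (Function.uncurry φ))
      (c2 : Continuous (Function.uncurry fun t x =>
        deriv (fun r => φ r x) t + μ * iteratedDeriv 3 (φ t) x)),
      inner ℝ (cut L c1 T) (u T) - inner ℝ (cut L c1 0) y =
        ((∫ t in Ioc 0 T, (inner ℝ (cut L c2 t) (u t) : ℝ)) +
          ∫ t in Ioc 0 T, (inner ℝ (cut L c1 t) (f t) : ℝ)) -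
        μ * h2 (fun t => φ t L) +
        μ * (∫ t in Ioo 0 T, h1 t * deriv (φ t) L) +
        μ * ∫ t in Ioo 0 T, h0 t * iteratedDeriv 2 (φ t) 0 := by
  have key : ∀ (φ : ℝ → ℝ → ℝ) (hφ : Test L T φ)
      (c1 : Continuous (Function.uncurry φ))
      (c2 : Continuous (Function.uncurry fun t x =>
        deriv (fun r => φ r x) t + μ * iteratedDeriv 3 (φ t) x)),
      ((∫ x in Ioo 0 L, u T x * φ T x) - ∫ x in Ioo 0 L, y x * φ 0 x =
      (∫ t in Ioo 0 T, ∫ x in Ioo 0 L, (u t x *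
        (deriv (fun r => φ r x) t + μ * iteratedDeriv 3 (φ t) x) + f t x * φ t x)) -
      μ * h2 (fun t => φ t L) +
      μ * (∫ t in Ioo 0 T, h1 t * deriv (φ t) L) +
      μ * ∫ t in Ioo 0 T, h0 t * iteratedDeriv 2 (φ t) 0) ↔
      inner ℝ (cut L c1 T) (u T) - inner ℝ (cut L c1 0) y =
        ((∫ t in Ioc 0 T, (inner ℝ (cut L c2 t) (u t) : ℝ)) +
          ∫ t in Ioc 0 T, (inner ℝ (cut L c1 t) (f t) : ℝ)) -
        μ * h2 (fun t => φ t L) +
        μ * (∫ t in Ioo 0 T, h1 t * deriv (φ t) L) +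
        μ * ∫ t in Ioo 0 T, h0 t * iteratedDeriv 2 (φ t) 0 := by
    intro φ hφ c1 c2
    have hi : ∀ (w : L2) {ψ : ℝ → ℝ → ℝ} (c : Continuous (Function.uncurry ψ)) (t : ℝ),
        Integrable (fun x => w x * ψ t x) (volume.restrict (Ioo 0 L)) := by
      intro w ψ c t
      have h1 := memLp_cut L (c.comp (Continuous.prodMk_right t))
      have h2 : MemLp (fun x => ψ t x) 2 (volume.restrict (Ioo 0 L)) := by
        refine (h1.restrict (Ioo 0 L)).ae_eq ?_
        filter_upwards [ae_restrict_mem measurableSet_Ioo] with x hx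
        rw [indicator_of_mem (Ioo_subset_Icc_self hx)]
        rfl
      exact ((Lp.memLp w).restrict (Ioo 0 L)).integrable_mul h2
    have h3 : (∫ t in Ioo 0 T, ∫ x in Ioo 0 L, (u t x *
        (deriv (fun r => φ r x) t + μ * iteratedDeriv 3 (φ t) x) + f t x * φ t x)) =
        (∫ t in Ioc 0 T, (inner ℝ (cut L c2 t) (u t) : ℝ)) +
          ∫ t in Ioc 0 T, (inner ℝ (cut L c1 t) (f t) : ℝ) := by
      rw [← integral_add (pair_int (cut_cont L c2) hu) (pair_int (cut_cont L c1) hf),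
        integral_Ioc_eq_integral_Ioo]
      congr 1
      funext t
      rw [integral_add (hi (u t) c2 t) (hi (f t) c1 t), cut_inner L c1 t (f t),
        ← cut_inner L c2 t (u t)]
    rw [h3, cut_inner L c1 T (u T), cut_inner L c1 0 y]
  constructor
  · intro h φ hφ c1 c2
    exact (key φ hφ c1 c2).1 (h φ hφ)
  · intro h φ hφ
    have c1 : Continuous (Function.uncurry φ) := hφ.smooth.continuous
    have c2 : Continuous (Function.uncurry fun t x =>
        deriv (fun r => φ r x) t + μ * iteratedDeriv 3 (φ t) x) :=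
      (smooth_dt hφ.smooth).continuous.add
        (continuous_const.mul (smooth_iter hφ.smooth 3).continuous)
    exact (key φ hφ c1 c2).2 (h φ hφ c1 c2)
/-! ### The boundary value at `0` -/

lemma exists_val0 {L : ℝ} (hL : 0 < L) : ∃ ℓ : V1 L →L[ℝ] ℝ, ∀ p, ℓ p = p.val 0 := by
  obtain ⟨C, hC0, hC⟩ := agmon hL
  have h0 : (0 : ℝ) ∈ Icc (-1) (L + 1) := ⟨by norm_num, by linarith⟩
  refine ⟨LinearMap.mkContinuous
    { toFun := fun p => p.val 0
      map_add' := fun p q => V1.val_add hL p q h0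
      map_smul' := fun r p => V1.val_smul hL r p h0 } (√C) ?_, fun p => rfl⟩
  intro p
  show ‖p.val 0‖ ≤ √C * ‖p‖
  have h1 : (p.val 0) ^ 2 ≤ C * ‖p‖ ^ 2 := by
    refine (hC p 0 h0).trans (mul_le_mul_of_nonneg_left ?_ hC0)
    rw [sq]
    exact mul_le_mul_of_nonneg_right (V1.norm_u_le p) (norm_nonneg _)
  rw [Real.norm_eq_abs, ← Real.sqrt_sq_eq_abs]
  refine (Real.sqrt_le_sqrt h1).trans_eq ?_
  rw [Real.sqrt_mul hC0, Real.sqrt_sq (norm_nonneg _)]

section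

variable {H V : Type} [NormedAddCommGroup H] [InnerProductSpace ℝ H] [CompleteSpace H]
  [NormedAddCommGroup V] [NormedSpace ℝ V]

lemma path_sub {S : Sm H V} {Y y : H} {F f : ℝ → H} {T : ℝ} {v w : ℝ → V}
    (hv : S.Path Y T F v) (hw : S.Path y T f w) :
    S.Path (Y - y) T (fun s => F s - f s) (fun t => v t - w t) := by
  have mem : ∀ {u : ℝ → V}, AEStronglyMeasurable u (volume.restrict (Ioc 0 T)) →
      ∫⁻ t in Ioc (0 : ℝ) T, ‖u t‖ₑ ^ 2 < ⊤ → MemLp u 2 (volume.restrict (Ioc 0 T)) := by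
    intro u h1 h2
    refine ⟨h1, ?_⟩
    rw [eLpNorm_two_eq]
    exact ENNReal.rpow_lt_top_of_nonneg (by norm_num) h2.ne
  have h3 := (mem hv.meas hv.fin).sub (mem hw.meas hw.fin)
  refine ⟨hv.int.sub hw.int, hv.meas.sub hw.meas, ?_, ?_⟩
  · have h4 := h3.2
    rw [eLpNorm_two_eq] at h4
    by_contra h5
    rw [not_lt, top_le_iff] at h5
    simp only [Pi.sub_apply] at h4
    rw [h5, ENNReal.top_rpow_of_pos (by norm_num)] at h4
    exact lt_irrefl _ h4
  · filter_upwards [hv.lift, hw.lift, ae_restrict_mem measurableSet_Ioc] with t h4 h5 h6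
    rw [map_sub, h4, h5, traj_sub S Y y hv.int hw.int (Ioc_subset_Icc_self h6)]

end

lemma val_lim {L μ T : ℝ} (hL : 0 < L) (hμ : 0 < μ) (hT : 0 < T) {Y : L2} {F : ℝ → L2}
    {v : ℝ → V1 L} (hv : (sm1 hL hμ).Path Y T F v) {y : ℕ → L2} {f : ℕ → ℝ → L2}
    {w : ℕ → ℝ → V1 L} (hw : ∀ N, (sm1 hL hμ).Path (y N) T (f N) (w N))
    (he : Tendsto (fun N => ‖Y - y N‖ + ∫ s in Ioc 0 T, ‖F s - f N s‖) atTop (𝓝 0))
    {h : ℝ → ℝ} (hl : ∀ᵐ t ∂volume.restrict (Ioc 0 T),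
      Tendsto (fun N => (w N t).val 0) atTop (𝓝 (h t))) :
    ∀ᵐ t ∂volume.restrict (Ioc 0 T), h t = (v t).val 0 := by
  obtain ⟨ℓ, hℓ⟩ := exists_val0 hL
  obtain ⟨C, hC0, hC⟩ := (sm1 hL hμ).path_bound hT
  have h1 : ∀ N, ∫⁻ t in Ioc 0 T, ‖ℓ (v t) - ℓ (w N t)‖ₑ ^ 2 ≤ ‖ℓ‖ₑ ^ 2 *
      ENNReal.ofReal (C * (‖Y - y N‖ + ∫ s in Ioc 0 T, ‖F s - f N s‖) ^ 2) := by
    intro N
    have h2 := hC _ _ _ (path_sub hv (hw N))
    refine le_trans ?_ (mul_le_mul' (le_refl (‖ℓ‖ₑ ^ 2)) h2)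
    have hm : AEMeasurable (fun t => ‖v t - w N t‖ₑ ^ 2) (volume.restrict (Ioc 0 T)) :=
      (hv.meas.sub (hw N).meas).enorm.pow_const 2
    rw [← lintegral_const_mul'' _ hm]
    refine lintegral_mono fun t => ?_
    rw [← mul_pow, ← map_sub]
    exact pow_le_pow_left' (ℓ.le_opENorm _) 2
  have h2 : Tendsto (fun N => ‖ℓ‖ₑ ^ 2 *
      ENNReal.ofReal (C * (‖Y - y N‖ + ∫ s in Ioc 0 T, ‖F s - f N s‖) ^ 2)) atTop (𝓝 0) := by
    have h3 : Tendsto (fun N => ENNReal.ofReal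
        (C * (‖Y - y N‖ + ∫ s in Ioc 0 T, ‖F s - f N s‖) ^ 2)) atTop (𝓝 0) := by
      have h4 := ENNReal.tendsto_ofReal ((he.pow 2).const_mul C)
      simpa using h4
    have h5 := ENNReal.Tendsto.const_mul (a := ‖ℓ‖ₑ ^ 2) h3 (Or.inr (by finiteness))
    simpa using h5
  have h3 : ∀ᵐ t ∂volume.restrict (Ioc 0 T), ‖ℓ (v t) - h t‖ₑ ^ 2 =
      liminf (fun N => ‖ℓ (v t) - ℓ (w N t)‖ₑ ^ 2) atTop := by
    filter_upwards [hl] with t ht
    simp only [← hℓ] at ht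
    have h4 : Tendsto (fun N => ‖ℓ (v t) - ℓ (w N t)‖ₑ ^ 2) atTop
        (𝓝 (‖ℓ (v t) - h t‖ₑ ^ 2)) :=
      (ENNReal.continuous_pow 2).continuousAt.tendsto.comp (tendsto_const_nhds.sub ht).enorm
    exact h4.liminf_eq.symm
  have hmw : ∀ N, AEStronglyMeasurable (fun t => ℓ (v t) - ℓ (w N t))
      (volume.restrict (Ioc 0 T)) := fun N =>
    (ℓ.continuous.comp_aestronglyMeasurable hv.meas).sub
      (ℓ.continuous.comp_aestronglyMeasurable (hw N).meas)
  have h4 : ∫⁻ t in Ioc 0 T, ‖ℓ (v t) - h t‖ₑ ^ 2 = 0 := by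
    rw [lintegral_congr_ae h3]
    refine le_antisymm ?_ zero_le
    refine (lintegral_liminf_le' fun N => (hmw N).enorm.pow_const 2).trans ?_
    exact (liminf_le_liminf (Eventually.of_forall h1)).trans h2.liminf_eq.le
  have hmh : AEStronglyMeasurable h (volume.restrict (Ioc 0 T)) := by
    refine aestronglyMeasurable_of_tendsto_ae atTop (f := fun N t => ℓ (w N t))
      (fun N => ℓ.continuous.comp_aestronglyMeasurable (hw N).meas) ?_
    filter_upwards [hl] with t ht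
    simpa only [hℓ] using ht
  have hm4 : AEMeasurable (fun t => ‖ℓ (v t) - h t‖ₑ ^ 2) (volume.restrict (Ioc 0 T)) :=
    ((ℓ.continuous.comp_aestronglyMeasurable hv.meas).sub hmh).enorm.pow_const 2
  rw [lintegral_eq_zero_iff' hm4] at h4
  filter_upwards [h4] with t ht
  have h5 : ‖ℓ (v t) - h t‖ₑ = 0 := by
    have h6 : ‖ℓ (v t) - h t‖ₑ ^ 2 = 0 := ht
    exact pow_eq_zero_iff (two_ne_zero) |>.1 h6
  rw [enorm_eq_zero, sub_eq_zero] at h5
  rw [← h5, hℓ]

end TrSumAux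

open TrSumAux

variable {L μ T : ℝ} {hL : 0 < L} {hμ : 0 < μ}

lemma TrSumAux.partial_sums (hT : 0 < T) {y : ℕ → L2} {f : ℕ → ℝ → L2} {c : ℕ → ℝ} {h0 h1 : ℕ → ℝ → ℝ}
    {h2 : ℕ → (ℝ → ℝ) → ℝ} (h : ∀ k, HasTr hL hμ T (y k) (f k) (c k) (h0 k) (h1 k) (h2 k)) (N : ℕ) :
    HasTr hL hμ T (∑ k ∈ Finset.range N, y k)
      (fun t => ∑ k ∈ Finset.range N, f k t) (∑ k ∈ Finset.range N, c k)
      (fun t => ∑ k ∈ Finset.range N, h0 k t) (fun t => ∑ k ∈ Finset.range N, h1 k t)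
      (fun φ => ∑ k ∈ Finset.range N, h2 k φ) := by
  induction N with
  | zero =>
    have h3 := (h 0).smul hT 0
    simp only [zero_smul, abs_zero, zero_mul] at h3
    simpa only [Finset.range_zero, Finset.sum_empty] using h3
  | succ N ih =>
    simp only [Finset.sum_range_succ]
    exact ih.add hT (h N)

lemma TrSumAux.cont_snd {g : ℝ → ℝ → ℝ} (h : Continuous (Function.uncurry g)) (x : ℝ) :
    Continuous fun t => g t x := h.comp (Continuous.prodMk_left x)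

lemma TrSumAux.smooth_snd {g : ℝ → ℝ → ℝ} (h : ContDiff ℝ ∞ (Function.uncurry g)) (x : ℝ) :
    ContDiff ℝ ∞ fun t => g t x := h.comp (contDiff_id.prodMk contDiff_const)

lemma TrSumAux.cont_i2 {φ : ℝ → ℝ → ℝ} (h : ContDiff ℝ ∞ (Function.uncurry φ)) (x : ℝ) :
    Continuous fun t => iteratedDeriv 2 (φ t) x :=
  TrSumAux.cont_snd (g := fun t x => iteratedDeriv 2 (φ t) x) (smooth_iter h 2).continuous x

lemma TrSumAux.weak_lim (S : Sm L2 (V1 L)) (hT : 0 < T) {Y : L2} {F : ℝ → L2}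
    (hF : IntegrableOn F (Ioc 0 T)) {y : ℕ → L2} {f : ℕ → ℝ → L2}
    (hi : ∀ N, IntegrableOn (f N) (Ioc 0 T)) {h0 h1 : ℕ → ℝ → ℝ} {h2 : ℕ → (ℝ → ℝ) → ℝ}
    {h0' h1' : ℝ → ℝ} {h2' : (ℝ → ℝ) → ℝ}
    (hw : ∀ N, WeakId L μ T (y N) (S.traj (y N) (f N)) (f N) (h0 N) (h1 N) (h2 N))
    (hY : Tendsto y atTop (𝓝 Y))
    (hF' : Tendsto (fun N => ∫ t in Ioc 0 T, ‖F t - f N t‖) atTop (𝓝 0))
    (he : Tendsto (fun N => ‖Y - y N‖ + ∫ s in Ioc 0 T, ‖F s - f N s‖) atTop (𝓝 0))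
    (S0 : ∀ g : ℝ → ℝ, Continuous g → Tendsto (fun N => ∫ t in Ioo 0 T, h0 N t * g t) atTop
      (𝓝 (∫ t in Ioo 0 T, h0' t * g t)))
    (S1 : ∀ g : ℝ → ℝ, Continuous g → Tendsto (fun N => ∫ t in Ioo 0 T, h1 N t * g t) atTop
      (𝓝 (∫ t in Ioo 0 T, h1' t * g t)))
    (S2 : ∀ φ : ℝ → ℝ, ContDiff ℝ ∞ φ → Tendsto (fun N => h2 N φ) atTop (𝓝 (h2' φ))) :
    WeakId L μ T Y (S.traj Y F) F h0' h1' h2' := by
  have hui := traj_intOn S Y hT.le hF
  have huN : ∀ N, IntegrableOn (S.traj (y N) (f N)) (Ioc 0 T) := fun N =>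
    traj_intOn S _ hT.le (hi N)
  rw [weak_iff hui hF]
  intro φ hφ c1 c2
  have cL := cont_snd (smooth_dx hφ.smooth).continuous L
  have c0 := cont_i2 hφ.smooth 0
  have hφL := smooth_snd hφ.smooth L
  have hd : ∀ N, ∀ t ∈ Icc 0 T, ‖S.traj Y F t - S.traj (y N) (f N) t‖ ≤
      ‖Y - y N‖ + ∫ s in Ioc 0 T, ‖F s - f N s‖ := fun N t ht =>
    traj_diff S _ _ hF (hi N) ht
  have t0 : Tendsto (fun N => S.traj (y N) (f N) T) atTop (𝓝 (S.traj Y F T)) := by
    rw [tendsto_iff_norm_sub_tendsto_zero]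
    refine squeeze_zero (fun _ => norm_nonneg _) (fun N => ?_) he
    rw [norm_sub_rev]
    exact hd N T ⟨hT.le, le_rfl⟩
  have t1 : Tendsto (fun N => (inner ℝ (cut L c1 T) (S.traj (y N) (f N) T) : ℝ) -
      inner ℝ (cut L c1 0) (y N)) atTop
      (𝓝 ((inner ℝ (cut L c1 T) (S.traj Y F T) : ℝ) - inner ℝ (cut L c1 0) Y)) :=
    Tendsto.sub (tendsto_const_nhds.inner t0) (tendsto_const_nhds.inner hY)
  have t2 : Tendsto (fun N => ∫ t in Ioc 0 T, (inner ℝ (cut L c2 t)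
      (S.traj (y N) (f N) t) : ℝ)) atTop
      (𝓝 (∫ t in Ioc 0 T, (inner ℝ (cut L c2 t) (S.traj Y F t) : ℝ))) := by
    refine pair_lim (cut_cont L c2) huN hui ?_
    have he2 := he.mul_const T
    rw [zero_mul] at he2
    refine squeeze_zero (fun _ => integral_nonneg fun _ => norm_nonneg _) (fun N => ?_) he2
    have h3 := setIntegral_mono_on (hui.sub (huN N)).norm
      (integrableOn_const (C := ‖Y - y N‖ + ∫ s in Ioc 0 T, ‖F s - f N s‖)
        measure_Ioc_lt_top.ne (by simp))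
      measurableSet_Ioc (fun t ht => hd N t (Ioc_subset_Icc_self ht))
    refine h3.trans_eq ?_
    rw [setIntegral_const, smul_eq_mul, mul_comm]
    congr 1
    rw [Real.volume_real_Ioc_of_le hT.le, sub_zero]
  have t3 := pair_lim (cut_cont L c1) hi hF hF'
  have t4 := (S2 _ hφL).const_mul μ
  have t5 := (S1 _ cL).const_mul μ
  have t6 := (S0 _ c0).const_mul μ
  refine tendsto_nhds_unique t1 (Tendsto.congr (fun N => ?_)
    ((((t2.add t3).sub t4).add t5).add t6))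
  exact ((weak_iff (huN N) (hi N)).1 (hw N) φ hφ c1 c2).symm

theorem HasTr.tsum (hT : 0 < T) {y : ℕ → L2} {f : ℕ → ℝ → L2} {c : ℕ → ℝ} {h0 h1 : ℕ → ℝ → ℝ}
    {h2 : ℕ → (ℝ → ℝ) → ℝ} (h : ∀ k, HasTr hL hμ T (y k) (f k) (c k) (h0 k) (h1 k) (h2 k))
    (hc : Summable c) {Y : L2} {F : ℝ → L2} (hF : IntegrableOn F (Ioc 0 T))
    (hY : Tendsto (fun N => ∑ k ∈ Finset.range N, y k) atTop (𝓝 Y))
    (hF' : Tendsto (fun N => ∫ t in Ioc 0 T, ‖F t - ∑ k ∈ Finset.range N, f k t‖) atTop (𝓝 0)) :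
    ∃ (h0' h1' : ℝ → ℝ) (h2' : (ℝ → ℝ) → ℝ), HasTr hL hμ T Y F (∑' k, c k) h0' h1' h2' := by
  have hc0 : ∀ k, 0 ≤ c k := fun k => (h k).c_nonneg
  have hC0 : 0 ≤ ∑' k, c k := tsum_nonneg hc0
  have PS := partial_sums hT h
  have b0 : ∀ k, ∫⁻ t in Ioo 0 T, ‖h0 k t‖ₑ ^ 2 ≤ ENNReal.ofReal (c k ^ 2) := fun k =>
    le_trans (by unfold sob; exact le_self_add) (h k).b0
  obtain ⟨L0, M0, S0⟩ := series hc0 hc (fun k => (h k).m0) b0
  obtain ⟨L1, M1, S1⟩ := series hc0 hc (fun k => (h k).m1) (fun k => (h k).b1)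
  have hcN : ∀ N, ENNReal.ofReal ((∑ k ∈ Finset.range N, c k) ^ 2) ≤
      ENNReal.ofReal ((∑' k, c k) ^ 2) := by
    intro N
    refine ENNReal.ofReal_le_ofReal (pow_le_pow_left₀ (Finset.sum_nonneg fun k _ => hc0 k) ?_ 2)
    exact hc.sum_le_tsum _ fun k _ => hc0 k
  have hs2 : ∀ φ : ℝ → ℝ, ContDiff ℝ ∞ φ → Summable fun k => h2 k φ := by
    intro φ hφ
    exact Summable.of_norm_bounded (hc.mul_right _) fun k => (h k).b2 φ hφ
  have he : Tendsto (fun N => ‖Y - ∑ k ∈ Finset.range N, y k‖ +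
      ∫ t in Ioc 0 T, ‖F t - ∑ k ∈ Finset.range N, f k t‖) atTop (𝓝 0) := by
    have h3 : Tendsto (fun N => ‖Y - ∑ k ∈ Finset.range N, y k‖) atTop (𝓝 ‖Y - Y‖) :=
      (tendsto_const_nhds.sub hY).norm
    have h4 := h3.add hF'
    rwa [sub_self, norm_zero, add_zero] at h4
  refine ⟨fun t => ∑' k, h0 k t, fun t => ∑' k, h1 k t, fun φ => ∑' k, h2 k φ,
    { c_nonneg := hC0
      int := hF
      m0 := M0
      b0 := sob_lim (fun N => (PS N).m0) (fun N => (PS N).b0.trans (hcN N)) L0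
      m1 := M1
      b1 := ?_
      add2 := ?_
      smul2 := ?_
      b2 := ?_
      weak := ?_
      val := ?_ }⟩
  · have e1 : ∀ᵐ t ∂volume.restrict (Ioo 0 T), ‖∑' k, h1 k t‖ₑ ^ 2 =
        liminf (fun N => ‖∑ k ∈ Finset.range N, h1 k t‖ₑ ^ 2) atTop := by
      filter_upwards [L1] with t ht
      have h3 : Tendsto (fun N => ‖∑ k ∈ Finset.range N, h1 k t‖ₑ ^ 2) atTop
          (𝓝 (‖∑' k, h1 k t‖ₑ ^ 2)) :=
        (ENNReal.continuous_pow 2).continuousAt.tendsto.comp ht.enorm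
      exact h3.liminf_eq.symm
    rw [lintegral_congr_ae e1]
    refine (lintegral_liminf_le' fun N => (PS N).m1.enorm.pow_const 2).trans ?_
    refine (liminf_le_liminf (v := fun _ : ℕ => ENNReal.ofReal ((∑' k, c k) ^ 2))
      (Eventually.of_forall fun N => (PS N).b1.trans (hcN N))).trans ?_
    exact (tendsto_const_nhds.liminf_eq).le
  · intro φ χ hφ hχ
    have h3 : ∀ k, h2 k (fun t => φ t + χ t) = h2 k φ + h2 k χ := fun k =>
      (h k).add2 φ χ hφ hχ
    simp only [h3]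
    exact (hs2 φ hφ).tsum_add (hs2 χ hχ)
  · intro r φ hφ
    have h3 : ∀ k, h2 k (fun t => r * φ t) = r * h2 k φ := fun k => (h k).smul2 r φ hφ
    simp only [h3]
    exact tsum_mul_left
  · intro φ hφ
    have h3 : ∀ N, |∑ k ∈ Finset.range N, h2 k φ| ≤ (∑' k, c k) * √(sob T φ).toReal := by
      intro N
      refine ((PS N).b2 φ hφ).trans (mul_le_mul_of_nonneg_right ?_ (Real.sqrt_nonneg _))
      exact hc.sum_le_tsum _ fun k _ => hc0 k
    exact le_of_tendsto (hs2 φ hφ).hasSum.tendsto_sum_nat.abs (Eventually.of_forall h3)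
  · exact weak_lim (sm1 hL hμ) hT hF (fun N => (PS N).int) (fun N => (PS N).weak) hY hF' he
      S0 S1 (fun φ hφ => (hs2 φ hφ).hasSum.tendsto_sum_nat)
  · intro v hv
    choose w hw using fun N => (sm1 hL hμ).exists_path (∑ k ∈ Finset.range N, y k) (PS N).int
    refine val_lim hL hμ hT hv hw he ?_
    have h3 : ∀ᵐ t ∂volume.restrict (Ioc 0 T), ∀ N,
        ∑ k ∈ Finset.range N, h0 k t = (w N t).val 0 := by
      rw [ae_all_iff]
      exact fun N => (PS N).val (w N) (hw N)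
    have h4 : ∀ᵐ t ∂volume.restrict (Ioc 0 T),
        Tendsto (fun N => ∑ k ∈ Finset.range N, h0 k t) atTop (𝓝 (∑' k, h0 k t)) := by
      rw [← restrict_Ioo_eq_restrict_Ioc]
      exact L0
    filter_upwards [h3, h4] with t h5 h6
    simpa only [h5] using h6

end Pool.Agent.Kdv
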