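import Pool.Agent.Lib.MP_78c35a_an.TrBase
import Pool.Agent.Lib.MP_78c35a_an.TrSum

/-!
# Traces of all trajectories
-/

set_option autoImplicit false

namespace Pool.Agent.Kdv

open MeasureTheory Filter Topology Set
open scoped ENNReal ContDiff SchwartzMap

variable {L μ T : ℝ}

namespace TraceAux

/-- existence of traces with a bound -/
def Tr (hL : 0 < L) (hμ : 0 < μ) (T : ℝ) (y : L2) (f : ℝ → L2) (c : ℝ) : Prop :=
  ∃ (h0 h1 : ℝ → ℝ) (h2 : (ℝ → ℝ) → ℝ), HasTr hL hμ T y f c h0 h1 h2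

theorem Tr.add {hL : 0 < L} {hμ : 0 < μ} (hT : 0 < T) {y y' : L2} {f f' : ℝ → L2} {c c' : ℝ}
    (h : Tr hL hμ T y f c) (h' : Tr hL hμ T y' f' c') :
    Tr hL hμ T (y + y') (fun t => f t + f' t) (c + c') := by
  obtain ⟨_, _, _, h⟩ := h
  obtain ⟨_, _, _, h'⟩ := h'
  exact ⟨_, _, _, h.add hT h'⟩

/-- a state and a force -/
structure St (T : ℝ) where
  /-- the state -/
  y : L2
  /-- the force -/
  f : ℝ → L2
  int : IntegrableOn f (Ioc 0 T)

/-- the size -/
noncomputable def St.nrm (s : St T) : ℝ := ‖s.y‖ + ∫ t in Ioc 0 T, ‖s.f t‖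

/-- the difference -/
noncomputable def St.sub (s r : St T) : St T :=
  ⟨s.y - r.y, fun t => s.f t - r.f t, s.int.sub r.int⟩

theorem sum_ind (hL : 0 < L) (hμ : 0 < μ) (hT : 0 < T) : ∃ C : ℝ, 0 ≤ C ∧
    ∀ (g : L2 → ℝ → ℝ), (∀ z, ∃ G : 𝓢(ℝ, ℂ), IsNice G (g z)) → ∀ (E : L2 → Set ℝ),
      (∀ z, MeasurableSet (E z)) → (∀ z, E z ⊆ Ioc 0 T) → ∀ F : Finset L2,
      Tr hL hμ T 0 (fun t => ∑ z ∈ F, (E z).indicator (fun _ => toL2 (g z)) t)
        (C * ∑ z ∈ F, volume.real (E z) * ‖toL2 (g z)‖) := by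
  classical
  obtain ⟨C, hC, h⟩ := tr_ind hL hμ hT
  refine ⟨C, hC, fun g hg E hE hET F => ?_⟩
  induction F using Finset.induction_on with
  | empty =>
    obtain ⟨G, hG⟩ := hg 0
    obtain ⟨h0, h1, h2, h3⟩ := h G (g 0) hG ∅ MeasurableSet.empty (empty_subset _)
    refine ⟨h0, h1, h2, ?_⟩
    have e1 : ((∅ : Set ℝ).indicator fun _ => toL2 (g 0)) =
        (fun t => ∑ z ∈ (∅ : Finset L2), (E z).indicator (fun _ => toL2 (g z)) t) := by
      funext t
      simp
    rw [e1] at h3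
    simpa using h3
  | insert z F hz ih =>
    obtain ⟨G, hG⟩ := hg z
    have h3 := (show Tr hL hμ T 0 _ _ from h G (g z) hG (E z) (hE z) (hET z)).add hT ih
    simp only [add_zero, Finset.sum_insert hz] at h3 ⊢
    rw [mul_add]
    exact h3

theorem approx_f (hL : 0 < L) (hμ : 0 < μ) (hT : 0 < T) : ∃ C : ℝ, 0 ≤ C ∧
    ∀ f : ℝ → L2, IntegrableOn f (Ioc 0 T) → ∀ ε : ℝ, 0 < ε → ∃ (s : ℝ → L2) (c : ℝ),
      Tr hL hμ T 0 s c ∧ ∫ t in Ioc 0 T, ‖f t - s t‖ < ε ∧
        c ≤ C * ((∫ t in Ioc 0 T, ‖f t‖) + ε) := by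
  obtain ⟨C, hC, h⟩ := sum_ind hL hμ hT
  refine ⟨C, hC, fun f hf ε hε => ?_⟩
  obtain ⟨g0, hg0, hm⟩ := (memLp_one_iff_integrable.2 hf).exists_simpleFunc_eLpNorm_sub_lt
    ENNReal.one_ne_top (ε := ENNReal.ofReal (ε / 2)) (by simpa using hε)
  have hδ : 0 < ε / (4 * T) := by positivity
  choose G g hG hg using fun z : L2 => nice_dense z hδ
  set E : L2 → Set ℝ := fun z => g0 ⁻¹' {z} ∩ Ioc 0 T with hE
  set s : ℝ → L2 := fun t => ∑ z ∈ g0.range, (E z).indicator (fun _ => toL2 (g z)) t with hs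
  have hEm : ∀ z, MeasurableSet (E z) := fun z => (g0.measurableSet_fiber z).inter measurableSet_Ioc
  have htr := h g (fun z => ⟨G z, hG z⟩) E hEm (fun z => inter_subset_right) g0.range
  have hst : ∀ t ∈ Ioc 0 T, s t = toL2 (g (g0 t)) := by
    intro t ht
    rw [hs]
    simp only
    rw [Finset.sum_eq_single (g0 t)]
    · rw [indicator_of_mem]
      exact ⟨rfl, ht⟩
    · intro z _ hz
      rw [indicator_of_notMem]
      exact fun h => hz h.1.symm
    · intro h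
      exact absurd (SimpleFunc.mem_range_self _ _) h
  have hsi : IntegrableOn s (Ioc 0 T) := htr.choose_spec.choose_spec.choose_spec.int
  have hg0i : IntegrableOn g0 (Ioc 0 T) := memLp_one_iff_integrable.1 hm
  have i1 : Integrable (fun t => f t - g0 t) (volume.restrict (Ioc 0 T)) := hf.sub hg0i
  have i2 : Integrable (fun t => g0 t - s t) (volume.restrict (Ioc 0 T)) := hg0i.sub hsi
  have i3 : Integrable (fun t => f t - s t) (volume.restrict (Ioc 0 T)) := hf.sub hsi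
  have h1 : ∫ t in Ioc 0 T, ‖f t - g0 t‖ < ε / 2 := by
    rw [integral_norm_eq_lintegral_enorm i1.1]
    rw [eLpNorm_one_eq_lintegral_enorm] at hg0
    exact ENNReal.toReal_lt_of_lt_ofReal hg0
  have h2 : ∫ t in Ioc 0 T, ‖g0 t - s t‖ ≤ ε / 4 := by
    have h3 : ∫ t in Ioc 0 T, ‖g0 t - s t‖ ≤ ∫ _t in Ioc 0 T, ε / (4 * T) := by
      refine setIntegral_mono_on i2.norm (integrable_const _) measurableSet_Ioc
        fun t ht => ?_
      rw [hst t ht]
      exact (hg _).le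
    refine h3.trans (le_of_eq ?_)
    rw [setIntegral_const, smul_eq_mul, Real.volume_real_Ioc_of_le hT.le]
    field_simp
    ring
  have h3 : ∫ t in Ioc 0 T, ‖f t - s t‖ ≤
      (∫ t in Ioc 0 T, ‖f t - g0 t‖) + ∫ t in Ioc 0 T, ‖g0 t - s t‖ := by
    rw [← integral_add i1.norm i2.norm]
    refine integral_mono i3.norm (i1.norm.add i2.norm) fun t => ?_
    have := norm_add_le (f t - g0 t) (g0 t - s t)
    rwa [sub_add_sub_cancel] at this
  have h4 : ∫ t in Ioc 0 T, ‖f t - s t‖ < ε := by linarith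
  refine ⟨s, _, htr, h4, ?_⟩
  refine mul_le_mul_of_nonneg_left ?_ hC
  have h5 : ∑ z ∈ g0.range, volume.real (E z) * ‖toL2 (g z)‖ = ∫ t in Ioc 0 T, ‖s t‖ := by
    have h6 : ∫ t in Ioc 0 T, ‖s t‖ = ∫ t in Ioc 0 T,
        ∑ z ∈ g0.range, (E z).indicator (fun _ => ‖toL2 (g z)‖) t := by
      refine setIntegral_congr_fun measurableSet_Ioc fun t ht => ?_
      rw [hst t ht, Finset.sum_eq_single (g0 t)]
      · rw [indicator_of_mem]
        exact ⟨rfl, ht⟩
      · intro z _ hz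
        rw [indicator_of_notMem]
        exact fun h => hz h.1.symm
      · intro h
        exact absurd (SimpleFunc.mem_range_self _ _) h
    rw [h6, integral_finsetSum _ fun z _ => (integrable_const _).indicator (hEm z)]
    refine Finset.sum_congr rfl fun z _ => ?_
    rw [integral_indicator (hEm z), Measure.restrict_restrict (hEm z), setIntegral_const,
      smul_eq_mul, inter_eq_left.2 (inter_subset_right : E z ⊆ Ioc 0 T)]
  rw [h5]
  have h7 : ∫ t in Ioc 0 T, ‖s t‖ ≤ (∫ t in Ioc 0 T, ‖f t‖) + ∫ t in Ioc 0 T, ‖f t - s t‖ := by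
    rw [← integral_add hf.norm i3.norm]
    refine integral_mono hsi.norm (hf.norm.add i3.norm) fun t => ?_
    have := norm_sub_le (f t) (f t - s t)
    rwa [sub_sub_cancel] at this
  linarith

theorem approx_y (hL : 0 < L) (hμ : 0 < μ) (hT : 0 < T) : ∃ C : ℝ, 0 ≤ C ∧
    ∀ (y : L2) (ε : ℝ), 0 < ε → ∃ (y' : L2) (c : ℝ),
      Tr hL hμ T y' (fun _ => 0) c ∧ ‖y - y'‖ < ε ∧ c ≤ C * (‖y‖ + ε) := by
  obtain ⟨C, hC, h⟩ := tr_init hL hμ hT
  refine ⟨C, hC, fun y ε hε => ?_⟩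
  obtain ⟨G, g, hG, hg⟩ := nice_dense y hε
  refine ⟨toL2 g, _, h G g hG, hg, mul_le_mul_of_nonneg_left ?_ hC⟩
  have := norm_sub_le y (y - toL2 g)
  rw [sub_sub_cancel] at this
  linarith

theorem approx (hL : 0 < L) (hμ : 0 < μ) (hT : 0 < T) : ∃ C : ℝ, 0 ≤ C ∧
    ∀ (s : St T) (ε : ℝ), 0 < ε → ∃ (r : St T) (c : ℝ),
      Tr hL hμ T r.y r.f c ∧ (s.sub r).nrm < ε ∧ c ≤ C * (s.nrm + ε) := by
  obtain ⟨C1, hC1, h1⟩ := approx_y hL hμ hT
  obtain ⟨C2, hC2, h2⟩ := approx_f hL hμ hT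
  refine ⟨C1 + C2, by positivity, fun s ε hε => ?_⟩
  obtain ⟨y', c1, ht1, hy, hc1⟩ := h1 s.y (ε / 2) (by positivity)
  obtain ⟨f', c2, ht2, hf, hc2⟩ := h2 s.f s.int (ε / 2) (by positivity)
  have ht := ht1.add hT ht2
  simp only [add_zero, zero_add] at ht
  refine ⟨⟨y', f', ht.choose_spec.choose_spec.choose_spec.int⟩, c1 + c2, ht, ?_, ?_⟩
  · unfold St.nrm St.sub
    simp only
    linarith
  · have a1 : 0 ≤ ‖s.y‖ := norm_nonneg _
    have a2 : 0 ≤ ∫ t in Ioc 0 T, ‖s.f t‖ := integral_nonneg fun t => norm_nonneg _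
    unfold St.nrm
    have b1 : c1 ≤ C1 * (‖s.y‖ + (∫ t in Ioc 0 T, ‖s.f t‖) + ε) :=
      hc1.trans (mul_le_mul_of_nonneg_left (by linarith) hC1)
    have b2 : c2 ≤ C2 * (‖s.y‖ + (∫ t in Ioc 0 T, ‖s.f t‖) + ε) :=
      hc2.trans (mul_le_mul_of_nonneg_left (by linarith) hC2)
    linarith

end TraceAux

open TraceAux in
theorem exists_trace (hL : 0 < L) (hμ : 0 < μ) (hT : 0 < T) (y : L2) {f : ℝ → L2}
    (hf : IntegrableOn f (Ioc 0 T)) : ∃ (c : ℝ) (h0 h1 : ℝ → ℝ) (h2 : (ℝ → ℝ) → ℝ),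
      HasTr hL hμ T y f c h0 h1 h2 := by
  obtain ⟨C, hC, h⟩ := approx hL hμ hT
  have hp : ∀ k : ℕ, (0 : ℝ) < (1 / 2) ^ k := fun k => by positivity
  choose r c htr hr hc using fun (s : St T) (k : ℕ) => h s ((1 / 2) ^ k) (hp k)
  let st : ℕ → St T := fun n => Nat.rec ⟨y, f, hf⟩ (fun k s => s.sub (r s k)) n
  have st0 : st 0 = ⟨y, f, hf⟩ := rfl
  have st1 : ∀ k, st (k + 1) = (st k).sub (r (st k) k) := fun k => rfl
  have hn1 : ∀ k, (st (k + 1)).nrm < (1 / 2) ^ k := fun k => hr (st k) k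
  have hn0 : ∀ k, 0 ≤ (st k).nrm := fun k =>
    add_nonneg (norm_nonneg _) (integral_nonneg fun t => norm_nonneg _)
  have hn2 : ∀ k, (st k).nrm ≤ ((st 0).nrm + 2) * (1 / 2) ^ k := by
    intro k
    have h0 := hn0 0
    rcases k with _ | k
    · simp
    · refine (hn1 k).le.trans ?_
      have := hp k
      rw [pow_succ]
      nlinarith
  have hlim : Tendsto (fun k => (st k).nrm) atTop (𝓝 0) := by
    refine squeeze_zero hn0 hn2 ?_
    have := (tendsto_pow_atTop_nhds_zero_of_lt_one (r := (1 / 2 : ℝ)) (by norm_num)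
      (by norm_num)).const_mul ((st 0).nrm + 2)
    rwa [mul_zero] at this
  choose h0 h1 h2 hh using fun k => htr (st k) k
  have hcs : Summable fun k => c (st k) k := by
    refine Summable.of_nonneg_of_le (fun k => (hh k).c_nonneg) (fun k => ?_)
      ((summable_geometric_of_lt_one (r := (1 / 2 : ℝ)) (by norm_num) (by norm_num)).mul_left
        (C * ((st 0).nrm + 3)))
    refine (hc (st k) k).trans ?_
    rw [mul_assoc]
    refine mul_le_mul_of_nonneg_left ?_ hC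
    have := hn2 k
    linarith
  have hsy : ∀ N, ∑ k ∈ Finset.range N, (r (st k) k).y = y - (st N).y := by
    intro N
    induction N with
    | zero => rw [Finset.sum_range_zero, st0]; simp
    | succ N ih =>
      rw [Finset.sum_range_succ, ih, st1]
      simp only [St.sub]
      abel
  have hsf : ∀ N t, ∑ k ∈ Finset.range N, (r (st k) k).f t = f t - (st N).f t := by
    intro N t
    induction N with
    | zero => rw [Finset.sum_range_zero, st0]; simp
    | succ N ih =>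
      rw [Finset.sum_range_succ, ih, st1]
      simp only [St.sub]
      abel
  obtain ⟨h0', h1', h2', hfin⟩ := HasTr.tsum hT hh hcs hf (Y := y) (by
    simp only [hsy]
    have h3 : Tendsto (fun N => (st N).y) atTop (𝓝 0) := by
      refine squeeze_zero_norm (fun N => ?_) hlim
      unfold St.nrm
      have : 0 ≤ ∫ t in Ioc 0 T, ‖(st N).f t‖ := integral_nonneg fun t => norm_nonneg _
      linarith
    simpa using tendsto_const_nhds.sub h3) (by
    simp only [hsf, sub_sub_cancel]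
    refine squeeze_zero (fun N => integral_nonneg fun t => norm_nonneg _) (fun N => ?_) hlim
    unfold St.nrm
    have : 0 ≤ ‖(st N).y‖ := norm_nonneg _
    linarith)
  exact ⟨_, h0', h1', h2', hfin⟩

end Pool.Agent.Kdv
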