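import Pool.Agent.Lib.MP_78c35a_an.Line
import Pool.Agent.Lib.MP_78c35a_an.Trace
import Pool.Agent.Lib.MP_78c35a_an.Joint
import Pool.Agent.Lib.MP_78c35a_an.Comb
import Pool.Agent.Lib.MP_78c35a_an.SpL
import Pool.Agent.Lib.MP_78c35a_an.Alg
import Pool.Agent.Lib.MP_78c35a_an.Control

/-!
# Exact controllability of the Gear–Grimshaw system
-/

set_option autoImplicit false

namespace Pool.Agent.Kdv

open MeasureTheory Filter Topology Set
open scoped ENNReal ContDiff

/-- Restriction to `(0, L)`. -/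
noncomputable def res (L : ℝ) : L2 →L[ℝ] I2 L := LpToLpRestrictCLM ℝ ℝ ℝ volume 2 (Ioo 0 L)

lemma res_ae (L : ℝ) (y : L2) : ∀ᵐ x ∂volume.restrict (Ioo 0 L), res L y x = y x :=
  LpToLpRestrictCLM_coeFn ℝ (Ioo 0 L) y

/-- Extension by zero. -/
lemma exists_ext (L : ℝ) (w : I2 L) : ∃ y : L2, ∀ᵐ x ∂volume.restrict (Ioo 0 L), y x = w x := by
  have h : MemLp ((Ioo 0 L).indicator w) 2 volume :=
    (memLp_indicator_iff_restrict measurableSet_Ioo).mpr (Lp.memLp w)
  refine ⟨h.toLp _, ?_⟩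
  have h1 := ae_restrict_of_ae (s := Ioo 0 L) h.coeFn_toLp
  filter_upwards [h1, ae_restrict_mem measurableSet_Ioo] with x hx hx'
  rw [hx, indicator_of_mem hx']

/-- The function `1` on `(0, L)`. -/
noncomputable def cst (L : ℝ) : I2 L := (memLp_const (1 : ℝ)).toLp _

lemma cst_ae (L : ℝ) : ∀ᵐ x ∂volume.restrict (Ioo 0 L), cst L x = 1 :=
  MemLp.coeFn_toLp _

/-- The nonlinear terms of the first equation. -/
theorem force0 {a a1 a2 b c r : ℝ} {E : Fin 2 → Fin 2 → ℝ} {mu m e : Fin 2 → ℝ} {kap : ℝ}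
    (hA : Alg a a1 a2 b c r E mu m e kap) (Y W : Fin 2 → ℝ) :
    ∑ j, E j 0 * (-(∑ k, ((∑ l, gg a1 a2 b E j k l * m l) + r * E j 1 * E k 1) * W k) -
      ∑ k, ∑ l, gg a1 a2 b E j k l * (Y k * W l)) =
    -((∑ j, E j 0 * (m j + Y j)) * (∑ j, E j 0 * W j) +
      a1 * ((∑ j, E j 1 * (m j + Y j)) * ∑ j, E j 1 * W j) +
      a2 * ((∑ j, E j 0 * W j) * (∑ j, E j 1 * (m j + Y j)) +
        (∑ j, E j 0 * (m j + Y j)) * ∑ j, E j 1 * W j)) := by
  have h0 := hA.c00
  have h1 := hA.c01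
  obtain ⟨U, hU⟩ : ∃ U, U = ∑ j, E j 0 * (m j + Y j) := ⟨_, rfl⟩
  obtain ⟨V, hV⟩ : ∃ V, V = ∑ j, E j 1 * (m j + Y j) := ⟨_, rfl⟩
  obtain ⟨Ux, hUx⟩ : ∃ Ux, Ux = ∑ j, E j 0 * W j := ⟨_, rfl⟩
  obtain ⟨Vx, hVx⟩ : ∃ Vx, Vx = ∑ j, E j 1 * W j := ⟨_, rfl⟩
  have key : ∀ j, (-(∑ k, ((∑ l, gg a1 a2 b E j k l * m l) + r * E j 1 * E k 1) * W k) -
      ∑ k, ∑ l, gg a1 a2 b E j k l * (Y k * W l)) =
      -(E j 0 * (b * (U * Ux + a1 * (V * Vx) + a2 * (Ux * V + U * Vx))) +
        E j 1 * (r * Vx + V * Vx + a2 * b * (U * Ux) + a1 * b * (Ux * V + U * Vx))) := by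
    intro j
    rw [hU, hV, hUx, hVx]
    simp only [Fin.sum_univ_two, gg]
    ring
  simp only [key, ← hU, ← hV, ← hUx, ← hVx]
  simp only [Fin.sum_univ_two] at h0 h1 ⊢
  linear_combination (-(U * Ux + a1 * (V * Vx) + a2 * (Ux * V + U * Vx))) * h0 -
    (r * Vx + V * Vx + a2 * b * (U * Ux) + a1 * b * (Ux * V + U * Vx)) * h1

/-- The nonlinear terms of the second equation. -/
theorem force1 {a a1 a2 b c r : ℝ} {E : Fin 2 → Fin 2 → ℝ} {mu m e : Fin 2 → ℝ} {kap : ℝ}
    (hA : Alg a a1 a2 b c r E mu m e kap) (Y W : Fin 2 → ℝ) :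
    ∑ j, c * E j 1 * (-(∑ k, ((∑ l, gg a1 a2 b E j k l * m l) + r * E j 1 * E k 1) * W k) -
      ∑ k, ∑ l, gg a1 a2 b E j k l * (Y k * W l)) =
    -(r * (∑ j, E j 1 * W j) + (∑ j, E j 1 * (m j + Y j)) * (∑ j, E j 1 * W j) +
      a2 * b * ((∑ j, E j 0 * (m j + Y j)) * ∑ j, E j 0 * W j) +
      a1 * b * ((∑ j, E j 0 * W j) * (∑ j, E j 1 * (m j + Y j)) +
        (∑ j, E j 0 * (m j + Y j)) * ∑ j, E j 1 * W j)) := by
  have h0 := hA.c11
  have h1 := hA.c01
  obtain ⟨U, hU⟩ : ∃ U, U = ∑ j, E j 0 * (m j + Y j) := ⟨_, rfl⟩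
  obtain ⟨V, hV⟩ : ∃ V, V = ∑ j, E j 1 * (m j + Y j) := ⟨_, rfl⟩
  obtain ⟨Ux, hUx⟩ : ∃ Ux, Ux = ∑ j, E j 0 * W j := ⟨_, rfl⟩
  obtain ⟨Vx, hVx⟩ : ∃ Vx, Vx = ∑ j, E j 1 * W j := ⟨_, rfl⟩
  have key : ∀ j, (-(∑ k, ((∑ l, gg a1 a2 b E j k l * m l) + r * E j 1 * E k 1) * W k) -
      ∑ k, ∑ l, gg a1 a2 b E j k l * (Y k * W l)) =
      -(E j 0 * (b * (U * Ux + a1 * (V * Vx) + a2 * (Ux * V + U * Vx))) +
        E j 1 * (r * Vx + V * Vx + a2 * b * (U * Ux) + a1 * b * (Ux * V + U * Vx))) := by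
    intro j
    rw [hU, hV, hUx, hVx]
    simp only [Fin.sum_univ_two, gg]
    ring
  simp only [key, ← hU, ← hV, ← hUx, ← hVx]
  simp only [Fin.sum_univ_two] at h0 h1 ⊢
  linear_combination
    (-(r * Vx + V * Vx + a2 * b * (U * Ux) + a1 * b * (Ux * V + U * Vx))) * h0 -
    c * (b * (U * Ux + a1 * (V * Vx) + a2 * (Ux * V + U * Vx))) * h1


variable {n : ℕ}

lemma one_mem {L x : ℝ} (hx : x ∈ Ioo 0 L) : one L x = 1 := by
  simp [one, hx]

lemma chi_mem {L x : ℝ} (hx : x ∈ Ioo 0 L) : chi L x = 1 := by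
  have h : (1 : ℝ) ≤ min (1 + x) (L + 1 - x) := le_min (by linarith [hx.1]) (by linarith [hx.2])
  rw [chi, min_eq_left h, max_eq_right zero_le_one]

lemma dchi_mem {L x : ℝ} (hx : x ∈ Ioo 0 L) : dchi L x = 0 := by
  have h1 : x ∉ Ioo (-1 : ℝ) 0 := fun h => absurd h.2 (not_lt.mpr hx.1.le)
  have h2 : x ∉ Ioo L (L + 1) := fun h => absurd h.1 (not_lt.mpr hx.2.le)
  rw [dchi, indicator_of_notMem h1, indicator_of_notMem h2, sub_zero]

/-- The force in the controlled region. -/
theorem force_ae (p : Par n) {F : HH n} {w : VV n p.L}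
    (h : PP n p.L F = PP n p.L (lmap n p.L p.S w + qmap n p.L p.g w)) (j : Fin n) :
    ∀ᵐ x ∂volume.restrict (Ioo 0 p.L), F j x =
      -(∑ k, p.S j k * dd k w x) - ∑ k, ∑ l, p.g j k l * (uu k w x * dd l w x) := by
  have h1 := PP_ae p.L F j
  have h2 := PP_ae p.L (lmap n p.L p.S w + qmap n p.L p.g w) j
  have h3 : ∀ᵐ x ∂volume, (lmap n p.L p.S w + qmap n p.L p.g w) j x =
      lmap n p.L p.S w j x + qmap n p.L p.g w j x :=
    Lp.coeFn_add (lmap n p.L p.S w j) (qmap n p.L p.g w j)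
  have h4 := lmap_ae p.L p.S w j
  have h5 := qmap_ae p.hL p.g w j
  rw [h] at h1
  have h6 : ∀ᵐ x ∂volume, x ∈ Ioo 0 p.L → F j x =
      -(∑ k, p.S j k * dd k w x) - ∑ k, ∑ l, p.g j k l * (uu k w x * dd l w x) := by
    filter_upwards [h1, h2, h3, h4, h5] with x a1 a2 a3 a4 a5 hx
    rw [a2, one_mem hx, one_mul, one_mul, a3, a4, a5, chi_mem hx, dchi_mem hx] at a1
    rw [← a1]
    simp only [one_mul, zero_mul, mul_zero, add_zero]
    ring
  rwa [ae_restrict_iff' measurableSet_Ioo]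

/-- The parameters of the diagonalised Gear–Grimshaw system. -/
noncomputable def parOf {L a a1 a2 b c r : ℝ} {E : Fin 2 → Fin 2 → ℝ} {mu m e : Fin 2 → ℝ}
    {kap : ℝ} (hL : 0 < L) (hA : Alg a a1 a2 b c r E mu m e kap) : Par 2 where
  L := L
  hL := hL
  mu := mu
  hmu := hA.mu_pos
  g := gg a1 a2 b E
  g12 j k l := by unfold gg; ring
  g23 j k l := by unfold gg; ring
  S j k := (∑ l, gg a1 a2 b E j k l * m l) + r * E j 1 * E k 1
  hS j k := by
    have : ∀ l, gg a1 a2 b E j k l = gg a1 a2 b E k j l := fun l => by unfold gg; ring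
    simp only [this]
    ring
  e := e
  Se := hA.Se
  kap := kap
  hkap := hA.kap_pos
  coer := hA.coer

/-- From the diagonal variables to a component of the original ones. -/
noncomputable def reco (L : ℝ) (α m : Fin n → ℝ) (w : HH n) : I2 L :=
  ∑ j, α j • (m j • cst L + res L (prH j w))

lemma reco_cont (L : ℝ) (α m : Fin n → ℝ) : Continuous (reco L α m) := by
  unfold reco
  fun_prop

lemma reco_ae (L : ℝ) (α m : Fin n → ℝ) (w : HH n) :
    ∀ᵐ x ∂volume.restrict (Ioo 0 L), reco L α m w x = ∑ j, α j * (m j + w j x) := by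
  have h1 : ∀ᵐ x ∂volume.restrict (Ioo 0 L), reco L α m w x =
      ∑ j, (α j • (m j • cst L + res L (prH j w)) : I2 L) x := by
    have := Lp.coeFn_finsetSum Finset.univ
      (fun j => (α j • (m j • cst L + res L (prH j w)) : I2 L))
    filter_upwards [this] with x hx
    rw [reco, hx, Finset.sum_apply]
  have h2 : ∀ j, ∀ᵐ x ∂volume.restrict (Ioo 0 L),
      (α j • (m j • cst L + res L (prH j w)) : I2 L) x = α j * (m j + w j x) := by
    intro j
    filter_upwards [Lp.coeFn_smul (α j) (m j • cst L + res L (prH j w)),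
      Lp.coeFn_add (m j • cst L) (res L (prH j w)), Lp.coeFn_smul (m j) (cst L),
      cst_ae L, res_ae L (prH j w)] with x e1 e2 e3 e4 e5
    rw [e1, Pi.smul_apply, e2, Pi.add_apply, e3, Pi.smul_apply, e4, e5, prH_apply]
    simp
  filter_upwards [h1, ae_all_iff.mpr h2] with x a1 a2
  rw [a1]
  exact Finset.sum_congr rfl fun j _ => a2 j

/-- Exact controllability on the line gives exact controllability on the interval. -/
theorem controllable_of_line {L a a1 a2 b c r : ℝ} {E : Fin 2 → Fin 2 → ℝ} {mu m e : Fin 2 → ℝ}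
    {kap : ℝ} (hL : 0 < L) (hA : Alg a a1 a2 b c r E mu m e kap) {T : ℝ} (hT : 0 < T)
    (hline : ∀ y0 y1 : HH 2, ∃ (f : ℝ → HH 2) (v : ℝ → VV 2 L), (smn (parOf hL hA)).Path y0 T f v ∧
      (∀ᵐ t ∂volume.restrict (Ioc (0 : ℝ) T), PP 2 L (f t) =
        PP 2 L (lmap 2 L (parOf hL hA).S (v t) + qmap 2 L (parOf hL hA).g (v t))) ∧
      (smn (parOf hL hA)).traj y0 f T = y1) :
    ExactlyControllable L a a1 a2 b c r T := by
  intro u0 v0 uT vT
  obtain ⟨p, hp0⟩ : ∃ p, p = parOf hL hA := ⟨_, rfl⟩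
  have hm0 := hA.c00
  have hm1 := hA.c01
  have hm2 := hA.c11
  -- states on the line
  have st : ∀ u v : I2 L, ∃ y : HH 2, reco L (fun j => E j 0) m y = u ∧
      reco L (fun j => E j 1) m y = v := by
    intro u v
    choose y hy using fun j : Fin 2 =>
      exists_ext L ((b * E j 0) • u + (c * E j 1) • v - m j • cst L)
    have hy' : ∀ j, ∀ᵐ x ∂volume.restrict (Ioo 0 L),
        y j x = b * E j 0 * u x + c * E j 1 * v x - m j := by
      intro j
      filter_upwards [hy j, Lp.coeFn_sub ((b * E j 0) • u + (c * E j 1) • v) (m j • cst L),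
        Lp.coeFn_add ((b * E j 0) • u) ((c * E j 1) • v), Lp.coeFn_smul (b * E j 0) u,
        Lp.coeFn_smul (c * E j 1) v, Lp.coeFn_smul (m j) (cst L), cst_ae L]
        with x e0 e1 e2 e3 e4 e5 e6
      rw [e0, e1, Pi.sub_apply, e2, Pi.add_apply, e3, e4, e5, Pi.smul_apply, Pi.smul_apply,
        Pi.smul_apply, e6]
      simp
    refine ⟨WithLp.toLp 2 y, ?_, ?_⟩
    · refine Lp.ext ?_
      filter_upwards [reco_ae L (fun j => E j 0) m (WithLp.toLp 2 y), ae_all_iff.mpr hy']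
        with x e1 e2
      rw [e1]
      have : ∀ j, (WithLp.toLp 2 y : HH 2) j x = b * E j 0 * u x + c * E j 1 * v x - m j := e2
      simp only [this]
      simp only [Fin.sum_univ_two] at hm0 hm1 ⊢
      linear_combination (u x) * hm0 + c * (v x) * hm1
    · refine Lp.ext ?_
      filter_upwards [reco_ae L (fun j => E j 1) m (WithLp.toLp 2 y), ae_all_iff.mpr hy']
        with x e1 e2
      rw [e1]
      have : ∀ j, (WithLp.toLp 2 y : HH 2) j x = b * E j 0 * u x + c * E j 1 * v x - m j := e2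
      simp only [this]
      simp only [Fin.sum_univ_two] at hm2 hm1 ⊢
      linear_combination (v x) * hm2 + b * (u x) * hm1
  obtain ⟨y0, hy00, hy01⟩ := st u0 v0
  obtain ⟨y1, hy10, hy11⟩ := st uT vT
  obtain ⟨f, v, hp, hf, hy⟩ := hline y0 y1
  have hpj : ∀ j, (sm1 hL (hA.mu_pos j)).Path (y0 j) T (fun s => f s j) (fun s => v s j) :=
    path_comp (parOf hL hA) hp
  choose cc h0 h1 h2 htr using fun j => exists_trace (T := T) hL (hA.mu_pos j) hT (y0 j)
    (hpj j).int
  have mW : ∀ j : Fin 2, AEStronglyMeasurable (fun t => dd j (v t))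
      (volume.restrict (Ioc 0 T)) :=
    fun j => (dd j).continuous.comp_aestronglyMeasurable hp.meas
  have fW : ∀ j : Fin 2, ∫⁻ t in Ioc (0 : ℝ) T, ‖dd j (v t)‖ₑ ^ 2 < ⊤ := by
    intro j
    have h1 : ∀ t, ‖dd j (v t)‖ₑ ^ 2 ≤ ‖(dd j : VV 2 L →L[ℝ] L2)‖ₑ ^ 2 * ‖v t‖ₑ ^ 2 := by
      intro t
      rw [← mul_pow]
      exact pow_le_pow_left₀ zero_le (ContinuousLinearMap.le_opENorm _ _) 2
    refine (lintegral_mono h1).trans_lt ?_
    rw [lintegral_const_mul' _ _ (by simp)]
    exact ENNReal.mul_lt_top (by simp) hp.fin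
  choose W hWm hWae hWi using fun j => exists_joint (mW j) (fW j)
  obtain ⟨Y, hYdef⟩ : ∃ Y, Y = (smn (parOf hL hA)).traj y0 f := ⟨_, rfl⟩
  have hYcont : ContinuousOn Y (Icc 0 T) := by
    rw [hYdef]
    exact (smn (parOf hL hA)).traj_cont y0 hT.le hp.int
  have hY0 : Y 0 = y0 := by rw [hYdef, Sm.traj_zero]
  have hYT : Y T = y1 := by rw [hYdef, hy]
  have hYj : ∀ t ∈ Icc 0 T, ∀ j, (sm1 hL (hA.mu_pos j)).traj (y0 j) (fun s => f s j) t = Y t j := by
    intro t ht j
    rw [hYdef]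
    exact (traj_comp (parOf hL hA) y0 hp.int ht j).symm
  have hJ : Ioo 0 L ⊆ J L := Ioo_subset_Ioo (by norm_num) (by linarith)
  have hYv : ∀ᵐ t ∂volume.restrict (Ioc (0 : ℝ) T), ∀ j, uu j (v t) = Y t j := by
    filter_upwards [hp.lift] with t e1 j
    rw [hYdef, ← e1]
    rfl
  -- the states in terms of the traces and the derivatives
  have F1 : ∀ᵐ t ∂volume.restrict (Ioc (0 : ℝ) T), ∀ j,
      (∀ x y, IntervalIntegrable (W j t) volume x y) ∧
      ∀ᵐ x ∂volume.restrict (Ioo 0 L), Y t j x = h0 j t + ∫ s in (0 : ℝ)..x, W j t s := by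
    filter_upwards [hYv, ae_all_iff.mpr hWae,
      ae_all_iff.mpr fun j => (htr j).val _ (hpj j)] with t e1 e2 e3 j
    have hi : ∀ x y, IntervalIntegrable (W j t) volume x y := fun x y =>
      ((dd j (v t)).intervalIntegrable x y).congr_ae
        (ae_restrict_of_ae (by filter_upwards [e2 j] with s hs using hs.symm))
    refine ⟨hi, ?_⟩
    rw [ae_restrict_iff' measurableSet_Ioo]
    filter_upwards [V1.val_ae (v t j)] with x hx hx'
    have h3 : uu j (v t) x = (v t j).val x := hx (hJ hx')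
    have h4 := V1.val_sub (v t j) 0 x
    have h5 : (∫ s in (0 : ℝ)..x, W j t s) = ∫ s in (0 : ℝ)..x, V1.d L (v t j) s :=
      intervalIntegral.integral_congr_ae (by filter_upwards [e2 j] with s hs _ using hs)
    rw [← e1 j, h3, e3 j, h5, ← h4]
    ring
  -- the force
  have F2 : ∀ᵐ t ∂volume.restrict (Ioc (0 : ℝ) T), ∀ j, ∀ᵐ x ∂volume.restrict (Ioo 0 L),
      f t j x = -(∑ k, ((∑ l, gg a1 a2 b E j k l * m l) + r * E j 1 * E k 1) * W k t x) -
        ∑ k, ∑ l, gg a1 a2 b E j k l * (Y t k x * W l t x) := by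
    filter_upwards [hf, hYv, ae_all_iff.mpr hWae] with t e0 e1 e2 j
    have e3 : ∀ k, ∀ᵐ x ∂volume.restrict (Ioo 0 L), W k t x = dd k (v t) x := fun k =>
      ae_restrict_of_ae (e2 k)
    filter_upwards [force_ae (parOf hL hA) e0 j, ae_all_iff.mpr e3] with x a1 a2
    rw [a1]
    simp only [a2, ← e1]
    rfl
  have I0 : ∀ j, InH13 T (h0 j) := fun j =>
    ⟨(htr j).m0, (htr j).b0.trans_lt ENNReal.ofReal_lt_top⟩
  have I1 : ∀ j, InL2 T (h1 j) := fun j =>
    ⟨(htr j).m1, (htr j).b1.trans_lt ENNReal.ofReal_lt_top⟩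
  have I2' : ∀ j, InHm13 T (h2 j) := fun j => ⟨(htr j).add2, (htr j).smul2, ⟨cc j, (htr j).b2⟩⟩
  have hIoo : ∀ {q : ℝ → Prop}, (∀ᵐ t ∂volume.restrict (Ioc (0 : ℝ) T), q t) →
      ∀ᵐ t ∂volume.restrict (Ioo (0 : ℝ) T), q t := fun h =>
    ae_restrict_of_ae_restrict_of_subset Ioo_subset_Ioc_self h
  -- one linear combination
  have der : ∀ α : Fin 2 → ℝ, ∀ᵐ t ∂volume.restrict (Ioo 0 T),
      ∀ᵐ x ∂volume.restrict (Ioo 0 L), reco L α m (Y t) x =
        ((∑ j, α j * m j) + ∑ j, α j * h0 j t) + ∫ s in (0 : ℝ)..x, ∑ j, α j * W j t s := by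
    intro α
    filter_upwards [hIoo F1] with t e
    filter_upwards [reco_ae L α m (Y t), ae_all_iff.mpr fun j => (e j).2] with x a1 a2
    rw [a1, intervalIntegral.integral_finsetSum fun j _ => ((e j).1 0 x).const_mul (α j)]
    simp only [intervalIntegral.integral_const_mul, a2, Fin.sum_univ_two]
    ring
  have comb := fun (α : Fin 2 → ℝ) (φ : ℝ → ℝ → ℝ) (hφ : Test L T φ) =>
    combine hL hT α mu m (y := fun j => y0 j)
      (fun j => (sm1 hL (hA.mu_pos j)).traj_cont (y0 j) hT.le (hpj j).int)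
      (fun j => (hpj j).int) (fun j => (I0 j).inL2) I1 (fun j => (htr j).weak) hφ
  have hTT : T ∈ Icc 0 T := ⟨hT.le, le_rfl⟩
  -- the identity for one linear combination
  have ident : ∀ (α β : Fin 2 → ℝ), (∀ j, α j * mu j = β j) → ∀ N : ℝ → ℝ → ℝ,
      (∀ᵐ t ∂volume.restrict (Ioo 0 T), ∀ᵐ x ∂volume.restrict (Ioo 0 L),
        ∑ j, α j * f t j x = -N t x) → ∀ φ : ℝ → ℝ → ℝ, Test L T φ →
      (∫ x in Ioo 0 L, reco L α m (Y T) x * φ T x) - ∫ x in Ioo 0 L, reco L α m (Y 0) x * φ 0 x =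
      (∫ t in Ioo 0 T, ∫ x in Ioo 0 L,
        (reco L α m (Y t) x * deriv (fun s => φ s x) t +
          reco L β m (Y t) x * iteratedDeriv 3 (φ t) x - N t x * φ t x)) -
      (∑ j, β j * h2 j (fun t => φ t L)) +
      (∫ t in Ioo 0 T, (∑ j, β j * h1 j t) * deriv (φ t) L) +
      ∫ t in Ioo 0 T, (∑ j, β j * (m j + h0 j t)) * iteratedDeriv 2 (φ t) 0 := by
    intro α β hαβ N hN φ hφ
    have C := comb α φ hφ
    simp only [hαβ] at C
    have e1 : (∫ x in Ioo 0 L, reco L α m (Y T) x * φ T x) =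
        ∫ x in Ioo 0 L, (∑ j, α j * (m j + (sm1 hL (hA.mu_pos j)).traj (y0 j)
          (fun s => f s j) T x)) * φ T x := by
      refine integral_congr_ae ?_
      filter_upwards [reco_ae L α m (Y T)] with x hx
      simp only [hx, hYj T hTT]
    have e2 : (∫ x in Ioo 0 L, reco L α m (Y 0) x * φ 0 x) =
        ∫ x in Ioo 0 L, (∑ j, α j * (m j + y0 j x)) * φ 0 x := by
      refine integral_congr_ae ?_
      filter_upwards [reco_ae L α m (Y 0)] with x hx
      rw [hY0] at hx ⊢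
      rw [hx]
    rw [e1, e2, C]
    congr 3
    refine integral_congr_ae ?_
    filter_upwards [hN, ae_restrict_mem measurableSet_Ioo] with t ht htm
    refine integral_congr_ae ?_
    filter_upwards [ht, reco_ae L α m (Y t), reco_ae L β m (Y t)] with x a1 a2 a3
    simp only [a1, a2, a3, hYj t (Ioo_subset_Icc_self htm)]
    ring
  have eig0 := hA.eig0
  have eig1 := hA.eig1
  refine ⟨fun t => (∑ j, E j 0 * m j) + ∑ j, E j 0 * h0 j t,
    fun t => (∑ j, E j 1 * m j) + ∑ j, E j 1 * h0 j t,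
    fun t => ∑ j, E j 0 * h1 j t, fun t => ∑ j, E j 1 * h1 j t,
    fun φ => ∑ j, E j 0 * h2 j φ, fun φ => ∑ j, E j 1 * h2 j φ,
    (InH13.const _).add (InH13.sum _ I0), (InH13.const _).add (InH13.sum _ I0),
    InL2.sum _ I1, InL2.sum _ I1, InHm13.sum _ I2', InHm13.sum _ I2',
    fun t => reco L (fun j => E j 0) m (Y t), fun t => reco L (fun j => E j 1) m (Y t),
    fun t x => ∑ j, E j 0 * W j t x, fun t x => ∑ j, E j 1 * W j t x, ?_, ?_, ?_, ?_, ?_⟩
  · refine ⟨(reco_cont L _ m).comp_continuousOn hYcont, (reco_cont L _ m).comp_continuousOn hYcont,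
      ?_, ?_, int_comb _ hWm hWi, int_comb _ hWm hWi, der _, der _, ?_, ?_⟩
    · exact Finset.measurable_sum _ fun j _ => (hWm j).const_mul (E j 0)
    · exact Finset.measurable_sum _ fun j _ => (hWm j).const_mul (E j 1)
    · intro φ hφ
      have N0 : ∀ᵐ t ∂volume.restrict (Ioo 0 T), ∀ᵐ x ∂volume.restrict (Ioo 0 L),
          ∑ j, E j 0 * f t j x = -(reco L (fun j => E j 0) m (Y t) x * (∑ j, E j 0 * W j t x) +
            a1 * (reco L (fun j => E j 1) m (Y t) x * ∑ j, E j 1 * W j t x) +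
            a2 * ((∑ j, E j 0 * W j t x) * reco L (fun j => E j 1) m (Y t) x +
              reco L (fun j => E j 0) m (Y t) x * ∑ j, E j 1 * W j t x)) := by
        filter_upwards [hIoo F2] with t e
        filter_upwards [ae_all_iff.mpr e, reco_ae L (fun j => E j 0) m (Y t),
          reco_ae L (fun j => E j 1) m (Y t)] with x b1 b2 b3
        rw [b2, b3]
        simp only [b1]
        exact force0 hA (fun k => Y t k x) fun k => W k t x
      have I := ident (fun j => E j 0) (fun j => E j 0 + a * E j 1)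
        (fun j => by linear_combination -(eig0 j)) _ N0 φ hφ
      have r1 : (∫ t in Ioo 0 T, ∫ x in Ioo 0 L,
          (reco L (fun j => E j 0) m (Y t) x * deriv (fun s => φ s x) t +
            reco L (fun j => E j 0 + a * E j 1) m (Y t) x * iteratedDeriv 3 (φ t) x -
            (reco L (fun j => E j 0) m (Y t) x * (∑ j, E j 0 * W j t x) +
            a1 * (reco L (fun j => E j 1) m (Y t) x * ∑ j, E j 1 * W j t x) +
            a2 * ((∑ j, E j 0 * W j t x) * reco L (fun j => E j 1) m (Y t) x +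
              reco L (fun j => E j 0) m (Y t) x * ∑ j, E j 1 * W j t x)) * φ t x)) =
          ∫ t in Ioo 0 T, ∫ x in Ioo 0 L,
          (reco L (fun j => E j 0) m (Y t) x * deriv (fun s => φ s x) t +
            (reco L (fun j => E j 0) m (Y t) x + a * reco L (fun j => E j 1) m (Y t) x) *
              iteratedDeriv 3 (φ t) x -
            (reco L (fun j => E j 0) m (Y t) x * (∑ j, E j 0 * W j t x) +
            a1 * (reco L (fun j => E j 1) m (Y t) x * ∑ j, E j 1 * W j t x) +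
            a2 * ((∑ j, E j 0 * W j t x) * reco L (fun j => E j 1) m (Y t) x +
              reco L (fun j => E j 0) m (Y t) x * ∑ j, E j 1 * W j t x)) * φ t x) := by
        refine integral_congr_ae (Eventually.of_forall fun t => ?_)
        refine integral_congr_ae ?_
        filter_upwards [reco_ae L (fun j => E j 0) m (Y t), reco_ae L (fun j => E j 1) m (Y t),
          reco_ae L (fun j => E j 0 + a * E j 1) m (Y t)] with x b1 b2 b3
        rw [b1, b2, b3]
        simp only [Fin.sum_univ_two]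
        ring
      have r2 : (∑ j, (E j 0 + a * E j 1) * h2 j (fun t => φ t L)) =
          (∑ j, E j 0 * h2 j (fun t => φ t L)) + a * ∑ j, E j 1 * h2 j (fun t => φ t L) := by
        simp only [Fin.sum_univ_two]
        ring
      have r3 : ∀ t, (∑ j, (E j 0 + a * E j 1) * h1 j t) =
          (∑ j, E j 0 * h1 j t) + a * ∑ j, E j 1 * h1 j t := by
        intro t
        simp only [Fin.sum_univ_two]
        ring
      have r4 : ∀ t, (∑ j, (E j 0 + a * E j 1) * (m j + h0 j t)) =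
          ((∑ j, E j 0 * m j) + ∑ j, E j 0 * h0 j t) +
            a * ((∑ j, E j 1 * m j) + ∑ j, E j 1 * h0 j t) := by
        intro t
        simp only [Fin.sum_univ_two]
        ring
      rw [r1, r2] at I
      simp only [r3, r4] at I
      exact I
    · intro φ hφ
      have N1 : ∀ᵐ t ∂volume.restrict (Ioo 0 T), ∀ᵐ x ∂volume.restrict (Ioo 0 L),
          ∑ j, c * E j 1 * f t j x = -(r * (∑ j, E j 1 * W j t x) +
            reco L (fun j => E j 1) m (Y t) x * (∑ j, E j 1 * W j t x) +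
            a2 * b * (reco L (fun j => E j 0) m (Y t) x * ∑ j, E j 0 * W j t x) +
            a1 * b * ((∑ j, E j 0 * W j t x) * reco L (fun j => E j 1) m (Y t) x +
              reco L (fun j => E j 0) m (Y t) x * ∑ j, E j 1 * W j t x)) := by
        filter_upwards [hIoo F2] with t e
        filter_upwards [ae_all_iff.mpr e, reco_ae L (fun j => E j 0) m (Y t),
          reco_ae L (fun j => E j 1) m (Y t)] with x b1 b2 b3
        rw [b2, b3]
        simp only [b1]
        exact force1 hA (fun k => Y t k x) fun k => W k t x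
      have I := ident (fun j => c * E j 1) (fun j => E j 1 + a * b * E j 0)
        (fun j => by linear_combination -(eig1 j)) _ N1 φ hφ
      have r0 : ∀ t, (∫ x in Ioo 0 L, reco L (fun j => c * E j 1) m (Y t) x * φ t x) =
          c * ∫ x in Ioo 0 L, reco L (fun j => E j 1) m (Y t) x * φ t x := by
        intro t
        rw [← integral_const_mul]
        refine integral_congr_ae ?_
        filter_upwards [reco_ae L (fun j => c * E j 1) m (Y t),
          reco_ae L (fun j => E j 1) m (Y t)] with x b1 b2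
        rw [b1, b2]
        simp only [Fin.sum_univ_two]
        ring
      have r1 : (∫ t in Ioo 0 T, ∫ x in Ioo 0 L,
          (reco L (fun j => c * E j 1) m (Y t) x * deriv (fun s => φ s x) t +
            reco L (fun j => E j 1 + a * b * E j 0) m (Y t) x * iteratedDeriv 3 (φ t) x -
            (r * (∑ j, E j 1 * W j t x) +
            reco L (fun j => E j 1) m (Y t) x * (∑ j, E j 1 * W j t x) +
            a2 * b * (reco L (fun j => E j 0) m (Y t) x * ∑ j, E j 0 * W j t x) +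
            a1 * b * ((∑ j, E j 0 * W j t x) * reco L (fun j => E j 1) m (Y t) x +
              reco L (fun j => E j 0) m (Y t) x * ∑ j, E j 1 * W j t x)) * φ t x)) =
          ∫ t in Ioo 0 T, ∫ x in Ioo 0 L,
          (c * reco L (fun j => E j 1) m (Y t) x * deriv (fun s => φ s x) t +
            (reco L (fun j => E j 1) m (Y t) x + a * b * reco L (fun j => E j 0) m (Y t) x) *
              iteratedDeriv 3 (φ t) x -
            (r * (∑ j, E j 1 * W j t x) +
            reco L (fun j => E j 1) m (Y t) x * (∑ j, E j 1 * W j t x) +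
            a2 * b * (reco L (fun j => E j 0) m (Y t) x * ∑ j, E j 0 * W j t x) +
            a1 * b * ((∑ j, E j 0 * W j t x) * reco L (fun j => E j 1) m (Y t) x +
              reco L (fun j => E j 0) m (Y t) x * ∑ j, E j 1 * W j t x)) * φ t x) := by
        refine integral_congr_ae (Eventually.of_forall fun t => ?_)
        refine integral_congr_ae ?_
        filter_upwards [reco_ae L (fun j => E j 0) m (Y t), reco_ae L (fun j => E j 1) m (Y t),
          reco_ae L (fun j => E j 1 + a * b * E j 0) m (Y t),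
          reco_ae L (fun j => c * E j 1) m (Y t)] with x b1 b2 b3 b4
        rw [b1, b2, b3, b4]
        simp only [Fin.sum_univ_two]
        ring
      have r2 : (∑ j, (E j 1 + a * b * E j 0) * h2 j (fun t => φ t L)) =
          (∑ j, E j 1 * h2 j (fun t => φ t L)) + a * b * ∑ j, E j 0 * h2 j (fun t => φ t L) := by
        simp only [Fin.sum_univ_two]
        ring
      have r3 : ∀ t, (∑ j, (E j 1 + a * b * E j 0) * h1 j t) =
          (∑ j, E j 1 * h1 j t) + a * b * ∑ j, E j 0 * h1 j t := by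
        intro t
        simp only [Fin.sum_univ_two]
        ring
      have r4 : ∀ t, (∑ j, (E j 1 + a * b * E j 0) * (m j + h0 j t)) =
          ((∑ j, E j 1 * m j) + ∑ j, E j 1 * h0 j t) +
            a * b * ((∑ j, E j 0 * m j) + ∑ j, E j 0 * h0 j t) := by
        intro t
        simp only [Fin.sum_univ_two]
        ring
      rw [r0, r0, r1, r2, ← mul_sub] at I
      simp only [r3, r4] at I
      exact I
  · change reco L (fun j => E j 0) m (Y 0) = u0
    rw [hY0, hy00]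
  · change reco L (fun j => E j 1) m (Y 0) = v0
    rw [hY0, hy01]
  · change reco L (fun j => E j 0) m (Y T) = uT
    rw [hYT, hy10]
  · change reco L (fun j => E j 1) m (Y T) = vT
    rw [hYT, hy11]

/-- Global exact controllability, in every sufficiently large time. -/
theorem controllable {L a a1 a2 b c r : ℝ} (hL : 0 < L) (hb : 0 < b) (hc : 0 < c)
    (ha : a ^ 2 * b < 1) (hd : 6 * a1 * a2 * b + 3 * a1 ^ 2 * a2 ^ 2 * b ^ 2 <
      1 + 4 * a2 ^ 3 * b + 4 * a1 ^ 3 * b ^ 2) :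
    ∃ T0 : ℝ, 0 < T0 ∧ ∀ T : ℝ, T0 ≤ T → ExactlyControllable L a a1 a2 b c r T := by
  obtain ⟨E, mu, m, e, kap, hA⟩ := exists_alg r hb hc ha hd
  obtain ⟨T0, hT0, h⟩ := line_control (parOf hL hA)
  exact ⟨T0, hT0, fun T hT => controllable_of_line hL hA (hT0.trans_le hT) (h T hT)⟩

end Pool.Agent.Kdv
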