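import Pool.Agent.Lib.MP_78c35a_an.Par
import Pool.Agent.Lib.MP_78c35a_an.Gen
import Pool.Agent.Lib.MP_78c35a_an.Quadr

/-!
# The monotone functional
-/

set_option autoImplicit false

namespace Pool.Agent.Kdv

open MeasureTheory Filter Topology Set
open scoped ENNReal

variable {n : ℕ}

namespace FuncAux

open scoped ContDiff

lemma one_meas (L : ℝ) : Measurable (one L) :=
  measurable_one.indicator measurableSet_Ioo

lemma one_bd (L : ℝ) : ∃ C, ∀ x, |one L x| ≤ C := by
  refine ⟨1, fun x => ?_⟩
  unfold one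
  by_cases hx : x ∈ Ioo (0 : ℝ) L
  · rw [indicator_of_mem hx]; simp
  · rw [indicator_of_notMem hx]; simp

lemma one_in {L x : ℝ} (hx : x ∈ Ioo 0 L) : one L x = 1 := indicator_of_mem hx _

lemma one_out {L x : ℝ} (hx : x ∉ Ioo 0 L) : one L x = 0 := indicator_of_notMem hx _

lemma PP_ae (L : ℝ) (z : HH n) (j : Fin n) :
    ∀ᵐ x ∂volume, PP n L z j x = one L x * z j x :=
  mulOp_ae (one_meas L) (one_bd L) (z j)

/-- A smooth cutoff. -/
lemma exists_bump {L : ℝ} (hL : 0 < L) : ∃ θ : ℝ → ℝ, ContDiff ℝ ∞ θ ∧ HasCompactSupport θ ∧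
    ∀ x ∈ Icc (-1) (L + 1), θ x = 1 := by
  let f : ContDiffBump (L / 2 : ℝ) := ⟨L / 2 + 1, L / 2 + 2, by positivity, by linarith⟩
  refine ⟨f, f.contDiff, f.hasCompactSupport, fun x hx => f.one_of_mem_closedBall ?_⟩
  rw [Real.closedBall_eq_Icc]
  constructor
  · have := hx.1
    simp only [f]
    linarith
  · have := hx.2
    simp only [f]
    linarith

lemma chi_cont (L : ℝ) : Continuous (chi L) := by
  unfold chi
  fun_prop

lemma chi_out {L x : ℝ} (hx : x ∉ J L) : chi L x = 0 := by
  unfold chi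
  refine max_eq_left ?_
  by_cases h : -1 < x
  · have h2 : ¬ x < L + 1 := fun h3 => hx ⟨h, h3⟩
    exact (min_le_right _ _).trans ((min_le_right _ _).trans (by linarith))
  · exact (min_le_right _ _).trans ((min_le_left _ _).trans (by linarith))

lemma chi_nonneg (L x : ℝ) : 0 ≤ chi L x := le_max_left _ _

lemma chi_le (L x : ℝ) : chi L x ≤ 1 := max_le zero_le_one (min_le_left _ _)

lemma chi_a {L x : ℝ} (hL : 0 < L) (hx : x ∈ Ioo (-1) 0) : chi L x = 1 + x := by
  unfold chi
  have h1 := hx.1
  have h2 := hx.2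
  rw [min_eq_left (by linarith : 1 + x ≤ L + 1 - x), min_eq_right (by linarith : 1 + x ≤ 1),
    max_eq_right (by linarith)]

lemma chi_b {L x : ℝ} (hx : x ∈ Ioo 0 L) : chi L x = 1 := by
  unfold chi
  have h1 := hx.1
  have h2 := hx.2
  rw [min_eq_left (le_min (by linarith) (by linarith)), max_eq_right zero_le_one]

lemma chi_c {L x : ℝ} (hL : 0 < L) (hx : x ∈ Ioo L (L + 1)) : chi L x = L + 1 - x := by
  unfold chi
  have h1 := hx.1
  have h2 := hx.2
  rw [min_eq_right (by linarith : L + 1 - x ≤ 1 + x), min_eq_right (by linarith : L + 1 - x ≤ 1),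
    max_eq_right (by linarith)]

lemma dchi_a {L x : ℝ} (hL : 0 < L) (hx : x ∈ Ioo (-1) 0) : dchi L x = 1 := by
  unfold dchi
  rw [indicator_of_mem hx, indicator_of_notMem (fun h => by linarith [h.1, hx.2])]
  simp

lemma dchi_b {L x : ℝ} (hx : x ∈ Ioo 0 L) : dchi L x = 0 := by
  unfold dchi
  rw [indicator_of_notMem (fun h => by linarith [h.2, hx.1]),
    indicator_of_notMem (fun h => by linarith [h.1, hx.2]), sub_zero]

lemma dchi_c {L x : ℝ} (hL : 0 < L) (hx : x ∈ Ioo L (L + 1)) : dchi L x = -1 := by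
  unfold dchi
  rw [indicator_of_notMem (fun h => by linarith [h.2, hx.1]), indicator_of_mem hx]
  simp

lemma dchi_out {L x : ℝ} (hL : 0 < L) (hx : x ∉ J L) : dchi L x = 0 := by
  unfold dchi
  rw [indicator_of_notMem (fun h => hx ⟨h.1, by linarith [h.2]⟩),
    indicator_of_notMem (fun h => hx ⟨by linarith [h.1], h.2⟩), sub_zero]

lemma dchi_meas (L : ℝ) : Measurable (dchi L) :=
  (measurable_one.indicator measurableSet_Ioo).sub (measurable_one.indicator measurableSet_Ioo)

lemma dchi_bd (L x : ℝ) : |dchi L x| ≤ 2 := by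
  unfold dchi
  have h1 : ∀ s : Set ℝ, |s.indicator (1 : ℝ → ℝ) x| ≤ 1 := fun s => by
    by_cases hx : x ∈ s
    · rw [indicator_of_mem hx]; simp
    · rw [indicator_of_notMem hx]; simp
  calc _ ≤ |(Ioo (-1 : ℝ) 0).indicator (1 : ℝ → ℝ) x| + |(Ioo L (L + 1)).indicator (1 : ℝ → ℝ) x| :=
        abs_sub _ _
    _ ≤ 1 + 1 := add_le_add (h1 _) (h1 _)
    _ = 2 := by norm_num

/-- The product of two elements of `L²`. -/
lemma int_mul (f g : L2) : Integrable (fun x => f x * g x) volume :=
  (Lp.memLp f).integrable_mul (Lp.memLp g)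

/-- Integration by parts on one of the three pieces. -/
lemma piece {L : ℝ} (hL : 0 < L) (p q : V1 L) {a b : ℝ} (ha : -1 ≤ a) (hab : a ≤ b)
    (hb : b ≤ L + 1) {w w' : ℝ → ℝ} (hw : ∀ x, HasDerivAt w (w' x) x) (hw' : Continuous w')
    (h1 : ∀ x ∈ Ioo a b, w x = x * chi L x) (h2 : ∀ x ∈ Ioo a b, w' x = chi L x + x * dchi L x) :
    ∫ x in a..b, (x * chi L x * (V1.d L p x * q.val x + p.val x * V1.d L q x) +
      (chi L x + x * dchi L x) * (p.val x * q.val x)) =
      w b * p.val b * q.val b - w a * p.val a * q.val a := by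
  have hwc : Continuous w := continuous_iff_continuousAt.mpr fun x => (hw x).continuousAt
  have h := V1.parts hL p q ha hab hb hwc (w' := w') (fun x hx => by
    rw [intervalIntegral.integral_eq_sub_of_hasDerivAt (fun y _ => hw y)
      (hw'.intervalIntegrable _ _)]
    ring) (hw'.intervalIntegrable _ _)
  rw [← h]
  refine intervalIntegral.integral_congr_ae ?_
  filter_upwards [compl_mem_ae_iff.mpr (measure_singleton b)] with x hne hx2
  rw [uIoc_of_le hab] at hx2
  have hx : x ∈ Ioo a b := ⟨hx2.1, lt_of_le_of_ne hx2.2 hne⟩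
  rw [h1 x hx, h2 x hx]
  ring

/-- The integral identity behind the monotone functional. -/
lemma parts2 {L : ℝ} (hL : 0 < L) (p q : V1 L) {φ : ℝ → ℝ}
    (hφ : ∀ x ∈ Icc (-1) (L + 1), φ x = x) :
    ∫ x, (φ x * chi L x * (V1.d L p x * V1.u L q x + V1.u L p x * V1.d L q x) +
      (chi L x + φ x * dchi L x) * (V1.u L p x * V1.u L q x)) = 0 := by
  set F : ℝ → ℝ := fun x => x * chi L x * (V1.d L p x * q.val x + p.val x * V1.d L q x) +
      (chi L x + x * dchi L x) * (p.val x * q.val x) with hF
  have e1 : ∫ x, (φ x * chi L x * (V1.d L p x * V1.u L q x + V1.u L p x * V1.d L q x) +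
      (chi L x + φ x * dchi L x) * (V1.u L p x * V1.u L q x)) = ∫ x, F x := by
    refine integral_congr_ae ?_
    filter_upwards [p.val_ae, q.val_ae] with x h1 h2
    by_cases hx : x ∈ J L
    · simp only [hF, hφ x (Ioo_subset_Icc_self hx), h1 hx, h2 hx]
    · simp only [hF, chi_out hx, dchi_out hL hx, zero_mul, mul_zero, add_zero]
  have e2 : ∫ x, F x = ∫ x in (-1)..(L + 1), F x := by
    rw [intervalIntegral.integral_of_le (by linarith), integral_Ioc_eq_integral_Ioo]
    refine (setIntegral_eq_integral_of_forall_compl_eq_zero fun x hx => ?_).symm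
    have : x ∉ J L := hx
    simp only [hF, chi_out this, dchi_out hL this, zero_mul, mul_zero, add_zero]
  have hi : ∀ a b : ℝ, IntervalIntegrable F volume a b := by
    intro a b
    have hc := chi_cont L
    have hpv := p.val_cont
    have hqv := q.val_cont
    have h1 : IntervalIntegrable (fun x => (x * chi L x * q.val x) * V1.d L p x)
        volume a b :=
      (L2.intervalIntegrable (V1.d L p) a b).continuousOn_mul (Continuous.continuousOn (by fun_prop))
    have h2 : IntervalIntegrable (fun x => (x * chi L x * p.val x) * V1.d L q x)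
        volume a b :=
      (L2.intervalIntegrable (V1.d L q) a b).continuousOn_mul (Continuous.continuousOn (by fun_prop))
    have h3 : IntervalIntegrable (fun x => chi L x * (p.val x * q.val x)) volume a b :=
      Continuous.intervalIntegrable (by fun_prop) _ _
    have h4 : IntervalIntegrable (fun x => (x * (p.val x * q.val x)) * dchi L x) volume a b := by
      have h5 : IntervalIntegrable (dchi L) volume a b := by
        have h6 : IntervalIntegrable (fun _ : ℝ => (2 : ℝ)) volume a b :=
          intervalIntegrable_const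
        exact h6.mono_fun (dchi_meas L).aestronglyMeasurable
          (Eventually.of_forall fun x => by
            change |dchi L x| ≤ |(2 : ℝ)|
            exact (dchi_bd L x).trans (le_abs_self _))
      exact h5.continuousOn_mul (Continuous.continuousOn (by fun_prop))
    refine (((h1.add h2).add h3).add h4).congr_ae (Eventually.of_forall fun x => ?_)
    simp only [hF]
    ring
  rw [e1, e2, ← intervalIntegral.integral_add_adjacent_intervals (hi (-1) 0) (hi 0 (L + 1)),
    ← intervalIntegral.integral_add_adjacent_intervals (hi 0 L) (hi L (L + 1))]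
  have pa := piece hL p q le_rfl (by norm_num : (-1 : ℝ) ≤ 0) (by linarith)
      (w := fun x => x * (1 + x)) (w' := fun x => 1 * (1 + x) + x * 1)
      (fun x => (hasDerivAt_id x).mul ((hasDerivAt_id x).const_add 1)) (by fun_prop)
      (fun x hx => by rw [chi_a hL hx]) (fun x hx => by rw [chi_a hL hx, dchi_a hL hx]; ring)
  have pb := piece hL p q (by norm_num : (-1 : ℝ) ≤ 0) hL.le (by linarith)
      (w := fun x => x) (w' := fun _ => 1)
      (fun x => hasDerivAt_id x) (by fun_prop)
      (fun x hx => by rw [chi_b hx, mul_one]) (fun x hx => by rw [chi_b hx, dchi_b hx]; ring)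
  have pc := piece hL p q (by linarith : (-1 : ℝ) ≤ L) (by linarith : L ≤ L + 1) le_rfl
      (w := fun x => x * (L + 1 - x)) (w' := fun x => 1 * (L + 1 - x) + x * (-1))
      (fun x => (hasDerivAt_id x).mul ((hasDerivAt_id x).const_sub (L + 1))) (by fun_prop)
      (fun x hx => by rw [chi_c hL hx]) (fun x hx => by rw [chi_c hL hx, dchi_c hL hx]; ring)
  rw [pa, pb, pc]
  ring

lemma norm_sq_L2 (f : L2) : ‖f‖ ^ 2 = ∫ x, f x ^ 2 := by
  rw [← real_inner_self_eq_norm_sq, L2.inner_def]
  refine integral_congr_ae (Eventually.of_forall fun x => ?_)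
  simp only [RCLike.inner_apply, conj_trivial]
  ring

lemma norm_sq_HH (z : HH n) : ‖z‖ ^ 2 = ∫ x, ∑ j, z j x ^ 2 := by
  rw [PiLp.norm_sq_eq_of_L2, integral_finsetSum _ fun j _ => ?_]
  · exact Finset.sum_congr rfl fun j _ => norm_sq_L2 _
  · have := int_mul (z j) (z j)
    refine this.congr (Eventually.of_forall fun x => ?_)
    simp only
    ring

lemma bdd_int {m f : ℝ → ℝ} {C : ℝ} (hm : Measurable m) (hb : ∀ x, |m x| ≤ C)
    (hf : Integrable f volume) : Integrable (fun x => m x * f x) volume :=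
  hf.bdd_mul (c := C) hm.aestronglyMeasurable (Eventually.of_forall fun x => hb x)

/-- A functional given by one function and coefficients. -/
lemma inner_psi (e : Fin n → ℝ) {φ : ℝ → ℝ} (hm : MemLp φ 2 volume) (y : HH n) :
    inner ℝ (WithLp.toLp 2 fun j => e j • toL2 φ : HH n) y = ∫ x, φ x * ∑ j, e j * y j x := by
  rw [PiLp.inner_apply]
  have h1 : ∀ j, inner ℝ (e j • toL2 φ) (y j) = ∫ x, e j * (φ x * y j x) := by
    intro j
    rw [real_inner_smul_left, L2.inner_def, integral_const_mul]
    congr 1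
    refine integral_congr_ae ?_
    filter_upwards [toL2_ae hm] with x hx
    simp only [RCLike.inner_apply, conj_trivial]
    rw [hx, mul_comm]
  have h2 : ∀ j, Integrable (fun x => e j * (φ x * y j x)) volume := fun j =>
    (hm.integrable_mul (Lp.memLp (y j))).const_mul _
  change ∑ j, inner ℝ (e j • toL2 φ) (y j) = _
  simp only [h1]
  rw [← integral_finsetSum _ fun j _ => h2 j]
  refine integral_congr_ae (Eventually.of_forall fun x => ?_)
  simp only [Finset.mul_sum]
  exact Finset.sum_congr rfl fun j _ => by ring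

/-- The test functions. -/
lemma exists_phi {L : ℝ} (hL : 0 < L) : ∃ φ : ℝ → ℝ, ContDiff ℝ ∞ φ ∧ HasCompactSupport φ ∧
    (∀ x ∈ Icc (-1) (L + 1), φ x = x) ∧ ∀ x ∈ J L, iteratedDeriv 3 φ x = 0 := by
  obtain ⟨θ, h1, h2, h3⟩ := exists_bump hL
  have h4 : ∀ x ∈ Icc (-1) (L + 1), x * θ x = x := fun x hx => by rw [h3 x hx, mul_one]
  refine ⟨fun x => x * θ x, contDiff_id.mul h1, h2.mul_left, h4, fun x hx => ?_⟩
  have e1 : (fun x => x * θ x) =ᶠ[𝓝 x] fun x => x := by
    filter_upwards [isOpen_Ioo.mem_nhds hx] with y hy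
    exact h4 y (Ioo_subset_Icc_self hy)
  rw [e1.iteratedDeriv_eq, iteratedDeriv_succ',
    show deriv (fun x : ℝ => x) = fun _ => 1 from by funext; simp]
  simp [iteratedDeriv_const]

/-- The generator of the group on the functional. -/
lemma gen_psi (p : Par n) {φ : ℝ → ℝ} (h1 : ContDiff ℝ ∞ φ) (h2 : HasCompactSupport φ) (t : ℝ) :
    UU p (-t) (WithLp.toLp 2 fun j => p.e j • toL2 φ) =
      (WithLp.toLp 2 fun j => p.e j • toL2 φ : HH n) + ∫ s in (0 : ℝ)..t,
        UU p (-s) (WithLp.toLp 2 fun j => (p.mu j * p.e j) • toL2 (iteratedDeriv 3 φ)) := by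
  have hcont : Continuous fun s => UU p (-s)
      (WithLp.toLp 2 fun j => (p.mu j * p.e j) • toL2 (iteratedDeriv 3 φ)) :=
    (UU_cont p _).comp continuous_neg
  ext1 j
  have e1 : (((WithLp.toLp 2 fun j => p.e j • toL2 φ : HH n) + ∫ s in (0 : ℝ)..t,
        UU p (-s) (WithLp.toLp 2 fun j => (p.mu j * p.e j) • toL2 (iteratedDeriv 3 φ)) : HH n)) j =
      p.e j • toL2 φ + ∫ s in (0 : ℝ)..t, airy (p.mu j * (-s))
        ((p.mu j * p.e j) • toL2 (iteratedDeriv 3 φ)) := by
    have := (prH (n := n) j).intervalIntegral_comp_comm (μ := volume) (hcont.intervalIntegrable 0 t)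
    rw [PiLp.add_apply]
    congr 1
    exact this.symm
  rw [e1, UU_apply]
  change airy (p.mu j * (-t)) (p.e j • toL2 φ) = _
  rw [map_smul, mul_neg, airy_gen h1 h2, smul_add]
  congr 1
  have e2 : ∀ s : ℝ, airy (p.mu j * (-s)) ((p.mu j * p.e j) • toL2 (iteratedDeriv 3 φ)) =
      p.mu j • p.e j • airy (-(p.mu j * s)) (toL2 (iteratedDeriv 3 φ)) := by
    intro s
    rw [mul_neg, map_smul, smul_smul]
  simp only [e2]
  rw [intervalIntegral.integral_smul,
      intervalIntegral.smul_integral_comp_mul_left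
        (fun s => p.e j • airy (-s) (toL2 (iteratedDeriv 3 φ))) (p.mu j), mul_zero,
      intervalIntegral.integral_smul]

end FuncAux

open FuncAux ContDiff in
theorem exists_func (p : Par n) : ∃ (psi psi' : HH n) (kap C1 : ℝ), 0 < kap ∧ 0 ≤ C1 ∧
    (∀ t, UU p (-t) psi = psi + ∫ s in (0 : ℝ)..t, UU p (-s) psi') ∧
    ∀ w : VV n p.L, kap * ‖PP n p.L (inc n p.L w)‖ ^ 2 ≤
      inner ℝ psi' (inc n p.L w) +
        inner ℝ psi (lmap n p.L p.S w + qmap n p.L p.g w) +
      C1 * (‖inc n p.L w - PP n p.L (inc n p.L w)‖ +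
        ‖inc n p.L w - PP n p.L (inc n p.L w)‖ ^ 2) := by
  have hL := p.hL
  obtain ⟨φ, h1, h2, h3, h4⟩ := exists_phi hL
  have hφc : Continuous φ := h1.continuous
  have hm : MemLp φ 2 volume := hφc.memLp_of_hasCompactSupport h2
  have hφ5 : Continuous (iteratedDeriv 3 φ) :=
    h1.continuous_iteratedDeriv 3 (WithTop.coe_le_coe.mpr (le_top : (3 : ℕ∞) ≤ ⊤))
  have hφ6 : HasCompactSupport (iteratedDeriv 3 φ) := by
    simp only [iteratedDeriv_succ, iteratedDeriv_zero]
    exact h2.deriv.deriv.deriv
  have hm3 : MemLp (iteratedDeriv 3 φ) 2 volume := hφ5.memLp_of_hasCompactSupport hφ6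
  obtain ⟨B, hB⟩ : ∃ B, ∀ x, |φ x| ≤ B := by
    obtain ⟨B, hB⟩ := h2.exists_bound_of_continuous hφc
    exact ⟨B, hB⟩
  set hh : Fin n → Fin n → ℝ := fun k l => ∑ j, p.e j * p.g j k l with hhdef
  have hsymm : ∀ k l, hh k l = hh l k := fun k l => by
    simp only [hhdef]
    exact Finset.sum_congr rfl fun j _ => by rw [p.g23]
  set Hc : ℝ := ∑ k, ∑ l, |hh k l| with hHc
  have hHc0 : 0 ≤ Hc := Finset.sum_nonneg fun k _ => Finset.sum_nonneg fun l _ => abs_nonneg _
  set psi : HH n := WithLp.toLp 2 fun j => p.e j • toL2 φ with hpsi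
  set psi' : HH n := WithLp.toLp 2 fun j => (p.mu j * p.e j) • toL2 (iteratedDeriv 3 φ) with hpsi'
  set C2 : ℝ := (p.L + 1) / 3 * Hc with hC2
  have hC20 : 0 ≤ C2 := by positivity
  refine ⟨psi, psi', p.kap / 2, ‖psi'‖ + C2, half_pos p.hkap, by positivity,
    gen_psi p h1 h2, fun w => ?_⟩
  set z := inc n p.L w with hz
  set N := ‖z - PP n p.L z‖ with hN
  have hN0 : 0 ≤ N := norm_nonneg _
  -- the linear functional
  have hA : -(‖psi'‖ * N) ≤ inner ℝ psi' z := by
    have e1 : inner ℝ psi' (PP n p.L z) = 0 := by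
      rw [hpsi', inner_psi _ hm3]
      rw [← integral_zero ℝ ℝ]
      refine integral_congr_ae ?_
      filter_upwards [ae_all_iff.mpr fun j => PP_ae p.L z j] with x hx
      by_cases hxo : x ∈ Ioo 0 p.L
      · rw [h4 x ⟨by linarith [hxo.1], by linarith [hxo.2]⟩, zero_mul]
      · have : ∑ j, p.mu j * p.e j * PP n p.L z j x = 0 := by
          refine Finset.sum_eq_zero fun j _ => ?_
          rw [hx j, one_out hxo, zero_mul, mul_zero]
        rw [this, mul_zero]
    have e2 : inner ℝ psi' z = inner ℝ psi' (z - PP n p.L z) := by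
      rw [inner_sub_right, e1, sub_zero]
    rw [e2]
    exact (abs_le.mp (abs_real_inner_le_norm _ _)).1
  -- the linear part
  have hl : inner ℝ psi (lmap n p.L p.S w) = 0 := by
    rw [hpsi, inner_psi _ hm, ← integral_zero ℝ ℝ]
    refine integral_congr_ae ?_
    filter_upwards [ae_all_iff.mpr fun j => lmap_ae p.L p.S w j] with x hx
    have : ∑ j, p.e j * lmap n p.L p.S w j x = 0 := by
      simp only [hx, mul_neg, Finset.sum_neg_distrib, Finset.mul_sum]
      rw [Finset.sum_comm, neg_eq_zero]
      refine Finset.sum_eq_zero fun k _ => ?_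
      have e3 := p.Se k
      calc ∑ j, p.e j * (p.S j k * (chi p.L x * dd k w x + 1 / 2 * (dchi p.L x * uu k w x)))
          = (∑ j, p.S k j * p.e j) *
            (chi p.L x * dd k w x + 1 / 2 * (dchi p.L x * uu k w x)) := by
            rw [Finset.sum_mul]
            refine Finset.sum_congr rfl fun j _ => ?_
            rw [p.hS k j]
            ring
        _ = 0 := by rw [e3, zero_mul]
    rw [this, mul_zero]
  -- the quadratic part
  set Q : ℝ → ℝ := fun x => ∑ k, ∑ l, hh k l * (uu k w x * uu l w x) with hQ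
  have hQint : Integrable Q volume :=
    integrable_finsetSum _ fun k _ => integrable_finsetSum _ fun l _ =>
      (int_mul (uu k w) (uu l w)).const_mul _
  set R : ℝ → ℝ := fun x => 1 / 2 * (chi p.L x * Q x) + 1 / 6 * (φ x * dchi p.L x * Q x) with hR
  have hchi : ∀ x, |chi p.L x| ≤ 1 := fun x => by
    rw [abs_of_nonneg (chi_nonneg _ _)]
    exact chi_le _ _
  have hfd : ∀ x, |φ x * dchi p.L x| ≤ B * 2 := fun x => by
    rw [abs_mul]
    exact mul_le_mul (hB x) (dchi_bd _ _) (abs_nonneg _) ((abs_nonneg _).trans (hB x))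
  have hfc : ∀ x, |φ x * chi p.L x| ≤ B * 1 := fun x => by
    rw [abs_mul]
    exact mul_le_mul (hB x) (hchi _) (abs_nonneg _) ((abs_nonneg _).trans (hB x))
  have hRint : Integrable R volume :=
    ((bdd_int (chi_cont _).measurable hchi hQint).const_mul _).add
      ((bdd_int (hφc.measurable.mul (dchi_meas _)) hfd hQint).const_mul _)
  have hq : inner ℝ psi (qmap n p.L p.g w) = ∫ x, R x := by
    rw [hpsi, inner_psi _ hm]
    set A : Fin n → Fin n → ℝ → ℝ := fun k l x =>
      φ x * chi p.L x * (dd k w x * uu l w x + uu k w x * dd l w x) +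
      (chi p.L x + φ x * dchi p.L x) * (uu k w x * uu l w x) with hAd
    have hA0 : ∀ k l, ∫ x, A k l x = 0 := fun k l => parts2 hL (w k) (w l) h3
    have hAi : ∀ k l, Integrable (A k l) volume := by
      intro k l
      refine Integrable.add ?_ ?_
      · exact bdd_int (hφc.measurable.mul (chi_cont _).measurable) hfc
          ((int_mul (dd k w) (uu l w)).add (int_mul (uu k w) (dd l w)))
      · refine bdd_int (C := 1 + B * 2) ((chi_cont _).measurable.add
          (hφc.measurable.mul (dchi_meas _))) (fun x => ?_) (int_mul (uu k w) (uu l w))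
        exact (abs_add_le _ _).trans (add_le_add (hchi x) (hfd x))
    have e5 : ∀ᵐ x ∂volume, φ x * ∑ j, p.e j * qmap n p.L p.g w j x =
        R x - 1 / 2 * ∑ k, ∑ l, hh k l * A k l x := by
      filter_upwards [ae_all_iff.mpr fun j => qmap_ae hL p.g w j] with x hx
      have f1 : ∑ j, p.e j * qmap n p.L p.g w j x = -∑ k, ∑ l, hh k l *
          (chi p.L x * uu k w x * dd l w x + (1 / 3) * dchi p.L x * uu k w x * uu l w x) := by
        simp only [hx, hhdef, mul_neg, Finset.sum_neg_distrib, Finset.mul_sum, Finset.sum_mul]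
        congr 1
        rw [Finset.sum_comm]
        refine Finset.sum_congr rfl fun k _ => ?_
        rw [Finset.sum_comm]
        refine Finset.sum_congr rfl fun l _ => Finset.sum_congr rfl fun j _ => ?_
        ring
      have f2 : ∑ k, ∑ l, hh k l * (dd k w x * uu l w x) =
          ∑ k, ∑ l, hh k l * (uu k w x * dd l w x) := by
        rw [Finset.sum_comm]
        refine Finset.sum_congr rfl fun k _ => Finset.sum_congr rfl fun l _ => ?_
        rw [hsymm l k]
        ring
      have f3 : ∑ k, ∑ l, hh k l * A k l x = φ x * chi p.L x *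
          (∑ k, ∑ l, hh k l * (dd k w x * uu l w x) + ∑ k, ∑ l, hh k l * (uu k w x * dd l w x)) +
          (chi p.L x + φ x * dchi p.L x) * Q x := by
        simp only [hAd, hQ, Finset.mul_sum, ← Finset.sum_add_distrib]
        refine Finset.sum_congr rfl fun k _ => Finset.sum_congr rfl fun l _ => ?_
        ring
      have f4 : ∑ k, ∑ l, hh k l *
          (chi p.L x * uu k w x * dd l w x + (1 / 3) * dchi p.L x * uu k w x * uu l w x) =
          chi p.L x * ∑ k, ∑ l, hh k l * (uu k w x * dd l w x) +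
            (1 / 3) * dchi p.L x * Q x := by
        simp only [hQ, Finset.mul_sum, ← Finset.sum_add_distrib]
        refine Finset.sum_congr rfl fun k _ => Finset.sum_congr rfl fun l _ => ?_
        ring
      rw [f1, f3, f4, f2]
      simp only [hR]
      ring
    rw [integral_congr_ae e5, integral_sub hRint, integral_const_mul,
      integral_finsetSum _ fun k _ => ?_]
    · have : ∀ k, ∫ x, ∑ l, hh k l * A k l x = 0 := fun k => by
        rw [integral_finsetSum _ fun l _ => (hAi k l).const_mul _]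
        refine Finset.sum_eq_zero fun l _ => ?_
        rw [integral_const_mul, hA0, mul_zero]
      simp only [this, Finset.sum_const_zero, mul_zero, sub_zero]
    · exact integrable_finsetSum _ fun l _ => (hAi k l).const_mul _
    · exact (integrable_finsetSum _ fun k _ => integrable_finsetSum _ fun l _ =>
        (hAi k l).const_mul _).const_mul _
  -- the pointwise bound
  have hsq : ∀ z : HH n, Integrable (fun x => ∑ j, z j x ^ 2) volume := fun z =>
    integrable_finsetSum _ fun j _ => (int_mul (z j) (z j)).congr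
      (Eventually.of_forall fun x => by simp only; ring)
  have hpt : p.kap / 2 * ‖PP n p.L z‖ ^ 2 ≤ (∫ x, R x) + C2 * N ^ 2 := by
    rw [hN, norm_sq_HH, norm_sq_HH, ← integral_const_mul, ← integral_const_mul,
      ← integral_add hRint ((hsq _).const_mul _)]
    refine integral_mono_ae ((hsq _).const_mul _) (hRint.add ((hsq _).const_mul _)) ?_
    filter_upwards [ae_all_iff.mpr fun j => PP_ae p.L z j,
      ae_all_iff.mpr fun j => Lp.coeFn_sub (z j) (PP n p.L z j)] with x hx hx2
    have g1 : ∀ j, (z - PP n p.L z) j x = z j x - PP n p.L z j x := fun j => hx2 j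
    simp only [g1, hx]
    have hco := p.coer fun j => z j x
    have g2 : ∑ j, ∑ k, ∑ l, p.g j k l * p.e j * z k x * z l x = Q x := by
      simp only [hQ, hhdef, Finset.sum_mul]
      rw [Finset.sum_comm]
      refine Finset.sum_congr rfl fun k _ => ?_
      rw [Finset.sum_comm]
      refine Finset.sum_congr rfl fun l _ => Finset.sum_congr rfl fun j _ => ?_
      change p.g j k l * p.e j * uu k w x * uu l w x = _
      ring
    rw [g2] at hco
    have hSn : 0 ≤ ∑ j, z j x ^ 2 := Finset.sum_nonneg fun j _ => sq_nonneg _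
    have hQn : 0 ≤ Q x := (mul_nonneg p.hkap.le hSn).trans hco
    by_cases hxo : x ∈ Ioo 0 p.L
    · simp only [one_in hxo, one_mul, sub_self, hR, chi_b hxo, dchi_b hxo]
      simp only [ne_eq, OfNat.ofNat_ne_zero, not_false_eq_true, zero_pow, Finset.sum_const_zero]
      linarith
    · simp only [one_out hxo, zero_mul, sub_zero]
      simp only [ne_eq, OfNat.ofNat_ne_zero, not_false_eq_true, zero_pow, Finset.sum_const_zero,
        mul_zero]
      have g3 : |φ x * dchi p.L x| ≤ (p.L + 1) * 2 := by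
        by_cases hxJ : x ∈ J p.L
        · rw [abs_mul, h3 x (Ioo_subset_Icc_self hxJ)]
          refine mul_le_mul ?_ (dchi_bd _ _) (abs_nonneg _) (by linarith)
          rw [abs_le]
          exact ⟨by linarith [hxJ.1], hxJ.2.le⟩
        · rw [dchi_out hL hxJ, mul_zero, abs_zero]
          positivity
      have g4 : |Q x| ≤ Hc * ∑ j, z j x ^ 2 := by
        simp only [hQ, hHc, Finset.sum_mul]
        refine (Finset.abs_sum_le_sum_abs _ _).trans (Finset.sum_le_sum fun k _ => ?_)
        refine (Finset.abs_sum_le_sum_abs _ _).trans (Finset.sum_le_sum fun l _ => ?_)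
        rw [abs_mul]
        refine mul_le_mul_of_nonneg_left ?_ (abs_nonneg _)
        have f1 : uu k w x ^ 2 ≤ ∑ j, z j x ^ 2 := Finset.single_le_sum
          (f := fun j => z j x ^ 2) (fun j _ => sq_nonneg _) (Finset.mem_univ k)
        have f2 : uu l w x ^ 2 ≤ ∑ j, z j x ^ 2 := Finset.single_le_sum
          (f := fun j => z j x ^ 2) (fun j _ => sq_nonneg _) (Finset.mem_univ l)
        rw [abs_le]
        constructor
        · nlinarith [sq_nonneg (uu k w x + uu l w x)]
        · nlinarith [sq_nonneg (uu k w x - uu l w x)]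
      have g5 : |φ x * dchi p.L x * Q x| ≤ (p.L + 1) * 2 * (Hc * ∑ j, z j x ^ 2) := by
        rw [abs_mul]
        exact mul_le_mul g3 g4 (abs_nonneg _) (by positivity)
      have g6 := (abs_le.mp g5).1
      have g7 : 0 ≤ chi p.L x * Q x := mul_nonneg (chi_nonneg _ _) hQn
      simp only [hR, hC2]
      nlinarith
  rw [inner_add_right, hl, hq, zero_add]
  have hfin : C2 * N ^ 2 ≤ (‖psi'‖ + C2) * (N + N ^ 2) - ‖psi'‖ * N := by
    have : 0 ≤ ‖psi'‖ := norm_nonneg _
    nlinarith [mul_nonneg hC20 hN0, mul_nonneg this (sq_nonneg N)]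
  linarith

end Pool.Agent.Kdv
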