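import Pool.Agent.Lib.MP_78c35a_an.GagA

/-!
# Cutting and the Fourier transform in `H^{1/3}`
-/

set_option autoImplicit false

namespace Pool.Agent.Kdv

open MeasureTheory Filter Topology Set
open scoped ENNReal ContDiff FourierTransform

namespace GagB

/-- the kernel -/
noncomputable def w (u : ℝ) : ℝ≥0∞ := (ENNReal.ofReal (|u| ^ (5 / 3 : ℝ)))⁻¹

theorem w_meas : Measurable w := by
  unfold w
  have h1 : Measurable fun u : ℝ => |u| ^ (5 / 3 : ℝ) :=
    (measurable_norm.pow_const (5 / 3 : ℝ))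
  exact (ENNReal.measurable_ofReal.comp h1).inv

theorem w_neg (u : ℝ) : w (-u) = w u := by
  unfold w
  rw [abs_neg]

theorem tail {a : ℝ} (ha : 0 < a) : ∫⁻ u in Ioi a, w u =
    ENNReal.ofReal (3 / 2) * (ENNReal.ofReal (a ^ (2 / 3 : ℝ)))⁻¹ := by
  have h1 : ∫⁻ u in Ioi a, w u = ∫⁻ u in Ioi a, ENNReal.ofReal (u ^ (-(5 / 3) : ℝ)) := by
    refine setLIntegral_congr_fun measurableSet_Ioi fun u hu => ?_
    have hu0 : 0 < u := ha.trans hu
    unfold w
    rw [abs_of_pos hu0, ← ENNReal.ofReal_inv_of_pos (by positivity), Real.rpow_neg hu0.le]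
  rw [h1, ← ofReal_integral_eq_lintegral_ofReal
    (integrableOn_Ioi_rpow_of_lt (by norm_num) ha), integral_Ioi_rpow_of_lt (by norm_num) ha,
    ← ENNReal.ofReal_inv_of_pos (by positivity), ← ENNReal.ofReal_mul (by norm_num)]
  · congr 1
    rw [← Real.rpow_neg ha.le]
    norm_num
    ring
  · refine (ae_restrict_mem measurableSet_Ioi).mono fun u hu => ?_
    exact Real.rpow_nonneg (ha.le.trans (le_of_lt hu)) _

theorem tail_Ici {a : ℝ} (ha : 0 < a) : ∫⁻ u in Ici a, w u =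
    ENNReal.ofReal (3 / 2) * (ENNReal.ofReal (a ^ (2 / 3 : ℝ)))⁻¹ := by
  rw [← tail ha, restrict_Ioi_eq_restrict_Ici]

/-- the integral over the points to the left of `s` -/
theorem tail_left {t s : ℝ} (h : s < t) : ∫⁻ r in Iic s, w (t - r) =
    ENNReal.ofReal (3 / 2) * (ENNReal.ofReal (|t - s| ^ (2 / 3 : ℝ)))⁻¹ := by
  rw [abs_of_pos (sub_pos.2 h), ← tail_Ici (sub_pos.2 h), ← lintegral_indicator measurableSet_Iic,
    ← lintegral_indicator measurableSet_Ici, ← lintegral_sub_left_eq_self ((Ici (t - s)).indicator w) t]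
  refine lintegral_congr fun r => ?_
  by_cases hr : r ≤ s
  · rw [indicator_of_mem (mem_Iic.2 hr), indicator_of_mem (mem_Ici.2 (by linarith))]
  · rw [indicator_of_notMem (by simpa using hr), indicator_of_notMem (by
      rw [mem_Ici]
      push Not at hr ⊢
      linarith)]

/-- the integral over the points to the right of `T` -/
theorem tail_right {t T : ℝ} (h : t < T) : ∫⁻ r in Ici T, w (t - r) =
    ENNReal.ofReal (3 / 2) * (ENNReal.ofReal (|t - T| ^ (2 / 3 : ℝ)))⁻¹ := by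
  rw [abs_sub_comm, abs_of_pos (sub_pos.2 h), ← tail_Ici (sub_pos.2 h),
    ← lintegral_indicator measurableSet_Ici, ← lintegral_indicator measurableSet_Ici,
    ← lintegral_sub_right_eq_self ((Ici (T - t)).indicator w) t]
  refine lintegral_congr fun r => ?_
  by_cases hr : T ≤ r
  · rw [indicator_of_mem (mem_Ici.2 hr), indicator_of_mem (mem_Ici.2 (by linarith)), ← w_neg,
      neg_sub]
  · rw [indicator_of_notMem (by simpa using hr), indicator_of_notMem (by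
      rw [mem_Ici]
      push Not at hr ⊢
      linarith)]


theorem enorm_cast (a b : ℝ) : ‖((a : ℝ) : ℂ) - ((b : ℝ) : ℂ)‖ₑ = ‖a - b‖ₑ := by
  rw [← Complex.ofReal_sub, ← ofReal_norm, ← ofReal_norm, Complex.norm_real]

/-- the weight of the part outside of `(a, b)` -/
noncomputable def G (a b : ℝ) (h : ℝ → ℝ) (t : ℝ) : ℝ≥0∞ :=
  ENNReal.ofReal (3 / 2) * (‖h t‖ₑ ^ 2 / ENNReal.ofReal (|t - a| ^ (2 / 3 : ℝ))) +
    ENNReal.ofReal (3 / 2) * (‖h t‖ₑ ^ 2 / ENNReal.ofReal (|t - b| ^ (2 / 3 : ℝ)))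

theorem term_meas (a : ℝ) {h : ℝ → ℝ} (hm : Measurable h) :
    Measurable fun t => ‖h t‖ₑ ^ 2 / ENNReal.ofReal (|t - a| ^ (2 / 3 : ℝ)) := by
  have h1 : Measurable fun t : ℝ => |t - a| ^ (2 / 3 : ℝ) :=
    ((measurable_id.sub_const a).norm.pow_const (2 / 3 : ℝ))
  exact (hm.enorm.pow_const 2).div (ENNReal.measurable_ofReal.comp h1)

theorem outside {a b t : ℝ} (hat : a < t) (htb : t < b) (c : ℝ≥0∞) :
    ∫⁻ r in (Ioo a b)ᶜ, c * w (t - r) ≤
      ENNReal.ofReal (3 / 2) * (c / ENNReal.ofReal (|t - a| ^ (2 / 3 : ℝ))) +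
      ENNReal.ofReal (3 / 2) * (c / ENNReal.ofReal (|t - b| ^ (2 / 3 : ℝ))) := by
  have hm : Measurable fun r => w (t - r) := w_meas.comp (measurable_const.sub measurable_id)
  rw [lintegral_const_mul _ hm]
  have h1 : (Ioo a b)ᶜ ⊆ Iic a ∪ Ici b := by
    intro r hr
    by_contra hcon
    rw [mem_union, mem_Iic, mem_Ici] at hcon
    push Not at hcon
    exact hr ⟨hcon.1, hcon.2⟩
  have h2 : ∫⁻ r in (Ioo a b)ᶜ, w (t - r) ≤
      ENNReal.ofReal (3 / 2) * (ENNReal.ofReal (|t - a| ^ (2 / 3 : ℝ)))⁻¹ +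
      ENNReal.ofReal (3 / 2) * (ENNReal.ofReal (|t - b| ^ (2 / 3 : ℝ)))⁻¹ := by
    calc ∫⁻ r in (Ioo a b)ᶜ, w (t - r) ≤ ∫⁻ r in Iic a ∪ Ici b, w (t - r) :=
          lintegral_mono_set h1
      _ ≤ (∫⁻ r in Iic a, w (t - r)) + ∫⁻ r in Ici b, w (t - r) := lintegral_union_le _ _ _
      _ = _ := by rw [tail_left hat, tail_right htb]
  calc c * ∫⁻ r in (Ioo a b)ᶜ, w (t - r)
      ≤ c * (ENNReal.ofReal (3 / 2) * (ENNReal.ofReal (|t - a| ^ (2 / 3 : ℝ)))⁻¹ +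
      ENNReal.ofReal (3 / 2) * (ENNReal.ofReal (|t - b| ^ (2 / 3 : ℝ)))⁻¹) := by gcongr
    _ = _ := by
      rw [ENNReal.div_eq_inv_mul, ENNReal.div_eq_inv_mul]
      ring

/-- the general form of the cut -/
theorem cut (a b : ℝ) {h : ℝ → ℝ} (hm : Measurable h) :
    gag (fun t => (((Ioo a b).indicator h t : ℝ) : ℂ)) ≤
      (∫⁻ t in Ioo a b, ∫⁻ r in Ioo a b,
        ‖h t - h r‖ₑ ^ 2 / ENNReal.ofReal (|t - r| ^ (5 / 3 : ℝ))) +
      2 * ∫⁻ t in Ioo a b, G a b h t := by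
  have hI : MeasurableSet (Ioo a b) := measurableSet_Ioo
  have hGm : Measurable (G a b h) :=
    ((term_meas a hm).const_mul _).add ((term_meas b hm).const_mul _)
  have e1 : ∀ t ∈ Ioo a b, ∫⁻ r, ‖(((Ioo a b).indicator h t : ℝ) : ℂ) -
        (((Ioo a b).indicator h r : ℝ) : ℂ)‖ₑ ^ 2 / ENNReal.ofReal (|t - r| ^ (5 / 3 : ℝ)) ≤
      (∫⁻ r in Ioo a b, ‖h t - h r‖ₑ ^ 2 / ENNReal.ofReal (|t - r| ^ (5 / 3 : ℝ))) +
        G a b h t := by
    intro t ht
    rw [← lintegral_add_compl _ hI]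
    refine add_le_add (le_of_eq ?_) ?_
    · refine setLIntegral_congr_fun hI fun r hr => ?_
      rw [enorm_cast, indicator_of_mem ht, indicator_of_mem hr]
    · have h1 : ∫⁻ r in (Ioo a b)ᶜ, ‖(((Ioo a b).indicator h t : ℝ) : ℂ) -
        (((Ioo a b).indicator h r : ℝ) : ℂ)‖ₑ ^ 2 / ENNReal.ofReal (|t - r| ^ (5 / 3 : ℝ)) =
          ∫⁻ r in (Ioo a b)ᶜ, ‖h t‖ₑ ^ 2 * w (t - r) := by
        refine setLIntegral_congr_fun hI.compl fun r hr => ?_
        rw [enorm_cast, indicator_of_mem ht, indicator_of_notMem hr, sub_zero, div_eq_mul_inv]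
        rfl
      rw [h1]
      exact outside ht.1 ht.2 _
  have e2 : ∀ t ∈ (Ioo a b)ᶜ, ∫⁻ r, ‖(((Ioo a b).indicator h t : ℝ) : ℂ) -
        (((Ioo a b).indicator h r : ℝ) : ℂ)‖ₑ ^ 2 / ENNReal.ofReal (|t - r| ^ (5 / 3 : ℝ)) =
      ∫⁻ r in Ioo a b, ‖h r‖ₑ ^ 2 * w (r - t) := by
    intro t ht
    rw [← lintegral_indicator hI]
    refine lintegral_congr fun r => ?_
    rw [enorm_cast, indicator_of_notMem ht, zero_sub, enorm_neg]
    by_cases hr : r ∈ Ioo a b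
    · rw [indicator_of_mem hr, indicator_of_mem hr, div_eq_mul_inv, abs_sub_comm]
      rfl
    · rw [indicator_of_notMem hr, indicator_of_notMem hr]
      simp
  unfold gag
  rw [← lintegral_add_compl _ hI, two_mul, ← add_assoc]
  refine add_le_add ?_ ?_
  · rw [← lintegral_add_right _ hGm]
    exact setLIntegral_mono' hI e1
  · rw [setLIntegral_congr_fun hI.compl e2]
    rw [lintegral_lintegral_swap]
    · refine setLIntegral_mono' hI fun r hr => ?_
      have h1 := outside hr.1 hr.2 (‖h r‖ₑ ^ 2)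
      exact h1
    · refine Measurable.aemeasurable ?_
      have h1 : Measurable fun p : ℝ × ℝ => ‖h p.2‖ₑ ^ 2 :=
        (hm.comp measurable_snd).enorm.pow_const 2
      have h2 : Measurable fun p : ℝ × ℝ => w (p.2 - p.1) :=
        w_meas.comp (measurable_snd.sub measurable_fst)
      exact h1.mul h2

/-- cut to a subinterval -/
theorem cut_sub {T : ℝ} (hT : 0 < T) : ∃ C : ℝ≥0∞, C ≠ ⊤ ∧ ∀ a ∈ Icc 0 T, ∀ b ∈ Icc 0 T,
    ∀ h : ℝ → ℝ, Measurable h →
      gag (fun t => (((Ioo a b).indicator h t : ℝ) : ℂ)) ≤ C * sob T h := by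
  obtain ⟨C, hC, hard⟩ := hardy hT
  refine ⟨1 + 2 * (ENNReal.ofReal (3 / 2) * C + ENNReal.ofReal (3 / 2) * C), ?_, ?_⟩
  · refine ENNReal.add_ne_top.2 ⟨ENNReal.one_ne_top, ENNReal.mul_ne_top (by norm_num) ?_⟩
    have h1 : ENNReal.ofReal (3 / 2) * C ≠ ⊤ := ENNReal.mul_ne_top ENNReal.ofReal_ne_top hC
    exact ENNReal.add_ne_top.2 ⟨h1, h1⟩
  intro a ha b hb h hm
  refine (cut a b hm).trans ?_
  have hsub : Ioo a b ⊆ Ioo 0 T := Ioo_subset_Ioo ha.1 hb.2
  have h1 : (∫⁻ t in Ioo a b, ∫⁻ r in Ioo a b,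
        ‖h t - h r‖ₑ ^ 2 / ENNReal.ofReal (|t - r| ^ (5 / 3 : ℝ))) ≤ sob T h := by
    unfold sob
    refine le_trans ?_ le_add_self
    refine (lintegral_mono fun t => lintegral_mono_set hsub).trans (lintegral_mono_set hsub)
  have h2 : ∀ c ∈ Icc 0 T, ∫⁻ t in Ioo a b, ENNReal.ofReal (3 / 2) *
      (‖h t‖ₑ ^ 2 / ENNReal.ofReal (|t - c| ^ (2 / 3 : ℝ))) ≤
        ENNReal.ofReal (3 / 2) * C * sob T h := by
    intro c hc
    rw [lintegral_const_mul _ (term_meas c hm), mul_assoc]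
    gcongr
    exact (lintegral_mono_set hsub).trans (hard c hc h hm)
  have h3 : ∫⁻ t in Ioo a b, G a b h t ≤
      (ENNReal.ofReal (3 / 2) * C + ENNReal.ofReal (3 / 2) * C) * sob T h := by
    unfold G
    rw [lintegral_add_left ((term_meas a hm).const_mul _), add_mul]
    exact add_le_add (h2 a ha) (h2 b hb)
  calc _ ≤ sob T h + 2 * ((ENNReal.ofReal (3 / 2) * C + ENNReal.ofReal (3 / 2) * C) * sob T h) := by
        gcongr
    _ = _ := by ring

/-- translation -/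
theorem gag_shift (h : ℝ → ℂ) (s : ℝ) : gag (fun t => h (t - s)) = gag h := by
  unfold gag
  have h1 : ∀ t : ℝ, ∫⁻ r, ‖h (t - s) - h (r - s)‖ₑ ^ 2 / ENNReal.ofReal (|t - r| ^ (5 / 3 : ℝ)) =
      ∫⁻ r, ‖h (t - s) - h r‖ₑ ^ 2 / ENNReal.ofReal (|t - s - r| ^ (5 / 3 : ℝ)) := by
    intro t
    rw [← lintegral_sub_right_eq_self
      (fun r => ‖h (t - s) - h r‖ₑ ^ 2 / ENNReal.ofReal (|t - s - r| ^ (5 / 3 : ℝ))) s]
    refine lintegral_congr fun r => ?_
    rw [show t - s - (r - s) = t - r by ring]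
  rw [lintegral_congr h1]
  exact lintegral_sub_right_eq_self (fun t => ∫⁻ r, ‖h t - h r‖ₑ ^ 2 /
    ENNReal.ofReal (|t - r| ^ (5 / 3 : ℝ))) s

end GagB

/-- Extension by zero. -/
theorem gag_cut {T : ℝ} (hT : 0 < T) : ∃ C : ℝ≥0∞, C ≠ ⊤ ∧ ∀ s ∈ Icc 0 T, ∀ h : ℝ → ℝ,
    Measurable h → gag (fun t => (((Ioo s T).indicator h t : ℝ) : ℂ)) ≤ C * sob T h := by
  obtain ⟨C, hC, h1⟩ := GagB.cut_sub hT
  exact ⟨C, hC, fun s hs h hm => h1 s hs T ⟨hT.le, le_rfl⟩ h hm⟩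

/-- Delay. -/
theorem sob_delay {T : ℝ} (hT : 0 < T) : ∃ C : ℝ≥0∞, C ≠ ⊤ ∧ ∀ s ∈ Icc 0 T, ∀ h : ℝ → ℝ,
    Measurable h → sob T (fun t => if s < t then h (t - s) else 0) ≤ C * sob T h := by
  obtain ⟨C, hC, h1⟩ := GagB.cut_sub hT
  refine ⟨1 + C, ENNReal.add_ne_top.2 ⟨ENNReal.one_ne_top, hC⟩, ?_⟩
  intro s hs h hm
  set H : ℝ → ℝ := (Ioo 0 (T - s)).indicator h with hH
  have e : ∀ t ∈ Ioo 0 T, (if s < t then h (t - s) else 0) = H (t - s) := by
    intro t ht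
    by_cases hst : s < t
    · rw [if_pos hst, hH, indicator_of_mem]
      exact ⟨by linarith, by linarith [ht.2]⟩
    · rw [if_neg hst, hH, indicator_of_notMem]
      intro hcon
      exact hst (by linarith [hcon.1])
  have h2 := h1 0 ⟨le_rfl, hT.le⟩ (T - s) ⟨by linarith [hs.2], by linarith [hs.1]⟩ h hm
  rw [add_mul, one_mul]
  unfold sob
  refine add_le_add ?_ ?_
  · refine le_trans ?_ le_self_add
    have h0 : ∫⁻ t in Ioo 0 T, ‖(if s < t then h (t - s) else 0)‖ₑ ^ 2 =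
        ∫⁻ t in Ioo 0 T, ‖H (t - s)‖ₑ ^ 2 :=
      setLIntegral_congr_fun measurableSet_Ioo fun t ht => by
        rw [e t ht]
    refine (le_of_eq h0).trans ?_
    calc ∫⁻ t in Ioo 0 T, ‖H (t - s)‖ₑ ^ 2 ≤ ∫⁻ t, ‖H (t - s)‖ₑ ^ 2 := setLIntegral_le_lintegral _ _
      _ = ∫⁻ t, ‖H t‖ₑ ^ 2 := lintegral_sub_right_eq_self (fun t => ‖H t‖ₑ ^ 2) s
      _ = ∫⁻ t in Ioo 0 (T - s), ‖h t‖ₑ ^ 2 := by
        rw [← lintegral_indicator measurableSet_Ioo]
        refine lintegral_congr fun t => ?_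
        by_cases ht : t ∈ Ioo 0 (T - s)
        · rw [hH, indicator_of_mem ht, indicator_of_mem ht]
        · rw [hH, indicator_of_notMem ht, indicator_of_notMem ht]
          simp
      _ ≤ ∫⁻ t in Ioo 0 T, ‖h t‖ₑ ^ 2 :=
        lintegral_mono_set (Ioo_subset_Ioo le_rfl (by linarith [hs.1]))
  · have h3 : ∫⁻ t in Ioo 0 T, ∫⁻ r in Ioo 0 T,
        ‖(if s < t then h (t - s) else 0) - (if s < r then h (r - s) else 0)‖ₑ ^ 2 /
          ENNReal.ofReal (|t - r| ^ (5 / 3 : ℝ)) ≤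
        gag (fun t => (((H (t - s) : ℝ)) : ℂ)) := by
      unfold gag
      refine le_trans ?_ (setLIntegral_le_lintegral (Ioo 0 T) _)
      refine setLIntegral_mono' measurableSet_Ioo fun t ht => ?_
      refine le_trans (le_of_eq ?_) (setLIntegral_le_lintegral (Ioo 0 T) _)
      refine setLIntegral_congr_fun measurableSet_Ioo fun r hr => ?_
      rw [GagB.enorm_cast, e t ht, e r hr]
    refine h3.trans ?_
    rw [GagB.gag_shift (fun t => ((H t : ℝ) : ℂ)) s]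
    exact h2

/-- Smooth functions are in `H^{1/3}(0, T)`. -/
theorem sob_smooth {T : ℝ} {h : ℝ → ℝ} (hh : ContDiff ℝ ∞ h) : sob T h < ⊤ := by
  have hcont : Continuous h := hh.continuous
  have hd : Continuous (deriv h) := hh.continuous_deriv (by simp)
  obtain ⟨B, hB⟩ := (isCompact_Icc (a := (0 : ℝ)) (b := T)).exists_bound_of_continuousOn
    hcont.continuousOn
  obtain ⟨K, hK⟩ := (isCompact_Icc (a := (0 : ℝ)) (b := T)).exists_bound_of_continuousOn
    hd.continuousOn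
  have hlip : ∀ t ∈ Ioo 0 T, ∀ s ∈ Ioo 0 T, ‖h t - h s‖ ≤ K * |t - s| := by
    intro t ht s hs
    exact (convex_Icc 0 T).norm_image_sub_le_of_norm_deriv_le
      (fun x _ => (hh.differentiable (by simp)).differentiableAt) hK
      (Ioo_subset_Icc_self hs) (Ioo_subset_Icc_self ht)
  have hvol : volume (Ioo 0 T) < ⊤ := by
    rw [Real.volume_Ioo]
    exact ENNReal.ofReal_lt_top
  unfold sob
  refine ENNReal.add_lt_top.2 ⟨?_, ?_⟩
  · calc ∫⁻ t in Ioo 0 T, ‖h t‖ₑ ^ 2 ≤ ∫⁻ _t in Ioo 0 T, ENNReal.ofReal B ^ 2 := by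
          refine setLIntegral_mono' measurableSet_Ioo fun t ht => ?_
          gcongr
          rw [← ofReal_norm]
          exact ENNReal.ofReal_le_ofReal (hB t (Ioo_subset_Icc_self ht))
      _ = ENNReal.ofReal B ^ 2 * volume (Ioo 0 T) := by
          rw [lintegral_const, Measure.restrict_apply_univ]
      _ < ⊤ := ENNReal.mul_lt_top (ENNReal.pow_lt_top ENNReal.ofReal_lt_top) hvol
  · have hpt : ∀ t ∈ Ioo 0 T, ∀ s ∈ Ioo 0 T,
        ‖h t - h s‖ₑ ^ 2 / ENNReal.ofReal (|t - s| ^ (5 / 3 : ℝ)) ≤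
          ENNReal.ofReal (K ^ 2 * T ^ (1 / 3 : ℝ)) := by
      intro t ht s hs
      by_cases hts : t = s
      · subst hts
        simp
      have hpos : 0 < |t - s| := abs_pos.2 (sub_ne_zero.2 hts)
      have hle : |t - s| ≤ T := by
        rw [abs_le]
        constructor <;> linarith [ht.1, ht.2, hs.1, hs.2]
      refine ENNReal.div_le_of_le_mul ?_
      have hK0 : 0 ≤ K := by
        have := hlip t ht s hs
        by_contra hcon
        push Not at hcon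
        have h0 := norm_nonneg (h t - h s)
        nlinarith
      have hT0 : 0 ≤ T := hpos.le.trans hle
      rw [← ENNReal.ofReal_mul (by positivity), ← ofReal_norm,
        ← ENNReal.ofReal_pow (norm_nonneg _)]
      refine ENNReal.ofReal_le_ofReal ?_
      have h1 : |t - s| ^ 2 = |t - s| ^ (1 / 3 : ℝ) * |t - s| ^ (5 / 3 : ℝ) := by
        rw [← Real.rpow_add hpos, ← Real.rpow_natCast]
        norm_num
      calc ‖h t - h s‖ ^ 2 ≤ (K * |t - s|) ^ 2 := by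
            gcongr
            exact hlip t ht s hs
        _ = K ^ 2 * (|t - s| ^ (1 / 3 : ℝ) * |t - s| ^ (5 / 3 : ℝ)) := by rw [mul_pow, h1]
        _ ≤ K ^ 2 * (T ^ (1 / 3 : ℝ) * |t - s| ^ (5 / 3 : ℝ)) := by
            gcongr
        _ = _ := by ring
    calc ∫⁻ t in Ioo 0 T, ∫⁻ s in Ioo 0 T,
          ‖h t - h s‖ₑ ^ 2 / ENNReal.ofReal (|t - s| ^ (5 / 3 : ℝ))
        ≤ ∫⁻ _t in Ioo 0 T, ∫⁻ _s in Ioo 0 T, ENNReal.ofReal (K ^ 2 * T ^ (1 / 3 : ℝ)) :=
          setLIntegral_mono' measurableSet_Ioo fun t ht =>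
            setLIntegral_mono' measurableSet_Ioo fun s hs => hpt t ht s hs
      _ = ENNReal.ofReal (K ^ 2 * T ^ (1 / 3 : ℝ)) * volume (Ioo 0 T) * volume (Ioo 0 T) := by
          rw [lintegral_const, lintegral_const, Measure.restrict_apply_univ]
      _ < ⊤ := ENNReal.mul_lt_top (ENNReal.mul_lt_top ENNReal.ofReal_lt_top hvol) hvol

end Pool.Agent.Kdv
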