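import Pool.Agent.Lib.MP_78c35a_an.Hardy

/-!
# Cutting and the Fourier transform in `H^{1/3}`
-/

set_option autoImplicit false

namespace Pool.Agent.Kdv

open MeasureTheory Filter Topology Set
open scoped ENNReal ContDiff FourierTransform SchwartzMap

/-- The seminorm of `H^{1/3}` of the line, squared. -/
noncomputable def gag (h : ℝ → ℂ) : ℝ≥0∞ :=
  ∫⁻ t, ∫⁻ s, ‖h t - h s‖ₑ ^ 2 / ENNReal.ofReal (|t - s| ^ (5 / 3 : ℝ))

lemma measurable_w (p : ℝ) : Measurable fun σ : ℝ => ENNReal.ofReal (|σ| ^ p) :=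
  ENNReal.measurable_ofReal.comp ((Measurable.pow_const (measurable_norm) p))

/-- The seminorm in terms of translations. -/
theorem gag_eq (h : ℝ → ℂ) (hm : Measurable h) :
    gag h = ∫⁻ σ, (∫⁻ t, ‖h (t + σ) - h t‖ₑ ^ 2) / ENNReal.ofReal (|σ| ^ (5 / 3 : ℝ)) := by
  have hF : Measurable fun p : ℝ × ℝ =>
      ‖h p.1 - h p.2‖ₑ ^ 2 / ENNReal.ofReal (|p.1 - p.2| ^ (5 / 3 : ℝ)) :=
    (((hm.comp measurable_fst).sub (hm.comp measurable_snd)).enorm.pow_const 2).div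
      ((measurable_w _).comp (measurable_fst.sub measurable_snd))
  have hG : Measurable fun p : ℝ × ℝ =>
      ‖h (p.2 + p.1) - h p.1‖ₑ ^ 2 / ENNReal.ofReal (|p.2| ^ (5 / 3 : ℝ)) :=
    (((hm.comp (measurable_snd.add measurable_fst)).sub
      (hm.comp measurable_fst)).enorm.pow_const 2).div ((measurable_w _).comp measurable_snd)
  unfold gag
  rw [lintegral_lintegral_swap hF.aemeasurable]
  have e1 : ∀ s : ℝ, ∫⁻ t, ‖h t - h s‖ₑ ^ 2 / ENNReal.ofReal (|t - s| ^ (5 / 3 : ℝ)) =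
      ∫⁻ σ, ‖h (σ + s) - h s‖ₑ ^ 2 / ENNReal.ofReal (|σ| ^ (5 / 3 : ℝ)) := by
    intro s
    rw [← lintegral_add_right_eq_self
      (fun t => ‖h t - h s‖ₑ ^ 2 / ENNReal.ofReal (|t - s| ^ (5 / 3 : ℝ))) s]
    simp only [add_sub_cancel_right]
  simp only [e1]
  rw [lintegral_lintegral_swap hG.aemeasurable]
  refine lintegral_congr fun σ => ?_
  simp only [div_eq_mul_inv]
  rw [lintegral_mul_const]
  · simp only [add_comm]
  · exact ((hm.comp (measurable_const.add measurable_id)).sub hm).enorm.pow_const 2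

/-- The integrand of the basic integral. -/
noncomputable def gagF (x : ℝ) : ℝ≥0∞ :=
  ‖Complex.exp (2 * Real.pi * Complex.I * x) - 1‖ₑ ^ 2 / ENNReal.ofReal (|x| ^ (5 / 3 : ℝ))

lemma measurable_gagF : Measurable gagF := by
  refine Measurable.div ?_ (measurable_w _)
  refine Measurable.pow_const ?_ 2
  refine Measurable.enorm ?_
  exact (Continuous.measurable (by fun_prop)).sub_const _

lemma gagE_le (x : ℝ) : ‖Complex.exp (2 * Real.pi * Complex.I * x) - 1‖ ≤ 2 * Real.pi * |x| := by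
  have h := Real.norm_exp_I_mul_ofReal_sub_one_le (x := 2 * Real.pi * x)
  have e : Complex.I * ((2 * Real.pi * x : ℝ) : ℂ) = 2 * Real.pi * Complex.I * x := by
    push_cast; ring
  rw [e, Real.norm_eq_abs, abs_mul, abs_of_pos Real.two_pi_pos] at h
  exact h

lemma gagE_le_two (x : ℝ) : ‖Complex.exp (2 * Real.pi * Complex.I * x) - 1‖ ≤ 2 := by
  have e : 2 * Real.pi * Complex.I * x = ((2 * Real.pi * x : ℝ) : ℂ) * Complex.I := by
    push_cast; ring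
  have h1 : ‖Complex.exp (2 * Real.pi * Complex.I * x)‖ = 1 := by
    rw [e, Complex.norm_exp_ofReal_mul_I]
  calc ‖Complex.exp (2 * Real.pi * Complex.I * x) - 1‖
      ≤ ‖Complex.exp (2 * Real.pi * Complex.I * x)‖ + ‖(1 : ℂ)‖ := norm_sub_le _ _
    _ = 2 := by rw [h1, norm_one]; norm_num

lemma gagF_le (x : ℝ) : gagF x ≤
    ENNReal.ofReal (4 * Real.pi ^ 2 * 2 ^ (5 / 3 : ℝ) * (1 + ‖x‖) ^ (-(5 / 3) : ℝ)) := by
  rcases eq_or_ne x 0 with rfl | hx
  · unfold gagF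
    simp
  have hx' : 0 < |x| := abs_pos.2 hx
  have hp : 0 < |x| ^ (5 / 3 : ℝ) := Real.rpow_pos_of_pos hx' _
  unfold gagF
  rw [← ofReal_norm, ← ENNReal.ofReal_pow (norm_nonneg _), ← ENNReal.ofReal_div_of_pos hp]
  apply ENNReal.ofReal_le_ofReal
  rw [div_le_iff₀ hp]
  have hpi : (1 : ℝ) ≤ Real.pi ^ 2 := by
    have := Real.pi_gt_three
    nlinarith
  have hq : 0 < (1 + ‖x‖) := by positivity
  have hq' : 0 < (1 + ‖x‖) ^ (5 / 3 : ℝ) := Real.rpow_pos_of_pos hq _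
  have e : 4 * Real.pi ^ 2 * 2 ^ (5 / 3 : ℝ) * (1 + ‖x‖) ^ (-(5 / 3) : ℝ) * |x| ^ (5 / 3 : ℝ) =
      4 * Real.pi ^ 2 * (2 ^ (5 / 3 : ℝ) * |x| ^ (5 / 3 : ℝ)) / (1 + ‖x‖) ^ (5 / 3 : ℝ) := by
    rw [Real.rpow_neg hq.le]
    field_simp
  rw [e, le_div_iff₀ hq', ← Real.mul_rpow (by norm_num) hx'.le, Real.norm_eq_abs]
  rcases le_total 1 |x| with h | h
  · have h1 : (1 + |x|) ^ (5 / 3 : ℝ) ≤ (2 * |x|) ^ (5 / 3 : ℝ) :=
      Real.rpow_le_rpow (by positivity) (by linarith) (by norm_num)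
    have h2 : ‖Complex.exp (2 * Real.pi * Complex.I * x) - 1‖ ^ 2 ≤ 2 ^ 2 :=
      pow_le_pow_left₀ (norm_nonneg _) (gagE_le_two x) 2
    have h3 : (0 : ℝ) ≤ (1 + |x|) ^ (5 / 3 : ℝ) := by positivity
    calc _ ≤ 2 ^ 2 * (1 + |x|) ^ (5 / 3 : ℝ) := mul_le_mul_of_nonneg_right h2 h3
      _ ≤ 4 * Real.pi ^ 2 * (2 * |x|) ^ (5 / 3 : ℝ) := by
        apply mul_le_mul _ h1 h3 (by positivity)
        linarith
  · have h1 : (1 + |x|) ^ (5 / 3 : ℝ) ≤ 2 ^ (5 / 3 : ℝ) :=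
      Real.rpow_le_rpow (by positivity) (by linarith) (by norm_num)
    have h2 : ‖Complex.exp (2 * Real.pi * Complex.I * x) - 1‖ ^ 2 ≤ (2 * Real.pi * |x|) ^ 2 :=
      pow_le_pow_left₀ (norm_nonneg _) (gagE_le x) 2
    have h3 : (0 : ℝ) ≤ (1 + |x|) ^ (5 / 3 : ℝ) := by positivity
    have h4 : |x| ^ 2 ≤ |x| ^ (5 / 3 : ℝ) := by
      rw [← Real.rpow_natCast]
      exact Real.rpow_le_rpow_of_exponent_ge hx' h (by norm_num)
    calc _ ≤ (2 * Real.pi * |x|) ^ 2 * 2 ^ (5 / 3 : ℝ) :=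
          mul_le_mul h2 h1 h3 (by positivity)
      _ = 4 * Real.pi ^ 2 * (2 ^ (5 / 3 : ℝ) * |x| ^ 2) := by ring
      _ ≤ 4 * Real.pi ^ 2 * (2 ^ (5 / 3 : ℝ) * |x| ^ (5 / 3 : ℝ)) := by gcongr
      _ = 4 * Real.pi ^ 2 * (2 * |x|) ^ (5 / 3 : ℝ) := by
        rw [Real.mul_rpow (by norm_num) hx'.le]

lemma gagF_lt_top : ∫⁻ x, gagF x < ⊤ := by
  have h1 : Integrable (fun x : ℝ => 4 * Real.pi ^ 2 * 2 ^ (5 / 3 : ℝ) *
      (1 + ‖x‖) ^ (-(5 / 3) : ℝ)) := by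
    apply Integrable.const_mul
    apply integrable_one_add_norm
    rw [Module.finrank_self]
    norm_num
  exact lt_of_le_of_lt (lintegral_mono gagF_le) h1.lintegral_lt_top

lemma gagF_ne_zero : ∫⁻ x, gagF x ≠ 0 := by
  intro h
  rw [lintegral_eq_zero_iff measurable_gagF] at h
  have h1 : volume (Ioo (0 : ℝ) 1) = 0 := by
    refine measure_mono_null ?_ (ae_iff.1 h)
    intro x hx
    change ¬ gagF x = 0
    unfold gagF
    rw [ENNReal.div_eq_zero_iff]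
    rintro (h2 | h2)
    · rw [pow_eq_zero_iff two_ne_zero, enorm_eq_zero, sub_eq_zero, Complex.exp_eq_one_iff] at h2
      obtain ⟨n, hn⟩ := h2
      have h3 : (x : ℂ) = n := by
        have h4 : (2 * Real.pi * Complex.I : ℂ) ≠ 0 := Complex.two_pi_I_ne_zero
        apply mul_left_cancel₀ h4
        rw [hn]; ring
      have h5 : x = (n : ℝ) := by exact_mod_cast h3
      have h6 : (0 : ℝ) < n := h5 ▸ hx.1
      have h7 : (n : ℝ) < 1 := h5 ▸ hx.2
      have h8 : 0 < n := by exact_mod_cast h6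
      have h9 : n < 1 := by exact_mod_cast h7
      omega
    · exact ENNReal.ofReal_ne_top h2
  rw [Real.volume_Ioo] at h1
  norm_num at h1

/-- The basic integral of the theory. -/
theorem gag_const : ∃ c : ℝ≥0∞, c ≠ 0 ∧ c ≠ ⊤ ∧ ∀ r : ℝ,
    ∫⁻ σ : ℝ, ‖Complex.exp (2 * Real.pi * Complex.I * (r * σ)) - 1‖ₑ ^ 2 /
      ENNReal.ofReal (|σ| ^ (5 / 3 : ℝ)) = c * ENNReal.ofReal (|r| ^ (2 / 3 : ℝ)) := by
  refine ⟨∫⁻ x, gagF x, gagF_ne_zero, gagF_lt_top.ne, fun r => ?_⟩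
  rcases eq_or_ne r 0 with rfl | hr
  · have e : (2 / 3 : ℝ) ≠ 0 := by norm_num
    simp [Real.zero_rpow e]
  have hr' : 0 < |r| := abs_pos.2 hr
  have e1 : ∀ σ : ℝ, ‖Complex.exp (2 * Real.pi * Complex.I * (r * σ)) - 1‖ₑ ^ 2 /
      ENNReal.ofReal (|σ| ^ (5 / 3 : ℝ)) =
      ENNReal.ofReal (|r| ^ (5 / 3 : ℝ)) * gagF (r * σ) := by
    intro σ
    unfold gagF
    rw [abs_mul, Real.mul_rpow hr'.le (abs_nonneg σ), ENNReal.ofReal_mul (by positivity),
      Complex.ofReal_mul]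
    have h1 : ENNReal.ofReal (|r| ^ (5 / 3 : ℝ)) ≠ 0 := by
      rw [Ne, ENNReal.ofReal_eq_zero, not_le]
      positivity
    rw [← mul_div_assoc, ENNReal.mul_div_mul_left _ _ h1 ENNReal.ofReal_ne_top]
  simp only [e1]
  have hm : Measurable fun σ : ℝ => r * σ := measurable_const_mul r
  have e2 : ∫⁻ σ, gagF (r * σ) = ENNReal.ofReal |r⁻¹| * ∫⁻ x, gagF x := by
    have e3 := lintegral_map (μ := volume) measurable_gagF hm
    rw [Real.map_volume_mul_left hr, lintegral_smul_measure, smul_eq_mul] at e3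
    exact e3.symm
  rw [lintegral_const_mul' _ _ ENNReal.ofReal_ne_top, e2, ← mul_assoc,
    ← ENNReal.ofReal_mul (by positivity), mul_comm]
  congr 2
  rw [abs_inv, ← Real.rpow_neg_one, ← Real.rpow_add hr']
  norm_num

/-- Duality. -/
lemma gag_dual (f : Lp ℂ 2 (volume : Measure ℝ)) (g : 𝓢(ℝ, ℂ)) :
    ∫ x, g x * (Lp.fourierTransformₗᵢ ℝ ℂ f) x = ∫ x, (𝓕 g) x * f x := by
  have h1 := Lp.fourier_toTemperedDistribution_eq f
  have h2 := congrArg (fun T : 𝓢'(ℝ, ℂ) => T g) h1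
  simp only [TemperedDistribution.fourier_apply, Lp.toTemperedDistribution_apply,
    smul_eq_mul] at h2
  exact h2.symm

/-- The `L²` Fourier transform of an integrable function is the Fourier integral. -/
lemma gag_toLp {f : ℝ → ℂ} (h1 : Integrable f) (h2 : MemLp f 2) :
    Lp.fourierTransformₗᵢ ℝ ℂ (h2.toLp f) =ᵐ[volume] 𝓕 f := by
  have hc : Continuous (𝓕 f) :=
    VectorFourier.fourierIntegral_continuous Real.continuous_fourierChar
      (by exact continuous_inner) h1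
  apply ae_eq_of_integral_contDiff_smul_eq
    ((Lp.memLp (Lp.fourierTransformₗᵢ ℝ ℂ (h2.toLp f))).locallyIntegrable one_le_two)
    hc.locallyIntegrable
  intro g hg hgs
  have hg' : ContDiff ℝ ∞ (fun x => (g x : ℂ)) := Complex.ofRealCLM.contDiff.comp hg
  have hgs' : HasCompactSupport (fun x => (g x : ℂ)) := hgs.comp_left (g := Complex.ofReal) rfl
  obtain ⟨G, hG⟩ : ∃ G : 𝓢(ℝ, ℂ), G = hgs'.toSchwartzMap hg' := ⟨_, rfl⟩
  have hGg : ∀ x, G x = g x := fun x => by rw [hG]; rfl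
  have e1 := gag_dual (h2.toLp f) G
  have e2 : ∫ x, (𝓕 G) x * (h2.toLp f) x = ∫ x, (𝓕 G) x * f x := by
    apply integral_congr_ae
    filter_upwards [h2.coeFn_toLp] with x hx
    rw [hx]
  have e3 : ∫ x, (𝓕 (G : ℝ → ℂ)) x • f x = ∫ x, G x • (𝓕 f) x := by
    have := VectorFourier.integral_fourierIntegral_smul_eq_flip (L := innerₗ ℝ)
      (μ := volume) (ν := volume) Real.continuous_fourierChar continuous_inner G.integrable h1
    rw [flip_innerₗ] at this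
    exact this
  have e4 : ∫ x, G x • (𝓕 f) x = ∫ x, g x • (𝓕 f) x :=
    integral_congr_ae (Eventually.of_forall fun x => by
      change G x • (𝓕 f) x = g x • (𝓕 f) x
      rw [hGg x]; rfl)
  have e5 : ∫ x, G x * (Lp.fourierTransformₗᵢ ℝ ℂ (h2.toLp f)) x =
      ∫ x, g x • (Lp.fourierTransformₗᵢ ℝ ℂ (h2.toLp f)) x :=
    integral_congr_ae (Eventually.of_forall fun x => by
      change G x • (Lp.fourierTransformₗᵢ ℝ ℂ (h2.toLp f)) x =
        g x • (Lp.fourierTransformₗᵢ ℝ ℂ (h2.toLp f)) x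
      rw [hGg x]; rfl)
  rw [← e5, e1, e2, ← e4, ← e3]
  rfl

lemma gag_sq (f : ℝ → ℂ) : ∫⁻ x : ℝ, ‖f x‖ₑ ^ 2 = eLpNorm f 2 volume ^ 2 := by
  have h := eLpNorm_nnreal_pow_eq_lintegral (f := f) (μ := (volume : Measure ℝ)) (p := 2)
    (by norm_num)
  have h2 : ((2 : NNReal) : ℝ) = (2 : ℕ) := by norm_num
  rw [h2] at h
  simp only [ENNReal.rpow_natCast] at h
  exact h.symm

/-- Plancherel. -/
lemma gag_plancherel {f : ℝ → ℂ} (h1 : Integrable f) (h2 : MemLp f 2) :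
    ∫⁻ x : ℝ, ‖𝓕 f x‖ₑ ^ 2 = ∫⁻ x, ‖f x‖ₑ ^ 2 := by
  rw [gag_sq, gag_sq, ← eLpNorm_congr_ae (gag_toLp h1 h2), ← eLpNorm_congr_ae h2.coeFn_toLp,
    ← Lp.enorm_def, ← Lp.enorm_def, LinearIsometryEquiv.enorm_map]

/-- Translations. -/
lemma gag_trans {f : ℝ → ℂ} (h1 : Integrable f) (σ τ : ℝ) :
    𝓕 (fun t => f (t + σ) - f t) τ =
      (Complex.exp (2 * Real.pi * Complex.I * (τ * σ)) - 1) * 𝓕 f τ := by
  have h2 : Integrable fun t => f (t + σ) := h1.comp_add_right σ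
  have e1 := VectorFourier.fourierIntegral_comp_add_right Real.fourierChar (volume : Measure ℝ)
    (innerₗ ℝ) f σ
  have e2 : 𝓕 (fun t => f (t + σ)) τ = Complex.exp (2 * Real.pi * Complex.I * (τ * σ)) * 𝓕 f τ := by
    have := congrFun e1 τ
    refine Eq.trans ?_ (this.trans ?_)
    · rfl
    · rw [Circle.smul_def, Real.fourierChar_apply]
      change Complex.exp (↑(2 * Real.pi * inner ℝ σ τ) * Complex.I) • 𝓕 f τ = _
      rw [smul_eq_mul]
      congr 2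
      change ((2 * Real.pi * (τ * σ) : ℝ) : ℂ) * Complex.I = _
      push_cast
      ring
  have e3 : 𝓕 (fun t => f (t + σ) - f t) τ = 𝓕 (fun t => f (t + σ)) τ - 𝓕 f τ := by
    rw [Real.fourier_eq, Real.fourier_eq, Real.fourier_eq, ← integral_sub]
    · simp only [smul_sub]
    · exact (Real.fourierIntegral_convergent_iff τ).2 h2
    · exact (Real.fourierIntegral_convergent_iff τ).2 h1
  rw [e3, e2]
  ring

/-- The Fourier side is bounded by the seminorm. -/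
theorem gag_fourier : ∃ C : ℝ≥0∞, C ≠ ⊤ ∧ ∀ Φ : ℝ → ℂ, Measurable Φ → Integrable Φ →
    MemLp Φ 2 volume →
      ∫⁻ τ : ℝ, ENNReal.ofReal (|τ| ^ (2 / 3 : ℝ)) * ‖𝓕 Φ τ‖ₑ ^ 2 ≤ C * gag Φ := by
  obtain ⟨c, hc0, hct, hc⟩ := gag_const
  refine ⟨c⁻¹, ENNReal.inv_ne_top.2 hc0, fun Φ hm h1 h2 => ?_⟩
  have hcont : Continuous (𝓕 Φ) :=
    VectorFourier.fourierIntegral_continuous Real.continuous_fourierChar
      (by exact continuous_inner) h1
  have hF : Measurable fun τ => ‖𝓕 Φ τ‖ₑ ^ 2 := hcont.measurable.enorm.pow_const 2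
  have hE : Measurable fun p : ℝ × ℝ =>
      ‖Complex.exp (2 * Real.pi * Complex.I * (p.1 * p.2)) - 1‖ₑ ^ 2 := by
    refine Measurable.pow_const ?_ 2
    refine Measurable.enorm ?_
    exact (Continuous.measurable (by fun_prop)).sub_const _
  have e0 : c * ∫⁻ τ : ℝ, ENNReal.ofReal (|τ| ^ (2 / 3 : ℝ)) * ‖𝓕 Φ τ‖ₑ ^ 2 = gag Φ := by
    rw [gag_eq Φ hm, ← lintegral_const_mul' _ _ hct]
    have e1 : ∀ τ : ℝ, c * (ENNReal.ofReal (|τ| ^ (2 / 3 : ℝ)) * ‖𝓕 Φ τ‖ₑ ^ 2) =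
        ∫⁻ σ : ℝ, ‖Complex.exp (2 * Real.pi * Complex.I * (τ * σ)) - 1‖ₑ ^ 2 /
          ENNReal.ofReal (|σ| ^ (5 / 3 : ℝ)) * ‖𝓕 Φ τ‖ₑ ^ 2 := by
      intro τ
      rw [lintegral_mul_const' _ _ (ENNReal.pow_ne_top enorm_ne_top), hc τ, mul_assoc]
    simp only [e1]
    have hG : Measurable fun p : ℝ × ℝ =>
        ‖Complex.exp (2 * Real.pi * Complex.I * (p.1 * p.2)) - 1‖ₑ ^ 2 /
          ENNReal.ofReal (|p.2| ^ (5 / 3 : ℝ)) * ‖𝓕 Φ p.1‖ₑ ^ 2 :=
      (hE.div ((measurable_w _).comp measurable_snd)).mul (hF.comp measurable_fst)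
    rw [lintegral_lintegral_swap hG.aemeasurable]
    refine lintegral_congr fun σ => ?_
    have h3 : Integrable fun t => Φ (t + σ) - Φ t := (h1.comp_add_right σ).sub h1
    have h4 : MemLp (fun t => Φ (t + σ) - Φ t) 2 volume :=
      (h2.comp_measurePreserving (measurePreserving_add_right volume σ)).sub h2
    generalize ENNReal.ofReal (|σ| ^ (5 / 3 : ℝ)) = w
    rw [← gag_plancherel h3 h4, div_eq_mul_inv, ← lintegral_mul_const]
    · refine lintegral_congr fun τ => ?_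
      rw [gag_trans h1, enorm_mul, mul_pow, div_eq_mul_inv]
      ring
    · have h5 : Continuous (𝓕 fun t => Φ (t + σ) - Φ t) :=
        VectorFourier.fourierIntegral_continuous Real.continuous_fourierChar
          (by exact continuous_inner) h3
      exact h5.measurable.enorm.pow_const 2
  rw [← e0, ← mul_assoc, ENNReal.inv_mul_cancel hc0 hct, one_mul]

end Pool.Agent.Kdv
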