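import Pool.Agent.Lib.MP_78c35a_an.Sob

/-!
# Hardy's inequality in `H^{1/3}(0, T)`
-/

set_option autoImplicit false

namespace Pool.Agent.Kdv

open MeasureTheory Filter Topology Set
open scoped ENNReal ContDiff

namespace HardyAux

theorem esq (x : ℝ) : ‖x‖ₑ ^ 2 = ENNReal.ofReal (x ^ 2) := by
  rw [Real.enorm_eq_ofReal_abs, ← ENNReal.ofReal_pow (abs_nonneg x), sq_abs]

theorem esq_le (x y : ℝ) :
    ‖x‖ₑ ^ 2 ≤ ENNReal.ofReal (3 / 2) * ‖y‖ₑ ^ 2 + 3 * ‖x - y‖ₑ ^ 2 := by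
  rw [esq, esq, esq, ← ENNReal.ofReal_mul (by norm_num),
    show (3 : ℝ≥0∞) = ENNReal.ofReal 3 by norm_num, ← ENNReal.ofReal_mul (by norm_num),
    ← ENNReal.ofReal_add (by positivity) (by positivity)]
  exact ENNReal.ofReal_le_ofReal (by nlinarith [sq_nonneg (2 * x - 3 * y)])

/-- The weight of the seminorm. -/
noncomputable def w5 (d : ℝ) : ℝ≥0∞ := ENNReal.ofReal (d ^ (5 / 3 : ℝ))

/-- The weight of Hardy's inequality. -/
noncomputable def w2 (d : ℝ) : ℝ≥0∞ := ENNReal.ofReal (d ^ (2 / 3 : ℝ))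

theorem w5_eq {d : ℝ} (hd : 0 < d) : w5 d = w2 d * ENNReal.ofReal d := by
  unfold w5 w2
  rw [← ENNReal.ofReal_mul (by positivity)]
  congr 1
  rw [show (5 / 3 : ℝ) = 2 / 3 + 1 by norm_num, Real.rpow_add hd, Real.rpow_one]

theorem w5_ne {d : ℝ} (hd : 0 < d) : w5 d ≠ 0 := by
  unfold w5
  rw [Ne, ENNReal.ofReal_eq_zero, not_le]
  positivity

theorem w5_top (d : ℝ) : w5 d ≠ ⊤ := ENNReal.ofReal_ne_top

theorem w2_ne {d : ℝ} (hd : 0 < d) : w2 d ≠ 0 := by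
  unfold w2
  rw [Ne, ENNReal.ofReal_eq_zero, not_le]
  positivity

theorem div_w5 {d : ℝ} (hd : 0 < d) (x : ℝ≥0∞) : x / w5 d * ENNReal.ofReal d = x / w2 d := by
  have h1 : ENNReal.ofReal d ≠ 0 := by
    rw [Ne, ENNReal.ofReal_eq_zero, not_le]; exact hd
  have h2 : ENNReal.ofReal d ≠ ⊤ := ENNReal.ofReal_ne_top
  rw [w5_eq hd, div_eq_mul_inv, ENNReal.mul_inv (Or.inr h2) (Or.inr h1), mul_assoc, mul_assoc,
    ENNReal.inv_mul_cancel h1 h2, mul_one, div_eq_mul_inv]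

theorem w5_le {a d c : ℝ} (ha : 0 ≤ a) (hd : 0 < d) (hc : 0 < c) (h : a ≤ c * d) :
    w5 a ≤ ENNReal.ofReal (c ^ (5 / 3 : ℝ)) * w5 d := by
  unfold w5
  rw [← ENNReal.ofReal_mul (by positivity), ← Real.mul_rpow hc.le hd.le]
  exact ENNReal.ofReal_le_ofReal (Real.rpow_le_rpow ha h (by norm_num))

theorem div_le_of {a b c : ℝ≥0∞} (x : ℝ≥0∞) (h : b ≤ c * a) (hc : c ≠ 0) (hc' : c ≠ ⊤) :
    x / a ≤ c * (x / b) := by
  have h1 : a⁻¹ ≤ c * b⁻¹ := by
    rw [← ENNReal.inv_le_inv, inv_inv, ENNReal.mul_inv (Or.inl hc) (Or.inl hc'), inv_inv] 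
    calc c⁻¹ * b ≤ c⁻¹ * (c * a) := by gcongr
      _ = a := by rw [← mul_assoc, ENNReal.inv_mul_cancel hc hc', one_mul]
  rw [div_eq_mul_inv, div_eq_mul_inv, mul_left_comm]
  gcongr

theorem alg1 {d : ℝ} (hd : 0 < d) (x : ℝ≥0∞) :
    ENNReal.ofReal 1024 * (ENNReal.ofReal (3 / 2) * x / w5 d) * ENNReal.ofReal (d * (1 / 2016)) =
      ENNReal.ofReal (16 / 21) * (x / w2 d) := by
  rw [ENNReal.ofReal_mul hd.le, ← div_w5 hd x, mul_div_assoc,
    show (16 / 21 : ℝ) = 1024 * (3 / 2) * (1 / 2016) by norm_num,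
    ENNReal.ofReal_mul (by norm_num), ENNReal.ofReal_mul (by norm_num)]
  ring

theorem c64 : (64 : ℝ) ^ (5 / 3 : ℝ) = 1024 := by
  rw [show (64 : ℝ) = (4 : ℝ) ^ (3 : ℝ) by norm_num, ← Real.rpow_mul (by norm_num)]
  norm_num

/-- The partners of `t`. -/
def Jt (s e t : ℝ) : Set ℝ := {r | 63 * |t - s| < e * (r - s) ∧ e * (r - s) < 64 * |t - s|}

theorem vol_Jt {s e : ℝ} (he : e = 1 ∨ e = -1) (t : ℝ) :
    volume (Jt s e t) = ENNReal.ofReal |t - s| := by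
  rcases he with rfl | rfl
  · have h1 : Jt s 1 t = Ioo (s + 63 * |t - s|) (s + 64 * |t - s|) := by
      ext r
      constructor
      · rintro ⟨h1, h2⟩
        exact ⟨by linarith, by linarith⟩
      · rintro ⟨h1, h2⟩
        exact ⟨by linarith, by linarith⟩
    rw [h1, Real.volume_Ioo]
    congr 1
    ring
  · have h1 : Jt s (-1) t = Ioo (s - 64 * |t - s|) (s - 63 * |t - s|) := by
      ext r
      constructor
      · rintro ⟨h1, h2⟩
        exact ⟨by linarith, by linarith⟩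
      · rintro ⟨h1, h2⟩
        exact ⟨by linarith, by linarith⟩
    rw [h1, Real.volume_Ioo]
    congr 1
    ring

/-- The partners of `r`. -/
def Kr (s r : ℝ) : Set ℝ := {t | |r - s| / 64 < |t - s| ∧ |t - s| < |r - s| / 63}

theorem vol_Kr (s r : ℝ) : volume (Kr s r) ≤ ENNReal.ofReal (|r - s| * (1 / 2016)) := by
  have h1 : Kr s r ⊆ Ioo (s + |r - s| / 64) (s + |r - s| / 63) ∪
      Ioo (s - |r - s| / 63) (s - |r - s| / 64) := by
    rintro t ⟨h1, h2⟩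
    rcases abs_cases (t - s) with ⟨h3, -⟩ | ⟨h3, -⟩
    · rw [h3] at h1 h2
      exact Or.inl ⟨by linarith, by linarith⟩
    · rw [h3] at h1 h2
      exact Or.inr ⟨by linarith, by linarith⟩
  have h0 : 0 ≤ |r - s| := abs_nonneg _
  refine (measure_mono h1).trans ((measure_union_le _ _).trans ?_)
  rw [Real.volume_Ioo, Real.volume_Ioo, ← ENNReal.ofReal_add (by linarith) (by linarith)]
  exact ENNReal.ofReal_le_ofReal (by linarith)

theorem measurable_w5 {α : Type} [MeasurableSpace α] {f : α → ℝ} (hf : Measurable f) :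
    Measurable fun x => w5 (f x) := by
  unfold w5
  exact (hf.pow_const _).ennreal_ofReal

theorem measurable_w2 {α : Type} [MeasurableSpace α] {f : α → ℝ} (hf : Measurable f) :
    Measurable fun x => w2 (f x) := by
  unfold w2
  exact (hf.pow_const _).ennreal_ofReal

/-- The points `t` near `s`. -/
def Fs (T s ε : ℝ) : Set ℝ := {t | t ∈ Ioo 0 T ∧ ε < |t - s| ∧ |t - s| < T / 128}

/-- The points `t` not too near `s`. -/
def Es (T s ε : ℝ) : Set ℝ := {t | t ∈ Ioo 0 T ∧ ε < |t - s|}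

theorem meas_abs (s : ℝ) : Measurable fun t : ℝ => |t - s| :=
  (continuous_abs.comp (continuous_id.sub continuous_const)).measurable

theorem meas_Fs (T s ε : ℝ) : MeasurableSet (Fs T s ε) :=
  measurableSet_Ioo.inter ((measurableSet_lt measurable_const (meas_abs s)).inter
    (measurableSet_lt (meas_abs s) measurable_const))

theorem meas_Es (T s ε : ℝ) : MeasurableSet (Es T s ε) :=
  measurableSet_Ioo.inter (measurableSet_lt measurable_const (meas_abs s))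

/-- The pairs. -/
def As (T s ε e : ℝ) : Set (ℝ × ℝ) := {p | p.1 ∈ Fs T s ε ∧ p.2 ∈ Jt s e p.1}

theorem meas_As (T s ε e : ℝ) : MeasurableSet (As T s ε e) := by
  have h1 : Measurable fun p : ℝ × ℝ => |p.1 - s| := (meas_abs s).comp measurable_fst
  have h2 : Measurable fun p : ℝ × ℝ => e * (p.2 - s) :=
    (measurable_snd.sub_const s).const_mul e
  exact (measurable_fst (meas_Fs T s ε)).inter ((measurableSet_lt (h1.const_mul 63) h2).inter
    (measurableSet_lt h2 (h1.const_mul 64)))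

theorem meas_Jt (s e t : ℝ) : MeasurableSet (Jt s e t) := by
  have h2 : Measurable fun r : ℝ => e * (r - s) := (measurable_id.sub_const s).const_mul e
  exact (measurableSet_lt measurable_const h2).inter (measurableSet_lt h2 measurable_const)

variable {T s e ε : ℝ}

theorem As_mem (he : e = 1 ∨ e = -1)
    (hside : ∀ ρ, 0 < ρ → ρ < T / 2 → s + e * ρ ∈ Ioo 0 T) (hε : 0 < ε) {t r : ℝ}
    (h : (t, r) ∈ As T s ε e) :
    r ∈ Ioo 0 T ∧ 63 * |t - s| < |r - s| ∧ |r - s| < 64 * |t - s| ∧ ε < |r - s| := by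
  obtain ⟨⟨h1, h2, h3⟩, h4, h5⟩ := h
  simp only at h1 h2 h3 h4 h5
  have h6 : 0 < e * (r - s) := by linarith
  have h7 : s + e * (e * (r - s)) = r := by
    rcases he with rfl | rfl <;> ring
  have h8 : |r - s| = e * (r - s) := by
    rcases he with rfl | rfl
    · rw [one_mul] at h6 ⊢
      exact abs_of_pos h6
    · rw [abs_of_neg (by linarith)]
      ring
  refine ⟨?_, by rw [h8]; exact h4, by rw [h8]; exact h5, by rw [h8]; linarith⟩
  rw [← h7]
  exact hside _ h6 (by linarith)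

theorem core {h : ℝ → ℝ} (hm : Measurable h) (hε : 0 < ε) (he : e = 1 ∨ e = -1)
    (hside : ∀ ρ, 0 < ρ → ρ < T / 2 → s + e * ρ ∈ Ioo 0 T) :
    ∫⁻ t in Fs T s ε, ‖h t‖ₑ ^ 2 / w2 |t - s| ≤
      ENNReal.ofReal (16 / 21) * (∫⁻ t in Es T s ε, ‖h t‖ₑ ^ 2 / w2 |t - s|) +
      3 * ENNReal.ofReal ((65 : ℝ) ^ (5 / 3 : ℝ)) *
        ∫⁻ t in Ioo 0 T, ∫⁻ r in Ioo 0 T, ‖h t - h r‖ₑ ^ 2 / w5 |t - r| := by
  have hF := meas_Fs T s ε
  have hE := meas_Es T s ε
  have hA := meas_As T s ε e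
  let Φ1 : ℝ × ℝ → ℝ≥0∞ := fun p => ENNReal.ofReal (3 / 2) * ‖h p.2‖ₑ ^ 2 / w5 |p.1 - s|
  let Φ2 : ℝ × ℝ → ℝ≥0∞ := fun p => 3 * ‖h p.1 - h p.2‖ₑ ^ 2 / w5 |p.1 - s|
  have hΦ1 : Measurable Φ1 := by
    refine Measurable.div ?_ (measurable_w5 ((meas_abs s).comp measurable_fst))
    exact ((hm.comp measurable_snd).enorm.pow_const 2).const_mul _
  have hΦ2 : Measurable Φ2 := by
    refine Measurable.div ?_ (measurable_w5 ((meas_abs s).comp measurable_fst))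
    exact (((hm.comp measurable_fst).sub (hm.comp measurable_snd)).enorm.pow_const 2).const_mul _
  have hI1 : Measurable ((As T s ε e).indicator Φ1) := hΦ1.indicator hA
  have hI2 : Measurable ((As T s ε e).indicator Φ2) := hΦ2.indicator hA
  have hA1 : Measurable fun t => ∫⁻ r, (As T s ε e).indicator Φ1 (t, r) :=
    hI1.lintegral_prod_right'
  -- the pointwise inequality
  have step : ∀ t ∈ Fs T s ε, ‖h t‖ₑ ^ 2 / w2 |t - s| ≤
      (∫⁻ r, (As T s ε e).indicator Φ1 (t, r)) + ∫⁻ r, (As T s ε e).indicator Φ2 (t, r) := by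
    intro t ht
    have hd : 0 < |t - s| := hε.trans ht.2.1
    have hind : ∀ Φ : ℝ × ℝ → ℝ≥0∞, ∀ r, (As T s ε e).indicator Φ (t, r) =
        (Jt s e t).indicator (fun r => Φ (t, r)) r := by
      intro Φ r
      by_cases hr : r ∈ Jt s e t
      · rw [indicator_of_mem hr, indicator_of_mem (show (t, r) ∈ As T s ε e from ⟨ht, hr⟩)]
      · rw [indicator_of_notMem hr,
          indicator_of_notMem (show (t, r) ∉ As T s ε e from fun hh => hr hh.2)]
    simp only [hind]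
    rw [lintegral_indicator (meas_Jt s e t), lintegral_indicator (meas_Jt s e t),
      ← lintegral_add_left (by exact hΦ1.comp (by fun_prop : Measurable fun r : ℝ => (t, r)))]
    calc ‖h t‖ₑ ^ 2 / w2 |t - s| = ∫⁻ _ in Jt s e t, ‖h t‖ₑ ^ 2 / w5 |t - s| := by
          rw [setLIntegral_const, vol_Jt he, div_w5 hd]
      _ ≤ ∫⁻ r in Jt s e t, (Φ1 (t, r) + Φ2 (t, r)) := by
          refine lintegral_mono fun r => ?_
          change _ ≤ ENNReal.ofReal (3 / 2) * ‖h r‖ₑ ^ 2 / w5 |t - s| +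
            3 * ‖h t - h r‖ₑ ^ 2 / w5 |t - s|
          rw [← ENNReal.add_div]
          exact ENNReal.div_le_div_right (esq_le _ _) _
  -- the first integral
  have first : ∫⁻ t, ∫⁻ r, (As T s ε e).indicator Φ1 (t, r) ≤
      ENNReal.ofReal (16 / 21) * (∫⁻ t in Es T s ε, ‖h t‖ₑ ^ 2 / w2 |t - s|) := by
    rw [lintegral_lintegral_swap (f := fun t r => (As T s ε e).indicator Φ1 (t, r))
        hI1.aemeasurable, ← lintegral_indicator hE,
      ← lintegral_const_mul' _ _ ENNReal.ofReal_ne_top]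
    refine lintegral_mono fun r => ?_
    by_cases hr : r ∈ Es T s ε
    · rw [indicator_of_mem hr]
      have hρ : 0 < |r - s| := hε.trans hr.2
      have hle : ∀ t, (As T s ε e).indicator Φ1 (t, r) ≤ (Kr s r).indicator
          (fun _ => ENNReal.ofReal 1024 * (ENNReal.ofReal (3 / 2) * ‖h r‖ₑ ^ 2 / w5 |r - s|)) t := by
        intro t
        by_cases ht : (t, r) ∈ As T s ε e
        · obtain ⟨-, h1, h2, h3⟩ := As_mem he hside hε ht
          have hd : 0 < |t - s| := hε.trans ht.1.2.1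
          rw [indicator_of_mem ht, indicator_of_mem (show t ∈ Kr s r from
            ⟨by linarith, by linarith⟩)]
          refine div_le_of _ ?_ (by simp) ENNReal.ofReal_ne_top
          have h4 := w5_le (abs_nonneg (r - s)) hd (by norm_num : (0 : ℝ) < 64) h2.le
          rwa [c64] at h4
        · rw [indicator_of_notMem ht]
          exact zero_le
      refine (lintegral_mono hle).trans ((lintegral_indicator_const_le _ _).trans ?_)
      refine (mul_le_mul_right (vol_Kr s r) _).trans (le_of_eq ?_)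
      exact alg1 hρ _
    · rw [indicator_of_notMem hr, mul_zero]
      have hz : ∀ t, (As T s ε e).indicator Φ1 (t, r) = 0 := by
        intro t
        refine indicator_of_notMem (fun ht => hr ?_) _
        obtain ⟨h0, -, -, h3⟩ := As_mem he hside hε ht
        exact ⟨h0, h3⟩
      simp only [hz, lintegral_zero, le_refl]
  -- the second integral
  have second : ∫⁻ t, ∫⁻ r, (As T s ε e).indicator Φ2 (t, r) ≤
      3 * ENNReal.ofReal ((65 : ℝ) ^ (5 / 3 : ℝ)) *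
        ∫⁻ t in Ioo 0 T, ∫⁻ r in Ioo 0 T, ‖h t - h r‖ₑ ^ 2 / w5 |t - r| := by
    have hc : 3 * ENNReal.ofReal ((65 : ℝ) ^ (5 / 3 : ℝ)) ≠ ⊤ :=
      ENNReal.mul_ne_top (by norm_num) ENNReal.ofReal_ne_top
    rw [← lintegral_const_mul' _ _ hc, ← lintegral_indicator measurableSet_Ioo]
    refine lintegral_mono fun t => ?_
    by_cases ht : t ∈ Ioo 0 T
    · rw [indicator_of_mem ht, ← lintegral_const_mul' _ _ hc,
        ← lintegral_indicator measurableSet_Ioo]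
      refine lintegral_mono fun r => ?_
      by_cases hr : (t, r) ∈ As T s ε e
      · obtain ⟨h0, h1, h2, h3⟩ := As_mem he hside hε hr
        have hd : 0 < |t - s| := hε.trans hr.1.2.1
        rw [indicator_of_mem hr, indicator_of_mem h0, mul_assoc]
        change 3 * ‖h t - h r‖ₑ ^ 2 / w5 |t - s| ≤ _
        rw [mul_div_assoc]
        refine mul_le_mul_right (div_le_of _ ?_ ?_ ENNReal.ofReal_ne_top) _
        · refine w5_le (abs_nonneg (t - r)) hd (by norm_num : (0 : ℝ) < 65) ?_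
          have h4 : |t - r| ≤ |t - s| + |s - r| := abs_sub_le t s r
          rw [abs_sub_comm s r] at h4
          linarith
        · rw [Ne, ENNReal.ofReal_eq_zero, not_le]
          positivity
      · rw [indicator_of_notMem hr]
        exact zero_le
    · rw [indicator_of_notMem ht]
      have hz : ∀ r, (As T s ε e).indicator Φ2 (t, r) = 0 := fun r =>
        indicator_of_notMem (fun hr => ht hr.1.1) _
      simp only [hz, lintegral_zero, le_refl]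
  calc ∫⁻ t in Fs T s ε, ‖h t‖ₑ ^ 2 / w2 |t - s|
      ≤ ∫⁻ t in Fs T s ε, ((∫⁻ r, (As T s ε e).indicator Φ1 (t, r)) +
          ∫⁻ r, (As T s ε e).indicator Φ2 (t, r)) := setLIntegral_mono' hF step
    _ ≤ ∫⁻ t, ((∫⁻ r, (As T s ε e).indicator Φ1 (t, r)) +
          ∫⁻ r, (As T s ε e).indicator Φ2 (t, r)) := setLIntegral_le_lintegral _ _
    _ = (∫⁻ t, ∫⁻ r, (As T s ε e).indicator Φ1 (t, r)) +
          ∫⁻ t, ∫⁻ r, (As T s ε e).indicator Φ2 (t, r) := lintegral_add_left hA1 _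
    _ ≤ _ := add_le_add first second

theorem cancel {N B : ℝ≥0∞} (hN : N ≠ ⊤) (h : N ≤ ENNReal.ofReal (16 / 21) * N + B) :
    N ≤ ENNReal.ofReal (21 / 5) * B := by
  by_cases hB : B = ⊤
  · rw [hB, ENNReal.mul_top (by simp)]
    exact le_top
  obtain ⟨n, hn, rfl⟩ : ∃ n : ℝ, 0 ≤ n ∧ N = ENNReal.ofReal n :=
    ⟨N.toReal, ENNReal.toReal_nonneg, (ENNReal.ofReal_toReal hN).symm⟩
  obtain ⟨b, hb, rfl⟩ : ∃ b : ℝ, 0 ≤ b ∧ B = ENNReal.ofReal b :=
    ⟨B.toReal, ENNReal.toReal_nonneg, (ENNReal.ofReal_toReal hB).symm⟩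
  rw [← ENNReal.ofReal_mul (by norm_num), ← ENNReal.ofReal_add (by positivity) hb,
    ENNReal.ofReal_le_ofReal_iff (by positivity)] at h
  rw [← ENNReal.ofReal_mul (by norm_num)]
  exact ENNReal.ofReal_le_ofReal (by linarith)

theorem w2_mono {a b : ℝ} (ha : 0 ≤ a) (h : a ≤ b) : w2 a ≤ w2 b :=
  ENNReal.ofReal_le_ofReal (Real.rpow_le_rpow ha h (by norm_num))

/-- The bound for the truncated integral. -/
theorem bound {h : ℝ → ℝ} (hm : Measurable h) (hT : 0 < T) (hε : 0 < ε) (he : e = 1 ∨ e = -1)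
    (hside : ∀ ρ, 0 < ρ → ρ < T / 2 → s + e * ρ ∈ Ioo 0 T) (hsob : sob T h ≠ ⊤) :
    ∫⁻ t in Es T s ε, ‖h t‖ₑ ^ 2 / w2 |t - s| ≤ ENNReal.ofReal (21 / 5) *
      ((3 * ENNReal.ofReal ((65 : ℝ) ^ (5 / 3 : ℝ)) + (w2 (T / 128))⁻¹) * sob T h) := by
  have hEs : Es T s ε ⊆ Ioo 0 T := fun t ht => ht.1
  have hL2 : ∫⁻ t in Ioo 0 T, ‖h t‖ₑ ^ 2 ≤ sob T h := le_self_add
  have hSe : (∫⁻ t in Ioo 0 T, ∫⁻ r in Ioo 0 T, ‖h t - h r‖ₑ ^ 2 / w5 |t - r|) ≤ sob T h :=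
    le_add_self
  -- a lower bound of the weight
  have wt : ∀ a : ℝ, 0 < a → ∀ S : Set ℝ, MeasurableSet S → S ⊆ Ioo 0 T →
      (∀ t ∈ S, a ≤ |t - s|) →
      ∫⁻ t in S, ‖h t‖ₑ ^ 2 / w2 |t - s| ≤ (w2 a)⁻¹ * sob T h := by
    intro a ha S hS hST hSa
    calc ∫⁻ t in S, ‖h t‖ₑ ^ 2 / w2 |t - s| ≤ ∫⁻ t in S, (w2 a)⁻¹ * ‖h t‖ₑ ^ 2 := by
          refine setLIntegral_mono' hS fun t ht => ?_
          rw [div_eq_mul_inv, mul_comm]
          exact mul_le_mul_left (ENNReal.inv_le_inv.mpr (w2_mono ha.le (hSa t ht))) _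
      _ ≤ ∫⁻ t in Ioo 0 T, (w2 a)⁻¹ * ‖h t‖ₑ ^ 2 := lintegral_mono_set hST
      _ = (w2 a)⁻¹ * ∫⁻ t in Ioo 0 T, ‖h t‖ₑ ^ 2 :=
          lintegral_const_mul' _ _ (ENNReal.inv_ne_top.mpr (w2_ne ha))
      _ ≤ (w2 a)⁻¹ * sob T h := by gcongr
  have hfin : ∫⁻ t in Es T s ε, ‖h t‖ₑ ^ 2 / w2 |t - s| ≠ ⊤ := by
    refine ne_top_of_le_ne_top ?_ (wt ε hε _ (meas_Es T s ε) hEs fun t ht => ht.2.le)
    exact ENNReal.mul_ne_top (ENNReal.inv_ne_top.mpr (w2_ne hε)) hsob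
  refine cancel hfin ?_
  have hG : MeasurableSet {t | t ∈ Es T s ε ∧ T / 128 ≤ |t - s|} :=
    (meas_Es T s ε).inter (measurableSet_le measurable_const (meas_abs s))
  calc ∫⁻ t in Es T s ε, ‖h t‖ₑ ^ 2 / w2 |t - s|
      ≤ ∫⁻ t in Fs T s ε ∪ {t | t ∈ Es T s ε ∧ T / 128 ≤ |t - s|}, ‖h t‖ₑ ^ 2 / w2 |t - s| := by
        refine lintegral_mono_set fun t ht => ?_
        by_cases h1 : |t - s| < T / 128
        · exact Or.inl ⟨ht.1, ht.2, h1⟩
        · exact Or.inr ⟨ht, not_lt.mp h1⟩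
    _ ≤ (∫⁻ t in Fs T s ε, ‖h t‖ₑ ^ 2 / w2 |t - s|) +
        ∫⁻ t in {t | t ∈ Es T s ε ∧ T / 128 ≤ |t - s|}, ‖h t‖ₑ ^ 2 / w2 |t - s| :=
        lintegral_union_le _ _ _
    _ ≤ (ENNReal.ofReal (16 / 21) * (∫⁻ t in Es T s ε, ‖h t‖ₑ ^ 2 / w2 |t - s|) +
        3 * ENNReal.ofReal ((65 : ℝ) ^ (5 / 3 : ℝ)) * sob T h) + (w2 (T / 128))⁻¹ * sob T h := by
        refine add_le_add ((core hm hε he hside).trans ?_)
          (wt _ (by positivity) _ hG (fun t ht => ht.1.1) fun t ht => ht.2)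
        gcongr
    _ = _ := by ring

end HardyAux

open HardyAux in
/-- Hardy's inequality, uniformly in the singular point. -/
theorem hardy {T : ℝ} (hT : 0 < T) : ∃ C : ℝ≥0∞, C ≠ ⊤ ∧ ∀ s ∈ Icc 0 T, ∀ h : ℝ → ℝ,
    Measurable h →
      ∫⁻ t in Ioo 0 T, ‖h t‖ₑ ^ 2 / ENNReal.ofReal (|t - s| ^ (2 / 3 : ℝ)) ≤ C * sob T h := by
  have hw : w2 (T / 128) ≠ 0 := w2_ne (by positivity)
  refine ⟨ENNReal.ofReal (21 / 5) *
      (3 * ENNReal.ofReal ((65 : ℝ) ^ (5 / 3 : ℝ)) + (w2 (T / 128))⁻¹), ?_, ?_⟩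
  · exact ENNReal.mul_ne_top ENNReal.ofReal_ne_top (ENNReal.add_ne_top.mpr
      ⟨ENNReal.mul_ne_top (by norm_num) ENNReal.ofReal_ne_top, ENNReal.inv_ne_top.mpr hw⟩)
  intro s hs h hm
  by_cases hsob : sob T h = ⊤
  · rw [hsob, ENNReal.mul_top]
    · exact le_top
    · refine mul_ne_zero (by simp) ?_
      refine (add_pos_of_pos_of_nonneg ?_ zero_le).ne'
      have : (0 : ℝ≥0∞) < ENNReal.ofReal ((65 : ℝ) ^ (5 / 3 : ℝ)) := by
        rw [ENNReal.ofReal_pos]; positivity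
      exact ENNReal.mul_pos (by norm_num) this.ne'
  obtain ⟨e, he, hside⟩ : ∃ e : ℝ, (e = 1 ∨ e = -1) ∧
      ∀ ρ, 0 < ρ → ρ < T / 2 → s + e * ρ ∈ Ioo 0 T := by
    rcases le_total s (T / 2) with h1 | h1
    · exact ⟨1, Or.inl rfl, fun ρ h2 h3 => ⟨by linarith [hs.1], by linarith⟩⟩
    · exact ⟨-1, Or.inr rfl, fun ρ h2 h3 => ⟨by linarith, by linarith [hs.2]⟩⟩
  -- the limit
  have hsub : (Ioo 0 T : Set ℝ) ≤ᵐ[volume] ⋃ n : ℕ, Es T s (1 / ((n : ℝ) + 1)) := by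
    have h0 : ∀ᵐ t : ℝ, t ≠ s := by
      simp [ae_iff]
    filter_upwards [h0] with t ht
    intro (htT : t ∈ Ioo 0 T)
    obtain ⟨n, hn⟩ := exists_nat_one_div_lt (abs_pos.mpr (sub_ne_zero.mpr ht))
    exact mem_iUnion.mpr ⟨n, htT, hn⟩
  have hdir : Directed (· ⊆ ·) fun n : ℕ => Es T s (1 / ((n : ℝ) + 1)) := by
    refine Monotone.directed_le (f := fun n : ℕ => Es T s (1 / ((n : ℝ) + 1))) fun n m hnm t ht => ?_
    exact ⟨ht.1, (Nat.one_div_le_one_div hnm).trans_lt ht.2⟩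
  change ∫⁻ t in Ioo 0 T, ‖h t‖ₑ ^ 2 / w2 |t - s| ≤ _
  calc ∫⁻ t in Ioo 0 T, ‖h t‖ₑ ^ 2 / w2 |t - s|
      ≤ ∫⁻ t in ⋃ n : ℕ, Es T s (1 / ((n : ℝ) + 1)), ‖h t‖ₑ ^ 2 / w2 |t - s| :=
        lintegral_mono' (Measure.restrict_mono_ae hsub) le_rfl
    _ = ⨆ n : ℕ, ∫⁻ t in Es T s (1 / ((n : ℝ) + 1)), ‖h t‖ₑ ^ 2 / w2 |t - s| :=
        setLIntegral_iUnion_of_directed _ hdir
    _ ≤ _ := by
        refine iSup_le fun n => ?_
        rw [mul_assoc]
        exact bound hm hT Nat.one_div_pos_of_nat he hside hsob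

end Pool.Agent.Kdv
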