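import Mathlib
import Pool.Agent.Lib.MP_f9aece_nt_h97.Planch

/-!
# Plancherel's theorem with a cubic phase
-/

set_option autoImplicit false

namespace Pool.Agent.Kdv

open MeasureTheory Filter Topology Set
open scoped FourierTransform ENNReal

namespace P3Aux

private lemma cube_deriv (κ ξ : ℝ) : HasDerivAt (fun x : ℝ => κ * x ^ 3) (3 * κ * ξ ^ 2) ξ := by
  have := (hasDerivAt_pow 3 ξ).const_mul κ
  have h2 : κ * (((3 : ℕ) : ℝ) * ξ ^ (3 - 1)) = 3 * κ * ξ ^ 2 := by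
    norm_num
    ring
  rw [h2] at this
  exact this

private lemma cube_inj {κ : ℝ} (hκ : 0 < κ) : Function.Injective (fun x : ℝ => κ * x ^ 3) := by
  intro x y h
  simp only at h
  have h1 : x ^ 3 = y ^ 3 := mul_left_cancel₀ hκ.ne' h
  exact (Odd.strictMono_pow (by decide : Odd 3)).injective h1

private lemma cube_surj {κ : ℝ} (hκ : 0 < κ) : Function.Surjective (fun x : ℝ => κ * x ^ 3) := by
  have hc : Continuous (fun x : ℝ => κ * x ^ 3) := by fun_prop
  apply hc.surjective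
  · exact Tendsto.const_mul_atTop hκ (tendsto_pow_atTop (by norm_num))
  · have h1 : Tendsto (fun x : ℝ => κ * x ^ 3) atTop atTop :=
      Tendsto.const_mul_atTop hκ (tendsto_pow_atTop (by norm_num))
    have h2 := tendsto_neg_atTop_atBot.comp (h1.comp tendsto_neg_atBot_atTop)
    refine h2.congr fun x => ?_
    simp only [Function.comp]
    ring

end P3Aux

theorem p3 {κ : ℝ} (hκ : 0 < κ) {b : ℝ → ℂ} (hb : Integrable b) :
    ∫⁻ t : ℝ, ‖∫ ξ : ℝ, Complex.exp (2 * Real.pi * Complex.I * κ * t * ξ ^ 3) * b ξ‖ₑ ^ 2 ≤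
      ∫⁻ ξ : ℝ, ‖b ξ‖ₑ ^ 2 / ENNReal.ofReal (3 * κ * ξ ^ 2) := by
  set φ : ℝ → ℝ := fun x => κ * x ^ 3 with hφ
  set φ' : ℝ → ℝ := fun x => 3 * κ * x ^ 2 with hφ'
  have hinj : InjOn φ univ := (P3Aux.cube_inj hκ).injOn
  have himg : φ '' univ = univ := by rw [image_univ, (P3Aux.cube_surj hκ).range_eq]
  have hder : ∀ x ∈ (univ : Set ℝ), HasDerivWithinAt φ (φ' x) univ x := fun x _ =>
    (P3Aux.cube_deriv κ x).hasDerivWithinAt
  have hpos : ∀ x, 0 ≤ φ' x := fun x => by positivity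
  obtain ⟨ψ, hψ⟩ : ∃ ψ : ℝ → ℝ, ∀ x, ψ (φ x) = x := by
    obtain ⟨ψ, hψ⟩ := (P3Aux.cube_inj hκ).hasLeftInverse
    exact ⟨ψ, hψ⟩
  set B : ℝ → ℂ := fun τ => ((φ' (ψ τ))⁻¹ : ℝ) • b (ψ τ) with hB
  have hBφ : ∀ x, B (φ x) = ((φ' x)⁻¹ : ℝ) • b x := fun x => by
    simp only [hB, hψ]
  have hne : ∀ᵐ x : ℝ ∂volume, x ≠ 0 := by
    rw [ae_iff]
    simp
  have hφne : ∀ x : ℝ, x ≠ 0 → 0 < φ' x := fun x hx => by positivity
  have hae : ∀ᵐ x : ℝ ∂volume, |φ' x| • B (φ x) = b x := by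
    filter_upwards [hne] with x hx
    rw [abs_of_nonneg (hpos x), hBφ, smul_smul, mul_inv_cancel₀ (hφne x hx).ne', one_smul]
  have hB1 : Integrable B := by
    have h := integrableOn_image_iff_integrableOn_abs_deriv_smul MeasurableSet.univ hder hinj B
    rw [himg, integrableOn_univ, integrableOn_univ] at h
    exact h.mpr (hb.congr (hae.mono fun x hx => hx.symm))
  have hB2 : ∫⁻ τ, ‖B τ‖ₑ ^ 2 = ∫⁻ ξ : ℝ, ‖b ξ‖ₑ ^ 2 / ENNReal.ofReal (3 * κ * ξ ^ 2) := by
    have h := lintegral_image_eq_lintegral_abs_deriv_mul MeasurableSet.univ hder hinj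
      (fun τ => ‖B τ‖ₑ ^ 2)
    rw [himg, Measure.restrict_univ] at h
    rw [h]
    refine lintegral_congr_ae ?_
    filter_upwards [hne] with x hx
    have h1 := hφne x hx
    rw [hBφ, enorm_smul, mul_pow, abs_of_nonneg (hpos x)]
    have h2 : ‖((φ' x)⁻¹ : ℝ)‖ₑ = (ENNReal.ofReal (φ' x))⁻¹ := by
      rw [Real.enorm_eq_ofReal (by positivity), ENNReal.ofReal_inv_of_pos h1]
    rw [h2, ENNReal.div_eq_inv_mul, ← mul_assoc]
    congr 1
    have h3 : ENNReal.ofReal (φ' x) ≠ 0 := by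
      rw [Ne, ENNReal.ofReal_eq_zero, not_le]; exact h1
    have h4 : ENNReal.ofReal (φ' x) ≠ ⊤ := ENNReal.ofReal_ne_top
    rw [pow_two, ← mul_assoc, ENNReal.mul_inv_cancel h3 h4, one_mul]
  by_cases hfin : ∫⁻ ξ : ℝ, ‖b ξ‖ₑ ^ 2 / ENNReal.ofReal (3 * κ * ξ ^ 2) = ⊤
  · rw [hfin]
    exact le_top
  have key : ∀ g : ℝ → ℂ, eLpNorm g 2 volume ^ 2 = ∫⁻ t, ‖g t‖ₑ ^ 2 := by
    intro g
    rw [eLpNorm_eq_lintegral_rpow_enorm_toReal (by norm_num) (by norm_num)]
    simp only [ENNReal.toReal_ofNat]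
    rw [← ENNReal.rpow_natCast, ← ENNReal.rpow_mul]
    norm_num
  have hBm : MemLp B 2 volume := by
    refine ⟨hB1.1, ?_⟩
    have h1 := key B
    rw [hB2] at h1
    by_contra hc
    rw [not_lt, top_le_iff] at hc
    rw [hc] at h1
    apply hfin
    rw [← h1]
    simp
  have hpl := Pool.Agent.Lib.MP_f9aece_nt_h97.plancherel hB1 hBm
  have h1 := key (𝓕 B)
  rw [hpl, key B, hB2] at h1
  rw [h1]
  apply le_of_eq
  have h2 : ∀ t : ℝ, ∫ ξ : ℝ, Complex.exp (2 * Real.pi * Complex.I * κ * t * ξ ^ 3) * b ξ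
      = 𝓕 B (-t) := by
    intro t
    have h := integral_image_eq_integral_abs_deriv_smul MeasurableSet.univ hder hinj
      (fun τ => Complex.exp (2 * Real.pi * Complex.I * t * τ) * B τ)
    rw [himg, Measure.restrict_univ] at h
    rw [Real.fourier_real_eq_integral_exp_smul]
    have h3 : ∫ ξ : ℝ, Complex.exp (2 * Real.pi * Complex.I * κ * t * ξ ^ 3) * b ξ
        = ∫ x : ℝ, |φ' x| • (Complex.exp (2 * Real.pi * Complex.I * t * (φ x : ℝ)) * B (φ x)) := by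
      refine integral_congr_ae ?_
      filter_upwards [hae] with x hx
      rw [mul_comm (Complex.exp (2 * Real.pi * Complex.I * t * (φ x : ℝ))), ← smul_mul_assoc, hx,
        mul_comm (b x)]
      congr 2
      simp only [hφ]
      push_cast
      ring
    rw [h3, ← h]
    refine integral_congr_ae (Eventually.of_forall fun τ => ?_)
    simp only [smul_eq_mul]
    congr 2
    push_cast
    ring
  simp_rw [h2]
  exact (Measure.measurePreserving_neg (volume : Measure ℝ)).lintegral_comp_emb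
    (MeasurableEquiv.neg ℝ).measurableEmbedding (fun t => ‖𝓕 B t‖ₑ ^ 2)

end Pool.Agent.Kdv
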