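import Pool.Agent.Lib.MP_78c35a_an.Agm
import Pool.Agent.Lib.MP_78c35a_an.Airy
import Pool.Agent.Lib.MP_78c35a_an.Aw
import Pool.Agent.Lib.MP_78c35a_an.P3

/-!
# The smoothing effect of the Airy group
-/

set_option autoImplicit false

namespace Pool.Agent.Kdv

open MeasureTheory Filter Topology Set
open scoped SchwartzMap FourierTransform ENNReal

/-- The sharp local smoothing effect at a point. -/
theorem kn1 {μ : ℝ} (hμ : 0 < μ) {G : 𝓢(ℝ, ℂ)} {g : ℝ → ℝ} (h : IsNice G g) (x : ℝ) :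
    ∫⁻ t : ℝ, ‖aw G 1 (μ * t) x‖ₑ ^ 2 ≤ ENNReal.ofReal (‖toL2 g‖ ^ 2 / (3 * μ)) := by
  set b : ℝ → ℂ := fun ξ => (2 * Real.pi * Complex.I * ξ) *
    Complex.exp (2 * Real.pi * Complex.I * x * ξ) * 𝓕 (fun y => G y) ξ with hb
  have hbi : Integrable b := by
    have h1 := aw_integrable G 1 0 x
    refine h1.congr (Eventually.of_forall fun ξ => ?_)
    simp [hb]
  have hκ : 0 < 4 * Real.pi ^ 2 * μ := by positivity
  have h1 := p3 hκ hbi
  have h2 : ∀ t : ℝ, aw G 1 (μ * t) x = ∫ ξ : ℝ, Complex.exp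
      (2 * Real.pi * Complex.I * ((4 * Real.pi ^ 2 * μ : ℝ) : ℂ) * t * ξ ^ 3) * b ξ := by
    intro t
    unfold aw
    refine integral_congr_ae (Eventually.of_forall fun ξ => ?_)
    simp only [hb, pow_one]
    have h3 : Complex.exp (2 * Real.pi * Complex.I * x * ξ +
        8 * Real.pi ^ 3 * Complex.I * ((μ * t : ℝ) : ℂ) * ξ ^ 3) =
        Complex.exp (2 * Real.pi * Complex.I * ((4 * Real.pi ^ 2 * μ : ℝ) : ℂ) * t * ξ ^ 3) *
          Complex.exp (2 * Real.pi * Complex.I * x * ξ) := by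
      rw [← Complex.exp_add]
      congr 1
      push_cast
      ring
    rw [h3]
    ring
  simp_rw [h2]
  refine h1.trans ?_
  have h3 : ∀ ξ : ℝ, ‖b ξ‖ₑ ^ 2 / ENNReal.ofReal (3 * (4 * Real.pi ^ 2 * μ) * ξ ^ 2) ≤
      ‖𝓕 (fun y => G y) ξ‖ₑ ^ 2 * ENNReal.ofReal (1 / (3 * μ)) := by
    intro ξ
    by_cases hξ : ξ = 0
    · have : b ξ = 0 := by simp [hb, hξ]
      rw [this]
      simp
    · have hξ2 : 0 < ξ ^ 2 := by positivity
      have h4 : ‖b ξ‖ ^ 2 = 4 * Real.pi ^ 2 * ξ ^ 2 * ‖𝓕 (fun y => G y) ξ‖ ^ 2 := by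
        simp only [hb, norm_mul]
        have h5 : ‖Complex.exp (2 * Real.pi * Complex.I * x * ξ)‖ = 1 := by
          rw [show (2 * Real.pi * Complex.I * x * ξ : ℂ) =
            ((2 * Real.pi * x * ξ : ℝ) : ℂ) * Complex.I by push_cast; ring]
          exact Complex.norm_exp_ofReal_mul_I _
        rw [h5, Complex.norm_real, Complex.norm_real, Complex.norm_I]
        simp only [Complex.norm_ofNat, Real.norm_eq_abs, mul_one, mul_pow, sq_abs]
        ring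
      have h6 : ‖b ξ‖ₑ ^ 2 = ENNReal.ofReal (‖b ξ‖ ^ 2) := by
        rw [ENNReal.ofReal_pow (norm_nonneg _), ofReal_norm]
      have h7 : ‖𝓕 (fun y => G y) ξ‖ₑ ^ 2 = ENNReal.ofReal (‖𝓕 (fun y => G y) ξ‖ ^ 2) := by
        rw [ENNReal.ofReal_pow (norm_nonneg _), ofReal_norm]
      rw [h6, h7, ← ENNReal.ofReal_div_of_pos (by positivity),
        ← ENNReal.ofReal_mul (by positivity), h4]
      refine ENNReal.ofReal_le_ofReal (le_of_eq ?_)
      field_simp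
  refine (lintegral_mono h3).trans ?_
  rw [lintegral_mul_const' _ _ ENNReal.ofReal_ne_top, nice_plancherel h,
    ← ENNReal.ofReal_mul (by positivity)]
  refine ENNReal.ofReal_le_ofReal (le_of_eq ?_)
  ring

/-- The squared norm in `L²`. -/
lemma ks_norm_sq (r : L2) : ‖r‖ ^ 2 = ∫ x, (r x) ^ 2 := by
  have h1 : ‖r‖ ^ 2 = inner ℝ r r := (real_inner_self_eq_norm_sq r).symm
  rw [h1, L2.inner_def]
  refine integral_congr_ae (Eventually.of_forall fun x => ?_)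
  simp only [RCLike.inner_apply, conj_trivial]
  ring

/-- The integral of the squared norm of an element of `L²`. -/
lemma ks_lint {E : Type} [NormedAddCommGroup E] {m : Measure ℝ} (V : Lp E 2 m) :
    ∫⁻ t, ‖V t‖ₑ ^ 2 ∂m = ENNReal.ofReal (‖V‖ ^ 2) := by
  have h1 := eLpNorm_nnreal_pow_eq_lintegral (μ := m) (f := fun t => V t) (p := 2) two_ne_zero
  have h2 : ∀ t, ‖V t‖ₑ ^ ((2 : NNReal) : ℝ) = ‖V t‖ₑ ^ 2 := fun t => by
    rw [show ((2 : NNReal) : ℝ) = ((2 : ℕ) : ℝ) by norm_num, ENNReal.rpow_natCast]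
  simp_rw [h2] at h1
  rw [← h1, Lp.norm_def, show ((2 : NNReal) : ℝ) = ((2 : ℕ) : ℝ) by norm_num,
    ENNReal.rpow_natCast, ENNReal.ofReal_pow ENNReal.toReal_nonneg,
    ENNReal.ofReal_toReal (Lp.eLpNorm_ne_top V)]
  rfl

lemma ks_volJ (L : ℝ) : volume (J L) = ENNReal.ofReal (L + 2) := by
  unfold J
  rw [Real.volume_Ioo]
  congr 1
  ring

instance ks_finJ (L : ℝ) : IsFiniteMeasure (volume.restrict (J L)) := by
  refine ⟨?_⟩
  rw [Measure.restrict_apply_univ, ks_volJ]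
  exact ENNReal.ofReal_lt_top

lemma ks_jc (G : 𝓢(ℝ, ℂ)) (μ : ℝ) : Continuous fun p : ℝ × ℝ => aw G 1 (μ * p.1) p.2 :=
  (aw_cont G 1).comp ((continuous_const.mul continuous_fst).prodMk continuous_snd)

lemma ks_cx (G : 𝓢(ℝ, ℂ)) (μ t : ℝ) : Continuous fun x => (aw G 1 (μ * t) x).re := by
  have h1 : Continuous fun x : ℝ => ((t, x) : ℝ × ℝ) := by fun_prop
  have h2 := (ks_jc G μ).comp h1
  have h3 := Complex.continuous_re.comp h2
  exact h3

lemma ks_ct (G : 𝓢(ℝ, ℂ)) (μ x : ℝ) : Continuous fun t => (aw G 1 (μ * t) x).re := by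
  have h1 : Continuous fun t : ℝ => ((t, x) : ℝ × ℝ) := by fun_prop
  have h2 := (ks_jc G μ).comp h1
  have h3 := Complex.continuous_re.comp h2
  exact h3

lemma ks_dsub {L μ : ℝ} {G : 𝓢(ℝ, ℂ)} {t s : ℝ} {p q : V1 L}
    (h1 : ∀ᵐ x ∂volume, x ∈ J L → V1.d L p x = (aw G 1 (μ * t) x).re)
    (h2 : ∀ᵐ x ∂volume, x ∈ J L → V1.d L q x = (aw G 1 (μ * s) x).re) :
    ‖V1.d L p - V1.d L q‖ ^ 2 =
      ∫ x in J L, ((aw G 1 (μ * t) x).re - (aw G 1 (μ * s) x).re) ^ 2 := by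
  rw [ks_norm_sq, ← integral_indicator (show MeasurableSet (J L) from measurableSet_Ioo)]
  refine integral_congr_ae ?_
  filter_upwards [Lp.coeFn_sub (V1.d L p) (V1.d L q), h1, h2,
    V1.d_outside p, V1.d_outside q] with x h1 h2 h3 h4 h5
  rw [h1, Pi.sub_apply]
  by_cases hx : x ∈ J L
  · rw [indicator_of_mem hx, h2 hx, h3 hx]
  · rw [indicator_of_notMem hx, h4 hx, h5 hx]
    ring

lemma ks_intc (L μ : ℝ) (G : 𝓢(ℝ, ℂ)) (t0 : ℝ) : Continuous fun t =>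
    ∫ x in J L, ((aw G 1 (μ * t) x).re - (aw G 1 (μ * t0) x).re) ^ 2 := by
  obtain ⟨C1, hC1⟩ := aw_bound G 1
  have hC1' : ∀ c x, |(aw G 1 c x).re| ≤ C1 := fun c x =>
    (Complex.abs_re_le_norm _).trans (hC1 c x)
  refine continuous_of_dominated (bound := fun _ => (2 * C1) ^ 2) (fun t => ?_) (fun t => ?_)
    (integrable_const _) ?_
  · exact (((ks_cx G μ t).sub (ks_cx G μ t0)).pow 2).aestronglyMeasurable
  · refine Eventually.of_forall fun x => ?_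
    have h1 := abs_le.mp (hC1' (μ * t) x)
    have h2 := abs_le.mp (hC1' (μ * t0) x)
    rw [Real.norm_eq_abs, abs_of_nonneg (sq_nonneg _)]
    refine sq_le_sq' ?_ ?_ <;> linarith [h1.1, h1.2, h2.1, h2.2]
  · exact Eventually.of_forall fun x => ((ks_ct G μ x).sub continuous_const).pow 2

lemma ks_cont {L μ : ℝ} {G : 𝓢(ℝ, ℂ)} {y : L2} {v : ℝ → V1 L}
    (hu : ∀ t, V1.u L (v t) = airy (μ * t) y)
    (hv : ∀ t, ∀ᵐ x ∂volume, x ∈ J L → V1.d L (v t) x = (aw G 1 (μ * t) x).re) :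
    Continuous v := by
  rw [continuous_iff_continuousAt]
  intro t0
  rw [ContinuousAt, tendsto_iff_norm_sub_tendsto_zero]
  have h1 : Tendsto (fun t => ‖V1.u L (v t) - V1.u L (v t0)‖ ^ 2) (𝓝 t0) (𝓝 0) := by
    have h2 : Continuous fun t => ‖V1.u L (v t) - V1.u L (v t0)‖ ^ 2 := by
      have h3 : Continuous fun t => V1.u L (v t) := by
        have h4 : (fun t => V1.u L (v t)) = fun t => airy (μ * t) y := funext hu
        rw [h4]
        exact (airy_cont y).comp (continuous_const.mul continuous_id)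
      exact ((h3.sub continuous_const).norm).pow 2
    have h3 := h2.tendsto t0
    simpa using h3
  have h2 : Tendsto (fun t => ‖V1.d L (v t) - V1.d L (v t0)‖ ^ 2) (𝓝 t0) (𝓝 0) := by
    have h3 := (ks_intc L μ G t0).tendsto t0
    simp only [sub_self] at h3
    have h4 : (fun t => ‖V1.d L (v t) - V1.d L (v t0)‖ ^ 2) = fun t =>
        ∫ x in J L, ((aw G 1 (μ * t) x).re - (aw G 1 (μ * t0) x).re) ^ 2 :=
      funext fun t => ks_dsub (hv t) (hv t0)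
    rw [h4]
    simpa using h3
  have hs : Tendsto (fun t => ‖V1.u L (v t) - V1.u L (v t0)‖ ^ 2 +
      ‖V1.d L (v t) - V1.d L (v t0)‖ ^ 2) (𝓝 t0) (𝓝 0) := by
    simpa using h1.add h2
  have hs2 : Tendsto (fun t => √(‖V1.u L (v t) - V1.u L (v t0)‖ ^ 2 +
      ‖V1.d L (v t) - V1.d L (v t0)‖ ^ 2)) (𝓝 t0) (𝓝 0) := by
    have := (Real.continuous_sqrt.tendsto 0).comp hs
    rw [Real.sqrt_zero] at this
    exact this
  refine squeeze_zero (fun t => norm_nonneg _) (fun t => ?_) hs2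
  refine Real.le_sqrt_of_sq_le ?_
  have h1 := V1.norm_le (v t - v t0)
  rw [map_sub, map_sub] at h1
  exact h1

lemma ks_pt {L μ : ℝ} {G : 𝓢(ℝ, ℂ)} {y : L2} {t : ℝ} {p : V1 L}
    (hu : V1.u L p = airy (μ * t) y)
    (hv : ‖V1.d L p‖ ^ 2 = ∫ x in J L, ((aw G 1 (μ * t) x).re) ^ 2) :
    ‖p‖ₑ ^ 2 ≤ ENNReal.ofReal (‖y‖ ^ 2) + ∫⁻ x in J L, ‖aw G 1 (μ * t) x‖ₑ ^ 2 := by
  obtain ⟨C1, hC1⟩ := aw_bound G 1
  have hC1' : ∀ c x, |(aw G 1 c x).re| ≤ C1 := fun c x =>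
    (Complex.abs_re_le_norm _).trans (hC1 c x)
  have h1 : ‖p‖ ^ 2 ≤ ‖y‖ ^ 2 + ∫ x in J L, ((aw G 1 (μ * t) x).re) ^ 2 := by
    have h2 := V1.norm_le p
    rw [hu, airy_norm, hv] at h2
    exact h2
  rw [← ofReal_norm, ← ENNReal.ofReal_pow (norm_nonneg _)]
  refine (ENNReal.ofReal_le_ofReal h1).trans ?_
  rw [ENNReal.ofReal_add (sq_nonneg _) (integral_nonneg fun x => sq_nonneg _)]
  refine add_le_add_right ?_ _
  rw [ofReal_integral_eq_lintegral_ofReal]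
  · refine lintegral_mono fun x => ?_
    rw [← ofReal_norm, ← ENNReal.ofReal_pow (norm_nonneg _)]
    refine ENNReal.ofReal_le_ofReal ?_
    rw [← sq_abs]
    exact pow_le_pow_left₀ (abs_nonneg _) (Complex.abs_re_le_norm _) 2
  · refine Integrable.mono' (integrable_const (C1 ^ 2))
      ((ks_cx G μ t).pow 2).aestronglyMeasurable (Eventually.of_forall fun x => ?_)
    have h3 := abs_le.mp (hC1' (μ * t) x)
    rw [Real.norm_eq_abs, abs_of_nonneg (sq_nonneg _)]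
    exact sq_le_sq' h3.1 h3.2
  · exact Eventually.of_forall fun x => sq_nonneg _

lemma ks_dbl {L μ : ℝ} (_hL : 0 < L) (hμ : 0 < μ) {G : 𝓢(ℝ, ℂ)} {g : ℝ → ℝ} (h : IsNice G g) :
    ∫⁻ t in Ioc (0 : ℝ) 1, ∫⁻ x in J L, ‖aw G 1 (μ * t) x‖ₑ ^ 2 ≤
      ENNReal.ofReal ((L + 2) * (‖toL2 g‖ ^ 2 / (3 * μ))) := by
  rw [lintegral_lintegral_swap]
  · calc ∫⁻ x in J L, ∫⁻ t in Ioc (0 : ℝ) 1, ‖aw G 1 (μ * t) x‖ₑ ^ 2
        ≤ ∫⁻ _ in J L, ENNReal.ofReal (‖toL2 g‖ ^ 2 / (3 * μ)) := by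
          refine lintegral_mono fun x => ?_
          exact (setLIntegral_le_lintegral _ _).trans (kn1 hμ h x)
      _ = ENNReal.ofReal ((L + 2) * (‖toL2 g‖ ^ 2 / (3 * μ))) := by
          rw [setLIntegral_const, ks_volJ, ← ENNReal.ofReal_mul (by positivity), mul_comm]
  · exact ((ks_jc G μ).measurable.enorm.pow_const 2).aemeasurable

lemma ks_bound {L μ : ℝ} (hL : 0 < L) (hμ : 0 < μ) {G : 𝓢(ℝ, ℂ)} {g : ℝ → ℝ} (h : IsNice G g)
    {v : ℝ → V1 L} (hv : ∀ t, ‖v t‖ₑ ^ 2 ≤ ENNReal.ofReal (‖toL2 g‖ ^ 2) +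
      ∫⁻ x in J L, ‖aw G 1 (μ * t) x‖ₑ ^ 2) :
    ∫⁻ t in Ioc (0 : ℝ) 1, ‖v t‖ₑ ^ 2 ≤
      ENNReal.ofReal ((1 + (L + 2) / (3 * μ)) * ‖toL2 g‖ ^ 2) := by
  refine (lintegral_mono hv).trans ?_
  rw [lintegral_add_left measurable_const]
  have h1 : ∫⁻ _ in Ioc (0 : ℝ) 1, ENNReal.ofReal (‖toL2 g‖ ^ 2) =
      ENNReal.ofReal (‖toL2 g‖ ^ 2) := by
    rw [setLIntegral_const, Real.volume_Ioc]
    simp
  rw [h1]
  refine (add_le_add_right (ks_dbl hL hμ h) _).trans ?_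
  rw [← ENNReal.ofReal_add (by positivity) (by positivity)]
  refine ENNReal.ofReal_le_ofReal (le_of_eq ?_)
  ring

/-- The smoothing effect for nice initial values. -/
lemma ks_nice {L μ : ℝ} (hL : 0 < L) (hμ : 0 < μ) {G : 𝓢(ℝ, ℂ)} {g : ℝ → ℝ} (h : IsNice G g) :
    ∃ v : ℝ → V1 L, Continuous v ∧ (∀ t, V1.u L (v t) = airy (μ * t) (toL2 g)) ∧
      ∫⁻ t in Ioc (0 : ℝ) 1, ‖v t‖ₑ ^ 2 ≤
        ENNReal.ofReal ((1 + (L + 2) / (3 * μ)) * ‖toL2 g‖ ^ 2) := by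
  have hmem : ∀ t, MemLp (fun x => (aw G 0 (μ * t) x).re) 2 volume := fun t =>
    (Lp.memLp (airy (μ * t) (toL2 g))).ae_eq (airy_nice h (μ * t))
  have hder : ∀ t x, HasDerivAt (fun x => (aw G 0 (μ * t) x).re) ((aw G 1 (μ * t) x).re) x :=
    fun t x => Complex.reCLM.hasFDerivAt.comp_hasDerivAt x (aw_deriv_x G 0 (μ * t) x)
  have hex : ∀ t, ∃ p : V1 L, V1.u L p = airy (μ * t) (toL2 g) ∧
      (∀ᵐ x ∂volume, x ∈ J L → V1.d L p x = (aw G 1 (μ * t) x).re) ∧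
      ‖V1.d L p‖ ^ 2 = ∫ x in J L, ((aw G 1 (μ * t) x).re) ^ 2 := fun t => by
    obtain ⟨p, h1, h2, h3⟩ := V1.exists_of (L := L) (hmem t) (hder t) (ks_cx G μ t)
    exact ⟨p, by rw [h1]; exact toL2_eq (airy_nice h (μ * t)), h2, h3⟩
  choose v hv1 hv2 hv3 using hex
  exact ⟨v, ks_cont hv1 hv2, hv1, ks_bound hL hμ h fun t => ks_pt (hv1 t) (hv3 t)⟩

theorem kato_smooth {L μ : ℝ} (hL : 0 < L) (hμ : 0 < μ) : ∃ C : ℝ, 0 ≤ C ∧ ∀ y : L2,
    ∃ v : ℝ → V1 L, AEStronglyMeasurable v (volume.restrict (Ioc 0 1)) ∧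
      (∀ᵐ t ∂volume.restrict (Ioc (0 : ℝ) 1), V1.u L (v t) = airy (μ * t) y) ∧
      ∫⁻ t in Ioc (0 : ℝ) 1, ‖v t‖ₑ ^ 2 ≤ ENNReal.ofReal (C * ‖y‖ ^ 2) := by
  set C : ℝ := 1 + (L + 2) / (3 * μ) with hC
  have hC0 : 0 ≤ C := by positivity
  refine ⟨C, hC0, fun y => ?_⟩
  set m : Measure ℝ := volume.restrict (Ioc (0 : ℝ) 1) with hm
  -- approximation
  have happ : ∀ k : ℕ, ∃ (G : 𝓢(ℝ, ℂ)) (g : ℝ → ℝ), IsNice G g ∧
      ‖y - toL2 g‖ < 1 / ((k : ℝ) + 1) := fun k => nice_dense y (by positivity)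
  choose G g hn hg using happ
  have hlim : Tendsto (fun k => toL2 (g k)) atTop (𝓝 y) := by
    rw [tendsto_iff_norm_sub_tendsto_zero]
    refine squeeze_zero (fun k => norm_nonneg _) (fun k => ?_)
      tendsto_one_div_add_atTop_nhds_zero_nat
    rw [norm_sub_rev]
    exact (hg k).le
  choose v hvc hvu hvb using fun k => ks_nice hL hμ (hn k)
  have hvm : ∀ k, MemLp (v k) 2 m := fun k => by
    refine ⟨(hvc k).aestronglyMeasurable, ?_⟩
    have h1 := eLpNorm_nnreal_pow_eq_lintegral (μ := m) (f := v k) (p := 2) two_ne_zero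
    have h2 : ∀ t, ‖v k t‖ₑ ^ ((2 : NNReal) : ℝ) = ‖v k t‖ₑ ^ 2 := fun t => by
      rw [show ((2 : NNReal) : ℝ) = ((2 : ℕ) : ℝ) by norm_num, ENNReal.rpow_natCast]
    simp_rw [h2] at h1
    have h3 : eLpNorm (v k) ((2 : NNReal) : ℝ≥0∞) m ^ ((2 : NNReal) : ℝ) < ⊤ := by
      rw [h1]
      exact (hvb k).trans_lt ENNReal.ofReal_lt_top
    have h4 : eLpNorm (v k) ((2 : NNReal) : ℝ≥0∞) m < ⊤ := by
      by_contra hcon
      rw [not_lt, top_le_iff] at hcon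
      rw [hcon, ENNReal.top_rpow_of_pos (by norm_num)] at h3
      exact lt_irrefl _ h3
    exact h4
  set V : ℕ → Lp (V1 L) 2 m := fun k => (hvm k).toLp (v k) with hV
  have hVae : ∀ k, ∀ᵐ t ∂m, V k t = v k t := fun k => (hvm k).coeFn_toLp
  -- differences
  have hdiff : ∀ j k, ‖V j - V k‖ ^ 2 ≤ C * ‖toL2 (g j) - toL2 (g k)‖ ^ 2 := by
    intro j k
    have hnd : IsNice (G j - G k) (fun x => g j x - g k x) := fun x => by
      simp only [sub_apply, hn j x, hn k x]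
      push_cast
      rfl
    have hgd : toL2 (fun x => g j x - g k x) = toL2 (g j) - toL2 (g k) := by
      refine toL2_eq ?_
      filter_upwards [Lp.coeFn_sub (toL2 (g j)) (toL2 (g k)), toL2_ae (hn j).memLp,
        toL2_ae (hn k).memLp] with x h1 h2 h3
      rw [h1, Pi.sub_apply, h2, h3]
    obtain ⟨w, -, hwu, hwb⟩ := ks_nice hL hμ hnd
    have hw : ∀ t, w t = v j t - v k t := fun t => by
      refine V1.u_injective hL ?_
      rw [map_sub, hwu, hvu, hvu, hgd, map_sub]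
    have h1 := ks_lint (V j - V k)
    have h2 : ∫⁻ t, ‖(V j - V k) t‖ₑ ^ 2 ∂m = ∫⁻ t, ‖w t‖ₑ ^ 2 ∂m := by
      refine lintegral_congr_ae ?_
      filter_upwards [Lp.coeFn_sub (V j) (V k), hVae j, hVae k] with t h3 h4 h5
      rw [h3, Pi.sub_apply, h4, h5, hw t]
    rw [h2] at h1
    rw [hgd] at hwb
    have h3 : ENNReal.ofReal (‖V j - V k‖ ^ 2) ≤
        ENNReal.ofReal (C * ‖toL2 (g j) - toL2 (g k)‖ ^ 2) := by
      rw [← h1]
      exact hwb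
    exact (ENNReal.ofReal_le_ofReal_iff (by positivity)).mp h3
  have hcau : CauchySeq V := by
    have hcg : CauchySeq fun k => toL2 (g k) := hlim.cauchySeq
    rw [Metric.cauchySeq_iff] at hcg ⊢
    intro ε hε
    obtain ⟨N, hN⟩ := hcg (ε / (√C + 1)) (by positivity)
    refine ⟨N, fun j hj k hk => ?_⟩
    have h1 := hN j hj k hk
    rw [dist_eq_norm] at h1 ⊢
    have h2 : ‖V j - V k‖ ≤ √C * ‖toL2 (g j) - toL2 (g k)‖ := by
      refine abs_le_of_sq_le_sq' ?_ (by positivity) |>.2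
      rw [mul_pow, Real.sq_sqrt hC0]
      exact hdiff j k
    calc ‖V j - V k‖ ≤ √C * ‖toL2 (g j) - toL2 (g k)‖ := h2
      _ ≤ √C * (ε / (√C + 1)) := mul_le_mul_of_nonneg_left h1.le (Real.sqrt_nonneg _)
      _ < ε := by
          rw [mul_div_assoc', div_lt_iff₀ (by positivity)]
          nlinarith [Real.sqrt_nonneg C]
  obtain ⟨W, hW⟩ := cauchySeq_tendsto_of_complete hcau
  refine ⟨fun t => W t, (Lp.aestronglyMeasurable W), ?_, ?_⟩
  · have hme : TendstoInMeasure m (fun k t => V k t) atTop (fun t => W t) :=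
      tendstoInMeasure_of_tendsto_Lp hW
    obtain ⟨ns, hns1, hns⟩ := hme.exists_seq_tendsto_ae
    have hns' : Tendsto ns atTop atTop := hns1.tendsto_atTop
    filter_upwards [hns, ae_all_iff.mpr hVae] with t h1 h2
    have h3 : Tendsto (fun i => V1.u L (V (ns i) t)) atTop (𝓝 (V1.u L (W t))) :=
      ((V1.u L).continuous.tendsto _).comp h1
    have h4 : Tendsto (fun i => V1.u L (V (ns i) t)) atTop (𝓝 (airy (μ * t) y)) := by
      have h5 : ∀ i, V1.u L (V (ns i) t) = airy (μ * t) (toL2 (g (ns i))) := fun i => by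
        rw [h2 (ns i), hvu]
      simp_rw [h5]
      exact ((airy (μ * t)).continuous.tendsto _).comp (hlim.comp hns')
    exact tendsto_nhds_unique h3 h4
  · rw [ks_lint W]
    refine ENNReal.ofReal_le_ofReal ?_
    have h1 : ∀ k, ‖V k‖ ^ 2 ≤ C * ‖toL2 (g k)‖ ^ 2 := fun k => by
      have h2 := ks_lint (V k)
      have h3 : ∫⁻ t, ‖V k t‖ₑ ^ 2 ∂m = ∫⁻ t, ‖v k t‖ₑ ^ 2 ∂m := by
        refine lintegral_congr_ae ?_
        filter_upwards [hVae k] with t h3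
        rw [h3]
      rw [h3] at h2
      have h4 : ENNReal.ofReal (‖V k‖ ^ 2) ≤ ENNReal.ofReal (C * ‖toL2 (g k)‖ ^ 2) := by
        rw [← h2]
        exact hvb k
      exact (ENNReal.ofReal_le_ofReal_iff (by positivity)).mp h4
    have h5 : Tendsto (fun k => ‖V k‖ ^ 2) atTop (𝓝 (‖W‖ ^ 2)) := (hW.norm).pow 2
    have h6 : Tendsto (fun k => C * ‖toL2 (g k)‖ ^ 2) atTop (𝓝 (C * ‖y‖ ^ 2)) :=
      ((hlim.norm).pow 2).const_mul C
    exact le_of_tendsto_of_tendsto' h5 h6 h1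

end Pool.Agent.Kdv
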