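import Pool.Agent.Lib.MP_78c35a_an.Gag
import Pool.Agent.Lib.MP_78c35a_an.KatoSm

/-!
# Bounds for the traces of the solutions with nice initial values
-/

set_option autoImplicit false

namespace Pool.Agent.Kdv

open MeasureTheory Filter Topology Set
open scoped ENNReal ContDiff SchwartzMap FourierTransform

/-- The amplitude. -/
noncomputable def knB (G : 𝓢(ℝ, ℂ)) (x ξ : ℝ) : ℂ :=
  Complex.exp (2 * Real.pi * Complex.I * x * ξ) * 𝓕 (fun y => G y) ξ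

lemma knB_enorm (G : 𝓢(ℝ, ℂ)) (x ξ : ℝ) : ‖knB G x ξ‖ₑ = ‖𝓕 (fun y => G y) ξ‖ₑ := by
  unfold knB
  have h1 : ‖Complex.exp (2 * Real.pi * Complex.I * x * ξ)‖ₑ = 1 := by
    rw [← ofReal_norm, Complex.norm_exp]
    have h2 : (2 * (Real.pi : ℂ) * Complex.I * x * ξ).re = 0 := by
      have h3 : 2 * (Real.pi : ℂ) * Complex.I * x * ξ = ((2 * Real.pi * x * ξ : ℝ) : ℂ) * Complex.I := by
        push_cast
        ring
      rw [h3, Complex.re_ofReal_mul, Complex.I_re, mul_zero]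
    rw [h2, Real.exp_zero, ENNReal.ofReal_one]
  rw [enorm_mul, h1, one_mul]

lemma knB_mul_exp (G : 𝓢(ℝ, ℂ)) (μ c x ξ : ℝ) :
    Complex.exp (2 * Real.pi * Complex.I * ((4 * Real.pi ^ 2 * μ : ℝ) : ℂ) * c * ξ ^ 3) *
      knB G x ξ = (2 * Real.pi * Complex.I * ξ) ^ 0 *
      Complex.exp (2 * Real.pi * Complex.I * x * ξ +
        8 * Real.pi ^ 3 * Complex.I * ((μ * c : ℝ) : ℂ) * ξ ^ 3) * 𝓕 (fun y => G y) ξ := by
  unfold knB
  rw [pow_zero, one_mul, Complex.exp_add, ← mul_assoc]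
  rw [mul_comm (Complex.exp (2 * Real.pi * Complex.I * ((4 * Real.pi ^ 2 * μ : ℝ) : ℂ) * c * ξ ^ 3))]
  congr 3
  push_cast
  ring

lemma knB_int (G : 𝓢(ℝ, ℂ)) (μ c x : ℝ) : Integrable fun ξ : ℝ =>
    Complex.exp (2 * Real.pi * Complex.I * ((4 * Real.pi ^ 2 * μ : ℝ) : ℂ) * c * ξ ^ 3) *
      knB G x ξ := by
  refine (aw_integrable G 0 (μ * c) x).congr (Eventually.of_forall fun ξ => ?_)
  exact (knB_mul_exp G μ c x ξ).symm

lemma knB_int0 (G : 𝓢(ℝ, ℂ)) (x : ℝ) : Integrable (knB G x) := by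
  refine (knB_int G 0 0 x).congr (Eventually.of_forall fun ξ => ?_)
  simp

lemma aw_eq_knB (G : 𝓢(ℝ, ℂ)) (μ t x : ℝ) : aw G 0 (μ * t) x = ∫ ξ : ℝ,
    Complex.exp (2 * Real.pi * Complex.I * ((4 * Real.pi ^ 2 * μ : ℝ) : ℂ) * t * ξ ^ 3) *
      knB G x ξ := by
  unfold aw
  exact integral_congr_ae (Eventually.of_forall fun ξ => (knB_mul_exp G μ t x ξ).symm)

lemma kn_exp_enorm (κ t ξ : ℝ) :
    ‖Complex.exp (2 * Real.pi * Complex.I * (κ : ℂ) * t * ξ ^ 3)‖ₑ = 1 := by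
  rw [← ofReal_norm, Complex.norm_exp]
  have h2 : (2 * (Real.pi : ℂ) * Complex.I * κ * t * ξ ^ 3).re = 0 := by
    have h3 : 2 * (Real.pi : ℂ) * Complex.I * κ * t * ξ ^ 3 =
        ((2 * Real.pi * κ * t * ξ ^ 3 : ℝ) : ℂ) * Complex.I := by
      push_cast
      ring
    rw [h3, Complex.re_ofReal_mul, Complex.I_re, mul_zero]
  rw [h2, Real.exp_zero, ENNReal.ofReal_one]

/-- The seminorm. -/
lemma kn0_gag {μ : ℝ} (hμ : 0 < μ) : ∃ C : ℝ, 0 ≤ C ∧
    ∀ (G : 𝓢(ℝ, ℂ)) (g : ℝ → ℝ), IsNice G g → ∀ x : ℝ,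
      gag (fun t => aw G 0 (μ * t) x) ≤ ENNReal.ofReal (C * ‖toL2 g‖ ^ 2) := by
  obtain ⟨c, hc0, hc, hcr⟩ := gag_const
  set κ : ℝ := 4 * Real.pi ^ 2 * μ with hκ
  have hκ0 : 0 < κ := by positivity
  refine ⟨c.toReal * (κ ^ (2 / 3 : ℝ) / (3 * κ)), by positivity, fun G g hg x => ?_⟩
  have hm : Measurable fun t => aw G 0 (μ * t) x :=
    ((aw_cont G 0).comp (by fun_prop : Continuous fun t : ℝ => (μ * t, x))).measurable
  have hFm : Measurable (𝓕 (fun y => G y)) := by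
    have : Continuous (𝓕 G : 𝓢(ℝ, ℂ)) := (𝓕 G).continuous
    exact this.measurable
  rw [gag_eq _ hm]
  -- the translation
  have h1 : ∀ σ : ℝ, ∫⁻ t, ‖aw G 0 (μ * (t + σ)) x - aw G 0 (μ * t) x‖ₑ ^ 2 ≤
      ∫⁻ ξ : ℝ, ‖Complex.exp (2 * Real.pi * Complex.I * (((κ * ξ ^ 3 : ℝ) : ℂ) * σ)) - 1‖ₑ ^ 2 *
        (‖𝓕 (fun y => G y) ξ‖ₑ ^ 2 / ENNReal.ofReal (3 * κ * ξ ^ 2)) := by
    intro σ
    set b : ℝ → ℂ := fun ξ =>
      (Complex.exp (2 * Real.pi * Complex.I * (κ : ℂ) * σ * ξ ^ 3) - 1) * knB G x ξ with hb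
    have hbi : Integrable b := by
      refine ((knB_int G μ σ x).sub (knB_int0 G x)).congr (Eventually.of_forall fun ξ => ?_)
      simp only [hb, Pi.sub_apply]
      ring
    have h2 : ∀ t : ℝ, aw G 0 (μ * (t + σ)) x - aw G 0 (μ * t) x =
        ∫ ξ : ℝ, Complex.exp (2 * Real.pi * Complex.I * (κ : ℂ) * t * ξ ^ 3) * b ξ := by
      intro t
      rw [aw_eq_knB, aw_eq_knB, ← integral_sub (knB_int G μ (t + σ) x) (knB_int G μ t x)]
      refine integral_congr_ae (Eventually.of_forall fun ξ => ?_)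
      simp only [hb]
      have h3 : Complex.exp (2 * Real.pi * Complex.I * ((4 * Real.pi ^ 2 * μ : ℝ) : ℂ) *
          ((t + σ : ℝ) : ℂ) * ξ ^ 3) =
          Complex.exp (2 * Real.pi * Complex.I * (κ : ℂ) * t * ξ ^ 3) *
          Complex.exp (2 * Real.pi * Complex.I * (κ : ℂ) * σ * ξ ^ 3) := by
        rw [← Complex.exp_add]
        congr 1
        rw [hκ]
        push_cast
        ring
      rw [h3]
      ring
    simp only [h2]
    refine (p3 hκ0 hbi).trans (le_of_eq ?_)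
    refine lintegral_congr fun ξ => ?_
    simp only [hb]
    rw [enorm_mul, mul_pow, knB_enorm, mul_div_assoc]
    congr 4
    have h3 : 2 * (Real.pi : ℂ) * Complex.I * (κ : ℂ) * σ * ξ ^ 3 =
        2 * Real.pi * Complex.I * (((κ * ξ ^ 3 : ℝ) : ℂ) * σ) := by
      push_cast
      ring
    rw [h3]
  calc ∫⁻ σ, (∫⁻ t, ‖aw G 0 (μ * (t + σ)) x - aw G 0 (μ * t) x‖ₑ ^ 2) /
        ENNReal.ofReal (|σ| ^ (5 / 3 : ℝ))
      ≤ ∫⁻ σ : ℝ, ∫⁻ ξ : ℝ,
        (‖Complex.exp (2 * Real.pi * Complex.I * (((κ * ξ ^ 3 : ℝ) : ℂ) * σ)) - 1‖ₑ ^ 2 /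
          ENNReal.ofReal (|σ| ^ (5 / 3 : ℝ))) *
        (‖𝓕 (fun y => G y) ξ‖ₑ ^ 2 / ENNReal.ofReal (3 * κ * ξ ^ 2)) := by
        refine lintegral_mono fun σ => ?_
        refine (ENNReal.div_le_div_right (h1 σ) _).trans (le_of_eq ?_)
        rw [ENNReal.div_eq_inv_mul, ← lintegral_const_mul]
        · refine lintegral_congr fun ξ => ?_
          rw [ENNReal.div_eq_inv_mul (a := ‖Complex.exp _ - 1‖ₑ ^ 2)]
          ring
        · fun_prop
    _ = ∫⁻ ξ : ℝ, ∫⁻ σ : ℝ,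
        (‖Complex.exp (2 * Real.pi * Complex.I * (((κ * ξ ^ 3 : ℝ) : ℂ) * σ)) - 1‖ₑ ^ 2 /
          ENNReal.ofReal (|σ| ^ (5 / 3 : ℝ))) *
        (‖𝓕 (fun y => G y) ξ‖ₑ ^ 2 / ENNReal.ofReal (3 * κ * ξ ^ 2)) := by
        refine lintegral_lintegral_swap ?_
        apply Measurable.aemeasurable
        fun_prop
    _ = ∫⁻ ξ : ℝ, (c * ENNReal.ofReal (|κ * ξ ^ 3| ^ (2 / 3 : ℝ))) *
        (‖𝓕 (fun y => G y) ξ‖ₑ ^ 2 / ENNReal.ofReal (3 * κ * ξ ^ 2)) := by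
        refine lintegral_congr fun ξ => ?_
        rw [lintegral_mul_const, hcr]
        fun_prop
    _ ≤ ∫⁻ ξ : ℝ, (c * ENNReal.ofReal (κ ^ (2 / 3 : ℝ) / (3 * κ))) *
        ‖𝓕 (fun y => G y) ξ‖ₑ ^ 2 := by
        refine lintegral_mono_ae ?_
        filter_upwards [Measure.ae_ne volume (0 : ℝ)] with ξ hξ
        refine le_of_eq ?_
        have hξ2 : 0 < ξ ^ 2 := by positivity
        have h3 : |κ * ξ ^ 3| ^ (2 / 3 : ℝ) = κ ^ (2 / 3 : ℝ) * ξ ^ 2 := by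
          rw [abs_mul, abs_of_pos hκ0, Real.mul_rpow hκ0.le (abs_nonneg _)]
          congr 1
          rw [abs_pow, ← Real.rpow_natCast, ← Real.rpow_mul (abs_nonneg _)]
          rw [show ((3 : ℕ) : ℝ) * (2 / 3) = ((2 : ℕ) : ℝ) by norm_num, Real.rpow_natCast, sq_abs]
        rw [h3]
        have h4 : ENNReal.ofReal (κ ^ (2 / 3 : ℝ) * ξ ^ 2) =
            ENNReal.ofReal (κ ^ (2 / 3 : ℝ) / (3 * κ)) * ENNReal.ofReal (3 * κ * ξ ^ 2) := by
          rw [← ENNReal.ofReal_mul (by positivity)]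
          congr 1
          field_simp
        rw [h4]
        have h5 : ENNReal.ofReal (3 * κ * ξ ^ 2) ≠ 0 := by
          rw [Ne, ENNReal.ofReal_eq_zero, not_le]
          positivity
        rw [← mul_assoc c, mul_assoc (c * _), ENNReal.mul_div_cancel h5 ENNReal.ofReal_ne_top]
    _ = ENNReal.ofReal (c.toReal * (κ ^ (2 / 3 : ℝ) / (3 * κ)) * ‖toL2 g‖ ^ 2) := by
        rw [lintegral_const_mul _ (by fun_prop), nice_plancherel hg,
          ENNReal.ofReal_mul (by positivity), ENNReal.ofReal_mul ENNReal.toReal_nonneg,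
          ENNReal.ofReal_toReal hc]

lemma kn_low_aux (f : ℝ → ℝ≥0∞) (hf : Measurable f) :
    (∫⁻ ξ in Icc (-1 : ℝ) 1, f ξ) ^ 2 ≤ 2 * ∫⁻ ξ, f ξ ^ 2 := by
  have h1 := ENNReal.lintegral_mul_le_Lp_mul_Lq (volume.restrict (Icc (-1 : ℝ) 1))
    (Real.HolderConjugate.two_two) hf.aemeasurable
    (aemeasurable_const (b := (1 : ℝ≥0∞)))
  simp only [Pi.mul_apply, mul_one, ENNReal.one_rpow, lintegral_const, one_mul,
    Measure.restrict_apply MeasurableSet.univ, univ_inter, Real.volume_Icc] at h1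
  have h2 : ENNReal.ofReal (1 - -1) = 2 := by norm_num
  rw [h2] at h1
  calc (∫⁻ ξ in Icc (-1 : ℝ) 1, f ξ) ^ 2
      ≤ ((∫⁻ ξ in Icc (-1 : ℝ) 1, f ξ ^ (2 : ℝ)) ^ (1 / 2 : ℝ) * 2 ^ (1 / 2 : ℝ)) ^ 2 := by
        gcongr
    _ = (∫⁻ ξ in Icc (-1 : ℝ) 1, f ξ ^ (2 : ℝ)) * 2 := by
        rw [mul_pow, ← ENNReal.rpow_natCast, ← ENNReal.rpow_natCast, ← ENNReal.rpow_mul,
          ← ENNReal.rpow_mul]
        norm_num
    _ ≤ (∫⁻ ξ, f ξ ^ (2 : ℝ)) * 2 := by
        gcongr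
        exact Measure.restrict_le_self
    _ = 2 * ∫⁻ ξ, f ξ ^ 2 := by
        rw [mul_comm]
        congr 1
        refine lintegral_congr fun ξ => ?_
        exact_mod_cast ENNReal.rpow_natCast (f ξ) 2

lemma enorm_add_sq_le (a b : ℂ) : ‖a + b‖ₑ ^ 2 ≤ 2 * ‖a‖ₑ ^ 2 + 2 * ‖b‖ₑ ^ 2 := by
  have h1 : ‖a + b‖ ^ 2 ≤ 2 * ‖a‖ ^ 2 + 2 * ‖b‖ ^ 2 := by
    have h2 := norm_add_le a b
    nlinarith [norm_nonneg (a + b), norm_nonneg a, norm_nonneg b, sq_nonneg (‖a‖ - ‖b‖)]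
  have h2 := ENNReal.ofReal_le_ofReal h1
  rw [ENNReal.ofReal_add (by positivity) (by positivity), ENNReal.ofReal_mul (by norm_num),
    ENNReal.ofReal_mul (by norm_num), ENNReal.ofReal_pow (norm_nonneg _),
    ENNReal.ofReal_pow (norm_nonneg _), ENNReal.ofReal_pow (norm_nonneg _), ofReal_norm,
    ofReal_norm, ofReal_norm] at h2
  simpa using h2

/-- The square integral over a bounded interval of time. -/
lemma kn0_l2 {T μ : ℝ} (hT : 0 < T) (hμ : 0 < μ) : ∃ C : ℝ, 0 ≤ C ∧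
    ∀ (G : 𝓢(ℝ, ℂ)) (g : ℝ → ℝ), IsNice G g → ∀ x : ℝ,
      ∫⁻ t in Ioo 0 T, ‖aw G 0 (μ * t) x‖ₑ ^ 2 ≤ ENNReal.ofReal (C * ‖toL2 g‖ ^ 2) := by
  set κ : ℝ := 4 * Real.pi ^ 2 * μ with hκ
  have hκ0 : 0 < κ := by positivity
  refine ⟨4 * T + 2 / (3 * κ), by positivity, fun G g hg x => ?_⟩
  have hFm : Measurable (𝓕 (fun y => G y)) := by
    have : Continuous (𝓕 G : 𝓢(ℝ, ℂ)) := (𝓕 G).continuous
    exact this.measurable
  set E : Set ℝ := Icc (-1) 1 with hE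
  set b1 : ℝ → ℂ := E.indicator (knB G x) with hb1
  set b2 : ℝ → ℂ := Eᶜ.indicator (knB G x) with hb2
  have hb1i : Integrable b1 := (knB_int0 G x).indicator measurableSet_Icc
  have hb2i : Integrable b2 := (knB_int0 G x).indicator measurableSet_Icc.compl
  have hphase : ∀ (t : ℝ) (b : ℝ → ℂ), Integrable b → Integrable fun ξ : ℝ =>
      Complex.exp (2 * Real.pi * Complex.I * (κ : ℂ) * t * ξ ^ 3) * b ξ := by
    intro t b hb
    refine hb.bdd_mul (c := 1) ?_ (Eventually.of_forall fun ξ => ?_)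
    · exact (by fun_prop : Continuous fun ξ : ℝ =>
        Complex.exp (2 * Real.pi * Complex.I * (κ : ℂ) * t * ξ ^ 3)).aestronglyMeasurable
    · have h1 := kn_exp_enorm κ t ξ
      rw [← ofReal_norm, ← ENNReal.ofReal_one, ENNReal.ofReal_eq_ofReal_iff (norm_nonneg _)
        zero_le_one] at h1
      exact h1.le
  have hsplit : ∀ t : ℝ, aw G 0 (μ * t) x =
      (∫ ξ : ℝ, Complex.exp (2 * Real.pi * Complex.I * (κ : ℂ) * t * ξ ^ 3) * b1 ξ) +
      ∫ ξ : ℝ, Complex.exp (2 * Real.pi * Complex.I * (κ : ℂ) * t * ξ ^ 3) * b2 ξ := by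
    intro t
    rw [aw_eq_knB, ← integral_add (hphase t b1 hb1i) (hphase t b2 hb2i)]
    refine integral_congr_ae (Eventually.of_forall fun ξ => ?_)
    simp only
    rw [← mul_add]
    congr 1
    rw [hb1, hb2, ← Pi.add_apply, Set.indicator_self_add_compl]
  have hlow : ∀ t : ℝ, ‖∫ ξ : ℝ,
      Complex.exp (2 * Real.pi * Complex.I * (κ : ℂ) * t * ξ ^ 3) * b1 ξ‖ₑ ^ 2 ≤
      2 * ∫⁻ ξ : ℝ, ‖𝓕 (fun y => G y) ξ‖ₑ ^ 2 := by
    intro t
    refine le_trans ?_ (kn_low_aux (fun ξ => ‖𝓕 (fun y => G y) ξ‖ₑ) hFm.enorm)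
    gcongr
    refine (enorm_integral_le_lintegral_enorm _).trans (le_of_eq ?_)
    rw [← lintegral_indicator measurableSet_Icc]
    refine lintegral_congr fun ξ => ?_
    rw [enorm_mul, kn_exp_enorm, one_mul, hb1]
    by_cases hξ : ξ ∈ E
    · rw [Set.indicator_of_mem hξ, Set.indicator_of_mem hξ, knB_enorm]
    · rw [Set.indicator_of_notMem hξ, Set.indicator_of_notMem hξ, enorm_zero]
  have hhigh : ∫⁻ t : ℝ, ‖∫ ξ : ℝ,
      Complex.exp (2 * Real.pi * Complex.I * (κ : ℂ) * t * ξ ^ 3) * b2 ξ‖ₑ ^ 2 ≤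
      (∫⁻ ξ : ℝ, ‖𝓕 (fun y => G y) ξ‖ₑ ^ 2) / ENNReal.ofReal (3 * κ) := by
    refine (p3 hκ0 hb2i).trans ?_
    rw [ENNReal.div_eq_inv_mul, ← lintegral_const_mul _ (by fun_prop)]
    refine lintegral_mono fun ξ => ?_
    rw [← ENNReal.div_eq_inv_mul]
    by_cases hξ : ξ ∈ E
    · have h1 : b2 ξ = 0 := by
        rw [hb2, Set.indicator_of_notMem]
        exact fun h => h hξ
      rw [h1]
      simp
    · have h1 : b2 ξ = knB G x ξ := by
        rw [hb2, Set.indicator_of_mem]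
        exact hξ
      rw [h1, knB_enorm]
      refine ENNReal.div_le_div_left (ENNReal.ofReal_le_ofReal ?_) _
      have h2 : 1 ≤ ξ ^ 2 := by
        rw [hE, mem_Icc, not_and_or, not_le, not_le] at hξ
        rcases hξ with h | h <;> nlinarith
      nlinarith
  calc ∫⁻ t in Ioo 0 T, ‖aw G 0 (μ * t) x‖ₑ ^ 2
      ≤ ∫⁻ t in Ioo 0 T, (2 * (2 * ∫⁻ ξ : ℝ, ‖𝓕 (fun y => G y) ξ‖ₑ ^ 2) + 2 * ‖∫ ξ : ℝ,
      Complex.exp (2 * Real.pi * Complex.I * (κ : ℂ) * t * ξ ^ 3) * b2 ξ‖ₑ ^ 2) := by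
        refine lintegral_mono fun t => ?_
        rw [hsplit]
        refine (enorm_add_sq_le _ _).trans ?_
        gcongr
        exact hlow t
    _ ≤ ENNReal.ofReal T * (2 * (2 * ∫⁻ ξ : ℝ, ‖𝓕 (fun y => G y) ξ‖ₑ ^ 2)) +
        2 * ((∫⁻ ξ : ℝ, ‖𝓕 (fun y => G y) ξ‖ₑ ^ 2) / ENNReal.ofReal (3 * κ)) := by
        rw [lintegral_add_left measurable_const, lintegral_const, lintegral_const_mul' _ _ (by simp)]
        refine add_le_add (le_of_eq ?_) ?_
        · rw [Measure.restrict_apply MeasurableSet.univ, univ_inter, Real.volume_Ioo, sub_zero,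
            mul_comm]
        · refine mul_le_mul_right ?_ 2
          exact (setLIntegral_le_lintegral _ _).trans hhigh
    _ = ENNReal.ofReal ((4 * T + 2 / (3 * κ)) * ‖toL2 g‖ ^ 2) := by
        rw [nice_plancherel hg, ← ENNReal.ofReal_div_of_pos (by positivity)]
        generalize ‖toL2 g‖ = a
        have h2 : (2 : ℝ≥0∞) = ENNReal.ofReal 2 := by norm_num
        rw [h2, ← ENNReal.ofReal_mul (by norm_num), ← ENNReal.ofReal_mul (by norm_num),
          ← ENNReal.ofReal_mul hT.le, ← ENNReal.ofReal_mul (by norm_num),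
          ← ENNReal.ofReal_add (by positivity) (by positivity)]
        congr 1
        ring

theorem kn0 {L T μ : ℝ} (hL : 0 < L) (hT : 0 < T) (hμ : 0 < μ) : ∃ C : ℝ, 0 ≤ C ∧
    ∀ (G : 𝓢(ℝ, ℂ)) (g : ℝ → ℝ), IsNice G g → ∀ x ∈ Icc 0 L,
      sob T (fun t => (aw G 0 (μ * t) x).re) ≤ ENNReal.ofReal (C * ‖toL2 g‖ ^ 2) := by
  obtain ⟨C1, hC1, h1⟩ := kn0_l2 hT hμ
  obtain ⟨C2, hC2, h2⟩ := kn0_gag hμ
  refine ⟨C1 + C2, by positivity, fun G g hg x _ => ?_⟩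
  rw [add_mul, ENNReal.ofReal_add (by positivity) (by positivity)]
  unfold sob
  refine add_le_add (le_trans ?_ (h1 G g hg x)) (le_trans ?_ (h2 G g hg x))
  · refine lintegral_mono fun t => ?_
    gcongr
    exact enorm_le_iff_norm_le.2 (by simpa using Complex.abs_re_le_norm _)
  · unfold gag
    refine (setLIntegral_le_lintegral _ _).trans ?_
    refine lintegral_mono fun t => ?_
    refine (setLIntegral_le_lintegral _ _).trans ?_
    refine lintegral_mono fun s => ?_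
    refine ENNReal.div_le_div_right ?_ _
    gcongr
    rw [← Complex.sub_re]
    refine enorm_le_iff_norm_le.2 ?_
    rw [Real.norm_eq_abs]
    exact Complex.abs_re_le_norm _

theorem kn0_delay {L T μ : ℝ} (hL : 0 < L) (hT : 0 < T) (hμ : 0 < μ) : ∃ C : ℝ, 0 ≤ C ∧
    ∀ (G : 𝓢(ℝ, ℂ)) (g : ℝ → ℝ), IsNice G g → ∀ x ∈ Icc 0 L, ∀ s ∈ Icc 0 T,
      sob T (fun t => if s < t then (aw G 0 (μ * (t - s)) x).re else 0) ≤
        ENNReal.ofReal (C * ‖toL2 g‖ ^ 2) := by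
  obtain ⟨C1, hC1, h1⟩ := kn0 hL hT hμ
  obtain ⟨C2, hC2, h2⟩ := sob_delay hT
  refine ⟨C2.toReal * C1, by positivity, fun G g hg x hx s hs => ?_⟩
  have hm : Measurable fun t => (aw G 0 (μ * t) x).re :=
    (Complex.continuous_re.comp
      ((aw_cont G 0).comp (by fun_prop : Continuous fun t : ℝ => (μ * t, x)))).measurable
  refine (h2 s hs _ hm).trans ?_
  rw [mul_assoc, ENNReal.ofReal_mul ENNReal.toReal_nonneg, ENNReal.ofReal_toReal hC2]
  gcongr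
  exact h1 G g hg x hx

namespace KN2

/-- The substitution `τ = - κ ξ ^ 3`. -/
lemma lint_cube {κ : ℝ} (hκ : 0 < κ) (F : ℝ → ℝ≥0∞) :
    ∫⁻ τ, F τ = ∫⁻ ξ : ℝ, ENNReal.ofReal (3 * κ * ξ ^ 2) * F (-(κ * ξ ^ 3)) := by
  have hder : ∀ x ∈ (univ : Set ℝ), HasDerivWithinAt (fun ξ : ℝ => -(κ * ξ ^ 3))
      (-(3 * κ * x ^ 2)) univ x := by
    intro x _
    have h1 := ((hasDerivAt_pow 3 x).const_mul κ).neg
    have h2 : -(κ * (((3 : ℕ) : ℝ) * x ^ (3 - 1))) = -(3 * κ * x ^ 2) := by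
      norm_num
      ring
    rw [h2] at h1
    exact h1.hasDerivWithinAt
  have hinj : InjOn (fun ξ : ℝ => -(κ * ξ ^ 3)) univ := by
    intro x _ y _ h
    have h1 : κ * x ^ 3 = κ * y ^ 3 := neg_injective h
    have h2 : x ^ 3 = y ^ 3 := mul_left_cancel₀ hκ.ne' h1
    exact (Odd.strictMono_pow (by decide : Odd 3)).injective h2
  have hsurj : Function.Surjective (fun ξ : ℝ => -(κ * ξ ^ 3)) := by
    have hc : Continuous (fun x : ℝ => κ * x ^ 3) := by fun_prop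
    have h0 : Function.Surjective (fun x : ℝ => κ * x ^ 3) := by
      apply hc.surjective
      · exact Tendsto.const_mul_atTop hκ (tendsto_pow_atTop (by norm_num))
      · have h1 : Tendsto (fun x : ℝ => κ * x ^ 3) atTop atTop :=
          Tendsto.const_mul_atTop hκ (tendsto_pow_atTop (by norm_num))
        have h2 := tendsto_neg_atTop_atBot.comp (h1.comp tendsto_neg_atBot_atTop)
        refine h2.congr fun x => ?_
        simp only [Function.comp]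
        ring
    intro τ
    obtain ⟨x, hx⟩ := h0 (-τ)
    refine ⟨x, ?_⟩
    simp only at hx ⊢
    rw [hx, neg_neg]
  have h := lintegral_image_eq_lintegral_abs_deriv_mul MeasurableSet.univ hder hinj F
  rw [image_univ, hsurj.range_eq, Measure.restrict_univ] at h
  rw [h]
  refine lintegral_congr fun ξ => ?_
  rw [abs_neg, abs_of_nonneg (by positivity)]

/-- Cauchy-Schwarz. -/
lemma cs {f g : ℝ → ℝ≥0∞} (hf : Measurable f) (hg : Measurable g) :
    ∫⁻ x, f x * g x ≤ (∫⁻ x, f x ^ 2) ^ (1 / 2 : ℝ) * (∫⁻ x, g x ^ 2) ^ (1 / 2 : ℝ) := by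
  have h := ENNReal.lintegral_mul_le_Lp_mul_Lq volume Real.HolderConjugate.two_two
    hf.aemeasurable hg.aemeasurable
  simp only [Pi.mul_apply, ENNReal.rpow_ofNat] at h
  exact h

lemma lint_bound {κ : ℝ} (hκ : 0 < κ) (F : ℝ → ℝ≥0∞) :
    ENNReal.ofReal (3 * κ * κ ^ (2 / 3 : ℝ)) *
      ∫⁻ ξ : ℝ, (ENNReal.ofReal (ξ ^ 2) * F (-(κ * ξ ^ 3))) ^ 2 =
      ∫⁻ τ : ℝ, ENNReal.ofReal (|τ| ^ (2 / 3 : ℝ)) * F τ ^ 2 := by
  rw [lint_cube hκ (fun τ => ENNReal.ofReal (|τ| ^ (2 / 3 : ℝ)) * F τ ^ 2),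
    ← lintegral_const_mul' _ _ ENNReal.ofReal_ne_top]
  refine lintegral_congr fun ξ => ?_
  have h1 : |(-(κ * ξ ^ 3))| ^ (2 / 3 : ℝ) = κ ^ (2 / 3 : ℝ) * ξ ^ 2 := by
    rw [abs_neg, abs_mul, abs_of_pos hκ, Real.mul_rpow hκ.le (abs_nonneg _), abs_pow]
    congr 1
    rw [← Real.rpow_natCast |ξ| 3, ← Real.rpow_mul (abs_nonneg _), ← sq_abs ξ,
      ← Real.rpow_natCast |ξ| 2]
    norm_num
  rw [h1, mul_pow, ← mul_assoc, ← mul_assoc, ← ENNReal.ofReal_pow (by positivity),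
    ← ENNReal.ofReal_mul (by positivity), ← ENNReal.ofReal_mul (by positivity)]
  congr 2
  ring

end KN2

theorem kn2 {T μ : ℝ} (hT : 0 < T) (hμ : 0 < μ) : ∃ C : ℝ, 0 ≤ C ∧
    ∀ (G : 𝓢(ℝ, ℂ)) (g : ℝ → ℝ), IsNice G g → ∀ x : ℝ, ∀ s ∈ Icc 0 T, ∀ φ : ℝ → ℝ,
      ContDiff ℝ ∞ φ → |∫ t in s..T, (aw G 2 (μ * (t - s)) x).re * φ t| ≤
        C * ‖toL2 g‖ * √(sob T φ).toReal := by
  obtain ⟨C1, hC1, h1⟩ := gag_fourier
  obtain ⟨C2, hC2, h2⟩ := gag_cut hT
  set κ : ℝ := 4 * Real.pi ^ 2 * μ with hκdef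
  have hκ : 0 < κ := by positivity
  set a : ℝ≥0∞ := ENNReal.ofReal (3 * κ * κ ^ (2 / 3 : ℝ)) with ha
  have ha0 : a ≠ 0 := by
    rw [ha, Ne, ENNReal.ofReal_eq_zero, not_le]
    positivity
  have haT : a ≠ ⊤ := ENNReal.ofReal_ne_top
  set K : ℝ≥0∞ := a⁻¹ * (C1 * C2) with hK
  have hKT : K ≠ ⊤ := ENNReal.mul_ne_top (ENNReal.inv_ne_top.2 ha0) (ENNReal.mul_ne_top hC1 hC2)
  refine ⟨4 * Real.pi ^ 2 * √K.toReal, by positivity, ?_⟩
  intro G g hG x s hs φ hφ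
  set Φ : ℝ → ℂ := fun t => (((Ioo s T).indicator φ t : ℝ) : ℂ) with hΦ
  have hφm : Measurable φ := hφ.continuous.measurable
  have hΦm : Measurable Φ :=
    Complex.measurable_ofReal.comp (hφm.indicator measurableSet_Ioo)
  -- integrability of the cut function
  have hφi : IntegrableOn φ (Ioo s T) :=
    (hφ.continuous.integrableOn_Icc (a := s) (b := T)).mono_set Ioo_subset_Icc_self
  have hΦi : Integrable Φ := (hφi.integrable_indicator measurableSet_Ioo).ofReal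
  have hΦ2 : MemLp Φ 2 volume := by
    have h3 : MemLp ((Ioo s T).indicator φ) 2 volume := by
      rw [memLp_indicator_iff_restrict measurableSet_Ioo]
      obtain ⟨c, hc⟩ := isCompact_Icc.exists_bound_of_continuousOn (s := Icc s T)
        hφ.continuous.continuousOn
      refine MemLp.of_bound hφm.aestronglyMeasurable c ?_
      filter_upwards [ae_restrict_mem measurableSet_Ioo] with t ht
      exact hc t (Ioo_subset_Icc_self ht)
    exact h3.ofReal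
  have hsob : sob T φ < ⊤ := sob_smooth hφ
  set A : ℝ → ℂ := fun ξ => (2 * Real.pi * Complex.I * ξ) ^ 2 * 𝓕 (fun y => G y) ξ with hA
  have hAi : Integrable A := by
    have := aw_integrable G 2 0 0
    simpa using this
  set e : ℝ → ℝ → ℂ := fun t ξ => Complex.exp (2 * Real.pi * Complex.I * x * ξ +
    8 * Real.pi ^ 3 * Complex.I * ((μ * (t - s) : ℝ) : ℂ) * ξ ^ 3) with he
  have hecont : Continuous (Function.uncurry e) := by
    simp only [he, Function.uncurry_def]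
    fun_prop
  have hebd : ∀ t ξ, ‖e t ξ‖ = 1 := by
    intro t ξ
    have h3 : 2 * Real.pi * Complex.I * x * ξ +
      8 * Real.pi ^ 3 * Complex.I * ((μ * (t - s) : ℝ) : ℂ) * ξ ^ 3 =
      ((2 * Real.pi * x * ξ + 8 * Real.pi ^ 3 * (μ * (t - s)) * ξ ^ 3 : ℝ) : ℂ) * Complex.I := by
      push_cast
      ring
    simp only [he]
    rw [h3, Complex.norm_exp_ofReal_mul_I]
  have hprod : Integrable (Function.uncurry fun t ξ => Φ t * (A ξ * e t ξ))
      (volume.prod volume) := by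
    have h3 : Integrable (fun z : ℝ × ℝ => Φ z.1 * A z.2) (volume.prod volume) :=
      hΦi.mul_prod hAi
    have h4 : Integrable (fun z : ℝ × ℝ => Function.uncurry e z * (Φ z.1 * A z.2))
        (volume.prod volume) :=
      h3.bdd_mul hecont.aestronglyMeasurable (c := 1) (Eventually.of_forall fun z => by
        rw [Function.uncurry_def]
        exact (hebd z.1 z.2).le)
    refine h4.congr (Eventually.of_forall fun z => ?_)
    simp only [Function.uncurry_def]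
    ring
  -- the integral as a complex integral
  have haw : ∀ t, aw G 2 (μ * (t - s)) x = ∫ ξ, A ξ * e t ξ := by
    intro t
    unfold aw
    refine integral_congr_ae (Eventually.of_forall fun ξ => ?_)
    simp only [hA, he]
    ring
  have hI : ∫ t in s..T, (aw G 2 (μ * (t - s)) x).re * φ t =
      (∫ t, Φ t * ∫ ξ, A ξ * e t ξ).re := by
    have h3 : ∫ t in s..T, (aw G 2 (μ * (t - s)) x).re * φ t =
        ∫ t, (Φ t * ∫ ξ, A ξ * e t ξ).re := by
      rw [intervalIntegral.integral_of_le hs.2, integral_Ioc_eq_integral_Ioo,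
        ← integral_indicator measurableSet_Ioo]
      refine integral_congr_ae (Eventually.of_forall fun t => ?_)
      simp only [hΦ]
      rw [← haw]
      by_cases ht : t ∈ Ioo s T
      · rw [indicator_of_mem ht, indicator_of_mem ht, Complex.re_ofReal_mul, mul_comm]
      · rw [indicator_of_notMem ht, indicator_of_notMem ht]
        simp
    rw [h3]
    have h4 : Integrable (fun t => Φ t * ∫ ξ, A ξ * e t ξ) := by
      refine hprod.integral_prod_left.congr (Eventually.of_forall fun t => ?_)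
      simp only [Function.uncurry_def]
      rw [integral_const_mul]
    exact integral_re h4
  have hswap : ∫ t, Φ t * ∫ ξ, A ξ * e t ξ = ∫ ξ, ∫ t, Φ t * (A ξ * e t ξ) := by
    rw [← integral_integral_swap hprod]
    refine integral_congr_ae (Eventually.of_forall fun t => ?_)
    simp only
    rw [integral_const_mul]
  have hin : ∀ ξ : ℝ, ‖∫ t, Φ t * (A ξ * e t ξ)‖ₑ =
      ENNReal.ofReal (4 * Real.pi ^ 2) * (‖𝓕 (fun y => G y) ξ‖ₑ *
        (ENNReal.ofReal (ξ ^ 2) * ‖𝓕 Φ (-(κ * ξ ^ 3))‖ₑ)) := by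
    intro ξ
    have h3 : ∫ t, Φ t * (A ξ * e t ξ) = (A ξ *
        Complex.exp (((2 * Real.pi * x * ξ - 8 * Real.pi ^ 3 * μ * s * ξ ^ 3 : ℝ) : ℂ) *
          Complex.I)) * 𝓕 Φ (-(κ * ξ ^ 3)) := by
      rw [Real.fourier_real_eq_integral_exp_smul, ← integral_const_mul]
      refine integral_congr_ae (Eventually.of_forall fun t => ?_)
      simp only [smul_eq_mul, he]
      have h4 : Complex.exp (2 * Real.pi * Complex.I * x * ξ +
          8 * Real.pi ^ 3 * Complex.I * ((μ * (t - s) : ℝ) : ℂ) * ξ ^ 3) =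
          Complex.exp (((2 * Real.pi * x * ξ - 8 * Real.pi ^ 3 * μ * s * ξ ^ 3 : ℝ) : ℂ) *
          Complex.I) * Complex.exp (((-2 * Real.pi * t * (-(κ * ξ ^ 3)) : ℝ) : ℂ) *
            Complex.I) := by
        rw [← Complex.exp_add, hκdef]
        congr 1
        push_cast
        ring
      rw [h4]
      ring
    have h5 : ‖A ξ‖ₑ = ENNReal.ofReal (4 * Real.pi ^ 2) * (ENNReal.ofReal (ξ ^ 2) *
        ‖𝓕 (fun y => G y) ξ‖ₑ) := by
      simp only [hA]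
      rw [enorm_mul, ← mul_assoc, ← ENNReal.ofReal_mul (by positivity), ← ofReal_norm]
      congr 2
      rw [norm_pow, norm_mul, norm_mul, norm_mul, Complex.norm_I, Complex.norm_real,
        Complex.norm_real, Complex.norm_ofNat, Real.norm_eq_abs, Real.norm_eq_abs, mul_one,
        mul_pow, mul_pow, sq_abs, sq_abs]
      ring
    rw [h3, enorm_mul, enorm_mul, h5, ← ofReal_norm (Complex.exp _),
      Complex.norm_exp_ofReal_mul_I, ENNReal.ofReal_one, mul_one]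
    ring
  have hfin : ‖∫ t, Φ t * ∫ ξ, A ξ * e t ξ‖ₑ ≤ ENNReal.ofReal (4 * Real.pi ^ 2) *
      (ENNReal.ofReal ‖toL2 g‖ * (K * sob T φ) ^ (1 / 2 : ℝ)) := by
    rw [hswap]
    refine (enorm_integral_le_lintegral_enorm _).trans ?_
    simp_rw [hin]
    rw [lintegral_const_mul' _ _ ENNReal.ofReal_ne_top]
    gcongr
    have hm1 : Measurable fun ξ : ℝ => ‖𝓕 (fun y => G y) ξ‖ₑ := by
      have h3 : Continuous (𝓕 (fun y => G y)) := (𝓕 G).continuous
      exact h3.measurable.enorm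
    have hm2 : Measurable fun ξ : ℝ => ENNReal.ofReal (ξ ^ 2) * ‖𝓕 Φ (-(κ * ξ ^ 3))‖ₑ := by
      have h3 : Continuous (𝓕 Φ) :=
        VectorFourier.fourierIntegral_continuous Real.continuous_fourierChar
          (by exact continuous_inner) hΦi
      have h4 : Measurable fun ξ : ℝ => 𝓕 Φ (-(κ * ξ ^ 3)) := by
        apply h3.measurable.comp
        fun_prop
      exact (ENNReal.measurable_ofReal.comp (by fun_prop)).mul h4.enorm
    refine (KN2.cs hm1 hm2).trans ?_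
    rw [nice_plancherel hG]
    have h6 : (ENNReal.ofReal (‖toL2 g‖ ^ 2)) ^ (1 / 2 : ℝ) = ENNReal.ofReal ‖toL2 g‖ := by
      rw [ENNReal.ofReal_pow (norm_nonneg _), ← ENNReal.rpow_natCast, ← ENNReal.rpow_mul]
      norm_num
    rw [h6]
    gcongr
    have h7 := KN2.lint_bound hκ (fun τ => ‖𝓕 Φ τ‖ₑ)
    rw [← ha] at h7
    have h8 : ∫⁻ τ : ℝ, ENNReal.ofReal (|τ| ^ (2 / 3 : ℝ)) * ‖𝓕 Φ τ‖ₑ ^ 2 ≤
        C1 * (C2 * sob T φ) := by
      refine (h1 Φ hΦm hΦi hΦ2).trans ?_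
      gcongr
      exact h2 s hs φ hφm
    rw [← h7] at h8
    rw [hK, mul_assoc, ← ENNReal.mul_le_iff_le_inv ha0 haT]
    refine h8.trans (le_of_eq ?_)
    ring
  have hle : |∫ t in s..T, (aw G 2 (μ * (t - s)) x).re * φ t| ≤
      ‖∫ t, Φ t * ∫ ξ, A ξ * e t ξ‖ := by
    rw [hI]
    exact Complex.abs_re_le_norm _
  refine hle.trans ?_
  have hne : ENNReal.ofReal (4 * Real.pi ^ 2) *
      (ENNReal.ofReal ‖toL2 g‖ * (K * sob T φ) ^ (1 / 2 : ℝ)) ≠ ⊤ := by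
    refine ENNReal.mul_ne_top ENNReal.ofReal_ne_top (ENNReal.mul_ne_top ENNReal.ofReal_ne_top ?_)
    exact ENNReal.rpow_ne_top_of_nonneg (by norm_num) (ENNReal.mul_ne_top hKT hsob.ne)
  have h9 := ENNReal.toReal_mono hne hfin
  rw [toReal_enorm, ENNReal.toReal_mul, ENNReal.toReal_mul, ENNReal.toReal_ofReal (by positivity),
    ENNReal.toReal_ofReal (norm_nonneg _), ← ENNReal.toReal_rpow, ENNReal.toReal_mul,
    ← Real.sqrt_eq_rpow, Real.sqrt_mul ENNReal.toReal_nonneg] at h9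
  refine h9.trans (le_of_eq ?_)
  ring

end Pool.Agent.Kdv
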