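import Pool.Agent.Lib.MP_78c35a_an.Lift

/-!
# The bound for the smoothing effect on long intervals
-/

set_option autoImplicit false

namespace Pool.Agent.Kdv

open MeasureTheory Filter Topology Set
open scoped ENNReal InnerProductSpace

variable {H V : Type} [NormedAddCommGroup H] [InnerProductSpace ℝ H] [CompleteSpace H]
  [NormedAddCommGroup V] [NormedSpace ℝ V] [CompleteSpace V]

/-- The `V`-valued trajectory is unique. -/
theorem Sm.path_unique (S : Sm H V) {y : H} {T : ℝ} {f : ℝ → H} {v w : ℝ → V}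
    (hv : S.Path y T f v) (hw : S.Path y T f w) :
    ∀ᵐ t ∂volume.restrict (Ioc (0 : ℝ) T), v t = w t := by
  filter_upwards [hv.lift, hw.lift] with t h1 h2
  exact S.inj (h1.trans h2.symm)

private lemma liftB_one (S : Sm H V) {T : ℝ} (hT : 0 < T) (hT1 : T ≤ 1) (y : H) (f : ℝ → H)
    (v : ℝ → V) (h : S.Path y T f v) :
    ∫⁻ t in Ioc (0 : ℝ) T, ‖v t‖ₑ ^ 2 ≤
        ENNReal.ofReal (S.C * (‖y‖ + ∫ s in Ioc (0 : ℝ) T, ‖f s‖) ^ 2) := by
  obtain ⟨Lf, hL⟩ := S.exists_lift hT hT1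
  have hm : MemLp f 1 (volume.restrict (Ioc 0 T)) := memLp_one_iff_integrable.2 h.int
  have hY := Lp.memLp (Lf (y, hm.toLp f))
  have hae : ∀ᵐ t ∂volume.restrict (Ioc (0 : ℝ) T), v t = Lf (y, hm.toLp f) t := by
    filter_upwards [hL.eq y (hm.toLp f), ae_restrict_mem measurableSet_Ioc, h.lift] with t h1 h2 h3
    apply S.inj
    rw [h1, h3]
    refine (S.traj_congr y h2.1.le ?_).symm
    exact ae_mono (Measure.restrict_mono (Ioc_subset_Ioc_right h2.2) le_rfl) hm.coeFn_toLp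
  have h1 : ∫⁻ t in Ioc (0 : ℝ) T, ‖v t‖ₑ ^ 2 =
      (eLpNorm (Lf (y, hm.toLp f)) 2 (volume.restrict (Ioc 0 T))) ^ 2 := by
    rw [eLpNorm_eq_lintegral_rpow_enorm_toReal two_ne_zero ENNReal.ofNat_ne_top,
      ← ENNReal.rpow_natCast, ← ENNReal.rpow_mul]
    norm_num
    refine lintegral_congr_ae ?_
    filter_upwards [hae] with t ht
    rw [ht]
  have h2 : eLpNorm (Lf (y, hm.toLp f)) 2 (volume.restrict (Ioc 0 T)) =
      ENNReal.ofReal ‖Lf (y, hm.toLp f)‖ := by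
    rw [Lp.norm_def, ENNReal.ofReal_toReal hY.2.ne]
  have h3 : ‖hm.toLp f‖ = ∫ s in Ioc (0 : ℝ) T, ‖f s‖ := by
    rw [Lp.norm_toLp, eLpNorm_one_eq_lintegral_enorm, integral_norm_eq_lintegral_enorm h.int.1]
  rw [h1, h2, ← ENNReal.ofReal_pow (norm_nonneg _)]
  apply ENNReal.ofReal_le_ofReal
  have h4 := hL.norm y (hm.toLp f)
  rw [h3] at h4
  calc ‖Lf (y, hm.toLp f)‖ ^ 2 ≤ (√S.C * (‖y‖ + ∫ s in Ioc (0 : ℝ) T, ‖f s‖)) ^ 2 := by
        gcongr
    _ = _ := by rw [mul_pow, Real.sq_sqrt S.C_nonneg]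

private lemma liftB_shift (S : Sm H V) {y : H} {T : ℝ} {f : ℝ → H} {v : ℝ → V}
    (h : S.Path y T f v) :
    S.Path (S.traj y f 1) (T - 1) (fun s => f (1 + s)) (fun s => v (1 + s)) ∧
      ∫⁻ t in Ioc (0 : ℝ) (T - 1), ‖v (1 + t)‖ₑ ^ 2 = ∫⁻ t in Ioc (1 : ℝ) T, ‖v t‖ₑ ^ 2 ∧
      ∫ t in Ioc (0 : ℝ) (T - 1), ‖f (1 + t)‖ = ∫ t in Ioc (1 : ℝ) T, ‖f t‖ := by
  have hpre : (fun s : ℝ => 1 + s) ⁻¹' Ioc 1 T = Ioc 0 (T - 1) := by
    ext t
    simp only [mem_preimage, mem_Ioc]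
    constructor
    · rintro ⟨h3, h4⟩
      exact ⟨by linarith, by linarith⟩
    · rintro ⟨h3, h4⟩
      exact ⟨by linarith, by linarith⟩
  have hmp := measurePreserving_add_left (volume : Measure ℝ) 1
  have hmr : MeasurePreserving (fun t : ℝ => 1 + t) (volume.restrict (Ioc 0 (T - 1)))
      (volume.restrict (Ioc 1 T)) := by
    have := hmp.restrict_preimage (s := Ioc 1 T) measurableSet_Ioc
    rwa [hpre] at this
  have hsub : Ioc (1 : ℝ) T ⊆ Ioc 0 T := Ioc_subset_Ioc_left zero_le_one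
  have hm1 : (volume : Measure ℝ).restrict (Ioc 1 T) ≤ volume.restrict (Ioc 0 T) :=
    Measure.restrict_mono hsub le_rfl
  have hl : ∫⁻ t in Ioc (0 : ℝ) (T - 1), ‖v (1 + t)‖ₑ ^ 2 = ∫⁻ t in Ioc (1 : ℝ) T, ‖v t‖ₑ ^ 2 := by
    rw [← hpre]
    exact hmp.setLIntegral_comp_preimage_emb (measurableEmbedding_addLeft 1)
      (fun t => ‖v t‖ₑ ^ 2) (Ioc 1 T)
  have hi : ∫ t in Ioc (0 : ℝ) (T - 1), ‖f (1 + t)‖ = ∫ t in Ioc (1 : ℝ) T, ‖f t‖ := by
    rw [← hpre]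
    exact hmp.setIntegral_preimage_emb (measurableEmbedding_addLeft 1)
      (fun t => ‖f t‖) (Ioc 1 T)
  refine ⟨⟨?_, ?_, ?_, ?_⟩, hl, hi⟩
  · rw [← hpre]
    exact (hmp.integrableOn_comp_preimage (measurableEmbedding_addLeft 1)).2 (h.int.mono_set hsub)
  · exact (h.meas.mono_measure hm1).comp_measurePreserving hmr
  · rw [hl]
    exact (lintegral_mono' hm1 le_rfl).trans_lt h.fin
  · have h5 := hmr.quasiMeasurePreserving.ae (ae_mono hm1 h.lift)
    filter_upwards [h5, ae_restrict_mem measurableSet_Ioc] with t h6 h7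
    rw [h6]
    exact S.traj_shift y (f := f) (a := 1) (t := t) zero_le_one h7.1.le
      (h.int.mono_set (Ioc_subset_Ioc_right (by linarith [h7.2])))

private lemma liftB_nat (S : Sm H V) (n : ℕ) : ∀ {T : ℝ}, 0 < T → T ≤ n →
    ∀ (y : H) (f : ℝ → H) (v : ℝ → V), S.Path y T f v →
      ∫⁻ t in Ioc (0 : ℝ) T, ‖v t‖ₑ ^ 2 ≤
        ENNReal.ofReal (n * S.C * (‖y‖ + ∫ s in Ioc (0 : ℝ) T, ‖f s‖) ^ 2) := by
  induction n with
  | zero =>
    intro T hT hT0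
    push_cast at hT0
    linarith
  | succ n ih =>
    intro T hT hTn y f v h
    rcases le_or_gt T 1 with h1 | h1
    · refine (liftB_one S hT h1 y f v h).trans (ENNReal.ofReal_le_ofReal ?_)
      have h2 : (1 : ℝ) ≤ ((n + 1 : ℕ) : ℝ) := by
        push_cast
        linarith [n.cast_nonneg (α := ℝ)]
      have h3 := S.C_nonneg
      have h4 : S.C ≤ ((n + 1 : ℕ) : ℝ) * S.C := by nlinarith
      exact mul_le_mul_of_nonneg_right h4 (sq_nonneg _)
    · obtain ⟨hp, hl, hi⟩ := liftB_shift S h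
      have h2 := liftB_one S one_pos le_rfl y f v (h.mono h1.le)
      have h3 := ih (T := T - 1) (by linarith) (by push_cast at hTn; linarith) _ _ _ hp
      rw [hl, hi] at h3
      have hint1 : IntegrableOn (fun s => ‖f s‖) (Ioc 0 1) :=
        (h.int.mono_set (Ioc_subset_Ioc_right h1.le)).norm
      have hint2 : IntegrableOn (fun s => ‖f s‖) (Ioc 1 T) :=
        (h.int.mono_set (Ioc_subset_Ioc_left zero_le_one)).norm
      have hu : Ioc (0 : ℝ) T = Ioc 0 1 ∪ Ioc 1 T :=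
        (Ioc_union_Ioc_eq_Ioc zero_le_one h1.le).symm
      have hd : Disjoint (Ioc (0 : ℝ) 1) (Ioc 1 T) := Ioc_disjoint_Ioc_of_le le_rfl
      have h4 : ∫ s in Ioc (0 : ℝ) T, ‖f s‖ =
          (∫ s in Ioc (0 : ℝ) 1, ‖f s‖) + ∫ s in Ioc (1 : ℝ) T, ‖f s‖ := by
        rw [hu]
        exact setIntegral_union hd measurableSet_Ioc hint1 hint2
      have h5 : 0 ≤ ∫ s in Ioc (0 : ℝ) 1, ‖f s‖ := integral_nonneg fun _ => norm_nonneg _
      have h6 : 0 ≤ ∫ s in Ioc (1 : ℝ) T, ‖f s‖ := integral_nonneg fun _ => norm_nonneg _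
      have h7 : ‖S.traj y f 1‖ ≤ ‖y‖ + ∫ s in Ioc (0 : ℝ) 1, ‖f s‖ := by
        have := S.traj_norm y h.int (t := 1) ⟨zero_le_one, h1.le⟩
        rwa [intervalIntegral.integral_of_le zero_le_one] at this
      have hC := S.C_nonneg
      have hy := norm_nonneg y
      have ht := norm_nonneg (S.traj y f 1)
      rw [hu, lintegral_union measurableSet_Ioc hd, ← hu]
      refine (add_le_add h2 h3).trans ?_
      rw [← ENNReal.ofReal_add (by positivity) (by positivity)]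
      apply ENNReal.ofReal_le_ofReal
      rw [h4]
      push_cast
      set a := ∫ s in Ioc (0 : ℝ) 1, ‖f s‖
      set b := ∫ s in Ioc (1 : ℝ) T, ‖f s‖
      have h8 : S.C * (‖y‖ + a) ^ 2 ≤ S.C * (‖y‖ + (a + b)) ^ 2 := by
        gcongr
        linarith
      have h9 : (n : ℝ) * S.C * (‖S.traj y f 1‖ + b) ^ 2 ≤ n * S.C * (‖y‖ + (a + b)) ^ 2 := by
        gcongr (n : ℝ) * S.C * ?_ ^ 2
        linarith
      linarith

/-- The smoothing effect on `(0, T)`. -/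
theorem Sm.path_bound (S : Sm H V) {T : ℝ} (hT : 0 < T) : ∃ C : ℝ, 0 ≤ C ∧
    ∀ (y : H) (f : ℝ → H) (v : ℝ → V), S.Path y T f v →
      ∫⁻ t in Ioc (0 : ℝ) T, ‖v t‖ₑ ^ 2 ≤
        ENNReal.ofReal (C * (‖y‖ + ∫ s in Ioc (0 : ℝ) T, ‖f s‖) ^ 2) := by
  obtain ⟨n, hn⟩ := exists_nat_ge T
  exact ⟨n * S.C, mul_nonneg (Nat.cast_nonneg _) S.C_nonneg, fun y f v h =>
    liftB_nat S n hT hn y f v h⟩

end Pool.Agent.Kdv
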