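import Pool.Agent.Lib.MP_78c35a_an.Defs

/-!
# Functions with a rapidly decreasing Laplace transform
-/

set_option autoImplicit false

namespace Pool.Agent.Kdv

open MeasureTheory Filter Topology Set
open scoped ENNReal FourierTransform ContDiff SchwartzMap

/-- The `L²` Fourier transform agrees with the Fourier integral on `L¹ ∩ L²`. -/
lemma ua_fourier_toLp_ae {f : ℝ → ℂ} (hf1 : Integrable f) (hf2 : MemLp f 2) :
    (𝓕 (hf2.toLp f) : Lp ℂ 2 (volume : Measure ℝ)) =ᵐ[volume] 𝓕 f := by
  have hcont : Continuous (𝓕 f) :=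
    VectorFourier.fourierIntegral_continuous Real.continuous_fourierChar
      (by exact continuous_inner) hf1
  refine ae_eq_of_integral_contDiff_smul_eq ?_ hcont.locallyIntegrable ?_
  · exact (Lp.memLp _).locallyIntegrable (by norm_num)
  · intro g g_smooth g_cpt
    have hg₁ : HasCompactSupport (Complex.ofRealCLM ∘ g) := g_cpt.comp_left rfl
    have hg₂ : ContDiff ℝ ∞ (Complex.ofRealCLM ∘ g) := by fun_prop
    set ψ : 𝓢(ℝ, ℂ) := hg₁.toSchwartzMap hg₂ with hψ
    have h1 := congrArg (fun T : 𝓢'(ℝ, ℂ) => T ψ)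
      (Lp.fourier_toTemperedDistribution_eq (hf2.toLp f))
    simp only [TemperedDistribution.fourier_apply, Lp.toTemperedDistribution_apply] at h1
    have h2 : ∫ x : ℝ, (𝓕 ψ) x • (hf2.toLp f : ℝ → ℂ) x = ∫ x : ℝ, (𝓕 ψ) x • f x := by
      refine integral_congr_ae ?_
      filter_upwards [hf2.coeFn_toLp] with x hx
      rw [hx]
    have h3 : ∫ x : ℝ, (𝓕 ψ) x • f x = ∫ x : ℝ, ψ x • 𝓕 f x := by
      have := VectorFourier.integral_fourierIntegral_smul_eq_flip (μ := (volume : Measure ℝ))
        (ν := (volume : Measure ℝ)) (L := innerₗ ℝ) (f := (ψ : ℝ → ℂ)) (g := f)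
        Real.continuous_fourierChar continuous_inner ψ.integrable hf1
      rw [flip_innerₗ] at this
      exact this
    have h4 : ∀ (F : ℝ → ℂ), ∫ x : ℝ, g x • F x = ∫ x : ℝ, ψ x • F x := by
      intro F
      refine integral_congr_ae (Eventually.of_forall fun x => ?_)
      simp [hψ]
    rw [h4, h4, ← h3, ← h2, h1]

/-- An integrable and square integrable function with Fourier transform zero vanishes. -/
lemma ua_ae_zero {f : ℝ → ℂ} (hf1 : Integrable f) (hf2 : MemLp f 2) (h : ∀ ξ, 𝓕 f ξ = 0) :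
    ∀ᵐ x ∂volume, f x = 0 := by
  have h1 := ua_fourier_toLp_ae hf1 hf2
  have h2 : (𝓕 (hf2.toLp f) : Lp ℂ 2 (volume : Measure ℝ)) = 0 := by
    rw [Lp.eq_zero_iff_ae_eq_zero]
    filter_upwards [h1] with x hx
    rw [hx, h x]
    rfl
  have h3 := Lp.norm_fourier_eq (hf2.toLp f)
  rw [h2, norm_zero] at h3
  have h4 : hf2.toLp f = 0 := norm_eq_zero.mp h3.symm
  have h5 := hf2.coeFn_toLp
  rw [h4] at h5
  filter_upwards [h5, Lp.coeFn_zero ℂ 2 (volume : Measure ℝ)] with x hx h0
  rw [← hx, h0]
  rfl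

/-- The complex Laplace transform of a function supported in a bounded interval. -/
lemma ua_hasDeriv {L : ℝ} (hL : 0 < L) {Y : ℝ → ℂ} (hY : Integrable Y)
    (h0 : ∀ x, x ∉ Ioo 0 L → Y x = 0) (z : ℂ) :
    HasDerivAt (fun z : ℂ => ∫ x : ℝ, Complex.exp (z * x) * Y x)
      (∫ x : ℝ, x * Complex.exp (z * x) * Y x) z := by
  have hb : ∀ (w : ℂ) (x : ℝ), x ∈ Ioo 0 L → ‖Complex.exp (w * x)‖ ≤ Real.exp (‖w‖ * L) := by
    intro w x hx
    rw [Complex.norm_exp]
    refine Real.exp_le_exp.mpr ?_
    have h1 : (w * (x : ℂ)).re = w.re * x := by simp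
    rw [h1]
    have h2 : w.re ≤ ‖w‖ := Complex.re_le_norm w
    have h3 : w.re * x ≤ ‖w‖ * x := mul_le_mul_of_nonneg_right h2 hx.1.le
    exact h3.trans (mul_le_mul_of_nonneg_left hx.2.le (norm_nonneg _))
  have hm : ∀ w : ℂ, AEStronglyMeasurable (fun x : ℝ => Complex.exp (w * x) * Y x) volume := by
    intro w
    refine AEStronglyMeasurable.mul ?_ hY.1
    exact (Complex.continuous_exp.comp (continuous_const.mul
      Complex.continuous_ofReal)).aestronglyMeasurable
  refine (hasDerivAt_integral_of_dominated_loc_of_deriv_le (μ := (volume : Measure ℝ))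
    (F := fun (z : ℂ) (x : ℝ) => Complex.exp (z * x) * Y x)
    (F' := fun (z : ℂ) (x : ℝ) => x * Complex.exp (z * x) * Y x)
    (bound := fun x => L * Real.exp ((‖z‖ + 1) * L) * ‖Y x‖) (s := Metric.ball z 1)
    (Metric.ball_mem_nhds z one_pos) (Eventually.of_forall fun w => hm w) ?_ ?_ ?_ ?_ ?_).2
  · refine Integrable.mono' (hY.norm.const_mul (Real.exp (‖z‖ * L))) (hm z)
      (Eventually.of_forall fun x => ?_)
    by_cases hx : x ∈ Ioo 0 L
    · rw [norm_mul]
      exact mul_le_mul_of_nonneg_right (hb z x hx) (norm_nonneg _)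
    · rw [h0 x hx]
      simp
  · refine AEStronglyMeasurable.mul ?_ hY.1
    exact (Complex.continuous_ofReal.mul (Complex.continuous_exp.comp (continuous_const.mul
      Complex.continuous_ofReal))).aestronglyMeasurable
  · refine Eventually.of_forall fun x w hw => ?_
    by_cases hx : x ∈ Ioo 0 L
    · rw [norm_mul, norm_mul]
      have h1 : ‖(x : ℂ)‖ ≤ L := by
        rw [Complex.norm_real, Real.norm_eq_abs, abs_of_pos hx.1]
        exact hx.2.le
      have h2 : ‖w‖ ≤ ‖z‖ + 1 := by
        have : dist w z < 1 := hw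
        rw [dist_eq_norm] at this
        have h3 : ‖w‖ ≤ ‖w - z‖ + ‖z‖ := by
          have := norm_add_le (w - z) z
          rwa [sub_add_cancel] at this
        linarith
      have h3 : ‖Complex.exp (w * x)‖ ≤ Real.exp ((‖z‖ + 1) * L) :=
        (hb w x hx).trans (Real.exp_le_exp.mpr (mul_le_mul_of_nonneg_right h2 hL.le))
      exact mul_le_mul_of_nonneg_right (mul_le_mul h1 h3 (norm_nonneg _) hL.le) (norm_nonneg _)
    · rw [h0 x hx]
      simp
  · exact hY.norm.const_mul _
  · refine Eventually.of_forall fun x w _ => ?_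
    have h1 : HasDerivAt (fun w : ℂ => w * (x : ℂ)) (x : ℂ) w := by
      simpa using (hasDerivAt_id w).mul_const (x : ℂ)
    have h2 := (h1.cexp).mul_const (Y x)
    have h3 : (x : ℂ) * Complex.exp (w * x) * Y x = Complex.exp (w * x) * x * Y x := by ring
    rw [h3]
    exact h2

/-- A square integrable function on `[0, L]` whose Laplace transform decays faster than any
exponential vanishes. -/
theorem laplace_zero {L : ℝ} (hL : 0 < L) (y : L2)
    (hy : ∀ᵐ x ∂volume, x ∉ Ioo 0 L → y x = 0) {c C : ℝ} (hc : 0 < c)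
    (h : ∀ r : ℝ, 0 < r → |∫ x, Real.exp (r * x) * y x| ≤ C * Real.exp (C * r - c * r ^ 3)) :
    y = 0 := by
  set Y : ℝ → ℂ := (Ioo (0 : ℝ) L).indicator fun x => ((y x : ℝ) : ℂ) with hYdef
  have hY0 : ∀ x, x ∉ Ioo 0 L → Y x = 0 := fun x hx => indicator_of_notMem hx _
  have hYy : ∀ᵐ x ∂volume, Y x = ((y x : ℝ) : ℂ) := by
    filter_upwards [hy] with x hx
    by_cases h1 : x ∈ Ioo 0 L
    · exact indicator_of_mem h1 _
    · rw [hY0 x h1, hx h1]
      simp
  have hyc : MemLp (fun x => ((y x : ℝ) : ℂ)) 2 volume := (Lp.memLp y).ofReal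
  have hY2 : MemLp Y 2 volume := hyc.indicator measurableSet_Ioo
  have hY1 : Integrable Y := by
    have h1 : MemLp (fun x => ((y x : ℝ) : ℂ)) 2 (volume.restrict (Ioo (0 : ℝ) L)) :=
      hyc.restrict _
    have : IsFiniteMeasure (volume.restrict (Ioo (0 : ℝ) L)) := by
      refine ⟨?_⟩
      rw [Measure.restrict_apply_univ, Real.volume_Ioo]
      exact ENNReal.ofReal_lt_top
    have h2 : Integrable (fun x => ((y x : ℝ) : ℂ)) (volume.restrict (Ioo (0 : ℝ) L)) :=
      h1.integrable one_le_two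
    exact (integrable_indicator_iff measurableSet_Ioo).mpr h2
  set F : ℂ → ℂ := fun z => ∫ x : ℝ, Complex.exp (z * x) * Y x with hF
  have hFd : Differentiable ℂ F := fun z => (ua_hasDeriv hL hY1 hY0 z).differentiableAt
  have hFb : ∀ z : ℂ, ‖F z‖ ≤ Real.exp (max 0 z.re * L) * ∫ x, ‖Y x‖ := by
    intro z
    refine (norm_integral_le_integral_norm _).trans ?_
    rw [← integral_const_mul]
    refine integral_mono_of_nonneg (Eventually.of_forall fun x => norm_nonneg _)
      (hY1.norm.const_mul _) (Eventually.of_forall fun x => ?_)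
    simp only [norm_mul]
    by_cases hx : x ∈ Ioo 0 L
    · refine mul_le_mul_of_nonneg_right ?_ (norm_nonneg _)
      rw [Complex.norm_exp]
      refine Real.exp_le_exp.mpr ?_
      have h1 : (z * (x : ℂ)).re = z.re * x := by simp
      rw [h1]
      have h3 : z.re * x ≤ max 0 z.re * x := mul_le_mul_of_nonneg_right (le_max_right _ _) hx.1.le
      exact h3.trans (mul_le_mul_of_nonneg_left hx.2.le (le_max_left _ _))
    · rw [hY0 x hx]
      simp
  have hI0 : 0 ≤ ∫ x, ‖Y x‖ := integral_nonneg fun x => norm_nonneg _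
  have hFr : ∀ r : ℝ, F r = ((∫ x, Real.exp (r * x) * y x : ℝ) : ℂ) := by
    intro r
    rw [← integral_complex_ofReal]
    refine integral_congr_ae ?_
    filter_upwards [hYy] with x hx
    rw [hx]
    push_cast
    rfl
  have key := PhragmenLindelof.eq_zero_on_right_half_plane_of_superexponential_decay
    (f := F) hFd.diffContOnCl ?_ ?_ ?_
  · have hfz : ∀ ξ : ℝ, 𝓕 Y ξ = 0 := by
      intro ξ
      rw [Real.fourier_eq']
      have h1 := key (x := ((-2 * Real.pi * ξ : ℝ) : ℂ) * Complex.I) (by simp)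
      refine (integral_congr_ae (Eventually.of_forall fun x => ?_)).trans h1
      simp only [RCLike.inner_apply, conj_trivial, smul_eq_mul]
      congr 2
      push_cast
      ring
    have hz := ua_ae_zero hY1 hY2 hfz
    rw [Lp.eq_zero_iff_ae_eq_zero]
    filter_upwards [hz, hYy] with x h1 h2
    rw [h2] at h1
    simpa using h1
  · refine ⟨1, by norm_num, L, ?_⟩
    refine Asymptotics.IsBigO.of_bound (∫ x, ‖Y x‖) ?_
    refine eventually_inf_principal.mpr (Eventually.of_forall fun z _ => ?_)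
    rw [Real.rpow_one, Real.norm_eq_abs, abs_of_pos (Real.exp_pos _), mul_comm]
    refine (hFb z).trans (mul_le_mul_of_nonneg_right (Real.exp_le_exp.mpr ?_) hI0)
    rw [mul_comm L]
    refine mul_le_mul_of_nonneg_right ?_ hL.le
    exact max_le (norm_nonneg _) (Complex.re_le_norm z)
  · intro n
    have hlim : Tendsto (fun x : ℝ => |C| * Real.exp (-x)) atTop (𝓝 0) := by
      have := (Real.tendsto_exp_neg_atTop_nhds_zero).const_mul |C|
      simpa using this
    refine squeeze_zero' (Eventually.of_forall fun x => by positivity) ?_ hlim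
    filter_upwards [eventually_ge_atTop (1 : ℝ), eventually_ge_atTop ((n + C + 1) / c)]
      with x hx1 hx2
    have hx0 : 0 < x := by linarith
    have h1 : ‖F (x : ℂ)‖ ≤ C * Real.exp (C * x - c * x ^ 3) := by
      rw [hFr, Complex.norm_real, Real.norm_eq_abs]
      exact h x hx0
    have h2 : C * Real.exp (C * x - c * x ^ 3) ≤ |C| * Real.exp (C * x - c * x ^ 3) :=
      mul_le_mul_of_nonneg_right (le_abs_self C) (Real.exp_pos _).le
    have h3 : n + C + 1 ≤ c * x := by
      rw [div_le_iff₀ hc] at hx2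
      linarith
    have h4 : (n + C + 1) * x ≤ c * x ^ 3 := by
      have h5 : c * x * x ≤ c * x ^ 3 := by
        have : c * x ^ 3 - c * x * x = c * x ^ 2 * (x - 1) := by ring
        have h6 : 0 ≤ c * x ^ 2 * (x - 1) := by
          have : 0 ≤ x - 1 := by linarith
          positivity
        linarith
      have h6 : (n + C + 1) * x ≤ c * x * x := mul_le_mul_of_nonneg_right h3 hx0.le
      linarith
    calc Real.exp x ^ n * ‖F (x : ℂ)‖
        ≤ Real.exp x ^ n * (|C| * Real.exp (C * x - c * x ^ 3)) :=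
          mul_le_mul_of_nonneg_left (h1.trans h2) (by positivity)
      _ = |C| * Real.exp (n * x + (C * x - c * x ^ 3)) := by
          rw [← Real.exp_nat_mul, Real.exp_add]
          ring
      _ ≤ |C| * Real.exp (-x) := by
          refine mul_le_mul_of_nonneg_left (Real.exp_le_exp.mpr ?_) (abs_nonneg _)
          nlinarith
  · refine ⟨∫ x, ‖Y x‖, fun x => ?_⟩
    refine (hFb _).trans ?_
    simp

end Pool.Agent.Kdv
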