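import Pool.Agent.Lib.MP_78c35a_an.Par
import Pool.Agent.Lib.MP_78c35a_an.Gen
import Pool.Agent.Lib.MP_78c35a_an.Energy
import Pool.Agent.Lib.MP_78c35a_an.Quadr
import Pool.Agent.Lib.MP_78c35a_an.UniqA

/-!
# Unique continuation for the linear equation
-/

set_option autoImplicit false

namespace Pool.Agent.Kdv

open MeasureTheory Filter Topology Set
open scoped ENNReal

variable {n : ℕ}

namespace UniqBAux

open scoped ContDiff

lemma one_meas (L : ℝ) : Measurable (one L) :=
  measurable_one.indicator measurableSet_Ioo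

lemma one_bd (L : ℝ) : ∃ C, ∀ x, |one L x| ≤ C := by
  refine ⟨1, fun x => ?_⟩
  unfold one
  by_cases hx : x ∈ Ioo (0 : ℝ) L
  · rw [indicator_of_mem hx]; simp
  · rw [indicator_of_notMem hx]; simp

lemma one_in {L x : ℝ} (hx : x ∈ Ioo 0 L) : one L x = 1 := indicator_of_mem hx _

lemma one_out {L x : ℝ} (hx : x ∉ Ioo 0 L) : one L x = 0 := indicator_of_notMem hx _

lemma PP_ae (L : ℝ) (z : HH n) (j : Fin n) :
    ∀ᵐ x ∂volume, PP n L z j x = one L x * z j x :=
  mulOp_ae (one_meas L) (one_bd L) (z j)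

/-- A smooth cutoff. -/
lemma exists_bump {L : ℝ} (hL : 0 < L) : ∃ θ : ℝ → ℝ, ContDiff ℝ ∞ θ ∧ HasCompactSupport θ ∧
    ∀ x ∈ Icc (-1) (L + 1), θ x = 1 := by
  let f : ContDiffBump (L / 2 : ℝ) := ⟨L / 2 + 1, L / 2 + 2, by positivity, by linarith⟩
  refine ⟨f, f.contDiff, f.hasCompactSupport, fun x hx => f.one_of_mem_closedBall ?_⟩
  rw [Real.closedBall_eq_Icc]
  constructor
  · have := hx.1
    simp only [f]
    linarith
  · have := hx.2
    simp only [f]
    linarith

lemma exists_unit {L : ℝ} (hL : 0 < L) : ∃ q : V1 L, (∀ x ∈ Icc (-1) (L + 1), q.val x = 1) ∧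
    ∀ᵐ x ∂volume, x ∈ J L → V1.d L q x = 0 := by
  obtain ⟨θ, h1, h2, h3⟩ := exists_bump hL
  have hd : ∀ x, HasDerivAt θ (deriv θ x) x := fun x =>
    ((h1.differentiable (by simp)) x).hasDerivAt
  have hc : Continuous (deriv θ) := h1.continuous_deriv (by simp)
  have hm : MemLp θ 2 volume := h1.continuous.memLp_of_hasCompactSupport h2
  obtain ⟨q, hq1, hq2, _⟩ := V1.exists_of (L := L) hm hd hc
  refine ⟨q, V1.val_unique hL q (F := fun _ => 1) continuous_const ?_, ?_⟩
  · filter_upwards [toL2_ae hm] with x hx hJ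
    rw [hq1, hx]
    exact h3 x (Ioo_subset_Icc_self hJ)
  · filter_upwards [hq2] with x hx hJ
    rw [hx hJ]
    have : θ =ᶠ[𝓝 x] fun _ => 1 := by
      filter_upwards [isOpen_Ioo.mem_nhds hJ] with y hy
      exact h3 y (Ioo_subset_Icc_self hy)
    rw [this.deriv_eq]
    simp

/-- Integration by parts for an element of `V1`. -/
lemma parts1 {L : ℝ} (hL : 0 < L) (p : V1 L) {a b : ℝ} (ha : -1 ≤ a) (hab : a ≤ b)
    (hb : b ≤ L + 1) {w w' : ℝ → ℝ} (hw : ∀ x, HasDerivAt w (w' x) x) (hw' : Continuous w') :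
    ∫ x in a..b, (w' x * p.val x + w x * V1.d L p x) = w b * p.val b - w a * p.val a := by
  obtain ⟨q, hq1, hq2⟩ := exists_unit hL
  have hwc : Continuous w := continuous_iff_continuousAt.mpr fun x => (hw x).continuousAt
  have h := V1.parts hL p q ha hab hb hwc (w' := w') (fun x hx => by
    rw [intervalIntegral.integral_eq_sub_of_hasDerivAt (fun y _ => hw y)
      (hw'.intervalIntegrable _ _)]
    ring) (hw'.intervalIntegrable _ _)
  rw [hq1 a ⟨ha, hab.trans hb⟩, hq1 b ⟨ha.trans hab, hb⟩, mul_one, mul_one] at h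
  rw [← h]
  refine intervalIntegral.integral_congr_ae ?_
  filter_upwards [hq2, compl_mem_ae_iff.mpr (measure_singleton (L + 1))] with x hx hne hx2
  rw [uIoc_of_le hab] at hx2
  have hxJ : x ∈ J L := ⟨lt_of_le_of_lt ha hx2.1, lt_of_le_of_ne (hx2.2.trans hb) hne⟩
  rw [hx hxJ, hq1 x (Ioo_subset_Icc_self hxJ)]
  ring

lemma val_zero {L : ℝ} (p : V1 L)
    (hp : ∀ᵐ x ∂volume, x ∉ Ioo 0 L → V1.u L p x = 0) {a b : ℝ} (hab : a < b)
    (hJ : Ioo a b ⊆ J L) (hd : ∀ x ∈ Ioo a b, x ∉ Ioo 0 L) : ∀ x ∈ Icc a b, p.val x = 0 := by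
  have h1 : EqOn p.val (fun _ => 0) (Ioo a b) := by
    refine Measure.eqOn_open_of_ae_eq (μ := volume) ?_ isOpen_Ioo p.val_cont.continuousOn
      continuousOn_const
    refine (ae_restrict_iff' measurableSet_Ioo).mpr ?_
    filter_upwards [hp, p.val_ae] with x h2 h3 h4
    rw [← h3 (hJ h4), h2 (hd x h4)]
  have h2 : EqOn p.val (fun _ => 0) (Icc a b) :=
    h1.of_subset_closure p.val_cont.continuousOn continuousOn_const Ioo_subset_Icc_self
      (by rw [closure_Ioo hab.ne])
  exact fun x hx => h2 hx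

lemma chi_cont (L : ℝ) : Continuous (chi L) := by
  unfold chi
  fun_prop

lemma chi_out {L x : ℝ} (hx : x ∉ J L) : chi L x = 0 := by
  unfold chi
  refine max_eq_left ?_
  by_cases h : -1 < x
  · have h2 : ¬ x < L + 1 := fun h3 => hx ⟨h, h3⟩
    exact (min_le_right _ _).trans ((min_le_right _ _).trans (by linarith))
  · exact (min_le_right _ _).trans ((min_le_left _ _).trans (by linarith))

lemma chi_a {L x : ℝ} (hL : 0 < L) (hx : x ∈ Icc (-1) 0) : chi L x = 1 + x := by
  unfold chi
  have h1 := hx.1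
  have h2 := hx.2
  rw [min_eq_left (by linarith : 1 + x ≤ L + 1 - x), min_eq_right (by linarith : 1 + x ≤ 1),
    max_eq_right (by linarith)]

lemma chi_b {L x : ℝ} (hx : x ∈ Icc 0 L) : chi L x = 1 := by
  unfold chi
  have h1 := hx.1
  have h2 := hx.2
  rw [min_eq_left (le_min (by linarith) (by linarith)), max_eq_right zero_le_one]

lemma chi_c {L x : ℝ} (hL : 0 < L) (hx : x ∈ Icc L (L + 1)) : chi L x = L + 1 - x := by
  unfold chi
  have h1 := hx.1
  have h2 := hx.2
  rw [min_eq_right (by linarith : L + 1 - x ≤ 1 + x), min_eq_right (by linarith : L + 1 - x ≤ 1),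
    max_eq_right (by linarith)]

/-- The integral of a derivative against the exponential. -/
lemma exp_d {L : ℝ} (hL : 0 < L) (r : ℝ) (p : V1 L)
    (hp : ∀ᵐ x ∂volume, x ∉ Ioo 0 L → V1.u L p x = 0) {φ : ℝ → ℝ}
    (hφ : ∀ x ∈ Icc (-1) (L + 1), φ x = Real.exp (r * x)) :
    ∫ x, φ x * (chi L x * V1.d L p x) = -(r * ∫ x in (0 : ℝ)..L, Real.exp (r * x) * p.val x) := by
  have hexp : ∀ x : ℝ, HasDerivAt (fun x => Real.exp (r * x)) (r * Real.exp (r * x)) x := by
    intro x
    have := ((hasDerivAt_id x).const_mul r).exp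
    simpa [mul_comm] using this
  have hva := val_zero p hp (by norm_num : (-1 : ℝ) < 0)
    (fun x hx => ⟨hx.1, by linarith [hx.2]⟩) (fun x hx h => by linarith [hx.2, h.1])
  have hvc := val_zero p hp (by linarith : L < L + 1)
    (fun x hx => ⟨by linarith [hx.1], hx.2⟩) (fun x hx h => by linarith [hx.1, h.2])
  set F : ℝ → ℝ := fun x => Real.exp (r * x) * (chi L x * V1.d L p x) with hF
  have e1 : ∫ x, φ x * (chi L x * V1.d L p x) = ∫ x, F x := by
    refine integral_congr_ae (Eventually.of_forall fun x => ?_)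
    by_cases hx : x ∈ J L
    · simp only [hF, hφ x (Ioo_subset_Icc_self hx)]
    · simp only [hF, chi_out hx, zero_mul, mul_zero]
  have e2 : ∫ x, F x = ∫ x in (-1)..(L + 1), F x := by
    rw [intervalIntegral.integral_of_le (by linarith), integral_Ioc_eq_integral_Ioo]
    refine (setIntegral_eq_integral_of_forall_compl_eq_zero fun x hx => ?_).symm
    have : x ∉ J L := hx
    simp only [hF, chi_out this, zero_mul, mul_zero]
  have hi : ∀ a b : ℝ, IntervalIntegrable F volume a b := by
    intro a b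
    have h1 : IntervalIntegrable (fun x => (Real.exp (r * x) * chi L x) * V1.d L p x)
        volume a b := by
      refine (L2.intervalIntegrable (V1.d L p) a b).continuousOn_mul (Continuous.continuousOn ?_)
      have := chi_cont L
      fun_prop
    refine h1.congr_ae ?_
    exact Eventually.of_forall fun x => by simp only [hF]; ring
  rw [e1, e2, ← intervalIntegral.integral_add_adjacent_intervals (hi (-1) 0) (hi 0 (L + 1)),
    ← intervalIntegral.integral_add_adjacent_intervals (hi 0 L) (hi L (L + 1))]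
  have pa : ∫ x in (-1)..0, F x = 0 := by
    have h := parts1 hL p le_rfl (by norm_num : (-1 : ℝ) ≤ 0) (by linarith)
      (w := fun x => Real.exp (r * x) * (1 + x))
      (w' := fun x => r * Real.exp (r * x) * (1 + x) + Real.exp (r * x) * 1)
      (fun x => (hexp x).mul ((hasDerivAt_id x).const_add 1)) (by fun_prop)
    rw [hva 0 (by norm_num), hva (-1) (by norm_num), mul_zero, mul_zero, sub_zero] at h
    refine Eq.trans (intervalIntegral.integral_congr fun x hx => ?_) h
    rw [uIcc_of_le (by norm_num)] at hx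
    simp only [hF, hva x hx, chi_a hL hx]
    ring
  have pc : ∫ x in L..(L + 1), F x = 0 := by
    have h := parts1 hL p (by linarith : (-1 : ℝ) ≤ L) (by linarith : L ≤ L + 1) le_rfl
      (w := fun x => Real.exp (r * x) * (L + 1 - x))
      (w' := fun x => r * Real.exp (r * x) * (L + 1 - x) + Real.exp (r * x) * (-1))
      (fun x => (hexp x).mul ((hasDerivAt_id x).const_sub (L + 1))) (by fun_prop)
    rw [hvc L ⟨le_rfl, by linarith⟩, hvc (L + 1) ⟨by linarith, le_rfl⟩, mul_zero, mul_zero,
      sub_zero] at h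
    refine Eq.trans (intervalIntegral.integral_congr fun x hx => ?_) h
    rw [uIcc_of_le (by linarith)] at hx
    simp only [hF, hvc x hx, chi_c hL hx]
    ring
  have pb : ∫ x in (0 : ℝ)..L, F x = -(r * ∫ x in (0 : ℝ)..L, Real.exp (r * x) * p.val x) := by
    have h := parts1 hL p (by norm_num : (-1 : ℝ) ≤ 0) hL.le (by linarith)
      (w := fun x => Real.exp (r * x)) (w' := fun x => r * Real.exp (r * x))
      hexp (by fun_prop)
    rw [hva 0 (by norm_num), hvc L ⟨le_rfl, by linarith⟩, mul_zero, mul_zero, sub_zero] at h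
    have h2 : ∫ x in (0 : ℝ)..L, F x = ∫ x in (0 : ℝ)..L, Real.exp (r * x) * V1.d L p x := by
      refine intervalIntegral.integral_congr fun x hx => ?_
      rw [uIcc_of_le hL.le] at hx
      simp only [hF, chi_b hx, one_mul]
    have hvi : IntervalIntegrable (fun x => r * Real.exp (r * x) * p.val x) volume 0 L :=
      Continuous.intervalIntegrable (by have := p.val_cont; fun_prop) _ _
    have hdi : IntervalIntegrable (fun x => Real.exp (r * x) * V1.d L p x) volume 0 L :=
      (L2.intervalIntegrable (V1.d L p) 0 L).continuousOn_mul (by fun_prop)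
    rw [intervalIntegral.integral_add hvi hdi] at h
    have h3 : ∫ x in (0 : ℝ)..L, r * Real.exp (r * x) * p.val x =
        r * ∫ x in (0 : ℝ)..L, Real.exp (r * x) * p.val x := by
      rw [← intervalIntegral.integral_const_mul]
      exact intervalIntegral.integral_congr fun x _ => by ring
    rw [h2]
    linarith
  rw [pa, pb, pc]
  ring

/-- The exponential on the controlled region, paired with a state. -/
lemma exp_pair {L : ℝ} (r : ℝ) (z : HH n) (j : Fin n)
    (hz : PP n L z = z) {φ : ℝ → ℝ} (hm : MemLp φ 2 volume) {c : ℝ}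
    (hφ : ∀ x ∈ Ioo 0 L, φ x = c * Real.exp (r * x)) :
    inner ℝ (toL2 φ) (z j) = c * ∫ x, Real.exp (r * x) * PP n L z j x := by
  rw [L2.inner_def, ← integral_const_mul]
  refine integral_congr_ae ?_
  filter_upwards [PP_ae L z j, toL2_ae hm] with x h1 h2
  simp only [RCLike.inner_apply, conj_trivial]
  rw [hz] at h1 ⊢
  rw [h2]
  by_cases hx : x ∈ Ioo 0 L
  · rw [hφ x hx]
    ring
  · rw [one_out hx, zero_mul] at h1
    rw [h1]
    ring

/-- The linear term, paired with the exponential. -/
lemma lmap_pair {L : ℝ} (hL : 0 < L) (S : Fin n → Fin n → ℝ) (r : ℝ) (w : VV n L) (j : Fin n)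
    (hw : PP n L (inc n L w) = inc n L w) {φ : ℝ → ℝ} (hm : MemLp φ 2 volume)
    (hφ : ∀ x ∈ Icc (-1) (L + 1), φ x = Real.exp (r * x)) :
    inner ℝ (toL2 φ) (lmap n L S w j) =
      r * ∑ k, S j k * ∫ x, Real.exp (r * x) * PP n L (inc n L w) k x := by
  have hsup : ∀ k, ∀ᵐ x ∂volume, x ∉ Ioo 0 L → uu k w x = 0 := by
    intro k
    filter_upwards [PP_ae L (inc n L w) k] with x h1 hx
    rw [hw, one_out hx, zero_mul] at h1
    exact h1
  have hd : ∀ k, ∫ x, φ x * (chi L x * dd k w x) =
      -(r * ∫ x, Real.exp (r * x) * PP n L (inc n L w) k x) := by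
    intro k
    have h1 := exp_d hL r (w k) (hsup k) hφ
    have h2 : (∫ x in (0 : ℝ)..L, Real.exp (r * x) * (w k).val x) =
        ∫ x, Real.exp (r * x) * PP n L (inc n L w) k x := by
      rw [intervalIntegral.integral_of_le hL.le, integral_Ioc_eq_integral_Ioo,
        ← integral_indicator measurableSet_Ioo]
      refine integral_congr_ae ?_
      filter_upwards [PP_ae L (inc n L w) k, (w k).val_ae] with x h3 h4
      rw [h3]
      by_cases hx : x ∈ Ioo 0 L
      · rw [indicator_of_mem hx, one_in hx, one_mul,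
          ← h4 ⟨by linarith [hx.1], by linarith [hx.2]⟩]
        rfl
      · rw [indicator_of_notMem hx, one_out hx, zero_mul, mul_zero]
    rw [h2] at h1
    exact h1
  have hint : ∀ k, Integrable (fun x => φ x * (chi L x * dd k w x)) volume := by
    intro k
    have h1 : MemLp (fun x => chi L x * dd k w x) 2 volume := by
      refine memLp_mul ⟨(chi_cont L).measurable, 1, fun x => ?_⟩ _
      unfold chi
      rw [abs_of_nonneg (le_max_left _ _)]
      exact max_le zero_le_one (min_le_left _ _)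
    exact hm.integrable_mul h1
  rw [L2.inner_def]
  calc ∫ x, inner ℝ (toL2 φ x) (lmap n L S w j x)
      = ∫ x, -∑ k, S j k * (φ x * (chi L x * dd k w x)) := by
        refine integral_congr_ae ?_
        filter_upwards [lmap_ae L S w j, toL2_ae hm, ae_all_iff.mpr hsup] with x h1 h2 h3
        simp only [RCLike.inner_apply, conj_trivial]
        rw [h1, h2, neg_mul, Finset.sum_mul]
        congr 1
        refine Finset.sum_congr rfl fun k _ => ?_
        have h4 : dchi L x * uu k w x = 0 := by
          by_cases hx : x ∈ Ioo 0 L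
          · have h5 : dchi L x = 0 := by
              unfold dchi
              rw [indicator_of_notMem (fun h => by linarith [h.2, hx.1]),
                indicator_of_notMem (fun h => by linarith [h.1, hx.2]), sub_zero]
            rw [h5, zero_mul]
          · rw [h3 k hx, mul_zero]
        rw [h4]
        ring
    _ = -∑ k, S j k * ∫ x, φ x * (chi L x * dd k w x) := by
        rw [integral_neg, integral_finsetSum _ fun k _ => (hint k).const_mul _]
        simp only [integral_const_mul]
    _ = _ := by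
        simp only [hd]
        rw [Finset.mul_sum, ← Finset.sum_neg_distrib]
        refine Finset.sum_congr rfl fun k _ => ?_
        ring

/-- The projection fixes the whole trajectory. -/
lemma PP_traj (p : Par n) {T : ℝ} (hT : 0 < T) {y : HH n} {f : ℝ → HH n}
    {v : ℝ → VV n p.L} (h : (smn p).Path y T f v)
    (hP : ∀ᵐ t ∂volume.restrict (Ioc (0 : ℝ) T), PP n p.L (inc n p.L (v t)) = inc n p.L (v t))
    {t : ℝ} (ht : t ∈ Icc 0 T) :
    PP n p.L ((smn p).traj y f t) = (smn p).traj y f t := by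
  have hc := (smn p).traj_cont y hT.le h.int
  have h1 : ∀ᵐ t ∂volume.restrict (Ioo (0 : ℝ) T),
      PP n p.L ((smn p).traj y f t) = (smn p).traj y f t := by
    have h2 : ∀ᵐ t ∂volume.restrict (Ioc (0 : ℝ) T),
      PP n p.L ((smn p).traj y f t) = (smn p).traj y f t := by
      filter_upwards [hP, h.lift] with s h3 h4
      rw [← h4]
      exact h3
    exact ae_mono (Measure.restrict_mono Ioo_subset_Ioc_self le_rfl) h2
  have h5 : EqOn (fun t => PP n p.L ((smn p).traj y f t)) ((smn p).traj y f) (Icc 0 T) := by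
    have h6 : EqOn (fun t => PP n p.L ((smn p).traj y f t)) ((smn p).traj y f) (Ioo 0 T) :=
      Measure.eqOn_open_of_ae_eq h1 isOpen_Ioo
        ((PP n p.L).continuous.comp_continuousOn (hc.mono Ioo_subset_Icc_self))
        (hc.mono Ioo_subset_Icc_self)
    refine h6.of_subset_closure ((PP n p.L).continuous.comp_continuousOn hc) hc
      Ioo_subset_Icc_self ?_
    rw [closure_Ioo hT.ne]
  exact h5 ht

end UniqBAux

open UniqBAux ContDiff in
/-- The equation for the Laplace transforms of a solution supported in `[0, L]`. -/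
theorem laplace_eq (p : Par n) {T : ℝ} (hT : 0 < T) {y : HH n} {f : ℝ → HH n}
    {v : ℝ → VV n p.L} (h : (smn p).Path y T f v)
    (hf : ∀ᵐ t ∂volume.restrict (Ioc (0 : ℝ) T), f t = lmap n p.L p.S (v t))
    (hP : ∀ᵐ t ∂volume.restrict (Ioc (0 : ℝ) T), PP n p.L (inc n p.L (v t)) = inc n p.L (v t))
    {r : ℝ} (hr : 0 < r) (j : Fin n) {t : ℝ} (ht : t ∈ Icc 0 T) :
    (∫ x, Real.exp (r * x) * PP n p.L ((smn p).traj y f t) j x) =
      (∫ x, Real.exp (r * x) * PP n p.L y j x) + ∫ s in (0 : ℝ)..t,
        (r ^ 3 * p.mu j * (∫ x, Real.exp (r * x) * PP n p.L ((smn p).traj y f s) j x) +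
          r * ∑ k, p.S j k * (∫ x, Real.exp (r * x) * PP n p.L ((smn p).traj y f s) k x)) := by
  have hmu := p.hmu j
  obtain ⟨θ, h1, h2, h3⟩ := exists_bump p.hL
  set φ : ℝ → ℝ := fun x => Real.exp (r * x) * θ x with hφ
  have hφ1 : ContDiff ℝ ∞ φ := (by fun_prop : ContDiff ℝ ∞ fun x : ℝ => Real.exp (r * x)).mul h1
  have hφ2 : HasCompactSupport φ := h2.mul_left
  have hφ3 : ∀ x ∈ Icc (-1) (p.L + 1), φ x = Real.exp (r * x) := fun x hx => by
    simp only [hφ, h3 x hx, mul_one]
  have hφ4 : ∀ x ∈ J p.L, iteratedDeriv 3 φ x = r ^ 3 * Real.exp (r * x) := by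
    intro x hx
    have e1 : φ =ᶠ[𝓝 x] fun x => Real.exp (r * x) := by
      filter_upwards [isOpen_Ioo.mem_nhds hx] with y hy
      exact hφ3 y (Ioo_subset_Icc_self hy)
    rw [e1.iteratedDeriv_eq, iteratedDeriv_exp_const_mul]
  have hm : MemLp φ 2 volume := hφ1.continuous.memLp_of_hasCompactSupport hφ2
  have hφ5 : Continuous (iteratedDeriv 3 φ) :=
    hφ1.continuous_iteratedDeriv 3 (WithTop.coe_le_coe.mpr (le_top : (3 : ℕ∞) ≤ ⊤))
  have hφ6 : HasCompactSupport (iteratedDeriv 3 φ) := by
    simp only [iteratedDeriv_succ, iteratedDeriv_zero]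
    exact hφ2.deriv.deriv.deriv
  have hm3 : MemLp (iteratedDeriv 3 φ) 2 volume := hφ5.memLp_of_hasCompactSupport hφ6
  have hgen : ∀ t, (sm1 p.hL hmu).U (-t) (toL2 φ) = toL2 φ +
      ∫ s in (0 : ℝ)..t, (sm1 p.hL hmu).U (-s) (p.mu j • toL2 (iteratedDeriv 3 φ)) := by
    intro t
    have e1 : (sm1 p.hL hmu).U (-t) (toL2 φ) = airy (-(p.mu j * t)) (toL2 φ) := by
      change airy (p.mu j * (-t)) (toL2 φ) = _
      rw [mul_neg]
    have e2 : ∀ s, (sm1 p.hL hmu).U (-s) (p.mu j • toL2 (iteratedDeriv 3 φ)) =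
        p.mu j • airy (-(p.mu j * s)) (toL2 (iteratedDeriv 3 φ)) := by
      intro s
      change airy (p.mu j * (-s)) (p.mu j • toL2 (iteratedDeriv 3 φ)) = _
      rw [mul_neg, map_smul]
    rw [e1, airy_gen hφ1 hφ2]
    simp only [e2]
    rw [intervalIntegral.integral_smul,
      intervalIntegral.smul_integral_comp_mul_left
        (fun s => airy (-s) (toL2 (iteratedDeriv 3 φ))) (p.mu j), mul_zero]
  have hpath := path_comp p h j
  have hmain := (sm1 p.hL hmu).pair hgen (y j) hpath.int ht
  have hE : ∀ s ∈ Icc 0 T, inner ℝ (toL2 φ) ((sm1 p.hL hmu).traj (y j) (fun s => f s j) s) =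
      ∫ x, Real.exp (r * x) * PP n p.L ((smn p).traj y f s) j x := by
    intro s hs
    rw [← traj_comp p y h.int hs j,
      exp_pair r _ j (PP_traj p hT h hP hs) hm (c := 1) (fun x hx => by
        rw [hφ3 x ⟨by linarith [hx.1], by linarith [hx.2]⟩, one_mul]), one_mul]
  have hE3 : ∀ s ∈ Icc 0 T, inner ℝ (p.mu j • toL2 (iteratedDeriv 3 φ))
      ((sm1 p.hL hmu).traj (y j) (fun s => f s j) s) =
      r ^ 3 * p.mu j * ∫ x, Real.exp (r * x) * PP n p.L ((smn p).traj y f s) j x := by
    intro s hs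
    rw [← traj_comp p y h.int hs j, real_inner_smul_left,
      exp_pair r _ j (PP_traj p hT h hP hs) hm3 (c := r ^ 3) (fun x hx =>
        hφ4 x ⟨by linarith [hx.1], by linarith [hx.2]⟩)]
    ring
  have hy : (∫ x, Real.exp (r * x) * PP n p.L y j x) = inner ℝ (toL2 φ) (y j) := by
    have h0 := PP_traj p hT h hP (left_mem_Icc.mpr hT.le)
    rw [Sm.traj_zero] at h0
    rw [exp_pair r _ j h0 hm (c := 1) (fun x hx => by
        rw [hφ3 x ⟨by linarith [hx.1], by linarith [hx.2]⟩, one_mul]), one_mul]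
  rw [← hE t ht, hmain, hy]
  congr 1
  refine intervalIntegral.integral_congr_ae ?_
  have hsub : Ioc 0 t ⊆ Ioc 0 T := Ioc_subset_Ioc_right ht.2
  have hl := h.lift
  rw [ae_restrict_iff' measurableSet_Ioc] at hf hP hl
  filter_upwards [hf, hP, hl] with s g1 g2 g3 hs
  rw [uIoc_of_le ht.1] at hs
  have hs2 := hsub hs
  have hs3 : s ∈ Icc 0 T := Ioc_subset_Icc_self hs2
  rw [hE3 s hs3, g1 hs2, lmap_pair p.hL p.S r (v s) j (g2 hs2) hm hφ3]
  have g4 : inc n p.L (v s) = (smn p).traj y f s := g3 hs2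
  rw [g4]


namespace UniqAux

lemma one_meas (L : ℝ) : Measurable (one L) :=
  measurable_one.indicator measurableSet_Ioo

lemma one_bd (L : ℝ) : ∃ C, ∀ x, |one L x| ≤ C := by
  refine ⟨1, fun x => ?_⟩
  unfold one
  by_cases hx : x ∈ Ioo (0 : ℝ) L
  · rw [indicator_of_mem hx]; simp
  · rw [indicator_of_notMem hx]; simp

lemma PP_ae (L : ℝ) (z : HH n) (j : Fin n) :
    ∀ᵐ x ∂volume, PP n L z j x = one L x * z j x :=
  mulOp_ae (one_meas L) (one_bd L) (z j)

lemma memLp_one (L : ℝ) : MemLp (one L) 2 volume := by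
  unfold one
  exact memLp_indicator_const 2 measurableSet_Ioo (1 : ℝ) (Or.inr (by simp))

lemma memLp_er (L r : ℝ) : MemLp (fun x => Real.exp (r * x) * one L x) 2 volume := by
  refine MemLp.of_le_mul (c := Real.exp (|r| * |L|)) (memLp_one L)
    (((by fun_prop : Measurable fun x : ℝ => Real.exp (r * x)).mul
      (one_meas L)).aestronglyMeasurable) (Eventually.of_forall fun x => ?_)
  rw [norm_mul]
  by_cases hx : x ∈ Ioo (0 : ℝ) L
  · refine mul_le_mul_of_nonneg_right ?_ (norm_nonneg _)
    rw [Real.norm_eq_abs, Real.abs_exp]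
    refine Real.exp_le_exp.mpr ?_
    calc r * x ≤ |r * x| := le_abs_self _
      _ = |r| * |x| := abs_mul _ _
      _ ≤ |r| * |L| := by
          refine mul_le_mul_of_nonneg_left ?_ (abs_nonneg _)
          rw [abs_of_pos hx.1]
          exact hx.2.le.trans (le_abs_self _)
  · have : one L x = 0 := indicator_of_notMem hx _
    rw [this]; simp

/-- The exponential on the controlled region. -/
noncomputable def er (L r : ℝ) : L2 := (memLp_er L r).toLp _

lemma er_ae (L r : ℝ) : ∀ᵐ x ∂volume, er L r x = Real.exp (r * x) * one L x :=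
  (memLp_er L r).coeFn_toLp

lemma er_inner (L r : ℝ) (z : HH n) (j : Fin n) :
    (∫ x, Real.exp (r * x) * PP n L z j x) = inner ℝ (er L r) (z j) := by
  rw [L2.inner_def]
  refine integral_congr_ae ?_
  filter_upwards [PP_ae L z j, er_ae L r] with x h1 h2
  rw [h1, h2]
  simp only [RCLike.inner_apply, conj_trivial]
  ring

lemma er_norm {L r : ℝ} (hr : 0 ≤ r) : ‖er L r‖ ≤ Real.exp (r * L) * ‖er L 0‖ := by
  refine Lp.norm_le_mul_norm_of_ae_le_mul ?_
  filter_upwards [er_ae L r, er_ae L 0] with x h1 h2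
  rw [h1, h2, zero_mul, Real.exp_zero, one_mul, norm_mul, Real.norm_eq_abs, Real.abs_exp]
  by_cases hx : x ∈ Ioo (0 : ℝ) L
  · refine mul_le_mul_of_nonneg_right ?_ (norm_nonneg _)
    exact Real.exp_le_exp.mpr (mul_le_mul_of_nonneg_left hx.2.le hr)
  · have : one L x = 0 := indicator_of_notMem hx _
    rw [this]; simp

/-- The projection fixes the whole trajectory. -/
lemma PP_traj (p : Par n) {T : ℝ} (hT : 0 < T) {y : HH n} {f : ℝ → HH n}
    {v : ℝ → VV n p.L} (h : (smn p).Path y T f v)
    (hP : ∀ᵐ t ∂volume.restrict (Ioc (0 : ℝ) T), PP n p.L (inc n p.L (v t)) = inc n p.L (v t))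
    {t : ℝ} (ht : t ∈ Icc 0 T) :
    PP n p.L ((smn p).traj y f t) = (smn p).traj y f t := by
  have hc := (smn p).traj_cont y hT.le h.int
  have h1 : ∀ᵐ t ∂volume.restrict (Ioo (0 : ℝ) T),
      PP n p.L ((smn p).traj y f t) = (smn p).traj y f t := by
    have h2 : ∀ᵐ t ∂volume.restrict (Ioc (0 : ℝ) T),
      PP n p.L ((smn p).traj y f t) = (smn p).traj y f t := by
      filter_upwards [hP, h.lift] with s h3 h4
      rw [← h4]
      exact h3
    exact ae_mono (Measure.restrict_mono Ioo_subset_Ioc_self le_rfl) h2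
  have h5 : EqOn (fun t => PP n p.L ((smn p).traj y f t)) ((smn p).traj y f) (Icc 0 T) := by
    have h6 : EqOn (fun t => PP n p.L ((smn p).traj y f t)) ((smn p).traj y f) (Ioo 0 T) :=
      Measure.eqOn_open_of_ae_eq h1 isOpen_Ioo
        ((PP n p.L).continuous.comp_continuousOn (hc.mono Ioo_subset_Icc_self))
        (hc.mono Ioo_subset_Icc_self)
    refine h6.of_subset_closure ((PP n p.L).continuous.comp_continuousOn hc) hc
      Ioo_subset_Icc_self ?_
    rw [closure_Ioo hT.ne]
  exact h5 ht

end UniqAux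

open UniqAux in
theorem uniq (p : Par n) {T : ℝ} (hT : 0 < T) {y : HH n} {f : ℝ → HH n}
    {v : ℝ → VV n p.L} (h : (smn p).Path y T f v)
    (hf : ∀ᵐ t ∂volume.restrict (Ioc (0 : ℝ) T), f t = lmap n p.L p.S (v t))
    (hP : ∀ᵐ t ∂volume.restrict (Ioc (0 : ℝ) T), PP n p.L (inc n p.L (v t)) = inc n p.L (v t)) :
    y = 0 := by
  have hc := (smn p).traj_cont y hT.le h.int
  have hy : PP n p.L y = y := by
    have := PP_traj p hT h hP (left_mem_Icc.mpr hT.le)
    rwa [Sm.traj_zero] at this
  rcases isEmpty_or_nonempty (Fin n) with he | hne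
  · ext1 j
    exact he.elim j
  obtain ⟨i0, hi0⟩ := Finite.exists_min p.mu
  -- the bound for the symmetric matrix
  set σ : ℝ := ∑ j, ∑ k, |p.S j k| with hσ
  set z := (smn p).traj y f with hz
  set K : ℝ := ∑ j, ‖er p.L 0‖ * ‖z T j‖ with hK
  have hK0 : 0 ≤ K := Finset.sum_nonneg fun j _ => by positivity
  have hσ0 : 0 ≤ σ := Finset.sum_nonneg fun j _ => Finset.sum_nonneg fun k _ => abs_nonneg _
  have key : ∀ r : ℝ, 0 < r → ∀ j, |inner ℝ (er p.L r) (y j)| ≤
      K * Real.exp ((p.L + σ * T) * r - (p.mu i0 * T) * r ^ 3) := by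
    intro r hr j
    -- the moments
    set m : Fin n → ℝ → ℝ := fun j t => inner ℝ (er p.L r) (z t j) with hm
    have hmc : ∀ j, ContinuousOn (m j) (Icc 0 T) := fun j => by
      have : Continuous fun w : HH n => (inner ℝ (er p.L r) (w j) : ℝ) :=
        (continuous_const.inner continuous_id).comp (prH (n := n) j).continuous
      exact this.comp_continuousOn hc
    set G : Fin n → ℝ → ℝ := fun j t => r ^ 3 * p.mu j * m j t + r * ∑ k, p.S j k * m k t with hG
    have hGc : ∀ j, ContinuousOn (G j) (Icc 0 T) := fun j =>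
      (continuousOn_const.mul (hmc j)).add (continuousOn_const.mul
        (continuousOn_finsetSum _ fun k _ => continuousOn_const.mul (hmc k)))
    have heq : ∀ j, ∀ t ∈ Icc 0 T, m j t = inner ℝ (er p.L r) (y j) +
        ∫ s in (0 : ℝ)..t, G j s := by
      intro j t ht
      have := laplace_eq p hT h hf hP hr j ht
      simp only [er_inner] at this
      exact this
    have hder : ∀ j, ∀ t ∈ Ioo 0 T, HasDerivAt (m j) (G j t) t := by
      intro j t ht
      have hd : HasDerivAt (fun t => (inner ℝ (er p.L r) (y j) : ℝ) + ∫ s in (0 : ℝ)..t, G j s)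
          (G j t) t := by
        refine HasDerivAt.const_add _ ?_
        refine intervalIntegral.integral_hasDerivAt_right ?_ ?_ ?_
        · refine ContinuousOn.intervalIntegrable ?_
          rw [uIcc_of_le ht.1.le]
          exact (hGc j).mono (Icc_subset_Icc_right ht.2.le)
        · exact ((hGc j).mono Ioo_subset_Icc_self).stronglyMeasurableAtFilter isOpen_Ioo t ht
        · exact (hGc j).continuousAt (Icc_mem_nhds ht.1 ht.2)
      refine hd.congr_of_eventuallyEq ?_
      filter_upwards [Ioo_mem_nhds ht.1 ht.2] with s hs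
      exact heq j s (Ioo_subset_Icc_self hs)
    set a : ℝ := r ^ 3 * p.mu i0 - r * σ with ha
    set N : ℝ → ℝ := fun t => ∑ j, (m j t) ^ 2 with hN
    have hNc : ContinuousOn N (Icc 0 T) := continuousOn_finsetSum _ fun j _ => (hmc j).pow 2
    have hNd : ∀ t ∈ Ioo 0 T, HasDerivAt N (∑ j, 2 * m j t * G j t) t := by
      intro t ht
      have : HasDerivAt (fun t => ∑ j, (m j t) ^ 2) (∑ j, 2 * m j t * G j t) t := by
        refine HasDerivAt.fun_sum fun j _ => ?_
        have h9 : HasDerivAt (m j ^ 2) (2 * m j t * G j t) t := by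
          simpa using (hder j t ht).pow 2
        exact h9
      exact this
    have hge : ∀ t, 2 * a * N t ≤ ∑ j, 2 * m j t * G j t := by
      intro t
      have e1 : ∑ j, 2 * m j t * G j t = 2 * (r ^ 3 * ∑ j, p.mu j * m j t ^ 2) +
          2 * (r * ∑ j, ∑ k, p.S j k * (m j t * m k t)) := by
        simp only [hG, Finset.mul_sum]
        rw [← Finset.sum_add_distrib]
        refine Finset.sum_congr rfl fun j _ => ?_
        rw [mul_add, Finset.mul_sum]
        congr 1
        · ring
        · refine Finset.sum_congr rfl fun k _ => ?_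
          ring
      have e2 : p.mu i0 * N t ≤ ∑ j, p.mu j * m j t ^ 2 := by
        rw [hN]
        simp only
        rw [Finset.mul_sum]
        exact Finset.sum_le_sum fun j _ => mul_le_mul_of_nonneg_right (hi0 j) (sq_nonneg _)
      have e3 : -(σ * N t) ≤ ∑ j, ∑ k, p.S j k * (m j t * m k t) := by
        rw [hσ, Finset.sum_mul, ← Finset.sum_neg_distrib]
        refine Finset.sum_le_sum fun j _ => ?_
        rw [Finset.sum_mul, ← Finset.sum_neg_distrib]
        refine Finset.sum_le_sum fun k _ => ?_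
        have e4 : |m j t * m k t| ≤ N t := by
          have f1 : m j t ^ 2 ≤ N t := Finset.single_le_sum (f := fun j => m j t ^ 2)
            (fun j _ => sq_nonneg _) (Finset.mem_univ j)
          have f2 : m k t ^ 2 ≤ N t := Finset.single_le_sum (f := fun j => m j t ^ 2)
            (fun j _ => sq_nonneg _) (Finset.mem_univ k)
          rw [abs_le]
          constructor
          · nlinarith [sq_nonneg (m j t + m k t)]
          · nlinarith [sq_nonneg (m j t - m k t)]
        calc -(|p.S j k| * N t) ≤ -(|p.S j k| * |m j t * m k t|) :=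
              neg_le_neg (mul_le_mul_of_nonneg_left e4 (abs_nonneg _))
          _ = -|p.S j k * (m j t * m k t)| := by rw [abs_mul (p.S j k)]
          _ ≤ p.S j k * (m j t * m k t) := neg_abs_le _
      rw [e1, ha]
      have hr3 : 0 ≤ r ^ 3 := by positivity
      have g1 := mul_le_mul_of_nonneg_left e2 hr3
      have g2 := mul_le_mul_of_nonneg_left e3 hr.le
      nlinarith
    have hmono : MonotoneOn (fun t => Real.exp (-(2 * a) * t) * N t) (Icc 0 T) := by
      refine monotoneOn_of_deriv_nonneg (convex_Icc 0 T) ?_ ?_ ?_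
      · exact (by fun_prop : Continuous fun t : ℝ => Real.exp (-(2 * a) * t)).continuousOn.mul hNc
      · rw [interior_Icc]
        intro t ht
        exact (((by fun_prop : Differentiable ℝ fun t : ℝ => Real.exp (-(2 * a) * t)) t).mul
          (hNd t ht).differentiableAt).differentiableWithinAt
      · rw [interior_Icc]
        intro t ht
        have h1 : HasDerivAt (fun t : ℝ => Real.exp (-(2 * a) * t))
            (Real.exp (-(2 * a) * t) * (-(2 * a))) t := by
          have := ((hasDerivAt_id t).const_mul (-(2 * a))).exp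
          simpa using this
        have h2 := h1.mul (hNd t ht)
        have h3 : deriv (fun t => Real.exp (-(2 * a) * t) * N t) t =
            Real.exp (-(2 * a) * t) * (-(2 * a)) * N t +
              Real.exp (-(2 * a) * t) * ∑ j, 2 * m j t * G j t := h2.deriv
        rw [h3]
        have := hge t
        have h4 := (Real.exp_pos (-(2 * a) * t)).le
        nlinarith [mul_le_mul_of_nonneg_left this h4]
    have hNT : N 0 ≤ Real.exp (-(2 * a) * T) * N T := by
      have := hmono (left_mem_Icc.mpr hT.le) (right_mem_Icc.mpr hT.le) hT.le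
      simpa using this
    have hm0 : m j 0 ^ 2 ≤ N 0 := Finset.single_le_sum (f := fun j => m j 0 ^ 2)
            (fun j _ => sq_nonneg _) (Finset.mem_univ j)
    have hB : √(N T) ≤ K * Real.exp (r * p.L) := by
      refine Real.sqrt_le_iff.mpr ⟨by positivity, ?_⟩
      have h1 : ∀ j, |m j T| ≤ Real.exp (r * p.L) * (‖er p.L 0‖ * ‖z T j‖) := fun j => by
        calc |m j T| ≤ ‖er p.L r‖ * ‖z T j‖ := abs_real_inner_le_norm _ _
          _ ≤ (Real.exp (r * p.L) * ‖er p.L 0‖) * ‖z T j‖ :=
              mul_le_mul_of_nonneg_right (er_norm hr.le) (norm_nonneg _)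
          _ = _ := by ring
      calc N T = ∑ j, |m j T| ^ 2 := by simp only [hN, sq_abs]
        _ ≤ (∑ j, |m j T|) ^ 2 := Finset.sum_sq_le_sq_sum_of_nonneg fun j _ => abs_nonneg _
        _ ≤ (K * Real.exp (r * p.L)) ^ 2 := by
            refine pow_le_pow_left₀ (Finset.sum_nonneg fun j _ => abs_nonneg _) ?_ 2
            calc ∑ j, |m j T| ≤ ∑ j, Real.exp (r * p.L) * (‖er p.L 0‖ * ‖z T j‖) :=
                  Finset.sum_le_sum fun j _ => h1 j
              _ = K * Real.exp (r * p.L) := by rw [← Finset.mul_sum, mul_comm]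
    have hfin : |m j 0| ≤ Real.exp (-a * T) * √(N T) := by
      have h1 : |m j 0| ^ 2 ≤ (Real.exp (-a * T) * √(N T)) ^ 2 := by
        rw [sq_abs, mul_pow, Real.sq_sqrt (Finset.sum_nonneg fun j _ => sq_nonneg _),
          ← Real.exp_nat_mul]
        refine hm0.trans (hNT.trans (le_of_eq ?_))
        congr 2
        push_cast
        ring
      exact le_of_sq_le_sq h1 (by positivity)
    have h0 : m j 0 = inner ℝ (er p.L r) (y j) := by
      simp only [hm, hz, Sm.traj_zero]
    rw [← h0]
    calc |m j 0| ≤ Real.exp (-a * T) * √(N T) := hfin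
      _ ≤ Real.exp (-a * T) * (K * Real.exp (r * p.L)) :=
          mul_le_mul_of_nonneg_left hB (Real.exp_pos _).le
      _ = K * (Real.exp (-a * T) * Real.exp (r * p.L)) := by ring
      _ = K * Real.exp ((p.L + σ * T) * r - (p.mu i0 * T) * r ^ 3) := by
          rw [← Real.exp_add, ha]
          congr 2
          ring
  rw [← hy]
  have hμ : 0 < p.mu i0 * T := mul_pos (p.hmu i0) hT
  ext1 j
  have : PP n p.L y j = 0 := by
    refine laplace_zero (C := max K (p.L + σ * T)) p.hL (PP n p.L y j) ?_ hμ fun r hr => ?_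
    · filter_upwards [PP_ae p.L y j] with x hx hx2
      rw [hx]
      have : one p.L x = 0 := indicator_of_notMem hx2 _
      rw [this, zero_mul]
    · rw [er_inner]
      refine (key r hr j).trans ?_
      refine mul_le_mul (le_max_left _ _) (Real.exp_le_exp.mpr ?_) (Real.exp_pos _).le
        (hK0.trans (le_max_left _ _))
      exact sub_le_sub_right (mul_le_mul_of_nonneg_right (le_max_right _ _) hr.le) _
  rw [this]
  rfl

end Pool.Agent.Kdv
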