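import Pool.Agent.Lib.MP_78c35a_an.AbsMain
import Pool.Agent.Lib.MP_78c35a_an.Refl
import Pool.Agent.Lib.MP_78c35a_an.Skew
import Pool.Agent.Lib.MP_78c35a_an.Poinc
import Pool.Agent.Lib.MP_78c35a_an.Uniq
import Pool.Agent.Lib.MP_78c35a_an.Func

/-!
# Exact controllability on the line
-/

set_option autoImplicit false

namespace Pool.Agent.Kdv

open MeasureTheory Filter Topology Set
open scoped ENNReal

variable {n : ℕ}

/-- The control system on the line. -/
theorem exists_sys (p : Par n) : ∃ S : Sys (HH n) (VV n p.L), S.toSm = smn p ∧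
    S.P = PP n p.L ∧ S.l = lmap n p.L p.S ∧ S.q = qmap n p.L p.g := by
  obtain ⟨psi, psi', kap, C1, hk, hC1, hgen, hmono⟩ := exists_func p
  obtain ⟨K, hK, hK1, hK2⟩ := q_bounds p.hL p.g
  exact ⟨{ toSm := smn p
           rho := rho n p.L
           rhoV := rhoV n p.L
           rho_rho := rho_rho p.L
           rho_norm := rho_norm p.L
           rho_U := rho_UU p
           inc_rhoV := inc_rhoV p.L
           P := PP n p.L
           P_P := PP_PP p.L
           P_symm := PP_symm p.L
           P_rho := PP_rho p.L
           l := lmap n p.L p.S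
           q := qmap n p.L p.g
           l_skew := l_skew p.hL p.hS
           q_skew := q_skew p.hL p.g12 p.g23
           l_rho := l_rho p.L p.S
           q_rho := q_rho p.L p.g
           q_zero := q_zero p.L p.g
           K := K
           K_nonneg := hK
           q_quad := hK1
           q_lip := hK2
           cpt := fun ε hε => cpt n p.hL hε
           uniq := fun T y f v hT h hf hP => uniq p hT h hf hP
           psi := psi
           psi' := psi'
           gen := hgen
           kap := kap
           kap_pos := hk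
           C1 := C1
           C1_nonneg := hC1
           mono := hmono }, rfl, rfl, rfl, rfl⟩

/-- Exact controllability on the line. -/
theorem line_control (p : Par n) : ∃ T0 : ℝ, 0 < T0 ∧ ∀ T : ℝ, T0 ≤ T → ∀ y0 y1 : HH n,
    ∃ (f : ℝ → HH n) (v : ℝ → VV n p.L), (smn p).Path y0 T f v ∧
      (∀ᵐ t ∂volume.restrict (Ioc (0 : ℝ) T), PP n p.L (f t) =
        PP n p.L (lmap n p.L p.S (v t) + qmap n p.L p.g (v t))) ∧
      (smn p).traj y0 f T = y1 := by
  obtain ⟨S, h1, h2, h3, h4⟩ := exists_sys p
  have : Fact ((2 : ENNReal) ≠ ⊤) := ⟨by norm_num⟩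
  obtain ⟨T0, hT0, h⟩ := S.global
  refine ⟨T0, hT0, fun T hT y0 y1 => ?_⟩
  have := h T hT y0 y1
  unfold Sys.Adm at this
  rw [h1, h2, h3, h4] at this
  exact this

end Pool.Agent.Kdv
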