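import Pool.Agent.Lib.MP_78c35a_an.Defs

/-!
# Nice functions
-/

set_option autoImplicit false

namespace Pool.Agent.Kdv

open MeasureTheory Filter Topology Set
open scoped SchwartzMap FourierTransform ENNReal ContDiff

lemma toL2_ae {F : ℝ → ℝ} (h : MemLp F 2 volume) : ∀ᵐ x ∂volume, toL2 F x = F x := by
  unfold toL2
  rw [dif_pos h]
  exact h.coeFn_toLp

lemma toL2_coe (y : L2) : toL2 (fun x => y x) = y := by
  apply Lp.ext
  exact toL2_ae (Lp.memLp y)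

lemma toL2_eq {F : ℝ → ℝ} {y : L2} (h : ∀ᵐ x ∂volume, y x = F x) : toL2 F = y := by
  have hF : MemLp F 2 volume := (memLp_congr_ae h).1 (Lp.memLp y)
  apply Lp.ext
  filter_upwards [toL2_ae hF, h] with x h1 h2
  rw [h1, h2]

lemma IsNice.eq_re {G : 𝓢(ℝ, ℂ)} {g : ℝ → ℝ} (h : IsNice G g) : g = fun x => (G x).re := by
  funext x
  rw [h x, Complex.ofReal_re]

lemma IsNice.memLp {G : 𝓢(ℝ, ℂ)} {g : ℝ → ℝ} (h : IsNice G g) : MemLp g 2 volume := by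
  rw [h.eq_re]
  exact (G.memLp 2 volume).re

/-- Compactly supported smooth functions are nice. -/
theorem exists_nice {φ : ℝ → ℝ} (hφ : ContDiff ℝ ∞ φ) (hc : HasCompactSupport φ) :
    ∃ G : 𝓢(ℝ, ℂ), IsNice G φ := by
  have h1 : HasCompactSupport fun x => (φ x : ℂ) := hc.comp_left (g := fun r : ℝ => (r : ℂ))
    Complex.ofReal_zero
  have h2 : ContDiff ℝ ∞ fun x => (φ x : ℂ) := Complex.ofRealCLM.contDiff.comp hφ
  exact ⟨h1.toSchwartzMap h2, fun x => rfl⟩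

/-- Nice functions are dense. -/
theorem nice_dense (y : L2) {ε : ℝ} (hε : 0 < ε) :
    ∃ (G : 𝓢(ℝ, ℂ)) (g : ℝ → ℝ), IsNice G g ∧ ‖y - toL2 g‖ < ε := by
  obtain ⟨g, h1, h2, h3⟩ := MemLp.exist_eLpNorm_sub_le (p := 2) (by norm_num) (by norm_num)
    (Lp.memLp y) (half_pos hε)
  obtain ⟨G, hG⟩ := exists_nice h2 h1
  refine ⟨G, g, hG, ?_⟩
  have e : eLpNorm (y - toL2 g : L2) 2 volume = eLpNorm ((y : ℝ → ℝ) - g) 2 volume := by
    apply eLpNorm_congr_ae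
    filter_upwards [Lp.coeFn_sub y (toL2 g), toL2_ae hG.memLp] with x h4 h5
    rw [h4, Pi.sub_apply, Pi.sub_apply, h5]
  rw [Lp.norm_def, e]
  have h6 := ENNReal.toReal_mono ENNReal.ofReal_ne_top h3
  rw [ENNReal.toReal_ofReal (half_pos hε).le] at h6
  linarith

lemma lintegral_sq {E : Type} [NormedAddCommGroup E] (f : ℝ → E) :
    ∫⁻ x : ℝ, ‖f x‖ₑ ^ 2 = eLpNorm f 2 volume ^ 2 := by
  have h := eLpNorm_nnreal_pow_eq_lintegral (f := f) (μ := (volume : Measure ℝ)) (p := 2)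
    (by norm_num)
  have h2 : ((2 : NNReal) : ℝ) = (2 : ℕ) := by norm_num
  rw [h2] at h
  simp only [ENNReal.rpow_natCast] at h
  exact h.symm

/-- Plancherel. -/
theorem nice_plancherel {G : 𝓢(ℝ, ℂ)} {g : ℝ → ℝ} (h : IsNice G g) :
    ∫⁻ ξ : ℝ, ‖𝓕 (fun y => G y) ξ‖ₑ ^ 2 = ENNReal.ofReal (‖toL2 g‖ ^ 2) := by
  rw [lintegral_sq]
  have e1 : eLpNorm (𝓕 (fun y => G y)) 2 volume = ENNReal.ofReal ‖(𝓕 G).toLp 2‖ := by
    rw [SchwartzMap.norm_toLp, ENNReal.ofReal_toReal ((𝓕 G).memLp 2 volume).eLpNorm_ne_top]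
    rfl
  have e2 : ‖G.toLp 2‖ = ‖toL2 g‖ := by
    rw [SchwartzMap.norm_toLp, Lp.norm_def, eLpNorm_congr_ae (toL2_ae h.memLp)]
    congr 1
    apply eLpNorm_congr_norm_ae
    refine Eventually.of_forall fun x => ?_
    rw [h x, Complex.norm_real]
  rw [e1, SchwartzMap.norm_fourier_toL2_eq, e2, ENNReal.ofReal_pow (norm_nonneg _)]

end Pool.Agent.Kdv
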