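import Pool.Agent.Lib.MP_78c35a_an.Rev

/-!
# Exact control of the linear equation
-/

set_option autoImplicit false

namespace Pool.Agent.Kdv

open MeasureTheory Filter Topology Set
open scoped ENNReal InnerProductSpace

variable {H V : Type} [NormedAddCommGroup H] [InnerProductSpace ℝ H] [CompleteSpace H]
  [NormedAddCommGroup V] [NormedSpace ℝ V] [CompleteSpace V]

namespace RussellAux

omit [CompleteSpace V] in
/-- The final state, as a function of the initial state and of the force. -/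
theorem exists_ev (S : Sm H V) {T : ℝ} (hT : 0 < T) :
    ∃ Ev : H × XL H T →L[ℝ] H, ∀ y f, Ev (y, f) = S.traj y f T := by
  have hint : ∀ f : XL H T, IntegrableOn f (Ioc 0 T) := fun f => L1.integrable_coeFn f
  have hTT : T ∈ Icc (0 : ℝ) T := ⟨hT.le, le_rfl⟩
  let E : H × XL H T →ₗ[ℝ] H :=
    { toFun := fun x => S.traj x.1 x.2 T
      map_add' := fun x z => by
        have h1 : S.traj (x + z).1 ((x + z).2 : XL H T) T =
            S.traj (x.1 + z.1) (fun s => x.2 s + z.2 s) T :=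
          S.traj_congr _ hT.le (Lp.coeFn_add x.2 z.2)
        rw [h1]
        exact S.traj_add x.1 z.1 (hint x.2) (hint z.2) hTT
      map_smul' := fun r x => by
        have h1 : S.traj (r • x).1 ((r • x).2 : XL H T) T =
            S.traj (r • x.1) (fun s => r • x.2 s) T :=
          S.traj_congr _ hT.le (Lp.coeFn_smul r x.2)
        rw [h1]
        exact S.traj_smul r x.1 x.2 T }
  have hE : ∀ x : H × XL H T, ‖E x‖ ≤ 2 * ‖x‖ := by
    intro x
    have h1 := S.traj_norm x.1 (hint x.2) hTT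
    have h2 : ∫ s in (0 : ℝ)..T, ‖x.2 s‖ = ‖x.2‖ := by
      rw [intervalIntegral.integral_of_le hT.le]
      exact (L1.norm_eq_integral_norm x.2).symm
    rw [h2] at h1
    have h3 : ‖x.1‖ ≤ ‖x‖ := norm_fst_le x
    have h4 : ‖x.2‖ ≤ ‖x‖ := norm_snd_le x
    calc ‖E x‖ ≤ ‖x.1‖ + ‖x.2‖ := h1
      _ ≤ 2 * ‖x‖ := by linarith
  exact ⟨E.mkContinuous 2 hE, fun y f => rfl⟩

theorem mp_rev (T : ℝ) : MeasurePreserving (fun t : ℝ => T - t)
    (volume.restrict (Ioc 0 T)) (volume.restrict (Ioc 0 T)) := by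
  have h1 := (volume.measurePreserving_sub_left T : MeasurePreserving (fun t : ℝ => T - t)
    volume volume).restrict_preimage (measurableSet_Ioc (a := (0 : ℝ)) (b := T))
  have h2 : (fun t : ℝ => T - t) ⁻¹' Ioc 0 T = Ico 0 T := by
    ext t
    simp only [mem_preimage, mem_Ioc, mem_Ico]
    constructor
    · rintro ⟨h, h'⟩; exact ⟨by linarith, by linarith⟩
    · rintro ⟨h, h'⟩; exact ⟨by linarith, by linarith⟩
  rw [h2, Measure.restrict_congr_set Ico_ae_eq_Ioc] at h1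
  exact h1

omit [CompleteSpace H] [CompleteSpace V] in
/-- The reversal of time on forces. -/
theorem exists_rv (S : Sys H V) (T : ℝ) : ∃ Rv : XL H T →L[ℝ] XL H T,
    ∀ f : XL H T, ∀ᵐ t ∂volume.restrict (Ioc (0 : ℝ) T), Rv f t = -S.rho (f (T - t)) := by
  refine ⟨((-S.rho).compLpL 1 (volume.restrict (Ioc 0 T))).comp
    (Lp.compMeasurePreservingₗᵢ ℝ (fun t : ℝ => T - t) (mp_rev T)).toContinuousLinearMap,
    fun f => ?_⟩
  have h1 := ContinuousLinearMap.coeFn_compLpL (-S.rho)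
    (Lp.compMeasurePreserving (fun t : ℝ => T - t) (mp_rev T) f)
  have h2 := Lp.coeFn_compMeasurePreserving f (mp_rev T)
  filter_upwards [h1, h2] with t ht1 ht2
  have h3 : (((-S.rho).compLpL 1 (volume.restrict (Ioc 0 T))).comp
      (Lp.compMeasurePreservingₗᵢ ℝ (fun t : ℝ => T - t) (mp_rev T)).toContinuousLinearMap) f =
      (-S.rho).compLpL 1 (volume.restrict (Ioc 0 T))
        (Lp.compMeasurePreserving (fun t : ℝ => T - t) (mp_rev T) f) := rfl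
  rw [h3, ht1, ht2]
  rfl

end RussellAux

theorem Sys.russell (S : Sys H V) {T : ℝ} (hT : 0 < T)
    {Lf : H × XL H T →L[ℝ] YL V T} (hLf : S.toSm.IsLift T Lf)
    {Fl : H × XL H T →L[ℝ] XL H T} (hFl : IsFlow S.ld T Lf Fl)
    {θ : ℝ} (hθ0 : 0 ≤ θ) (hθ1 : θ < 1) (hθ : ∀ y : H, ‖S.toSm.traj y (Fl (y, 0)) T‖ ≤ θ * ‖y‖) :
    ∃ Th : H × H × XL H T →L[ℝ] XL H T, ∀ (y0 y1 : H) (g : XL H T),
      S.toSm.traj y0 (Th (y0, y1, g)) T = y1 ∧
      ∀ᵐ t ∂volume.restrict (Ioc (0 : ℝ) T), S.P (Th (y0, y1, g) t) =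
        S.P (S.l (Lf (y0, Th (y0, y1, g)) t) + g t) := by
  obtain ⟨Ev, hEv⟩ := RussellAux.exists_ev S.toSm hT
  obtain ⟨Rv, hRv⟩ := RussellAux.exists_rv S T
  let F0 : H →L[ℝ] XL H T := Fl.comp (ContinuousLinearMap.inl ℝ H (XL H T))
  let F1 : XL H T →L[ℝ] XL H T := Fl.comp (ContinuousLinearMap.inr ℝ H (XL H T))
  have hF0 : ∀ y, F0 y = Fl (y, 0) := fun _ => rfl
  have hF1 : ∀ g, F1 g = Fl (0, g) := fun _ => rfl
  let W : H →L[ℝ] H := Ev.comp ((ContinuousLinearMap.id ℝ H).prod F0)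
  have hW' : ∀ y, W y = Ev (y, Fl (y, 0)) := fun _ => rfl
  have hW : ∀ y, W y = S.toSm.traj y (Fl (y, 0)) T := fun y => hEv _ _
  let e : XL H T →L[ℝ] H := Ev.comp ((0 : XL H T →L[ℝ] H).prod F1)
  have he : ∀ g, e g = Ev (0, Fl (0, g)) := fun _ => rfl
  let M : H →L[ℝ] H := S.rho.comp (W.comp (S.rho.comp W))
  have hMa : ∀ y, M y = S.rho (W (S.rho (W y))) := fun _ => rfl
  have hM : ‖M‖ < 1 := by
    have h1 : ‖M‖ ≤ θ * θ := ContinuousLinearMap.opNorm_le_bound _ (by positivity) fun y => by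
      calc ‖M y‖ = ‖W (S.rho (W y))‖ := S.rho_norm _
        _ ≤ θ * ‖S.rho (W y)‖ := by rw [hW]; exact hθ _
        _ = θ * ‖W y‖ := by rw [S.rho_norm]
        _ ≤ θ * (θ * ‖y‖) := mul_le_mul_of_nonneg_left (by rw [hW]; exact hθ _) hθ0
        _ = θ * θ * ‖y‖ := by ring
    nlinarith
  let A : H →L[ℝ] H := ((Units.oneSub M hM)⁻¹ : (H →L[ℝ] H)ˣ)
  have hA : ∀ x, A x - M (A x) = x := fun x =>
    congrArg (fun L : H →L[ℝ] H => L x) (Units.oneSub M hM).mul_inv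
  let π0 : H × H × XL H T →L[ℝ] H := ContinuousLinearMap.fst ℝ H (H × XL H T)
  let π1 : H × H × XL H T →L[ℝ] H := (ContinuousLinearMap.fst ℝ H (XL H T)).comp
    (ContinuousLinearMap.snd ℝ H (H × XL H T))
  let π2 : H × H × XL H T →L[ℝ] XL H T := (ContinuousLinearMap.snd ℝ H (XL H T)).comp
    (ContinuousLinearMap.snd ℝ H (H × XL H T))
  let r : H × H × XL H T →L[ℝ] H := π1 - e.comp π2
  let a : H × H × XL H T →L[ℝ] H := A.comp (π0 - (S.rho.comp (W.comp S.rho)).comp r)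
  let b : H × H × XL H T →L[ℝ] H := S.rho.comp (W.comp a - r)
  refine ⟨F0.comp a - Rv.comp (F0.comp b) + F1.comp π2, fun y0 y1 g => ?_⟩
  obtain ⟨a₀, ha₀⟩ : ∃ a₀, a₀ = a (y0, y1, g) := ⟨_, rfl⟩
  obtain ⟨b₀, hb₀⟩ : ∃ b₀, b₀ = b (y0, y1, g) := ⟨_, rfl⟩
  have hTh : (F0.comp a - Rv.comp (F0.comp b) + F1.comp π2) (y0, y1, g) =
      Fl (a₀, 0) - Rv (Fl (b₀, 0)) + Fl (0, g) := by
    rw [ha₀, hb₀]
    rfl
  rw [hTh]
  have ha : a₀ = A (y0 - S.rho (W (S.rho (y1 - e g)))) := ha₀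
  have hb : b₀ = S.rho (W a₀ - (y1 - e g)) := by
    rw [hb₀, ha₀]
    rfl
  have hy1 : W a₀ - S.rho b₀ + e g = y1 := by
    rw [hb, S.rho_rho]
    abel
  have hy0 : y0 = a₀ - S.rho (W b₀) := by
    have h1 := hA (y0 - S.rho (W (S.rho (y1 - e g))))
    rw [← ha, hMa] at h1
    have h2 : S.rho (W b₀) = S.rho (W (S.rho (W a₀))) - S.rho (W (S.rho (y1 - e g))) := by
      rw [hb, map_sub, map_sub, map_sub]
    rw [h2]
    calc y0 = (y0 - S.rho (W (S.rho (y1 - e g)))) + S.rho (W (S.rho (y1 - e g))) := by abel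
      _ = (a₀ - S.rho (W (S.rho (W a₀)))) + S.rho (W (S.rho (y1 - e g))) := by rw [h1]
      _ = a₀ - (S.rho (W (S.rho (W a₀))) - S.rho (W (S.rho (y1 - e g)))) := by abel
  have hpair : ((y0, Fl (a₀, 0) - Rv (Fl (b₀, 0)) + Fl (0, g)) : H × XL H T) =
      (a₀, Fl (a₀, 0)) - (S.rho (W b₀), Rv (Fl (b₀, 0))) + (0, Fl (0, g)) := by
    rw [Prod.mk_sub_mk, Prod.mk_add_mk, add_zero, ← hy0]
  have hint : ∀ f : XL H T, IntegrableOn f (Ioc 0 T) := fun f => L1.integrable_coeFn f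
  -- the reversed trajectory
  have hrev : ∀ t ∈ Icc (0 : ℝ) T, S.toSm.traj (S.rho (W b₀)) (Rv (Fl (b₀, 0))) t =
      S.rho (S.toSm.traj b₀ (Fl (b₀, 0)) (T - t)) := by
    intro t ht
    rw [← S.traj_rev b₀ (hint _) ht, hW]
    exact S.toSm.traj_congr _ ht.1
      (ae_restrict_of_ae_restrict_of_subset (Ioc_subset_Ioc_right ht.2) (hRv _))
  refine ⟨?_, ?_⟩
  · rw [← hEv, hpair, map_add, map_sub, ← hW', ← he, hEv, hrev T ⟨hT.le, le_rfl⟩, sub_self,
      S.toSm.traj_zero]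
    exact hy1
  · rw [hpair, map_add, map_sub]
    have hv : ∀ᵐ t ∂volume.restrict (Ioc (0 : ℝ) T), Lf (S.rho (W b₀), Rv (Fl (b₀, 0))) t =
        S.rhoV (Lf (b₀, Fl (b₀, 0)) (T - t)) := by
      have h1 := hLf.eq (S.rho (W b₀)) (Rv (Fl (b₀, 0)))
      have h2 := (RussellAux.mp_rev T).quasiMeasurePreserving.ae (hLf.eq b₀ (Fl (b₀, 0)))
      filter_upwards [h1, h2, ae_restrict_mem measurableSet_Ioc] with t ht1 ht2 ht
      refine S.inj ?_
      rw [ht1, S.inc_rhoV, ht2]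
      exact hrev t ⟨ht.1.le, ht.2⟩
    have hPld : ∀ p, S.P (S.ld p) = S.P (S.l p) := by
      intro p
      have h1 : S.ld p = S.l p - (S.inc p - S.P (S.inc p)) := rfl
      rw [h1, map_sub, map_sub, S.P_P, sub_self, sub_zero]
    have h1 := hFl a₀ 0
    have h2 := (RussellAux.mp_rev T).quasiMeasurePreserving.ae (hFl b₀ 0)
    have h3 := hFl 0 g
    have h4 := Lp.coeFn_zero H 1 ((volume : Measure ℝ).restrict (Ioc 0 T))
    have h5 := (RussellAux.mp_rev T).quasiMeasurePreserving.ae h4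
    have h6 := hRv (Fl (b₀, 0))
    have h7 := Lp.coeFn_add (Fl (a₀, 0) - Rv (Fl (b₀, 0))) (Fl (0, g))
    have h8 := Lp.coeFn_sub (Fl (a₀, 0)) (Rv (Fl (b₀, 0)))
    have h9 := Lp.coeFn_add (Lf (a₀, Fl (a₀, 0)) - Lf (S.rho (W b₀), Rv (Fl (b₀, 0))))
      (Lf (0, Fl (0, g)))
    have h10 := Lp.coeFn_sub (Lf (a₀, Fl (a₀, 0))) (Lf (S.rho (W b₀), Rv (Fl (b₀, 0))))
    filter_upwards [hv, h1, h2, h3, h4, h5, h6, h7, h8, h9, h10] with t hv h1 h2 h3 h4 h5 h6 h7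
      h8 h9 h10
    rw [h9, Pi.add_apply, h10, Pi.sub_apply, h7, Pi.add_apply, h8, Pi.sub_apply, h6, hv, h1, h2, h3,
      h4, h5, Pi.zero_apply, Pi.zero_apply, add_zero, add_zero, sub_neg_eq_add]
    simp only [map_add, map_sub, hPld, S.P_rho, S.l_rho, map_neg]
    abel

end Pool.Agent.Kdv
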