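import Mathlib

/-!
# The spaces of boundary data, the test functions
-/

set_option autoImplicit false

namespace Pool.Agent.Kdv

open MeasureTheory Filter Topology Set
open scoped ENNReal ContDiff

/-- The square of the norm of `h` in `H^{1/3}(0, T)`:
`∫ |h|² + ∬ |h(t) - h(s)|² / |t - s|^{1 + 2/3}`. -/
noncomputable def sob (T : ℝ) (h : ℝ → ℝ) : ℝ≥0∞ :=
  (∫⁻ t in Ioo 0 T, ‖h t‖ₑ ^ 2) +
    ∫⁻ t in Ioo 0 T, ∫⁻ s in Ioo 0 T,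
      ‖h t - h s‖ₑ ^ 2 / ENNReal.ofReal (|t - s| ^ (5 / 3 : ℝ))

/-- `h ∈ H^{1/3}(0, T)`. -/
def InH13 (T : ℝ) (h : ℝ → ℝ) : Prop :=
  AEStronglyMeasurable h (volume.restrict (Ioo 0 T)) ∧ sob T h < ⊤

/-- `h ∈ L²(0, T)`. -/
def InL2 (T : ℝ) (h : ℝ → ℝ) : Prop :=
  AEStronglyMeasurable h (volume.restrict (Ioo 0 T)) ∧ ∫⁻ t in Ioo 0 T, ‖h t‖ₑ ^ 2 < ⊤

/-- `F ∈ H^{-1/3}(0, T)`, the dual of `H^{1/3}(0, T)`: `F` is a linear functional on smooth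
functions which is bounded in the norm of `H^{1/3}(0, T)`. -/
structure InHm13 (T : ℝ) (F : (ℝ → ℝ) → ℝ) : Prop where
  add : ∀ φ χ : ℝ → ℝ, ContDiff ℝ ∞ φ → ContDiff ℝ ∞ χ → F (fun t => φ t + χ t) = F φ + F χ
  smul : ∀ (r : ℝ) (φ : ℝ → ℝ), ContDiff ℝ ∞ φ → F (fun t => r * φ t) = r * F φ
  bound : ∃ C : ℝ, ∀ φ : ℝ → ℝ, ContDiff ℝ ∞ φ → |F φ| ≤ C * √(sob T φ).toReal

/-- The test functions `φ(t, x)`: smooth, with `φ = φ_x = 0` at `x = 0` and `φ_xx = 0` at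
`x = L`. -/
structure Test (L T : ℝ) (φ : ℝ → ℝ → ℝ) : Prop where
  smooth : ContDiff ℝ ∞ (Function.uncurry φ)
  left0 : ∀ t ∈ Icc 0 T, φ t 0 = 0
  left1 : ∀ t ∈ Icc 0 T, deriv (φ t) 0 = 0
  right2 : ∀ t ∈ Icc 0 T, iteratedDeriv 2 (φ t) L = 0

end Pool.Agent.Kdv
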