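import Pool.Agent.Lib.MP_78c35a_an.Sob
import Pool.Agent.Lib.MP_78c35a_an.Aw

/-!
# The weak form of the equation, nice initial values
-/

set_option autoImplicit false

namespace Pool.Agent.Kdv

open MeasureTheory Filter Topology Set
open scoped ENNReal ContDiff SchwartzMap

namespace WeakN

/-- The derivative in the second variable. -/
noncomputable def dx (F : ℝ × ℝ → ℝ) (p : ℝ × ℝ) : ℝ := fderiv ℝ F p (0, 1)

/-- The derivative in the first variable. -/
noncomputable def dt (F : ℝ × ℝ → ℝ) (p : ℝ × ℝ) : ℝ := fderiv ℝ F p (1, 0)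

theorem contDiff_dx {F : ℝ × ℝ → ℝ} (h : ContDiff ℝ ∞ F) : ContDiff ℝ ∞ (dx F) :=
  (h.fderiv_right (m := ∞) (by norm_cast)).clm_apply contDiff_const

theorem contDiff_dt {F : ℝ × ℝ → ℝ} (h : ContDiff ℝ ∞ F) : ContDiff ℝ ∞ (dt F) :=
  (h.fderiv_right (m := ∞) (by norm_cast)).clm_apply contDiff_const

theorem hasDerivAt_dx {F : ℝ × ℝ → ℝ} (h : ContDiff ℝ ∞ F) (t x : ℝ) :
    HasDerivAt (fun y => F (t, y)) (dx F (t, x)) x := by
  have h1 : HasFDerivAt F (fderiv ℝ F (t, x)) (t, x) :=
    ((h.differentiable (by simp)) (t, x)).hasFDerivAt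
  have h2 : HasDerivAt (fun y : ℝ => (t, y)) ((0 : ℝ), (1 : ℝ)) x :=
    (hasDerivAt_const x t).prodMk (hasDerivAt_id x)
  exact h1.comp_hasDerivAt x h2

theorem hasDerivAt_dt {F : ℝ × ℝ → ℝ} (h : ContDiff ℝ ∞ F) (t x : ℝ) :
    HasDerivAt (fun r => F (r, x)) (dt F (t, x)) t := by
  have h1 : HasFDerivAt F (fderiv ℝ F (t, x)) (t, x) :=
    ((h.differentiable (by simp)) (t, x)).hasFDerivAt
  have h2 : HasDerivAt (fun r : ℝ => (r, x)) ((1 : ℝ), (0 : ℝ)) t :=
    (hasDerivAt_id t).prodMk (hasDerivAt_const t x)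
  exact h1.comp_hasDerivAt t h2

/-- The swap of the integrals of a continuous function. -/
theorem swap {F : ℝ → ℝ → ℝ} (hF : Continuous (Function.uncurry F)) {s T L : ℝ} (hs : s ≤ T)
    (hL : 0 ≤ L) : ∫ t in s..T, ∫ x in (0 : ℝ)..L, F t x = ∫ x in (0 : ℝ)..L, ∫ t in s..T, F t x := by
  simp only [intervalIntegral.integral_of_le hs, intervalIntegral.integral_of_le hL]
  apply integral_integral_swap
  rw [Measure.prod_restrict]
  exact ((hF.continuousOn.integrableOn_compact (isCompact_Icc.prod isCompact_Icc)).mono_set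
    (prod_mono Ioc_subset_Icc_self Ioc_subset_Icc_self))

theorem setIntegral_Ioo {f : ℝ → ℝ} {L : ℝ} (hL : 0 ≤ L) :
    ∫ x in Ioo 0 L, f x = ∫ x in (0 : ℝ)..L, f x := by
  rw [intervalIntegral.integral_of_le hL, integral_Ioc_eq_integral_Ioo]

end WeakN

open WeakN

theorem weak_nice {L μ T : ℝ} (hL : 0 < L) {G : 𝓢(ℝ, ℂ)} {g : ℝ → ℝ}
    (h : IsNice G g) {s : ℝ} (hs : s ∈ Icc 0 T) {φ : ℝ → ℝ → ℝ} (hφ : Test L T φ) :
    (∫ x in Ioo 0 L, (aw G 0 (μ * (T - s)) x).re * φ T x) - ∫ x in Ioo 0 L, g x * φ s x =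
      (∫ t in s..T, ∫ x in Ioo 0 L, (aw G 0 (μ * (t - s)) x).re *
        (deriv (fun r => φ r x) t + μ * iteratedDeriv 3 (φ t) x)) -
      μ * (∫ t in s..T, (aw G 2 (μ * (t - s)) L).re * φ t L) +
      μ * (∫ t in s..T, (aw G 1 (μ * (t - s)) L).re * deriv (φ t) L) +
      μ * ∫ t in s..T, (aw G 0 (μ * (t - s)) 0).re * iteratedDeriv 2 (φ t) 0 := by
  set F : ℝ × ℝ → ℝ := Function.uncurry φ with hF
  have c0 : ContDiff ℝ ∞ F := hφ.smooth
  have c1 := contDiff_dx c0
  have c2 := contDiff_dx c1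
  have c3 := contDiff_dx c2
  have ct := contDiff_dt c0
  -- derivatives of φ
  have e1 : ∀ t x, deriv (φ t) x = dx F (t, x) := fun t x => (hasDerivAt_dx c0 t x).deriv
  have e1' : ∀ t, deriv (φ t) = fun x => dx F (t, x) := fun t => funext (e1 t)
  have e2 : ∀ t x, iteratedDeriv 2 (φ t) x = dx (dx F) (t, x) := by
    intro t x
    rw [iteratedDeriv_succ, iteratedDeriv_one, e1']
    exact (hasDerivAt_dx c1 t x).deriv
  have e3 : ∀ t x, iteratedDeriv 3 (φ t) x = dx (dx (dx F)) (t, x) := by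
    intro t x
    have h2 : iteratedDeriv 2 (φ t) = fun x => dx (dx F) (t, x) := funext (e2 t)
    rw [iteratedDeriv_succ, h2]
    exact (hasDerivAt_dx c2 t x).deriv
  have et : ∀ t x, deriv (fun r => φ r x) t = dt F (t, x) := fun t x =>
    (hasDerivAt_dt c0 t x).deriv
  -- the solution
  set U : ℕ → ℝ → ℝ → ℝ := fun k t x => (aw G k (μ * (t - s)) x).re with hU
  have ucont : ∀ k, Continuous (Function.uncurry (U k)) := by
    intro k
    have h1 : Continuous fun p : ℝ × ℝ => aw G k (μ * (p.1 - s)) p.2 :=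
      (aw_cont G k).comp (by fun_prop : Continuous fun p : ℝ × ℝ => (μ * (p.1 - s), p.2))
    exact Complex.continuous_re.comp h1
  have ux : ∀ k t x, HasDerivAt (U k t) (U (k + 1) t x) x := fun k t x =>
    Complex.reCLM.hasFDerivAt.comp_hasDerivAt x (aw_deriv_x G k (μ * (t - s)) x)
  have ut : ∀ t x, HasDerivAt (fun r => U 0 r x) (-μ * U 3 t x) t := by
    intro t x
    have h1 : HasDerivAt (fun r : ℝ => μ * (r - s)) μ t := by
      have := ((hasDerivAt_id t).sub_const s).const_mul μ
      simpa using this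
    have h2 := (aw_deriv_c G 0 (μ * (t - s)) x).scomp t h1
    have h3 := Complex.reCLM.hasFDerivAt.comp_hasDerivAt t h2
    have h4 : Complex.reCLM (μ • -aw G (0 + 3) (μ * (t - s)) x) = -μ * U 3 t x := by
      simp [hU]
    rw [h4] at h3
    exact h3
  -- the time derivative
  set K : ℝ → ℝ → ℝ := fun t x => -μ * U 3 t x * F (t, x) + U 0 t x * dt F (t, x) with hK
  have kcont : Continuous (Function.uncurry K) :=
    (((continuous_const.mul (ucont 3)).mul c0.continuous).add
      ((ucont 0).mul ct.continuous))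
  have kt : ∀ t x, HasDerivAt (fun r => U 0 r x * F (r, x)) (K t x) t := fun t x =>
    (ut t x).mul (hasDerivAt_dt c0 t x)
  have hLHS : (∫ x in Ioo 0 L, (aw G 0 (μ * (T - s)) x).re * φ T x) -
      ∫ x in Ioo 0 L, g x * φ s x = ∫ x in (0 : ℝ)..L, ∫ t in s..T, K t x := by
    have h1 : ∀ x, ∫ t in s..T, K t x = U 0 T x * F (T, x) - U 0 s x * F (s, x) := fun x =>
      intervalIntegral.integral_eq_sub_of_hasDerivAt (fun t _ => kt t x)
        ((kcont.comp (by fun_prop : Continuous fun t : ℝ => (t, x))).intervalIntegrable _ _)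
    have h2 : ∀ x, U 0 s x = g x := by
      intro x
      simp only [hU]
      rw [sub_self, mul_zero, aw_zero, h x, Complex.ofReal_re]
    simp only [h1, h2]
    have h3 : Continuous fun x => U 0 T x * F (T, x) :=
      ((ucont 0).comp (by fun_prop : Continuous fun x : ℝ => (T, x))).mul
        (c0.continuous.comp (by fun_prop : Continuous fun x : ℝ => (T, x)))
    have h4 : Continuous fun x => g x * F (s, x) := by
      have h5 : Continuous fun x => U 0 s x * F (s, x) :=
        ((ucont 0).comp (by fun_prop : Continuous fun x : ℝ => (s, x))).mul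
          (c0.continuous.comp (by fun_prop : Continuous fun x : ℝ => (s, x)))
      simpa only [h2] using h5
    rw [intervalIntegral.integral_sub (h3.intervalIntegrable _ _) (h4.intervalIntegrable _ _),
      setIntegral_Ioo hL.le, setIntegral_Ioo hL.le]
    rfl
  rw [hLHS, ← swap kcont hs.2 hL.le]
  -- the space integral
  have hx : ∀ t ∈ Icc s T, ∫ x in (0 : ℝ)..L, K t x =
      (∫ x in (0 : ℝ)..L, U 0 t x * (dt F (t, x) + μ * dx (dx (dx F)) (t, x))) -
        μ * (U 2 t L * F (t, L)) + μ * (U 1 t L * dx F (t, L)) +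
        μ * (U 0 t 0 * dx (dx F) (t, 0)) := by
    intro t ht
    have ht' : t ∈ Icc 0 T := ⟨hs.1.trans ht.1, ht.2⟩
    set Ψ : ℝ → ℝ := fun x => U 2 t x * F (t, x) - U 1 t x * dx F (t, x) +
      U 0 t x * dx (dx F) (t, x) with hΨ
    have h1 : ∀ x, HasDerivAt Ψ (U 3 t x * F (t, x) + U 0 t x * dx (dx (dx F)) (t, x)) x := by
      intro x
      have a1 := (ux 2 t x).mul (hasDerivAt_dx c0 t x)
      have a2 := (ux 1 t x).mul (hasDerivAt_dx c1 t x)
      have a3 := (ux 0 t x).mul (hasDerivAt_dx c2 t x)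
      have a4 := (a1.sub a2).add a3
      refine a4.congr_deriv ?_
      simp only [Nat.reduceAdd, zero_add]
      ring
    have cx : ∀ {f : ℝ × ℝ → ℝ}, Continuous f → Continuous fun x : ℝ => f (t, x) := fun hf =>
      hf.comp (by fun_prop : Continuous fun x : ℝ => (t, x))
    have u3 := cx (ucont 3)
    have u0 := cx (ucont 0)
    have f0 := cx c0.continuous
    have f3 := cx c3.continuous
    have ft := cx ct.continuous
    have h2 : ∫ x in (0 : ℝ)..L, (U 3 t x * F (t, x) + U 0 t x * dx (dx (dx F)) (t, x)) =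
        Ψ L - Ψ 0 :=
      intervalIntegral.integral_eq_sub_of_hasDerivAt (fun x _ => h1 x)
        (((u3.mul f0).add (u0.mul f3)).intervalIntegrable _ _)
    have l0 : F (t, 0) = 0 := hφ.left0 t ht'
    have l1 : dx F (t, 0) = 0 := by rw [← e1]; exact hφ.left1 t ht'
    have r2 : dx (dx F) (t, L) = 0 := by rw [← e2]; exact hφ.right2 t ht'
    have h3 : Ψ L - Ψ 0 = U 2 t L * F (t, L) - U 1 t L * dx F (t, L) -
        U 0 t 0 * dx (dx F) (t, 0) := by
      simp only [hΨ]
      rw [l0, l1, r2]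
      ring
    have h4 : ∀ x, K t x = U 0 t x * (dt F (t, x) + μ * dx (dx (dx F)) (t, x)) -
        μ * (U 3 t x * F (t, x) + U 0 t x * dx (dx (dx F)) (t, x)) := by
      intro x
      simp only [hK]
      ring
    have i1 : IntervalIntegrable (fun x => U 0 t x * (dt F (t, x) + μ * dx (dx (dx F)) (t, x)))
        volume 0 L := (u0.mul (ft.add (continuous_const.mul f3))).intervalIntegrable _ _
    have i2 : IntervalIntegrable (fun x => μ * (U 3 t x * F (t, x) +
        U 0 t x * dx (dx (dx F)) (t, x))) volume 0 L :=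
      (continuous_const.mul ((u3.mul f0).add (u0.mul f3))).intervalIntegrable _ _
    simp only [h4]
    rw [intervalIntegral.integral_sub i1 i2, intervalIntegral.integral_const_mul, h2, h3]
    ring
  have hcongr : ∫ t in s..T, ∫ x in (0 : ℝ)..L, K t x = ∫ t in s..T,
      ((∫ x in (0 : ℝ)..L, U 0 t x * (dt F (t, x) + μ * dx (dx (dx F)) (t, x))) -
        μ * (U 2 t L * F (t, L)) + μ * (U 1 t L * dx F (t, L)) +
        μ * (U 0 t 0 * dx (dx F) (t, 0))) := by
    refine intervalIntegral.integral_congr fun t ht => ?_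
    rw [uIcc_of_le hs.2] at ht
    exact hx t ht
  rw [hcongr]
  -- integrability in time
  have ctt : ∀ {f : ℝ × ℝ → ℝ} (x : ℝ), Continuous f → Continuous fun t : ℝ => f (t, x) :=
    fun x hf => hf.comp (by fun_prop : Continuous fun t : ℝ => (t, x))
  have j0 : Continuous fun t => ∫ x in (0 : ℝ)..L,
      U 0 t x * (dt F (t, x) + μ * dx (dx (dx F)) (t, x)) := by
    refine intervalIntegral.continuous_parametric_intervalIntegral_of_continuous' ?_ 0 L
    exact (ucont 0).mul (ct.continuous.add (continuous_const.mul c3.continuous))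
  have j1 : Continuous fun t => μ * (U 2 t L * F (t, L)) :=
    continuous_const.mul ((ctt L (ucont 2)).mul (ctt L c0.continuous))
  have j2 : Continuous fun t => μ * (U 1 t L * dx F (t, L)) :=
    continuous_const.mul ((ctt L (ucont 1)).mul (ctt L c1.continuous))
  have j3 : Continuous fun t => μ * (U 0 t 0 * dx (dx F) (t, 0)) :=
    continuous_const.mul ((ctt 0 (ucont 0)).mul (ctt 0 c2.continuous))
  have k1 : Continuous fun t => (∫ x in (0 : ℝ)..L,
      U 0 t x * (dt F (t, x) + μ * dx (dx (dx F)) (t, x))) - μ * (U 2 t L * F (t, L)) :=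
    j0.sub j1
  have k2 : Continuous fun t => (∫ x in (0 : ℝ)..L,
      U 0 t x * (dt F (t, x) + μ * dx (dx (dx F)) (t, x))) - μ * (U 2 t L * F (t, L)) +
      μ * (U 1 t L * dx F (t, L)) := k1.add j2
  rw [intervalIntegral.integral_add (k2.intervalIntegrable _ _) (j3.intervalIntegrable _ _),
    intervalIntegral.integral_add (k1.intervalIntegrable _ _) (j2.intervalIntegrable _ _),
    intervalIntegral.integral_sub (j0.intervalIntegrable _ _) (j1.intervalIntegrable _ _),
    intervalIntegral.integral_const_mul, intervalIntegral.integral_const_mul,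
    intervalIntegral.integral_const_mul]
  simp only [setIntegral_Ioo hL.le, e1, e2, e3, et]
  rfl

end Pool.Agent.Kdv
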