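import Pool.Agent.Lib.MP_78c35a_an.TrDef
import Pool.Agent.Lib.MP_78c35a_an.KatoN
import Pool.Agent.Lib.MP_78c35a_an.WeakN

/-!
# Traces: the force is an indicator function of time times a nice function (task TrInd)
-/

set_option autoImplicit false

namespace Pool.Agent.Kdv

open MeasureTheory Filter Topology Set
open scoped ENNReal ContDiff SchwartzMap

namespace TI

/-- Cauchy-Schwarz. -/
theorem cs {α : Type} [MeasurableSpace α] {ν : Measure α} {f : α → ℝ≥0∞} (hf : AEMeasurable f ν) :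
    (∫⁻ x, f x ∂ν) ^ 2 ≤ ν univ * ∫⁻ x, f x ^ 2 ∂ν := by
  have h := ENNReal.lintegral_mul_le_Lp_mul_Lq ν Real.HolderConjugate.two_two hf
    (aemeasurable_const (b := (1 : ℝ≥0∞)))
  have h1 : ∫⁻ x, (f * (fun _ => (1 : ℝ≥0∞)) : α → ℝ≥0∞) x ∂ν = ∫⁻ x, f x ∂ν :=
    lintegral_congr fun x => mul_one _
  have h2 : ∫⁻ _x : α, (1 : ℝ≥0∞) ^ (2 : ℝ) ∂ν = ν univ := by
    rw [ENNReal.one_rpow, lintegral_one]
  have h3 : ∀ a : ℝ≥0∞, (a ^ (1 / 2 : ℝ)) ^ 2 = a := fun a => by
    rw [← ENNReal.rpow_natCast, ← ENNReal.rpow_mul]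
    norm_num
  have h4 : ∫⁻ x, f x ^ (2 : ℝ) ∂ν = ∫⁻ x, f x ^ 2 ∂ν :=
    lintegral_congr fun x => by rw [← ENNReal.rpow_natCast]; norm_num
  rw [h1, h2, h4] at h
  calc (∫⁻ x, f x ∂ν) ^ 2 ≤ ((∫⁻ x, f x ^ 2 ∂ν) ^ (1 / 2 : ℝ) * (ν univ) ^ (1 / 2 : ℝ)) ^ 2 := by
        gcongr
    _ = ν univ * ∫⁻ x, f x ^ 2 ∂ν := by rw [mul_pow, h3, h3, mul_comm]

theorem int_sq {α : Type} [MeasurableSpace α] {ν : Measure α} {f : α → ℝ}
    (hf : AEStronglyMeasurable f ν) :
    ‖∫ x, f x ∂ν‖ₑ ^ 2 ≤ ν univ * ∫⁻ x, ‖f x‖ₑ ^ 2 ∂ν := by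
  have h1 := enorm_integral_le_lintegral_enorm (μ := ν) f
  calc ‖∫ x, f x ∂ν‖ₑ ^ 2 ≤ (∫⁻ x, ‖f x‖ₑ ∂ν) ^ 2 := by gcongr
    _ ≤ _ := cs hf.enorm

theorem int_E {E : Set ℝ} (hE : volume E ≠ ⊤) {f : ℝ → ℝ} (hf : Measurable f) {M : ℝ}
    (hb : ∀ s, |f s| ≤ M) : IntegrableOn f E := by
  have : IsFiniteMeasure (volume.restrict E) := ⟨by
    rw [Measure.restrict_apply_univ]; exact lt_top_iff_ne_top.2 hE⟩
  exact Integrable.of_bound hf.aestronglyMeasurable M (Eventually.of_forall fun s => hb s)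

theorem sq_int {T : ℝ} {E : Set ℝ} {k : ℝ → ℝ → ℝ}
    (hk : Measurable (Function.uncurry k)) :
    ∫⁻ t in Ioo 0 T, ‖∫ s in E, k s t‖ₑ ^ 2 ≤
      volume E * ∫⁻ s in E, ∫⁻ t in Ioo 0 T, ‖k s t‖ₑ ^ 2 := by
  have h1 : ∀ t, ‖∫ s in E, k s t‖ₑ ^ 2 ≤ volume E * ∫⁻ s in E, ‖k s t‖ₑ ^ 2 := by
    intro t
    have hm : Measurable fun s => k s t := hk.comp (measurable_id.prodMk measurable_const)
    have := int_sq (ν := volume.restrict E) hm.aestronglyMeasurable
    rwa [Measure.restrict_apply_univ] at this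
  have hm : Measurable fun p : ℝ × ℝ => ‖k p.2 p.1‖ₑ ^ 2 :=
    (hk.comp measurable_swap).enorm.pow_const 2
  calc ∫⁻ t in Ioo 0 T, ‖∫ s in E, k s t‖ₑ ^ 2
      ≤ ∫⁻ t in Ioo 0 T, volume E * ∫⁻ s in E, ‖k s t‖ₑ ^ 2 := lintegral_mono h1
    _ = volume E * ∫⁻ t in Ioo 0 T, ∫⁻ s in E, ‖k s t‖ₑ ^ 2 :=
        lintegral_const_mul _ (hm.lintegral_prod_right')
    _ = volume E * ∫⁻ s in E, ∫⁻ t in Ioo 0 T, ‖k s t‖ₑ ^ 2 := by
        rw [lintegral_lintegral_swap hm.aemeasurable]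

theorem ton {A E : Set ℝ} (c : ℝ≥0∞) {F : (ℝ × ℝ) × ℝ → ℝ≥0∞} (hF : Measurable F) :
    ∫⁻ t in A, ∫⁻ t' in A, c * ∫⁻ s in E, F ((t, t'), s) =
      c * ∫⁻ s in E, ∫⁻ t in A, ∫⁻ t' in A, F ((t, t'), s) := by
  have e2 : ∀ t, ∫⁻ t' in A, c * ∫⁻ s in E, F ((t, t'), s) =
      c * ∫⁻ s in E, ∫⁻ t' in A, F ((t, t'), s) := by
    intro t
    have m0 : Measurable fun q : ℝ × ℝ => (((t, q.1), q.2) : (ℝ × ℝ) × ℝ) := by fun_prop
    have m1 : Measurable fun q : ℝ × ℝ => F ((t, q.1), q.2) := hF.comp m0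
    rw [lintegral_const_mul _ (m1.lintegral_prod_right'),
      lintegral_lintegral_swap (f := fun t' s => F ((t, t'), s)) m1.aemeasurable]
  have m2 : Measurable fun q : ℝ × ℝ => ∫⁻ t' in A, F ((q.1, t'), q.2) := by
    have m0 : Measurable fun q : (ℝ × ℝ) × ℝ => (((q.1.1, q.2), q.1.2) : (ℝ × ℝ) × ℝ) := by
      fun_prop
    have m3 : Measurable fun q : (ℝ × ℝ) × ℝ => F ((q.1.1, q.2), q.1.2) := hF.comp m0
    exact m3.lintegral_prod_right'
  calc ∫⁻ t in A, ∫⁻ t' in A, c * ∫⁻ s in E, F ((t, t'), s)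
      = ∫⁻ t in A, c * ∫⁻ s in E, ∫⁻ t' in A, F ((t, t'), s) := lintegral_congr fun t => e2 t
    _ = c * ∫⁻ t in A, ∫⁻ s in E, ∫⁻ t' in A, F ((t, t'), s) :=
        lintegral_const_mul _ (m2.lintegral_prod_right')
    _ = c * ∫⁻ s in E, ∫⁻ t in A, ∫⁻ t' in A, F ((t, t'), s) := by
        rw [lintegral_lintegral_swap (f := fun t s => ∫⁻ t' in A, F ((t, t'), s))
          m2.aemeasurable]

theorem dbl {T : ℝ} {E : Set ℝ} (hE : volume E ≠ ⊤)
    {k : ℝ → ℝ → ℝ} (hk : Measurable (Function.uncurry k)) {M : ℝ} (hb : ∀ s t, |k s t| ≤ M)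
    {w : ℝ × ℝ → ℝ≥0∞} (hw : Measurable w) :
    ∫⁻ t in Ioo 0 T, ∫⁻ t' in Ioo 0 T, ‖(∫ s in E, k s t) - ∫ s in E, k s t'‖ₑ ^ 2 * w (t, t') ≤
      volume E * ∫⁻ s in E, ∫⁻ t in Ioo 0 T, ∫⁻ t' in Ioo 0 T,
        ‖k s t - k s t'‖ₑ ^ 2 * w (t, t') := by
  have hks : ∀ t, Measurable fun s => k s t := fun t =>
    hk.comp (measurable_id.prodMk measurable_const)
  have hFw : Measurable fun q : (ℝ × ℝ) × ℝ => ‖k q.2 q.1.1 - k q.2 q.1.2‖ₑ ^ 2 * w q.1 := by
    have e1 : Measurable fun q : (ℝ × ℝ) × ℝ => k q.2 q.1.1 :=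
      hk.comp (measurable_snd.prodMk measurable_fst.fst)
    have e2 : Measurable fun q : (ℝ × ℝ) × ℝ => k q.2 q.1.2 :=
      hk.comp (measurable_snd.prodMk measurable_fst.snd)
    exact ((e1.sub e2).enorm.pow_const 2).mul (hw.comp measurable_fst)
  have h1 : ∀ t t', ‖(∫ s in E, k s t) - ∫ s in E, k s t'‖ₑ ^ 2 * w (t, t') ≤
      volume E * ∫⁻ s in E, ‖k s t - k s t'‖ₑ ^ 2 * w (t, t') := by
    intro t t'
    rw [← integral_sub (int_E hE (hks t) fun s => hb s t) (int_E hE (hks t') fun s => hb s t')]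
    have h2 := int_sq (ν := volume.restrict E) (f := fun s => k s t - k s t')
      ((hks t).sub (hks t')).aestronglyMeasurable
    rw [Measure.restrict_apply_univ] at h2
    have h3 : Measurable fun s => ‖k s t - k s t'‖ₑ ^ 2 :=
      ((hks t).sub (hks t')).enorm.pow_const 2
    rw [lintegral_mul_const _ h3, ← mul_assoc]
    gcongr
  refine (lintegral_mono fun t => lintegral_mono fun t' => h1 t t').trans ?_
  exact (ton (volume E) hFw).le

theorem sob_eq (T : ℝ) (h : ℝ → ℝ) : sob T h = (∫⁻ t in Ioo 0 T, ‖h t‖ₑ ^ 2) +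
    ∫⁻ t in Ioo 0 T, ∫⁻ t' in Ioo 0 T, ‖h t - h t'‖ₑ ^ 2 *
      (fun p : ℝ × ℝ => (ENNReal.ofReal (|p.1 - p.2| ^ (5 / 3 : ℝ)))⁻¹) (t, t') := by
  unfold sob
  congr 1

theorem sob_int {T : ℝ} {E : Set ℝ} (hEm : MeasurableSet E) (hE : volume E ≠ ⊤)
    {k : ℝ → ℝ → ℝ} (hk : Measurable (Function.uncurry k)) {M : ℝ} (hb : ∀ s t, |k s t| ≤ M)
    {B : ℝ≥0∞} (h : ∀ s ∈ E, sob T (k s) ≤ B) :
    sob T (fun t => ∫ s in E, k s t) ≤ volume E * (volume E * B) := by
  have hw : Measurable fun p : ℝ × ℝ => (ENNReal.ofReal (|p.1 - p.2| ^ (5 / 3 : ℝ)))⁻¹ := by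
    fun_prop
  have hA := sq_int (T := T) (E := E) hk
  have hD := dbl (T := T) hE hk hb hw
  have m4 : Measurable fun s => ∫⁻ t in Ioo 0 T, ‖k s t‖ₑ ^ 2 :=
    (hk.enorm.pow_const 2).lintegral_prod_right'
  have e1 : ∀ s, sob T (k s) = _ := fun s => sob_eq T (k s)
  rw [sob_eq]
  refine (add_le_add hA hD).trans ?_
  rw [← mul_add, ← lintegral_add_left m4]
  gcongr 1
  refine (setLIntegral_mono' (g := fun _ => B) hEm fun s hs => ?_).trans ?_
  · rw [← sob_eq]
    exact h s hs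
  · rw [lintegral_const, Measure.restrict_apply_univ, mul_comm B]

theorem fub {T : ℝ} {E : Set ℝ} (hEm : MeasurableSet E) (hET : E ⊆ Ioc 0 T) {k : ℝ → ℝ → ℝ}
    (hk : Continuous (Function.uncurry k)) :
    IntegrableOn (fun s => ∫ t in s..T, k s t) E ∧
    IntegrableOn (fun t => ∫ s in E, (if s < t then k s t else 0)) (Ioo 0 T) ∧
    (∫ s in E, ∫ t in s..T, k s t) = ∫ t in Ioo 0 T, ∫ s in E, (if s < t then k s t else 0) := by
  obtain ⟨M, hM⟩ := (isCompact_Icc (a := (0 : ℝ)) (b := T)).prod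
    (isCompact_Icc (a := (0 : ℝ)) (b := T)) |>.exists_bound_of_continuousOn hk.continuousOn
  have hE : volume E ≠ ⊤ := ne_top_of_le_ne_top (by simp) (measure_mono hET)
  have hm : Measurable fun p : ℝ × ℝ => if p.1 < p.2 then k p.1 p.2 else 0 :=
    Measurable.ite (measurableSet_lt measurable_fst measurable_snd) hk.measurable
      measurable_const
  have hint : Integrable (fun p : ℝ × ℝ => if p.1 < p.2 then k p.1 p.2 else 0)
      ((volume.restrict E).prod (volume.restrict (Ioo 0 T))) := by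
    have : IsFiniteMeasure (volume.restrict E) := ⟨by
      rw [Measure.restrict_apply_univ]; exact lt_top_iff_ne_top.2 hE⟩
    refine Integrable.of_bound hm.aestronglyMeasurable (max M 0) ?_
    rw [Measure.prod_restrict]
    refine ae_restrict_of_forall_mem (hEm.prod measurableSet_Ioo) fun p hp => ?_
    split_ifs with h
    · refine (hM p ⟨?_, ?_⟩).trans (le_max_left _ _)
      · exact Ioc_subset_Icc_self (hET hp.1)
      · exact Ioo_subset_Icc_self hp.2
    · rw [norm_zero]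
      exact le_max_right _ _
  have key : ∀ s ∈ E, ∫ t in Ioo 0 T, (if s < t then k s t else 0) = ∫ t in s..T, k s t := by
    intro s hs
    have hs' := hET hs
    rw [intervalIntegral.integral_of_le hs'.2, integral_Ioc_eq_integral_Ioo,
      ← integral_indicator measurableSet_Ioo, ← integral_indicator measurableSet_Ioo]
    congr 1
    funext t
    by_cases h1 : s < t
    · by_cases h2 : t < T
      · rw [indicator_of_mem (show t ∈ Ioo 0 T from ⟨hs'.1.trans h1, h2⟩),
          indicator_of_mem (show t ∈ Ioo s T from ⟨h1, h2⟩), if_pos h1]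
      · rw [indicator_of_notMem fun h => h2 h.2, indicator_of_notMem fun h => h2 h.2]
    · rw [indicator_of_notMem (s := Ioo s T) fun h => h1 h.1]
      by_cases h3 : t ∈ Ioo 0 T
      · rw [indicator_of_mem h3, if_neg h1]
      · rw [indicator_of_notMem h3]
  have h1 := hint.integral_prod_left
  have h2 := hint.integral_prod_right
  have h3 := integral_integral_swap (f := fun s t => if s < t then k s t else 0) hint
  refine ⟨?_, h2, ?_⟩
  · exact IntegrableOn.congr_fun h1 (fun s hs => key s hs) hEm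
  · rw [← h3]
    exact setIntegral_congr_fun hEm fun s hs => (key s hs).symm

theorem aw_c (G : 𝓢(ℝ, ℂ)) (k : ℕ) {X : Type} [TopologicalSpace X] {c x : X → ℝ}
    (hc : Continuous c) (hx : Continuous x) : Continuous fun p => aw G k (c p) (x p) := by
  have h1 := aw_cont G k
  have h2 : Continuous fun q => ((c q, x q) : ℝ × ℝ) := hc.prodMk hx
  have h3 := h1.comp h2
  exact h3

theorem aw_re_cont (G : 𝓢(ℝ, ℂ)) (k : ℕ) {X : Type} [TopologicalSpace X] {c x : X → ℝ}
    (hc : Continuous c) (hx : Continuous x) : Continuous fun p => (aw G k (c p) (x p)).re := by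
  have h3 := aw_c G k hc hx
  have h4 := Complex.continuous_re.comp h3
  exact h4

/-- The vector of `L²` which gives the integral against `w` on `J L`. -/
noncomputable def W (L : ℝ) (w : ℝ → ℝ) : L2 := toL2 ((J L).indicator w)

theorem vol_J (L : ℝ) : volume (J L) ≠ ⊤ := by
  unfold J
  simp

theorem inner_W {L : ℝ} {w : ℝ → ℝ} (hw : Measurable w) {M : ℝ} (hb : ∀ x ∈ J L, |w x| ≤ M)
    (y : L2) : inner ℝ (W L w) y = ∫ x in J L, w x * y x := by
  have hJ : MeasurableSet (J L) := measurableSet_Ioo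
  have hfin : IsFiniteMeasure (volume.restrict (J L)) := ⟨by
    rw [Measure.restrict_apply_univ]; exact lt_top_iff_ne_top.2 (vol_J L)⟩
  have hm : MemLp ((J L).indicator w) 2 volume := by
    rw [memLp_indicator_iff_restrict hJ]
    exact MemLp.of_bound hw.aestronglyMeasurable M (ae_restrict_of_forall_mem hJ hb)
  rw [L2.inner_def, ← integral_indicator hJ]
  refine integral_congr_ae ?_
  filter_upwards [toL2_ae hm] with x hx
  have : W L w x = (J L).indicator w x := hx
  rw [this]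
  by_cases h : x ∈ J L
  · rw [indicator_of_mem h, indicator_of_mem h]
    simp [mul_comm]
  · rw [indicator_of_notMem h, indicator_of_notMem h]
    simp

section traj

variable {L μ T : ℝ} (hL : 0 < L) (hμ : 0 < μ) {G : 𝓢(ℝ, ℂ)} {g : ℝ → ℝ} (hg : IsNice G g)
  {E : Set ℝ} (hEm : MeasurableSet E) (hET : E ⊆ Ioc 0 T)

include hg in
theorem inner_airy {w : ℝ → ℝ} (hw : Measurable w) {M : ℝ} (hb : ∀ x ∈ J L, |w x| ≤ M) (c : ℝ) :
    inner ℝ (W L w) (airy c (toL2 g)) = ∫ x in J L, w x * (aw G 0 c x).re := by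
  rw [inner_W hw hb]
  refine integral_congr_ae (ae_restrict_of_ae ?_)
  filter_upwards [airy_nice hg c] with x hx
  rw [hx]

include hEm hET hg in
theorem traj_pair {w : ℝ → ℝ} (hw : Measurable w) {M : ℝ} (hb : ∀ x ∈ J L, |w x| ≤ M) {t : ℝ}
    (ht : t ∈ Icc 0 T) :
    inner ℝ (W L w) ((sm1 hL hμ).traj 0 (E.indicator fun _ => toL2 g) t) =
      ∫ s in E, (if s < t then ∫ x in J L, w x * (aw G 0 (μ * (t - s)) x).re else 0) := by
  have e1 : (sm1 hL hμ).traj 0 (E.indicator fun _ => toL2 g) t =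
      ∫ s in (0 : ℝ)..t, E.indicator (fun s => airy (μ * (t - s)) (toL2 g)) s := by
    unfold Sm.traj
    rw [map_zero, zero_add]
    congr 1
    funext s
    by_cases h : s ∈ E
    · rw [indicator_of_mem h, indicator_of_mem h]
      rfl
    · rw [indicator_of_notMem h, indicator_of_notMem h, map_zero]
  have hc : Continuous fun s => airy (μ * (t - s)) (toL2 g) :=
    (airy_cont (toL2 g)).comp (by fun_prop)
  have hint : IntervalIntegrable (E.indicator fun s => airy (μ * (t - s)) (toL2 g))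
      volume 0 t := by
    rw [intervalIntegrable_iff_integrableOn_Ioc_of_le ht.1]
    exact (hc.integrableOn_Ioc).indicator hEm
  have e2 := (innerSL ℝ (W L w)).intervalIntegral_comp_comm hint
  rw [innerSL_apply_apply] at e2
  rw [e1, ← e2, intervalIntegral.integral_of_le ht.1, ← integral_indicator measurableSet_Ioc,
    ← integral_indicator hEm]
  refine integral_congr_ae ?_
  filter_upwards [(countable_singleton t).ae_notMem volume] with s hs
  by_cases h : s ∈ E
  · have hs0 := (hET h).1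
    rw [indicator_of_mem h]
    by_cases h1 : s < t
    · rw [if_pos h1, indicator_of_mem (show s ∈ Ioc 0 t from ⟨hs0, h1.le⟩), indicator_of_mem h,
        innerSL_apply_apply]
      exact inner_airy hg hw hb _
    · rw [if_neg h1, indicator_of_notMem]
      intro h2
      exact h1 (lt_of_le_of_ne h2.2 hs)
  · rw [indicator_of_notMem h]
    by_cases h1 : s ∈ Ioc 0 t
    · rw [indicator_of_mem h1, indicator_of_notMem h, map_zero]
    · rw [indicator_of_notMem h1]

include hEm hET hg in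
theorem traj_pair0 {ψ : ℝ → ℝ} (hψ : Continuous ψ) {t : ℝ} (ht : t ∈ Icc 0 T) :
    ∫ x in Ioo 0 L, ((sm1 hL hμ).traj 0 (E.indicator fun _ => toL2 g) t) x * ψ x =
      ∫ s in E, (if s < t then ∫ x in Ioo 0 L, (aw G 0 (μ * (t - s)) x).re * ψ x else 0) := by
  have hsub : Ioo 0 L ⊆ J L := Ioo_subset_Ioo (by norm_num) (by linarith)
  obtain ⟨M, hM⟩ := (isCompact_Icc (a := (0 : ℝ)) (b := L)).exists_bound_of_continuousOn
    hψ.continuousOn
  have hw : Measurable ((Ioo 0 L).indicator ψ) := hψ.measurable.indicator measurableSet_Ioo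
  have hb : ∀ x ∈ J L, |(Ioo 0 L).indicator ψ x| ≤ max M 0 := by
    intro x _
    by_cases h : x ∈ Ioo 0 L
    · rw [indicator_of_mem h]
      exact (hM x (Ioo_subset_Icc_self h)).trans (le_max_left _ _)
    · rw [indicator_of_notMem h, abs_zero]
      exact le_max_right _ _
  have conv : ∀ F : ℝ → ℝ, ∫ x in J L, (Ioo 0 L).indicator ψ x * F x =
      ∫ x in Ioo 0 L, F x * ψ x := by
    intro F
    have e : (fun x => (Ioo 0 L).indicator ψ x * F x) =
        (Ioo 0 L).indicator (fun x => F x * ψ x) := by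
      funext x
      by_cases h : x ∈ Ioo 0 L
      · rw [indicator_of_mem h, indicator_of_mem h, mul_comm]
      · rw [indicator_of_notMem h, indicator_of_notMem h, zero_mul]
    rw [e, setIntegral_indicator measurableSet_Ioo, inter_eq_right.2 hsub]
  have h1 := traj_pair hL hμ hg hEm hET hw hb ht
  rw [inner_W hw hb, conv] at h1
  rw [h1]
  simp only [conv]

include hET in
theorem F_cont (t : ℝ) : Continuous fun x => ∫ s in E,
    (if s < t then (aw G 0 (μ * (t - s)) x).re else 0) := by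
  obtain ⟨C, hC⟩ := aw_bound G 0
  have hE : volume E ≠ ⊤ := ne_top_of_le_ne_top (by simp) (measure_mono hET)
  have hfin : IsFiniteMeasure (volume.restrict E) := ⟨by
    rw [Measure.restrict_apply_univ]; exact lt_top_iff_ne_top.2 hE⟩
  have hC0 : 0 ≤ C := (norm_nonneg _).trans (hC 0 0)
  refine continuous_of_dominated (bound := fun _ => C) (fun x => ?_) (fun x => ?_)
    (integrable_const _) (Eventually.of_forall fun s => ?_)
  · refine (Measurable.ite (measurableSet_lt measurable_id measurable_const) ?_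
      measurable_const).aestronglyMeasurable
    have : Continuous fun s => (aw G 0 (μ * (t - s)) x).re :=
      aw_re_cont G 0 (by fun_prop) continuous_const
    exact this.measurable
  · refine Eventually.of_forall fun s => ?_
    split_ifs
    · exact (Complex.abs_re_le_norm _).trans (hC _ _)
    · rw [norm_zero]
      exact hC0
  · split_ifs
    · exact aw_re_cont G 0 continuous_const continuous_id
    · exact continuous_const

include hEm hET hg in
theorem traj_ae {t : ℝ} (ht : t ∈ Icc 0 T) :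
    ∀ᵐ x ∂volume, x ∈ J L →
      ((sm1 hL hμ).traj 0 (E.indicator fun _ => toL2 g) t) x =
        ∫ s in E, (if s < t then (aw G 0 (μ * (t - s)) x).re else 0) := by
  have hJ : MeasurableSet (J L) := measurableSet_Ioo
  have hfin : IsFiniteMeasure (volume.restrict (J L)) := ⟨by
    rw [Measure.restrict_apply_univ]; exact lt_top_iff_ne_top.2 (vol_J L)⟩
  have hE : volume E ≠ ⊤ := ne_top_of_le_ne_top (by simp) (measure_mono hET)
  have hfinE : IsFiniteMeasure (volume.restrict E) := ⟨by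
    rw [Measure.restrict_apply_univ]; exact lt_top_iff_ne_top.2 hE⟩
  obtain ⟨C, hC⟩ := aw_bound G 0
  have hC0 : 0 ≤ C := (norm_nonneg _).trans (hC 0 0)
  rw [← ae_restrict_iff' hJ]
  set Y := (sm1 hL hμ).traj 0 (E.indicator fun _ => toL2 g) t with hY
  have hFc := F_cont (μ := μ) (G := G) hET t
  have hb1 : ∀ s x, |(if s < t then (aw G 0 (μ * (t - s)) x).re else 0)| ≤ C := by
    intro s x
    split_ifs
    · exact (Complex.abs_re_le_norm _).trans (hC _ _)
    · rw [abs_zero]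
      exact hC0
  have hYi : Integrable Y (volume.restrict (J L)) :=
    ((Lp.memLp Y).restrict (J L)).integrable one_le_two
  have hFi : Integrable (fun x => ∫ s in E, (if s < t then (aw G 0 (μ * (t - s)) x).re else 0))
      (volume.restrict (J L)) := by
    refine Integrable.of_bound hFc.aestronglyMeasurable (C * (volume.restrict E).real univ)
      (Eventually.of_forall fun x => ?_)
    exact norm_integral_le_of_norm_le_const (Eventually.of_forall fun s => hb1 s x)
  refine Integrable.ae_eq_of_forall_setIntegral_eq _ _ hYi hFi fun A hA _ => ?_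
  have hw : Measurable (A.indicator (fun _ => (1 : ℝ))) := measurable_const.indicator hA
  have hb : ∀ x ∈ J L, |A.indicator (fun _ => (1 : ℝ)) x| ≤ 1 := by
    intro x _
    by_cases h : x ∈ A
    · rw [indicator_of_mem h, abs_one]
    · rw [indicator_of_notMem h, abs_zero]
      exact zero_le_one
  have conv : ∀ F : ℝ → ℝ, ∫ x in A, F x ∂(volume.restrict (J L)) =
      ∫ x in J L, A.indicator (fun _ => (1 : ℝ)) x * F x := by
    intro F
    rw [← integral_indicator hA]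
    congr 1
    funext x
    by_cases h : x ∈ A
    · rw [indicator_of_mem h, indicator_of_mem h, one_mul]
    · rw [indicator_of_notMem h, indicator_of_notMem h, zero_mul]
  have h1 := traj_pair hL hμ hg hEm hET hw hb ht
  rw [inner_W hw hb, ← hY] at h1
  rw [conv, h1, conv]
  have hm : Measurable fun p : ℝ × ℝ => A.indicator (fun _ => (1 : ℝ)) p.1 *
      (if p.2 < t then (aw G 0 (μ * (t - p.2)) p.1).re else 0) := by
    refine (hw.comp measurable_fst).mul (Measurable.ite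
      (measurableSet_lt measurable_snd measurable_const) ?_ measurable_const)
    have : Continuous fun p : ℝ × ℝ => (aw G 0 (μ * (t - p.2)) p.1).re :=
      aw_re_cont G 0 (by fun_prop) continuous_fst
    exact this.measurable
  have hint : Integrable (fun p : ℝ × ℝ => A.indicator (fun _ => (1 : ℝ)) p.1 *
      (if p.2 < t then (aw G 0 (μ * (t - p.2)) p.1).re else 0))
      ((volume.restrict (J L)).prod (volume.restrict E)) := by
    refine Integrable.of_bound hm.aestronglyMeasurable C (Eventually.of_forall fun p => ?_)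
    rw [norm_mul]
    have e1 : ‖A.indicator (fun _ => (1 : ℝ)) p.1‖ ≤ 1 := by
      by_cases h : p.1 ∈ A
      · rw [indicator_of_mem h, norm_one]
      · rw [indicator_of_notMem h, norm_zero]
        exact zero_le_one
    calc ‖A.indicator (fun _ => (1 : ℝ)) p.1‖ *
          ‖(if p.2 < t then (aw G 0 (μ * (t - p.2)) p.1).re else 0)‖ ≤ 1 * C :=
          mul_le_mul e1 (hb1 p.2 p.1) (norm_nonneg _) zero_le_one
      _ = C := one_mul C
  have h2 := integral_integral_swap (f := fun x s => A.indicator (fun _ => (1 : ℝ)) x *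
      (if s < t then (aw G 0 (μ * (t - s)) x).re else 0)) hint
  have h3 : ∀ s, (if s < t then ∫ x in J L, A.indicator (fun _ => (1 : ℝ)) x *
      (aw G 0 (μ * (t - s)) x).re else 0) = ∫ x in J L, A.indicator (fun _ => (1 : ℝ)) x *
      (if s < t then (aw G 0 (μ * (t - s)) x).re else 0) := by
    intro s
    split_ifs
    · rfl
    · simp
  simp only [h3]
  rw [← h2]
  refine integral_congr_ae (Eventually.of_forall fun x => ?_)
  exact integral_const_mul _ _

end traj

theorem smooth_x {φ : ℝ → ℝ → ℝ} (h : ContDiff ℝ ∞ (Function.uncurry φ)) (n : ℕ) :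
    ContDiff ℝ ∞ (fun p : ℝ × ℝ => iteratedDeriv n (φ p.1) p.2) := by
  induction n with
  | zero =>
    simp only [iteratedDeriv_zero]
    exact h
  | succ n ih =>
    have h1 : (fun p : ℝ × ℝ => iteratedDeriv (n + 1) (φ p.1) p.2) =
        fun p => fderiv ℝ (fun p : ℝ × ℝ => iteratedDeriv n (φ p.1) p.2) p (0, 1) := by
      funext p
      rw [iteratedDeriv_succ]
      have hd : HasFDerivAt (fun p : ℝ × ℝ => iteratedDeriv n (φ p.1) p.2)
          (fderiv ℝ (fun p : ℝ × ℝ => iteratedDeriv n (φ p.1) p.2) p) (p.1, p.2) :=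
        ((ih.differentiable (by simp)) p).hasFDerivAt
      have hc : HasDerivAt (fun x : ℝ => ((p.1, x) : ℝ × ℝ)) ((0 : ℝ), (1 : ℝ)) p.2 :=
        (hasDerivAt_const p.2 p.1).prodMk (hasDerivAt_id p.2)
      exact (hd.comp_hasDerivAt p.2 hc).deriv
    rw [h1]
    exact (ih.fderiv_right (m := ∞) (by simp)).clm_apply contDiff_const

theorem smooth_t {φ : ℝ → ℝ → ℝ} (h : ContDiff ℝ ∞ (Function.uncurry φ)) :
    ContDiff ℝ ∞ (fun p : ℝ × ℝ => deriv (fun r => φ r p.2) p.1) := by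
  have h1 : (fun p : ℝ × ℝ => deriv (fun r => φ r p.2) p.1) =
      fun p => fderiv ℝ (Function.uncurry φ) p (1, 0) := by
    funext p
    have hd : HasFDerivAt (Function.uncurry φ) (fderiv ℝ (Function.uncurry φ) p) (p.1, p.2) :=
      ((h.differentiable (by simp)) p).hasFDerivAt
    have hc : HasDerivAt (fun r : ℝ => ((r, p.2) : ℝ × ℝ)) ((1 : ℝ), (0 : ℝ)) p.1 :=
      (hasDerivAt_id p.1).prodMk (hasDerivAt_const p.1 p.2)
    exact (hd.comp_hasDerivAt p.1 hc).deriv
  rw [h1]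
  exact (h.fderiv_right (m := ∞) (by simp)).clm_apply contDiff_const

theorem cont_int {L : ℝ} {X : Type} [TopologicalSpace X] [FirstCountableTopology X]
    [LocallyCompactSpace X] {F : X → ℝ → ℝ}
    (hF : Continuous (Function.uncurry F)) : Continuous fun p => ∫ x in Ioo 0 L, F p x := by
  have h := continuous_parametric_integral_of_continuous (μ := volume) hF
    (isCompact_Icc (a := (0 : ℝ)) (b := L))
  have e : (fun p => ∫ x in Icc 0 L, F p x) = fun p => ∫ x in Ioo 0 L, F p x := by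
    funext p
    exact integral_Icc_eq_integral_Ioo
  rwa [e] at h

theorem int_mul {L : ℝ} (y : L2) {ψ : ℝ → ℝ} (hψ : Continuous ψ) :
    IntegrableOn (fun x => y x * ψ x) (Ioo 0 L) := by
  have h1 : IntegrableOn y (Icc 0 L) := by
    have : IsFiniteMeasure (volume.restrict (Icc 0 L)) := ⟨by
      rw [Measure.restrict_apply_univ, Real.volume_Icc]; exact ENNReal.ofReal_lt_top⟩
    exact ((Lp.memLp y).restrict (Icc 0 L)).integrable one_le_two
  exact (h1.mul_continuousOn hψ.continuousOn isCompact_Icc).mono_set Ioo_subset_Icc_self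

theorem ite_int {E : Set ℝ} {a : ℝ → ℝ} (t c : ℝ) :
    (∫ s in E, (if s < t then a s else 0)) * c = ∫ s in E, (if s < t then a s * c else 0) := by
  rw [← integral_mul_const]
  congr 1
  funext s
  split_ifs
  · rfl
  · exact zero_mul c

theorem ae_lt {T : ℝ} {E : Set ℝ} (hEm : MeasurableSet E) (hET : E ⊆ Ioc 0 T) (a : ℝ → ℝ) :
    ∫ s in E, (if s < T then a s else 0) = ∫ s in E, a s := by
  refine integral_congr_ae ?_
  rw [EventuallyEq, ae_restrict_iff' hEm]
  filter_upwards [(countable_singleton T).ae_notMem volume] with s hs h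
  exact if_pos (lt_of_le_of_ne (hET h).2 hs)


theorem ct_x {F : ℝ × ℝ → ℝ} (h : Continuous F) (t : ℝ) : Continuous fun x => F (t, x) :=
  h.comp (by fun_prop : Continuous fun x : ℝ => ((t, x) : ℝ × ℝ))

theorem ct_t {F : ℝ × ℝ → ℝ} (h : Continuous F) (x : ℝ) : Continuous fun t => F (t, x) :=
  h.comp (by fun_prop : Continuous fun t : ℝ => ((t, x) : ℝ × ℝ))

theorem nice_cont {G : 𝓢(ℝ, ℂ)} {g : ℝ → ℝ} (hg : IsNice G g) : Continuous g := by
  have : g = fun x => (G x).re := by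
    funext x
    rw [hg x, Complex.ofReal_re]
  rw [this]
  exact Complex.continuous_re.comp G.continuous

theorem cd1' {φ : ℝ → ℝ → ℝ} (sm : ContDiff ℝ ∞ (Function.uncurry φ)) (L : ℝ) :
    Continuous fun t => deriv (φ t) L := by
  have h1 := ct_t (smooth_x sm 1).continuous L
  have h2 : (fun t => deriv (φ t) L) = fun t => iteratedDeriv 1 (φ t) L := by
    funext t
    rw [iteratedDeriv_one]
  rw [h2]
  exact h1

theorem cd2' {φ : ℝ → ℝ → ℝ} (sm : ContDiff ℝ ∞ (Function.uncurry φ)) :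
    Continuous fun t => iteratedDeriv 2 (φ t) 0 := by
  have h1 := ct_t (smooth_x sm 2).continuous 0
  exact h1

theorem c3g (μ : ℝ) {φ : ℝ → ℝ → ℝ} (sm : ContDiff ℝ ∞ (Function.uncurry φ)) :
    Continuous fun p : ℝ × ℝ => deriv (fun r => φ r p.2) p.1 +
      μ * iteratedDeriv 3 (φ p.1) p.2 := by
  have h1 := (smooth_t sm).continuous
  have h2 := (smooth_x sm 3).continuous
  exact h1.add (continuous_const.mul h2)

theorem c3g' (μ : ℝ) {φ : ℝ → ℝ → ℝ} (sm : ContDiff ℝ ∞ (Function.uncurry φ)) (t : ℝ) :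
    Continuous fun x => deriv (fun r => φ r x) t + μ * iteratedDeriv 3 (φ t) x := by
  have h1 := ct_x (c3g μ sm) t
  exact h1

theorem cP (G : 𝓢(ℝ, ℂ)) (L μ : ℝ) {ψ : ℝ × ℝ → ℝ} (hψ : Continuous ψ) :
    Continuous (Function.uncurry fun s t => ∫ x in Ioo 0 L, (aw G 0 (μ * (t - s)) x).re *
      ψ (t, x)) := by
  have h2 : Continuous fun z : (ℝ × ℝ) × ℝ => (aw G 0 (μ * (z.1.2 - z.1.1)) z.2).re :=
    aw_re_cont G 0 (by fun_prop) continuous_snd
  have h3 : Continuous fun z : (ℝ × ℝ) × ℝ => ((z.1.2, z.2) : ℝ × ℝ) := by fun_prop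
  have h1 : Continuous (Function.uncurry fun (q : ℝ × ℝ) (x : ℝ) =>
      (aw G 0 (μ * (q.2 - q.1)) x).re * ψ (q.2, x)) := h2.mul (hψ.comp h3)
  exact cont_int h1

theorem cQ (L : ℝ) {g : ℝ → ℝ} (gc : Continuous g) {ψ : ℝ × ℝ → ℝ} (hψ : Continuous ψ) :
    Continuous fun s => ∫ x in Ioo 0 L, g x * ψ (s, x) := by
  have h1 : Continuous (Function.uncurry fun (s : ℝ) (x : ℝ) => g x * ψ (s, x)) :=
    (gc.comp continuous_snd).mul hψ
  exact cont_int h1

theorem cA (G : 𝓢(ℝ, ℂ)) (L μ T : ℝ) {ψ : ℝ → ℝ} (hψ : Continuous ψ) :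
    Continuous fun s => ∫ x in Ioo 0 L, (aw G 0 (μ * (T - s)) x).re * ψ x := by
  have h2 : Continuous fun z : ℝ × ℝ => (aw G 0 (μ * (T - z.1)) z.2).re :=
    aw_re_cont G 0 (by fun_prop) continuous_snd
  have h1 : Continuous (Function.uncurry fun (s : ℝ) (x : ℝ) =>
      (aw G 0 (μ * (T - s)) x).re * ψ x) := h2.mul (hψ.comp continuous_snd)
  exact cont_int h1

theorem ck (G : 𝓢(ℝ, ℂ)) (k : ℕ) (μ x : ℝ) {b : ℝ → ℝ} (hb : Continuous b) :
    Continuous (Function.uncurry fun s t => (aw G k (μ * (t - s)) x).re * b t) := by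
  have h2 : Continuous fun z : ℝ × ℝ => (aw G k (μ * (z.2 - z.1)) x).re :=
    aw_re_cont G k (by fun_prop) continuous_const
  exact h2.mul (hb.comp continuous_snd)

/-- The main term. -/
theorem main_term {L μ T : ℝ} (hL : 0 < L) (hμ : 0 < μ) {G : 𝓢(ℝ, ℂ)} {g : ℝ → ℝ}
    (hg : IsNice G g) {E : Set ℝ} (hEm : MeasurableSet E) (hET : E ⊆ Ioc 0 T)
    {ψ χ : ℝ × ℝ → ℝ} (hψ : Continuous ψ) (hχ : Continuous χ) :
    (∫ t in Ioo 0 T, ∫ x in Ioo 0 L,
      (((sm1 hL hμ).traj 0 (E.indicator fun _ => toL2 g) t) x * ψ (t, x) +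
          (E.indicator fun _ => toL2 g) t x * χ (t, x))) =
      (∫ s in E, ∫ t in s..T, ∫ x in Ioo 0 L, (aw G 0 (μ * (t - s)) x).re * ψ (t, x)) +
        ∫ s in E, ∫ x in Ioo 0 L, g x * χ (s, x) := by
  obtain ⟨-, iP', eP⟩ := fub hEm hET (cP G L μ hψ)
  have hQc := cQ L (nice_cont hg) hχ
  have h1 : ∀ t ∈ Ioo 0 T, ∫ x in Ioo 0 L,
      (((sm1 hL hμ).traj 0 (E.indicator fun _ => toL2 g) t) x * ψ (t, x) +
        (E.indicator fun _ => toL2 g) t x * χ (t, x)) =
      (∫ s in E, (if s < t then ∫ x in Ioo 0 L, (aw G 0 (μ * (t - s)) x).re * ψ (t, x) else 0)) +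
        E.indicator (fun s => ∫ x in Ioo 0 L, g x * χ (s, x)) t := by
    intro t ht
    have c1 := ct_x hψ t
    have c2 := ct_x hχ t
    rw [integral_add (int_mul _ c1) (int_mul _ c2)]
    congr 1
    · exact traj_pair0 hL hμ hg hEm hET c1 ⟨ht.1.le, ht.2.le⟩
    · by_cases h : t ∈ E
      · rw [indicator_of_mem h, indicator_of_mem h]
        refine integral_congr_ae (ae_restrict_of_ae ?_)
        filter_upwards [toL2_ae hg.memLp] with x hx
        rw [hx]
      · rw [indicator_of_notMem h, indicator_of_notMem h]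
        refine integral_eq_zero_of_ae (ae_restrict_of_ae ?_)
        filter_upwards [Lp.coeFn_zero ℝ 2 (volume : Measure ℝ)] with x hx
        rw [hx]
        exact zero_mul _
  rw [setIntegral_congr_fun measurableSet_Ioo h1, integral_add iP', eP]
  · congr 1
    rw [← integral_Ioc_eq_integral_Ioo, setIntegral_indicator hEm, inter_eq_right.2 hET]
  · exact ((hQc.integrableOn_Ioc (a := 0) (b := T)).mono_set Ioo_subset_Ioc_self).indicator hEm

/-- A boundary term. -/
theorem bdry_term {μ T x : ℝ} {G : 𝓢(ℝ, ℂ)} {k : ℕ}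
    {E : Set ℝ} (hEm : MeasurableSet E) (hET : E ⊆ Ioc 0 T) {b : ℝ → ℝ} (hb : Continuous b) :
    ∫ t in Ioo 0 T, (∫ s in E, (if s < t then (aw G k (μ * (t - s)) x).re else 0)) * b t =
      ∫ s in E, ∫ t in s..T, (aw G k (μ * (t - s)) x).re * b t := by
  obtain ⟨-, -, e1⟩ := fub hEm hET (ck G k μ x hb)
  rw [e1]
  refine setIntegral_congr_fun measurableSet_Ioo fun t _ => ?_
  exact ite_int t _

theorem int_comb {ν : Measure ℝ} {a q p i2 i1 i0 : ℝ → ℝ} {μ : ℝ} (ha : Integrable a ν)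
    (hq : Integrable q ν) (hp : Integrable p ν) (h2 : Integrable i2 ν) (h1 : Integrable i1 ν)
    (h0 : Integrable i0 ν)
    (h : ∫ s, (a s - q s) ∂ν = ∫ s, (p s - μ * i2 s + μ * i1 s + μ * i0 s) ∂ν) :
    ∫ s, a s ∂ν = (∫ s, p s ∂ν) + (∫ s, q s ∂ν) - μ * (∫ s, i2 s ∂ν) + μ * (∫ s, i1 s ∂ν) +
      μ * ∫ s, i0 s ∂ν := by
  have g2 : Integrable (fun s => p s - μ * i2 s) ν := hp.sub (h2.const_mul μ)
  have g1 : Integrable (fun s => p s - μ * i2 s + μ * i1 s) ν := g2.add (h1.const_mul μ)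
  rw [integral_sub ha hq, integral_add g1 (h0.const_mul μ), integral_add g2 (h1.const_mul μ),
    integral_sub hp (h2.const_mul μ), integral_const_mul, integral_const_mul,
    integral_const_mul] at h
  linarith

theorem weak_ind {L μ T : ℝ} (hL : 0 < L) (hμ : 0 < μ) (hT : 0 < T) {G : 𝓢(ℝ, ℂ)} {g : ℝ → ℝ}
    (hg : IsNice G g) {E : Set ℝ} (hEm : MeasurableSet E) (hET : E ⊆ Ioc 0 T) :
    WeakId L μ T 0 ((sm1 hL hμ).traj 0 (E.indicator fun _ => toL2 g))
      (E.indicator fun _ => toL2 g)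
      (fun t => ∫ s in E, (if s < t then (aw G 0 (μ * (t - s)) 0).re else 0))
      (fun t => ∫ s in E, (if s < t then (aw G 1 (μ * (t - s)) L).re else 0))
      (fun χ => ∫ s in E, ∫ t in s..T, (aw G 2 (μ * (t - s)) L).re * χ t) := by
  intro φ hφ
  have sm := hφ.smooth
  have cφ : Continuous (Function.uncurry φ) := sm.continuous
  have cφT : Continuous (φ T) := ct_x cφ T
  have cφL : Continuous fun t => φ t L := ct_t cφ L
  have S1 := traj_pair0 hL hμ hg hEm hET cφT (t := T) ⟨hT.le, le_rfl⟩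
  rw [ae_lt hEm hET] at S1
  have S2 : ∫ x in Ioo 0 L, (0 : L2) x * φ 0 x = 0 := by
    refine integral_eq_zero_of_ae (ae_restrict_of_ae ?_)
    filter_upwards [Lp.coeFn_zero ℝ 2 (volume : Measure ℝ)] with x hx
    rw [hx]
    exact zero_mul _
  have S3 := main_term hL hμ hg hEm hET (c3g μ sm) cφ
  have S4 := bdry_term (μ := μ) (x := L) (G := G) (k := 1) hEm hET (cd1' sm L)
  have S5 := bdry_term (μ := μ) (x := 0) (G := G) (k := 0) hEm hET (cd2' sm)
  obtain ⟨iP, -, -⟩ := fub hEm hET (cP G L μ (c3g μ sm))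
  obtain ⟨i2, -, -⟩ := fub hEm hET (ck G 2 μ L cφL)
  obtain ⟨i1, -, -⟩ := fub hEm hET (ck G 1 μ L (cd1' sm L))
  obtain ⟨i0, -, -⟩ := fub hEm hET (ck G 0 μ 0 (cd2' sm))
  have icont : ∀ {a : ℝ → ℝ}, Continuous a → IntegrableOn a E := fun ha =>
    (ha.integrableOn_Ioc (a := 0) (b := T)).mono_set hET
  have iA := icont (cA G L μ T cφT)
  have iQ := icont (cQ L (nice_cont hg) cφ)
  have key := int_comb (ν := volume.restrict E) (μ := μ) iA iQ iP i2 i1 i0
    (setIntegral_congr_fun hEm fun s hs => weak_nice hL hg ⟨(hET hs).1.le, (hET hs).2⟩ hφ)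
  rw [← S1, ← S3, ← S4, ← S5] at key
  rw [S2, sub_zero]
  exact key


theorem kern_meas (G : 𝓢(ℝ, ℂ)) (k : ℕ) (μ x : ℝ) :
    Measurable (Function.uncurry fun s t => if s < t then (aw G k (μ * (t - s)) x).re else 0) := by
  have h2 : Continuous fun z : ℝ × ℝ => (aw G k (μ * (z.2 - z.1)) x).re :=
    aw_re_cont G k (by fun_prop) continuous_const
  exact Measurable.ite (measurableSet_lt measurable_fst measurable_snd) h2.measurable
    measurable_const

theorem kern_bound (G : 𝓢(ℝ, ℂ)) (k : ℕ) : ∃ C : ℝ, ∀ μ x s t : ℝ,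
    |(if s < t then (aw G k (μ * (t - s)) x).re else 0)| ≤ C := by
  obtain ⟨C, hC⟩ := aw_bound G k
  have hC0 : 0 ≤ C := (norm_nonneg _).trans (hC 0 0)
  refine ⟨C, fun μ x s t => ?_⟩
  split_ifs
  · exact (Complex.abs_re_le_norm _).trans (hC _ _)
  · rw [abs_zero]
    exact hC0

theorem sm_int (E : Set ℝ) {k : ℝ → ℝ → ℝ} (hk : Measurable (Function.uncurry k)) :
    Measurable fun t => ∫ s in E, k s t :=
  (hk.stronglyMeasurable.integral_prod_left (μ := volume.restrict E)).measurable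

theorem sq_bound {T : ℝ} {E : Set ℝ} (hEm : MeasurableSet E)
    {k : ℝ → ℝ → ℝ} (hk : Measurable (Function.uncurry k)) {B : ℝ≥0∞}
    (h : ∀ s ∈ E, ∫⁻ t in Ioo 0 T, ‖k s t‖ₑ ^ 2 ≤ B) :
    ∫⁻ t in Ioo 0 T, ‖∫ s in E, k s t‖ₑ ^ 2 ≤ volume E * (volume E * B) := by
  refine (sq_int hk).trans ?_
  gcongr 1
  refine (setLIntegral_mono' (g := fun _ => B) hEm h).trans ?_
  rw [lintegral_const, Measure.restrict_apply_univ, mul_comm B]

theorem kern1 {μ T : ℝ} (hμ : 0 < μ) {G : 𝓢(ℝ, ℂ)} {g : ℝ → ℝ} (hg : IsNice G g) (x s : ℝ) :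
    ∫⁻ t in Ioo 0 T, ‖(if s < t then (aw G 1 (μ * (t - s)) x).re else 0)‖ₑ ^ 2 ≤
      ENNReal.ofReal (‖toL2 g‖ ^ 2 / (3 * μ)) := by
  refine le_trans ?_ (kn1 hμ hg x)
  rw [← lintegral_sub_right_eq_self (fun t => ‖aw G 1 (μ * t) x‖ₑ ^ 2) s]
  refine (setLIntegral_le_lintegral _ _).trans (lintegral_mono fun t => ?_)
  gcongr
  split_ifs
  · rw [← ofReal_norm, ← ofReal_norm]
    exact ENNReal.ofReal_le_ofReal (Complex.abs_re_le_norm _)
  · rw [enorm_zero]
    simp

theorem const_le {E : Set ℝ} (hE : volume E ≠ ⊤) {K C c : ℝ}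
    (hKC : K ≤ C ^ 2) :
    volume E * (volume E * ENNReal.ofReal (K * c ^ 2)) ≤
      ENNReal.ofReal ((C * (volume.real E * c)) ^ 2) := by
  have e : volume E = ENNReal.ofReal (volume.real E) := by
    rw [Measure.real, ENNReal.ofReal_toReal hE]
  rw [e, ← ENNReal.ofReal_mul measureReal_nonneg, ← ENNReal.ofReal_mul measureReal_nonneg]
  refine ENNReal.ofReal_le_ofReal ?_
  have : (C * (volume.real E * c)) ^ 2 = C ^ 2 * (volume.real E * c) ^ 2 := by ring
  rw [this]
  have h2 : volume.real E * (volume.real E * (K * c ^ 2)) = K * (volume.real E * c) ^ 2 := by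
    ring
  rw [h2]
  exact mul_le_mul_of_nonneg_right hKC (sq_nonneg _)

end TI

variable {L μ T : ℝ}

open TI in
/-- The force is a nice function of `x` times the indicator function of a set of times. -/
theorem tr_ind (hL : 0 < L) (hμ : 0 < μ) (hT : 0 < T) : ∃ C : ℝ, 0 ≤ C ∧
    ∀ (G : 𝓢(ℝ, ℂ)) (g : ℝ → ℝ), IsNice G g → ∀ E : Set ℝ, MeasurableSet E → E ⊆ Ioc 0 T →
      ∃ (h0 h1 : ℝ → ℝ) (h2 : (ℝ → ℝ) → ℝ),
        HasTr hL hμ T 0 (E.indicator fun _ => toL2 g) (C * (volume.real E * ‖toL2 g‖))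
          h0 h1 h2 := by
  obtain ⟨C0, hC0, H0⟩ := kn0_delay hL hT hμ
  obtain ⟨C2, hC2, H2⟩ := kn2 hT hμ
  set C : ℝ := √C0 + √(1 / (3 * μ)) + C2 with hC
  have s0 : 0 ≤ √C0 := Real.sqrt_nonneg _
  have s1 : 0 ≤ √(1 / (3 * μ)) := Real.sqrt_nonneg _
  have hCn : 0 ≤ C := by positivity
  have k0 : C0 ≤ C ^ 2 := by
    have : √C0 ≤ C := by linarith
    calc C0 = √C0 ^ 2 := (Real.sq_sqrt hC0).symm
      _ ≤ C ^ 2 := by gcongr
  have k1 : 1 / (3 * μ) ≤ C ^ 2 := by
    have : √(1 / (3 * μ)) ≤ C := by linarith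
    calc 1 / (3 * μ) = √(1 / (3 * μ)) ^ 2 := (Real.sq_sqrt (by positivity)).symm
      _ ≤ C ^ 2 := by gcongr
  have k2 : C2 ≤ C := by linarith
  refine ⟨C, hCn, fun G g hg E hEm hET => ?_⟩
  have hE : volume E ≠ ⊤ := ne_top_of_le_ne_top (by simp) (measure_mono hET)
  obtain ⟨M, hM⟩ := kern_bound G 0
  refine ⟨fun t => ∫ s in E, (if s < t then (aw G 0 (μ * (t - s)) 0).re else 0),
    fun t => ∫ s in E, (if s < t then (aw G 1 (μ * (t - s)) L).re else 0),
    fun χ => ∫ s in E, ∫ t in s..T, (aw G 2 (μ * (t - s)) L).re * χ t, ?_, ?_, ?_, ?_, ?_, ?_,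
    ?_, ?_, ?_, ?_, ?_⟩
  · positivity
  · exact (integrableOn_const (by simp)).indicator hEm
  · exact (sm_int E (kern_meas G 0 μ 0)).aestronglyMeasurable
  · refine (sob_int (M := M) hEm hE (kern_meas G 0 μ 0) (fun s t => hM μ 0 s t)
      (B := ENNReal.ofReal (C0 * ‖toL2 g‖ ^ 2)) fun s hs => ?_).trans
        (const_le hE k0)
    exact H0 G g hg 0 ⟨le_rfl, hL.le⟩ s (Ioc_subset_Icc_self (hET hs))
  · exact (sm_int E (kern_meas G 1 μ L)).aestronglyMeasurable
  · refine (sq_bound hEm (kern_meas G 1 μ L) (B := ENNReal.ofReal (1 / (3 * μ) * ‖toL2 g‖ ^ 2))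
      fun s _ => ?_).trans (const_le hE k1)
    have e : 1 / (3 * μ) * ‖toL2 g‖ ^ 2 = ‖toL2 g‖ ^ 2 / (3 * μ) := by ring
    rw [e]
    exact kern1 hμ hg L s
  · intro φ χ hφ hχ
    have i1 := (fub hEm hET (ck G 2 μ L hφ.continuous)).1
    have i2 := (fub hEm hET (ck G 2 μ L hχ.continuous)).1
    show ∫ s in E, ∫ t in s..T, (aw G 2 (μ * (t - s)) L).re * (φ t + χ t) =
      (∫ s in E, ∫ t in s..T, (aw G 2 (μ * (t - s)) L).re * φ t) +
        ∫ s in E, ∫ t in s..T, (aw G 2 (μ * (t - s)) L).re * χ t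
    rw [← integral_add i1 i2]
    refine setIntegral_congr_fun hEm fun s _ => ?_
    have c1 : Continuous fun t => (aw G 2 (μ * (t - s)) L).re :=
      aw_re_cont G 2 (by fun_prop) continuous_const
    show ∫ t in s..T, (aw G 2 (μ * (t - s)) L).re * (φ t + χ t) =
      (∫ t in s..T, (aw G 2 (μ * (t - s)) L).re * φ t) +
        ∫ t in s..T, (aw G 2 (μ * (t - s)) L).re * χ t
    have j1 : IntervalIntegrable (fun t => (aw G 2 (μ * (t - s)) L).re * φ t) volume s T :=
      (c1.mul hφ.continuous).intervalIntegrable _ _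
    have j2 : IntervalIntegrable (fun t => (aw G 2 (μ * (t - s)) L).re * χ t) volume s T :=
      (c1.mul hχ.continuous).intervalIntegrable _ _
    rw [← intervalIntegral.integral_add j1 j2]
    congr 1
    funext t
    ring
  · intro r φ hφ
    show ∫ s in E, ∫ t in s..T, (aw G 2 (μ * (t - s)) L).re * (r * φ t) =
      r * ∫ s in E, ∫ t in s..T, (aw G 2 (μ * (t - s)) L).re * φ t
    rw [← integral_const_mul]
    refine setIntegral_congr_fun hEm fun s _ => ?_
    show ∫ t in s..T, (aw G 2 (μ * (t - s)) L).re * (r * φ t) =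
      r * ∫ t in s..T, (aw G 2 (μ * (t - s)) L).re * φ t
    rw [← intervalIntegral.integral_const_mul]
    congr 1
    funext t
    ring
  · intro φ hφ
    have h1 : ‖∫ s in E, ∫ t in s..T, (aw G 2 (μ * (t - s)) L).re * φ t‖ ≤
        (C2 * ‖toL2 g‖ * √(sob T φ).toReal) * volume.real E := by
      refine norm_setIntegral_le_of_norm_le_const (lt_top_iff_ne_top.2 hE) fun s hs => ?_
      exact H2 G g hg L s (Ioc_subset_Icc_self (hET hs)) φ hφ
    refine h1.trans ?_
    have h2 : (C2 * ‖toL2 g‖ * √(sob T φ).toReal) * volume.real E =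
        C2 * (volume.real E * ‖toL2 g‖) * √(sob T φ).toReal := by ring
    rw [h2]
    have h3 : 0 ≤ volume.real E := measureReal_nonneg
    gcongr
  · exact weak_ind hL hμ hT hg hEm hET
  · intro v hv
    have hv4 := hv.lift
    rw [ae_restrict_iff' measurableSet_Ioc] at hv4 ⊢
    filter_upwards [hv4] with t ht ht'
    have h1 := ht ht'
    have hFc := F_cont (μ := μ) (G := G) hET t
    have h2 := V1.val_unique hL (v t) hFc ?_ 0 ⟨by norm_num, by linarith⟩
    · exact h2.symm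
    · filter_upwards [traj_ae hL hμ hg hEm hET (Ioc_subset_Icc_self ht')] with x hx hxJ
      have h3 : V1.u L (v t) = (sm1 hL hμ).traj 0 (E.indicator fun _ => toL2 g) t := h1
      rw [h3]
      exact hx hxJ

end Pool.Agent.Kdv
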