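import Pool.Agent.Lib.MP_78c35a_an.TrInit
import Pool.Agent.Lib.MP_78c35a_an.TrInd

/-!
# Traces: the basic cases
-/
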