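import Pool.Agent.Lib.MP_78c35a_an.Sob
import Pool.Agent.Lib.MP_78c35a_an.Par
import Pool.Agent.Lib.MP_78c35a_an.LiftB
import Pool.Agent.Lib.MP_78c35a_an.WeakN

/-!
# Traces of trajectories
-/

set_option autoImplicit false

namespace Pool.Agent.Kdv

open MeasureTheory Filter Topology Set
open scoped ENNReal ContDiff SchwartzMap

/-- The weak form of `u_t + μ u_xxx = f` with `u(0) = y` and traces `u(·, 0) = h0`,
`u_x(·, L) = h1`, `u_xx(·, L) = h2`. -/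
def WeakId (L μ T : ℝ) (y : L2) (u f : ℝ → L2) (h0 h1 : ℝ → ℝ) (h2 : (ℝ → ℝ) → ℝ) : Prop :=
  ∀ φ : ℝ → ℝ → ℝ, Test L T φ →
    (∫ x in Ioo 0 L, u T x * φ T x) - ∫ x in Ioo 0 L, y x * φ 0 x =
      (∫ t in Ioo 0 T, ∫ x in Ioo 0 L, (u t x *
        (deriv (fun r => φ r x) t + μ * iteratedDeriv 3 (φ t) x) + f t x * φ t x)) -
      μ * h2 (fun t => φ t L) +
      μ * (∫ t in Ioo 0 T, h1 t * deriv (φ t) L) +
      μ * ∫ t in Ioo 0 T, h0 t * iteratedDeriv 2 (φ t) 0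

/-- The trajectory from `y` with force `f` has the traces `h0, h1, h2`, of size at most `c`. -/
structure HasTr {L μ : ℝ} (hL : 0 < L) (hμ : 0 < μ) (T : ℝ) (y : L2) (f : ℝ → L2) (c : ℝ)
    (h0 h1 : ℝ → ℝ) (h2 : (ℝ → ℝ) → ℝ) : Prop where
  c_nonneg : 0 ≤ c
  int : IntegrableOn f (Ioc 0 T)
  m0 : AEStronglyMeasurable h0 (volume.restrict (Ioo 0 T))
  b0 : sob T h0 ≤ ENNReal.ofReal (c ^ 2)
  m1 : AEStronglyMeasurable h1 (volume.restrict (Ioo 0 T))
  b1 : ∫⁻ t in Ioo 0 T, ‖h1 t‖ₑ ^ 2 ≤ ENNReal.ofReal (c ^ 2)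
  add2 : ∀ φ χ : ℝ → ℝ, ContDiff ℝ ∞ φ → ContDiff ℝ ∞ χ →
    h2 (fun t => φ t + χ t) = h2 φ + h2 χ
  smul2 : ∀ (r : ℝ) (φ : ℝ → ℝ), ContDiff ℝ ∞ φ → h2 (fun t => r * φ t) = r * h2 φ
  b2 : ∀ φ : ℝ → ℝ, ContDiff ℝ ∞ φ → |h2 φ| ≤ c * √(sob T φ).toReal
  weak : WeakId L μ T y ((sm1 hL hμ).traj y f) f h0 h1 h2
  val : ∀ v : ℝ → V1 L, (sm1 hL hμ).Path y T f v →
    ∀ᵐ t ∂volume.restrict (Ioc 0 T), h0 t = (v t).val 0

namespace TrDef

theorem sq_add_le {x y a b : ℝ} (ha : 0 < a) (hb : 0 < b) :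
    (x + y) ^ 2 ≤ (1 + b / a) * x ^ 2 + (1 + a / b) * y ^ 2 := by
  have h1 : (1 + b / a) * x ^ 2 + (1 + a / b) * y ^ 2 - (x + y) ^ 2 =
      (b * x - a * y) ^ 2 / (a * b) := by
    field_simp
    ring
  have h2 : 0 ≤ (b * x - a * y) ^ 2 / (a * b) := by positivity
  linarith

theorem enorm_add_sq_le {E : Type} [NormedAddCommGroup E] (x y : E) {a b : ℝ} (ha : 0 < a)
    (hb : 0 < b) : ‖x + y‖ₑ ^ 2 ≤
      ENNReal.ofReal (1 + b / a) * ‖x‖ₑ ^ 2 + ENNReal.ofReal (1 + a / b) * ‖y‖ₑ ^ 2 := by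
  have h1 : ‖x + y‖ ^ 2 ≤ (1 + b / a) * ‖x‖ ^ 2 + (1 + a / b) * ‖y‖ ^ 2 :=
    le_trans (by gcongr; exact norm_add_le x y) (sq_add_le ha hb)
  have e : ∀ z : E, ‖z‖ₑ ^ 2 = ENNReal.ofReal (‖z‖ ^ 2) := fun z => by
    rw [← ofReal_norm, ENNReal.ofReal_pow (norm_nonneg _)]
  rw [e, e, e, ← ENNReal.ofReal_mul (by positivity), ← ENNReal.ofReal_mul (by positivity),
    ← ENNReal.ofReal_add (by positivity) (by positivity)]
  exact ENNReal.ofReal_le_ofReal h1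

theorem of_weights {S A B : ℝ≥0∞} {a b : ℝ} (ha : 0 ≤ a) (hb : 0 ≤ b)
    (hA : A ≤ ENNReal.ofReal (a ^ 2)) (hB : B ≤ ENNReal.ofReal (b ^ 2))
    (h : ∀ p q : ℝ, 0 < p → 0 < q →
      S ≤ ENNReal.ofReal (1 + q / p) * A + ENNReal.ofReal (1 + p / q) * B) :
    S ≤ ENNReal.ofReal ((a + b) ^ 2) := by
  have h1 : ∀ e : ℝ, 0 < e → S ≤ ENNReal.ofReal ((a + b + 2 * e) ^ 2) := by
    intro e he
    refine (h (a + e) (b + e) (by linarith) (by linarith)).trans ?_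
    have hA' : A ≤ ENNReal.ofReal ((a + e) ^ 2) :=
      hA.trans (ENNReal.ofReal_le_ofReal (by nlinarith))
    have hB' : B ≤ ENNReal.ofReal ((b + e) ^ 2) :=
      hB.trans (ENNReal.ofReal_le_ofReal (by nlinarith))
    have pa : 0 < a + e := by linarith
    have pb : 0 < b + e := by linarith
    calc ENNReal.ofReal (1 + (b + e) / (a + e)) * A + ENNReal.ofReal (1 + (a + e) / (b + e)) * B
        ≤ ENNReal.ofReal (1 + (b + e) / (a + e)) * ENNReal.ofReal ((a + e) ^ 2) +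
          ENNReal.ofReal (1 + (a + e) / (b + e)) * ENNReal.ofReal ((b + e) ^ 2) := by gcongr
      _ = ENNReal.ofReal ((a + b + 2 * e) ^ 2) := by
          rw [← ENNReal.ofReal_mul (by positivity), ← ENNReal.ofReal_mul (by positivity),
            ← ENNReal.ofReal_add (by positivity) (by positivity)]
          congr 1
          field_simp
          ring
  have h2 : Tendsto (fun e : ℝ => ENNReal.ofReal ((a + b + 2 * e) ^ 2)) (𝓝[>] 0)
      (𝓝 (ENNReal.ofReal ((a + b) ^ 2))) := by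
    have h3 : Tendsto (fun e : ℝ => ENNReal.ofReal ((a + b + 2 * e) ^ 2)) (𝓝 0)
        (𝓝 (ENNReal.ofReal ((a + b + 2 * 0) ^ 2))) := by
      refine (ENNReal.continuous_ofReal.comp ?_).tendsto 0
      fun_prop
    rw [mul_zero, add_zero] at h3
    exact h3.mono_left nhdsWithin_le_nhds
  exact ge_of_tendsto h2 (by filter_upwards [self_mem_nhdsWithin] with e he using h1 e he)

/-- The triangle inequality in `L²`. -/
theorem lin_add {E : Type} [NormedAddCommGroup E] {ν : Measure ℝ} {h k : ℝ → E} {a b : ℝ}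
    (ha : 0 ≤ a) (hb : 0 ≤ b) (mh : AEStronglyMeasurable h ν)
    (bh : ∫⁻ t, ‖h t‖ₑ ^ 2 ∂ν ≤ ENNReal.ofReal (a ^ 2))
    (bk : ∫⁻ t, ‖k t‖ₑ ^ 2 ∂ν ≤ ENNReal.ofReal (b ^ 2)) :
    ∫⁻ t, ‖h t + k t‖ₑ ^ 2 ∂ν ≤ ENNReal.ofReal ((a + b) ^ 2) := by
  refine of_weights ha hb bh bk fun p q hp hq => ?_
  calc ∫⁻ t, ‖h t + k t‖ₑ ^ 2 ∂ν
      ≤ ∫⁻ t, (ENNReal.ofReal (1 + q / p) * ‖h t‖ₑ ^ 2 +
          ENNReal.ofReal (1 + p / q) * ‖k t‖ₑ ^ 2) ∂ν :=
        lintegral_mono fun t => enorm_add_sq_le _ _ hp hq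
    _ = _ := by
        rw [lintegral_add_left' ((mh.enorm.pow_const 2).const_mul _),
          lintegral_const_mul' _ _ ENNReal.ofReal_ne_top,
          lintegral_const_mul' _ _ ENNReal.ofReal_ne_top]

end TrDef

open TrDef

/-- The triangle inequality in `H^{1/3}`. -/
theorem sob_add {T : ℝ} {h k : ℝ → ℝ} {a b : ℝ} (ha : 0 ≤ a) (hb : 0 ≤ b)
    (mh : AEStronglyMeasurable h (volume.restrict (Ioo 0 T)))
    (mk : AEStronglyMeasurable k (volume.restrict (Ioo 0 T)))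
    (bh : sob T h ≤ ENNReal.ofReal (a ^ 2)) (bk : sob T k ≤ ENNReal.ofReal (b ^ 2)) :
    sob T (fun t => h t + k t) ≤ ENNReal.ofReal ((a + b) ^ 2) := by
  refine of_weights ha hb bh bk fun p q hp hq => ?_
  set c := ENNReal.ofReal (1 + q / p) with hc
  set d := ENNReal.ofReal (1 + p / q) with hd
  have cf : c ≠ ⊤ := ENNReal.ofReal_ne_top
  have df : d ≠ ⊤ := ENNReal.ofReal_ne_top
  set ν : Measure ℝ := volume.restrict (Ioo 0 T) with hν
  have hw : Measurable fun z : ℝ × ℝ => ENNReal.ofReal (|z.1 - z.2| ^ (5 / 3 : ℝ)) := by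
    fun_prop
  -- the product part
  have hm : AEMeasurable (fun z : ℝ × ℝ => ‖h z.1 - h z.2‖ₑ ^ 2 /
      ENNReal.ofReal (|z.1 - z.2| ^ (5 / 3 : ℝ))) (ν.prod ν) :=
    (((mh.comp_fst.sub mh.comp_snd).enorm.pow_const 2).div hw.aemeasurable)
  have hm1 : AEMeasurable (fun t => ∫⁻ s, ‖h t - h s‖ₑ ^ 2 /
      ENNReal.ofReal (|t - s| ^ (5 / 3 : ℝ)) ∂ν) ν := hm.lintegral_prod_right'
  have hm2 : ∀ t, AEMeasurable (fun s => ‖h t - h s‖ₑ ^ 2 /
      ENNReal.ofReal (|t - s| ^ (5 / 3 : ℝ))) ν := fun t =>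
    (((aestronglyMeasurable_const.sub mh).enorm.pow_const 2).div
      (by fun_prop : Measurable fun s : ℝ => ENNReal.ofReal (|t - s| ^ (5 / 3 : ℝ))).aemeasurable)
  have p1 : ∫⁻ t, ‖h t + k t‖ₑ ^ 2 ∂ν ≤
      c * ∫⁻ t, ‖h t‖ₑ ^ 2 ∂ν + d * ∫⁻ t, ‖k t‖ₑ ^ 2 ∂ν := by
    calc ∫⁻ t, ‖h t + k t‖ₑ ^ 2 ∂ν ≤ ∫⁻ t, (c * ‖h t‖ₑ ^ 2 + d * ‖k t‖ₑ ^ 2) ∂ν :=
          lintegral_mono fun t => enorm_add_sq_le _ _ hp hq
      _ = _ := by
          rw [lintegral_add_left' ((mh.enorm.pow_const 2).const_mul _),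
            lintegral_const_mul' _ _ cf, lintegral_const_mul' _ _ df]
  have p2 : ∫⁻ t, ∫⁻ s, ‖(h t + k t) - (h s + k s)‖ₑ ^ 2 /
      ENNReal.ofReal (|t - s| ^ (5 / 3 : ℝ)) ∂ν ∂ν ≤
      c * (∫⁻ t, ∫⁻ s, ‖h t - h s‖ₑ ^ 2 / ENNReal.ofReal (|t - s| ^ (5 / 3 : ℝ)) ∂ν ∂ν) +
      d * ∫⁻ t, ∫⁻ s, ‖k t - k s‖ₑ ^ 2 / ENNReal.ofReal (|t - s| ^ (5 / 3 : ℝ)) ∂ν ∂ν := by
    have q1 : ∀ t, ∫⁻ s, ‖(h t + k t) - (h s + k s)‖ₑ ^ 2 /
        ENNReal.ofReal (|t - s| ^ (5 / 3 : ℝ)) ∂ν ≤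
        c * (∫⁻ s, ‖h t - h s‖ₑ ^ 2 / ENNReal.ofReal (|t - s| ^ (5 / 3 : ℝ)) ∂ν) +
        d * ∫⁻ s, ‖k t - k s‖ₑ ^ 2 / ENNReal.ofReal (|t - s| ^ (5 / 3 : ℝ)) ∂ν := by
      intro t
      calc ∫⁻ s, ‖(h t + k t) - (h s + k s)‖ₑ ^ 2 / ENNReal.ofReal (|t - s| ^ (5 / 3 : ℝ)) ∂ν
          ≤ ∫⁻ s, (c * (‖h t - h s‖ₑ ^ 2 / ENNReal.ofReal (|t - s| ^ (5 / 3 : ℝ))) +
            d * (‖k t - k s‖ₑ ^ 2 / ENNReal.ofReal (|t - s| ^ (5 / 3 : ℝ)))) ∂ν := by
            refine lintegral_mono fun s => ?_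
            rw [← mul_div_assoc, ← mul_div_assoc, ← ENNReal.add_div]
            refine ENNReal.div_le_div_right ?_ _
            rw [show (h t + k t) - (h s + k s) = (h t - h s) + (k t - k s) by ring]
            exact enorm_add_sq_le _ _ hp hq
        _ = _ := by
            rw [lintegral_add_left' ((hm2 t).const_mul _),
              lintegral_const_mul' _ _ cf, lintegral_const_mul' _ _ df]
    refine (lintegral_mono q1).trans (le_of_eq ?_)
    rw [lintegral_add_left' (hm1.const_mul _), lintegral_const_mul' _ _ cf,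
      lintegral_const_mul' _ _ df]
  unfold sob
  calc _ ≤ (c * ∫⁻ t, ‖h t‖ₑ ^ 2 ∂ν + d * ∫⁻ t, ‖k t‖ₑ ^ 2 ∂ν) +
      (c * (∫⁻ t, ∫⁻ s, ‖h t - h s‖ₑ ^ 2 / ENNReal.ofReal (|t - s| ^ (5 / 3 : ℝ)) ∂ν ∂ν) +
      d * ∫⁻ t, ∫⁻ s, ‖k t - k s‖ₑ ^ 2 / ENNReal.ofReal (|t - s| ^ (5 / 3 : ℝ)) ∂ν ∂ν) :=
        add_le_add p1 p2
    _ = _ := by
        rw [mul_add, mul_add, add_add_add_comm]

theorem sob_smul {T : ℝ} (r : ℝ) (h : ℝ → ℝ) :
    sob T (fun t => r * h t) = ENNReal.ofReal (r ^ 2) * sob T h := by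
  have e : ∀ z : ℝ, ‖r * z‖ₑ ^ 2 = ENNReal.ofReal (r ^ 2) * ‖z‖ₑ ^ 2 := by
    intro z
    rw [enorm_mul, mul_pow]
    congr 1
    rw [← ofReal_norm, ← ENNReal.ofReal_pow (norm_nonneg _), Real.norm_eq_abs, sq_abs]
  unfold sob
  rw [mul_add, ← lintegral_const_mul' _ _ ENNReal.ofReal_ne_top,
    ← lintegral_const_mul' _ _ ENNReal.ofReal_ne_top]
  congr 1
  · refine lintegral_congr fun t => e _
  · refine lintegral_congr fun t => ?_
    rw [← lintegral_const_mul' _ _ ENNReal.ofReal_ne_top]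
    refine lintegral_congr fun s => ?_
    rw [← mul_sub, e, mul_div_assoc]

namespace TrDef

/-- The function `x ↦ ψ (t, x)` on `(0, L)`, as an element of `L²`. -/
noncomputable def cut (L : ℝ) (ψ : ℝ × ℝ → ℝ) (t : ℝ) : L2 :=
  toL2 ((Ioo 0 L).indicator fun x => ψ (t, x))

theorem cut_memLp {L : ℝ} {ψ : ℝ × ℝ → ℝ} (hψ : Continuous ψ) (t : ℝ) :
    MemLp ((Ioo 0 L).indicator fun x => ψ (t, x)) 2 volume := by
  have hc : Continuous fun x : ℝ => ψ (t, x) := hψ.comp (by fun_prop)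
  obtain ⟨C, hC⟩ := (isCompact_Icc (a := (0 : ℝ)) (b := L)).exists_bound_of_continuousOn
    hc.continuousOn
  rw [memLp_indicator_iff_restrict measurableSet_Ioo]
  refine MemLp.of_bound hc.aestronglyMeasurable C ?_
  filter_upwards [ae_restrict_mem measurableSet_Ioo] with x hx
  exact hC x (Ioo_subset_Icc_self hx)

theorem cut_ae {L : ℝ} {ψ : ℝ × ℝ → ℝ} (hψ : Continuous ψ) (t : ℝ) :
    ∀ᵐ x ∂volume, cut L ψ t x = (Ioo 0 L).indicator (fun x => ψ (t, x)) x := by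
  unfold cut toL2
  rw [dif_pos (cut_memLp hψ t)]
  exact MemLp.coeFn_toLp _

theorem inner_L2 (f g : L2) : inner ℝ f g = ∫ x, f x * g x := by
  rw [L2.inner_def]
  refine integral_congr_ae (Eventually.of_forall fun x => ?_)
  show inner ℝ (f x) (g x) = f x * g x
  rw [real_inner_eq_re_inner, RCLike.inner_apply]
  simp [mul_comm]

theorem cut_inner {L : ℝ} {ψ : ℝ × ℝ → ℝ} (hψ : Continuous ψ) (g : L2) (t : ℝ) :
    ∫ x in Ioo 0 L, g x * ψ (t, x) = inner ℝ g (cut L ψ t) := by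
  rw [inner_L2, ← integral_indicator measurableSet_Ioo]
  refine integral_congr_ae ?_
  filter_upwards [cut_ae (L := L) hψ t] with x hx
  rw [hx]
  by_cases h : x ∈ Ioo 0 L
  · simp [h]
  · simp [h]

theorem cut_int {L : ℝ} {ψ : ℝ × ℝ → ℝ} (hψ : Continuous ψ) (g : L2) (t : ℝ) :
    IntegrableOn (fun x => g x * ψ (t, x)) (Ioo 0 L) := by
  have h1 : Integrable (fun x => g x * cut L ψ t x) volume :=
    (Lp.memLp g).integrable_mul (Lp.memLp (cut L ψ t))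
  rw [← integrable_indicator_iff measurableSet_Ioo]
  refine h1.congr ?_
  filter_upwards [cut_ae (L := L) hψ t] with x hx
  rw [hx]
  by_cases h : x ∈ Ioo 0 L
  · simp [h]
  · simp [h]

theorem cut_cont {L : ℝ} (hL : 0 ≤ L) {ψ : ℝ × ℝ → ℝ} (hψ : Continuous ψ) :
    Continuous (cut L ψ) := by
  rw [continuous_iff_continuousAt]
  intro t0
  have h1 : ∀ t, ‖cut L ψ t - cut L ψ t0‖ ^ 2 =
      ∫ x in (0 : ℝ)..L, (ψ (t, x) - ψ (t0, x)) ^ 2 := by
    intro t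
    rw [← real_inner_self_eq_norm_sq, inner_L2, intervalIntegral.integral_of_le hL,
      integral_Ioc_eq_integral_Ioo, ← integral_indicator measurableSet_Ioo]
    refine integral_congr_ae ?_
    filter_upwards [cut_ae (L := L) hψ t, cut_ae (L := L) hψ t0,
      Lp.coeFn_sub (cut L ψ t) (cut L ψ t0)] with x hx hx0 hs
    rw [hs, Pi.sub_apply, hx, hx0]
    by_cases h : x ∈ Ioo 0 L
    · simp [h, pow_two]
    · simp [h]
  have h2 : Continuous fun t => ∫ x in (0 : ℝ)..L, (ψ (t, x) - ψ (t0, x)) ^ 2 := by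
    refine intervalIntegral.continuous_parametric_intervalIntegral_of_continuous' ?_ 0 L
    simp only [Function.uncurry_def]
    fun_prop
  have h3 : Tendsto (fun t => √(‖cut L ψ t - cut L ψ t0‖ ^ 2)) (𝓝 t0) (𝓝 0) := by
    simp only [h1]
    have h4 : Tendsto (fun t => √(∫ x in (0 : ℝ)..L, (ψ (t, x) - ψ (t0, x)) ^ 2)) (𝓝 t0)
        (𝓝 (√(∫ x in (0 : ℝ)..L, (ψ (t0, x) - ψ (t0, x)) ^ 2))) :=
      (Real.continuous_sqrt.comp h2).tendsto t0
    simpa using h4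
  simp only [Real.sqrt_sq (norm_nonneg _)] at h3
  exact tendsto_iff_norm_sub_tendsto_zero.mpr h3

/-- The pairing of an integrable force with a continuous function is integrable. -/
theorem pair_int {L T : ℝ} (hL : 0 ≤ L) {ψ : ℝ × ℝ → ℝ} (hψ : Continuous ψ) {f : ℝ → L2}
    (hf : IntegrableOn f (Ioc 0 T)) :
    IntegrableOn (fun t => inner ℝ (f t) (cut L ψ t)) (Ioc 0 T) := by
  have hc := cut_cont hL hψ
  obtain ⟨C, hC⟩ := (isCompact_Icc (a := (0 : ℝ)) (b := T)).exists_bound_of_continuousOn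
    hc.continuousOn
  refine Integrable.mono' (hf.norm.mul_const C) (hf.1.inner hc.aestronglyMeasurable) ?_
  filter_upwards [ae_restrict_mem measurableSet_Ioc] with t ht
  have h1 := hC t (Ioc_subset_Icc_self ht)
  refine (norm_inner_le_norm _ _).trans ?_
  gcongr

theorem mul_int {T : ℝ} {h ψ : ℝ → ℝ} (m : AEStronglyMeasurable h (volume.restrict (Ioo 0 T)))
    (b : ∫⁻ t in Ioo 0 T, ‖h t‖ₑ ^ 2 < ⊤) (hψ : Continuous ψ) :
    IntegrableOn (fun t => h t * ψ t) (Ioo 0 T) := by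
  have h1 : MemLp h 2 (volume.restrict (Ioo 0 T)) := by
    refine ⟨m, ?_⟩
    rw [eLpNorm_lt_top_iff_lintegral_rpow_enorm_lt_top (by norm_num) (by norm_num)]
    simpa using b
  obtain ⟨C, hC⟩ := (isCompact_Icc (a := (0 : ℝ)) (b := T)).exists_bound_of_continuousOn
    hψ.continuousOn
  have h2 : MemLp ψ 2 (volume.restrict (Ioo 0 T)) := by
    refine MemLp.of_bound hψ.aestronglyMeasurable C ?_
    filter_upwards [ae_restrict_mem measurableSet_Ioo] with x hx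
    exact hC x (Ioo_subset_Icc_self hx)
  exact h1.integrable_mul h2

/-- The function in the weak form of the equation. -/
noncomputable def adj (μ : ℝ) (φ : ℝ → ℝ → ℝ) (p : ℝ × ℝ) : ℝ :=
  deriv (fun r => φ r p.2) p.1 + μ * iteratedDeriv 3 (φ p.1) p.2

section

variable {L T : ℝ} {φ : ℝ → ℝ → ℝ}

theorem dx1 (hφ : Test L T φ) (t x : ℝ) :
    deriv (φ t) x = WeakN.dx (Function.uncurry φ) (t, x) :=
  (WeakN.hasDerivAt_dx hφ.smooth t x).deriv

theorem dx2 (hφ : Test L T φ) (t x : ℝ) :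
    iteratedDeriv 2 (φ t) x = WeakN.dx (WeakN.dx (Function.uncurry φ)) (t, x) := by
  rw [iteratedDeriv_succ, iteratedDeriv_one, show deriv (φ t) = _ from funext (dx1 hφ t)]
  exact (WeakN.hasDerivAt_dx (WeakN.contDiff_dx hφ.smooth) t x).deriv

theorem dx3 (hφ : Test L T φ) (t x : ℝ) :
    iteratedDeriv 3 (φ t) x =
      WeakN.dx (WeakN.dx (WeakN.dx (Function.uncurry φ))) (t, x) := by
  rw [iteratedDeriv_succ, show iteratedDeriv 2 (φ t) = _ from funext (dx2 hφ t)]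
  exact (WeakN.hasDerivAt_dx (WeakN.contDiff_dx (WeakN.contDiff_dx hφ.smooth)) t x).deriv

theorem adj_cont (hφ : Test L T φ) (μ : ℝ) : Continuous (adj μ φ) := by
  have h1 : adj μ φ = fun p => WeakN.dt (Function.uncurry φ) p +
      μ * WeakN.dx (WeakN.dx (WeakN.dx (Function.uncurry φ))) p := by
    funext p
    have h2 : deriv (fun r => φ r p.2) p.1 = WeakN.dt (Function.uncurry φ) (p.1, p.2) :=
      (WeakN.hasDerivAt_dt hφ.smooth p.1 p.2).deriv
    unfold adj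
    rw [dx3 hφ, h2]
  rw [h1]
  exact (WeakN.contDiff_dt hφ.smooth).continuous.add (continuous_const.mul
    (WeakN.contDiff_dx (WeakN.contDiff_dx (WeakN.contDiff_dx hφ.smooth))).continuous)

theorem cont1 (hφ : Test L T φ) (x : ℝ) : Continuous fun t => deriv (φ t) x := by
  simp only [dx1 hφ]
  exact (WeakN.contDiff_dx hφ.smooth).continuous.comp (by fun_prop)

theorem cont2 (hφ : Test L T φ) (x : ℝ) : Continuous fun t => iteratedDeriv 2 (φ t) x := by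
  simp only [dx2 hφ]
  exact (WeakN.contDiff_dx (WeakN.contDiff_dx hφ.smooth)).continuous.comp (by fun_prop)

/-- The weak form, in terms of scalar products. -/
theorem weak_iff {μ : ℝ} (hφ : Test L T φ) (y : L2) (u f : ℝ → L2) (h0 h1 : ℝ → ℝ)
    (h2 : (ℝ → ℝ) → ℝ) :
    ((∫ x in Ioo 0 L, u T x * φ T x) - ∫ x in Ioo 0 L, y x * φ 0 x =
      (∫ t in Ioo 0 T, ∫ x in Ioo 0 L, (u t x *
        (deriv (fun r => φ r x) t + μ * iteratedDeriv 3 (φ t) x) + f t x * φ t x)) -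
      μ * h2 (fun t => φ t L) +
      μ * (∫ t in Ioo 0 T, h1 t * deriv (φ t) L) +
      μ * ∫ t in Ioo 0 T, h0 t * iteratedDeriv 2 (φ t) 0) ↔
    (inner ℝ (u T) (cut L (Function.uncurry φ) T) - inner ℝ y (cut L (Function.uncurry φ) 0) =
      (∫ t in Ioo 0 T, (inner ℝ (u t) (cut L (adj μ φ) t) +
        inner ℝ (f t) (cut L (Function.uncurry φ) t))) -
      μ * h2 (fun t => φ t L) +
      μ * (∫ t in Ioo 0 T, h1 t * deriv (φ t) L) +
      μ * ∫ t in Ioo 0 T, h0 t * iteratedDeriv 2 (φ t) 0) := by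
  have c0 : Continuous (Function.uncurry φ) := hφ.smooth.continuous
  have e1 : ∀ (g : L2) (t : ℝ), ∫ x in Ioo 0 L, g x * φ t x =
      inner ℝ g (cut L (Function.uncurry φ) t) := fun g t => cut_inner c0 g t
  have e2 : ∀ (g k : L2) (t : ℝ), ∫ x in Ioo 0 L, (g x *
      (deriv (fun r => φ r x) t + μ * iteratedDeriv 3 (φ t) x) + k x * φ t x) =
      inner ℝ g (cut L (adj μ φ) t) + inner ℝ k (cut L (Function.uncurry φ) t) := by
    intro g k t
    rw [← cut_inner (adj_cont hφ μ), ← e1]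
    exact integral_add (cut_int (adj_cont hφ μ) g t) (cut_int c0 k t)
  rw [e1, e1]
  simp only [e2]

end

end TrDef

variable {L μ T : ℝ} {hL : 0 < L} {hμ : 0 < μ}

theorem HasTr.add {y y' : L2} {f f' : ℝ → L2} {c c' : ℝ} {h0 h1 h0' h1' : ℝ → ℝ}
    {h2 h2' : (ℝ → ℝ) → ℝ} (hT : 0 < T) (h : HasTr hL hμ T y f c h0 h1 h2)
    (h' : HasTr hL hμ T y' f' c' h0' h1' h2') :
    HasTr hL hμ T (y + y') (fun t => f t + f' t) (c + c') (fun t => h0 t + h0' t)
      (fun t => h1 t + h1' t) (fun φ => h2 φ + h2' φ) where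
  c_nonneg := add_nonneg h.c_nonneg h'.c_nonneg
  int := h.int.add h'.int
  m0 := h.m0.add h'.m0
  b0 := sob_add h.c_nonneg h'.c_nonneg h.m0 h'.m0 h.b0 h'.b0
  m1 := h.m1.add h'.m1
  b1 := lin_add h.c_nonneg h'.c_nonneg h.m1 h.b1 h'.b1
  add2 φ χ hφ hχ := by
    rw [h.add2 φ χ hφ hχ, h'.add2 φ χ hφ hχ]
    ring
  smul2 r φ hφ := by
    rw [h.smul2 r φ hφ, h'.smul2 r φ hφ]
    ring
  b2 φ hφ := by
    refine (abs_add_le _ _).trans ?_
    rw [add_mul]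
    exact add_le_add (h.b2 φ hφ) (h'.b2 φ hφ)
  weak := by
    intro φ hφ
    have w := (weak_iff (μ := μ) hφ y ((sm1 hL hμ).traj y f) f h0 h1 h2).mp (h.weak φ hφ)
    have w' := (weak_iff (μ := μ) hφ y' ((sm1 hL hμ).traj y' f') f' h0' h1' h2').mp (h'.weak φ hφ)
    refine (weak_iff (μ := μ) hφ (y + y') ((sm1 hL hμ).traj (y + y') (fun t => f t + f' t))
      (fun t => f t + f' t) (fun t => h0 t + h0' t) (fun t => h1 t + h1' t)
      (fun φ => h2 φ + h2' φ)).mpr ?_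
    have tr : ∀ t ∈ Icc 0 T, (sm1 hL hμ).traj (y + y') (fun t => f t + f' t) t =
        (sm1 hL hμ).traj y f t + (sm1 hL hμ).traj y' f' t := fun t ht =>
      (sm1 hL hμ).traj_add y y' h.int h'.int ht
    have c0 : Continuous (Function.uncurry φ) := hφ.smooth.continuous
    have ca := adj_cont hφ μ
    have u1 : IntegrableOn ((sm1 hL hμ).traj y f) (Ioc 0 T) :=
      ((sm1 hL hμ).traj_cont y hT.le h.int).integrableOn_Icc.mono_set Ioc_subset_Icc_self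
    have u2 : IntegrableOn ((sm1 hL hμ).traj y' f') (Ioc 0 T) :=
      ((sm1 hL hμ).traj_cont y' hT.le h'.int).integrableOn_Icc.mono_set Ioc_subset_Icc_self
    have i1 : IntegrableOn (fun t => inner ℝ ((sm1 hL hμ).traj y f t) (cut L (adj μ φ) t) +
        inner ℝ (f t) (cut L (Function.uncurry φ) t)) (Ioo 0 T) :=
      IntegrableOn.mono_set ((pair_int hL.le ca u1).add (pair_int hL.le c0 h.int))
        Ioo_subset_Ioc_self
    have i2 : IntegrableOn (fun t => inner ℝ ((sm1 hL hμ).traj y' f' t) (cut L (adj μ φ) t) +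
        inner ℝ (f' t) (cut L (Function.uncurry φ) t)) (Ioo 0 T) :=
      IntegrableOn.mono_set ((pair_int hL.le ca u2).add (pair_int hL.le c0 h'.int))
        Ioo_subset_Ioc_self
    have hI : ∫ t in Ioo 0 T, (inner ℝ ((sm1 hL hμ).traj (y + y') (fun t => f t + f' t) t)
        (cut L (adj μ φ) t) + inner ℝ (f t + f' t) (cut L (Function.uncurry φ) t)) =
        (∫ t in Ioo 0 T, (inner ℝ ((sm1 hL hμ).traj y f t) (cut L (adj μ φ) t) +
          inner ℝ (f t) (cut L (Function.uncurry φ) t))) +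
        ∫ t in Ioo 0 T, (inner ℝ ((sm1 hL hμ).traj y' f' t) (cut L (adj μ φ) t) +
          inner ℝ (f' t) (cut L (Function.uncurry φ) t)) := by
      rw [← integral_add i1 i2]
      refine setIntegral_congr_fun measurableSet_Ioo fun t ht => ?_
      rw [tr t (Ioo_subset_Icc_self ht), inner_add_left, inner_add_left]
      ring
    have l0 : ∫⁻ t in Ioo 0 T, ‖h0 t‖ₑ ^ 2 < ⊤ :=
      lt_of_le_of_lt le_self_add (h.b0.trans_lt ENNReal.ofReal_lt_top)
    have l0' : ∫⁻ t in Ioo 0 T, ‖h0' t‖ₑ ^ 2 < ⊤ :=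
      lt_of_le_of_lt le_self_add (h'.b0.trans_lt ENNReal.ofReal_lt_top)
    have hJ1 : ∫ t in Ioo 0 T, (h1 t + h1' t) * deriv (φ t) L =
        (∫ t in Ioo 0 T, h1 t * deriv (φ t) L) + ∫ t in Ioo 0 T, h1' t * deriv (φ t) L := by
      rw [← integral_add (mul_int h.m1 (h.b1.trans_lt ENNReal.ofReal_lt_top) (cont1 hφ L))
        (mul_int h'.m1 (h'.b1.trans_lt ENNReal.ofReal_lt_top) (cont1 hφ L))]
      simp only [add_mul]
    have hJ0 : ∫ t in Ioo 0 T, (h0 t + h0' t) * iteratedDeriv 2 (φ t) 0 =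
        (∫ t in Ioo 0 T, h0 t * iteratedDeriv 2 (φ t) 0) +
          ∫ t in Ioo 0 T, h0' t * iteratedDeriv 2 (φ t) 0 := by
      rw [← integral_add (mul_int h.m0 l0 (cont2 hφ 0)) (mul_int h'.m0 l0' (cont2 hφ 0))]
      simp only [add_mul]
    rw [hI, hJ1, hJ0, tr T (right_mem_Icc.mpr hT.le), inner_add_left, inner_add_left]
    linear_combination w + w'
  val := by
    intro v hv
    obtain ⟨w, hw⟩ := (sm1 hL hμ).exists_path y h.int
    obtain ⟨w', hw'⟩ := (sm1 hL hμ).exists_path y' h'.int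
    have hs : (sm1 hL hμ).Path (y + y') T (fun t => f t + f' t) (fun t => w t + w' t) := by
      refine ⟨h.int.add h'.int, hw.meas.add hw'.meas, ?_, ?_⟩
      · have b1 : ∫⁻ t in Ioc (0 : ℝ) T, ‖w t + w' t‖ₑ ^ 2 ≤
            ∫⁻ t in Ioc (0 : ℝ) T, (ENNReal.ofReal (1 + 1 / 1) * ‖w t‖ₑ ^ 2 +
              ENNReal.ofReal (1 + 1 / 1) * ‖w' t‖ₑ ^ 2) :=
          lintegral_mono fun t => enorm_add_sq_le _ _ one_pos one_pos
        refine b1.trans_lt ?_
        rw [lintegral_add_left' ((hw.meas.enorm.pow_const 2).const_mul _),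
          lintegral_const_mul' _ _ ENNReal.ofReal_ne_top,
          lintegral_const_mul' _ _ ENNReal.ofReal_ne_top]
        exact ENNReal.add_lt_top.mpr ⟨ENNReal.mul_lt_top ENNReal.ofReal_lt_top hw.fin,
          ENNReal.mul_lt_top ENNReal.ofReal_lt_top hw'.fin⟩
      · filter_upwards [hw.lift, hw'.lift, ae_restrict_mem measurableSet_Ioc] with t a1 a2 ht
        rw [map_add, a1, a2]
        exact ((sm1 hL hμ).traj_add y y' h.int h'.int (Ioc_subset_Icc_self ht)).symm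
    filter_upwards [(sm1 hL hμ).path_unique hv hs, h.val w hw, h'.val w' hw'] with t a1 a2 a3
    rw [a1, a2, a3]
    exact (V1.val_add hL (w t) (w' t) ⟨by linarith, by linarith⟩).symm

theorem HasTr.smul {y : L2} {f : ℝ → L2} {c : ℝ} {h0 h1 : ℝ → ℝ} {h2 : (ℝ → ℝ) → ℝ}
    (hT : 0 < T) (r : ℝ) (h : HasTr hL hμ T y f c h0 h1 h2) :
    HasTr hL hμ T (r • y) (fun t => r • f t) (|r| * c) (fun t => r * h0 t)
      (fun t => r * h1 t) (fun φ => r * h2 φ) where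
  c_nonneg := mul_nonneg (abs_nonneg _) h.c_nonneg
  int := h.int.smul r
  m0 := h.m0.const_mul r
  b0 := by
    rw [sob_smul, mul_pow, sq_abs, ENNReal.ofReal_mul (sq_nonneg r)]
    gcongr
    exact h.b0
  m1 := h.m1.const_mul r
  b1 := by
    have e : ∀ z : ℝ, ‖r * z‖ₑ ^ 2 = ENNReal.ofReal (r ^ 2) * ‖z‖ₑ ^ 2 := by
      intro z
      rw [enorm_mul, mul_pow]
      congr 1
      rw [← ofReal_norm, ← ENNReal.ofReal_pow (norm_nonneg _), Real.norm_eq_abs, sq_abs]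
    simp only [e]
    rw [lintegral_const_mul' _ _ ENNReal.ofReal_ne_top, mul_pow, sq_abs,
      ENNReal.ofReal_mul (sq_nonneg r)]
    gcongr
    exact h.b1
  add2 φ χ hφ hχ := by
    rw [h.add2 φ χ hφ hχ]
    ring
  smul2 s φ hφ := by
    rw [h.smul2 s φ hφ]
    ring
  b2 φ hφ := by
    rw [abs_mul, mul_assoc]
    gcongr
    exact h.b2 φ hφ
  weak := by
    intro φ hφ
    have w := (weak_iff (μ := μ) hφ y ((sm1 hL hμ).traj y f) f h0 h1 h2).mp (h.weak φ hφ)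
    refine (weak_iff (μ := μ) hφ (r • y) ((sm1 hL hμ).traj (r • y) (fun t => r • f t))
      (fun t => r • f t) (fun t => r * h0 t) (fun t => r * h1 t)
      (fun φ => r * h2 φ)).mpr ?_
    have tr : ∀ t, (sm1 hL hμ).traj (r • y) (fun t => r • f t) t =
        r • (sm1 hL hμ).traj y f t := fun t => (sm1 hL hμ).traj_smul r y f t
    simp only [tr, real_inner_smul_left, mul_assoc r, ← mul_add r]
    rw [integral_const_mul, integral_const_mul, integral_const_mul]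
    linear_combination r * w
  val := by
    intro v hv
    obtain ⟨w, hw⟩ := (sm1 hL hμ).exists_path y h.int
    have hs : (sm1 hL hμ).Path (r • y) T (fun t => r • f t) (fun t => r • w t) := by
      refine ⟨h.int.smul r, hw.meas.const_smul r, ?_, ?_⟩
      · simp only [enorm_smul, mul_pow]
        rw [lintegral_const_mul' _ _ (ENNReal.pow_ne_top enorm_ne_top)]
        exact ENNReal.mul_lt_top (ENNReal.pow_lt_top enorm_lt_top) hw.fin
      · filter_upwards [hw.lift] with t a1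
        rw [map_smul, a1]
        exact ((sm1 hL hμ).traj_smul r y f t).symm
    filter_upwards [(sm1 hL hμ).path_unique hv hs, h.val w hw] with t a1 a2
    rw [a1, a2]
    exact (V1.val_smul hL r (w t) ⟨by linarith, by linarith⟩).symm

end Pool.Agent.Kdv
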