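import Pool.Agent.Lib.MP_78c35a_an.TrDef
import Pool.Agent.Lib.MP_78c35a_an.KatoN
import Pool.Agent.Lib.MP_78c35a_an.WeakN

/-!
# Traces: the basic cases
-/

set_option autoImplicit false

namespace Pool.Agent.Kdv

open MeasureTheory Filter Topology Set
open scoped ENNReal ContDiff SchwartzMap

variable {L μ T : ℝ}

namespace TrInitAux

/-- the unperturbed trajectory -/
private lemma traj_ae (hL : 0 < L) (hμ : 0 < μ) {G : 𝓢(ℝ, ℂ)} {g : ℝ → ℝ} (h : IsNice G g)
    (t : ℝ) : ∀ᵐ x ∂volume, (sm1 hL hμ).traj (toL2 g) (fun _ => 0) t x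
      = (aw G 0 (μ * t) x).re := by
  have h1 : (sm1 hL hμ).traj (toL2 g) (fun _ => 0) t = airy (μ * t) (toL2 g) := by
    unfold Sm.traj
    simp only [map_zero, intervalIntegral.integral_zero, add_zero]
    rfl
  rw [h1]
  exact airy_nice h (μ * t)

private lemma aw_re_cont (G : 𝓢(ℝ, ℂ)) (k : ℕ) (μ x : ℝ) :
    Continuous fun t : ℝ => (aw G k (μ * t) x).re := by
  have h1 : Continuous fun t : ℝ => ((μ * t, x) : ℝ × ℝ) := by fun_prop
  have h2 := (aw_cont G k).comp h1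
  rw [Function.comp_def] at h2
  exact Complex.continuous_re.comp h2

private lemma aw_re_cont_x (G : 𝓢(ℝ, ℂ)) (k : ℕ) (c : ℝ) :
    Continuous fun x : ℝ => (aw G k c x).re := by
  have h1 : Continuous fun x : ℝ => ((c, x) : ℝ × ℝ) := by fun_prop
  have h2 := (aw_cont G k).comp h1
  rw [Function.comp_def] at h2
  exact Complex.continuous_re.comp h2

end TrInitAux

/-- Nice initial value, no force. -/
theorem tr_init (hL : 0 < L) (hμ : 0 < μ) (hT : 0 < T) : ∃ C : ℝ, 0 ≤ C ∧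
    ∀ (G : 𝓢(ℝ, ℂ)) (g : ℝ → ℝ), IsNice G g →
      ∃ (h0 h1 : ℝ → ℝ) (h2 : (ℝ → ℝ) → ℝ),
        HasTr hL hμ T (toL2 g) (fun _ => 0) (C * ‖toL2 g‖) h0 h1 h2 := by
  obtain ⟨C0, hC0, h0⟩ := kn0 hL hT hμ
  obtain ⟨C2, hC2, h2⟩ := kn2 hT hμ
  refine ⟨√C0 + √(1 / (3 * μ)) + C2, by positivity, fun G g hg => ?_⟩
  set C := √C0 + √(1 / (3 * μ)) + C2 with hC
  have hCn : 0 ≤ C := by positivity
  have hle0 : C0 ≤ C ^ 2 := by
    have h1 : √C0 ≤ C := by
      have := Real.sqrt_nonneg (1 / (3 * μ))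
      linarith
    calc C0 = √C0 ^ 2 := (Real.sq_sqrt hC0).symm
      _ ≤ C ^ 2 := by gcongr
  have hle1 : 1 / (3 * μ) ≤ C ^ 2 := by
    have h1 : √(1 / (3 * μ)) ≤ C := by
      have := Real.sqrt_nonneg C0
      linarith
    calc 1 / (3 * μ) = √(1 / (3 * μ)) ^ 2 := (Real.sq_sqrt (by positivity)).symm
      _ ≤ C ^ 2 := by gcongr
  have hle2 : C2 ≤ C := by
    have := Real.sqrt_nonneg C0
    have := Real.sqrt_nonneg (1 / (3 * μ))
    linarith
  have hii : ∀ φ : ℝ → ℝ, ContDiff ℝ ∞ φ →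
      IntervalIntegrable (fun t => (aw G 2 (μ * t) L).re * φ t) volume 0 T := fun φ hφ =>
    ((TrInitAux.aw_re_cont G 2 μ L).mul hφ.continuous).intervalIntegrable _ _
  refine ⟨fun t => (aw G 0 (μ * t) 0).re, fun t => (aw G 1 (μ * t) L).re,
    fun φ => ∫ t in (0 : ℝ)..T, (aw G 2 (μ * t) L).re * φ t, ?_⟩
  refine ⟨by positivity, integrableOn_zero, ?_, ?_, ?_, ?_, ?_, ?_, ?_, ?_, ?_⟩
  · exact (TrInitAux.aw_re_cont G 0 μ 0).aestronglyMeasurable
  · refine (h0 G g hg 0 ⟨le_refl _, hL.le⟩).trans (ENNReal.ofReal_le_ofReal ?_)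
    rw [mul_pow]
    gcongr
  · exact (TrInitAux.aw_re_cont G 1 μ L).aestronglyMeasurable
  · calc ∫⁻ t in Ioo 0 T, ‖(aw G 1 (μ * t) L).re‖ₑ ^ 2
        ≤ ∫⁻ t : ℝ, ‖(aw G 1 (μ * t) L).re‖ₑ ^ 2 := setLIntegral_le_lintegral _ _
      _ ≤ ∫⁻ t : ℝ, ‖aw G 1 (μ * t) L‖ₑ ^ 2 := by
          refine lintegral_mono fun t => ?_
          gcongr
          rw [enorm_le_iff_norm_le]
          exact Complex.abs_re_le_norm _
      _ ≤ ENNReal.ofReal (‖toL2 g‖ ^ 2 / (3 * μ)) := kn1 hμ hg L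
      _ ≤ _ := by
          refine ENNReal.ofReal_le_ofReal ?_
          rw [mul_pow, div_eq_mul_one_div, mul_comm]
          gcongr
  · intro φ χ hφ hχ
    rw [← intervalIntegral.integral_add (hii φ hφ) (hii χ hχ)]
    exact intervalIntegral.integral_congr fun t _ => by simp only; ring
  · intro r φ hφ
    rw [← intervalIntegral.integral_const_mul]
    exact intervalIntegral.integral_congr fun t _ => by simp only; ring
  · intro φ hφ
    have h3 := h2 G g hg L 0 ⟨le_refl _, hT.le⟩ φ hφ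
    simp only [sub_zero] at h3
    refine h3.trans ?_
    gcongr
  · intro φ hφ
    have h3 := weak_nice (μ := μ) hL hg (s := 0) ⟨le_refl _, hT.le⟩ hφ
    simp only [sub_zero] at h3
    have e1 : ∀ t : ℝ, ∀ ζ : ℝ → ℝ,
        ∫ x in Ioo 0 L, ((sm1 hL hμ).traj (toL2 g) (fun _ => 0) t x) * ζ x
          = ∫ x in Ioo 0 L, (aw G 0 (μ * t) x).re * ζ x := by
      intro t ζ
      refine integral_congr_ae (ae_restrict_of_ae ?_)
      filter_upwards [TrInitAux.traj_ae hL hμ hg t] with x hx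
      rw [hx]
    have e2 : ∫ x in Ioo 0 L, (toL2 g x) * φ 0 x = ∫ x in Ioo 0 L, g x * φ 0 x := by
      refine integral_congr_ae (ae_restrict_of_ae ?_)
      filter_upwards [toL2_ae hg.memLp] with x hx
      rw [hx]
    have e3 : ∀ F : ℝ → ℝ, ∫ t in Ioo 0 T, F t = ∫ t in (0 : ℝ)..T, F t := by
      intro F
      rw [intervalIntegral.integral_of_le hT.le, integral_Ioc_eq_integral_Ioo]
    have e4 : ∀ t : ℝ, ∫ x in Ioo 0 L,
        ((sm1 hL hμ).traj (toL2 g) (fun _ => 0) t x * (deriv (fun r => φ r x) t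
          + μ * iteratedDeriv 3 (φ t) x) + (0 : L2) x * φ t x)
        = ∫ x in Ioo 0 L, (aw G 0 (μ * t) x).re * (deriv (fun r => φ r x) t
          + μ * iteratedDeriv 3 (φ t) x) := by
      intro t
      refine integral_congr_ae (ae_restrict_of_ae ?_)
      filter_upwards [TrInitAux.traj_ae hL hμ hg t,
        Lp.coeFn_zero ℝ 2 (volume : Measure ℝ)] with x hx hx0
      rw [hx, hx0, Pi.zero_apply, zero_mul, add_zero]
    rw [e1, e2, h3]
    simp only [e4]
    rw [e3, e3, e3]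
  · intro v hv
    filter_upwards [hv.lift] with t ht
    symm
    refine V1.val_unique hL (v t) (TrInitAux.aw_re_cont_x G 0 (μ * t)) ?_ 0
      ⟨by norm_num, by linarith⟩
    have h3 : V1.u L (v t) = (sm1 hL hμ).traj (toL2 g) (fun _ => 0) t := ht
    rw [h3]
    filter_upwards [TrInitAux.traj_ae hL hμ hg t] with x hx _ using hx

end Pool.Agent.Kdv
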