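import Mathlib

/-!
# Weak sequential compactness of the unit ball
-/

set_option autoImplicit false

namespace Pool.Agent.Kdv

open MeasureTheory Filter Topology Set
open scoped ENNReal InnerProductSpace

theorem exists_weak_limit {H : Type} [NormedAddCommGroup H] [InnerProductSpace ℝ H]
    [CompleteSpace H] [SecondCountableTopology H] (y : ℕ → H) (hy : ∀ k, ‖y k‖ ≤ 1) :
    ∃ (y0 : H) (φ : ℕ → ℕ), StrictMono φ ∧
      ∀ z : H, Tendsto (fun k => inner ℝ z (y (φ k))) atTop (𝓝 (inner ℝ z y0)) := by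
  have hc := WeakDual.isSeqCompact_closedBall (𝕜 := ℝ) (E := H) 0 1
  obtain ⟨ℓ, -, φ, hφ, hlim⟩ := @hc (fun k =>
    StrongDual.toWeakDual (InnerProductSpace.toDual ℝ H (y k))) (fun k => by
      have h0 : ‖InnerProductSpace.toDual ℝ H (y k)‖ ≤ 1 := by
        rw [LinearIsometryEquiv.norm_map]
        exact hy k
      simpa [Metric.mem_closedBall, dist_zero_right] using h0)
  refine ⟨(InnerProductSpace.toDual ℝ H).symm (WeakDual.toStrongDual ℓ), φ, hφ, fun z => ?_⟩
  have h1 : Tendsto (fun k => (StrongDual.toWeakDual (InnerProductSpace.toDual ℝ H (y (φ k)))) z)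
      atTop (𝓝 (ℓ z)) := by
    have := (WeakBilin.eval_continuous (topDualPairing ℝ H) z).tendsto ℓ
    exact this.comp hlim
  have h2 : inner ℝ z ((InnerProductSpace.toDual ℝ H).symm (WeakDual.toStrongDual ℓ)) = ℓ z := by
    rw [real_inner_comm, InnerProductSpace.toDual_symm_apply]
    rfl
  rw [h2]
  refine h1.congr fun k => ?_
  rw [real_inner_comm]
  rfl

end Pool.Agent.Kdv
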